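import Mathlib

set_option autoImplicit false
open Complex Metric Set Filter Topology Matrix

namespace Pool.Agent.Helper326.HB

/-- the Lorentz form on `ℂ^{1,1}` -/
noncomputable def J2 : Matrix (Fin 2) (Fin 2) ℂ := Matrix.diagonal ![-1, 1]

/-- the Lorentz form on `ℂ^{1,2}` -/
noncomputable def J3 : Matrix (Fin 3) (Fin 3) ℂ := Matrix.diagonal ![-1, 1, 1]

/-- `g ∈ U(1,1)` -/
def U2 (g : Matrix (Fin 2) (Fin 2) ℂ) : Prop := gᴴ * J2 * g = J2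

/-- `A ∈ U(1,2)` -/
def U3 (A : Matrix (Fin 3) (Fin 3) ℂ) : Prop := Aᴴ * J3 * A = J3

/-- action of `U(1,1)` on the unit disc (affine coordinate `[1 : y]`) -/
noncomputable def mob (g : Matrix (Fin 2) (Fin 2) ℂ) (y : ℂ) : ℂ :=
  (g 1 0 + g 1 1 * y) / (g 0 0 + g 0 1 * y)

/-- the denominator of the action of `U(1,2)` (affine coordinates `[1 : x₁ : x₂]`) -/
noncomputable def den (A : Matrix (Fin 3) (Fin 3) ℂ) (x : ℂ × ℂ) : ℂ :=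
  A 0 0 + A 0 1 * x.1 + A 0 2 * x.2

/-- action of `U(1,2)` on the unit ball of `ℂ²` -/
noncomputable def act (A : Matrix (Fin 3) (Fin 3) ℂ) (x : ℂ × ℂ) : ℂ × ℂ :=
  ((A 1 0 + A 1 1 * x.1 + A 1 2 * x.2) / den A x, (A 2 0 + A 2 1 * x.1 + A 2 2 * x.2) / den A x)

/-- the unit ball of `ℂ²` (euclidean norm) -/
def B2 : Set (ℂ × ℂ) := {x | ‖x.1‖ ^ 2 + ‖x.2‖ ^ 2 < 1}

/-- `1 - |x|²` -/
noncomputable def q (x : ℂ × ℂ) : ℝ := 1 - ‖x.1‖ ^ 2 - ‖x.2‖ ^ 2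

/-- minus the Gram determinant of `(1,F), (0,F')` -/
noncomputable def Dd (F : ℂ → ℂ × ℂ) (y : ℂ) : ℝ :=
  q (F y) * (‖(deriv F y).1‖ ^ 2 + ‖(deriv F y).2‖ ^ 2) +
    ‖(deriv F y).1 * (starRingEnd ℂ) (F y).1 + (deriv F y).2 * (starRingEnd ℂ) (F y).2‖ ^ 2

/-- the Wronskian `F₁' F₂'' - F₂' F₁''` -/
noncomputable def Wr (F : ℂ → ℂ × ℂ) (y : ℂ) : ℂ :=
  (deriv F y).1 * (deriv (deriv F) y).2 - (deriv F y).2 * (deriv (deriv F) y).1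

/-- ratio of the pulled back metric to the hyperbolic metric -/
noncomputable def Vv (F : ℂ → ℂ × ℂ) (y : ℂ) : ℝ :=
  (1 - ‖y‖ ^ 2) ^ 2 * Dd F y / q (F y) ^ 2

/-- pseudohyperbolic distance -/
noncomputable def pd (x y : ℂ) : ℝ := ‖(x - y) / (1 - (starRingEnd ℂ) x * y)‖


/-- coefficients of the hypergeometric series with exponents `δ` at `0` and `-δ` at `∞` -/
noncomputable def hc {n : ℕ} (δ : Fin n → ℝ) (j : Fin n) : ℕ → ℝ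
  | 0 => 1
  | (k + 1) => hc δ j k * (∏ i, (δ j + k + δ i)) / (∏ i, (δ j + k + 1 - δ i))

/-- the power series `∑ c_k z^k` -/
noncomputable def P {n : ℕ} (δ : Fin n → ℝ) (j : Fin n) (z : ℂ) : ℂ :=
  ∑' k : ℕ, (hc δ j k : ℂ) * z ^ k

/-- `psi δ j u = exp(δ_j u) P(exp u)` -/
noncomputable def psi {n : ℕ} (δ : Fin n → ℝ) (j : Fin n) (u : ℂ) : ℂ :=
  ∑' k : ℕ, (hc δ j k : ℂ) * Complex.exp (((δ j : ℂ) + k) * u)

/-- `m`-th derivative of `x ↦ ∑ (-1)^k c_k exp((δ_j+k) x)` (for `x < 0`) -/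
noncomputable def Vr {n : ℕ} (δ : Fin n → ℝ) (j : Fin n) (m : ℕ) (x : ℝ) : ℝ :=
  ∑' k : ℕ, (-1) ^ k * hc δ j k * (δ j + k) ^ m * Real.exp ((δ j + k) * x)

noncomputable def dG : Fin 2 → ℝ := ![5 / 72, 13 / 72]
noncomputable def dF : Fin 3 → ℝ := ![7 / 108, 19 / 108, 55 / 108]
noncomputable def dU : Fin 3 → ℝ := ![-1 / 108, 35 / 108, 47 / 108]


/-- the developing map of the disc onto the (rotated) triangles -/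
noncomputable def sfun (g1 : ℝ) (w : ℂ) : ℂ :=
  (Real.sqrt g1 : ℂ) * w * P dG 1 (w ^ 9) / P dG 0 (w ^ 9)

/-- the curve in the ball -/
noncomputable def ffun (h1 h2 : ℝ) (w : ℂ) : ℂ × ℂ :=
  ((Real.sqrt h1 : ℂ) * w * P dF 1 (w ^ 9) / P dF 0 (w ^ 9),
    (Real.sqrt h2 : ℂ) * w ^ 4 * P dF 2 (w ^ 9) / P dF 0 (w ^ 9))

/-- minus the value of the hermitian form, normalised -/
noncomputable def NF (h1 h2 : ℝ) (z : ℂ) : ℝ :=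
  ‖P dF 0 z‖ ^ 2 - h1 * ‖z‖ ^ (2 / 9 : ℝ) * ‖P dF 1 z‖ ^ 2 - h2 * ‖z‖ ^ (8 / 9 : ℝ) * ‖P dF 2 z‖ ^ 2

/-- the normalised second Gram determinant -/
noncomputable def GF (h1 h2 : ℝ) (z : ℂ) : ℝ :=
  h1 * ‖P dU 0 z‖ ^ 2 + 16 * h2 * ‖z‖ ^ (6 / 9 : ℝ) * ‖P dU 1 z‖ ^ 2 -
    9 * h1 * h2 * ‖z‖ ^ (8 / 9 : ℝ) * ‖P dU 2 z‖ ^ 2


/-- the criterion: after any renormalisation the second derivative is dominated by `k v²`, and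
`v² ≥ c`. -/
def Crit (F : ℂ → ℂ × ℂ) (k c : ℝ) : Prop :=
  ∀ (g : Matrix (Fin 2) (Fin 2) ℂ) (A : Matrix (Fin 3) (Fin 3) ℂ), U2 g → U3 A →
    act A (F (mob g 0)) = 0 →
    ‖(deriv (deriv (fun t => act A (F (mob g t)))) 0).1‖ ^ 2 +
      ‖(deriv (deriv (fun t => act A (F (mob g t)))) 0).2‖ ^ 2 ≤
      k ^ 2 * (‖(deriv (fun t => act A (F (mob g t))) 0).1‖ ^ 2 +
        ‖(deriv (fun t => act A (F (mob g t))) 0).2‖ ^ 2) ^ 2 ∧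
    c ≤ ‖(deriv (fun t => act A (F (mob g t))) 0).1‖ ^ 2 +
        ‖(deriv (fun t => act A (F (mob g t))) 0).2‖ ^ 2

/-- `(g, A)` is an equivariance pair for `F` -/
def Pair (F : ℂ → ℂ × ℂ) (g : Matrix (Fin 2) (Fin 2) ℂ) (A : Matrix (Fin 3) (Fin 3) ℂ) : Prop :=
  U2 g ∧ U3 A ∧ ∀ x ∈ ball (0 : ℂ) 1, F (mob g x) = act A (F x)

/-- the pairs move every point of the disc into the compact set `C` -/
def Cover (F : ℂ → ℂ × ℂ) (C : Set ℂ) : Prop :=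
  IsCompact C ∧ C ⊆ ball (0 : ℂ) 1 ∧ ∀ y ∈ ball (0 : ℂ) 1, ∃ x ∈ C, ∃ g A, Pair F g A ∧ mob g x = y


/-- the local model at `k`, on the pseudohyperbolic disc of radius `δ` around `s k` -/
def LocP (s : ℂ → ℂ) (f : ℂ → ℂ × ℂ) (δ : ℝ) (k : ℂ) (φ : ℂ → ℂ × ℂ) : Prop :=
  DifferentiableOn ℂ φ {x | x ∈ ball (0 : ℂ) 1 ∧ pd (s k) x < δ} ∧
  MapsTo φ {x | x ∈ ball (0 : ℂ) 1 ∧ pd (s k) x < δ} B2 ∧
  (∀ᶠ k' in 𝓝[ball (0 : ℂ) 1] k, φ (s k') = f k') ∧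
  ∀ y ∈ ball (0 : ℂ) 1, pd (s k) y < δ → ∃ k'' ∈ closedBall (0 : ℂ) 1,
    ∃ (g : Matrix (Fin 2) (Fin 2) ℂ) (A : Matrix (Fin 3) (Fin 3) ℂ), U2 g ∧ U3 A ∧
      mob g (s k'') = y ∧ ∀ᶠ k' in 𝓝[ball (0 : ℂ) 1] k'', φ (mob g (s k')) = act A (f k')


end Pool.Agent.Helper326.HB
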