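import Mathlib
import Pool.Agent.Helper326.HB.Defs

set_option autoImplicit false
open Complex Metric Set Filter Topology Matrix

namespace Pool.Agent.Helper326.HB

theorem U2_iff (g : Matrix (Fin 2) (Fin 2) ℂ) : U2 g ↔
    ((starRingEnd ℂ) (g 0 0) * g 0 0 - (starRingEnd ℂ) (g 1 0) * g 1 0 = 1 ∧
    (starRingEnd ℂ) (g 0 0) * g 0 1 - (starRingEnd ℂ) (g 1 0) * g 1 1 = 0 ∧
    (starRingEnd ℂ) (g 0 1) * g 0 0 - (starRingEnd ℂ) (g 1 1) * g 1 0 = 0 ∧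
    (starRingEnd ℂ) (g 0 1) * g 0 1 - (starRingEnd ℂ) (g 1 1) * g 1 1 = -1) := by
  unfold U2 J2
  rw [← Matrix.ext_iff]
  simp only [Fin.forall_fin_two, Matrix.mul_apply, Fin.sum_univ_two, Matrix.conjTranspose_apply,
    Matrix.diagonal_apply]
  simp
  constructor
  · rintro ⟨⟨h1, h2⟩, h3, h4⟩
    exact ⟨by linear_combination -h1, by linear_combination -h2, by linear_combination -h3,
      by linear_combination -h4⟩
  · rintro ⟨h1, h2, h3, h4⟩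
    exact ⟨⟨by linear_combination -h1, by linear_combination -h2⟩, by linear_combination -h3,
      by linear_combination -h4⟩

theorem U2_polar {g : Matrix (Fin 2) (Fin 2) ℂ} (hg : U2 g) (x y : ℂ) :
    (starRingEnd ℂ) (g 0 0 + g 0 1 * x) * (g 0 0 + g 0 1 * y) -
      (starRingEnd ℂ) (g 1 0 + g 1 1 * x) * (g 1 0 + g 1 1 * y) = 1 - (starRingEnd ℂ) x * y := by
  obtain ⟨h1, h2, h3, h4⟩ := (U2_iff g).1 hg
  simp only [map_add, map_mul]
  linear_combination h1 + y * h2 + (starRingEnd ℂ) x * h3 + (starRingEnd ℂ) x * y * h4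

theorem U2_key {g : Matrix (Fin 2) (Fin 2) ℂ} (hg : U2 g) (y : ℂ) :
    ‖g 0 0 + g 0 1 * y‖ ^ 2 - ‖g 1 0 + g 1 1 * y‖ ^ 2 = 1 - ‖y‖ ^ 2 := by
  have h := U2_polar hg y y
  rw [← Complex.normSq_eq_conj_mul_self, ← Complex.normSq_eq_conj_mul_self,
    ← Complex.normSq_eq_conj_mul_self, Complex.normSq_eq_norm_sq, Complex.normSq_eq_norm_sq,
    Complex.normSq_eq_norm_sq] at h
  exact_mod_cast h

theorem U2_y {y : ℂ} (hy : y ∈ ball (0 : ℂ) 1) : 0 < 1 - ‖y‖ ^ 2 := by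
  have h1 : ‖y‖ < 1 := by simpa using hy
  nlinarith [norm_nonneg y]

theorem U2_mul {g h : Matrix (Fin 2) (Fin 2) ℂ} (hg : U2 g) (hh : U2 h) : U2 (g * h) := by
  unfold U2 at *
  rw [Matrix.conjTranspose_mul]
  calc hᴴ * gᴴ * J2 * (g * h) = hᴴ * (gᴴ * J2 * g) * h := by simp only [Matrix.mul_assoc]
    _ = J2 := by rw [hg, hh]

theorem U2_one : U2 1 := by
  unfold U2
  rw [Matrix.conjTranspose_one, Matrix.one_mul, Matrix.mul_one]

theorem U2_det {g : Matrix (Fin 2) (Fin 2) ℂ} (hg : U2 g) : ‖g.det‖ = 1 := by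
  have h1 := congrArg Matrix.det hg
  rw [Matrix.det_mul, Matrix.det_mul, Matrix.det_conjTranspose] at h1
  have hJ : J2.det = -1 := by
    unfold J2
    rw [Matrix.det_diagonal]
    simp
  rw [hJ] at h1
  have h2 : (starRingEnd ℂ) g.det * g.det = 1 := by
    have h3 : star g.det * -1 * g.det = -1 := h1
    have h4 : star g.det = (starRingEnd ℂ) g.det := rfl
    rw [h4] at h3
    linear_combination -h3
  rw [← Complex.normSq_eq_conj_mul_self, Complex.normSq_eq_norm_sq] at h2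
  have h5 : ‖g.det‖ ^ 2 = 1 := by exact_mod_cast h2
  have h6 : ‖g.det‖ ^ 2 = 1 ^ 2 := by rw [h5, one_pow]
  exact (pow_left_inj₀ (norm_nonneg _) zero_le_one two_ne_zero).1 h6

theorem U2_inv {g : Matrix (Fin 2) (Fin 2) ℂ} (hg : U2 g) : U2 g⁻¹ ∧ g⁻¹ * g = 1 ∧ g * g⁻¹ = 1 := by
  have hd : IsUnit g.det := by
    rw [isUnit_iff_ne_zero]
    intro h0
    have := U2_det hg
    rw [h0, norm_zero] at this
    exact zero_ne_one this
  have h1 : g⁻¹ * g = 1 := Matrix.nonsing_inv_mul g hd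
  have h2 : g * g⁻¹ = 1 := Matrix.mul_nonsing_inv g hd
  refine ⟨?_, h1, h2⟩
  unfold U2 at *
  have h3 : (g⁻¹)ᴴ * gᴴ = 1 := by
    rw [← Matrix.conjTranspose_mul, h2, Matrix.conjTranspose_one]
  calc (g⁻¹)ᴴ * J2 * g⁻¹ = (g⁻¹)ᴴ * (gᴴ * J2 * g) * g⁻¹ := by rw [hg]
    _ = ((g⁻¹)ᴴ * gᴴ) * J2 * (g * g⁻¹) := by simp only [Matrix.mul_assoc]
    _ = J2 := by rw [h3, h2, Matrix.one_mul, Matrix.mul_one]

theorem mob_den_ne {g : Matrix (Fin 2) (Fin 2) ℂ} (hg : U2 g) {y : ℂ} (hy : y ∈ ball (0 : ℂ) 1) :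
    g 0 0 + g 0 1 * y ≠ 0 := by
  intro h0
  have h1 := U2_key hg y
  rw [h0, norm_zero] at h1
  have h2 := U2_y hy
  have h3 := sq_nonneg ‖g 1 0 + g 1 1 * y‖
  norm_num at h1
  linarith

theorem mob_norm {g : Matrix (Fin 2) (Fin 2) ℂ} (hg : U2 g) {y : ℂ} (hy : y ∈ ball (0 : ℂ) 1) :
    1 - ‖mob g y‖ ^ 2 = (1 - ‖y‖ ^ 2) / ‖g 0 0 + g 0 1 * y‖ ^ 2 := by
  have h1 := U2_key hg y
  have h2 : ‖g 0 0 + g 0 1 * y‖ ^ 2 ≠ 0 := pow_ne_zero 2 (norm_ne_zero_iff.2 (mob_den_ne hg hy))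
  unfold mob
  rw [norm_div, div_pow, ← h1, sub_div, div_self h2]

theorem mob_mem {g : Matrix (Fin 2) (Fin 2) ℂ} (hg : U2 g) {y : ℂ} (hy : y ∈ ball (0 : ℂ) 1) :
    mob g y ∈ ball (0 : ℂ) 1 := by
  have h1 := mob_norm hg hy
  have h2 : 0 < (1 - ‖y‖ ^ 2) / ‖g 0 0 + g 0 1 * y‖ ^ 2 :=
    div_pos (U2_y hy) (pow_pos (norm_pos_iff.2 (mob_den_ne hg hy)) 2)
  rw [← h1] at h2
  rw [mem_ball_zero_iff]
  by_contra h3
  push Not at h3
  nlinarith [norm_nonneg (mob g y)]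

theorem mob_mul {g h : Matrix (Fin 2) (Fin 2) ℂ} (hg : U2 g) (hh : U2 h) {y : ℂ}
    (hy : y ∈ ball (0 : ℂ) 1) : mob (g * h) y = mob g (mob h y) := by
  have h1 := mob_den_ne hh hy
  have h2 := mob_den_ne hg (mob_mem hh hy)
  have h3 := mob_den_ne (U2_mul hg hh) hy
  unfold mob at h2 ⊢
  simp only [Matrix.mul_apply, Fin.sum_univ_two] at h3 ⊢
  rw [div_eq_div_iff h3 h2]
  field_simp
  ring

theorem mob_one (y : ℂ) : mob 1 y = y := by
  unfold mob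
  simp

theorem mob_inv_mob {g : Matrix (Fin 2) (Fin 2) ℂ} (hg : U2 g) {y : ℂ} (hy : y ∈ ball (0 : ℂ) 1) :
    mob g⁻¹ (mob g y) = y ∧ mob g (mob g⁻¹ y) = y := by
  obtain ⟨h1, h2, h3⟩ := U2_inv hg
  constructor
  · rw [← mob_mul h1 hg hy, h2, mob_one]
  · rw [← mob_mul hg h1 hy, h3, mob_one]

theorem mob_hasDerivAt {g : Matrix (Fin 2) (Fin 2) ℂ} (hg : U2 g) {y : ℂ}
    (hy : y ∈ ball (0 : ℂ) 1) : HasDerivAt (mob g) (g.det / (g 0 0 + g 0 1 * y) ^ 2) y := by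
  have h1 := mob_den_ne hg hy
  have hn : HasDerivAt (fun y : ℂ => g 1 0 + g 1 1 * y) (g 1 1) y := by
    simpa using ((hasDerivAt_id y).const_mul (g 1 1)).const_add (g 1 0)
  have hd : HasDerivAt (fun y : ℂ => g 0 0 + g 0 1 * y) (g 0 1) y := by
    simpa using ((hasDerivAt_id y).const_mul (g 0 1)).const_add (g 0 0)
  have h2 := hn.div hd h1
  have h3 : (g 1 1 * (g 0 0 + g 0 1 * y) - (g 1 0 + g 1 1 * y) * g 0 1) = g.det := by
    rw [Matrix.det_fin_two]; ring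
  rw [h3] at h2
  exact h2

theorem mob_deriv_norm {g : Matrix (Fin 2) (Fin 2) ℂ} (hg : U2 g) {y : ℂ}
    (hy : y ∈ ball (0 : ℂ) 1) :
    ‖deriv (mob g) y‖ * (1 - ‖y‖ ^ 2) = 1 - ‖mob g y‖ ^ 2 ∧ deriv (mob g) y ≠ 0 := by
  have h1 := mob_den_ne hg hy
  have h2 : ‖g 0 0 + g 0 1 * y‖ ≠ 0 := norm_ne_zero_iff.2 h1
  rw [(mob_hasDerivAt hg hy).deriv]
  constructor
  · rw [norm_div, norm_pow, U2_det hg, mob_norm hg hy]
    ring
  · apply div_ne_zero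
    · intro h0
      have := U2_det hg
      rw [h0, norm_zero] at this
      exact zero_ne_one this
    · exact pow_ne_zero 2 h1

theorem mob_pd {g : Matrix (Fin 2) (Fin 2) ℂ} (hg : U2 g) {x y : ℂ} (hx : x ∈ ball (0 : ℂ) 1)
    (hy : y ∈ ball (0 : ℂ) 1) : pd (mob g x) (mob g y) = pd x y := by
  have hdx := mob_den_ne hg hx
  have hdy := mob_den_ne hg hy
  have hcx : (starRingEnd ℂ) (g 0 0 + g 0 1 * x) ≠ 0 := by
    rw [Ne, map_eq_zero]; exact hdx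
  have e1 : mob g x - mob g y = g.det * (x - y) / ((g 0 0 + g 0 1 * x) * (g 0 0 + g 0 1 * y)) := by
    unfold mob
    rw [div_sub_div _ _ hdx hdy, Matrix.det_fin_two]
    congr 1
    ring
  have e2 : 1 - (starRingEnd ℂ) (mob g x) * mob g y =
      (1 - (starRingEnd ℂ) x * y) / ((starRingEnd ℂ) (g 0 0 + g 0 1 * x) * (g 0 0 + g 0 1 * y)) := by
    rw [← U2_polar hg x y]
    unfold mob
    rw [map_div₀, div_mul_div_comm, sub_div, div_self (mul_ne_zero hcx hdy)]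
  unfold pd
  rw [e1, e2, norm_div, norm_div, norm_div, norm_div, norm_mul, norm_mul, norm_mul, U2_det hg,
    RCLike.norm_conj, one_mul]
  have hnx : ‖g 0 0 + g 0 1 * x‖ ≠ 0 := norm_ne_zero_iff.2 hdx
  have hny : ‖g 0 0 + g 0 1 * y‖ ≠ 0 := norm_ne_zero_iff.2 hdy
  rw [div_div_div_cancel_right₀ (mul_ne_zero hnx hny)]

/-- translations along geodesics -/
theorem exists_mob (c : ℂ) (hc : ‖c‖ = 1) (r : ℝ) (hr : |r| < 1) :
    ∃ g, U2 g ∧ ∀ y : ℂ, mob g y = c * ((y + r) / (1 + r * y)) := by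
  have h1 : 0 < 1 - r ^ 2 := by
    have := abs_lt.1 hr
    nlinarith
  set s : ℝ := (Real.sqrt (1 - r ^ 2))⁻¹ with hs
  have hs0 : 0 < s := by rw [hs]; positivity
  have hs2 : s ^ 2 * (1 - r ^ 2) = 1 := by
    rw [hs, inv_pow, Real.sq_sqrt h1.le, inv_mul_cancel₀ h1.ne']
  have hs2c : (s : ℂ) ^ 2 * (1 - (r : ℂ) ^ 2) = 1 := by exact_mod_cast hs2
  have hcc : (starRingEnd ℂ) c * c = 1 := by
    rw [← Complex.normSq_eq_conj_mul_self, Complex.normSq_eq_norm_sq, hc]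
    norm_num
  have hsc : (s : ℂ) ≠ 0 := by exact_mod_cast hs0.ne'
  refine ⟨!![(s : ℂ), s * r; s * (c * r), s * c], ?_, ?_⟩
  · rw [U2_iff]
    simp only [Matrix.of_apply, Matrix.cons_val', Matrix.cons_val_zero, Matrix.cons_val_one,
      Matrix.cons_val_fin_one, map_mul, Complex.conj_ofReal]
    refine ⟨?_, ?_, ?_, ?_⟩
    · linear_combination hs2c - (s : ℂ) ^ 2 * (r : ℂ) ^ 2 * hcc
    · linear_combination (-(s : ℂ) ^ 2 * (r : ℂ)) * hcc
    · linear_combination (-(s : ℂ) ^ 2 * (r : ℂ)) * hcc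
    · linear_combination (-1) * hs2c - (s : ℂ) ^ 2 * hcc
  · intro y
    unfold mob
    simp only [Matrix.of_apply, Matrix.cons_val', Matrix.cons_val_zero, Matrix.cons_val_one,
      Matrix.cons_val_fin_one]
    have e1 : (s : ℂ) * (c * r) + s * c * y = s * (c * (y + r)) := by ring
    have e2 : (s : ℂ) + s * r * y = s * (1 + r * y) := by ring
    rw [e1, e2, mul_div_mul_left _ _ hsc, mul_div_assoc]

theorem exists_mob_zero {x : ℂ} (hx : x ∈ ball (0 : ℂ) 1) : ∃ g, U2 g ∧ mob g 0 = x := by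
  have hx1 : ‖x‖ < 1 := by simpa using hx
  by_cases h0 : x = 0
  · refine ⟨1, U2_one, ?_⟩
    rw [mob_one, h0]
  · have hn : ‖x‖ ≠ 0 := norm_ne_zero_iff.2 h0
    have hnc : (‖x‖ : ℂ) ≠ 0 := by exact_mod_cast hn
    obtain ⟨g, hg, hgm⟩ := exists_mob (x / ‖x‖) (by
      rw [norm_div, Complex.norm_real, norm_norm, div_self hn]) ‖x‖ (by
      rw [abs_norm]; exact hx1)
    refine ⟨g, hg, ?_⟩
    rw [hgm]
    rw [zero_add, mul_zero, add_zero, div_one, div_mul_cancel₀ _ hnc]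

end Pool.Agent.Helper326.HB
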