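import Mathlib
import Pool.Agent.Helper326.HB.Defs

set_option autoImplicit false
open Complex Metric Set Filter Topology Matrix

namespace Pool.Agent.Helper326.HB

/-- the lift of a point -/
noncomputable def vec3 (x : ℂ × ℂ) : Fin 3 → ℂ := ![1, x.1, x.2]

/-- minus the Lorentz form -/
noncomputable def hh (v w : Fin 3 → ℂ) : ℂ :=
  v 0 * (starRingEnd ℂ) (w 0) - v 1 * (starRingEnd ℂ) (w 1) - v 2 * (starRingEnd ℂ) (w 2)

theorem hh_eq (v w : Fin 3 → ℂ) : hh v w = -(star w ⬝ᵥ (J3 *ᵥ v)) := by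
  unfold hh J3
  simp [dotProduct, Matrix.mulVec_diagonal, Fin.sum_univ_three]
  ring

theorem hh_inv {A : Matrix (Fin 3) (Fin 3) ℂ} (hA : U3 A) (v w : Fin 3 → ℂ) :
    hh (A *ᵥ v) (A *ᵥ w) = hh v w := by
  have h1 : star (A *ᵥ w) ⬝ᵥ (J3 *ᵥ (A *ᵥ v)) = star w ⬝ᵥ (J3 *ᵥ v) := by
    have h2 : Aᴴ * J3 * A = J3 := hA
    rw [Matrix.star_mulVec, ← Matrix.dotProduct_mulVec, Matrix.mulVec_mulVec, Matrix.mulVec_mulVec, h2]
  rw [hh_eq, hh_eq, h1]

theorem hh_smul (a b : ℂ) (v w : Fin 3 → ℂ) :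
    hh (a • v) (b • w) = a * (starRingEnd ℂ) b * hh v w := by
  unfold hh
  simp only [Pi.smul_apply, smul_eq_mul, map_mul]
  ring

theorem hh_vec3 (x y : ℂ × ℂ) : hh (vec3 x) (vec3 y) =
    1 - x.1 * (starRingEnd ℂ) y.1 - x.2 * (starRingEnd ℂ) y.2 := by
  unfold hh vec3
  simp

theorem hh_self (v : Fin 3 → ℂ) : hh v v = ((‖v 0‖ ^ 2 - ‖v 1‖ ^ 2 - ‖v 2‖ ^ 2 : ℝ) : ℂ) := by
  unfold hh
  rw [Complex.mul_conj, Complex.mul_conj, Complex.mul_conj, Complex.normSq_eq_norm_sq,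
    Complex.normSq_eq_norm_sq, Complex.normSq_eq_norm_sq]
  push_cast
  ring

theorem hh_vec3_self (x : ℂ × ℂ) : hh (vec3 x) (vec3 x) = (q x : ℂ) := by
  rw [hh_self]
  unfold vec3 q
  simp

theorem mulVec_vec3 (A : Matrix (Fin 3) (Fin 3) ℂ) (x : ℂ × ℂ) (i : Fin 3) :
    (A *ᵥ vec3 x) i = A i 0 + A i 1 * x.1 + A i 2 * x.2 := by
  unfold vec3
  simp [Matrix.mulVec, dotProduct, Fin.sum_univ_three]

theorem mulVec_vec3_zero (A : Matrix (Fin 3) (Fin 3) ℂ) (x : ℂ × ℂ) :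
    (A *ᵥ vec3 x) 0 = den A x := mulVec_vec3 A x 0

theorem J3_sq : J3 * J3 = 1 := by
  unfold J3
  rw [Matrix.diagonal_mul_diagonal, ← Matrix.diagonal_one]
  congr 1
  funext i
  fin_cases i <;> simp

theorem U3_mul {A B : Matrix (Fin 3) (Fin 3) ℂ} (hA : U3 A) (hB : U3 B) : U3 (A * B) := by
  have h1 : Aᴴ * J3 * A = J3 := hA
  have h2 : Bᴴ * J3 * B = J3 := hB
  show (A * B)ᴴ * J3 * (A * B) = J3
  calc (A * B)ᴴ * J3 * (A * B) = Bᴴ * (Aᴴ * J3 * A) * B := by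
        rw [Matrix.conjTranspose_mul]
        simp only [Matrix.mul_assoc]
    _ = J3 := by rw [h1, h2]

theorem U3_one : U3 1 := by
  show (1 : Matrix (Fin 3) (Fin 3) ℂ)ᴴ * J3 * 1 = J3
  rw [Matrix.conjTranspose_one, one_mul, mul_one]

theorem U3_inv {A : Matrix (Fin 3) (Fin 3) ℂ} (hA : U3 A) : U3 A⁻¹ ∧ A⁻¹ * A = 1 ∧ A * A⁻¹ = 1 := by
  have h1 : Aᴴ * J3 * A = J3 := hA
  have h2 : (J3 * Aᴴ * J3) * A = 1 := by
    calc (J3 * Aᴴ * J3) * A = J3 * (Aᴴ * J3 * A) := by simp only [Matrix.mul_assoc]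
      _ = 1 := by rw [h1, J3_sq]
  have h3 : A⁻¹ = J3 * Aᴴ * J3 := Matrix.inv_eq_left_inv h2
  have h4 : A⁻¹ * A = 1 := by rw [h3, h2]
  have h5 : A * A⁻¹ = 1 := mul_eq_one_comm.mp h4
  refine ⟨?_, h4, h5⟩
  show (A⁻¹)ᴴ * J3 * A⁻¹ = J3
  calc (A⁻¹)ᴴ * J3 * A⁻¹ = (A⁻¹)ᴴ * (Aᴴ * J3 * A) * A⁻¹ := by rw [h1]
    _ = (A * A⁻¹)ᴴ * J3 * (A * A⁻¹) := by
        rw [Matrix.conjTranspose_mul]
        simp only [Matrix.mul_assoc]
    _ = J3 := by rw [h5, Matrix.conjTranspose_one, one_mul, mul_one]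

theorem U3_det {A : Matrix (Fin 3) (Fin 3) ℂ} (hA : U3 A) : ‖A.det‖ = 1 := by
  have h1 : Aᴴ * J3 * A = J3 := hA
  have h2 := congrArg Matrix.det h1
  rw [Matrix.det_mul, Matrix.det_mul, Matrix.det_conjTranspose] at h2
  have h3 : J3.det = -1 := by
    unfold J3
    rw [Matrix.det_diagonal, Fin.prod_univ_three]
    simp
  rw [h3] at h2
  have h4 : star A.det * A.det = 1 := by linear_combination -h2
  have h5 := congrArg norm h4
  rw [norm_mul, norm_star, norm_one] at h5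
  nlinarith [norm_nonneg A.det]

theorem q_pos_iff (x : ℂ × ℂ) : 0 < q x ↔ x ∈ B2 := by
  show 0 < 1 - ‖x.1‖ ^ 2 - ‖x.2‖ ^ 2 ↔ ‖x.1‖ ^ 2 + ‖x.2‖ ^ 2 < 1
  constructor <;> intro h <;> linarith

theorem den_ne {A : Matrix (Fin 3) (Fin 3) ℂ} (hA : U3 A) {x : ℂ × ℂ} (hx : x ∈ B2) :
    den A x ≠ 0 := by
  intro h0
  have h1 := hh_inv hA (vec3 x) (vec3 x)
  rw [hh_vec3_self, hh_self, mulVec_vec3_zero, h0] at h1
  have h2 := Complex.ofReal_injective h1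
  have h3 := (q_pos_iff x).mpr hx
  rw [norm_zero] at h2
  nlinarith [sq_nonneg ‖(A *ᵥ vec3 x) 1‖, sq_nonneg ‖(A *ᵥ vec3 x) 2‖]

theorem mulVec_act {A : Matrix (Fin 3) (Fin 3) ℂ} (hA : U3 A) {x : ℂ × ℂ} (hx : x ∈ B2) :
    A *ᵥ vec3 x = den A x • vec3 (act A x) := by
  have h0 := den_ne hA hx
  funext i
  fin_cases i
  · show (A *ᵥ vec3 x) 0 = den A x * 1
    rw [mulVec_vec3_zero, mul_one]
  · show (A *ᵥ vec3 x) 1 = den A x * ((A 1 0 + A 1 1 * x.1 + A 1 2 * x.2) / den A x)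
    rw [mulVec_vec3, mul_div_cancel₀ _ h0]
  · show (A *ᵥ vec3 x) 2 = den A x * ((A 2 0 + A 2 1 * x.1 + A 2 2 * x.2) / den A x)
    rw [mulVec_vec3, mul_div_cancel₀ _ h0]

theorem q_act {A : Matrix (Fin 3) (Fin 3) ℂ} (hA : U3 A) {x : ℂ × ℂ} (hx : x ∈ B2) :
    q (act A x) = q x / ‖den A x‖ ^ 2 := by
  have h0 := den_ne hA hx
  have h1 := hh_inv hA (vec3 x) (vec3 x)
  rw [mulVec_act hA hx, hh_smul, hh_vec3_self, hh_vec3_self, Complex.mul_conj,
    Complex.normSq_eq_norm_sq, ← Complex.ofReal_mul] at h1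
  have h2 := Complex.ofReal_injective h1
  have h3 : ‖den A x‖ ^ 2 ≠ 0 := pow_ne_zero 2 (norm_ne_zero_iff.mpr h0)
  rw [eq_div_iff h3, mul_comm]
  exact h2

theorem act_mem {A : Matrix (Fin 3) (Fin 3) ℂ} (hA : U3 A) {x : ℂ × ℂ} (hx : x ∈ B2) :
    act A x ∈ B2 := by
  rw [← q_pos_iff, q_act hA hx]
  have h0 := den_ne hA hx
  have h1 := (q_pos_iff x).mpr hx
  have h2 : 0 < ‖den A x‖ := norm_pos_iff.mpr h0
  positivity

theorem vec3_inj {a b : ℂ} {x y : ℂ × ℂ} (h : a • vec3 x = b • vec3 y) (ha : a ≠ 0) : x = y := by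
  have h0 : a * 1 = b * 1 := congrFun h 0
  have h1 : a * x.1 = b * y.1 := congrFun h 1
  have h2 : a * x.2 = b * y.2 := congrFun h 2
  have hab : a = b := by simpa using h0
  subst hab
  exact Prod.ext (mul_left_cancel₀ ha h1) (mul_left_cancel₀ ha h2)

theorem act_mul {A B : Matrix (Fin 3) (Fin 3) ℂ} (hA : U3 A) (hB : U3 B) {x : ℂ × ℂ}
    (hx : x ∈ B2) : act (A * B) x = act A (act B x) := by
  have h1 := mulVec_act (U3_mul hA hB) hx
  rw [← Matrix.mulVec_mulVec, mulVec_act hB hx, Matrix.mulVec_smul,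
    mulVec_act hA (act_mem hB hx), smul_smul] at h1
  exact (vec3_inj h1 (mul_ne_zero (den_ne hB hx) (den_ne hA (act_mem hB hx)))).symm

theorem act_one (x : ℂ × ℂ) : act 1 x = x := by
  unfold act den
  simp

theorem act_inv_act {A : Matrix (Fin 3) (Fin 3) ℂ} (hA : U3 A) {x : ℂ × ℂ} (hx : x ∈ B2) :
    act A⁻¹ (act A x) = x ∧ act A (act A⁻¹ x) = x := by
  obtain ⟨h1, h2, h3⟩ := U3_inv hA
  constructor
  · rw [← act_mul h1 hA hx, h2, act_one]
  · rw [← act_mul hA h1 hx, h3, act_one]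

theorem isOpen_B2 : IsOpen B2 :=
  isOpen_lt (by fun_prop) continuous_const

theorem act_differentiableOn {A : Matrix (Fin 3) (Fin 3) ℂ} (hA : U3 A) :
    DifferentiableOn ℂ (act A) B2 := by
  intro x hx
  have h0 := den_ne hA hx
  have h1 : ∀ a b c : ℂ, DifferentiableAt ℂ (fun x : ℂ × ℂ => a + b * x.1 + c * x.2) x := by
    intro a b c
    fun_prop
  refine DifferentiableAt.differentiableWithinAt ?_
  have h2 : DifferentiableAt ℂ (fun x : ℂ × ℂ => (den A x)⁻¹) x :=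
    DifferentiableAt.fun_inv (h1 _ _ _) h0
  unfold act
  simp only [div_eq_mul_inv]
  exact ((h1 _ _ _).mul h2).prodMk ((h1 _ _ _).mul h2)

theorem exists_act_zero {x : ℂ × ℂ} (hx : x ∈ B2) : ∃ A, U3 A ∧ act A x = 0 := by
  have hq := (q_pos_iff x).mpr hx
  obtain ⟨s, hs⟩ : ∃ s : ℝ, s = Real.sqrt (q x) := ⟨_, rfl⟩
  have hs0 : 0 < s := by rw [hs]; exact Real.sqrt_pos.mpr hq
  have hs2 : s ^ 2 = q x := by rw [hs]; exact Real.sq_sqrt hq.le
  obtain ⟨α, hα⟩ : ∃ α, α = x.1 := ⟨_, rfl⟩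
  obtain ⟨β, hβ⟩ : ∃ β, β = x.2 := ⟨_, rfl⟩
  obtain ⟨S, hS⟩ : ∃ S : ℂ, S = (s : ℂ) := ⟨_, rfl⟩
  obtain ⟨c, hc⟩ : ∃ c : ℂ, c = ((1 / (1 + s) : ℝ) : ℂ) := ⟨_, rfl⟩
  have hSc : (starRingEnd ℂ) S = S := by rw [hS, Complex.conj_ofReal]
  have hcc : (starRingEnd ℂ) c = c := by rw [hc, Complex.conj_ofReal]
  have hS0 : S ≠ 0 := by rw [hS, Ne, Complex.ofReal_eq_zero]; exact hs0.ne'
  have h1 : S ^ 2 + α * (starRingEnd ℂ) α + β * (starRingEnd ℂ) β = 1 := by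
    rw [Complex.mul_conj, Complex.mul_conj, Complex.normSq_eq_norm_sq, Complex.normSq_eq_norm_sq,
      hS, ← Complex.ofReal_pow, hs2, hα, hβ, ← Complex.ofReal_add, ← Complex.ofReal_add,
      ← Complex.ofReal_one]
    congr 1
    unfold q
    ring
  have h2 : c * (1 + S) = 1 := by
    rw [hc, hS, ← Complex.ofReal_one, ← Complex.ofReal_add, ← Complex.ofReal_mul]
    congr 1
    field_simp
  obtain ⟨Nn, hNn⟩ : ∃ Nn : Matrix (Fin 3) (Fin 3) ℂ, Nn =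
      !![1, -(starRingEnd ℂ) α, -(starRingEnd ℂ) β;
        -α, S + c * α * (starRingEnd ℂ) α, c * α * (starRingEnd ℂ) β;
        -β, c * β * (starRingEnd ℂ) α, S + c * β * (starRingEnd ℂ) β] := ⟨_, rfl⟩
  have hN : Nnᴴ * J3 * Nn = (S ^ 2) • J3 := by
    rw [hNn]
    unfold J3
    ext i j
    fin_cases i <;> fin_cases j <;>
      simp [Matrix.mul_apply, Fin.sum_univ_three, Matrix.conjTranspose_apply, hSc, hcc]
    · linear_combination h1
    · linear_combination ((starRingEnd ℂ) α) * (-c * h1 - (1 - S) * h2)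
    · linear_combination ((starRingEnd ℂ) β) * (-c * h1 - (1 - S) * h2)
    · linear_combination α * (-c * h1 - (1 - S) * h2)
    · linear_combination (α * (starRingEnd ℂ) α) * (c ^ 2 * h1 + (c * (1 - S) + 1) * h2)
    · linear_combination (α * (starRingEnd ℂ) β) * (c ^ 2 * h1 + (c * (1 - S) + 1) * h2)
    · linear_combination β * (-c * h1 - (1 - S) * h2)
    · linear_combination (β * (starRingEnd ℂ) α) * (c ^ 2 * h1 + (c * (1 - S) + 1) * h2)
    · linear_combination (β * (starRingEnd ℂ) β) * (c ^ 2 * h1 + (c * (1 - S) + 1) * h2)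
  refine ⟨S⁻¹ • Nn, ?_, ?_⟩
  · show (S⁻¹ • Nn)ᴴ * J3 * (S⁻¹ • Nn) = J3
    rw [Matrix.conjTranspose_smul, Matrix.smul_mul, Matrix.smul_mul, Matrix.mul_smul, hN,
      smul_smul, smul_smul]
    have h3 : star S⁻¹ * S⁻¹ * S ^ 2 = 1 := by
      have h4 : star S⁻¹ = S⁻¹ := by
        show (starRingEnd ℂ) S⁻¹ = S⁻¹
        rw [map_inv₀, hSc]
      rw [h4]
      field_simp
    rw [h3, one_smul]
  · have e1 : (S⁻¹ • Nn) 1 0 + (S⁻¹ • Nn) 1 1 * x.1 + (S⁻¹ • Nn) 1 2 * x.2 = 0 := by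
      rw [← hα, ← hβ, hNn]
      simp only [Matrix.smul_apply, smul_eq_mul, Matrix.of_apply, Matrix.cons_val', Matrix.cons_val_zero,
        Matrix.cons_val_one, Matrix.cons_val]
      linear_combination S⁻¹ * α * (c * h1 + (1 - S) * h2)
    have e2 : (S⁻¹ • Nn) 2 0 + (S⁻¹ • Nn) 2 1 * x.1 + (S⁻¹ • Nn) 2 2 * x.2 = 0 := by
      rw [← hα, ← hβ, hNn]
      simp only [Matrix.smul_apply, smul_eq_mul, Matrix.of_apply, Matrix.cons_val', Matrix.cons_val_zero,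
        Matrix.cons_val_one, Matrix.cons_val]
      linear_combination S⁻¹ * β * (c * h1 + (1 - S) * h2)
    unfold act
    rw [e1, e2, zero_div]
    rfl

/-- the hermitian pairing transforms by the denominators -/
theorem act_pair {A : Matrix (Fin 3) (Fin 3) ℂ} (hA : U3 A) {x y : ℂ × ℂ} (hx : x ∈ B2)
    (hy : y ∈ B2) :
    (1 - (act A x).1 * (starRingEnd ℂ) (act A y).1 - (act A x).2 * (starRingEnd ℂ) (act A y).2) *
      (den A x * (starRingEnd ℂ) (den A y)) =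
    1 - x.1 * (starRingEnd ℂ) y.1 - x.2 * (starRingEnd ℂ) y.2 := by
  have h1 := hh_inv hA (vec3 x) (vec3 y)
  rw [mulVec_act hA hx, mulVec_act hA hy, hh_smul, hh_vec3, hh_vec3] at h1
  rw [mul_comm]
  exact h1

/-- only scalar matrices fix three independent points -/
theorem U3_scalar {A : Matrix (Fin 3) (Fin 3) ℂ} (hA : U3 A)
    (S : Set (ℂ × ℂ)) (hS : S ⊆ B2) (hconn : IsPreconnected S)
    (hfix : ∀ x ∈ S, act A x = x)
    (hspan : ∀ a b c : ℂ, (∀ x ∈ S, a + b * x.1 + c * x.2 = 0) → a = 0 ∧ b = 0 ∧ c = 0) :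
    ∀ x ∈ B2, act A x = x := by
  have hne : S.Nonempty := by
    by_contra hcon
    rw [Set.not_nonempty_iff_eq_empty] at hcon
    have h1 := (hspan 1 0 0 (fun x hx => by rw [hcon] at hx; exact absurd hx (Set.notMem_empty x))).1
    exact one_ne_zero h1
  obtain ⟨x0, hx0⟩ := hne
  have hev : ∀ x ∈ S, A *ᵥ vec3 x = den A x • vec3 x := by
    intro x hx
    have h1 := mulVec_act hA (hS hx)
    rwa [hfix x hx] at h1
  have hroot : ∀ x ∈ S, den A x ∈ (A.charpoly.roots.toFinset : Set ℂ) := by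
    intro x hx
    rw [Finset.mem_coe, Multiset.mem_toFinset, Polynomial.mem_roots A.charpoly_monic.ne_zero,
      Polynomial.IsRoot.def, Matrix.eval_charpoly, ← Matrix.exists_mulVec_eq_zero_iff]
    refine ⟨vec3 x, ?_, ?_⟩
    · intro h
      have h1 : (1 : ℂ) = 0 := congrFun h 0
      exact one_ne_zero h1
    · rw [Matrix.sub_mulVec, hev x hx]
      have h1 : (Matrix.scalar (Fin 3) (den A x)) *ᵥ vec3 x = den A x • vec3 x := by
        funext i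
        simp [Matrix.scalar_apply, Matrix.mulVec_diagonal]
      rw [h1, sub_self]
  have hcont : ContinuousOn (den A) S := by
    unfold den
    fun_prop
  have hdisc : DiscreteTopology ((A.charpoly.roots.toFinset : Finset ℂ) : Set ℂ) := inferInstance
  have hconst : ∀ x ∈ S, den A x = den A x0 := fun x hx =>
    hconn.constant_of_mapsTo ⟨hdisc⟩ hcont hroot hx hx0
  obtain ⟨lam, hlam⟩ : ∃ lam, lam = den A x0 := ⟨_, rfl⟩
  have hlam0 : lam ≠ 0 := by rw [hlam]; exact den_ne hA (hS hx0)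
  have hcomp : ∀ x ∈ S, ∀ i, A i 0 + A i 1 * x.1 + A i 2 * x.2 = lam * vec3 x i := by
    intro x hx i
    rw [← mulVec_vec3, hev x hx, hconst x hx, hlam]
    rfl
  have r0 := hspan (A 0 0 - lam) (A 0 1) (A 0 2) (fun x hx => by
    have h1 := hcomp x hx 0
    have h2 : vec3 x 0 = 1 := rfl
    rw [h2] at h1
    linear_combination h1)
  have r1 := hspan (A 1 0) (A 1 1 - lam) (A 1 2) (fun x hx => by
    have h1 := hcomp x hx 1
    have h2 : vec3 x 1 = x.1 := rfl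
    rw [h2] at h1
    linear_combination h1)
  have r2 := hspan (A 2 0) (A 2 1) (A 2 2 - lam) (fun x hx => by
    have h1 := hcomp x hx 2
    have h2 : vec3 x 2 = x.2 := rfl
    rw [h2] at h1
    linear_combination h1)
  intro x _
  have e1 : A 0 0 = lam := sub_eq_zero.mp r0.1
  have e2 : A 1 1 = lam := sub_eq_zero.mp r1.2.1
  have e3 : A 2 2 = lam := sub_eq_zero.mp r2.2.2
  unfold act den
  rw [e1, e2, e3, r0.2.1, r0.2.2, r1.1, r1.2.2, r2.1, r2.2.1]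
  ext
  · show (0 + lam * x.1 + 0 * x.2) / (lam + 0 * x.1 + 0 * x.2) = x.1
    simp only [zero_mul, add_zero, zero_add]
    exact mul_div_cancel_left₀ _ hlam0
  · show (0 + 0 * x.1 + lam * x.2) / (lam + 0 * x.1 + 0 * x.2) = x.2
    simp only [zero_mul, add_zero, zero_add]
    exact mul_div_cancel_left₀ _ hlam0

end Pool.Agent.Helper326.HB
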