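import Mathlib
import Pool.Agent.Helper326.HB.Defs
import Pool.Agent.Helper326.HB.A1
import Pool.Agent.Helper326.HB.A2

set_option autoImplicit false
open Complex Metric Set Filter Topology Matrix

namespace Pool.Agent.Helper326.HB

/-- the hermitian form of signature `(1,2)` -/
noncomputable def hfm (u v : Fin 3 → ℂ) : ℂ :=
  -(u 0 * (starRingEnd ℂ) (v 0)) + u 1 * (starRingEnd ℂ) (v 1) + u 2 * (starRingEnd ℂ) (v 2)

theorem hfm_eq (u v : Fin 3 → ℂ) : hfm u v = star v ⬝ᵥ (J3 *ᵥ u) := by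
  unfold hfm J3
  rw [dotProduct, Fin.sum_univ_three]
  simp only [Matrix.mulVec_diagonal, Pi.star_apply, RCLike.star_def]
  simp
  ring

theorem hfm_inv {A : Matrix (Fin 3) (Fin 3) ℂ} (hA : U3 A) (u v : Fin 3 → ℂ) :
    hfm (A *ᵥ u) (A *ᵥ v) = hfm u v := by
  rw [hfm_eq, hfm_eq, Matrix.star_mulVec, ← Matrix.dotProduct_mulVec, Matrix.mulVec_mulVec,
    Matrix.mulVec_mulVec, hA]

theorem mv_apply (A : Matrix (Fin 3) (Fin 3) ℂ) (a b c : ℂ) (i : Fin 3) :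
    (A *ᵥ ![a, b, c]) i = A i 0 * a + A i 1 * b + A i 2 * c := by
  simp [Matrix.mulVec, dotProduct, Fin.sum_univ_three]

/-- minus the Gram determinant -/
noncomputable def gmf (u v : Fin 3 → ℂ) : ℂ := hfm v u * hfm u v - hfm u u * hfm v v

theorem gm_inv {A : Matrix (Fin 3) (Fin 3) ℂ} (hA : U3 A) (u v : Fin 3 → ℂ) :
    gmf (A *ᵥ u) (A *ᵥ v) = gmf u v := by
  unfold gmf
  rw [hfm_inv hA, hfm_inv hA, hfm_inv hA, hfm_inv hA]

theorem gm_lin (u v : Fin 3 → ℂ) (c d e : ℂ) :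
    gmf (c • u) (d • v + e • u) =
      (c * (starRingEnd ℂ) c) * (d * (starRingEnd ℂ) d) * gmf u v := by
  unfold gmf hfm
  simp only [Pi.add_apply, Pi.smul_apply, smul_eq_mul, map_add, map_mul]
  ring

theorem Dd_eq (F : ℂ → ℂ × ℂ) (y : ℂ) : ((Dd F y : ℝ) : ℂ) =
    gmf ![1, (F y).1, (F y).2] ![0, (deriv F y).1, (deriv F y).2] := by
  unfold Dd q gmf hfm
  push_cast
  simp only [← Complex.mul_conj', map_add, map_mul, Complex.conj_conj]
  simp
  ring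

theorem wr_alg (n n' n'' a a' a'' b b' b'' : ℂ) (hn : n ≠ 0) :
    (a' * n - a * n') / n ^ 2 *
      (((b'' * n + b' * n' - (b' * n' + b * n'')) * n ^ 2 -
        (b' * n - b * n') * (2 * n * n')) / (n ^ 2) ^ 2) -
      (b' * n - b * n') / n ^ 2 *
      (((a'' * n + a' * n' - (a' * n' + a * n'')) * n ^ 2 -
        (a' * n - a * n') * (2 * n * n')) / (n ^ 2) ^ 2) =
    (n * (a' * b'' - b' * a'') - a * (n' * b'' - b' * n'') + b * (n' * a'' - a' * n'')) /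
      n ^ 3 := by
  field_simp
  ring

/-- TARGET 1: postcomposition with `act A`. Hint: with `G = (1, F.1, F.2)` (homogeneous lift), 
`A G = n • (1, F̃)`, `n = den A (F y)`; Lagrange identity
`q |F'|² + |⟨F',F⟩|² = |⟨G,G'⟩|² - ⟨G,G⟩⟨G',G'⟩`, and `det (G,G',G'') = Wr F`. -/
theorem post_act {A : Matrix (Fin 3) (Fin 3) ℂ} (hA : U3 A) {F : ℂ → ℂ × ℂ} {U : Set ℂ}
    (hU : IsOpen U) (hF : DifferentiableOn ℂ F U) (hm : MapsTo F U B2) {y : ℂ} (hy : y ∈ U) :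
    Dd (fun x => act A (F x)) y = Dd F y / ‖den A (F y)‖ ^ 4 ∧
    Wr (fun x => act A (F x)) y = A.det * Wr F y / (den A (F y)) ^ 3 := by
  have hn : ∀ x ∈ U, den A (F x) ≠ 0 := fun x hx => den_ne hA (hm hx)
  have hFd : ∀ x ∈ U, HasDerivAt F (deriv F x) x := fun x hx =>
    (hF.differentiableAt (hU.mem_nhds hx)).hasDerivAt
  have hF1 : ∀ x ∈ U, HasDerivAt (fun x => (F x).1) (deriv F x).1 x := fun x hx =>
    (hFd x hx).fst
  have hF2 : ∀ x ∈ U, HasDerivAt (fun x => (F x).2) (deriv F x).2 x := fun x hx =>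
    (hFd x hx).snd
  have hdF : DifferentiableOn ℂ (deriv F) U := hF.deriv hU
  have hdFd : HasDerivAt (deriv F) (deriv (deriv F) y) y :=
    (hdF.differentiableAt (hU.mem_nhds hy)).hasDerivAt
  have hdF1 : HasDerivAt (fun x => (deriv F x).1) (deriv (deriv F) y).1 y := hdFd.fst
  have hdF2 : HasDerivAt (fun x => (deriv F x).2) (deriv (deriv F) y).2 y := hdFd.snd
  -- the linear combinations
  let N : Fin 3 → ℂ → ℂ := fun i x => A i 0 + A i 1 * (F x).1 + A i 2 * (F x).2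
  let N' : Fin 3 → ℂ → ℂ := fun i x => A i 1 * (deriv F x).1 + A i 2 * (deriv F x).2
  let N'' : Fin 3 → ℂ := fun i => A i 1 * (deriv (deriv F) y).1 + A i 2 * (deriv (deriv F) y).2
  have hN : ∀ i, ∀ x ∈ U, HasDerivAt (N i) (N' i x) x := by
    intro i x hx
    have h1 := (((hF1 x hx).const_mul (A i 1)).const_add (A i 0)).add ((hF2 x hx).const_mul (A i 2))
    exact h1
  have hN' : ∀ i, HasDerivAt (N' i) (N'' i) y := by
    intro i
    exact (hdF1.const_mul (A i 1)).add (hdF2.const_mul (A i 2))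
  have hN0 : ∀ x ∈ U, N 0 x ≠ 0 := hn
  let E : ℂ → ℂ × ℂ := fun x => ((N' 1 x * N 0 x - N 1 x * N' 0 x) / (N 0 x) ^ 2,
    (N' 2 x * N 0 x - N 2 x * N' 0 x) / (N 0 x) ^ 2)
  have hE : ∀ x ∈ U, HasDerivAt (fun x => act A (F x)) (E x) x := by
    intro x hx
    exact ((hN 1 x hx).div (hN 0 x hx) (hN0 x hx)).prodMk
      ((hN 2 x hx).div (hN 0 x hx) (hN0 x hx))
  have hEd : ∀ x ∈ U, deriv (fun x => act A (F x)) x = E x := fun x hx => (hE x hx).deriv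
  have hEe : deriv (fun x => act A (F x)) =ᶠ[𝓝 y] E := by
    filter_upwards [hU.mem_nhds hy] with x hx
    exact hEd x hx
  have hE1 : ∀ i, HasDerivAt (fun x => (N' i x * N 0 x - N i x * N' 0 x) / (N 0 x) ^ 2)
      (((N'' i * N 0 y + N' i y * N' 0 y - (N' i y * N' 0 y + N i y * N'' 0)) * (N 0 y) ^ 2 -
        (N' i y * N 0 y - N i y * N' 0 y) * (2 * N 0 y * N' 0 y)) / ((N 0 y) ^ 2) ^ 2) y := by
    intro i
    have h1 := ((hN' i).mul (hN 0 y hy)).sub ((hN i y hy).mul (hN' 0))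
    have h2 : HasDerivAt (fun x => N 0 x ^ 2) (2 * N 0 y * N' 0 y) y := by
      have h2' := (hN 0 y hy).fun_pow 2
      simpa using h2'
    exact h1.div h2 (pow_ne_zero 2 (hN0 y hy))
  have hEdd : deriv (deriv (fun x => act A (F x))) y =
      (((N'' 1 * N 0 y + N' 1 y * N' 0 y - (N' 1 y * N' 0 y + N 1 y * N'' 0)) * (N 0 y) ^ 2 -
        (N' 1 y * N 0 y - N 1 y * N' 0 y) * (2 * N 0 y * N' 0 y)) / ((N 0 y) ^ 2) ^ 2,
       ((N'' 2 * N 0 y + N' 2 y * N' 0 y - (N' 2 y * N' 0 y + N 2 y * N'' 0)) * (N 0 y) ^ 2 -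
        (N' 2 y * N 0 y - N 2 y * N' 0 y) * (2 * N 0 y * N' 0 y)) / ((N 0 y) ^ 2) ^ 2) := by
    rw [hEe.deriv_eq]
    exact ((hE1 1).prodMk (hE1 2)).deriv
  have hn0 : N 0 y ≠ 0 := hN0 y hy
  have hden : den A (F y) = N 0 y := rfl
  constructor
  · -- Dd
    have hu : ![1, (act A (F y)).1, (act A (F y)).2] =
        (N 0 y)⁻¹ • (A *ᵥ ![1, (F y).1, (F y).2]) := by
      funext i
      rw [Pi.smul_apply, mv_apply, smul_eq_mul, mul_one]
      change ![1, (act A (F y)).1, (act A (F y)).2] i = (N 0 y)⁻¹ * N i y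
      fin_cases i
      · exact (inv_mul_cancel₀ hn0).symm
      · exact div_eq_inv_mul (N 1 y) (N 0 y)
      · exact div_eq_inv_mul (N 2 y) (N 0 y)
    have hv : ![0, (E y).1, (E y).2] =
        (N 0 y)⁻¹ • (A *ᵥ ![0, (deriv F y).1, (deriv F y).2]) +
        (-(N' 0 y / (N 0 y) ^ 2)) • (A *ᵥ ![1, (F y).1, (F y).2]) := by
      funext i
      rw [Pi.add_apply, Pi.smul_apply, Pi.smul_apply, mv_apply, mv_apply, smul_eq_mul,
        smul_eq_mul, mul_one, mul_zero, zero_add]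
      change ![0, (E y).1, (E y).2] i = (N 0 y)⁻¹ * N' i y + (-(N' 0 y / (N 0 y) ^ 2)) * N i y
      have hgen : ∀ i, (N' i y * N 0 y - N i y * N' 0 y) / (N 0 y) ^ 2 =
          (N 0 y)⁻¹ * N' i y + (-(N' 0 y / (N 0 y) ^ 2)) * N i y := by
        intro i
        field_simp
        ring
      fin_cases i
      · have h0 := hgen 0
        have h00 : (N' 0 y * N 0 y - N 0 y * N' 0 y) / (N 0 y) ^ 2 = 0 := by
          rw [mul_comm, sub_self, zero_div]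
        rw [h00] at h0
        exact h0
      · exact hgen 1
      · exact hgen 2
    have h1 : ((Dd (fun x => act A (F x)) y : ℝ) : ℂ) =
        ((Dd F y / ‖den A (F y)‖ ^ 4 : ℝ) : ℂ) := by
      rw [Dd_eq, hEd y hy, hu, hv, gm_lin, gm_inv hA, ← Dd_eq, hden]
      have h2 : (N 0 y)⁻¹ * (starRingEnd ℂ) (N 0 y)⁻¹ = (((‖N 0 y‖ ^ 2)⁻¹ : ℝ) : ℂ) := by
        rw [Complex.mul_conj', norm_inv]
        push_cast
        rw [inv_pow]
      rw [h2]
      push_cast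
      rw [div_eq_mul_inv]
      have h3 : ((‖N 0 y‖ : ℂ) ^ 4)⁻¹ = ((‖N 0 y‖ : ℂ) ^ 2)⁻¹ * ((‖N 0 y‖ : ℂ) ^ 2)⁻¹ := by
        rw [← mul_inv, ← pow_add]
      rw [h3]
      ring
    exact_mod_cast h1
  · unfold Wr
    rw [hEdd, hEd y hy, hden]
    show (N' 1 y * N 0 y - N 1 y * N' 0 y) / (N 0 y) ^ 2 *
      (((N'' 2 * N 0 y + N' 2 y * N' 0 y - (N' 2 y * N' 0 y + N 2 y * N'' 0)) * (N 0 y) ^ 2 -
        (N' 2 y * N 0 y - N 2 y * N' 0 y) * (2 * N 0 y * N' 0 y)) / ((N 0 y) ^ 2) ^ 2) -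
      (N' 2 y * N 0 y - N 2 y * N' 0 y) / (N 0 y) ^ 2 *
      (((N'' 1 * N 0 y + N' 1 y * N' 0 y - (N' 1 y * N' 0 y + N 1 y * N'' 0)) * (N 0 y) ^ 2 -
        (N' 1 y * N 0 y - N 1 y * N' 0 y) * (2 * N 0 y * N' 0 y)) / ((N 0 y) ^ 2) ^ 2) = _
    rw [wr_alg _ _ _ _ _ _ _ _ _ hn0]
    congr 1
    rw [Matrix.det_fin_three]
    show (A 0 0 + A 0 1 * (F y).1 + A 0 2 * (F y).2) * ((A 1 1 * (deriv F y).1 + A 1 2 * (deriv F y).2) * (A 2 1 * (deriv (deriv F) y).1 + A 2 2 * (deriv (deriv F) y).2) - (A 2 1 * (deriv F y).1 + A 2 2 * (deriv F y).2) * (A 1 1 * (deriv (deriv F) y).1 + A 1 2 * (deriv (deriv F) y).2))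
      - (A 1 0 + A 1 1 * (F y).1 + A 1 2 * (F y).2) * ((A 0 1 * (deriv F y).1 + A 0 2 * (deriv F y).2) * (A 2 1 * (deriv (deriv F) y).1 + A 2 2 * (deriv (deriv F) y).2) - (A 2 1 * (deriv F y).1 + A 2 2 * (deriv F y).2) * (A 0 1 * (deriv (deriv F) y).1 + A 0 2 * (deriv (deriv F) y).2))
      + (A 2 0 + A 2 1 * (F y).1 + A 2 2 * (F y).2) * ((A 0 1 * (deriv F y).1 + A 0 2 * (deriv F y).2) * (A 1 1 * (deriv (deriv F) y).1 + A 1 2 * (deriv (deriv F) y).2) - (A 1 1 * (deriv F y).1 + A 1 2 * (deriv F y).2) * (A 0 1 * (deriv (deriv F) y).1 + A 0 2 * (deriv (deriv F) y).2)) = _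
    ring

/-- TARGET 2: precomposition with a holomorphic function. -/
theorem pre_comp {F : ℂ → ℂ × ℂ} {U : Set ℂ} (hU : IsOpen U) (hF : DifferentiableOn ℂ F U)
    {φ : ℂ → ℂ} {W : Set ℂ} (hW : IsOpen W) (hφ : DifferentiableOn ℂ φ W) (hm : MapsTo φ W U)
    {x : ℂ} (hx : x ∈ W) :
    Dd (fun t => F (φ t)) x = Dd F (φ x) * ‖deriv φ x‖ ^ 2 ∧
    Wr (fun t => F (φ t)) x = Wr F (φ x) * (deriv φ x) ^ 3 := by
  have hFd : ∀ x ∈ U, HasDerivAt F (deriv F x) x := fun x hx =>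
    (hF.differentiableAt (hU.mem_nhds hx)).hasDerivAt
  have hφd : ∀ x ∈ W, HasDerivAt φ (deriv φ x) x := fun x hx =>
    (hφ.differentiableAt (hW.mem_nhds hx)).hasDerivAt
  have hdF : DifferentiableOn ℂ (deriv F) U := hF.deriv hU
  have hdφ : DifferentiableOn ℂ (deriv φ) W := hφ.deriv hW
  have hc : ∀ t ∈ W, HasDerivAt (fun t => F (φ t)) (deriv φ t • deriv F (φ t)) t := fun t ht =>
    (hFd (φ t) (hm ht)).scomp t (hφd t ht)
  have he : deriv (fun t => F (φ t)) =ᶠ[𝓝 x] fun t => deriv φ t • deriv F (φ t) := by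
    filter_upwards [hW.mem_nhds hx] with t ht
    exact (hc t ht).deriv
  have h2 : HasDerivAt (fun t => deriv F (φ t)) (deriv φ x • deriv (deriv F) (φ x)) x :=
    ((hdF.differentiableAt (hU.mem_nhds (hm hx))).hasDerivAt).scomp x (hφd x hx)
  have h3 : HasDerivAt (deriv φ) (deriv (deriv φ) x) x :=
    (hdφ.differentiableAt (hW.mem_nhds hx)).hasDerivAt
  have h4 := h3.smul h2
  have h5 : deriv (deriv (fun t => F (φ t))) x = deriv φ x • (deriv φ x • deriv (deriv F) (φ x)) +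
      deriv (deriv φ) x • deriv F (φ x) := by
    rw [he.deriv_eq]
    exact h4.deriv
  have h6 : deriv (fun t => F (φ t)) x = deriv φ x • deriv F (φ x) := (hc x hx).deriv
  constructor
  · unfold Dd
    rw [h6]
    simp only [Prod.smul_fst, Prod.smul_snd, smul_eq_mul, mul_assoc, ← mul_add]
    rw [norm_mul, norm_mul, norm_mul]
    ring
  · unfold Wr
    rw [h5, h6]
    simp only [Prod.smul_fst, Prod.smul_snd, Prod.fst_add, Prod.snd_add, smul_eq_mul]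
    ring

theorem inv_formulas {F : ℂ → ℂ × ℂ} (hF : DifferentiableOn ℂ F (ball 0 1))
    (hm : MapsTo F (ball 0 1) B2) {g : Matrix (Fin 2) (Fin 2) ℂ} (hg : U2 g)
    {A : Matrix (Fin 3) (Fin 3) ℂ} (hA : U3 A) {x : ℂ} (hx : x ∈ ball (0 : ℂ) 1) :
    Dd (fun t => act A (F (mob g t))) x =
      Dd F (mob g x) * ‖deriv (mob g) x‖ ^ 2 / ‖den A (F (mob g x))‖ ^ 4 ∧
    Wr (fun t => act A (F (mob g t))) x =
      A.det * (Wr F (mob g x) * (deriv (mob g) x) ^ 3) / (den A (F (mob g x))) ^ 3 := by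
  have hφ : DifferentiableOn ℂ (mob g) (ball 0 1) := fun y hy =>
    (mob_hasDerivAt hg hy).differentiableAt.differentiableWithinAt
  have hmp : MapsTo (mob g) (ball 0 1) (ball 0 1) := fun y hy => mob_mem hg hy
  obtain ⟨h1, h2⟩ := pre_comp isOpen_ball hF isOpen_ball hφ hmp hx
  have hFm : DifferentiableOn ℂ (fun t => F (mob g t)) (ball 0 1) := hF.comp hφ hmp
  obtain ⟨h3, h4⟩ := post_act hA isOpen_ball hFm (fun t ht => hm (hmp ht)) hx
  rw [h1] at h3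
  rw [h2] at h4
  exact ⟨h3, h4⟩

/-- TARGET 3 -/
theorem Vv_inv {F : ℂ → ℂ × ℂ} (hF : DifferentiableOn ℂ F (ball 0 1))
    (hm : MapsTo F (ball 0 1) B2) {g : Matrix (Fin 2) (Fin 2) ℂ} (hg : U2 g)
    {A : Matrix (Fin 3) (Fin 3) ℂ} (hA : U3 A) {x : ℂ} (hx : x ∈ ball (0 : ℂ) 1) :
    Vv (fun t => act A (F (mob g t))) x = Vv F (mob g x) := by
  obtain ⟨h1, -⟩ := inv_formulas hF hm hg hA hx
  have hy := mob_mem hg hx
  have hd := den_ne hA (hm hy)
  have hq := q_act hA (hm hy)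
  obtain ⟨hmd, -⟩ := mob_deriv_norm hg hx
  unfold Vv
  rw [h1]
  show (1 - ‖x‖ ^ 2) ^ 2 * (Dd F (mob g x) * ‖deriv (mob g) x‖ ^ 2 / ‖den A (F (mob g x))‖ ^ 4) /
    q (act A (F (mob g x))) ^ 2 = _
  rw [hq, ← hmd]
  have hd' : ‖den A (F (mob g x))‖ ≠ 0 := norm_ne_zero_iff.2 hd
  have hq0 : q (F (mob g x)) ≠ 0 := by
    have h2 : ‖(F (mob g x)).1‖ ^ 2 + ‖(F (mob g x)).2‖ ^ 2 < 1 := hm hy
    unfold q
    intro h3
    linarith
  field_simp

/-- TARGET 4 -/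
theorem kap_inv {F : ℂ → ℂ × ℂ} (hF : DifferentiableOn ℂ F (ball 0 1))
    (hm : MapsTo F (ball 0 1) B2) {g : Matrix (Fin 2) (Fin 2) ℂ} (hg : U2 g)
    {A : Matrix (Fin 3) (Fin 3) ℂ} (hA : U3 A) {x : ℂ} (hx : x ∈ ball (0 : ℂ) 1) (k : ℝ) :
    (‖Wr (fun t => act A (F (mob g t))) x‖ ^ 2 * q (act A (F (mob g x))) ^ 3 ≤
      k * Dd (fun t => act A (F (mob g t))) x ^ 3 ↔
    ‖Wr F (mob g x)‖ ^ 2 * q (F (mob g x)) ^ 3 ≤ k * Dd F (mob g x) ^ 3) ∧
    (0 < Dd (fun t => act A (F (mob g t))) x ↔ 0 < Dd F (mob g x)) ∧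
    (Wr (fun t => act A (F (mob g t))) x = 0 ↔ Wr F (mob g x) = 0) := by
  obtain ⟨h1, h2⟩ := inv_formulas hF hm hg hA hx
  have hy := mob_mem hg hx
  have hd := den_ne hA (hm hy)
  have hq := q_act hA (hm hy)
  obtain ⟨-, hmd⟩ := mob_deriv_norm hg hx
  have hd' : 0 < ‖den A (F (mob g x))‖ := norm_pos_iff.2 hd
  have hm' : 0 < ‖deriv (mob g) x‖ := norm_pos_iff.2 hmd
  have hdet := U3_det hA
  have hdet0 : A.det ≠ 0 := by
    intro h
    rw [h, norm_zero] at hdet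
    exact zero_ne_one hdet
  refine ⟨?_, ?_, ?_⟩
  · rw [h1, h2, hq, norm_div, norm_mul, norm_mul, hdet, one_mul, norm_pow, norm_pow]
    set D := ‖den A (F (mob g x))‖
    set m := ‖deriv (mob g) x‖
    set Q := q (F (mob g x))
    set w := ‖Wr F (mob g x)‖
    set dd := Dd F (mob g x)
    have hc : 0 < m ^ 6 / D ^ 12 := by positivity
    have e1 : (w * m ^ 3 / D ^ 3) ^ 2 * (Q / D ^ 2) ^ 3 = (w ^ 2 * Q ^ 3) * (m ^ 6 / D ^ 12) := by
      field_simp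
    have e2 : k * (dd * m ^ 2 / D ^ 4) ^ 3 = (k * dd ^ 3) * (m ^ 6 / D ^ 12) := by
      field_simp
    rw [e1, e2]
    exact mul_le_mul_iff_of_pos_right hc
  · rw [h1]
    have hc : 0 < ‖deriv (mob g) x‖ ^ 2 / ‖den A (F (mob g x))‖ ^ 4 := by positivity
    rw [mul_div_assoc]
    exact mul_pos_iff_of_pos_right hc
  · rw [h2]
    constructor
    · intro h
      rcases div_eq_zero_iff.1 h with h3 | h3
      · rcases mul_eq_zero.1 h3 with h4 | h4
        · exact absurd h4 hdet0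
        · rcases mul_eq_zero.1 h4 with h5 | h5
          · exact h5
          · exact absurd h5 (pow_ne_zero 3 hmd)
      · exact absurd h3 (pow_ne_zero 3 hd)
    · intro h
      rw [h]
      simp

end Pool.Agent.Helper326.HB
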