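import Mathlib
import Pool.Agent.Helper326.HB.Defs

set_option autoImplicit false
open Complex Metric Set Filter Topology Matrix

namespace Pool.Agent.Helper326.HB

theorem hbn_main (c num den : ℕ → ℝ) (hc0 : c 0 = 1)
    (hrec : ∀ k, c (k + 1) = c k * num k / den k) (hnum : ∀ k, 0 < num k)
    (hden : ∀ k, 0 < den k) (K : ℕ) (t : ℝ) (hKt : 0 ≤ t)
    (h : ∀ k : ℕ, K ≤ k → 2 * ((k : ℝ) + 1 + t) * num k ≤ (2 * ((k : ℝ) + t) - 1) * den k) :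
    (∀ k, 0 < c k) ∧ Summable c ∧ ∑' k, c (k + K) ≤ 2 * ((K : ℝ) + t) * c K := by
  have hpos : ∀ k, 0 < c k := by
    intro k
    induction k with
    | zero => rw [hc0]; exact one_pos
    | succ k ih => rw [hrec]; exact div_pos (mul_pos ih (hnum k)) (hden k)
  have hstep : ∀ k : ℕ, K ≤ k →
      c k ≤ 2 * ((k : ℝ) + t) * c k - 2 * ((k : ℝ) + 1 + t) * c (k + 1) := by
    intro k hk
    have h1 : 2 * ((k : ℝ) + 1 + t) * c (k + 1) ≤ (2 * ((k : ℝ) + t) - 1) * c k := by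
      rw [hrec, ← mul_div_assoc, div_le_iff₀ (hden k)]
      have h2 := mul_le_mul_of_nonneg_left (h k hk) (hpos k).le
      linarith
    linarith
  have hpart : ∀ n : ℕ, ∑ i ∈ Finset.range n, c (i + K) ≤
      2 * ((K : ℝ) + t) * c K - 2 * (((n + K : ℕ) : ℝ) + t) * c (n + K) := by
    intro n
    induction n with
    | zero => simp
    | succ n ih =>
      rw [Finset.sum_range_succ]
      have h1 := hstep (n + K) (by omega)
      have h2 : n + 1 + K = n + K + 1 := by ring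
      rw [h2]
      push_cast at h1 ih ⊢
      linarith
  have hpart' : ∀ n : ℕ, ∑ i ∈ Finset.range n, c (i + K) ≤ 2 * ((K : ℝ) + t) * c K := by
    intro n
    have h1 := hpart n
    have h2 : 0 ≤ 2 * (((n + K : ℕ) : ℝ) + t) * c (n + K) := by
      have := hpos (n + K)
      positivity
    linarith
  have hsum : Summable fun k => c (k + K) :=
    summable_of_sum_range_le (fun k => (hpos _).le) hpart'
  exact ⟨hpos, (summable_nat_add_iff K).1 hsum,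
    Real.tsum_le_of_sum_range_le (fun k => (hpos _).le) hpart'⟩

theorem hbn_G0 (k : ℕ) : hc dG 0 (k + 1) =
    hc dG 0 k * (((k : ℝ) + 5 / 36) * ((k : ℝ) + 1 / 4)) / (((k : ℝ) + 1) * ((k : ℝ) + 8 / 9)) := by
  show hc dG 0 k * (∏ i, (dG 0 + k + dG i)) / (∏ i, (dG 0 + k + 1 - dG i)) = _
  have e0 : dG 0 = 5 / 72 := rfl
  have e1 : dG 1 = 13 / 72 := rfl
  rw [Fin.prod_univ_two, Fin.prod_univ_two, e0, e1]
  congr 1
  · ring
  · ring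

theorem hbn_G1 (k : ℕ) : hc dG 1 (k + 1) =
    hc dG 1 k * (((k : ℝ) + 1 / 4) * ((k : ℝ) + 13 / 36)) / (((k : ℝ) + 10 / 9) * ((k : ℝ) + 1)) := by
  show hc dG 1 k * (∏ i, (dG 1 + k + dG i)) / (∏ i, (dG 1 + k + 1 - dG i)) = _
  have e0 : dG 0 = 5 / 72 := rfl
  have e1 : dG 1 = 13 / 72 := rfl
  rw [Fin.prod_univ_two, Fin.prod_univ_two, e0, e1]
  congr 1
  · ring
  · ring

theorem hbn_F0 (k : ℕ) : hc dF 0 (k + 1) =
    hc dF 0 k * (((k : ℝ) + 14 / 108) * ((k : ℝ) + 26 / 108) * ((k : ℝ) + 62 / 108)) /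
      (((k : ℝ) + 1) * ((k : ℝ) + 96 / 108) * ((k : ℝ) + 60 / 108)) := by
  show hc dF 0 k * (∏ i, (dF 0 + k + dF i)) / (∏ i, (dF 0 + k + 1 - dF i)) = _
  have e0 : dF 0 = 7 / 108 := rfl
  have e1 : dF 1 = 19 / 108 := rfl
  have e2 : dF 2 = 55 / 108 := rfl
  rw [Fin.prod_univ_three, Fin.prod_univ_three, e0, e1, e2]
  congr 1
  · ring
  · ring

theorem hbn_F1 (k : ℕ) : hc dF 1 (k + 1) =
    hc dF 1 k * (((k : ℝ) + 26 / 108) * ((k : ℝ) + 38 / 108) * ((k : ℝ) + 74 / 108)) /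
      (((k : ℝ) + 120 / 108) * ((k : ℝ) + 1) * ((k : ℝ) + 72 / 108)) := by
  show hc dF 1 k * (∏ i, (dF 1 + k + dF i)) / (∏ i, (dF 1 + k + 1 - dF i)) = _
  have e0 : dF 0 = 7 / 108 := rfl
  have e1 : dF 1 = 19 / 108 := rfl
  have e2 : dF 2 = 55 / 108 := rfl
  rw [Fin.prod_univ_three, Fin.prod_univ_three, e0, e1, e2]
  congr 1
  · ring
  · ring

theorem hbn_F2 (k : ℕ) : hc dF 2 (k + 1) =
    hc dF 2 k * (((k : ℝ) + 62 / 108) * ((k : ℝ) + 74 / 108) * ((k : ℝ) + 110 / 108)) /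
      (((k : ℝ) + 156 / 108) * ((k : ℝ) + 144 / 108) * ((k : ℝ) + 1)) := by
  show hc dF 2 k * (∏ i, (dF 2 + k + dF i)) / (∏ i, (dF 2 + k + 1 - dF i)) = _
  have e0 : dF 0 = 7 / 108 := rfl
  have e1 : dF 1 = 19 / 108 := rfl
  have e2 : dF 2 = 55 / 108 := rfl
  rw [Fin.prod_univ_three, Fin.prod_univ_three, e0, e1, e2]
  congr 1
  · ring
  · ring

theorem hbn_mG0 : (∀ k, 0 < hc dG 0 k) ∧ Summable (hc dG 0) ∧
    ∑' k, hc dG 0 (k + 2) ≤ 2 * (((2 : ℕ) : ℝ) + 19 / 50) * hc dG 0 2 := by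
  apply hbn_main (hc dG 0) (fun k => ((k : ℝ) + 5 / 36) * ((k : ℝ) + 1 / 4))
    (fun k => ((k : ℝ) + 1) * ((k : ℝ) + 8 / 9)) rfl hbn_G0 (fun k => by positivity)
    (fun k => by positivity) 2 (19 / 50) (by norm_num)
  intro k hk
  obtain ⟨m, rfl⟩ := Nat.exists_eq_add_of_le hk
  push_cast
  have h0 : (0 : ℝ) ≤ m := Nat.cast_nonneg _
  rw [← sub_nonneg]
  ring_nf
  positivity

theorem hbn_mG1 : (∀ k, 0 < hc dG 1 k) ∧ Summable (hc dG 1) ∧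
    ∑' k, hc dG 1 (k + 1) ≤ 2 * (((1 : ℕ) : ℝ) + 13 / 25) * hc dG 1 1 := by
  apply hbn_main (hc dG 1) (fun k => ((k : ℝ) + 1 / 4) * ((k : ℝ) + 13 / 36))
    (fun k => ((k : ℝ) + 10 / 9) * ((k : ℝ) + 1)) rfl hbn_G1 (fun k => by positivity)
    (fun k => by positivity) 1 (13 / 25) (by norm_num)
  intro k hk
  obtain ⟨m, rfl⟩ := Nat.exists_eq_add_of_le hk
  push_cast
  have h0 : (0 : ℝ) ≤ m := Nat.cast_nonneg _
  rw [← sub_nonneg]
  ring_nf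
  positivity

theorem hbn_mF0 : (∀ k, 0 < hc dF 0 k) ∧ Summable (hc dF 0) ∧
    ∑' k, hc dF 0 (k + 1) ≤ 2 * (((1 : ℕ) : ℝ) + 41 / 100) * hc dF 0 1 := by
  apply hbn_main (hc dF 0)
    (fun k => ((k : ℝ) + 14 / 108) * ((k : ℝ) + 26 / 108) * ((k : ℝ) + 62 / 108))
    (fun k => ((k : ℝ) + 1) * ((k : ℝ) + 96 / 108) * ((k : ℝ) + 60 / 108)) rfl hbn_F0
    (fun k => by positivity) (fun k => by positivity) 1 (41 / 100) (by norm_num)
  intro k hk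
  obtain ⟨m, rfl⟩ := Nat.exists_eq_add_of_le hk
  push_cast
  have h0 : (0 : ℝ) ≤ m := Nat.cast_nonneg _
  rw [← sub_nonneg]
  ring_nf
  positivity

theorem hbn_mF1 : (∀ k, 0 < hc dF 1 k) ∧ Summable (hc dF 1) ∧
    ∑' k, hc dF 1 (k + 1) ≤ 2 * (((1 : ℕ) : ℝ) + 51 / 100) * hc dF 1 1 := by
  apply hbn_main (hc dF 1)
    (fun k => ((k : ℝ) + 26 / 108) * ((k : ℝ) + 38 / 108) * ((k : ℝ) + 74 / 108))
    (fun k => ((k : ℝ) + 120 / 108) * ((k : ℝ) + 1) * ((k : ℝ) + 72 / 108)) rfl hbn_F1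
    (fun k => by positivity) (fun k => by positivity) 1 (51 / 100) (by norm_num)
  intro k hk
  obtain ⟨m, rfl⟩ := Nat.exists_eq_add_of_le hk
  push_cast
  have h0 : (0 : ℝ) ≤ m := Nat.cast_nonneg _
  rw [← sub_nonneg]
  ring_nf
  positivity

theorem hbn_mF2 : (∀ k, 0 < hc dF 2 k) ∧ Summable (hc dF 2) ∧
    ∑' k, hc dF 2 (k + 1) ≤ 2 * (((1 : ℕ) : ℝ) + 83 / 100) * hc dF 2 1 := by
  apply hbn_main (hc dF 2)
    (fun k => ((k : ℝ) + 62 / 108) * ((k : ℝ) + 74 / 108) * ((k : ℝ) + 110 / 108))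
    (fun k => ((k : ℝ) + 156 / 108) * ((k : ℝ) + 144 / 108) * ((k : ℝ) + 1)) rfl hbn_F2
    (fun k => by positivity) (fun k => by positivity) 1 (83 / 100) (by norm_num)
  intro k hk
  obtain ⟨m, rfl⟩ := Nat.exists_eq_add_of_le hk
  push_cast
  have h0 : (0 : ℝ) ≤ m := Nat.cast_nonneg _
  rw [← sub_nonneg]
  ring_nf
  positivity

theorem coefG_pos (j : Fin 2) (k : ℕ) : 0 < hc dG j k := by
  fin_cases j
  · exact hbn_mG0.1 k
  · exact hbn_mG1.1 k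

theorem coefG_summable (j : Fin 2) : Summable (fun k => hc dG j k) := by
  fin_cases j
  · exact hbn_mG0.2.1
  · exact hbn_mG1.2.1

theorem coefG_sum0 : ∑' k : ℕ, hc dG 0 (k + 1) ≤ 0.11 := by
  have h1 : Summable fun k => hc dG 0 (k + 1) := (summable_nat_add_iff 1).2 hbn_mG0.2.1
  rw [h1.tsum_eq_zero_add]
  have h2 := hbn_mG0.2.2
  have e0 : hc dG 0 0 = 1 := rfl
  have e1 := hbn_G0 0
  have e2 := hbn_G0 1
  rw [zero_add, e0] at e1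
  have e3 : (1 : ℕ) + 1 = 2 := rfl
  rw [e3, e1] at e2
  rw [zero_add, e1]
  rw [e2] at h2
  refine (add_le_add le_rfl h2).trans ?_
  norm_num

theorem coefG_sum1 : ∑' k : ℕ, hc dG 1 (k + 1) ≤ 0.25 := by
  refine hbn_mG1.2.2.trans ?_
  have e0 : hc dG 1 0 = 1 := rfl
  have e1 := hbn_G1 0
  rw [zero_add, e0] at e1
  rw [e1]
  norm_num

theorem coefF_pos (j : Fin 3) (k : ℕ) : 0 < hc dF j k := by
  fin_cases j
  · exact hbn_mF0.1 k
  · exact hbn_mF1.1 k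
  · exact hbn_mF2.1 k

theorem coefF_summable (j : Fin 3) : Summable (fun k => hc dF j k) := by
  fin_cases j
  · exact hbn_mF0.2.1
  · exact hbn_mF1.2.1
  · exact hbn_mF2.2.1

theorem coefF_sum0 : ∑' k : ℕ, hc dF 0 (k + 1) ≤ 0.105 := by
  refine hbn_mF0.2.2.trans ?_
  have e0 : hc dF 0 0 = 1 := rfl
  have e1 := hbn_F0 0
  rw [zero_add, e0] at e1
  rw [e1]
  norm_num

theorem coefF_sum1 : ∑' k : ℕ, hc dF 1 (k + 1) ≤ 0.24 := by
  refine hbn_mF1.2.2.trans ?_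
  have e0 : hc dF 1 0 = 1 := rfl
  have e1 := hbn_F1 0
  rw [zero_add, e0] at e1
  rw [e1]
  norm_num

theorem coefF_sum2 : ∑' k : ℕ, hc dF 2 (k + 1) ≤ 0.8 := by
  refine hbn_mF2.2.2.trans ?_
  have e0 : hc dF 2 0 = 1 := rfl
  have e1 := hbn_F2 0
  rw [zero_add, e0] at e1
  rw [e1]
  norm_num

theorem hbn_ratio (k : ℕ) : 2 * hc dF 0 (k + 1) ≤ hc dF 1 (k + 1) ∧
    hc dF 1 (k + 1) * ((k : ℝ) + 21 / 20) ≤ 2.7 * ((k : ℝ) + 17 / 20) * hc dF 0 (k + 1) := by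
  induction k with
  | zero =>
    have e0 : hc dF 0 0 = 1 := rfl
    have e0' : hc dF 1 0 = 1 := rfl
    rw [hbn_F0, hbn_F1, e0, e0']
    constructor <;> norm_num
  | succ k ih =>
    obtain ⟨h1, h2⟩ := ih
    have hx0 := coefF_pos 0 (k + 1)
    have hx1 := coefF_pos 1 (k + 1)
    have hk : (0 : ℝ) ≤ k := Nat.cast_nonneg _
    rw [hbn_F0 (k + 1), hbn_F1 (k + 1)]
    obtain ⟨x0, hx0'⟩ : ∃ x0, x0 = hc dF 0 (k + 1) := ⟨_, rfl⟩
    obtain ⟨x1, hx1'⟩ : ∃ x1, x1 = hc dF 1 (k + 1) := ⟨_, rfl⟩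
    rw [← hx0'] at hx0 h1 h2 ⊢
    rw [← hx1'] at hx1 h1 h2 ⊢
    push_cast
    obtain ⟨n0, hn0⟩ : ∃ n0 : ℝ, n0 = ((k : ℝ) + 1 + 14 / 108) * ((k : ℝ) + 1 + 26 / 108) *
      ((k : ℝ) + 1 + 62 / 108) := ⟨_, rfl⟩
    obtain ⟨n1, hn1⟩ : ∃ n1 : ℝ, n1 = ((k : ℝ) + 1 + 26 / 108) * ((k : ℝ) + 1 + 38 / 108) *
      ((k : ℝ) + 1 + 74 / 108) := ⟨_, rfl⟩
    obtain ⟨d0, hd0⟩ : ∃ d0 : ℝ, d0 = ((k : ℝ) + 1 + 1) * ((k : ℝ) + 1 + 96 / 108) *
      ((k : ℝ) + 1 + 60 / 108) := ⟨_, rfl⟩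
    obtain ⟨d1, hd1⟩ : ∃ d1 : ℝ, d1 = ((k : ℝ) + 1 + 120 / 108) * ((k : ℝ) + 1 + 1) *
      ((k : ℝ) + 1 + 72 / 108) := ⟨_, rfl⟩
    rw [← hn0, ← hn1, ← hd0, ← hd1]
    have pn0 : 0 < n0 := by rw [hn0]; positivity
    have pn1 : 0 < n1 := by rw [hn1]; positivity
    have pd0 : 0 < d0 := by rw [hd0]; positivity
    have pd1 : 0 < d1 := by rw [hd1]; positivity
    have k1 : n0 * d1 ≤ n1 * d0 := by
      rw [hn0, hn1, hd0, hd1, ← sub_nonneg]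
      ring_nf
      positivity
    have k2 : ((k : ℝ) + 17 / 20) * ((k : ℝ) + 1 + 21 / 20) * (n1 * d0) ≤
        ((k : ℝ) + 1 + 17 / 20) * ((k : ℝ) + 21 / 20) * (n0 * d1) := by
      rw [hn0, hn1, hd0, hd1, ← sub_nonneg]
      ring_nf
      positivity
    constructor
    · rw [← mul_div_assoc, div_le_div_iff₀ pd0 pd1]
      calc 2 * (x0 * n0) * d1 = (2 * x0) * (n0 * d1) := by ring
        _ ≤ x1 * (n1 * d0) := mul_le_mul h1 k1 (by positivity) hx1.le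
        _ = x1 * n1 * d0 := by ring
    · rw [div_mul_eq_mul_div, ← mul_div_assoc, div_le_div_iff₀ pd1 pd0]
      have hkp : 0 < (k : ℝ) + 21 / 20 := by positivity
      have k3 : (x1 * n1 * ((k : ℝ) + 1 + 21 / 20) * d0) * ((k : ℝ) + 21 / 20) ≤
          (2.7 * ((k : ℝ) + 1 + 17 / 20) * (x0 * n0) * d1) * ((k : ℝ) + 21 / 20) := by
        calc (x1 * n1 * ((k : ℝ) + 1 + 21 / 20) * d0) * ((k : ℝ) + 21 / 20)
            = (x1 * ((k : ℝ) + 21 / 20)) * (((k : ℝ) + 1 + 21 / 20) * (n1 * d0)) := by ring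
          _ ≤ (2.7 * ((k : ℝ) + 17 / 20) * x0) * (((k : ℝ) + 1 + 21 / 20) * (n1 * d0)) :=
              mul_le_mul_of_nonneg_right h2 (by positivity)
          _ = 2.7 * x0 * (((k : ℝ) + 17 / 20) * ((k : ℝ) + 1 + 21 / 20) * (n1 * d0)) := by ring
          _ ≤ 2.7 * x0 * (((k : ℝ) + 1 + 17 / 20) * ((k : ℝ) + 21 / 20) * (n0 * d1)) :=
              mul_le_mul_of_nonneg_left k2 (by positivity)
          _ = (2.7 * ((k : ℝ) + 1 + 17 / 20) * (x0 * n0) * d1) * ((k : ℝ) + 21 / 20) := by ring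
      exact le_of_mul_le_mul_right k3 hkp

theorem coefF_ratio (k : ℕ) : 2 * hc dF 0 (k + 1) ≤ hc dF 1 (k + 1) ∧
    hc dF 1 (k + 1) ≤ 2.7 * hc dF 0 (k + 1) := by
  obtain ⟨h1, h2⟩ := hbn_ratio k
  refine ⟨h1, ?_⟩
  have hx0 := coefF_pos 0 (k + 1)
  have hk : (0 : ℝ) ≤ k := Nat.cast_nonneg _
  have hkp : 0 < (k : ℝ) + 21 / 20 := by positivity
  have h3 : hc dF 1 (k + 1) * ((k : ℝ) + 21 / 20) ≤
      2.7 * hc dF 0 (k + 1) * ((k : ℝ) + 21 / 20) := by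
    refine h2.trans ?_
    have h4 : 2.7 * ((k : ℝ) + 17 / 20) * hc dF 0 (k + 1) =
        2.7 * hc dF 0 (k + 1) * ((k : ℝ) + 17 / 20) := by ring
    rw [h4]
    apply mul_le_mul_of_nonneg_left _ (by positivity)
    linarith
  exact le_of_mul_le_mul_right h3 hkp

end Pool.Agent.Helper326.HB
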