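import Mathlib
import Pool.Agent.Helper326.HB.Defs

set_option autoImplicit false
open Complex Metric Set Filter Topology Matrix

namespace Pool.Agent.Helper326.HB

theorem dU_zero : dU 0 = -1 / 108 := by simp [dU]

theorem dU_one : dU 1 = 35 / 108 := by simp [dU]

theorem dU_two : dU 2 = 47 / 108 := by simp [dU]

noncomputable def rrU (j : Fin 3) (x : ℝ) : ℝ :=
  ((dU j + x + dU 0) * (dU j + x + dU 1) * (dU j + x + dU 2)) /
    ((dU j + x + 1 - dU 0) * (dU j + x + 1 - dU 1) * (dU j + x + 1 - dU 2))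

theorem coefU_succ (j : Fin 3) (k : ℕ) : hc dU j (k + 1) = hc dU j k * rrU j k := by
  rw [hc, Fin.prod_univ_three, Fin.prod_univ_three, mul_div_assoc]
  rfl

theorem rrU0_pos {x : ℝ} (hx : 1 ≤ x) : 0 < rrU 0 x := by
  unfold rrU
  rw [dU_zero, dU_one, dU_two]
  have h1 : 0 < -1 / 108 + x + -1 / 108 := by linarith
  have h2 : 0 < -1 / 108 + x + 35 / 108 := by linarith
  have h3 : 0 < -1 / 108 + x + 47 / 108 := by linarith
  have h4 : 0 < -1 / 108 + x + 1 - -1 / 108 := by linarith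
  have h5 : 0 < -1 / 108 + x + 1 - 35 / 108 := by linarith
  have h6 : 0 < -1 / 108 + x + 1 - 47 / 108 := by linarith
  positivity

theorem rrU1_pos {x : ℝ} (hx : 0 ≤ x) : 0 < rrU 1 x := by
  unfold rrU
  rw [dU_zero, dU_one, dU_two]
  have h1 : 0 < 35 / 108 + x + -1 / 108 := by linarith
  have h2 : 0 < 35 / 108 + x + 35 / 108 := by linarith
  have h3 : 0 < 35 / 108 + x + 47 / 108 := by linarith
  have h4 : 0 < 35 / 108 + x + 1 - -1 / 108 := by linarith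
  have h5 : 0 < 35 / 108 + x + 1 - 35 / 108 := by linarith
  have h6 : 0 < 35 / 108 + x + 1 - 47 / 108 := by linarith
  positivity

theorem rrU2_pos {x : ℝ} (hx : 0 ≤ x) : 0 < rrU 2 x := by
  unfold rrU
  rw [dU_zero, dU_one, dU_two]
  have h1 : 0 < 47 / 108 + x + -1 / 108 := by linarith
  have h2 : 0 < 47 / 108 + x + 35 / 108 := by linarith
  have h3 : 0 < 47 / 108 + x + 47 / 108 := by linarith
  have h4 : 0 < 47 / 108 + x + 1 - -1 / 108 := by linarith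
  have h5 : 0 < 47 / 108 + x + 1 - 35 / 108 := by linarith
  have h6 : 0 < 47 / 108 + x + 1 - 47 / 108 := by linarith
  positivity

theorem rrU0_le {x : ℝ} (hx : 1 ≤ x) : (x + 1 + 7 / 20) * rrU 0 x ≤ x + 7 / 20 - 1 / 2 := by
  unfold rrU
  rw [dU_zero, dU_one, dU_two]
  have h4 : 0 < -1 / 108 + x + 1 - -1 / 108 := by linarith
  have h5 : 0 < -1 / 108 + x + 1 - 35 / 108 := by linarith
  have h6 : 0 < -1 / 108 + x + 1 - 47 / 108 := by linarith
  rw [← mul_div_assoc, div_le_iff₀ (by positivity)]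
  obtain ⟨y, rfl⟩ : ∃ y, x = y + 1 := ⟨x - 1, by ring⟩
  have hy : 0 ≤ y := by linarith
  nlinarith [hy, mul_nonneg hy hy]

theorem rrU1_le {x : ℝ} (hx : 1 ≤ x) : (x + 1 + 13 / 20) * rrU 1 x ≤ x + 13 / 20 - 1 / 2 := by
  unfold rrU
  rw [dU_zero, dU_one, dU_two]
  have h4 : 0 < 35 / 108 + x + 1 - -1 / 108 := by linarith
  have h5 : 0 < 35 / 108 + x + 1 - 35 / 108 := by linarith
  have h6 : 0 < 35 / 108 + x + 1 - 47 / 108 := by linarith
  rw [← mul_div_assoc, div_le_iff₀ (by positivity)]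
  obtain ⟨y, rfl⟩ : ∃ y, x = y + 1 := ⟨x - 1, by ring⟩
  have hy : 0 ≤ y := by linarith
  nlinarith [hy, mul_nonneg hy hy]

theorem rrU2_le {x : ℝ} (hx : 1 ≤ x) : (x + 1 + 4 / 5) * rrU 2 x ≤ x + 4 / 5 - 1 / 2 := by
  unfold rrU
  rw [dU_zero, dU_one, dU_two]
  have h4 : 0 < 47 / 108 + x + 1 - -1 / 108 := by linarith
  have h5 : 0 < 47 / 108 + x + 1 - 35 / 108 := by linarith
  have h6 : 0 < 47 / 108 + x + 1 - 47 / 108 := by linarith
  rw [← mul_div_assoc, div_le_iff₀ (by positivity)]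
  obtain ⟨y, rfl⟩ : ∃ y, x = y + 1 := ⟨x - 1, by ring⟩
  have hy : 0 ≤ y := by linarith
  nlinarith [hy, mul_nonneg hy hy]

theorem coefU_tel (a : ℕ → ℝ) (r : ℕ → ℝ) (t : ℝ) (ht : 0 ≤ t) (ha : ∀ k, 0 ≤ a k)
    (har : ∀ k, a (k + 1) = a k * r k)
    (hr : ∀ k : ℕ, (((k : ℝ) + 1) + 1 + t) * r k ≤ ((k : ℝ) + 1) + t - 1 / 2) :
    Summable a ∧ ∑' k, a k ≤ 2 * (1 + t) * a 0 := by
  have key : ∀ N : ℕ, ∑ k ∈ Finset.range N, a k ≤
      2 * (1 + t) * a 0 - 2 * ((N : ℝ) + 1 + t) * a N := by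
    intro N
    induction N with
    | zero => simp
    | succ N ih =>
      rw [Finset.sum_range_succ, har]
      have h1 := mul_le_mul_of_nonneg_left (hr N) (ha N)
      push_cast
      nlinarith [ih, h1]
  have key2 : ∀ N : ℕ, ∑ k ∈ Finset.range N, a k ≤ 2 * (1 + t) * a 0 := by
    intro N
    have h1 := key N
    have h2 : 0 ≤ 2 * ((N : ℝ) + 1 + t) * a N :=
      mul_nonneg (by positivity) (ha N)
    linarith
  exact ⟨summable_of_sum_range_le ha key2, Real.tsum_le_of_sum_range_le ha key2⟩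

theorem hcU_zero (j : Fin 3) : hc dU j 0 = 1 := by rw [hc]

theorem hcU0_one : hc dU 0 1 = -(2 * 34 * 46) / (108 * 72 * 60) := by
  have h : ∀ j, hc dU j (0 + 1) = rrU j ((0 : ℕ) : ℝ) := fun j => by
    rw [coefU_succ, hcU_zero, one_mul]
  rw [zero_add] at h
  rw [h]
  unfold rrU
  rw [dU_zero, dU_one, dU_two]
  norm_num

theorem hcU1_one : hc dU 1 1 = (34 * 70 * 82) / (144 * 108 * 96) := by
  have h : ∀ j, hc dU j (0 + 1) = rrU j ((0 : ℕ) : ℝ) := fun j => by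
    rw [coefU_succ, hcU_zero, one_mul]
  rw [zero_add] at h
  rw [h]
  unfold rrU
  rw [dU_zero, dU_one, dU_two]
  norm_num

theorem hcU2_one : hc dU 2 1 = (46 * 82 * 94) / (156 * 120 * 108) := by
  have h : ∀ j, hc dU j (0 + 1) = rrU j ((0 : ℕ) : ℝ) := fun j => by
    rw [coefU_succ, hcU_zero, one_mul]
  rw [zero_add] at h
  rw [h]
  unfold rrU
  rw [dU_zero, dU_one, dU_two]
  norm_num

theorem coefU_neg (k : ℕ) : hc dU 0 (k + 1) < 0 := by
  induction k with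
  | zero => rw [zero_add, hcU0_one]; norm_num
  | succ k ih =>
    rw [coefU_succ]
    exact mul_neg_of_neg_of_pos ih (rrU0_pos (by push_cast; linarith [Nat.cast_nonneg (α := ℝ) k]))

theorem coefU_pos1 (k : ℕ) : 0 < hc dU 1 k := by
  induction k with
  | zero => rw [hcU_zero]; exact one_pos
  | succ k ih =>
    rw [coefU_succ]
    exact mul_pos ih (rrU1_pos (Nat.cast_nonneg k))

theorem coefU_pos2 (k : ℕ) : 0 < hc dU 2 k := by
  induction k with
  | zero => rw [hcU_zero]; exact one_pos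
  | succ k ih =>
    rw [coefU_succ]
    exact mul_pos ih (rrU2_pos (Nat.cast_nonneg k))

theorem coefU_aux0 : Summable (fun k : ℕ => |hc dU 0 (k + 1)|) ∧
    ∑' k : ℕ, |hc dU 0 (k + 1)| ≤ 2 * (1 + 7 / 20) * |hc dU 0 (0 + 1)| := by
  refine coefU_tel (fun k => |hc dU 0 (k + 1)|) (fun k => rrU 0 ((k : ℝ) + 1)) (7 / 20)
    (by norm_num) (fun k => abs_nonneg _) (fun k => ?_) (fun k => ?_)
  · have h1 : 0 < rrU 0 ((k : ℝ) + 1) := rrU0_pos (by linarith [Nat.cast_nonneg (α := ℝ) k])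
    show |hc dU 0 (k + 1 + 1)| = |hc dU 0 (k + 1)| * rrU 0 ((k : ℝ) + 1)
    rw [coefU_succ, abs_mul]
    push_cast
    rw [abs_of_pos h1]
  · exact rrU0_le (by linarith [Nat.cast_nonneg (α := ℝ) k])

theorem coefU_aux1 : Summable (fun k : ℕ => |hc dU 1 (k + 1)|) ∧
    ∑' k : ℕ, |hc dU 1 (k + 1)| ≤ 2 * (1 + 13 / 20) * |hc dU 1 (0 + 1)| := by
  refine coefU_tel (fun k => |hc dU 1 (k + 1)|) (fun k => rrU 1 ((k : ℝ) + 1)) (13 / 20)
    (by norm_num) (fun k => abs_nonneg _) (fun k => ?_) (fun k => ?_)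
  · have h1 : 0 < rrU 1 ((k : ℝ) + 1) := rrU1_pos (by positivity)
    show |hc dU 1 (k + 1 + 1)| = |hc dU 1 (k + 1)| * rrU 1 ((k : ℝ) + 1)
    rw [coefU_succ, abs_mul]
    push_cast
    rw [abs_of_pos h1]
  · exact rrU1_le (by linarith [Nat.cast_nonneg (α := ℝ) k])

theorem coefU_aux2 : Summable (fun k : ℕ => |hc dU 2 (k + 1)|) ∧
    ∑' k : ℕ, |hc dU 2 (k + 1)| ≤ 2 * (1 + 4 / 5) * |hc dU 2 (0 + 1)| := by
  refine coefU_tel (fun k => |hc dU 2 (k + 1)|) (fun k => rrU 2 ((k : ℝ) + 1)) (4 / 5)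
    (by norm_num) (fun k => abs_nonneg _) (fun k => ?_) (fun k => ?_)
  · have h1 : 0 < rrU 2 ((k : ℝ) + 1) := rrU2_pos (by positivity)
    show |hc dU 2 (k + 1 + 1)| = |hc dU 2 (k + 1)| * rrU 2 ((k : ℝ) + 1)
    rw [coefU_succ, abs_mul]
    push_cast
    rw [abs_of_pos h1]
  · exact rrU2_le (by linarith [Nat.cast_nonneg (α := ℝ) k])

theorem coefU_summable (j : Fin 3) : Summable (fun k => |hc dU j k|) := by
  refine (summable_nat_add_iff (f := fun k => |hc dU j k|) 1).1 ?_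
  fin_cases j
  · exact coefU_aux0.1
  · exact coefU_aux1.1
  · exact coefU_aux2.1

theorem coefU_sum0 : ∑' k : ℕ, |hc dU 0 (k + 1)| ≤ 0.0185 := by
  refine coefU_aux0.2.trans ?_
  rw [zero_add, hcU0_one]
  norm_num [abs_of_neg, abs_of_pos]

theorem coefU_sum1 : ∑' k : ℕ, |hc dU 1 (k + 1)| ≤ 0.5 := by
  refine coefU_aux1.2.trans ?_
  rw [zero_add, hcU1_one, abs_of_pos (by norm_num)]
  norm_num

theorem coefU_sum2 : ∑' k : ℕ, |hc dU 2 (k + 1)| ≤ 0.65 := by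
  refine coefU_aux2.2.trans ?_
  rw [zero_add, hcU2_one, abs_of_pos (by norm_num)]
  norm_num

end Pool.Agent.Helper326.HB
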