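import Mathlib
import Pool.Agent.Helper326.HB.Defs

set_option autoImplicit false
open Complex Metric Set Filter Topology Matrix

namespace Pool.Agent.Helper326.HB

noncomputable def odeStep {n : ℕ} (a : Fin n → ℂ → ℂ) (τ : ℂ) (v : Fin n → ℂ) : Fin n → ℂ :=
  fun i => if h : (i:ℕ) + 1 < n then v ⟨i + 1, h⟩ else ∑ j, a j τ * v j

theorem odeStep_norm {n : ℕ} (a : Fin n → ℂ → ℂ) (τ : ℂ) (v : Fin n → ℂ) :
    ‖odeStep a τ v‖ ≤ (1 + ∑ j, ‖a j τ‖) * ‖v‖ := by
  have h0 : 0 ≤ ∑ j, ‖a j τ‖ := Finset.sum_nonneg fun _ _ => norm_nonneg _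
  rw [pi_norm_le_iff_of_nonneg (by positivity)]
  intro i
  unfold odeStep
  split_ifs with h
  · exact (norm_le_pi_norm v _).trans (le_mul_of_one_le_left (norm_nonneg _) (by linarith))
  · refine (norm_sum_le _ _).trans ?_
    have : ∑ j, ‖a j τ * v j‖ ≤ (∑ j, ‖a j τ‖) * ‖v‖ := by
      rw [Finset.sum_mul]
      refine Finset.sum_le_sum fun j _ => ?_
      rw [norm_mul]
      exact mul_le_mul_of_nonneg_left (norm_le_pi_norm v j) (norm_nonneg _)
    refine this.trans ?_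
    apply mul_le_mul_of_nonneg_right _ (norm_nonneg _)
    linarith

theorem odeStep_diff {n : ℕ} (a : Fin n → ℂ → ℂ) {U : Set ℂ}
    (ha : ∀ i, DifferentiableOn ℂ (a i) U) {Z : ℂ → Fin n → ℂ} (hZ : DifferentiableOn ℂ Z U) :
    DifferentiableOn ℂ (fun τ => odeStep a τ (Z τ)) U := by
  have hZ' := differentiableOn_pi.1 hZ
  rw [differentiableOn_pi]
  intro i
  unfold odeStep
  split_ifs with h
  · exact hZ' _
  · exact DifferentiableOn.fun_sum fun j _ => (ha j).mul (hZ' j)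

/-- the linear map -/
noncomputable def odeLin {n : ℕ} (a : Fin n → ℂ → ℂ) (τ : ℂ) : (Fin n → ℂ) →ₗ[ℂ] (Fin n → ℂ) where
  toFun := odeStep a τ
  map_add' := by
    intro v w
    ext i
    simp only [odeStep, Pi.add_apply]
    split_ifs
    · rfl
    · rw [← Finset.sum_add_distrib]
      exact Finset.sum_congr rfl fun j _ => by ring
  map_smul' := by
    intro c v
    ext i
    simp only [odeStep, Pi.smul_apply, smul_eq_mul, RingHom.id_apply]
    split_ifs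
    · rfl
    · rw [Finset.mul_sum]
      exact Finset.sum_congr rfl fun j _ => by ring

theorem ode_sys {n : ℕ} (a : Fin n → ℂ → ℂ) {R : ℝ} (hR : 0 < R)
    (ha : ∀ i, DifferentiableOn ℂ (a i) (ball 0 R)) {τ₀ : ℂ} (hτ₀ : τ₀ ∈ ball (0 : ℂ) R)
    (y₀ : Fin n → ℂ) :
    ∃ Y : ℂ → (Fin n → ℂ), Y τ₀ = y₀ ∧ ∀ τ ∈ ball (0:ℂ) R, HasDerivAt Y (odeStep a τ (Y τ)) τ := by
  classical
  have hex : ∀ f : {f : ℂ → (Fin n → ℂ) // DifferentiableOn ℂ f (ball (0:ℂ) R)},
      ∃ g : {f : ℂ → (Fin n → ℂ) // DifferentiableOn ℂ f (ball (0:ℂ) R)},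
        g.1 τ₀ = 0 ∧ ∀ x ∈ ball (0:ℂ) R, HasDerivAt g.1 (odeStep a x (f.1 x)) x := by
    rintro ⟨f, hf⟩
    obtain ⟨g, hg0, hg⟩ := (odeStep_diff a ha hf).isExactOn_ball.with_val_at τ₀ 0
    exact ⟨⟨g, fun x hx => (hg x hx).differentiableAt.differentiableWithinAt⟩, hg0, hg⟩
  choose nx hnx0 hnx using hex
  let Z : ℕ → {f : ℂ → (Fin n → ℂ) // DifferentiableOn ℂ f (ball (0:ℂ) R)} := fun k =>
    Nat.rec ⟨fun _ => y₀, differentiableOn_const _⟩ (fun _ f => nx f) k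
  have hZ0 : (Z 0).1 = fun _ => y₀ := rfl
  have hZs : ∀ k, Z (k+1) = nx (Z k) := fun k => rfl
  have hZd : ∀ k, DifferentiableOn ℂ (Z k).1 (ball (0:ℂ) R) := fun k => (Z k).2
  have hZτ : ∀ k, (Z (k+1)).1 τ₀ = 0 := fun k => by rw [hZs]; exact hnx0 _
  have hZh : ∀ k, ∀ x ∈ ball (0:ℂ) R, HasDerivAt (Z (k+1)).1 (odeStep a x ((Z k).1 x)) x :=
    fun k => by rw [hZs]; exact hnx _
  -- bounds
  have hbound : ∀ r, r < R → τ₀ ∈ closedBall (0:ℂ) r → ∃ M : ℝ, 0 ≤ M ∧ ∀ k, ∀ τ ∈ closedBall (0:ℂ) r,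
      ‖(Z k).1 τ‖ ≤ ‖y₀‖ * (M * ‖τ - τ₀‖) ^ k / k.factorial := by
    intro r hr hτr
    have hsub : closedBall (0:ℂ) r ⊆ ball (0:ℂ) R := closedBall_subset_ball hr
    have hcont : ContinuousOn (fun τ => 1 + ∑ j, ‖a j τ‖) (closedBall (0:ℂ) r) := by
      refine continuousOn_const.add (continuousOn_finsetSum _ fun j _ => ?_)
      exact ((ha j).continuousOn.mono hsub).norm
    obtain ⟨M, hM⟩ := (isCompact_closedBall (0:ℂ) r).exists_bound_of_continuousOn hcont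
    have hM' : ∀ τ ∈ closedBall (0:ℂ) r, 1 + ∑ j, ‖a j τ‖ ≤ M := fun τ hτ =>
      (le_abs_self _).trans (hM τ hτ)
    have hM0 : 0 ≤ M := by
      have h1 := hM' τ₀ hτr
      have h0 : 0 ≤ ∑ j, ‖a j τ₀‖ := Finset.sum_nonneg fun _ _ => norm_nonneg _
      linarith
    refine ⟨M, hM0, fun k => ?_⟩
    induction k with
    | zero => intro τ _; rw [hZ0]; simp
    | succ k ih =>
      intro τ hτ
      -- the segment
      have hseg : ∀ t ∈ Icc (0:ℝ) 1, τ₀ + (t:ℂ) * (τ - τ₀) ∈ closedBall (0:ℂ) r := by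
        intro t ht
        have hc := (convex_closedBall (0:ℂ) r) hτr hτ (sub_nonneg.2 ht.2) ht.1 (by ring)
        have e : (1 - t) • τ₀ + t • τ = τ₀ + (t:ℂ) * (τ - τ₀) := by
          rw [Complex.real_smul, Complex.real_smul]; push_cast; ring
        rwa [e] at hc
      have hγ : ∀ t : ℝ, HasDerivAt (fun t : ℝ => τ₀ + (t:ℂ) * (τ - τ₀)) (τ - τ₀) t := by
        intro t
        have h1 : HasDerivAt (fun t : ℝ => (t:ℂ)) 1 t := Complex.ofRealCLM.hasDerivAt
        simpa using (h1.mul_const (τ - τ₀)).const_add τ₀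
      have hcomp : ∀ t ∈ Icc (0:ℝ) 1, HasDerivAt (fun t : ℝ => (Z (k+1)).1 (τ₀ + (t:ℂ) * (τ - τ₀)))
          ((τ - τ₀) • odeStep a (τ₀ + (t:ℂ) * (τ - τ₀)) ((Z k).1 (τ₀ + (t:ℂ) * (τ - τ₀)))) t := by
        intro t ht
        exact (hZh k _ (hsub (hseg t ht))).scomp t (hγ t)
      have hB : ∀ t : ℝ, HasDerivAt (fun t : ℝ => ‖y₀‖ * (M * (t * ‖τ - τ₀‖)) ^ (k+1) / (k+1).factorial)
          (‖τ - τ₀‖ * (M * (‖y₀‖ * (M * (t * ‖τ - τ₀‖)) ^ k / k.factorial))) t := by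
        intro t
        have h1 : HasDerivAt (fun t : ℝ => M * (t * ‖τ - τ₀‖)) (M * ‖τ - τ₀‖) t := by
          have := ((hasDerivAt_id t).mul_const ‖τ - τ₀‖).const_mul M
          simpa using this
        have h2 := ((h1.pow (k+1)).const_mul ‖y₀‖).div_const ((k+1).factorial : ℝ)
        refine h2.congr_deriv ?_
        rw [Nat.factorial_succ]
        push_cast
        have : (k.factorial : ℝ) ≠ 0 := by positivity
        field_simp
      have key := image_norm_le_of_norm_deriv_right_le_deriv_boundary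
        (f := fun t : ℝ => (Z (k+1)).1 (τ₀ + (t:ℂ) * (τ - τ₀)))
        (f' := fun t : ℝ => (τ - τ₀) • odeStep a (τ₀ + (t:ℂ) * (τ - τ₀)) ((Z k).1 (τ₀ + (t:ℂ) * (τ - τ₀))))
        (a := 0) (b := 1)
        (fun t ht => (hcomp t ht).continuousAt.continuousWithinAt)
        (fun t ht => (hcomp t ⟨ht.1, ht.2.le⟩).hasDerivWithinAt)
        (B := fun t : ℝ => ‖y₀‖ * (M * (t * ‖τ - τ₀‖)) ^ (k+1) / (k+1).factorial)
        (B' := fun t : ℝ => ‖τ - τ₀‖ * (M * (‖y₀‖ * (M * (t * ‖τ - τ₀‖)) ^ k / k.factorial)))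
        (by simp [hZτ]) hB (by
          intro t ht
          rw [norm_smul]
          apply mul_le_mul_of_nonneg_left _ (norm_nonneg _)
          refine (odeStep_norm _ _ _).trans ?_
          have h1 := hM' _ (hseg t ⟨ht.1, ht.2.le⟩)
          have h2 := ih _ (hseg t ⟨ht.1, ht.2.le⟩)
          have h3 : ‖τ₀ + (t:ℂ) * (τ - τ₀) - τ₀‖ = t * ‖τ - τ₀‖ := by
            rw [add_sub_cancel_left, norm_mul, Complex.norm_real, Real.norm_of_nonneg ht.1]
          rw [h3] at h2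
          exact mul_le_mul h1 h2 (norm_nonneg _) hM0)
        (right_mem_Icc.2 zero_le_one)
      simpa using key
  -- the sum
  have hsum : ∀ r, r < R → τ₀ ∈ closedBall (0:ℂ) r → ∃ u : ℕ → ℝ, Summable u ∧
      ∀ k, ∀ τ ∈ closedBall (0:ℂ) r, ‖(Z k).1 τ‖ ≤ u k := by
    intro r hr hτr
    obtain ⟨M, hM0, hM⟩ := hbound r hr hτr
    refine ⟨fun k => ‖y₀‖ * ((M * (2 * r)) ^ k / k.factorial), ?_, ?_⟩
    · exact (Real.summable_pow_div_factorial _).mul_left _
    · intro k τ hτ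
      refine (hM k τ hτ).trans ?_
      rw [mul_div_assoc]
      apply mul_le_mul_of_nonneg_left _ (norm_nonneg _)
      apply div_le_div_of_nonneg_right _ (by positivity)
      apply pow_le_pow_left₀ (by positivity)
      apply mul_le_mul_of_nonneg_left _ hM0
      have h1 : ‖τ‖ ≤ r := mem_closedBall_zero_iff.1 hτ
      have h2 : ‖τ₀‖ ≤ r := mem_closedBall_zero_iff.1 hτr
      linarith [norm_sub_le τ τ₀]
  refine ⟨fun τ => ∑' k, (Z k).1 τ, ?_, ?_⟩
  · show ∑' k, (Z k).1 τ₀ = y₀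
    rw [tsum_eq_single 0]
    · rw [hZ0]
    · intro k hk
      obtain ⟨l, rfl⟩ := Nat.exists_eq_succ_of_ne_zero hk
      exact hZτ l
  · intro τ hτ
    rw [mem_ball_zero_iff] at hτ hτ₀
    obtain ⟨r, hr1, hr2⟩ := exists_between (max_lt hτ hτ₀)
    have hr3 : ‖τ‖ < r := (le_max_left _ _).trans_lt hr1
    have hr4 : ‖τ₀‖ < r := (le_max_right _ _).trans_lt hr1
    obtain ⟨u, hu, hub⟩ := hsum r hr2 (mem_closedBall_zero_iff.2 hr4.le)
    have hsub : ball (0:ℂ) r ⊆ ball (0:ℂ) R := ball_subset_ball hr2.le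
    have hub' : ∀ k, ∀ w ∈ ball (0:ℂ) r, ‖(Z k).1 w‖ ≤ u k := fun k w hw =>
      hub k w (ball_subset_closedBall hw)
    have hτr : τ ∈ ball (0:ℂ) r := mem_ball_zero_iff.2 hr3
    have hd := differentiableOn_tsum_of_summable_norm hu (fun k => (hZd k).mono hsub) isOpen_ball hub'
    have hs := hasSum_deriv_of_summable_norm hu (fun k => (hZd k).mono hsub) isOpen_ball hub' hτr
    have hsm : Summable fun k => (Z k).1 τ := Summable.of_norm_bounded hu fun k => hub' k τ hτr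
    have h1 : HasSum (fun k => odeStep a τ ((Z k).1 τ)) (odeStep a τ (∑' k, (Z k).1 τ)) := by
      have := (LinearMap.toContinuousLinearMap (odeLin a τ)).hasSum hsm.hasSum
      exact this
    have h2 : HasSum (fun k => deriv (Z k).1 τ) (odeStep a τ (∑' k, (Z k).1 τ)) := by
      rw [← hasSum_nat_add_iff' 1]
      simp only [Finset.range_one, Finset.sum_singleton]
      have e0 : deriv (Z 0).1 τ = 0 := by rw [hZ0]; simp
      rw [e0, sub_zero]
      have e1 : (fun k => deriv (Z (k+1)).1 τ) = fun k => odeStep a τ ((Z k).1 τ) := by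
        funext k
        exact (hZh k τ (hsub hτr)).deriv
      rw [e1]
      exact h1
    have h3 := hs.unique h2
    rw [← h3]
    exact ((hd τ hτr).differentiableAt (isOpen_ball.mem_nhds hτr)).hasDerivAt

theorem ode_iter_diff {y : ℂ → ℂ} {U : Set ℂ} (hU : IsOpen U) (hy : DifferentiableOn ℂ y U) (k : ℕ) :
    DifferentiableOn ℂ (iteratedDeriv k y) U := by
  induction k with
  | zero => rwa [iteratedDeriv_zero]
  | succ k ih => rw [iteratedDeriv_succ]; exact ih.deriv hU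

/-- TARGET 1: existence -/
theorem ode_exists {n : ℕ} (a : Fin n → ℂ → ℂ) {R : ℝ} (hR : 0 < R)
    (ha : ∀ i, DifferentiableOn ℂ (a i) (ball 0 R)) {τ₀ : ℂ} (hτ₀ : τ₀ ∈ ball (0 : ℂ) R)
    (y₀ : Fin n → ℂ) :
    ∃ y : ℂ → ℂ, DifferentiableOn ℂ y (ball 0 R) ∧ (∀ i : Fin n, iteratedDeriv i y τ₀ = y₀ i) ∧
      ∀ τ ∈ ball (0 : ℂ) R, iteratedDeriv n y τ = ∑ i : Fin n, a i τ * iteratedDeriv i y τ := by
  rcases Nat.eq_zero_or_pos n with rfl | hn
  · refine ⟨fun _ => 0, differentiableOn_const _, fun i => i.elim0, fun τ _ => ?_⟩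
    simp
  obtain ⟨Y, hY0, hY⟩ := ode_sys a hR ha hτ₀ y₀
  let i0 : Fin n := ⟨0, hn⟩
  have hYi : ∀ τ ∈ ball (0:ℂ) R, ∀ i : Fin n, HasDerivAt (fun τ => Y τ i) (odeStep a τ (Y τ) i) τ :=
    fun τ hτ i => (hasDerivAt_pi.1 (hY τ hτ)) i
  have hit : ∀ k, ∀ hk : k < n, ∀ τ ∈ ball (0:ℂ) R, iteratedDeriv k (fun τ => Y τ i0) τ = Y τ ⟨k, hk⟩ := by
    intro k
    induction k with
    | zero => intro hk τ _; rw [iteratedDeriv_zero]
    | succ k ih =>
      intro hk τ hτ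
      rw [iteratedDeriv_succ]
      have h1 : iteratedDeriv k (fun τ => Y τ i0) =ᶠ[𝓝 τ] fun τ => Y τ ⟨k, by omega⟩ := by
        filter_upwards [isOpen_ball.mem_nhds hτ] with w hw
        exact ih (by omega) w hw
      rw [h1.deriv_eq, (hYi τ hτ _).deriv]
      unfold odeStep
      rw [dif_pos hk]
  refine ⟨fun τ => Y τ i0, fun τ hτ => (hYi τ hτ i0).differentiableAt.differentiableWithinAt, ?_, ?_⟩
  · intro i
    rw [hit i i.2 τ₀ hτ₀, hY0]
  · intro τ hτ
    obtain ⟨m, rfl⟩ : ∃ m, n = m + 1 := ⟨n - 1, by omega⟩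
    rw [iteratedDeriv_succ]
    have h1 : iteratedDeriv m (fun τ => Y τ i0) =ᶠ[𝓝 τ] fun τ => Y τ ⟨m, by omega⟩ := by
      filter_upwards [isOpen_ball.mem_nhds hτ] with w hw
      exact hit m (by omega) w hw
    rw [h1.deriv_eq, (hYi τ hτ _).deriv]
    unfold odeStep
    rw [dif_neg (by simp)]
    refine Finset.sum_congr rfl fun j _ => ?_
    rw [hit j j.2 τ hτ]

/-- TARGET 2: uniqueness on a convex open set (Gronwall along segments, or: the set where all jets of order `< n` of the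
difference vanish is closed, and open by the recursion for Taylor coefficients) -/
theorem ode_unique {n : ℕ} (a : Fin n → ℂ → ℂ) {U : Set ℂ} (hU : IsOpen U) (hconv : Convex ℝ U)
    (ha : ∀ i, DifferentiableOn ℂ (a i) U) {y z : ℂ → ℂ} (hy : DifferentiableOn ℂ y U)
    (hz : DifferentiableOn ℂ z U)
    (hy' : ∀ τ ∈ U, iteratedDeriv n y τ = ∑ i : Fin n, a i τ * iteratedDeriv i y τ)
    (hz' : ∀ τ ∈ U, iteratedDeriv n z τ = ∑ i : Fin n, a i τ * iteratedDeriv i z τ)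
    {τ₀ : ℂ} (hτ₀ : τ₀ ∈ U) (h0 : ∀ i : Fin n, iteratedDeriv i y τ₀ = iteratedDeriv i z τ₀) :
    EqOn y z U := by
  intro τ hτ
  rcases Nat.eq_zero_or_pos n with rfl | hn
  · have h1 := hy' τ hτ
    have h2 := hz' τ hτ
    simp only [iteratedDeriv_zero, Finset.univ_eq_empty, Finset.sum_empty] at h1 h2
    rw [h1, h2]
  let W : ℂ → (Fin n → ℂ) := fun x i => iteratedDeriv i y x - iteratedDeriv i z x
  have hW : ∀ x ∈ U, HasDerivAt W (odeStep a x (W x)) x := by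
    intro x hx
    rw [hasDerivAt_pi]
    intro i
    have h1 : HasDerivAt (iteratedDeriv i y) (iteratedDeriv (i+1) y x) x := by
      rw [iteratedDeriv_succ]
      exact ((ode_iter_diff hU hy i x hx).differentiableAt (hU.mem_nhds hx)).hasDerivAt
    have h2 : HasDerivAt (iteratedDeriv i z) (iteratedDeriv (i+1) z x) x := by
      rw [iteratedDeriv_succ]
      exact ((ode_iter_diff hU hz i x hx).differentiableAt (hU.mem_nhds hx)).hasDerivAt
    refine (h1.sub h2).congr_deriv ?_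
    unfold odeStep
    split_ifs with h
    · rfl
    · have hi : (i:ℕ) + 1 = n := by have := i.2; omega
      rw [hi, hy' x hx, hz' x hx, ← Finset.sum_sub_distrib]
      exact Finset.sum_congr rfl fun j _ => by simp only [W]; ring
  have hseg : ∀ t ∈ Icc (0:ℝ) 1, τ₀ + (t:ℂ) * (τ - τ₀) ∈ U := by
    intro t ht
    have hc := hconv hτ₀ hτ (sub_nonneg.2 ht.2) ht.1 (by ring)
    have e : (1 - t) • τ₀ + t • τ = τ₀ + (t:ℂ) * (τ - τ₀) := by
      rw [Complex.real_smul, Complex.real_smul]; push_cast; ring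
    rwa [e] at hc
  have hγ : ∀ t : ℝ, HasDerivAt (fun t : ℝ => τ₀ + (t:ℂ) * (τ - τ₀)) (τ - τ₀) t := by
    intro t
    have h1 : HasDerivAt (fun t : ℝ => (t:ℂ)) 1 t := Complex.ofRealCLM.hasDerivAt
    simpa using (h1.mul_const (τ - τ₀)).const_add τ₀
  have hcomp : ∀ t ∈ Icc (0:ℝ) 1, HasDerivAt (fun t : ℝ => W (τ₀ + (t:ℂ) * (τ - τ₀)))
      ((τ - τ₀) • odeStep a (τ₀ + (t:ℂ) * (τ - τ₀)) (W (τ₀ + (t:ℂ) * (τ - τ₀)))) t := by
    intro t ht
    exact (hW _ (hseg t ht)).scomp t (hγ t)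
  have hcont : ContinuousOn (fun t : ℝ => 1 + ∑ j, ‖a j (τ₀ + (t:ℂ) * (τ - τ₀))‖) (Icc (0:ℝ) 1) := by
    refine continuousOn_const.add (continuousOn_finsetSum _ fun j _ => ?_)
    refine ((ha j).continuousOn.comp (fun t _ => (hγ t).continuousAt.continuousWithinAt) hseg).norm
  obtain ⟨M, hM⟩ := (isCompact_Icc (a := (0:ℝ)) (b := 1)).exists_bound_of_continuousOn hcont
  have key := eq_zero_of_abs_deriv_le_mul_abs_self_of_eq_zero_right
    (f := fun t : ℝ => W (τ₀ + (t:ℂ) * (τ - τ₀)))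
    (f' := fun t : ℝ => (τ - τ₀) • odeStep a (τ₀ + (t:ℂ) * (τ - τ₀)) (W (τ₀ + (t:ℂ) * (τ - τ₀))))
    (K := ‖τ - τ₀‖ * M) (a := 0) (b := 1)
    (fun t ht => (hcomp t ht).continuousAt.continuousWithinAt)
    (fun t ht => (hcomp t ⟨ht.1, ht.2.le⟩).hasDerivWithinAt)
    (by
      funext i
      simp [W, h0 i])
    (by
      intro t ht
      rw [norm_smul, mul_assoc]
      apply mul_le_mul_of_nonneg_left _ (norm_nonneg _)
      refine (odeStep_norm _ _ _).trans ?_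
      exact mul_le_mul_of_nonneg_right ((le_abs_self _).trans (hM t ⟨ht.1, ht.2.le⟩)) (norm_nonneg _))
    1 (right_mem_Icc.2 zero_le_one)
  have h1 := congrFun key ⟨0, hn⟩
  simp only [W, iteratedDeriv_zero, ofReal_one, one_mul, add_sub_cancel, Pi.zero_apply] at h1
  exact sub_eq_zero.1 h1

end Pool.Agent.Helper326.HB
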