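import Mathlib
import Pool.Agent.Helper326.HB.Defs

set_option autoImplicit false
open Complex Metric Set Filter Topology Matrix

namespace Pool.Agent.Helper326.HB

theorem P_diff {n : ℕ} {δ : Fin n → ℝ} {j : Fin n} {C : ℝ} (hC : ∀ k, |hc δ j k| ≤ C) :
    DifferentiableOn ℂ (P δ j) (ball 0 1) := by
  intro z hz
  have hz1 : ‖z‖ < 1 := by simpa using hz
  obtain ⟨r, hr1, hr2⟩ := exists_between hz1
  have hr0 : 0 ≤ r := (norm_nonneg z).trans hr1.le
  have h : DifferentiableOn ℂ (fun w : ℂ => ∑' k : ℕ, (hc δ j k : ℂ) * w ^ k) (ball 0 r) := by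
    refine differentiableOn_tsum_of_summable_norm (u := fun k => C * r ^ k)
      ((summable_geometric_of_lt_one hr0 hr2).mul_left C) (fun k => ?_) isOpen_ball ?_
    · exact ((differentiable_id.pow k).const_mul _).differentiableOn
    · intro k w hw
      have hw1 : ‖w‖ < r := by simpa using hw
      rw [norm_mul, norm_pow, Complex.norm_real, Real.norm_eq_abs]
      exact mul_le_mul (hC k) (pow_le_pow_left₀ (norm_nonneg w) hw1.le k) (by positivity)
        ((abs_nonneg _).trans (hC k))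
  have h2 : DifferentiableAt ℂ (P δ j) z :=
    h.differentiableAt (isOpen_ball.mem_nhds (by simpa using hr1))
  exact h2.differentiableWithinAt

theorem P_cont {n : ℕ} {δ : Fin n → ℝ} {j : Fin n} (hs : Summable (fun k => |hc δ j k|)) :
    ContinuousOn (P δ j) (closedBall 0 1) := by
  unfold P
  refine continuousOn_tsum (fun k => ?_) hs ?_
  · exact (continuous_const.mul (continuous_id.pow k)).continuousOn
  · intro k w hw
    have hw1 : ‖w‖ ≤ 1 := by simpa using hw
    rw [norm_mul, norm_pow, Complex.norm_real, Real.norm_eq_abs]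
    exact mul_le_of_le_one_right (abs_nonneg _) (pow_le_one₀ (norm_nonneg w) hw1)

theorem psi_eq {n : ℕ} {δ : Fin n → ℝ} {j : Fin n} (u : ℂ) :
    psi δ j u = Complex.exp ((δ j : ℂ) * u) * P δ j (Complex.exp u) := by
  unfold psi P
  rw [← tsum_mul_left]
  refine tsum_congr fun k => ?_
  rw [add_mul, Complex.exp_add, Complex.exp_nat_mul]
  ring

theorem psi_diff {n : ℕ} {δ : Fin n → ℝ} {j : Fin n} {C : ℝ} (hC : ∀ k, |hc δ j k| ≤ C) :
    DifferentiableOn ℂ (psi δ j) {u | u.re < 0} := by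
  have e : psi δ j = fun u => Complex.exp ((δ j : ℂ) * u) * P δ j (Complex.exp u) :=
    funext fun u => psi_eq u
  rw [e]
  refine DifferentiableOn.mul ?_ ?_
  · exact (Complex.differentiable_exp.comp (differentiable_id.const_mul _)).differentiableOn
  · refine (P_diff hC).comp Complex.differentiable_exp.differentiableOn ?_
    intro u hu
    have hu' : u.re < 0 := hu
    rw [mem_ball_zero_iff, Complex.norm_exp]
    exact Real.exp_lt_one_iff.2 hu'

theorem psi_bd (d : ℝ) (m : ℕ) {r : ℝ} (hr0 : 0 < r) (hr1 : r < 1) (C M : ℝ) :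
    Summable (fun k : ℕ => C * ((|d| + 1) * ((k : ℝ) + 1)) ^ m * (Real.exp (|d| * M) * r ^ k)) := by
  have h1 : Summable (fun k : ℕ => (k : ℝ) ^ m * r ^ k) :=
    summable_pow_mul_geometric_of_norm_lt_one m (by
      rw [Real.norm_eq_abs, abs_of_pos hr0]; exact hr1)
  have h2 : Summable (fun k : ℕ => ((k + 1 : ℕ) : ℝ) ^ m * r ^ (k + 1)) :=
    (summable_nat_add_iff 1).2 h1
  have h3 := h2.mul_left (C * (|d| + 1) ^ m * Real.exp (|d| * M) / r)
  refine h3.congr fun k => ?_
  push_cast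
  rw [mul_pow, pow_succ]
  field_simp

theorem psi_term_le {n : ℕ} {δ : Fin n → ℝ} {j : Fin n} {C : ℝ} (hC : ∀ k, |hc δ j k| ≤ C) (m : ℕ)
    {ε M : ℝ} {w : ℂ} (hw1 : w.re ≤ -ε) (hw2 : -M ≤ w.re) (hε : 0 ≤ ε) (k : ℕ) :
    ‖(hc δ j k : ℂ) * ((δ j : ℂ) + k) ^ m * Complex.exp (((δ j : ℂ) + k) * w)‖ ≤
      C * ((|δ j| + 1) * ((k : ℝ) + 1)) ^ m * (Real.exp (|δ j| * M) * (Real.exp (-ε)) ^ k) := by
  have hC0 : 0 ≤ C := (abs_nonneg _).trans (hC 0)
  rw [norm_mul, norm_mul, norm_pow, Complex.norm_real, Real.norm_eq_abs, Complex.norm_exp]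
  have h1 : ‖(δ j : ℂ) + k‖ ≤ (|δ j| + 1) * ((k : ℝ) + 1) := by
    refine (norm_add_le _ _).trans ?_
    rw [Complex.norm_real, Real.norm_eq_abs, Complex.norm_natCast]
    have := abs_nonneg (δ j)
    have hk : (0 : ℝ) ≤ k := Nat.cast_nonneg k
    nlinarith
  have h2 : (((δ j : ℂ) + k) * w).re = (δ j + k) * w.re := by
    have e : ((δ j : ℂ) + k) = ((δ j + k : ℝ) : ℂ) := by push_cast; rfl
    rw [e, Complex.re_ofReal_mul]
  rw [h2]
  have h3 : Real.exp ((δ j + k) * w.re) ≤ Real.exp (|δ j| * M) * (Real.exp (-ε)) ^ k := by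
    rw [← Real.exp_nat_mul, ← Real.exp_add]
    refine Real.exp_le_exp.2 ?_
    have hk : (0 : ℝ) ≤ k := Nat.cast_nonneg k
    have e1 : δ j * w.re ≤ |δ j| * M := by
      have hM : |w.re| ≤ M := by
        rw [abs_of_nonpos (by linarith)]; linarith
      calc δ j * w.re ≤ |δ j * w.re| := le_abs_self _
        _ = |δ j| * |w.re| := abs_mul _ _
        _ ≤ |δ j| * M := mul_le_mul_of_nonneg_left hM (abs_nonneg _)
    have e2 : (k : ℝ) * w.re ≤ k * (-ε) := mul_le_mul_of_nonneg_left hw1 hk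
    linarith
  refine mul_le_mul (mul_le_mul (hC k) (pow_le_pow_left₀ (norm_nonneg _) h1 m) (by positivity) hC0)
    h3 (Real.exp_pos _).le ?_
  have : 0 ≤ |δ j| := abs_nonneg _
  positivity

theorem psi_iter {n : ℕ} {δ : Fin n → ℝ} {j : Fin n} {C : ℝ} (hC : ∀ k, |hc δ j k| ≤ C) (m : ℕ)
    {u : ℂ} (hu : u.re < 0) :
    Summable (fun k : ℕ => (hc δ j k : ℂ) * ((δ j : ℂ) + k) ^ m * Complex.exp (((δ j : ℂ) + k) * u)) ∧
    iteratedDeriv m (psi δ j) u =
      ∑' k : ℕ, (hc δ j k : ℂ) * ((δ j : ℂ) + k) ^ m * Complex.exp (((δ j : ℂ) + k) * u) := by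
  constructor
  · have hr : Real.exp (-(-u.re)) < 1 := Real.exp_lt_one_iff.2 (by linarith)
    refine Summable.of_norm_bounded (psi_bd (δ j) m (Real.exp_pos _) hr C (-u.re)) fun k => ?_
    exact psi_term_le hC m (by linarith) (by linarith) (by linarith) k
  · induction m generalizing u with
    | zero =>
      rw [iteratedDeriv_zero]
      unfold psi
      refine tsum_congr fun k => ?_
      rw [pow_zero, mul_one]
    | succ m ih =>
      rw [iteratedDeriv_succ]
      have hopen : IsOpen {w : ℂ | w.re < 0} := isOpen_lt Complex.continuous_re continuous_const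
      have h1 : iteratedDeriv m (psi δ j) =ᶠ[𝓝 u] fun w =>
          ∑' k : ℕ, (hc δ j k : ℂ) * ((δ j : ℂ) + k) ^ m * Complex.exp (((δ j : ℂ) + k) * w) := by
        filter_upwards [hopen.mem_nhds hu] with w hw
        exact ih hw
      rw [h1.deriv_eq]
      -- the local domain
      let ε : ℝ := -u.re / 2
      let M : ℝ := -u.re + 1
      have hε : 0 < ε := by simp only [ε]; linarith
      have hU : IsOpen {w : ℂ | w.re < -ε ∧ -M < w.re} :=
        (isOpen_lt Complex.continuous_re continuous_const).inter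
          (isOpen_lt continuous_const Complex.continuous_re)
      have huU : u ∈ {w : ℂ | w.re < -ε ∧ -M < w.re} := by
        constructor
        · simp only [ε]; linarith
        · simp only [M]; linarith
      have hr : Real.exp (-ε) < 1 := Real.exp_lt_one_iff.2 (by linarith)
      have hF : ∀ k : ℕ, Differentiable ℂ (fun w : ℂ =>
          (hc δ j k : ℂ) * ((δ j : ℂ) + k) ^ m * Complex.exp (((δ j : ℂ) + k) * w)) := by
        intro k
        exact (Complex.differentiable_exp.comp (differentiable_id.const_mul _)).const_mul _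
      have h2 := hasSum_deriv_of_summable_norm (psi_bd (δ j) m (Real.exp_pos (-ε)) hr C M)
        (F := fun (k : ℕ) (w : ℂ) =>
          (hc δ j k : ℂ) * ((δ j : ℂ) + k) ^ m * Complex.exp (((δ j : ℂ) + k) * w))
        (fun k => (hF k).differentiableOn) hU
        (fun k w hw => psi_term_le hC m (le_of_lt hw.1) (le_of_lt hw.2) hε.le k) huU
      rw [← h2.tsum_eq]
      refine tsum_congr fun k => ?_
      have h3 : HasDerivAt (fun w : ℂ =>
          (hc δ j k : ℂ) * ((δ j : ℂ) + k) ^ m * Complex.exp (((δ j : ℂ) + k) * w))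
          ((hc δ j k : ℂ) * ((δ j : ℂ) + k) ^ m * (Complex.exp (((δ j : ℂ) + k) * u) *
            (((δ j : ℂ) + k) * 1))) u :=
        (((hasDerivAt_id u).const_mul ((δ j : ℂ) + k)).cexp).const_mul _
      rw [h3.deriv]
      ring

/-- on the line `im u = π` the function is a phase times a real function -/
theorem psi_Vr {n : ℕ} {δ : Fin n → ℝ} {j : Fin n} {C : ℝ} (hC : ∀ k, |hc δ j k| ≤ C) (m : ℕ)
    {x : ℝ} (hx : x < 0) :
    iteratedDeriv m (psi δ j) (Real.pi * I + x) =
      Complex.exp (Real.pi * δ j * I) * (Vr δ j m x : ℂ) := by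
  have hu : ((Real.pi : ℂ) * I + x).re < 0 := by simpa using hx
  rw [(psi_iter hC m hu).2]
  unfold Vr
  rw [Complex.ofReal_tsum, ← tsum_mul_left]
  refine tsum_congr fun k => ?_
  have e1 : ((δ j : ℂ) + k) * ((Real.pi : ℂ) * I + x) =
      (Real.pi * δ j * I) + k * (Real.pi * I) + (((δ j + k) * x : ℝ) : ℂ) := by
    push_cast
    ring
  rw [e1, Complex.exp_add, Complex.exp_add, Complex.exp_nat_mul, Complex.exp_pi_mul_I]
  push_cast
  ring

theorem psi_period {n : ℕ} {δ : Fin n → ℝ} {j : Fin n} (u : ℂ) :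
    psi δ j (u + 2 * Real.pi * I) = Complex.exp (2 * Real.pi * δ j * I) * psi δ j u := by
  unfold psi
  rw [← tsum_mul_left]
  refine tsum_congr fun k => ?_
  have e1 : ((δ j : ℂ) + k) * (u + 2 * Real.pi * I) =
      (2 * Real.pi * δ j * I) + k * (2 * Real.pi * I) + ((δ j : ℂ) + k) * u := by ring
  rw [e1, Complex.exp_add, Complex.exp_add, Complex.exp_nat_mul, Complex.exp_two_pi_mul_I]
  ring

end Pool.Agent.Helper326.HB
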