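import Mathlib
import Pool.Agent.Helper326.HB.Defs
import Pool.Agent.Helper326.HB.N1
import Pool.Agent.Helper326.HB.N2
import Pool.Agent.Helper326.HB.Q1

set_option autoImplicit false
open Complex Metric Set Filter Topology Matrix

namespace Pool.Agent.Helper326.HB

theorem hs_congr {f g : ℕ → ℂ} {a b : ℂ} (h : HasSum f a) (hf : ∀ k, g k = f k) (hab : b = a) :
    HasSum g b := by
  have : g = f := funext hf
  rw [this, hab]
  exact h

theorem coth_aux {u : ℂ} (hu : u.re < 0) :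
    1 - Complex.exp u ≠ 0 ∧
    Complex.cosh (u / 2) / Complex.sinh (u / 2) = -(1 + Complex.exp u) / (1 - Complex.exp u) := by
  have h1 : 1 - Complex.exp u ≠ 0 := by
    intro h
    have h2 : Complex.exp u = 1 := (sub_eq_zero.mp h).symm
    have h3 : ‖Complex.exp u‖ = 1 := by rw [h2]; simp
    rw [Complex.norm_exp] at h3
    have h4 := Real.exp_lt_one_iff.mpr hu
    linarith
  refine ⟨h1, ?_⟩
  have ha : Complex.exp (u / 2) ≠ 0 := Complex.exp_ne_zero _
  have hE : Complex.exp u = Complex.exp (u / 2) * Complex.exp (u / 2) := by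
    rw [← Complex.exp_add]
    congr 1
    ring
  rw [Complex.cosh, Complex.sinh, Complex.exp_neg]
  rw [hE] at h1 ⊢
  set a := Complex.exp (u / 2) with hadef
  have h5 : (a - a⁻¹) / 2 ≠ 0 := by
    intro h
    apply h1
    have h6 : a - a⁻¹ = 0 := by
      rcases div_eq_zero_iff.mp h with h | h
      · exact h
      · norm_num at h
    have h7 : a * (a - a⁻¹) = 0 := by rw [h6, mul_zero]
    rw [mul_sub, mul_inv_cancel₀ ha] at h7
    linear_combination -h7
  rw [div_eq_div_iff h5 h1]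
  field_simp
  ring

theorem hc_rec {n : ℕ} {δ : Fin n → ℝ} (hne : ∀ (i j : Fin n) (k : ℕ), δ j + k + 1 - δ i ≠ 0)
    (j : Fin n) (k : ℕ) :
    (hc δ j (k + 1) : ℂ) * (∏ i, (((δ j : ℂ) + ((k + 1 : ℕ) : ℂ)) - δ i)) =
      (hc δ j k : ℂ) * (∏ i, (((δ j : ℂ) + (k : ℂ)) + δ i)) := by
  have h1 : hc δ j (k + 1) = hc δ j k * (∏ i, (δ j + k + δ i)) / (∏ i, (δ j + k + 1 - δ i)) := rfl
  have h2 : (∏ i, (δ j + k + 1 - δ i)) ≠ 0 := Finset.prod_ne_zero_iff.mpr fun i _ => hne i j k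
  have h3 : hc δ j (k + 1) * (∏ i, (δ j + k + 1 - δ i)) = hc δ j k * (∏ i, (δ j + k + δ i)) := by
    rw [h1, div_mul_cancel₀ _ h2]
  have h4 := congrArg (fun x : ℝ => (x : ℂ)) h3
  simp only [Complex.ofReal_mul, Complex.ofReal_prod, Complex.ofReal_sub, Complex.ofReal_add,
    Complex.ofReal_natCast, Complex.ofReal_one] at h4
  rw [← h4]
  congr 1
  refine Finset.prod_congr rfl fun i _ => ?_
  push_cast
  ring

theorem A3_eq {δ : Fin 3 → ℝ} (hsum : δ 0 + δ 1 + δ 2 = 3 / 4) (s : ℂ) :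
    ∏ i, (s - δ i) = s ^ 3 - 3 / 4 * s ^ 2 +
      ((δ 0 * δ 1 + δ 0 * δ 2 + δ 1 * δ 2 : ℝ) : ℂ) * s - ((δ 0 * δ 1 * δ 2 : ℝ) : ℂ) := by
  have h : (δ 0 : ℂ) + δ 1 + δ 2 = 3 / 4 := by
    have := congrArg (fun x : ℝ => (x : ℂ)) hsum
    push_cast at this
    exact this
  rw [Fin.prod_univ_three]
  push_cast
  linear_combination (-s ^ 2) * h

theorem B3_eq {δ : Fin 3 → ℝ} (hsum : δ 0 + δ 1 + δ 2 = 3 / 4) (s : ℂ) :
    ∏ i, (s + δ i) = s ^ 3 + 3 / 4 * s ^ 2 +
      ((δ 0 * δ 1 + δ 0 * δ 2 + δ 1 * δ 2 : ℝ) : ℂ) * s + ((δ 0 * δ 1 * δ 2 : ℝ) : ℂ) := by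
  have h : (δ 0 : ℂ) + δ 1 + δ 2 = 3 / 4 := by
    have := congrArg (fun x : ℝ => (x : ℂ)) hsum
    push_cast at this
    exact this
  rw [Fin.prod_univ_three]
  push_cast
  linear_combination (s ^ 2) * h

theorem A2_eq {δ : Fin 2 → ℝ} (hsum : δ 0 + δ 1 = 1 / 4) (s : ℂ) :
    ∏ i, (s - δ i) = s ^ 2 - 1 / 4 * s + ((δ 0 * δ 1 : ℝ) : ℂ) := by
  have h : (δ 0 : ℂ) + δ 1 = 1 / 4 := by
    have := congrArg (fun x : ℝ => (x : ℂ)) hsum
    push_cast at this
    exact this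
  rw [Fin.prod_univ_two]
  push_cast
  linear_combination (-s) * h

theorem B2_eq {δ : Fin 2 → ℝ} (hsum : δ 0 + δ 1 = 1 / 4) (s : ℂ) :
    ∏ i, (s + δ i) = s ^ 2 + 1 / 4 * s + ((δ 0 * δ 1 : ℝ) : ℂ) := by
  have h : (δ 0 : ℂ) + δ 1 = 1 / 4 := by
    have := congrArg (fun x : ℝ => (x : ℂ)) hsum
    push_cast at this
    exact this
  rw [Fin.prod_univ_two]
  push_cast
  linear_combination s * h

theorem psi_hasSum {n : ℕ} {δ : Fin n → ℝ} {j : Fin n} {C : ℝ} (hC : ∀ k, |hc δ j k| ≤ C) (m : ℕ)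
    {u : ℂ} (hu : u.re < 0) :
    HasSum (fun k : ℕ => (hc δ j k : ℂ) * ((δ j : ℂ) + k) ^ m * Complex.exp (((δ j : ℂ) + k) * u))
      (iteratedDeriv m (psi δ j) u) := by
  obtain ⟨h1, h2⟩ := psi_iter hC m hu
  rw [h2]
  exact h1.hasSum

/-- the shift step -/
theorem shift_aux {n : ℕ} {δ : Fin n → ℝ} (hne : ∀ (i j : Fin n) (k : ℕ), δ j + k + 1 - δ i ≠ 0)
    {j : Fin n} {u ya yb : ℂ}
    (hA : HasSum (fun k : ℕ => (hc δ j k : ℂ) * (∏ i, (((δ j : ℂ) + (k : ℂ)) - δ i)) *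
      Complex.exp (((δ j : ℂ) + k) * u)) ya)
    (hB : HasSum (fun k : ℕ => (hc δ j k : ℂ) * (∏ i, (((δ j : ℂ) + (k : ℂ)) + δ i)) *
      Complex.exp (((δ j : ℂ) + k) * u)) yb) : ya = Complex.exp u * yb := by
  have h1 := (hasSum_nat_add_iff' 1).mpr hA
  rw [Finset.sum_range_one] at h1
  have h0 : (∏ i, (((δ j : ℂ) + ((0 : ℕ) : ℂ)) - δ i)) = 0 :=
    Finset.prod_eq_zero (Finset.mem_univ j) (by simp)
  rw [h0, mul_zero, zero_mul, sub_zero] at h1
  have h2 := hB.mul_left (Complex.exp u)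
  refine h1.unique ?_
  refine hs_congr h2 (fun k => ?_) rfl
  rw [hc_rec hne]
  have : Complex.exp (((δ j : ℂ) + ((k + 1 : ℕ) : ℂ)) * u) =
      Complex.exp u * Complex.exp (((δ j : ℂ) + k) * u) := by
    rw [← Complex.exp_add]
    congr 1
    push_cast
    ring
  rw [this]
  ring

/-- formal power series with the given coefficients -/
noncomputable def fps (a : ℕ → ℂ) : FormalMultilinearSeries ℂ ℂ ℂ :=
  fun n => ContinuousMultilinearMap.mkPiRing ℂ (Fin n) (a n)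

theorem hs_unique {a b : ℕ → ℂ} {F : ℂ → ℂ}
    (ha : ∀ z ∈ ball (0 : ℂ) 1, HasSum (fun k => a k * z ^ k) (F z))
    (hb : ∀ z ∈ ball (0 : ℂ) 1, HasSum (fun k => b k * z ^ k) (F z)) : a = b := by
  have h1 : HasFPowerSeriesAt F (fps a) 0 := by
    rw [hasFPowerSeriesAt_iff]
    filter_upwards [ball_mem_nhds (0 : ℂ) one_pos] with z hz
    have := ha z hz
    simpa [fps, FormalMultilinearSeries.coeff, mul_comm] using this
  have h2 : HasFPowerSeriesAt F (fps b) 0 := by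
    rw [hasFPowerSeriesAt_iff]
    filter_upwards [ball_mem_nhds (0 : ℂ) one_pos] with z hz
    have := hb z hz
    simpa [fps, FormalMultilinearSeries.coeff, mul_comm] using this
  have h3 := h1.eq_formalMultilinearSeries h2
  funext n
  have h4 := congrFun h3 n
  have h5 := congrArg (fun (m : ContinuousMultilinearMap ℂ (fun _ : Fin n => ℂ) ℂ) =>
    m (fun _ => 1)) h4
  simpa [fps] using h5

/-- the operator `δ + z d/dz` -/
noncomputable def LL (d : ℂ) (F : ℂ → ℂ) : ℂ → ℂ := fun z => d * F z + z * deriv F z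

theorem LL_diff {d : ℂ} {F : ℂ → ℂ} (hF : DifferentiableOn ℂ F (ball 0 1)) :
    DifferentiableOn ℂ (LL d F) (ball 0 1) :=
  (hF.const_mul d).add (differentiableOn_id.mul (hF.deriv isOpen_ball))

theorem LL_diff_iter {d : ℂ} {F : ℂ → ℂ} (hF : DifferentiableOn ℂ F (ball 0 1)) (m : ℕ) :
    DifferentiableOn ℂ ((LL d)^[m] F) (ball 0 1) := by
  induction m with
  | zero => simpa using hF
  | succ m ih => rw [Function.iterate_succ_apply']; exact LL_diff ih

theorem LL_iter {d : ℂ} {F : ℂ → ℂ} (hF : DifferentiableOn ℂ F (ball 0 1)) (m : ℕ) :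
    ∀ u : ℂ, u.re < 0 →
    iteratedDeriv m (fun u => Complex.exp (d * u) * F (Complex.exp u)) u =
      Complex.exp (d * u) * ((LL d)^[m] F) (Complex.exp u) := by
  induction m with
  | zero => intro u _; simp
  | succ m ih =>
    intro u hu
    rw [iteratedDeriv_succ]
    have hopen : IsOpen {v : ℂ | v.re < 0} := isOpen_lt Complex.continuous_re continuous_const
    have hev : iteratedDeriv m (fun u => Complex.exp (d * u) * F (Complex.exp u)) =ᶠ[𝓝 u]
        fun v => Complex.exp (d * v) * ((LL d)^[m] F) (Complex.exp v) := by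
      filter_upwards [hopen.mem_nhds hu] with v hv
      exact ih v hv
    rw [hev.deriv_eq]
    have hmem : Complex.exp u ∈ ball (0 : ℂ) 1 := by
      rw [mem_ball_zero_iff, Complex.norm_exp]
      exact Real.exp_lt_one_iff.mpr hu
    have hG : HasDerivAt ((LL d)^[m] F) (deriv ((LL d)^[m] F) (Complex.exp u)) (Complex.exp u) :=
      ((LL_diff_iter hF m).differentiableAt (isOpen_ball.mem_nhds hmem)).hasDerivAt
    have h1 : HasDerivAt (fun v => ((LL d)^[m] F) (Complex.exp v))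
        (deriv ((LL d)^[m] F) (Complex.exp u) * Complex.exp u) u :=
      hG.comp u (Complex.hasDerivAt_exp u)
    have h2 : HasDerivAt (fun v : ℂ => Complex.exp (d * v)) (Complex.exp (d * u) * d) u := by
      have := ((hasDerivAt_id u).const_mul d).cexp
      simpa using this
    have h12 : HasDerivAt (fun v => Complex.exp (d * v) * ((LL d)^[m] F) (Complex.exp v)) _ u :=
      h2.mul h1
    rw [h12.deriv, Function.iterate_succ_apply']
    simp only [LL]
    ring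

theorem taylor_hs {F : ℂ → ℂ} (hF : DifferentiableOn ℂ F (ball 0 1)) :
    ∀ z ∈ ball (0 : ℂ) 1,
      HasSum (fun k => ((k.factorial : ℂ)⁻¹ * iteratedDeriv k F 0) * z ^ k) (F z) := by
  intro z hz
  have := Complex.hasSum_taylorSeries_on_ball hF hz
  refine hs_congr this (fun k => ?_) rfl
  simp [smul_eq_mul]
  ring

theorem LL_hs {d : ℂ} {F : ℂ → ℂ} (hF : DifferentiableOn ℂ F (ball 0 1)) {a : ℕ → ℂ}
    (ha : ∀ z ∈ ball (0 : ℂ) 1, HasSum (fun k => a k * z ^ k) (F z)) :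
    ∀ z ∈ ball (0 : ℂ) 1, HasSum (fun k => (a k * (d + k)) * z ^ k) (LL d F z) := by
  have hae : a = fun k => ((k.factorial : ℂ)⁻¹ * iteratedDeriv k F 0) :=
    hs_unique ha (taylor_hs hF)
  intro z hz
  have h1 := taylor_hs (hF.deriv isOpen_ball) z hz
  have h2 : HasSum (fun k : ℕ => (a k * k) * z ^ k) (z * deriv F z) := by
    rw [← hasSum_nat_add_iff' 1]
    rw [Finset.sum_range_one]
    have h3 := h1.mul_left z
    refine hs_congr h3 (fun k => ?_) ?_
    · rw [hae]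
      simp only
      rw [iteratedDeriv_succ']
      have hk : (((k + 1).factorial : ℕ) : ℂ) = (k + 1) * (k.factorial : ℂ) := by
        rw [Nat.factorial_succ]; push_cast; ring
      have hk0 : (k.factorial : ℂ) ≠ 0 := by exact_mod_cast k.factorial_ne_zero
      have hk1 : ((k : ℂ) + 1) ≠ 0 := by exact_mod_cast Nat.succ_ne_zero k
      rw [hk]
      push_cast
      field_simp
      ring
    · simp
  have h4 := ((ha z hz).mul_left d).add h2
  refine hs_congr h4 (fun k => ?_) rfl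
  ring

theorem ode3 {δ : Fin 3 → ℝ} (hsum : δ 0 + δ 1 + δ 2 = 3 / 4)
    (hne : ∀ (i j : Fin 3) (k : ℕ), δ j + k + 1 - δ i ≠ 0) {j : Fin 3} {C : ℝ}
    (hC : ∀ k, |hc δ j k| ≤ C) {u : ℂ} (hu : u.re < 0) :
    iteratedDeriv 3 (psi δ j) u + (3 / 4) * (Complex.cosh (u / 2) / Complex.sinh (u / 2)) *
      iteratedDeriv 2 (psi δ j) u + ((δ 0 * δ 1 + δ 0 * δ 2 + δ 1 * δ 2 : ℝ) : ℂ) *
      iteratedDeriv 1 (psi δ j) u + ((δ 0 * δ 1 * δ 2 : ℝ) : ℂ) *
      (Complex.cosh (u / 2) / Complex.sinh (u / 2)) * psi δ j u = 0 := by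
  obtain ⟨hE, hcoth⟩ := coth_aux hu
  have H0 := psi_hasSum hC 0 hu
  have H1 := psi_hasSum hC 1 hu
  have H2 := psi_hasSum hC 2 hu
  have H3 := psi_hasSum hC 3 hu
  rw [iteratedDeriv_zero] at H0
  set s2 : ℂ := ((δ 0 * δ 1 + δ 0 * δ 2 + δ 1 * δ 2 : ℝ) : ℂ) with hs2
  set s3 : ℂ := ((δ 0 * δ 1 * δ 2 : ℝ) : ℂ) with hs3
  have hA := ((H3.sub (H2.mul_left (3 / 4 : ℂ))).add (H1.mul_left s2)).sub (H0.mul_left s3)
  have hB := ((H3.add (H2.mul_left (3 / 4 : ℂ))).add (H1.mul_left s2)).add (H0.mul_left s3)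
  have key := shift_aux (u := u) (j := j) hne
    (ya := iteratedDeriv 3 (psi δ j) u - 3 / 4 * iteratedDeriv 2 (psi δ j) u +
      s2 * iteratedDeriv 1 (psi δ j) u - s3 * psi δ j u)
    (yb := iteratedDeriv 3 (psi δ j) u + 3 / 4 * iteratedDeriv 2 (psi δ j) u +
      s2 * iteratedDeriv 1 (psi δ j) u + s3 * psi δ j u)
    (by
      refine hs_congr hA (fun k => ?_) (by ring)
      rw [A3_eq hsum]
      ring)
    (by
      refine hs_congr hB (fun k => ?_) (by ring)
      rw [B3_eq hsum]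
      ring)
  rw [hcoth]
  field_simp
  linear_combination 4 * key

theorem ode2 {δ : Fin 2 → ℝ} (hsum : δ 0 + δ 1 = 1 / 4)
    (hne : ∀ (i j : Fin 2) (k : ℕ), δ j + k + 1 - δ i ≠ 0) {j : Fin 2} {C : ℝ}
    (hC : ∀ k, |hc δ j k| ≤ C) {u : ℂ} (hu : u.re < 0) :
    iteratedDeriv 2 (psi δ j) u + (1 / 4) * (Complex.cosh (u / 2) / Complex.sinh (u / 2)) *
      iteratedDeriv 1 (psi δ j) u + ((δ 0 * δ 1 : ℝ) : ℂ) * psi δ j u = 0 := by
  obtain ⟨hE, hcoth⟩ := coth_aux hu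
  have H0 := psi_hasSum hC 0 hu
  have H1 := psi_hasSum hC 1 hu
  have H2 := psi_hasSum hC 2 hu
  rw [iteratedDeriv_zero] at H0
  set s2 : ℂ := ((δ 0 * δ 1 : ℝ) : ℂ) with hs2
  have hA := (H2.sub (H1.mul_left (1 / 4 : ℂ))).add (H0.mul_left s2)
  have hB := (H2.add (H1.mul_left (1 / 4 : ℂ))).add (H0.mul_left s2)
  have key := shift_aux (u := u) (j := j) hne
    (ya := iteratedDeriv 2 (psi δ j) u - 1 / 4 * iteratedDeriv 1 (psi δ j) u + s2 * psi δ j u)
    (yb := iteratedDeriv 2 (psi δ j) u + 1 / 4 * iteratedDeriv 1 (psi δ j) u + s2 * psi δ j u)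
    (by
      refine hs_congr hA (fun k => ?_) (by ring)
      rw [A2_eq hsum]
      ring)
    (by
      refine hs_congr hB (fun k => ?_) (by ring)
      rw [B2_eq hsum]
      ring)
  rw [hcoth]
  field_simp
  linear_combination 4 * key

/-- converse (Frobenius uniqueness): if `e^{δ_j u} Q(e^u)` solves the third order equation, `Q` holomorphic on the unit disc,
then `Q = Q(0) P δ j`. (The Taylor coefficients `q_k` of `Q` satisfy
`q_{k+1} ∏_i(δ_j+k+1-δ_i) = q_k ∏_i(δ_j+k+δ_i)`.) -/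
theorem frob3 {δ : Fin 3 → ℝ} (hsum : δ 0 + δ 1 + δ 2 = 3 / 4)
    (hne : ∀ (i j : Fin 3) (k : ℕ), δ j + k + 1 - δ i ≠ 0) {j : Fin 3} {Q : ℂ → ℂ}
    (hQ : DifferentiableOn ℂ Q (ball 0 1))
    (hode : ∀ u : ℂ, u.re < 0 →
      iteratedDeriv 3 (fun u => Complex.exp ((δ j : ℂ) * u) * Q (Complex.exp u)) u +
      (3 / 4) * (Complex.cosh (u / 2) / Complex.sinh (u / 2)) *
      iteratedDeriv 2 (fun u => Complex.exp ((δ j : ℂ) * u) * Q (Complex.exp u)) u +
      ((δ 0 * δ 1 + δ 0 * δ 2 + δ 1 * δ 2 : ℝ) : ℂ) *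
      iteratedDeriv 1 (fun u => Complex.exp ((δ j : ℂ) * u) * Q (Complex.exp u)) u +
      ((δ 0 * δ 1 * δ 2 : ℝ) : ℂ) *
      (Complex.cosh (u / 2) / Complex.sinh (u / 2)) * (Complex.exp ((δ j : ℂ) * u) * Q (Complex.exp u)) = 0) :
    ∀ z ∈ ball (0 : ℂ) 1, Q z = Q 0 * P δ j z := by
  obtain ⟨a, ha⟩ : ∃ a : ℕ → ℂ, ∀ z ∈ ball (0 : ℂ) 1, HasSum (fun k => a k * z ^ k) (Q z) :=
    ⟨_, taylor_hs hQ⟩
  set d : ℂ := (δ j : ℂ) with hd
  set s2 : ℂ := ((δ 0 * δ 1 + δ 0 * δ 2 + δ 1 * δ 2 : ℝ) : ℂ) with hs2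
  set s3 : ℂ := ((δ 0 * δ 1 * δ 2 : ℝ) : ℂ) with hs3
  have hL1 := LL_hs (d := d) hQ ha
  have hL2 := LL_hs (d := d) (LL_diff (d := d) hQ) hL1
  have hL3 := LL_hs (d := d) (LL_diff (d := d) (LL_diff (d := d) hQ)) hL2
  -- the functions
  set F1 := LL d Q with hF1
  set F2 := LL d F1 with hF2
  set F3 := LL d F2 with hF3
  have hdF1 : DifferentiableOn ℂ F1 (ball 0 1) := LL_diff hQ
  have hdF2 : DifferentiableOn ℂ F2 (ball 0 1) := LL_diff hdF1
  have hdF3 : DifferentiableOn ℂ F3 (ball 0 1) := LL_diff hdF2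
  -- the ODE in terms of `z`
  have hz : ∀ z ∈ ball (0 : ℂ) 1, z ≠ 0 →
      (F3 z - 3 / 4 * F2 z + s2 * F1 z - s3 * Q z) -
        z * (F3 z + 3 / 4 * F2 z + s2 * F1 z + s3 * Q z) = 0 := by
    intro z hz hz0
    have hre : (Complex.log z).re < 0 := by
      rw [Complex.log_re]
      exact Real.log_neg (norm_pos_iff.mpr hz0) (mem_ball_zero_iff.mp hz)
    have hexp : Complex.exp (Complex.log z) = z := Complex.exp_log hz0
    have h := hode (Complex.log z) hre
    rw [LL_iter hQ 3 _ hre, LL_iter hQ 2 _ hre, LL_iter hQ 1 _ hre] at h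
    obtain ⟨hE, hcoth⟩ := coth_aux hre
    rw [hcoth, hexp] at h
    rw [hexp] at hE
    simp only [Function.iterate_succ, Function.iterate_zero, Function.comp_apply, id_eq] at h
    rw [← hF1, ← hF2, ← hF3] at h
    have he : Complex.exp (d * Complex.log z) ≠ 0 := Complex.exp_ne_zero _
    have h2 : Complex.exp (d * Complex.log z) *
        ((F3 z - 3 / 4 * F2 z + s2 * F1 z - s3 * Q z) -
        z * (F3 z + 3 / 4 * F2 z + s2 * F1 z + s3 * Q z)) = 0 := by
      field_simp at h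
      linear_combination h / 4
    exact (mul_eq_zero.mp h2).resolve_left he
  have hz' : ∀ z ∈ ball (0 : ℂ) 1,
      (F3 z - 3 / 4 * F2 z + s2 * F1 z - s3 * Q z) -
        z * (F3 z + 3 / 4 * F2 z + s2 * F1 z + s3 * Q z) = 0 := by
    intro z hzb
    by_cases hz0 : z = 0
    · subst hz0
      have h0 := (Complex.hasSum_taylorSeries_on_ball hQ hzb)
      have e0 : ∀ {F : ℂ → ℂ} {b : ℕ → ℂ},
          (∀ z ∈ ball (0 : ℂ) 1, HasSum (fun k => b k * z ^ k) (F z)) → F 0 = b 0 := by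
        intro F b hb
        have h1 := hb 0 (mem_ball_self one_pos)
        have h2 : HasSum (fun k => b k * (0 : ℂ) ^ k) (b 0) := by
          have := hasSum_single (f := fun k => b k * (0 : ℂ) ^ k) 0 (by
            intro k hk
            simp [hk])
          simpa using this
        exact h1.unique h2
      rw [e0 hL3, e0 hL2, e0 hL1, e0 ha]
      have h3 := A3_eq hsum (d + ((0 : ℕ) : ℂ))
      have h4 : ∏ i, ((d + ((0 : ℕ) : ℂ)) - δ i) = 0 :=
        Finset.prod_eq_zero (Finset.mem_univ j) (by simp [hd])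
      rw [h4] at h3
      linear_combination (-(a 0)) * h3
    · exact hz z hzb hz0
  -- coefficients
  have hco : ∀ k, a (k + 1) * (∏ i, ((d + ((k + 1 : ℕ) : ℂ)) - δ i)) =
      a k * (∏ i, ((d + (k : ℂ)) + δ i)) := by
    have hA : ∀ z ∈ ball (0 : ℂ) 1, HasSum (fun k => (a k * ∏ i, ((d + (k : ℂ)) - δ i)) * z ^ k)
        (F3 z - 3 / 4 * F2 z + s2 * F1 z - s3 * Q z) := by
      intro z hzb
      have h := (((hL3 z hzb).sub ((hL2 z hzb).mul_left (3 / 4 : ℂ))).add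
        ((hL1 z hzb).mul_left s2)).sub ((ha z hzb).mul_left s3)
      refine hs_congr h (fun k => ?_) (by ring)
      rw [A3_eq hsum]
      ring
    have hB : ∀ z ∈ ball (0 : ℂ) 1, HasSum (fun k => (a k * ∏ i, ((d + (k : ℂ)) + δ i)) * z ^ k)
        (F3 z + 3 / 4 * F2 z + s2 * F1 z + s3 * Q z) := by
      intro z hzb
      have h := (((hL3 z hzb).add ((hL2 z hzb).mul_left (3 / 4 : ℂ))).add
        ((hL1 z hzb).mul_left s2)).add ((ha z hzb).mul_left s3)
      refine hs_congr h (fun k => ?_) (by ring)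
      rw [B3_eq hsum]
      ring
    have hB' : ∀ z ∈ ball (0 : ℂ) 1, HasSum
        (fun k => (Nat.casesOn k 0 (fun k => a k * ∏ i, ((d + (k : ℂ)) + δ i)) : ℂ) * z ^ k)
        (F3 z - 3 / 4 * F2 z + s2 * F1 z - s3 * Q z) := by
      intro z hzb
      rw [← hasSum_nat_add_iff' 1, Finset.sum_range_one]
      have h := (hB z hzb).mul_left z
      have h2 := hz' z hzb
      refine hs_congr h (fun k => ?_) ?_
      · simp only
        ring
      · have h0 : (Nat.casesOn 0 0 (fun k => a k * ∏ i, ((d + (k : ℂ)) + δ i)) : ℂ) = 0 := rfl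
        rw [h0]
        linear_combination h2
    have hu := hs_unique hA hB'
    intro k
    have := congrFun hu (k + 1)
    simpa using this
  have hak : ∀ k, a k = a 0 * (hc δ j k : ℂ) := by
    intro k
    induction k with
    | zero => simp [hc]
    | succ k ih =>
      have h1 := hco k
      have h2 := hc_rec hne j k
      have hne0 : (∏ i, ((d + ((k + 1 : ℕ) : ℂ)) - δ i)) ≠ 0 := by
        rw [Finset.prod_ne_zero_iff]
        intro i _ hi
        apply hne i j k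
        have : ((δ j + k + 1 - δ i : ℝ) : ℂ) = 0 := by
          push_cast at hi ⊢
          rw [← hi]
          ring
        exact_mod_cast this
      apply mul_right_cancel₀ hne0
      rw [h1, ih, mul_assoc, mul_assoc]
      rw [← hd] at h2
      rw [h2]
  intro z hzb
  have ha0 : Q 0 = a 0 := by
    have h1 := ha 0 (mem_ball_self one_pos)
    have h2 : HasSum (fun k => a k * (0 : ℂ) ^ k) (a 0) := by
      have := hasSum_single (f := fun k => a k * (0 : ℂ) ^ k) 0 (by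
        intro k hk
        simp [hk])
      simpa using this
    exact h1.unique h2
  rw [← (ha z hzb).tsum_eq, P, ha0, ← tsum_mul_left]
  congr 1
  funext k
  rw [hak k]
  ring

end Pool.Agent.Helper326.HB
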