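import Mathlib
import Pool.Agent.Helper326.HB.Defs

set_option autoImplicit false
open Complex Metric Set Filter Topology Matrix

namespace Pool.Agent.Helper326.HB

theorem rr_sinh_ne {u : ℂ} (hu : u ∈ ball (0 : ℂ) 6) (h0 : u ≠ 0) : Complex.sinh (u / 2) ≠ 0 := by
  intro h
  have h1 : Complex.sin ((u / 2) * Complex.I) = 0 := by rw [Complex.sin_mul_I, h, zero_mul]
  rw [Complex.sin_eq_zero_iff] at h1
  obtain ⟨k, hk⟩ := h1
  have hn : ‖u‖ / 2 = |(k : ℝ)| * Real.pi := by
    have := congrArg norm hk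
    rw [norm_mul, norm_div, Complex.norm_I, mul_one, norm_mul, Complex.norm_real,
      Real.norm_of_nonneg Real.pi_pos.le, Complex.norm_intCast] at this
    simpa using this
  have hu' : ‖u‖ < 6 := mem_ball_zero_iff.1 hu
  have hk0 : k ≠ 0 := by
    rintro rfl
    apply h0
    rw [← norm_eq_zero]
    simp at hn
    simp [hn]
  have h2 : (1 : ℝ) ≤ |(k : ℝ)| := by
    have : (1 : ℤ) ≤ |k| := Int.one_le_abs hk0
    exact_mod_cast this
  nlinarith [Real.pi_gt_three]

theorem rr_cosh_ne {x : ℂ} (hx : x ∈ ball (0 : ℂ) 2) : Complex.cosh (x / 2) ≠ 0 := by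
  intro h
  have h1 : Complex.cos ((x / 2) * Complex.I) = 0 := by rw [Complex.cos_mul_I, h]
  rw [Complex.cos_eq_zero_iff] at h1
  obtain ⟨k, hk⟩ := h1
  have hn : ‖x‖ / 2 = |2 * (k : ℝ) + 1| * Real.pi / 2 := by
    have h3 : (2 * (k : ℂ) + 1) * (Real.pi : ℂ) / 2 = (((2 * (k : ℝ) + 1) * Real.pi / 2 : ℝ) : ℂ) := by
      push_cast; ring
    rw [h3] at hk
    have := congrArg norm hk
    rw [norm_mul, norm_div, Complex.norm_I, mul_one, Complex.norm_real, Real.norm_eq_abs,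
      abs_div, abs_mul, abs_of_pos Real.pi_pos] at this
    simpa using this
  have hx' : ‖x‖ < 2 := mem_ball_zero_iff.1 hx
  have h2 : (1 : ℝ) ≤ |2 * (k : ℝ) + 1| := by
    have : (1 : ℤ) ≤ |2 * k + 1| := Int.one_le_abs (by omega)
    exact_mod_cast this
  nlinarith [Real.pi_gt_three]

theorem exists_R : ∃ R : ℂ → ℂ, DifferentiableOn ℂ R (ball 0 6) ∧
    (∀ u ∈ ball (0 : ℂ) 6, u ≠ 0 → R u = Complex.cosh (u / 2) / Complex.sinh (u / 2) - 2 / u) ∧
    (∀ u ∈ ball (0 : ℂ) 6, R (-u) = - R u) ∧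
    (∀ u ∈ ball (0 : ℂ) 6, u ≠ 0 → Complex.sinh (u / 2) ≠ 0) := by
  let N : ℂ → ℂ := fun u => u * Complex.cosh (u / 2) - 2 * Complex.sinh (u / 2)
  let N1 : ℂ → ℂ := dslope N 0
  let N2 : ℂ → ℂ := dslope N1 0
  let sh : ℂ → ℂ := fun u => Complex.sinh (u / 2)
  let s1 : ℂ → ℂ := dslope sh 0
  have hN : DifferentiableOn ℂ N univ := by
    intro u _
    apply DifferentiableAt.differentiableWithinAt
    fun_prop
  have hsh : DifferentiableOn ℂ sh univ := by
    intro u _
    apply DifferentiableAt.differentiableWithinAt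
    fun_prop
  have hN1 : DifferentiableOn ℂ N1 univ := (Complex.differentiableOn_dslope univ_mem).2 hN
  have hN2 : DifferentiableOn ℂ N2 univ := (Complex.differentiableOn_dslope univ_mem).2 hN1
  have hs1 : DifferentiableOn ℂ s1 univ := (Complex.differentiableOn_dslope univ_mem).2 hsh
  have hNd : HasDerivAt N 0 0 := by
    have e1 : HasDerivAt (fun u : ℂ => u / 2) (1 / 2) 0 := (hasDerivAt_id (0 : ℂ)).div_const 2
    have e2 : HasDerivAt (fun u : ℂ => Complex.cosh (u / 2)) (Complex.sinh (0 / 2) * (1 / 2)) 0 :=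
      e1.ccosh
    have e3 : HasDerivAt (fun u : ℂ => Complex.sinh (u / 2)) (Complex.cosh (0 / 2) * (1 / 2)) 0 :=
      e1.csinh
    have e4 : HasDerivAt N (1 * Complex.cosh ((0 : ℂ) / 2) +
        (0 : ℂ) * (Complex.sinh (0 / 2) * (1 / 2)) - 2 * (Complex.cosh (0 / 2) * (1 / 2))) 0 :=
      ((hasDerivAt_id (0 : ℂ)).mul e2).sub (e3.const_mul 2)
    have e5 : (1 * Complex.cosh ((0 : ℂ) / 2) +
        (0 : ℂ) * (Complex.sinh (0 / 2) * (1 / 2)) - 2 * (Complex.cosh (0 / 2) * (1 / 2))) = 0 := by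
      simp
    rwa [e5] at e4
  have hshd : HasDerivAt sh (1 / 2) 0 := by
    have e1 : HasDerivAt (fun u : ℂ => u / 2) (1 / 2) 0 := (hasDerivAt_id (0 : ℂ)).div_const 2
    have e3 : HasDerivAt (fun u : ℂ => Complex.sinh (u / 2)) (Complex.cosh (0 / 2) * (1 / 2)) 0 :=
      e1.csinh
    convert e3 using 1
    simp
  have hN0 : N 0 = 0 := by simp [N]
  have hsh0 : sh 0 = 0 := by simp [sh]
  have hN10 : N1 0 = 0 := by
    show dslope N 0 0 = 0
    rw [dslope_same, hNd.deriv]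
  have hN1u : ∀ u, u ≠ 0 → N1 u = N u / u := by
    intro u hu
    show dslope N 0 u = _
    rw [dslope_of_ne _ hu, slope_def_field, hN0, sub_zero, sub_zero]
  have hN2u : ∀ u, u ≠ 0 → N2 u = N u / u / u := by
    intro u hu
    show dslope N1 0 u = _
    rw [dslope_of_ne _ hu, slope_def_field, hN10, sub_zero, sub_zero, hN1u u hu]
  have hs1u : ∀ u, u ≠ 0 → s1 u = sh u / u := by
    intro u hu
    show dslope sh 0 u = _
    rw [dslope_of_ne _ hu, slope_def_field, hsh0, sub_zero, sub_zero]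
  have hs10 : s1 0 = 1 / 2 := by
    show dslope sh 0 0 = _
    rw [dslope_same, hshd.deriv]
  have hs1ne : ∀ u ∈ ball (0 : ℂ) 6, s1 u ≠ 0 := by
    intro u hu
    by_cases h0 : u = 0
    · rw [h0, hs10]; norm_num
    · rw [hs1u u h0]
      exact div_ne_zero (rr_sinh_ne hu h0) h0
  have hR : DifferentiableOn ℂ (fun u => N2 u / s1 u) (ball 0 6) :=
    (hN2.mono (subset_univ _)).div (hs1.mono (subset_univ _)) hs1ne
  have hval : ∀ u ∈ ball (0 : ℂ) 6, u ≠ 0 →
      N2 u / s1 u = Complex.cosh (u / 2) / Complex.sinh (u / 2) - 2 / u := by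
    intro u hu h0
    have hs := rr_sinh_ne hu h0
    rw [hN2u u h0, hs1u u h0]
    show (u * Complex.cosh (u / 2) - 2 * Complex.sinh (u / 2)) / u / u /
      (Complex.sinh (u / 2) / u) = _
    field_simp
  refine ⟨fun u => N2 u / s1 u, hR, hval, ?_, fun u hu h0 => rr_sinh_ne hu h0⟩
  have hneg : ∀ u ∈ ball (0 : ℂ) 6, -u ∈ ball (0 : ℂ) 6 := by
    intro u hu
    rw [mem_ball_zero_iff] at hu ⊢
    rwa [norm_neg]
  have hodd : ∀ u ∈ ball (0 : ℂ) 6, u ≠ 0 → N2 (-u) / s1 (-u) = -(N2 u / s1 u) := by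
    intro u hu h0
    rw [hval u hu h0, hval (-u) (hneg u hu) (neg_ne_zero.2 h0), neg_div, Complex.cosh_neg,
      Complex.sinh_neg, div_neg, div_neg]
    ring
  intro u hu
  by_cases h0 : u = 0
  · subst h0
    have hc : ContinuousAt (fun u => N2 u / s1 u) 0 :=
      (hR.differentiableAt (isOpen_ball.mem_nhds hu)).continuousAt
    have hc2 : ContinuousAt (fun u => N2 (-u) / s1 (-u)) 0 := by
      have hcn : ContinuousAt (fun u => N2 u / s1 u) (-0) := by rw [neg_zero]; exact hc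
      exact ContinuousAt.comp (g := fun u => N2 u / s1 u) (f := fun u : ℂ => -u) hcn
        continuous_neg.continuousAt
    have t1 : Tendsto (fun u => N2 (-u) / s1 (-u)) (𝓝[≠] 0) (𝓝 (N2 (-0) / s1 (-0))) :=
      hc2.tendsto.mono_left nhdsWithin_le_nhds
    have t2 : Tendsto (fun u => -(N2 u / s1 u)) (𝓝[≠] 0) (𝓝 (-(N2 0 / s1 0))) :=
      (hc.tendsto.mono_left nhdsWithin_le_nhds).neg
    have t3 : Tendsto (fun u => N2 (-u) / s1 (-u)) (𝓝[≠] 0) (𝓝 (-(N2 0 / s1 0))) := by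
      refine t2.congr' ?_
      filter_upwards [self_mem_nhdsWithin, mem_nhdsWithin_of_mem_nhds (isOpen_ball.mem_nhds hu)]
        with x hx hx'
      exact (hodd x hx' hx).symm
    exact tendsto_nhds_unique t1 t3
  · exact hodd u hu h0

/-- `tanh(x/2)` is holomorphic on the disc of radius `2` and odd -/
theorem tanh_hol : DifferentiableOn ℂ (fun x : ℂ => Complex.tanh (x / 2)) (ball 0 2) ∧
    ∀ x : ℂ, Complex.tanh (-x / 2) = - Complex.tanh (x / 2) := by
  constructor
  · have h : (fun x : ℂ => Complex.tanh (x / 2)) =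
        fun x : ℂ => Complex.sinh (x / 2) / Complex.cosh (x / 2) := by
      funext x
      rw [Complex.tanh_eq_sinh_div_cosh]
    rw [h]
    intro x hx
    apply DifferentiableAt.differentiableWithinAt
    apply DifferentiableAt.div
    · fun_prop
    · fun_prop
    · exact rr_cosh_ne hx
  · intro x
    rw [neg_div, Complex.tanh_neg]

end Pool.Agent.Helper326.HB
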