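import Mathlib
import Pool.Agent.Helper326.HB.Defs
import Pool.Agent.Helper326.HB.N1
import Pool.Agent.Helper326.HB.N2
import Pool.Agent.Helper326.HB.Q1
import Pool.Agent.Helper326.HB.Q2

set_option autoImplicit false
open Complex Metric Set Filter Topology Matrix

namespace Pool.Agent.Helper326.HB

theorem wr_elt {x : ℝ} (hx : x < 0) : Real.exp x < 1 := by
  rw [← Real.exp_zero]; exact Real.exp_lt_exp.2 hx

theorem wr_one_sub {u : ℂ} (hu : u.re < 0) : (1 - Complex.exp u) ∈ slitPlane := by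
  left
  have h1 : (Complex.exp u).re ≤ ‖Complex.exp u‖ := Complex.re_le_norm _
  rw [Complex.norm_exp] at h1
  have h2 : Real.exp u.re < 1 := wr_elt hu
  simp only [Complex.sub_re, Complex.one_re]
  linarith

theorem wr_ball {u : ℂ} (hu : u.re < 0) : Complex.exp u ∈ ball (0 : ℂ) 1 := by
  rw [mem_ball_zero_iff, Complex.norm_exp]
  exact wr_elt hu

theorem wr_open : IsOpen {u : ℂ | u.re < 0} := isOpen_lt Complex.continuous_re continuous_const

theorem wr_coth {u : ℂ} (hu : u.re < 0) : Complex.cosh (u / 2) / Complex.sinh (u / 2) =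
    (Complex.exp u + 1) / (Complex.exp u - 1) := by
  have hw : Complex.exp (u / 2) ≠ 0 := Complex.exp_ne_zero _
  have he : Complex.exp u = Complex.exp (u / 2) ^ 2 := by
    rw [← Complex.exp_nat_mul]; congr 1; push_cast; ring
  have hne : Complex.exp u - 1 ≠ 0 := by
    have := slitPlane_ne_zero (wr_one_sub hu)
    intro h
    apply this
    linear_combination -h
  rw [Complex.cosh, Complex.sinh, Complex.exp_neg]
  rw [he] at hne ⊢
  set w := Complex.exp (u / 2) with hwdef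
  have h2 : w - w⁻¹ ≠ 0 := by
    intro h
    apply hne
    have : w * (w - w⁻¹) = 0 := by rw [h, mul_zero]
    rw [mul_sub, mul_inv_cancel₀ hw] at this
    linear_combination this
  rw [div_div_div_cancel_right₀ (two_ne_zero), div_eq_div_iff h2 hne]
  field_simp

theorem wr_lim_exp : Tendsto (fun x : ℝ => Complex.exp (x : ℂ)) atBot (𝓝 0) := by
  rw [tendsto_zero_iff_norm_tendsto_zero]
  have : (fun x : ℝ => ‖Complex.exp (x : ℂ)‖) = fun x => Real.exp x := by
    funext x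
    rw [Complex.norm_exp, Complex.ofReal_re]
  rw [this]
  exact Real.tendsto_exp_atBot

theorem wr_gen (κ c : ℂ) (D : ℂ → ℂ)
    (hD : ∀ u : ℂ, u.re < 0 →
      HasDerivAt D (-κ * (Complex.cosh (u / 2) / Complex.sinh (u / 2)) * D u) u)
    (hlim : Tendsto (fun x : ℝ => D x * Complex.exp (-κ * x)) atBot (𝓝 c))
    {u : ℂ} (hu : u.re < 0) :
    D u = c * Complex.exp (κ * u) * (1 - Complex.exp u) ^ (-(2 * κ)) := by
  set F : ℂ → ℂ := fun u => D u * Complex.exp (-κ * u) * (1 - Complex.exp u) ^ (2 * κ) with hF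
  have hder : ∀ v : ℂ, v.re < 0 → HasDerivAt F 0 v := by
    intro v hv
    have h1 := hD v hv
    have h2 : HasDerivAt (fun u : ℂ => Complex.exp (-κ * u)) (Complex.exp (-κ * v) * (-κ)) v := by
      have := (hasDerivAt_id v).const_mul (-κ)
      simpa using this.cexp
    have h3 : HasDerivAt (fun u : ℂ => (1 - Complex.exp u) ^ (2 * κ))
        (2 * κ * (1 - Complex.exp v) ^ (2 * κ - 1) * (-Complex.exp v)) v := by
      have h4 : HasDerivAt (fun u : ℂ => 1 - Complex.exp u) (-Complex.exp v) v := by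
        have := (Complex.hasDerivAt_exp v).const_sub 1
        exact this
      exact h4.cpow_const (wr_one_sub hv)
    have h5 := (h1.mul h2).mul h3
    have hne : (1 - Complex.exp v) ≠ 0 := slitPlane_ne_zero (wr_one_sub hv)
    have hne' : (Complex.exp v - 1) ≠ 0 := by
      intro h; apply hne; linear_combination -h
    have h6 : (1 - Complex.exp v) ^ (2 * κ - 1) = (1 - Complex.exp v) ^ (2 * κ) / (1 - Complex.exp v) := by
      rw [Complex.cpow_sub _ _ hne, Complex.cpow_one]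
    have h7 : ((-κ * (Complex.cosh (v / 2) / Complex.sinh (v / 2)) * D v) * Complex.exp (-κ * v) +
        D v * (Complex.exp (-κ * v) * (-κ))) * (1 - Complex.exp v) ^ (2 * κ) +
        D v * Complex.exp (-κ * v) * (2 * κ * (1 - Complex.exp v) ^ (2 * κ - 1) * (-Complex.exp v)) = 0 := by
      rw [h6, wr_coth hv]
      set E := Complex.exp v
      set G := Complex.exp (-κ * v)
      set H := (1 - E) ^ (2 * κ)
      have h8 : E - 1 = -(1 - E) := by ring
      rw [h8]
      field_simp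
      ring
    rw [← h7]
    exact h5
  have hconst : ∀ x : ℝ, x < 0 → F u = F x := by
    intro x hx
    have hpre : IsPreconnected {u : ℂ | u.re < 0} := (convex_halfSpace_re_lt 0).isPreconnected
    refine wr_open.is_const_of_deriv_eq_zero hpre
      (fun v hv => (hder v hv).differentiableAt.differentiableWithinAt)
      (fun v hv => (hder v hv).deriv) hu ?_
    simpa using hx
  have hlimF : Tendsto (fun x : ℝ => F x) atBot (𝓝 c) := by
    have h1 : Tendsto (fun x : ℝ => (1 - Complex.exp (x : ℂ)) ^ (2 * κ)) atBot (𝓝 1) := by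
      have h2 : ContinuousAt (fun z : ℂ => z ^ (2 * κ)) 1 :=
        continuousAt_cpow_const (by simp)
      have h3 : Tendsto (fun x : ℝ => 1 - Complex.exp (x : ℂ)) atBot (𝓝 1) := by
        simpa using (tendsto_const_nhds (x := (1 : ℂ))).sub wr_lim_exp
      have := h2.tendsto.comp h3
      rw [Complex.one_cpow] at this
      exact this
    have := hlim.mul h1
    rw [mul_one] at this
    exact this
  have hFu : F u = c := by
    have h1 : Tendsto (fun x : ℝ => F x) atBot (𝓝 (F u)) := by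
      refine tendsto_const_nhds.congr' ?_
      filter_upwards [Iio_mem_atBot (0 : ℝ)] with x hx
      exact hconst x hx
    exact tendsto_nhds_unique h1 hlimF
  have hne : (1 - Complex.exp u) ≠ 0 := slitPlane_ne_zero (wr_one_sub hu)
  have h8 : (1 - Complex.exp u) ^ (2 * κ) * (1 - Complex.exp u) ^ (-(2 * κ)) = 1 := by
    rw [Complex.cpow_neg, mul_inv_cancel₀]
    rw [Ne, Complex.cpow_eq_zero_iff]
    tauto
  have h9 : Complex.exp (-κ * u) * Complex.exp (κ * u) = 1 := by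
    rw [← Complex.exp_add]; simp
  rw [← hFu]
  simp only [hF]
  calc D u = D u * (Complex.exp (-κ * u) * Complex.exp (κ * u)) *
      ((1 - Complex.exp u) ^ (2 * κ) * (1 - Complex.exp u) ^ (-(2 * κ))) := by rw [h8, h9]; ring
    _ = _ := by ring

theorem wr_Q {n : ℕ} {δ : Fin n → ℝ} {j : Fin n} {C : ℝ} (hC : ∀ k, |hc δ j k| ≤ C) :
    ∀ m : ℕ, ∃ Q : ℂ → ℂ, DifferentiableOn ℂ Q (ball 0 1) ∧ Q 0 = (δ j : ℂ) ^ m ∧
      ∀ u : ℂ, u.re < 0 → iteratedDeriv m (psi δ j) u = Complex.exp ((δ j : ℂ) * u) * Q (Complex.exp u) := by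
  intro m
  induction m with
  | zero =>
    refine ⟨P δ j, P_diff hC, ?_, ?_⟩
    · unfold P
      rw [tsum_eq_single 0]
      · simp [hc]
      · intro k hk
        simp [hk]
    · intro u _
      rw [iteratedDeriv_zero]
      exact psi_eq u
  | succ m ih =>
    obtain ⟨Q, hQ, hQ0, hQe⟩ := ih
    refine ⟨fun z => (δ j : ℂ) * Q z + z * deriv Q z, ?_, ?_, ?_⟩
    · exact (hQ.const_mul _).add (differentiableOn_id.mul (hQ.deriv isOpen_ball))
    · simp [hQ0, pow_succ, mul_comm]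
    · intro u hu
      rw [iteratedDeriv_succ]
      have h1 : iteratedDeriv m (psi δ j) =ᶠ[𝓝 u]
          fun u => Complex.exp ((δ j : ℂ) * u) * Q (Complex.exp u) := by
        filter_upwards [wr_open.mem_nhds hu] with v hv
        exact hQe v hv
      rw [h1.deriv_eq]
      have h2 : HasDerivAt (fun u : ℂ => Complex.exp ((δ j : ℂ) * u))
          (Complex.exp ((δ j : ℂ) * u) * (δ j : ℂ)) u := by
        have := (hasDerivAt_id u).const_mul (δ j : ℂ)
        simpa using this.cexp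
      have h3 : HasDerivAt Q (deriv Q (Complex.exp u)) (Complex.exp u) :=
        (hQ.differentiableAt (isOpen_ball.mem_nhds (wr_ball hu))).hasDerivAt
      have h4 : HasDerivAt (fun u : ℂ => Q (Complex.exp u))
          (deriv Q (Complex.exp u) * Complex.exp u) u :=
        h3.comp u (Complex.hasDerivAt_exp u)
      have h5 : HasDerivAt (fun u : ℂ => Complex.exp ((δ j : ℂ) * u) * Q (Complex.exp u)) _ u := h2.mul h4
      rw [h5.deriv]
      ring

theorem wr_hasDeriv {n : ℕ} {δ : Fin n → ℝ} {j : Fin n} {C : ℝ} (hC : ∀ k, |hc δ j k| ≤ C)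
    (m : ℕ) {u : ℂ} (hu : u.re < 0) :
    HasDerivAt (iteratedDeriv m (psi δ j)) (iteratedDeriv (m + 1) (psi δ j) u) u := by
  obtain ⟨Q, hQ, hQ0, hQe⟩ := wr_Q hC m
  have h1 : iteratedDeriv m (psi δ j) =ᶠ[𝓝 u]
      fun u => Complex.exp ((δ j : ℂ) * u) * Q (Complex.exp u) := by
    filter_upwards [wr_open.mem_nhds hu] with v hv
    exact hQe v hv
  have h2 : HasDerivAt (fun u : ℂ => Complex.exp ((δ j : ℂ) * u))
      (Complex.exp ((δ j : ℂ) * u) * (δ j : ℂ)) u := by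
    have := (hasDerivAt_id u).const_mul (δ j : ℂ)
    simpa using this.cexp
  have h3 : HasDerivAt Q (deriv Q (Complex.exp u)) (Complex.exp u) :=
    (hQ.differentiableAt (isOpen_ball.mem_nhds (wr_ball hu))).hasDerivAt
  have h4 : HasDerivAt (fun u : ℂ => Q (Complex.exp u))
      (deriv Q (Complex.exp u) * Complex.exp u) u :=
    h3.comp u (Complex.hasDerivAt_exp u)
  have h5 : DifferentiableAt ℂ (iteratedDeriv m (psi δ j)) u :=
    h1.differentiableAt_iff.2 (h2.mul h4).differentiableAt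
  rw [iteratedDeriv_succ]
  exact h5.hasDerivAt

theorem wr_lim {n : ℕ} {δ : Fin n → ℝ} {j : Fin n} {C : ℝ} (hC : ∀ k, |hc δ j k| ≤ C) (m : ℕ) :
    Tendsto (fun x : ℝ => iteratedDeriv m (psi δ j) x * Complex.exp (-(δ j : ℂ) * x)) atBot
      (𝓝 ((δ j : ℂ) ^ m)) := by
  obtain ⟨Q, hQ, hQ0, hQe⟩ := wr_Q hC m
  have h1 : ContinuousAt Q 0 :=
    (hQ.differentiableAt (isOpen_ball.mem_nhds (mem_ball_self one_pos))).continuousAt
  have h2 : Tendsto (fun x : ℝ => Q (Complex.exp (x : ℂ))) atBot (𝓝 ((δ j : ℂ) ^ m)) := by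
    rw [← hQ0]
    exact h1.tendsto.comp wr_lim_exp
  refine h2.congr' ?_
  filter_upwards [Iio_mem_atBot (0 : ℝ)] with x hx
  rw [hQe x (by simpa using hx)]
  have h9 : Complex.exp ((δ j : ℂ) * x) * Complex.exp (-(δ j : ℂ) * x) = 1 := by
    rw [← Complex.exp_add]; simp
  calc Q (Complex.exp (x : ℂ)) =
      (Complex.exp ((δ j : ℂ) * x) * Complex.exp (-(δ j : ℂ) * x)) * Q (Complex.exp (x : ℂ)) := by
        rw [h9, one_mul]
    _ = _ := by ring

theorem wr_CG (j : Fin 2) : ∃ C : ℝ, ∀ k, |hc dG j k| ≤ C := by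
  refine ⟨∑' k, hc dG j k, fun k => ?_⟩
  rw [abs_of_pos (coefG_pos j k)]
  exact (coefG_summable j).le_tsum k (fun i _ => (coefG_pos j i).le)

theorem wr_CF (j : Fin 3) : ∃ C : ℝ, ∀ k, |hc dF j k| ≤ C := by
  refine ⟨∑' k, hc dF j k, fun k => ?_⟩
  rw [abs_of_pos (coefF_pos j k)]
  exact (coefF_summable j).le_tsum k (fun i _ => (coefF_pos j i).le)

theorem wr_neG : ∀ (i j : Fin 2) (k : ℕ), dG j + k + 1 - dG i ≠ 0 := by
  intro i j k
  have hk : (0 : ℝ) ≤ k := Nat.cast_nonneg k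
  have : 0 < dG j + k + 1 - dG i := by
    fin_cases i <;> fin_cases j <;> simp [dG] <;> linarith
  exact this.ne'

theorem wr_neF : ∀ (i j : Fin 3) (k : ℕ), dF j + k + 1 - dF i ≠ 0 := by
  intro i j k
  have hk : (0 : ℝ) ≤ k := Nat.cast_nonneg k
  have : 0 < dF j + k + 1 - dF i := by
    fin_cases i <;> fin_cases j <;> simp [dF] <;> linarith
  exact this.ne'

/-- `W' = -(1/4) coth(u/2) W`, so `W e^{-u/4} (1-e^u)^{1/2}` is constant; the constant is found by `re u → -∞`. -/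
theorem wr2 {u : ℂ} (hu : u.re < 0) :
    psi dG 0 u * deriv (psi dG 1) u - psi dG 1 u * deriv (psi dG 0) u =
      (1 / 9) * Complex.exp (u / 4) * (1 - Complex.exp u) ^ (-(1 / 2) : ℂ) := by
  obtain ⟨C0, hC0⟩ := wr_CG 0
  obtain ⟨C1, hC1⟩ := wr_CG 1
  have hd0 : (dG 0 : ℝ) = 5 / 72 := by simp [dG]
  have hd1 : (dG 1 : ℝ) = 13 / 72 := by simp [dG]
  have hsum : dG 0 + dG 1 = 1 / 4 := by rw [hd0, hd1]; norm_num
  set D : ℂ → ℂ := fun u => iteratedDeriv 0 (psi dG 0) u * iteratedDeriv 1 (psi dG 1) u -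
    iteratedDeriv 0 (psi dG 1) u * iteratedDeriv 1 (psi dG 0) u with hD
  have hder : ∀ u : ℂ, u.re < 0 →
      HasDerivAt D (-(1 / 4) * (Complex.cosh (u / 2) / Complex.sinh (u / 2)) * D u) u := by
    intro v hv
    have a0 := wr_hasDeriv hC0 0 hv
    have a1 := wr_hasDeriv hC0 1 hv
    have b0 := wr_hasDeriv hC1 0 hv
    have b1 := wr_hasDeriv hC1 1 hv
    have h := (a0.mul b1).sub (b0.mul a1)
    have o0 := ode2 hsum wr_neG hC0 hv
    have o1 := ode2 hsum wr_neG hC1 hv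
    refine h.congr_deriv ?_
    rw [iteratedDeriv_one] at o0 o1
    simp only [hD, iteratedDeriv_zero, zero_add, iteratedDeriv_one, Nat.reduceAdd]
    linear_combination (psi dG 0 v) * o1 - (psi dG 1 v) * o0
  have hlim : Tendsto (fun x : ℝ => D x * Complex.exp (-(1 / 4) * x)) atBot (𝓝 (1 / 9)) := by
    have l00 := wr_lim hC0 0
    have l01 := wr_lim hC0 1
    have l10 := wr_lim hC1 0
    have l11 := wr_lim hC1 1
    have h := (l00.mul l11).sub (l10.mul l01)
    have hc : ((dG 0 : ℂ)) ^ 0 * (dG 1 : ℂ) ^ 1 - (dG 1 : ℂ) ^ 0 * (dG 0 : ℂ) ^ 1 = 1 / 9 := by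
      rw [hd0, hd1]; push_cast; norm_num
    rw [hc] at h
    refine h.congr ?_
    intro x
    have he : Complex.exp (-(1 / 4) * (x : ℂ)) =
        Complex.exp (-(dG 0 : ℂ) * x) * Complex.exp (-(dG 1 : ℂ) * x) := by
      rw [← Complex.exp_add]
      congr 1
      rw [hd0, hd1]; push_cast; ring
    rw [he]
    simp only [hD]
    ring
  have := wr_gen (1 / 4) (1 / 9) D hder hlim hu
  have h1 : D u = psi dG 0 u * deriv (psi dG 1) u - psi dG 1 u * deriv (psi dG 0) u := by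
    simp only [hD, iteratedDeriv_zero, iteratedDeriv_one]
  rw [← h1, this, show (1 / 4 : ℂ) * u = u / 4 by ring, show -(2 * (1 / 4) : ℂ) = -(1 / 2) by norm_num]

/-- `det' = -(3/4) coth(u/2) det`; constant = Vandermonde `(δ1-δ0)(δ2-δ0)(δ2-δ1) = 12/729`. -/
theorem wr3 {u : ℂ} (hu : u.re < 0) :
    Matrix.det (Matrix.of fun (j i : Fin 3) => iteratedDeriv (i : ℕ) (psi dF j) u) =
      (12 / 729) * Complex.exp (3 * u / 4) * (1 - Complex.exp u) ^ (-(3 / 2) : ℂ) := by
  obtain ⟨C0, hC0⟩ := wr_CF 0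
  obtain ⟨C1, hC1⟩ := wr_CF 1
  obtain ⟨C2, hC2⟩ := wr_CF 2
  have hd0 : (dF 0 : ℝ) = 7 / 108 := by simp [dF]
  have hd1 : (dF 1 : ℝ) = 19 / 108 := by simp [dF]
  have hd2 : (dF 2 : ℝ) = 55 / 108 := by simp [dF]
  have hsum : dF 0 + dF 1 + dF 2 = 3 / 4 := by rw [hd0, hd1, hd2]; norm_num
  set f : ℕ → ℂ → ℂ := fun m u => iteratedDeriv m (psi dF 0) u with hf
  set g : ℕ → ℂ → ℂ := fun m u => iteratedDeriv m (psi dF 1) u with hg
  set h : ℕ → ℂ → ℂ := fun m u => iteratedDeriv m (psi dF 2) u with hh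
  set D : ℂ → ℂ := fun u =>
    f 0 u * (g 1 u * h 2 u) - f 0 u * (g 2 u * h 1 u) - f 1 u * (g 0 u * h 2 u) +
      f 1 u * (g 2 u * h 0 u) + f 2 u * (g 0 u * h 1 u) - f 2 u * (g 1 u * h 0 u) with hD
  have hder : ∀ u : ℂ, u.re < 0 →
      HasDerivAt D (-(3 / 4) * (Complex.cosh (u / 2) / Complex.sinh (u / 2)) * D u) u := by
    intro v hv
    have a : ∀ m, HasDerivAt (f m) (f (m + 1) v) v := fun m => wr_hasDeriv hC0 m hv
    have b : ∀ m, HasDerivAt (g m) (g (m + 1) v) v := fun m => wr_hasDeriv hC1 m hv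
    have c : ∀ m, HasDerivAt (h m) (h (m + 1) v) v := fun m => wr_hasDeriv hC2 m hv
    have H := ((((((a 0).mul ((b 1).mul (c 2))).sub ((a 0).mul ((b 2).mul (c 1)))).sub
      ((a 1).mul ((b 0).mul (c 2)))).add ((a 1).mul ((b 2).mul (c 0)))).add
      ((a 2).mul ((b 0).mul (c 1)))).sub ((a 2).mul ((b 1).mul (c 0)))
    have o0 := ode3 hsum wr_neF hC0 hv
    have o1 := ode3 hsum wr_neF hC1 hv
    have o2 := ode3 hsum wr_neF hC2 hv
    have e0 : f 0 v = psi dF 0 v := by simp only [hf, iteratedDeriv_zero]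
    have e1 : g 0 v = psi dF 1 v := by simp only [hg, iteratedDeriv_zero]
    have e2 : h 0 v = psi dF 2 v := by simp only [hh, iteratedDeriv_zero]
    rw [← e0] at o0
    rw [← e1] at o1
    rw [← e2] at o2
    change f 3 v + _ * f 2 v + _ * f 1 v + _ * f 0 v = 0 at o0
    change g 3 v + _ * g 2 v + _ * g 1 v + _ * g 0 v = 0 at o1
    change h 3 v + _ * h 2 v + _ * h 1 v + _ * h 0 v = 0 at o2
    refine H.congr_deriv ?_
    simp only [hD]
    norm_num
    linear_combination (g 0 v * h 1 v - g 1 v * h 0 v) * o0 -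
      (f 0 v * h 1 v - f 1 v * h 0 v) * o1 + (f 0 v * g 1 v - f 1 v * g 0 v) * o2
  have hlim : Tendsto (fun x : ℝ => D x * Complex.exp (-(3 / 4) * x)) atBot (𝓝 (12 / 729)) := by
    have la := wr_lim hC0
    have lb := wr_lim hC1
    have lc := wr_lim hC2
    have H := ((((((la 0).mul ((lb 1).mul (lc 2))).sub ((la 0).mul ((lb 2).mul (lc 1)))).sub
      ((la 1).mul ((lb 0).mul (lc 2)))).add ((la 1).mul ((lb 2).mul (lc 0)))).add
      ((la 2).mul ((lb 0).mul (lc 1)))).sub ((la 2).mul ((lb 1).mul (lc 0)))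
    rw [hd0, hd1, hd2] at H
    have hc : ((((7 / 108 : ℝ) : ℂ)) ^ 0 * (((19 / 108 : ℝ) : ℂ) ^ 1 * ((55 / 108 : ℝ) : ℂ) ^ 2) -
        (((7 / 108 : ℝ) : ℂ)) ^ 0 * (((19 / 108 : ℝ) : ℂ) ^ 2 * ((55 / 108 : ℝ) : ℂ) ^ 1) -
        (((7 / 108 : ℝ) : ℂ)) ^ 1 * (((19 / 108 : ℝ) : ℂ) ^ 0 * ((55 / 108 : ℝ) : ℂ) ^ 2) +
        (((7 / 108 : ℝ) : ℂ)) ^ 1 * (((19 / 108 : ℝ) : ℂ) ^ 2 * ((55 / 108 : ℝ) : ℂ) ^ 0) +
        (((7 / 108 : ℝ) : ℂ)) ^ 2 * (((19 / 108 : ℝ) : ℂ) ^ 0 * ((55 / 108 : ℝ) : ℂ) ^ 1) -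
        (((7 / 108 : ℝ) : ℂ)) ^ 2 * (((19 / 108 : ℝ) : ℂ) ^ 1 * ((55 / 108 : ℝ) : ℂ) ^ 0)) = 12 / 729 := by
      push_cast; norm_num
    rw [hc] at H
    refine H.congr ?_
    intro x
    have he : Complex.exp (-(3 / 4) * (x : ℂ)) =
        Complex.exp (-((7 / 108 : ℝ) : ℂ) * x) * (Complex.exp (-((19 / 108 : ℝ) : ℂ) * x) *
          Complex.exp (-((55 / 108 : ℝ) : ℂ) * x)) := by
      rw [← Complex.exp_add, ← Complex.exp_add]
      congr 1
      push_cast; ring
    rw [he]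
    simp only [hD, hf, hg, hh]
    ring
  have := wr_gen (3 / 4) (12 / 729) D hder hlim hu
  have h1 : Matrix.det (Matrix.of fun (j i : Fin 3) => iteratedDeriv (i : ℕ) (psi dF j) u) = D u := by
    rw [Matrix.det_fin_three]
    simp only [hD, hf, hg, hh, Matrix.of_apply]
    norm_num
    ring
  rw [h1, this, show (3 / 4 : ℂ) * u = 3 * u / 4 by ring, show -(2 * (3 / 4) : ℂ) = -(3 / 2) by norm_num]

end Pool.Agent.Helper326.HB
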