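import Mathlib
import Pool.Agent.Helper326.HB.Defs
import Pool.Agent.Helper326.HB.N1
import Pool.Agent.Helper326.HB.N2
import Pool.Agent.Helper326.HB.O1
import Pool.Agent.Helper326.HB.Q1
import Pool.Agent.Helper326.HB.Q2
import Pool.Agent.Helper326.HB.R1
import Pool.Agent.Helper326.HB.W1

set_option autoImplicit false
open Complex Metric Set Filter Topology Matrix

namespace Pool.Agent.Helper326.HB

theorem corner2 : ∃ B : Fin 2 → ℂ → ℂ, (∀ j, DifferentiableOn ℂ (B j) (ball 0 2)) ∧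
      (∀ j, ∀ τ ∈ ball (0 : ℂ) 2, 0 < τ.re → |τ.im| < τ.re → B j τ = psi dG j (-τ ^ 2)) ∧
      ∀ τ ∈ ball (0 : ℂ) 2, B 0 τ * deriv (B 1) τ - B 1 τ * deriv (B 0) τ ≠ 0 := by
  obtain ⟨R, hRd, hRe, hRo, hRs⟩ := exists_R
  set s2 : ℂ := ((dG 0 * dG 1 : ℝ) : ℂ) with hs2
  set A : ℂ → ℂ := fun τ => (1 / 2) * τ * R (-τ ^ 2) with hA
  set a : Fin 2 → ℂ → ℂ := ![fun τ => -4 * s2 * τ ^ 2, A] with ha
  have hmaps : MapsTo (fun τ : ℂ => -τ ^ 2) (ball 0 2) (ball 0 6) := by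
    intro τ hτ
    simp only [mem_ball_zero_iff] at hτ ⊢
    rw [norm_neg, norm_pow]
    nlinarith [norm_nonneg τ]
  have hAd : DifferentiableOn ℂ A (ball 0 2) := by
    apply DifferentiableOn.mul
    · fun_prop
    · exact hRd.comp (by fun_prop) hmaps
  have had : ∀ i, DifferentiableOn ℂ (a i) (ball 0 2) := by
    intro i
    fin_cases i
    · show DifferentiableOn ℂ (fun τ : ℂ => -4 * s2 * τ ^ 2) (ball 0 2)
      fun_prop
    · exact hAd
  have hC : ∀ j : Fin 2, ∃ C : ℝ, ∀ k, |hc dG j k| ≤ C := by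
    intro j
    refine ⟨∑' k, hc dG j k, fun k => ?_⟩
    rw [abs_of_pos (coefG_pos j k)]
    exact (coefG_summable j).le_tsum k (fun i _ => (coefG_pos j i).le)
  have hne : ∀ (i j : Fin 2) (k : ℕ), dG j + k + 1 - dG i ≠ 0 := by
    intro i j k
    have hk : (0 : ℝ) ≤ k := Nat.cast_nonneg k
    have h0 : dG 0 = 5 / 72 := rfl
    have h1 : dG 1 = 13 / 72 := rfl
    have hb : ∀ i : Fin 2, 5 / 72 ≤ dG i ∧ dG i ≤ 13 / 72 := by
      intro i
      fin_cases i
      · show 5 / 72 ≤ dG 0 ∧ dG 0 ≤ 13 / 72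
        rw [h0]; norm_num
      · show 5 / 72 ≤ dG 1 ∧ dG 1 ≤ 13 / 72
        rw [h1]; norm_num
    have := hb i
    have := hb j
    intro h
    linarith [(hb i).2, (hb j).1]
  have hsum : dG 0 + dG 1 = 1 / 4 := by
    have h0 : dG 0 = 5 / 72 := rfl
    have h1 : dG 1 = 13 / 72 := rfl
    rw [h0, h1]; norm_num
  have hopenL : IsOpen {u : ℂ | u.re < 0} := isOpen_lt Complex.continuous_re continuous_const
  have hpd : ∀ j, DifferentiableOn ℂ (psi dG j) {u | u.re < 0} := fun j => by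
    obtain ⟨C, hC⟩ := hC j
    exact psi_diff hC
  have hpd2 : ∀ j, DifferentiableOn ℂ (deriv (psi dG j)) {u | u.re < 0} :=
    fun j => (hpd j).deriv hopenL
  have hneg : ∀ τ : ℂ, 0 < τ.re → |τ.im| < τ.re → (-τ ^ 2).re < 0 := by
    intro τ h1 h2
    have h3 : (-τ ^ 2).re = -(τ.re ^ 2 - τ.im ^ 2) := by
      rw [pow_two]; simp only [neg_re, mul_re]; ring
    rw [h3]
    obtain ⟨h4, h5⟩ := abs_lt.mp h2
    nlinarith
  have hsq : ∀ τ : ℂ, HasDerivAt (fun τ : ℂ => -τ ^ 2) (-(2 * τ)) τ := by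
    intro τ
    have := (hasDerivAt_pow 2 τ).fun_neg
    simpa using this
  have hY1 : ∀ j, ∀ τ : ℂ, 0 < τ.re → |τ.im| < τ.re →
      HasDerivAt (fun τ => psi dG j (-τ ^ 2)) (-2 * τ * deriv (psi dG j) (-τ ^ 2)) τ := by
    intro j τ h1 h2
    have h := (hpd j).differentiableAt (hopenL.mem_nhds (hneg τ h1 h2))
    have := HasDerivAt.comp τ h.hasDerivAt (hsq τ)
    exact this.congr_deriv (by ring)
  have hY2 : ∀ j, ∀ τ : ℂ, 0 < τ.re → |τ.im| < τ.re →
      HasDerivAt (fun τ => -2 * τ * deriv (psi dG j) (-τ ^ 2))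
        (-2 * deriv (psi dG j) (-τ ^ 2) + 4 * τ ^ 2 * iteratedDeriv 2 (psi dG j) (-τ ^ 2)) τ := by
    intro j τ h1 h2
    have h := (hpd2 j).differentiableAt (hopenL.mem_nhds (hneg τ h1 h2))
    have h3 := HasDerivAt.comp τ h.hasDerivAt (hsq τ)
    have h4 : HasDerivAt (fun τ : ℂ => -2 * τ) (-2) τ := by
      simpa using (hasDerivAt_id τ).const_mul (-2 : ℂ)
    have h5 := h4.fun_mul h3
    rw [iteratedDeriv_succ, iteratedDeriv_one]
    refine h5.congr_deriv ?_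
    simp only [Function.comp_apply]
    ring
  -- the sector
  set U : Set ℂ := {τ | τ ∈ ball (0 : ℂ) 2 ∧ (0 < τ.re ∧ |τ.im| < τ.re)} with hU
  have hUo : IsOpen U := by
    apply isOpen_ball.inter
    apply IsOpen.inter
    · exact isOpen_lt continuous_const Complex.continuous_re
    · exact isOpen_lt (Complex.continuous_im.abs) Complex.continuous_re
  have hUc : Convex ℝ U := by
    apply (convex_ball _ _).inter
    apply Convex.inter
    · exact convex_halfSpace_gt (f := fun τ : ℂ => τ.re)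
        ⟨fun x y => by simp, fun c x => by simp⟩ 0
    · have e : {τ : ℂ | |τ.im| < τ.re} = {τ : ℂ | τ.im - τ.re < 0} ∩ {τ : ℂ | -τ.im - τ.re < 0} := by
        ext τ
        simp only [Set.mem_ofPred_eq, mem_inter_iff, abs_lt]
        constructor
        · rintro ⟨h1, h2⟩; constructor <;> linarith
        · rintro ⟨h1, h2⟩; constructor <;> linarith
      show Convex ℝ {τ : ℂ | |τ.im| < τ.re}
      rw [e]
      apply Convex.inter
      · exact convex_halfSpace_lt (f := fun τ : ℂ => τ.im - τ.re)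
          ⟨fun x y => by simp; ring, fun c x => by simp; ring⟩ 0
      · exact convex_halfSpace_lt (f := fun τ : ℂ => -τ.im - τ.re)
          ⟨fun x y => by simp; ring, fun c x => by simp; ring⟩ 0
  have hUb : U ⊆ ball 0 2 := fun τ h => h.1
  have h1U : (1 : ℂ) ∈ U := by
    refine ⟨by simp, by simp, by simp⟩
  have h1b : (1 : ℂ) ∈ ball (0 : ℂ) 2 := hUb h1U
  have hYd : ∀ j, DifferentiableOn ℂ (fun τ => psi dG j (-τ ^ 2)) U := fun j τ h =>
    (hY1 j τ h.2.1 h.2.2).differentiableAt.differentiableWithinAt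
  have hYi1 : ∀ j, ∀ τ ∈ U, iteratedDeriv 1 (fun τ => psi dG j (-τ ^ 2)) τ =
      -2 * τ * deriv (psi dG j) (-τ ^ 2) := by
    intro j τ h
    rw [iteratedDeriv_one]
    exact (hY1 j τ h.2.1 h.2.2).deriv
  have hYi2 : ∀ j, ∀ τ ∈ U, iteratedDeriv 2 (fun τ => psi dG j (-τ ^ 2)) τ =
      -2 * deriv (psi dG j) (-τ ^ 2) + 4 * τ ^ 2 * iteratedDeriv 2 (psi dG j) (-τ ^ 2) := by
    intro j τ h
    rw [iteratedDeriv_succ, iteratedDeriv_one]
    have e : deriv (fun τ => psi dG j (-τ ^ 2)) =ᶠ[𝓝 τ]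
        (fun τ => -2 * τ * deriv (psi dG j) (-τ ^ 2)) := by
      filter_upwards [hUo.mem_nhds h] with σ hσ
      exact (hY1 j σ hσ.2.1 hσ.2.2).deriv
    rw [e.deriv_eq]
    exact (hY2 j τ h.2.1 h.2.2).deriv
  have hYode : ∀ j, ∀ τ ∈ U, iteratedDeriv 2 (fun τ => psi dG j (-τ ^ 2)) τ =
      ∑ i : Fin 2, a i τ * iteratedDeriv i (fun τ => psi dG j (-τ ^ 2)) τ := by
    intro j τ h
    obtain ⟨C, hCj⟩ := hC j
    have hre := hneg τ h.2.1 h.2.2
    have hode := ode2 hsum hne hCj hre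
    have hτ0 : τ ≠ 0 := by
      rintro rfl
      simpa using h.2.1
    have hu0 : -τ ^ 2 ≠ 0 := neg_ne_zero.mpr (pow_ne_zero 2 hτ0)
    have hu6 := hmaps h.1
    have hR := hRe _ hu6 hu0
    rw [Fin.sum_univ_two]
    have e0 : a 0 τ = -4 * s2 * τ ^ 2 := rfl
    have e1 : a 1 τ = (1 / 2) * τ * R (-τ ^ 2) := rfl
    rw [e0, e1]
    have f0 : ((0 : Fin 2) : ℕ) = 0 := rfl
    have f1 : ((1 : Fin 2) : ℕ) = 1 := rfl
    rw [f0, f1, iteratedDeriv_zero, hYi1 j τ h, hYi2 j τ h]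
    rw [iteratedDeriv_one] at hode
    have hcoth : Complex.cosh (-τ ^ 2 / 2) / Complex.sinh (-τ ^ 2 / 2) = R (-τ ^ 2) + 2 / (-τ ^ 2) := by
      rw [hR]; ring
    rw [hcoth] at hode
    have hode' : iteratedDeriv 2 (psi dG j) (-τ ^ 2) =
        -(1 / 4) * (R (-τ ^ 2) + 2 / (-τ ^ 2)) * deriv (psi dG j) (-τ ^ 2) - s2 * psi dG j (-τ ^ 2) := by
      linear_combination hode
    rw [hode']
    field_simp
    ring
  -- global solutions
  have hex : ∀ j : Fin 2, ∃ y : ℂ → ℂ, DifferentiableOn ℂ y (ball 0 2) ∧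
      (∀ i : Fin 2, iteratedDeriv i y 1 = iteratedDeriv i (fun τ => psi dG j (-τ ^ 2)) 1) ∧
      ∀ τ ∈ ball (0 : ℂ) 2, iteratedDeriv 2 y τ = ∑ i : Fin 2, a i τ * iteratedDeriv i y τ := by
    intro j
    exact ode_exists a (by norm_num) had h1b
      (fun i => iteratedDeriv i (fun τ => psi dG j (-τ ^ 2)) 1)
  choose B hBd hBj hBode using hex
  have hBeq : ∀ j, EqOn (B j) (fun τ => psi dG j (-τ ^ 2)) U := by
    intro j
    exact ode_unique a hUo hUc (fun i => (had i).mono hUb) ((hBd j).mono hUb) (hYd j)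
      (fun τ h => hBode j τ (hUb h)) (hYode j) h1U (hBj j)
  refine ⟨B, hBd, fun j τ h h1 h2 => hBeq j ⟨h, h1, h2⟩, ?_⟩
  -- Wronskian
  set w : ℂ → ℂ := fun τ => B 0 τ * deriv (B 1) τ - B 1 τ * deriv (B 0) τ with hw
  have hBd' : ∀ j, DifferentiableOn ℂ (deriv (B j)) (ball 0 2) := fun j => (hBd j).deriv isOpen_ball
  have hwd : DifferentiableOn ℂ w (ball 0 2) :=
    ((hBd 0).mul (hBd' 1)).sub ((hBd 1).mul (hBd' 0))
  have hBh : ∀ j, ∀ τ ∈ ball (0 : ℂ) 2, HasDerivAt (B j) (deriv (B j) τ) τ := fun j τ h =>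
    ((hBd j).differentiableAt (isOpen_ball.mem_nhds h)).hasDerivAt
  have hBh' : ∀ j, ∀ τ ∈ ball (0 : ℂ) 2, HasDerivAt (deriv (B j)) (iteratedDeriv 2 (B j) τ) τ := by
    intro j τ h
    rw [iteratedDeriv_succ, iteratedDeriv_one]
    exact ((hBd' j).differentiableAt (isOpen_ball.mem_nhds h)).hasDerivAt
  have hw' : ∀ τ ∈ ball (0 : ℂ) 2, deriv w τ = A τ * w τ := by
    intro τ h
    have h1 := ((hBh 0 τ h).mul (hBh' 1 τ h)).sub ((hBh 1 τ h).mul (hBh' 0 τ h))
    have h2 : deriv w τ = deriv (B 0) τ * deriv (B 1) τ + B 0 τ * iteratedDeriv 2 (B 1) τ -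
        (deriv (B 1) τ * deriv (B 0) τ + B 1 τ * iteratedDeriv 2 (B 0) τ) := h1.deriv
    rw [h2, hBode 0 τ h, hBode 1 τ h, Fin.sum_univ_two, Fin.sum_univ_two]
    have e0 : a 0 τ = -4 * s2 * τ ^ 2 := rfl
    have e1 : a 1 τ = A τ := rfl
    have f0 : ((0 : Fin 2) : ℕ) = 0 := rfl
    have f1 : ((1 : Fin 2) : ℕ) = 1 := rfl
    rw [e0, e1, f0, f1]
    simp only [iteratedDeriv_zero, iteratedDeriv_one, hw]
    ring
  have hw1 : w 1 ≠ 0 := by
    have e0 : ∀ j, B j 1 = psi dG j (-1) := by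
      intro j
      have := hBeq j h1U
      simpa using this
    have e1 : ∀ j, deriv (B j) 1 = -2 * deriv (psi dG j) (-1) := by
      intro j
      have h1 := hBj j 1
      have f1 : ((1 : Fin 2) : ℕ) = 1 := rfl
      rw [f1, hYi1 j 1 h1U, iteratedDeriv_one] at h1
      simpa using h1
    have e2 : w 1 = -2 * (psi dG 0 (-1) * deriv (psi dG 1) (-1) - psi dG 1 (-1) * deriv (psi dG 0) (-1)) := by
      simp only [hw, e0, e1]
      ring
    rw [e2, wr2 (by simp)]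
    refine mul_ne_zero (by norm_num) (mul_ne_zero (mul_ne_zero (by norm_num) (Complex.exp_ne_zero _)) ?_)
    rw [Complex.cpow_def_of_ne_zero]
    · exact Complex.exp_ne_zero _
    · intro h
      have h1 : Complex.exp (-1) = 1 := by linear_combination -h
      have h2 : ‖Complex.exp (-1)‖ = 1 := by rw [h1]; simp
      rw [Complex.norm_exp] at h2
      simp at h2
  intro τ hτ h0
  have hz : EqOn w (fun _ => 0) (ball 0 2) := by
    refine ode_unique (n := 1) (fun _ => A) isOpen_ball (convex_ball _ _) (fun _ => hAd) hwd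
      (differentiableOn_const _) ?_ ?_ hτ ?_
    · intro σ hσ
      simp only [iteratedDeriv_one, Finset.univ_unique, Fin.default_eq_zero, Fin.isValue,
        Finset.sum_singleton, Fin.val_zero, iteratedDeriv_zero]
      exact hw' σ hσ
    · intro σ hσ
      simp
    · intro i
      fin_cases i
      simpa [iteratedDeriv_zero] using h0
  exact hw1 (hz h1b)

end Pool.Agent.Helper326.HB
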