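import Mathlib
import Pool.Agent.Helper326.HB.Defs
import Pool.Agent.Helper326.HB.N1
import Pool.Agent.Helper326.HB.N2
import Pool.Agent.Helper326.HB.O1
import Pool.Agent.Helper326.HB.Q1
import Pool.Agent.Helper326.HB.Q2
import Pool.Agent.Helper326.HB.R1

set_option autoImplicit false
open Complex Metric Set Filter Topology Matrix

namespace Pool.Agent.Helper326.HB

theorem sec_open : IsOpen {τ : ℂ | |τ.im| < τ.re} :=
  isOpen_lt (continuous_abs.comp Complex.continuous_im) Complex.continuous_re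

theorem sec_convex : Convex ℝ {τ : ℂ | |τ.im| < τ.re} := by
  have h1 : Convex ℝ {τ : ℂ | τ.im - τ.re < 0} := by
    apply convex_halfSpace_lt (f := fun τ : ℂ => τ.im - τ.re)
    constructor
    · intro x y; simp; ring
    · intro c x; simp; ring
  have h2 : Convex ℝ {τ : ℂ | -τ.im - τ.re < 0} := by
    apply convex_halfSpace_lt (f := fun τ : ℂ => -τ.im - τ.re)
    constructor
    · intro x y; simp; ring
    · intro c x; simp; ring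
  have h3 : {τ : ℂ | |τ.im| < τ.re} =
      {τ : ℂ | τ.im - τ.re < 0} ∩ {τ : ℂ | -τ.im - τ.re < 0} := by
    ext τ
    simp only [Set.mem_setOf_eq, Set.mem_inter_iff, abs_lt]
    constructor
    · rintro ⟨a, b⟩; constructor <;> linarith
    · rintro ⟨a, b⟩; constructor <;> linarith
  rw [h3]
  exact h1.inter h2

theorem sec_re {τ : ℂ} (h : |τ.im| < τ.re) : (-τ ^ 2).re < 0 := by
  have h2 : (-τ ^ 2).re = τ.im ^ 2 - τ.re ^ 2 := by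
    simp [pow_two]
  rw [h2]
  have h3 := abs_lt.mp h
  nlinarith [mul_pos (show 0 < τ.re - τ.im by linarith [h3.2])
    (show 0 < τ.re + τ.im by linarith [h3.1])]

theorem psi_hd {n : ℕ} {δ : Fin n → ℝ} {j : Fin n} {C : ℝ} (hC : ∀ k, |hc δ j k| ≤ C) (k : ℕ) :
    DifferentiableOn ℂ (iteratedDeriv k (psi δ j)) {u | u.re < 0} := by
  have ho : IsOpen {u : ℂ | u.re < 0} := isOpen_lt Complex.continuous_re continuous_const
  induction k with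
  | zero => rw [iteratedDeriv_zero]; exact psi_diff hC
  | succ k ih => rw [iteratedDeriv_succ]; exact ih.deriv ho

theorem psi_sq_hd {n : ℕ} {δ : Fin n → ℝ} {j : Fin n} {C : ℝ} (hC : ∀ k, |hc δ j k| ≤ C)
    (k : ℕ) {τ : ℂ} (hτ : |τ.im| < τ.re) :
    HasDerivAt (fun τ : ℂ => iteratedDeriv k (psi δ j) (-τ ^ 2))
      (iteratedDeriv (k + 1) (psi δ j) (-τ ^ 2) * (-(2 * τ))) τ := by
  have ho : IsOpen {u : ℂ | u.re < 0} := isOpen_lt Complex.continuous_re continuous_const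
  have h1 : HasDerivAt (iteratedDeriv k (psi δ j)) (iteratedDeriv (k + 1) (psi δ j) (-τ ^ 2))
      (-τ ^ 2) := by
    rw [iteratedDeriv_succ]
    exact ((psi_hd hC k).differentiableAt (ho.mem_nhds (sec_re hτ))).hasDerivAt
  have h2 : HasDerivAt (fun τ : ℂ => -τ ^ 2) (-(2 * τ)) τ := by
    have h : HasDerivAt (fun τ : ℂ => -τ ^ 2) (-(((2 : ℕ) : ℂ) * τ ^ (2 - 1))) τ :=
      (hasDerivAt_pow 2 τ).neg
    have e : -(((2 : ℕ) : ℂ) * τ ^ (2 - 1)) = -(2 * τ) := by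
      norm_num
    rw [e] at h
    exact h
  exact h1.comp τ h2

theorem jetY {δ : Fin 3 → ℝ} {j : Fin 3} {C : ℝ} (hC : ∀ k, |hc δ j k| ≤ C) {τ : ℂ}
    (hτ : |τ.im| < τ.re) :
    iteratedDeriv 1 (fun τ => psi δ j (-τ ^ 2)) τ =
      -(2 * τ) * iteratedDeriv 1 (psi δ j) (-τ ^ 2) ∧
    iteratedDeriv 2 (fun τ => psi δ j (-τ ^ 2)) τ =
      -2 * iteratedDeriv 1 (psi δ j) (-τ ^ 2) +
        4 * τ ^ 2 * iteratedDeriv 2 (psi δ j) (-τ ^ 2) ∧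
    iteratedDeriv 3 (fun τ => psi δ j (-τ ^ 2)) τ =
      12 * τ * iteratedDeriv 2 (psi δ j) (-τ ^ 2) -
        8 * τ ^ 3 * iteratedDeriv 3 (psi δ j) (-τ ^ 2) := by
  have d1 : ∀ τ : ℂ, |τ.im| < τ.re → iteratedDeriv 1 (fun τ => psi δ j (-τ ^ 2)) τ =
      -(2 * τ) * iteratedDeriv 1 (psi δ j) (-τ ^ 2) := by
    intro τ hτ
    have h := (psi_sq_hd hC 0 hτ).deriv
    rw [iteratedDeriv_zero] at h
    rw [iteratedDeriv_one, h, mul_comm]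
  have d2 : ∀ τ : ℂ, |τ.im| < τ.re → iteratedDeriv 2 (fun τ => psi δ j (-τ ^ 2)) τ =
      -2 * iteratedDeriv 1 (psi δ j) (-τ ^ 2) +
        4 * τ ^ 2 * iteratedDeriv 2 (psi δ j) (-τ ^ 2) := by
    intro τ hτ
    rw [iteratedDeriv_succ]
    have he : iteratedDeriv 1 (fun τ => psi δ j (-τ ^ 2)) =ᶠ[𝓝 τ]
        fun τ => -(2 * τ) * iteratedDeriv 1 (psi δ j) (-τ ^ 2) :=
      Filter.eventually_of_mem (sec_open.mem_nhds hτ) (fun σ hσ => d1 σ hσ)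
    rw [he.deriv_eq]
    have h2 : HasDerivAt (fun τ : ℂ => -(2 * τ)) (-2) τ := by
      have h : HasDerivAt (fun τ : ℂ => -(2 * τ)) (-(2 * 1)) τ :=
        ((hasDerivAt_id τ).const_mul (2 : ℂ)).neg
      rw [mul_one] at h
      exact h
    have h3 : HasDerivAt (fun τ : ℂ => -(2 * τ) * iteratedDeriv 1 (psi δ j) (-τ ^ 2)) _ τ :=
      h2.mul (psi_sq_hd hC 1 hτ)
    rw [h3.deriv]
    ring
  refine ⟨d1 τ hτ, d2 τ hτ, ?_⟩
  rw [iteratedDeriv_succ]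
  have he : iteratedDeriv 2 (fun τ => psi δ j (-τ ^ 2)) =ᶠ[𝓝 τ]
      fun τ => -2 * iteratedDeriv 1 (psi δ j) (-τ ^ 2) +
        4 * τ ^ 2 * iteratedDeriv 2 (psi δ j) (-τ ^ 2) :=
    Filter.eventually_of_mem (sec_open.mem_nhds hτ) (fun σ hσ => d2 σ hσ)
  rw [he.deriv_eq]
  have h2 : HasDerivAt (fun τ : ℂ => 4 * τ ^ 2) (8 * τ) τ := by
    have h := (hasDerivAt_pow 2 τ).const_mul (4 : ℂ)
    have e : (4 : ℂ) * (((2 : ℕ) : ℂ) * τ ^ (2 - 1)) = 8 * τ := by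
      norm_num
      ring
    rw [e] at h
    exact h
  have h3 : HasDerivAt (fun τ : ℂ => -2 * iteratedDeriv 1 (psi δ j) (-τ ^ 2) +
      4 * τ ^ 2 * iteratedDeriv 2 (psi δ j) (-τ ^ 2)) _ τ :=
    ((psi_sq_hd hC 1 hτ).const_mul (-2 : ℂ)).add (h2.mul (psi_sq_hd hC 2 hτ))
  rw [h3.deriv]
  ring

theorem odeY {δ : Fin 3 → ℝ} (hsum : δ 0 + δ 1 + δ 2 = 3 / 4)
    (hne : ∀ (i j : Fin 3) (k : ℕ), δ j + k + 1 - δ i ≠ 0) {j : Fin 3} {C : ℝ}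
    (hC : ∀ k, |hc δ j k| ≤ C) {R : ℂ → ℂ}
    (hR : ∀ u ∈ ball (0 : ℂ) 6, u ≠ 0 →
      R u = Complex.cosh (u / 2) / Complex.sinh (u / 2) - 2 / u)
    {τ : ℂ} (hτ : |τ.im| < τ.re) (hτ2 : τ ∈ ball (0 : ℂ) 2) :
    iteratedDeriv 3 (fun τ => psi δ j (-τ ^ 2)) τ =
      (8 * ((δ 0 * δ 1 * δ 2 : ℝ) : ℂ) * τ ^ 3 * R (-τ ^ 2) -
        16 * ((δ 0 * δ 1 * δ 2 : ℝ) : ℂ) * τ) * psi δ j (-τ ^ 2) +
      (-((3 / 2) * R (-τ ^ 2) + 4 * ((δ 0 * δ 1 + δ 0 * δ 2 + δ 1 * δ 2 : ℝ) : ℂ) * τ ^ 2)) *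
        iteratedDeriv 1 (fun τ => psi δ j (-τ ^ 2)) τ +
      ((3 / 2) * τ * R (-τ ^ 2)) * iteratedDeriv 2 (fun τ => psi δ j (-τ ^ 2)) τ := by
  obtain ⟨j1, j2, j3⟩ := jetY hC hτ
  have hode := ode3 hsum hne hC (sec_re hτ)
  have hτ0 : τ ≠ 0 := by
    rintro rfl
    simp at hτ
  have hu : -τ ^ 2 ∈ ball (0 : ℂ) 6 := by
    rw [mem_ball_zero_iff] at hτ2 ⊢
    rw [norm_neg, norm_pow]
    nlinarith [norm_nonneg τ]
  have hu0 : -τ ^ 2 ≠ 0 := neg_ne_zero.mpr (pow_ne_zero 2 hτ0)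
  have hRu := hR _ hu hu0
  generalize Complex.cosh (-τ ^ 2 / 2) / Complex.sinh (-τ ^ 2 / 2) = K at hode hRu
  have hK : τ ^ 2 * K = τ ^ 2 * R (-τ ^ 2) - 2 := by
    rw [hRu]
    field_simp
    ring
  rw [j1, j2, j3]
  linear_combination (-8 * τ ^ 3) * hode + (6 * τ * iteratedDeriv 2 (psi δ j) (-τ ^ 2) +
    8 * τ * ((δ 0 * δ 1 * δ 2 : ℝ) : ℂ) * psi δ j (-τ ^ 2)) * hK

theorem corner3 {δ : Fin 3 → ℝ} (hsum : δ 0 + δ 1 + δ 2 = 3 / 4)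
    (hne : ∀ (i j : Fin 3) (k : ℕ), δ j + k + 1 - δ i ≠ 0) {j : Fin 3} {C : ℝ}
    (hC : ∀ k, |hc δ j k| ≤ C) :
    ∃ A : ℂ → ℂ, DifferentiableOn ℂ A (ball 0 2) ∧
      ∀ τ ∈ ball (0 : ℂ) 2, 0 < τ.re → |τ.im| < τ.re → A τ = psi δ j (-τ ^ 2) := by
  obtain ⟨R, hRd, hR, -, -⟩ := exists_R
  obtain ⟨s3, hs3⟩ : ∃ s3 : ℂ, s3 = ((δ 0 * δ 1 * δ 2 : ℝ) : ℂ) := ⟨_, rfl⟩
  obtain ⟨s2, hs2⟩ : ∃ s2 : ℂ, s2 = ((δ 0 * δ 1 + δ 0 * δ 2 + δ 1 * δ 2 : ℝ) : ℂ) := ⟨_, rfl⟩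
  have hRc : DifferentiableOn ℂ (fun τ : ℂ => R (-τ ^ 2)) (ball 0 2) := by
    apply hRd.comp (by fun_prop)
    intro τ hτ
    rw [mem_ball_zero_iff] at hτ ⊢
    rw [norm_neg, norm_pow]
    nlinarith [norm_nonneg τ]
  let a : Fin 3 → ℂ → ℂ := ![fun τ => 8 * s3 * τ ^ 3 * R (-τ ^ 2) - 16 * s3 * τ,
    fun τ => -((3 / 2) * R (-τ ^ 2) + 4 * s2 * τ ^ 2), fun τ => (3 / 2) * τ * R (-τ ^ 2)]
  have ha : ∀ i, DifferentiableOn ℂ (a i) (ball 0 2) := by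
    have h0 : DifferentiableOn ℂ (fun τ : ℂ => 8 * s3 * τ ^ 3 * R (-τ ^ 2) - 16 * s3 * τ)
        (ball 0 2) := by
      apply DifferentiableOn.sub
      · exact DifferentiableOn.mul (by fun_prop) hRc
      · fun_prop
    have h1 : DifferentiableOn ℂ (fun τ : ℂ => -((3 / 2) * R (-τ ^ 2) + 4 * s2 * τ ^ 2))
        (ball 0 2) := by
      apply DifferentiableOn.neg
      apply DifferentiableOn.add
      · exact DifferentiableOn.mul (by fun_prop) hRc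
      · fun_prop
    have h2 : DifferentiableOn ℂ (fun τ : ℂ => (3 / 2) * τ * R (-τ ^ 2)) (ball 0 2) :=
      DifferentiableOn.mul (by fun_prop) hRc
    intro i
    fin_cases i
    · exact h0
    · exact h1
    · exact h2
  have hone : (1 : ℂ) ∈ ball (0 : ℂ) 2 := by
    rw [mem_ball_zero_iff]
    norm_num
  obtain ⟨A, hA1, hA2, hA3⟩ := ode_exists a (by norm_num : (0 : ℝ) < 2) ha hone
    (fun i => iteratedDeriv i (fun τ => psi δ j (-τ ^ 2)) 1)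
  refine ⟨A, hA1, ?_⟩
  have hEq : EqOn A (fun τ => psi δ j (-τ ^ 2)) ({τ : ℂ | |τ.im| < τ.re} ∩ ball 0 2) := by
    refine ode_unique a (sec_open.inter isOpen_ball) (sec_convex.inter (convex_ball 0 2))
      (fun i => (ha i).mono Set.inter_subset_right) (hA1.mono Set.inter_subset_right) ?_
      (fun τ hτ => hA3 τ hτ.2) ?_ (τ₀ := 1) ⟨?_, hone⟩ hA2
    · intro τ hτ
      have h := psi_sq_hd hC 0 hτ.1
      rw [iteratedDeriv_zero] at h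
      exact h.differentiableAt.differentiableWithinAt
    · intro τ hτ
      rw [odeY hsum hne hC hR hτ.1 hτ.2, Fin.sum_univ_three, ← hs3, ← hs2]
      simp [a]
    · show |(1 : ℂ).im| < (1 : ℂ).re
      simp
  intro τ hτ _ him
  exact hEq ⟨him, hτ⟩

end Pool.Agent.Helper326.HB
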