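import Mathlib
import Pool.Agent.Helper326.HB.Defs

set_option autoImplicit false
open Complex Metric Set Filter Topology Matrix

namespace Pool.Agent.Helper326.HB

theorem corner_sq (z : ℂ) : (z ^ (1 / 2 : ℂ)) ^ 2 = z := by
  have := Complex.cpow_nat_inv_pow z (n := 2) two_ne_zero
  rw [one_div]
  exact_mod_cast this

/-- the relation `A_j(Iτ) = ∑_l e^{-πI(δ_j+δ_l)} c_jl A_l(τ)`. For `x ∈ (0,1/2)` real, `τ = (-πI-x)^(1/2)`:
`A_j(Iτ) = e^{-πIδ_j} V_j(-x) = e^{-πIδ_j} ∑_l c_jl V_l(x) = ∑_l e^{-πI(δ_j+δ_l)} c_jl A_l(τ)`. Both sides are holomorphic on `ball 0 2` and the points `τ` accumulate at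
`(-πI)^(1/2) ∈ ball 0 2` (identity theorem, `AnalyticOnNhd.eqOn_of_preconnected_of_frequently_eq`). -/
theorem corner_rel {n : ℕ} {δ : Fin n → ℝ} {A V : Fin n → ℂ → ℂ} {c : Matrix (Fin n) (Fin n) ℝ}
    (hA : ∀ j, DifferentiableOn ℂ (A j) (ball 0 2))
    (h1 : ∀ j, ∀ x ∈ ball (0 : ℂ) (1 / 2),
        V j x = Complex.exp (-(Real.pi * δ j * I)) * A j ((-(Real.pi * I) - x) ^ (1 / 2 : ℂ)))
    (h2 : ∀ j, ∀ x ∈ ball (0 : ℂ) (1 / 2), 0 < x.re →
        A j (I * (-(Real.pi * I) - x) ^ (1 / 2 : ℂ)) = Complex.exp (-(Real.pi * δ j * I)) * V j (-x))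
    (h3 : ∀ j, ∀ x ∈ ball (0 : ℂ) (1 / 2), V j (-x) = ∑ l, (c j l : ℂ) * V l x) :
    ∀ j, ∀ τ ∈ ball (0 : ℂ) 2, A j (I * τ) =
      ∑ l, (Complex.exp (-(Real.pi * δ j * I)) * (c j l : ℂ) * Complex.exp (-(Real.pi * δ l * I))) * A l τ := by
  intro j
  have hmaps : MapsTo (fun τ : ℂ => I * τ) (ball 0 2) (ball 0 2) := by
    intro τ hτ
    simpa using hτ
  have hf : DifferentiableOn ℂ (fun τ : ℂ => A j (I * τ)) (ball 0 2) :=
    (hA j).comp (by fun_prop) hmaps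
  have hg : DifferentiableOn ℂ (fun τ : ℂ => ∑ l, (Complex.exp (-(Real.pi * δ j * I)) * (c j l : ℂ) *
      Complex.exp (-(Real.pi * δ l * I))) * A l τ) (ball 0 2) := by
    apply DifferentiableOn.fun_sum
    intro l _
    exact (hA l).const_mul _
  have hf' := hf.analyticOnNhd isOpen_ball
  have hg' := hg.analyticOnNhd isOpen_ball
  set τ0 : ℂ := (-(Real.pi * I)) ^ (1 / 2 : ℂ) with hτ0
  have hslit : (-(Real.pi * I) : ℂ) ∈ Complex.slitPlane := by
    rw [Complex.mem_slitPlane_iff]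
    right
    simp [Real.pi_ne_zero]
  have hnorm : ‖τ0‖ ^ 2 = Real.pi := by
    rw [← norm_pow, hτ0, corner_sq]
    simp [abs_of_pos Real.pi_pos]
  have hmem : τ0 ∈ ball (0 : ℂ) 2 := by
    rw [mem_ball_zero_iff]
    have := Real.pi_lt_four
    nlinarith [norm_nonneg τ0]
  have hT : Tendsto (fun x : ℝ => (-(Real.pi * I) - (x : ℂ)) ^ (1 / 2 : ℂ)) (𝓝[>] 0) (𝓝[≠] τ0) := by
    rw [tendsto_nhdsWithin_iff]
    constructor
    · have h0 : Tendsto (fun x : ℝ => (-(Real.pi * I) - (x : ℂ))) (𝓝[>] 0) (𝓝 (-(Real.pi * I))) := by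
        have : Continuous (fun x : ℝ => (-(Real.pi * I) - (x : ℂ))) := by fun_prop
        have h := (this.tendsto 0).mono_left (nhdsWithin_le_nhds (s := Set.Ioi 0))
        simpa using h
      have h5 : ContinuousAt (fun z : ℂ => z ^ (1 / 2 : ℂ)) (-(Real.pi * I)) :=
        continuousAt_cpow_const hslit
      exact h5.tendsto.comp h0
    · filter_upwards [self_mem_nhdsWithin] with x hx
      intro heq
      have h6 := congrArg (fun z : ℂ => z ^ 2) heq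
      simp only [hτ0, corner_sq] at h6
      have h7 : (x : ℂ) = 0 := by
        have h8 : (x : ℂ) = -(Real.pi * I) - (-(Real.pi * I) - (x : ℂ)) := by ring
        rw [h8, h6]; ring
      have h9 : x = 0 := by exact_mod_cast h7
      exact absurd hx (by simp [h9])
  have hfreq : ∃ᶠ z in 𝓝[≠] τ0, (fun τ : ℂ => A j (I * τ)) z = (fun τ : ℂ => ∑ l, (Complex.exp (-(Real.pi * δ j * I)) * (c j l : ℂ) *
      Complex.exp (-(Real.pi * δ l * I))) * A l τ) z := by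
    apply hT.frequently
    apply Filter.Eventually.frequently
    have hev : ∀ᶠ x : ℝ in 𝓝[>] 0, x < 1 / 2 := by
      exact (eventually_lt_nhds (by norm_num : (0:ℝ) < 1/2)).filter_mono nhdsWithin_le_nhds
    filter_upwards [self_mem_nhdsWithin, hev] with x hx hx2
    have hx' : (0 : ℝ) < x := hx
    have hxb : (x : ℂ) ∈ ball (0 : ℂ) (1 / 2) := by
      rw [mem_ball_zero_iff, Complex.norm_real, Real.norm_eq_abs, abs_of_pos hx']
      exact hx2
    show A j (I * _) = _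
    rw [h2 j x hxb (by simpa using hx'), h3 j x hxb, Finset.mul_sum]
    apply Finset.sum_congr rfl
    intro l _
    rw [h1 l x hxb]
    ring
  have := AnalyticOnNhd.eqOn_of_preconnected_of_frequently_eq hf' hg' (convex_ball (0 : ℂ) 2).isPreconnected hmem hfreq
  intro τ hτ
  exact this hτ

theorem corner_unit_gen {n : ℕ} (δ s ε : Fin n → ℝ) (hs : ∀ i, 0 < s i) (c : Matrix (Fin n) (Fin n) ℝ)
    (hc : cᵀ * Matrix.diagonal (fun i => ε i * s i ^ 2) * c = Matrix.diagonal (fun i => ε i * s i ^ 2)) :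
    (Matrix.of fun j l => (s j : ℂ) * (Complex.exp (-(Real.pi * δ j * I)) * (c j l : ℂ) *
      Complex.exp (-(Real.pi * δ l * I))) * ((s l : ℂ))⁻¹)ᴴ * Matrix.diagonal (fun i => (ε i : ℂ)) *
      (Matrix.of fun j l => (s j : ℂ) * (Complex.exp (-(Real.pi * δ j * I)) * (c j l : ℂ) *
      Complex.exp (-(Real.pi * δ l * I))) * ((s l : ℂ))⁻¹) = Matrix.diagonal (fun i => (ε i : ℂ)) := by
  have he : ∀ k, (starRingEnd ℂ) (Complex.exp (-(Real.pi * δ k * I))) * Complex.exp (-(Real.pi * δ k * I)) = 1 := by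
    intro k
    rw [← Complex.exp_conj, ← Complex.exp_add]
    simp
  ext j l
  rw [Matrix.mul_apply]
  simp only [Matrix.mul_diagonal, Matrix.conjTranspose_apply, Matrix.of_apply]
  have hcj := congrFun (congrFun hc j) l
  rw [Matrix.mul_apply] at hcj
  simp only [Matrix.mul_diagonal, Matrix.transpose_apply] at hcj
  have hcj' : ∑ k, (c k j : ℂ) * ((ε k : ℂ) * (s k : ℂ) ^ 2) * (c k l : ℂ) =
      ((Matrix.diagonal (fun i => ε i * s i ^ 2) j l : ℝ) : ℂ) := by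
    rw [← hcj]
    push_cast
    rfl
  have hterm : ∀ k, star ((s k : ℂ) * (Complex.exp (-(Real.pi * δ k * I)) * (c k j : ℂ) *
      Complex.exp (-(Real.pi * δ j * I))) * ((s j : ℂ))⁻¹) * (ε k : ℂ) * ((s k : ℂ) * (Complex.exp (-(Real.pi * δ k * I)) * (c k l : ℂ) *
      Complex.exp (-(Real.pi * δ l * I))) * ((s l : ℂ))⁻¹) =
      ((starRingEnd ℂ) (Complex.exp (-(Real.pi * δ j * I))) * Complex.exp (-(Real.pi * δ l * I)) * ((s j : ℂ))⁻¹ * ((s l : ℂ))⁻¹) *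
      ((c k j : ℂ) * ((ε k : ℂ) * (s k : ℂ) ^ 2) * (c k l : ℂ)) := by
    intro k
    have h := he k
    simp only [star_mul', star_inv₀]
    rw [show star ((s k : ℂ)) = (s k : ℂ) from Complex.conj_ofReal _, show star ((s j : ℂ)) = (s j : ℂ) from Complex.conj_ofReal _,
      show star ((c k j : ℂ)) = (c k j : ℂ) from Complex.conj_ofReal _]
    change (s k : ℂ) * ((starRingEnd ℂ) (Complex.exp (-(Real.pi * δ k * I))) * (c k j : ℂ) * (starRingEnd ℂ) (Complex.exp (-(Real.pi * δ j * I)))) * ((s j : ℂ))⁻¹ * (ε k : ℂ) *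
      ((s k : ℂ) * (Complex.exp (-(Real.pi * δ k * I)) * (c k l : ℂ) *
      Complex.exp (-(Real.pi * δ l * I))) * ((s l : ℂ))⁻¹) = _
    linear_combination ((s k : ℂ) ^ 2 * (c k j : ℂ) * (starRingEnd ℂ) (Complex.exp (-(Real.pi * δ j * I))) * ((s j : ℂ))⁻¹ * (ε k : ℂ) * (c k l : ℂ) *
      Complex.exp (-(Real.pi * δ l * I)) * ((s l : ℂ))⁻¹) * h
  rw [Finset.sum_congr rfl (fun k _ => hterm k), ← Finset.mul_sum, hcj']
  by_cases hjl : j = l
  · subst hjl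
    have hsj : (s j : ℂ) ≠ 0 := by exact_mod_cast (hs j).ne'
    simp only [Matrix.diagonal_apply_eq]
    rw [he j]
    push_cast
    field_simp
  · simp [Matrix.diagonal_apply_ne _ hjl]

theorem corner_pres {n : ℕ} {v : Matrix (Fin n) (Fin n) ℝ} (hdet : v.det ≠ 0) (d h : Fin n → ℝ)
    (hG : ∀ i j, d i * (vᵀ * Matrix.diagonal h * v) i j * d j = (vᵀ * Matrix.diagonal h * v) i j) :
    (v * Matrix.diagonal d * v⁻¹)ᵀ * Matrix.diagonal h * (v * Matrix.diagonal d * v⁻¹) = Matrix.diagonal h := by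
  have hu : IsUnit v.det := isUnit_iff_ne_zero.2 hdet
  have h1 : Matrix.diagonal d * (vᵀ * Matrix.diagonal h * v) * Matrix.diagonal d = vᵀ * Matrix.diagonal h * v := by
    ext i j
    rw [Matrix.mul_diagonal, Matrix.diagonal_mul]
    exact hG i j
  calc (v * Matrix.diagonal d * v⁻¹)ᵀ * Matrix.diagonal h * (v * Matrix.diagonal d * v⁻¹)
      = v⁻¹ᵀ * (Matrix.diagonal d * (vᵀ * Matrix.diagonal h * v) * Matrix.diagonal d) * v⁻¹ := by
        rw [Matrix.transpose_mul, Matrix.transpose_mul, Matrix.diagonal_transpose]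
        simp only [Matrix.mul_assoc]
    _ = v⁻¹ᵀ * (vᵀ * Matrix.diagonal h * v) * v⁻¹ := by rw [h1]
    _ = (v * v⁻¹)ᵀ * Matrix.diagonal h * (v * v⁻¹) := by
        rw [Matrix.transpose_mul]
        simp only [Matrix.mul_assoc]
    _ = Matrix.diagonal h := by
        rw [Matrix.mul_nonsing_inv _ hu]
        simp

/-- if the real matrix `c` preserves `H = diag h` then `M = E c E` (`E` a diagonal matrix of phases), normalised by square
roots of `h`, is in `U(1,2)`. With `x_j = A_j √|h_j|`: the vector `(A₀, √h₁ A₁, √h₂ A₂)(Iτ) = M' (A₀, √h₁ A₁, √h₂ A₂)(τ)` -/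
theorem unit3 {δ : Fin 3 → ℝ} {h1 h2 : ℝ} (hh1 : 0 < h1) (hh2 : 0 < h2) {v : Matrix (Fin 3) (Fin 3) ℝ}
    (hdet : v.det ≠ 0) (e01 : - v 0 0 * v 0 1 + h1 * (v 1 0 * v 1 1) + h2 * (v 2 0 * v 2 1) = 0)
    (e12 : - v 0 1 * v 0 2 + h1 * (v 1 1 * v 1 2) + h2 * (v 2 1 * v 2 2) = 0) {A : Fin 3 → ℂ → ℂ} {U : Set ℂ}
    (hrel : ∀ j, ∀ τ ∈ U, A j (I * τ) =
      ∑ l, (Complex.exp (-(Real.pi * δ j * I)) * (((v * Matrix.diagonal ![1, -1, 1] * v⁻¹ : Matrix (Fin 3) (Fin 3) ℝ) j l : ℝ) : ℂ) *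
        Complex.exp (-(Real.pi * δ l * I))) * A l τ) :
    ∃ M : Matrix (Fin 3) (Fin 3) ℂ, U3 M ∧ ∀ τ ∈ U,
      A 0 (I * τ) = M 0 0 * A 0 τ + M 0 1 * (Real.sqrt h1 * A 1 τ) + M 0 2 * (Real.sqrt h2 * A 2 τ) ∧
      Real.sqrt h1 * A 1 (I * τ) = M 1 0 * A 0 τ + M 1 1 * (Real.sqrt h1 * A 1 τ) + M 1 2 * (Real.sqrt h2 * A 2 τ) ∧
      Real.sqrt h2 * A 2 (I * τ) = M 2 0 * A 0 τ + M 2 1 * (Real.sqrt h1 * A 1 τ) + M 2 2 * (Real.sqrt h2 * A 2 τ) := by
  set c : Matrix (Fin 3) (Fin 3) ℝ := v * Matrix.diagonal ![1, -1, 1] * v⁻¹ with hcdef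
  have hpres : cᵀ * Matrix.diagonal ![-1, h1, h2] * c = Matrix.diagonal ![-1, h1, h2] := by
    apply corner_pres hdet
    have g01 : (vᵀ * Matrix.diagonal ![-1, h1, h2] * v) 0 1 = 0 := by
      simp [Matrix.mul_apply, Fin.sum_univ_three, Matrix.diagonal_apply]
      linarith
    have g10 : (vᵀ * Matrix.diagonal ![-1, h1, h2] * v) 1 0 = 0 := by
      simp [Matrix.mul_apply, Fin.sum_univ_three, Matrix.diagonal_apply]
      linarith
    have g12 : (vᵀ * Matrix.diagonal ![-1, h1, h2] * v) 1 2 = 0 := by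
      simp [Matrix.mul_apply, Fin.sum_univ_three, Matrix.diagonal_apply]
      linarith
    have g21 : (vᵀ * Matrix.diagonal ![-1, h1, h2] * v) 2 1 = 0 := by
      simp [Matrix.mul_apply, Fin.sum_univ_three, Matrix.diagonal_apply]
      linarith
    intro i j
    fin_cases i <;> fin_cases j <;> simp [g01, g10, g12, g21]
  set s : Fin 3 → ℝ := ![1, Real.sqrt h1, Real.sqrt h2] with hs
  have hspos : ∀ i, 0 < s i := by
    intro i
    fin_cases i
    · simp [hs]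
    · simpa [hs] using hh1
    · simpa [hs] using hh2
  have hdiag : (fun i => (![-1, 1, 1] : Fin 3 → ℝ) i * s i ^ 2) = ![-1, h1, h2] := by
    ext i
    fin_cases i <;> simp [hs, Real.sq_sqrt hh1.le, Real.sq_sqrt hh2.le]
  have hU := corner_unit_gen δ s ![-1, 1, 1] hspos c (by rw [hdiag]; exact hpres)
  have hJ : Matrix.diagonal (fun i => (((![-1, 1, 1] : Fin 3 → ℝ) i : ℝ) : ℂ)) = J3 := by
    unfold J3
    congr 1
    ext i
    fin_cases i <;> simp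
  rw [hJ] at hU
  refine ⟨_, hU, ?_⟩
  intro τ hτ
  have r0 := hrel 0 τ hτ
  have r1 := hrel 1 τ hτ
  have r2 := hrel 2 τ hτ
  rw [Fin.sum_univ_three] at r0 r1 r2
  have s1 : (Real.sqrt h1 : ℂ) ≠ 0 := by exact_mod_cast (Real.sqrt_pos.2 hh1).ne'
  have s2 : (Real.sqrt h2 : ℂ) ≠ 0 := by exact_mod_cast (Real.sqrt_pos.2 hh2).ne'
  have t0 : s 0 = 1 := rfl
  have t1 : s 1 = Real.sqrt h1 := rfl
  have t2 : s 2 = Real.sqrt h2 := rfl
  simp only [Matrix.of_apply, t0, t1, t2]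
  refine ⟨?_, ?_, ?_⟩
  · rw [r0]; push_cast; field_simp
  · rw [r1]; push_cast; field_simp
  · rw [r2]; push_cast; field_simp

theorem unit2 {δ : Fin 2 → ℝ} {g1 : ℝ} (hg1 : 0 < g1) {v : Matrix (Fin 2) (Fin 2) ℝ}
    (hdet : v.det ≠ 0) (e01 : - v 0 0 * v 0 1 + g1 * (v 1 0 * v 1 1) = 0) {A : Fin 2 → ℂ → ℂ} {U : Set ℂ}
    (hrel : ∀ j, ∀ τ ∈ U, A j (I * τ) =
      ∑ l, (Complex.exp (-(Real.pi * δ j * I)) * (((v * Matrix.diagonal ![1, -1] * v⁻¹ : Matrix (Fin 2) (Fin 2) ℝ) j l : ℝ) : ℂ) *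
        Complex.exp (-(Real.pi * δ l * I))) * A l τ) :
    ∃ M : Matrix (Fin 2) (Fin 2) ℂ, U2 M ∧ ∀ τ ∈ U,
      A 0 (I * τ) = M 0 0 * A 0 τ + M 0 1 * (Real.sqrt g1 * A 1 τ) ∧
      Real.sqrt g1 * A 1 (I * τ) = M 1 0 * A 0 τ + M 1 1 * (Real.sqrt g1 * A 1 τ) := by
  set c : Matrix (Fin 2) (Fin 2) ℝ := v * Matrix.diagonal ![1, -1] * v⁻¹ with hcdef
  have hpres : cᵀ * Matrix.diagonal ![-1, g1] * c = Matrix.diagonal ![-1, g1] := by
    apply corner_pres hdet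
    have g01 : (vᵀ * Matrix.diagonal ![-1, g1] * v) 0 1 = 0 := by
      simp [Matrix.mul_apply, Fin.sum_univ_two, Matrix.diagonal_apply]
      linarith
    have g10 : (vᵀ * Matrix.diagonal ![-1, g1] * v) 1 0 = 0 := by
      simp [Matrix.mul_apply, Fin.sum_univ_two, Matrix.diagonal_apply]
      linarith
    intro i j
    fin_cases i <;> fin_cases j <;> simp [g01, g10]
  set s : Fin 2 → ℝ := ![1, Real.sqrt g1] with hs
  have hspos : ∀ i, 0 < s i := by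
    intro i
    fin_cases i
    · simp [hs]
    · simpa [hs] using hg1
  have hdiag : (fun i => (![-1, 1] : Fin 2 → ℝ) i * s i ^ 2) = ![-1, g1] := by
    ext i
    fin_cases i <;> simp [hs, Real.sq_sqrt hg1.le]
  have hU := corner_unit_gen δ s ![-1, 1] hspos c (by rw [hdiag]; exact hpres)
  have hJ : Matrix.diagonal (fun i => (((![-1, 1] : Fin 2 → ℝ) i : ℝ) : ℂ)) = J2 := by
    unfold J2
    congr 1
    ext i
    fin_cases i <;> simp
  rw [hJ] at hU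
  refine ⟨_, hU, ?_⟩
  intro τ hτ
  have r0 := hrel 0 τ hτ
  have r1 := hrel 1 τ hτ
  rw [Fin.sum_univ_two] at r0 r1
  have s1 : (Real.sqrt g1 : ℂ) ≠ 0 := by exact_mod_cast (Real.sqrt_pos.2 hg1).ne'
  have t0 : s 0 = 1 := rfl
  have t1 : s 1 = Real.sqrt g1 := rfl
  simp only [Matrix.of_apply, t0, t1]
  refine ⟨?_, ?_⟩
  · rw [r0]; push_cast; field_simp
  · rw [r1]; push_cast; field_simp

end Pool.Agent.Helper326.HB
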