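import Mathlib
import Pool.Agent.Helper326.HB.Defs
import Pool.Agent.Helper326.HB.N1
import Pool.Agent.Helper326.HB.N2

set_option autoImplicit false
open Complex Metric Set Filter Topology Matrix

namespace Pool.Agent.Helper326.HB

/-- tail of a power series -/
noncomputable def T14449 (c : ℕ → ℝ) (z : ℂ) : ℂ := ∑' k : ℕ, (c (k + 1) : ℂ) * z ^ (k + 1)

theorem term14449 (c : ℕ → ℝ) (d : ℕ → ℝ) (hcd : ∀ k, |c (k + 1)| ≤ d k) (z : ℂ) (hz : ‖z‖ ≤ 1) (k : ℕ) :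
    ‖(c (k + 1) : ℂ) * z ^ (k + 1)‖ ≤ ‖z‖ * d k := by
  have hd0 : 0 ≤ d k := (abs_nonneg _).trans (hcd k)
  rw [norm_mul, Complex.norm_real, norm_pow, Real.norm_eq_abs, pow_succ]
  have h1 : ‖z‖ ^ k ≤ 1 := pow_le_one₀ (norm_nonneg z) hz
  have h2 : ‖z‖ ^ k * ‖z‖ ≤ ‖z‖ := mul_le_of_le_one_left (norm_nonneg z) h1
  calc |c (k + 1)| * (‖z‖ ^ k * ‖z‖) ≤ d k * ‖z‖ := mul_le_mul (hcd k) h2 (by positivity) hd0
    _ = ‖z‖ * d k := mul_comm _ _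

theorem tail14449 (c : ℕ → ℝ) (d : ℕ → ℝ) (hcd : ∀ k, |c (k + 1)| ≤ d k) (hd : Summable d) (z : ℂ)
    (hz : ‖z‖ ≤ 1) : ‖T14449 c z‖ ≤ ‖z‖ * ∑' k, d k := by
  unfold T14449
  exact tsum_of_norm_bounded (hd.hasSum.mul_left ‖z‖) (term14449 c d hcd z hz)

theorem summ14449 (c : ℕ → ℝ) (hc : Summable (fun k => |c k|)) (z : ℂ) (hz : ‖z‖ ≤ 1) :
    Summable (fun k : ℕ => (c k : ℂ) * z ^ k) := by
  apply Summable.of_norm_bounded hc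
  intro k
  rw [norm_mul, Complex.norm_real, norm_pow, Real.norm_eq_abs]
  exact mul_le_of_le_one_right (abs_nonneg _) (pow_le_one₀ (norm_nonneg z) hz)

theorem P_eq14449 {n : ℕ} (δ : Fin n → ℝ) (j : Fin n) (hs : Summable (fun k => |hc δ j k|)) (z : ℂ)
    (hz : ‖z‖ ≤ 1) : P δ j z = 1 + T14449 (hc δ j) z := by
  unfold P T14449
  rw [(summ14449 (hc δ j) hs z hz).tsum_eq_zero_add]
  simp [hc]

theorem sF14449 (j : Fin 3) : Summable (fun k => |hc dF j k|) := by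
  have : (fun k => |hc dF j k|) = fun k => hc dF j k := by
    funext k
    exact abs_of_pos (coefF_pos j k)
  rw [this]
  exact coefF_summable j

theorem sF1_14449 (j : Fin 3) : Summable (fun k => hc dF j (k + 1)) :=
  (summable_nat_add_iff 1).mpr (coefF_summable j)

theorem TF14449 (j : Fin 3) (z : ℂ) (hz : ‖z‖ ≤ 1) :
    ‖T14449 (hc dF j) z‖ ≤ ‖z‖ * ∑' k, hc dF j (k + 1) :=
  tail14449 _ _ (fun k => (abs_of_pos (coefF_pos j (k + 1))).le) (sF1_14449 j) z hz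

theorem TU14449 (j : Fin 3) (z : ℂ) (hz : ‖z‖ ≤ 1) :
    ‖T14449 (hc dU j) z‖ ≤ ‖z‖ * ∑' k, |hc dU j (k + 1)| :=
  tail14449 _ _ (fun k => le_rfl) ((summable_nat_add_iff 1).mpr (coefU_summable j)) z hz

theorem mulb14449 (r s b : ℝ) (hr0 : 0 ≤ r) (hr : r ≤ 1) (hs : s ≤ b) (hb : 0 ≤ b) : r * s ≤ b :=
  (mul_le_mul_of_nonneg_left hs hr0).trans (mul_le_of_le_one_left hb hr)

/-- TARGET 1: easy bounds -/
theorem P_bounds {z : ℂ} (hz : z ∈ closedBall (0 : ℂ) 1) :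
    0.895 ≤ ‖P dF 0 z‖ ∧ ‖P dF 0 z‖ ≤ 1.105 ∧ ‖P dF 1 z‖ ≤ 1.24 ∧ ‖P dF 2 z‖ ≤ 1.8 ∧
      0.9815 ≤ ‖P dU 0 z‖ ∧ ‖P dU 2 z‖ ≤ 1.65 := by
  rw [mem_closedBall_zero_iff] at hz
  have hn := norm_nonneg z
  have h0 := (TF14449 0 z hz).trans (mulb14449 _ _ 0.105 hn hz coefF_sum0 (by norm_num))
  have h1 := (TF14449 1 z hz).trans (mulb14449 _ _ 0.24 hn hz coefF_sum1 (by norm_num))
  have h2 := (TF14449 2 z hz).trans (mulb14449 _ _ 0.8 hn hz coefF_sum2 (by norm_num))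
  have u0 := (TU14449 0 z hz).trans (mulb14449 _ _ 0.0185 hn hz coefU_sum0 (by norm_num))
  have u2 := (TU14449 2 z hz).trans (mulb14449 _ _ 0.65 hn hz coefU_sum2 (by norm_num))
  rw [P_eq14449 dF 0 (sF14449 0) z hz, P_eq14449 dF 1 (sF14449 1) z hz, P_eq14449 dF 2 (sF14449 2) z hz,
    P_eq14449 dU 0 (coefU_summable 0) z hz, P_eq14449 dU 2 (coefU_summable 2) z hz]
  have hlow : ∀ w : ℂ, 1 - ‖w‖ ≤ ‖1 + w‖ := by
    intro w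
    have := norm_sub_norm_le (1 : ℂ) (-w)
    rw [norm_one, norm_neg, sub_neg_eq_add] at this
    exact this
  have hup : ∀ w : ℂ, ‖1 + w‖ ≤ 1 + ‖w‖ := by
    intro w
    have := norm_add_le (1 : ℂ) w
    rwa [norm_one] at this
  refine ⟨?_, ?_, ?_, ?_, ?_, ?_⟩
  · linarith [hlow (T14449 (hc dF 0) z)]
  · linarith [hup (T14449 (hc dF 0) z)]
  · linarith [hup (T14449 (hc dF 1) z)]
  · linarith [hup (T14449 (hc dF 2) z)]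
  · linarith [hlow (T14449 (hc dU 0) z)]
  · linarith [hup (T14449 (hc dU 2) z)]

theorem rp14449 (z : ℂ) (hz : ‖z‖ ≤ 1) (a : ℝ) (ha : 0 ≤ a) : 0 ≤ ‖z‖ ^ a ∧ ‖z‖ ^ a ≤ 1 :=
  ⟨Real.rpow_nonneg (norm_nonneg z) a, Real.rpow_le_one (norm_nonneg z) hz ha⟩

/-- TARGET 2 -/
theorem NF_lower {h1 h2 : ℝ} (h1l : 0.345 ≤ h1) (h1u : h1 ≤ 0.36) (h2l : 0.0006 ≤ h2)
    (h2u : h2 ≤ 0.00095) {z : ℂ} (hz : z ∈ closedBall (0 : ℂ) 1) : 0.2 ≤ NF h1 h2 z := by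
  obtain ⟨b1, b2, b3, b4, b5, b6⟩ := P_bounds hz
  rw [mem_closedBall_zero_iff] at hz
  obtain ⟨r1, r2⟩ := rp14449 z hz (2 / 9) (by norm_num)
  obtain ⟨r3, r4⟩ := rp14449 z hz (8 / 9) (by norm_num)
  unfold NF
  have e0 : 0.895 ^ 2 ≤ ‖P dF 0 z‖ ^ 2 := pow_le_pow_left₀ (by norm_num) b1 2
  have e1 : ‖P dF 1 z‖ ^ 2 ≤ 1.24 ^ 2 := pow_le_pow_left₀ (norm_nonneg _) b3 2
  have e2 : ‖P dF 2 z‖ ^ 2 ≤ 1.8 ^ 2 := pow_le_pow_left₀ (norm_nonneg _) b4 2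
  have f1 : h1 * ‖z‖ ^ (2 / 9 : ℝ) * ‖P dF 1 z‖ ^ 2 ≤ (0.36 * 1) * 1.24 ^ 2 := by
    apply mul_le_mul _ e1 (by positivity) (by norm_num)
    exact mul_le_mul h1u r2 r1 (by norm_num)
  have f2 : h2 * ‖z‖ ^ (8 / 9 : ℝ) * ‖P dF 2 z‖ ^ 2 ≤ (0.00095 * 1) * 1.8 ^ 2 := by
    apply mul_le_mul _ e2 (by positivity) (by norm_num)
    exact mul_le_mul h2u r4 r3 (by norm_num)
  norm_num at e0 f1 f2 ⊢
  linarith

theorem GF_lower2_14449 {h1 h2 : ℝ} (h1l : 0.345 ≤ h1) (h1u : h1 ≤ 0.36) (h2l : 0.0006 ≤ h2)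
    (h2u : h2 ≤ 0.00095) {z : ℂ} (hz : z ∈ closedBall (0 : ℂ) 1) : 0.94 * h1 ≤ GF h1 h2 z := by
  obtain ⟨b1, b2, b3, b4, b5, b6⟩ := P_bounds hz
  rw [mem_closedBall_zero_iff] at hz
  obtain ⟨r1, r2⟩ := rp14449 z hz (6 / 9) (by norm_num)
  obtain ⟨r3, r4⟩ := rp14449 z hz (8 / 9) (by norm_num)
  unfold GF
  have h10 : 0 ≤ h1 := by linarith
  have h20 : 0 ≤ h2 := by linarith
  have e0 : 0.9815 ^ 2 ≤ ‖P dU 0 z‖ ^ 2 := pow_le_pow_left₀ (by norm_num) b5 2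
  have e2 : ‖P dU 2 z‖ ^ 2 ≤ 1.65 ^ 2 := pow_le_pow_left₀ (norm_nonneg _) b6 2
  have f0 : h1 * 0.9815 ^ 2 ≤ h1 * ‖P dU 0 z‖ ^ 2 := mul_le_mul_of_nonneg_left e0 h10
  have f1 : 0 ≤ 16 * h2 * ‖z‖ ^ (6 / 9 : ℝ) * ‖P dU 1 z‖ ^ 2 := by positivity
  have f2 : 9 * h1 * h2 * ‖z‖ ^ (8 / 9 : ℝ) * ‖P dU 2 z‖ ^ 2 ≤ (9 * h1 * 0.00095 * 1) * 1.65 ^ 2 := by
    apply mul_le_mul _ e2 (by positivity) (by positivity)
    apply mul_le_mul _ r4 r3 (by positivity)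
    exact mul_le_mul_of_nonneg_left h2u (by positivity)
  norm_num at f0 f2 ⊢
  nlinarith

/-- TARGET 3 -/
theorem GF_lower {h1 h2 : ℝ} (h1l : 0.345 ≤ h1) (h1u : h1 ≤ 0.36) (h2l : 0.0006 ≤ h2)
    (h2u : h2 ≤ 0.00095) {z : ℂ} (hz : z ∈ closedBall (0 : ℂ) 1) : 0.9 * h1 ≤ GF h1 h2 z := by
  have := GF_lower2_14449 h1l h1u h2l h2u hz
  norm_num at this ⊢
  linarith

theorem T_sub14449 (t : ℝ) (z : ℂ) (hz : ‖z‖ ≤ 1) :
    T14449 (hc dF 0) z - (t : ℂ) * T14449 (hc dF 1) z = T14449 (fun k => hc dF 0 k - t * hc dF 1 k) z := by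
  unfold T14449
  have s0 := (summable_nat_add_iff 1).mpr (summ14449 (hc dF 0) (sF14449 0) z hz)
  have s1 := (summable_nat_add_iff 1).mpr (summ14449 (hc dF 1) (sF14449 1) z hz)
  rw [← tsum_mul_left, ← s0.tsum_sub (s1.mul_left (t : ℂ))]
  congr 1
  funext k
  push_cast
  ring

theorem sqn14449 (w : ℂ) : ‖1 + w‖ ^ 2 = 1 + 2 * w.re + ‖w‖ ^ 2 := by
  rw [← Complex.normSq_eq_norm_sq, ← Complex.normSq_eq_norm_sq, Complex.normSq_apply, Complex.normSq_apply]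
  simp
  ring

theorem NF_upper14449 {h1 h2 : ℝ} (h1l : 0.345 ≤ h1) (h1u : h1 ≤ 0.36) (h2l : 0.0006 ≤ h2)
    {z : ℂ} (hz : ‖z‖ ≤ 1) :
    NF h1 h2 z ≤ 1.076125 - 0.345 * ‖z‖ ^ (2 / 9 : ℝ) := by
  have hn := norm_nonneg z
  obtain ⟨r1, r2⟩ := rp14449 z hz (2 / 9) (by norm_num)
  have hr4 : ‖z‖ ≤ (‖z‖ ^ (2 / 9 : ℝ)) ^ 4 := by
    have h1 : (‖z‖ ^ (2 / 9 : ℝ)) ^ 4 = ‖z‖ ^ (8 / 9 : ℝ) := by
      rw [← Real.rpow_natCast, ← Real.rpow_mul hn]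
      norm_num
    rw [h1]
    calc ‖z‖ = ‖z‖ ^ (1 : ℝ) := (Real.rpow_one _).symm
      _ ≤ ‖z‖ ^ (8 / 9 : ℝ) := Real.rpow_le_rpow_of_exponent_ge' hn hz (by norm_num) (by norm_num)
  set ρ := ‖z‖ ^ (2 / 9 : ℝ) with hρ
  set t := h1 * ρ with ht
  have ht0 : 0 ≤ t := mul_nonneg (by linarith) r1
  have ht1 : t ≤ 0.36 := by
    calc t ≤ 0.36 * 1 := mul_le_mul h1u r2 r1 (by norm_num)
      _ = 0.36 := by norm_num
  have hαβ : ‖T14449 (hc dF 0) z - (t : ℂ) * T14449 (hc dF 1) z‖ ≤ ‖z‖ * ((1 - 2 * t) * 0.105) := by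
    rw [T_sub14449 t z hz]
    have hb : ∀ k, |hc dF 0 (k + 1) - t * hc dF 1 (k + 1)| ≤ (1 - 2 * t) * hc dF 0 (k + 1) := by
      intro k
      obtain ⟨c1, c2⟩ := coefF_ratio k
      have c0 := coefF_pos 0 (k + 1)
      have c3 := coefF_pos 1 (k + 1)
      rw [abs_le]
      constructor
      · have h5 : t * hc dF 1 (k + 1) ≤ 0.36 * (2.7 * hc dF 0 (k + 1)) := mul_le_mul ht1 c2 c3.le (by norm_num)
        have h6 : (1 - 2 * t) * hc dF 0 (k + 1) ≥ 0.28 * hc dF 0 (k + 1) := by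
          apply mul_le_mul_of_nonneg_right _ c0.le
          norm_num at ht1 ⊢
          linarith
        norm_num at h5 h6 ⊢
        linarith
      · have h5 : t * (2 * hc dF 0 (k + 1)) ≤ t * hc dF 1 (k + 1) := mul_le_mul_of_nonneg_left c1 ht0
        linarith
    refine (tail14449 _ _ hb ((sF1_14449 0).mul_left _) z hz).trans ?_
    rw [tsum_mul_left]
    apply mul_le_mul_of_nonneg_left _ hn
    apply mul_le_mul_of_nonneg_left coefF_sum0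
    norm_num at ht1 ⊢
    linarith
  have hα : ‖T14449 (hc dF 0) z‖ ≤ ‖z‖ * 0.105 :=
    (TF14449 0 z hz).trans (mul_le_mul_of_nonneg_left coefF_sum0 hn)
  have hre : (T14449 (hc dF 0) z).re - t * (T14449 (hc dF 1) z).re ≤
      ‖T14449 (hc dF 0) z - (t : ℂ) * T14449 (hc dF 1) z‖ := by
    have := Complex.re_le_norm (T14449 (hc dF 0) z - (t : ℂ) * T14449 (hc dF 1) z)
    simpa using this
  unfold NF
  rw [P_eq14449 dF 0 (sF14449 0) z hz, P_eq14449 dF 1 (sF14449 1) z hz, sqn14449, sqn14449]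
  have hlast : 0 ≤ h2 * ‖z‖ ^ (8 / 9 : ℝ) * ‖P dF 2 z‖ ^ 2 := by
    have : 0 ≤ h2 := by linarith
    positivity
  have hβ : 0 ≤ t * ‖T14449 (hc dF 1) z‖ ^ 2 := by positivity
  have hα2 : ‖T14449 (hc dF 0) z‖ ^ 2 ≤ (‖z‖ * 0.105) ^ 2 := pow_le_pow_left₀ (norm_nonneg _) hα 2
  have key : 1 + 2 * (T14449 (hc dF 0) z).re + ‖T14449 (hc dF 0) z‖ ^ 2 -
      t * (1 + 2 * (T14449 (hc dF 1) z).re + ‖T14449 (hc dF 1) z‖ ^ 2) ≤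
      1 - t + 2 * (‖z‖ * ((1 - 2 * t) * 0.105)) + (‖z‖ * 0.105) ^ 2 := by
    nlinarith
  -- polynomial estimates
  have htρ : 0.345 * ρ ≤ t := mul_le_mul_of_nonneg_right h1l r1
  have hz4 : ‖z‖ * (1 - 2 * t) ≤ ρ ^ 4 * (1 - 0.69 * ρ) := by
    have h5 : 1 - 2 * t ≤ 1 - 0.69 * ρ := by norm_num at htρ ⊢; linarith
    have h6 : 0 ≤ 1 - 2 * t := by norm_num at ht1 ⊢; linarith
    exact mul_le_mul hr4 h5 h6 (by positivity)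
  have hp1 : ρ ^ 4 * (1 - 0.69 * ρ) ≤ 0.31 := by
    have h5 : 0 ≤ (1 - ρ) * (0.31 + 0.31 * ρ + 0.31 * ρ ^ 2 + 0.31 * ρ ^ 3 - 0.69 * ρ ^ 4) := by
      apply mul_nonneg (by linarith)
      have h6 : ρ ^ 4 ≤ ρ ^ 3 := pow_le_pow_of_le_one r1 r2 (by norm_num)
      have h7 : ρ ^ 4 ≤ ρ ^ 2 := pow_le_pow_of_le_one r1 r2 (by norm_num)
      have h8 : ρ ^ 4 ≤ 1 := pow_le_one₀ r1 r2
      norm_num
      nlinarith
    norm_num at h5 ⊢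
    nlinarith
  have hp2 : ‖z‖ ^ 2 ≤ 1 := pow_le_one₀ hn hz
  norm_num at key hz4 hp1 htρ ⊢
  nlinarith

theorem poly14449 (ρ : ℝ) (h0 : 0 ≤ ρ) (h1 : ρ ≤ 1) :
    ρ ^ 2 * (1.076125 - 0.345 * ρ) ^ 3 ≤ 0.391 := by
  have e1 : ρ * (1.076125 - 0.345 * ρ) ≤ 0.731125 := by
    norm_num
    nlinarith [mul_nonneg (sub_nonneg.mpr h1) h0]
  have e2 : ρ * (1.076125 - 0.345 * ρ) ^ 2 ≤ 0.53455 := by
    have h2 : 0 ≤ (1076125 / 1000000 : ℝ) ^ 2 - 2 * (1076125 / 1000000) * (345 / 1000) * (1 + ρ) +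
        (345 / 1000) ^ 2 * (1 + ρ + ρ ^ 2) := by
      nlinarith [mul_nonneg (sub_nonneg.mpr h1) h0]
    have h3 := mul_nonneg (sub_nonneg.mpr h1) h2
    have h4 : (1076125 / 1000000 - 345 / 1000 : ℝ) ^ 2 - ρ * (1076125 / 1000000 - 345 / 1000 * ρ) ^ 2 =
      (1 - ρ) * ((1076125 / 1000000 : ℝ) ^ 2 - 2 * (1076125 / 1000000) * (345 / 1000) * (1 + ρ) +
        (345 / 1000) ^ 2 * (1 + ρ + ρ ^ 2)) := by ring
    rw [← h4] at h3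
    have e : (1.076125 - 0.345 * ρ : ℝ) = 1076125 / 1000000 - 345 / 1000 * ρ := by norm_num
    rw [e]
    refine (sub_nonneg.mp h3).trans ?_
    norm_num
  have e3 : 0 ≤ ρ * (1.076125 - 0.345 * ρ) := by
    apply mul_nonneg h0
    norm_num
    linarith
  calc ρ ^ 2 * (1.076125 - 0.345 * ρ) ^ 3 = (ρ * (1.076125 - 0.345 * ρ)) * (ρ * (1.076125 - 0.345 * ρ) ^ 2) := by ring
    _ ≤ 0.731125 * 0.53455 := mul_le_mul e1 e2 (by positivity) (by norm_num)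
    _ ≤ 0.391 := by norm_num

/-- TARGET 4: the main inequality -/
theorem kap_z {h1 h2 : ℝ} (h1l : 0.345 ≤ h1) (h1u : h1 ≤ 0.36) (h2l : 0.0006 ≤ h2)
    (h2u : h2 ≤ 0.00095) {z : ℂ} (hz : z ∈ closedBall (0 : ℂ) 1) :
    144 * h1 * h2 * ‖z‖ ^ (4 / 9 : ℝ) * NF h1 h2 z ^ 3 ≤ 0.6 * GF h1 h2 z ^ 3 := by
  have hN := NF_lower h1l h1u h2l h2u hz
  have hG := GF_lower2_14449 h1l h1u h2l h2u hz
  rw [mem_closedBall_zero_iff] at hz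
  have hNu := NF_upper14449 h1l h1u h2l (h2 := h2) hz
  obtain ⟨r1, r2⟩ := rp14449 z hz (2 / 9) (by norm_num)
  have h49 : ‖z‖ ^ (4 / 9 : ℝ) = (‖z‖ ^ (2 / 9 : ℝ)) ^ 2 := by
    rw [← Real.rpow_natCast, ← Real.rpow_mul (norm_nonneg z)]
    norm_num
  rw [h49]
  set ρ := ‖z‖ ^ (2 / 9 : ℝ) with hρ
  have hp := poly14449 ρ r1 r2
  have hN0 : 0 ≤ NF h1 h2 z := by norm_num at hN; linarith
  have hN3 : ρ ^ 2 * NF h1 h2 z ^ 3 ≤ 0.391 :=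
    (mul_le_mul_of_nonneg_left (pow_le_pow_left₀ hN0 hNu 3) (by positivity)).trans hp
  have h10 : 0 < h1 := by norm_num at h1l; linarith
  have h20 : 0 < h2 := by norm_num at h2l; linarith
  have hG3 : (0.94 * h1) ^ 3 ≤ GF h1 h2 z ^ 3 := pow_le_pow_left₀ (by positivity) hG 3
  have hh : h1 * 0.345 ^ 2 ≤ h1 ^ 3 := by
    have : (0.345 : ℝ) ^ 2 ≤ h1 ^ 2 := pow_le_pow_left₀ (by norm_num) h1l 2
    calc h1 * 0.345 ^ 2 ≤ h1 * h1 ^ 2 := mul_le_mul_of_nonneg_left this h10.le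
      _ = h1 ^ 3 := by ring
  calc 144 * h1 * h2 * ρ ^ 2 * NF h1 h2 z ^ 3 = (144 * h1 * h2) * (ρ ^ 2 * NF h1 h2 z ^ 3) := by ring
    _ ≤ (144 * h1 * 0.00095) * 0.391 := by
      apply mul_le_mul _ hN3 (by positivity) (by positivity)
      exact mul_le_mul_of_nonneg_left h2u (by positivity)
    _ ≤ 0.6 * (0.94 ^ 3 * (h1 * 0.345 ^ 2)) := by
      norm_num
      nlinarith
    _ ≤ 0.6 * (0.94 ^ 3 * h1 ^ 3) := by
      apply mul_le_mul_of_nonneg_left _ (by norm_num)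
      exact mul_le_mul_of_nonneg_left hh (by norm_num)
    _ = 0.6 * (0.94 * h1) ^ 3 := by ring
    _ ≤ 0.6 * GF h1 h2 z ^ 3 := mul_le_mul_of_nonneg_left hG3 (by norm_num)

end Pool.Agent.Helper326.HB
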