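import Mathlib
import Pool.Agent.Helper326.HB.Defs

set_option autoImplicit false
open Complex Metric Set Filter Topology Matrix

namespace Pool.Agent.Helper326.HB

lemma altF0_core (b P Q : ℕ → ℝ) (hP : ∀ k, 0 < P k) (hQ : ∀ k, 0 < Q k) (h0 : 0 < b 0)
    (hb : ∀ k, b (k + 1) * Q k = b k * P k) (hPQ : ∀ k, P k ≤ Q k)
    (hc : ∀ k, 0 ≤ P k * P (k + 1) - 2 * (P k * Q (k + 1)) + Q k * Q (k + 1)) :
    (∀ k, 0 < b k) ∧ (∀ k, b (k + 1) ≤ b k) ∧
      (∀ k, b (k + 1) - b (k + 2) ≤ b k - b (k + 1)) := by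
  have hpos : ∀ k, 0 < b k := by
    intro k
    induction k with
    | zero => exact h0
    | succ k ih =>
      have h1 : 0 < b (k + 1) * Q k := by
        rw [hb k]; exact mul_pos ih (hP k)
      exact (mul_pos_iff_of_pos_right (hQ k)).1 h1
  refine ⟨hpos, fun k => ?_, fun k => ?_⟩
  · have h1 : b (k + 1) * Q k ≤ b k * Q k := by
      rw [hb k]; exact mul_le_mul_of_nonneg_left (hPQ k) (hpos k).le
    exact le_of_mul_le_mul_right h1 (hQ k)
  · have h1 := hb k
    have h2 := hb (k + 1)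
    have h3 : 0 ≤ (b k - 2 * b (k + 1) + b (k + 2)) * (Q k * Q (k + 1)) := by
      have e : (b k - 2 * b (k + 1) + b (k + 2)) * (Q k * Q (k + 1)) =
          b k * (P k * P (k + 1) - 2 * (P k * Q (k + 1)) + Q k * Q (k + 1)) := by
        have e1 : b (k + 1 + 1) = b (k + 2) := rfl
        rw [e1] at h2
        linear_combination (-2 * Q (k + 1) + P (k + 1)) * h1 + Q k * h2
      rw [e]
      exact mul_nonneg (hpos k).le (hc k)
    have h4 : 0 < Q k * Q (k + 1) := mul_pos (hQ k) (hQ (k + 1))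
    have h5 : 0 ≤ b k - 2 * b (k + 1) + b (k + 2) := nonneg_of_mul_nonneg_left h3 h4
    linarith

lemma altF0_abel (b : ℕ → ℝ) (δ : ℝ) (V : ℝ → ℝ)
    (hV : ∀ x, V x = ∑' k : ℕ, (-1) ^ k * b k * Real.exp ((δ + k) * x))
    (hpos : ∀ k, 0 < b k) (hanti : ∀ k, b (k + 1) ≤ b k)
    (hconv : ∀ k, b (k + 1) - b (k + 2) ≤ b k - b (k + 1)) {v : ℝ}
    (hv : Tendsto V (𝓝[<] 0) (𝓝 v)) (m : ℕ) :
    (b 0 + ∑ i ∈ Finset.range (2 * m), (-1) ^ i * (b i - b (i + 1))) / 2 ≤ v ∧
      v ≤ (b 0 + ∑ i ∈ Finset.range (2 * m + 1), (-1) ^ i * (b i - b (i + 1))) / 2 := by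
  have hA : Antitone b := antitone_nat_of_succ_le hanti
  have hfA : Antitone fun k => b k - b (k + 1) := antitone_nat_of_succ_le hconv
  have hbdd : BddBelow (range b) := ⟨0, by rintro _ ⟨k, rfl⟩; exact (hpos k).le⟩
  have hL := tendsto_atTop_ciInf hA hbdd
  have hf0 : Tendsto (fun k => b k - b (k + 1)) atTop (𝓝 0) := by
    have h1 := hL.sub (hL.comp (tendsto_add_atTop_nat 1))
    rw [sub_self] at h1
    exact h1
  obtain ⟨F, hF⟩ := hfA.tendsto_alternating_series_of_tendsto_zero hf0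
  have hAb := Real.tendsto_tsum_powerSeries_nhdsWithin_lt hF
  have hexp0 : Tendsto Real.exp (𝓝[<] 0) (𝓝 1) := by
    have h1 := Real.continuous_exp.tendsto 0
    rw [Real.exp_zero] at h1
    exact h1.mono_left nhdsWithin_le_nhds
  have hexp : Tendsto Real.exp (𝓝[<] 0) (𝓝[<] 1) := by
    rw [tendsto_nhdsWithin_iff]
    refine ⟨hexp0, ?_⟩
    filter_upwards [self_mem_nhdsWithin] with x hx
    rw [mem_Iio, ← Real.exp_zero]; exact Real.exp_lt_exp.2 hx
  have hδ : Tendsto (fun x : ℝ => Real.exp (δ * x)) (𝓝[<] 0) (𝓝 1) := by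
    have h1 : Continuous fun x : ℝ => Real.exp (δ * x) := by fun_prop
    have h2 := h1.tendsto 0
    simp only [mul_zero, Real.exp_zero] at h2
    exact h2.mono_left nhdsWithin_le_nhds
  have hid : ∀ x : ℝ, x < 0 → (1 + Real.exp x) * V x =
      Real.exp (δ * x) * (b 0 + Real.exp x *
        ∑' n : ℕ, ((-1) ^ n * (b n - b (n + 1))) * Real.exp x ^ n) := by
    intro x hx
    set y := Real.exp x with hy
    have hy0 : 0 < y := Real.exp_pos x
    have hy1 : y < 1 := by rw [hy, ← Real.exp_zero]; exact Real.exp_lt_exp.2 hx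
    have hs : Summable fun k : ℕ => (-1) ^ k * b k * y ^ k := by
      refine Summable.of_norm_bounded (g := fun k => b 0 * y ^ k)
        ((summable_geometric_of_lt_one hy0.le hy1).mul_left _) fun k => ?_
      rw [norm_mul, norm_mul, norm_pow, norm_neg, norm_one, one_pow, one_mul, Real.norm_eq_abs,
        Real.norm_eq_abs, abs_of_pos (hpos k), abs_of_pos (pow_pos hy0 k)]
      exact mul_le_mul_of_nonneg_right (hA (Nat.zero_le k)) (pow_pos hy0 k).le
    have e1 : V x = Real.exp (δ * x) * ∑' k : ℕ, (-1) ^ k * b k * y ^ k := by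
      rw [hV x, ← tsum_mul_left]
      congr 1
      funext k
      rw [add_mul, Real.exp_add, hy, ← Real.exp_nat_mul]
      ring
    have hs1 : Summable fun k : ℕ => (-1) ^ (k + 1) * b (k + 1) * y ^ (k + 1) :=
      (summable_nat_add_iff 1).2 hs
    have e2 : ∑' k : ℕ, (-1) ^ k * b k * y ^ k = b 0 +
        ∑' k : ℕ, (-1) ^ (k + 1) * b (k + 1) * y ^ (k + 1) := by
      rw [hs.tsum_eq_zero_add]
      simp
    have e3 : y * ∑' k : ℕ, (-1) ^ k * b k * y ^ k = ∑' k : ℕ, y * ((-1) ^ k * b k * y ^ k) :=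
      (tsum_mul_left).symm
    have e4 : y * ∑' n : ℕ, ((-1) ^ n * (b n - b (n + 1))) * y ^ n =
        ∑' n : ℕ, y * (((-1) ^ n * (b n - b (n + 1))) * y ^ n) := (tsum_mul_left).symm
    have e5 : ∑' k : ℕ, (-1) ^ (k + 1) * b (k + 1) * y ^ (k + 1) +
        ∑' k : ℕ, y * ((-1) ^ k * b k * y ^ k) =
        ∑' n : ℕ, y * (((-1) ^ n * (b n - b (n + 1))) * y ^ n) := by
      rw [← hs1.tsum_add (hs.mul_left y)]
      congr 1
      funext k
      ring
    rw [e1]
    have e6 : (1 + y) * (Real.exp (δ * x) * ∑' k : ℕ, (-1) ^ k * b k * y ^ k) =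
        Real.exp (δ * x) * (∑' k : ℕ, (-1) ^ k * b k * y ^ k +
          y * ∑' k : ℕ, (-1) ^ k * b k * y ^ k) := by ring
    rw [e6, e3, e4, ← e5]
    conv_lhs => rw [e2]
    ring
  have hlim1 : Tendsto (fun x => (1 + Real.exp x) * V x) (𝓝[<] 0) (𝓝 ((1 + 1) * v)) :=
    (tendsto_const_nhds.add hexp0).mul hv
  have hlim2 : Tendsto (fun x => Real.exp (δ * x) * (b 0 + Real.exp x *
      ∑' n : ℕ, ((-1) ^ n * (b n - b (n + 1))) * Real.exp x ^ n)) (𝓝[<] 0)
      (𝓝 (1 * (b 0 + 1 * F))) :=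
    hδ.mul (tendsto_const_nhds.add (hexp0.mul (hAb.comp hexp)))
  have hlim3 : Tendsto (fun x => (1 + Real.exp x) * V x) (𝓝[<] 0) (𝓝 (1 * (b 0 + 1 * F))) := by
    refine hlim2.congr' ?_
    filter_upwards [self_mem_nhdsWithin] with x hx
    exact (hid x hx).symm
  have hveq : (1 + 1) * v = 1 * (b 0 + 1 * F) := tendsto_nhds_unique hlim1 hlim3
  have h1 := hfA.alternating_series_le_tendsto hF m
  have h2 := hfA.tendsto_le_alternating_series hF m
  constructor
  · linarith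
  · linarith

lemma altF0_rec (k : ℕ) : hc dF 0 (k + 1) = hc dF 0 k *
    (((108 * (k:ℝ) + 14) * (108 * k + 26) * (108 * k + 62)) /
    ((108 * (k:ℝ) + 108) * (108 * k + 96) * (108 * k + 60))) := by
  rw [hc, Fin.prod_univ_three, Fin.prod_univ_three]
  have e0 : dF 0 = 7 / 108 := rfl
  have e1 : dF 1 = 19 / 108 := rfl
  have e2 : dF 2 = 55 / 108 := rfl
  rw [e0, e1, e2]
  have hN : (7 / 108 + (k:ℝ) + 7 / 108) * (7 / 108 + k + 19 / 108) * (7 / 108 + k + 55 / 108) =
    ((108 * (k:ℝ) + 14) * (108 * k + 26) * (108 * k + 62)) / 108 ^ 3 := by ring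
  have hD : (7 / 108 + (k:ℝ) + 1 - 7 / 108) * (7 / 108 + k + 1 - 19 / 108) *
      (7 / 108 + k + 1 - 55 / 108) =
    ((108 * (k:ℝ) + 108) * (108 * k + 96) * (108 * k + 60)) / 108 ^ 3 := by ring
  rw [hN, hD, mul_div_assoc, div_div_div_cancel_right₀ (by norm_num)]

noncomputable def altF0_b (k : ℕ) : ℝ := hc dF 0 k * (dF 0 + k) ^ 1

lemma altF0_bval (k : ℕ) : altF0_b k = hc dF 0 k * ((108 * (k:ℝ) + 7) / 108) := by
  have e : dF 0 = 7 / 108 := rfl
  rw [altF0_b, e]
  ring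

lemma altF0_brec (k : ℕ) : altF0_b (k + 1) * ((108 * (k:ℝ) + 7) * (108 * k + 108) * (108 * k + 96) * (108 * k + 60)) = altF0_b k * ((108 * (k:ℝ) + 115) * (108 * k + 14) * (108 * k + 26) * (108 * k + 62)) := by
  rw [altF0_bval, altF0_bval, altF0_rec]
  push_cast
  have hk : (0:ℝ) ≤ k := Nat.cast_nonneg k
  have h1 : (108 * (k:ℝ) + 108) ≠ 0 := by positivity
  have h2 : (108 * (k:ℝ) + 96) ≠ 0 := by positivity
  have h3 : (108 * (k:ℝ) + 60) ≠ 0 := by positivity
  field_simp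
  ring

lemma altF0_all : (∀ k, 0 < altF0_b k) ∧ (∀ k, altF0_b (k + 1) ≤ altF0_b k) ∧
      (∀ k, altF0_b (k + 1) - altF0_b (k + 2) ≤ altF0_b k - altF0_b (k + 1)) := by
  apply altF0_core altF0_b (fun k => ((108 * (k:ℝ) + 115) * (108 * k + 14) * (108 * k + 26) * (108 * k + 62))) (fun k => ((108 * (k:ℝ) + 7) * (108 * k + 108) * (108 * k + 96) * (108 * k + 60)))
  · intro k; positivity
  · intro k; positivity
  · rw [altF0_bval]
    simp only [hc]
    norm_num
  · intro k; exact altF0_brec k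
  · intro k
    have e : ((108 * (k:ℝ) + 7) * (108 * k + 108) * (108 * k + 96) * (108 * k + 60)) - ((108 * (k:ℝ) + 115) * (108 * k + 14) * (108 * k + 26) * (108 * k + 62)) = 1759240 * (k:ℝ) ^ 0 + 46516464 * (k:ℝ) ^ 1 + 115263648 * (k:ℝ) ^ 2 + 68024448 * (k:ℝ) ^ 3 := by ring
    have h : 0 ≤ ((108 * (k:ℝ) + 7) * (108 * k + 108) * (108 * k + 96) * (108 * k + 60)) - ((108 * (k:ℝ) + 115) * (108 * k + 14) * (108 * k + 26) * (108 * k + 62)) := by rw [e]; positivity
    linarith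
  · intro k
    push_cast
    have e : ((108 * (k:ℝ) + 115) * (108 * k + 14) * (108 * k + 26) * (108 * k + 62)) * ((108 * ((k:ℝ) + 1) + 115) * (108 * ((k:ℝ) + 1) + 14) * (108 * ((k:ℝ) + 1) + 26) * (108 * ((k:ℝ) + 1) + 62)) -
      2 * (((108 * (k:ℝ) + 115) * (108 * k + 14) * (108 * k + 26) * (108 * k + 62)) * ((108 * ((k:ℝ) + 1) + 7) * (108 * ((k:ℝ) + 1) + 108) * (108 * ((k:ℝ) + 1) + 96) * (108 * ((k:ℝ) + 1) + 60))) +
      ((108 * (k:ℝ) + 7) * (108 * k + 108) * (108 * k + 96) * (108 * k + 60)) * ((108 * ((k:ℝ) + 1) + 7) * (108 * ((k:ℝ) + 1) + 108) * (108 * ((k:ℝ) + 1) + 96) * (108 * ((k:ℝ) + 1) + 60)) =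
      896687842859200 * (k:ℝ) ^ 0 + 33518785683617280 * (k:ℝ) ^ 1 + 146917997588844288 * (k:ℝ) ^ 2 + 257273809057612800 * (k:ℝ) ^ 3 + 217801512946621440 * (k:ℝ) ^ 4 + 88690405909340160 * (k:ℝ) ^ 5 + 13881976577114112 * (k:ℝ) ^ 6 := by ring
    rw [e]
    positivity

lemma altF0_v0 : altF0_b 0 = 7 / 108 := by
  rw [altF0_bval]
  simp only [hc]
  norm_num

lemma altF0_v1 : altF0_b 1 = 64883 / 1679616 := by
  have h := altF0_brec 0
  rw [altF0_v0] at h
  norm_num at h
  linarith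

lemma altF0_v2 : altF0_b 2 = 367294603 / 13060694016 := by
  have h := altF0_brec 1
  rw [altF0_v1] at h
  norm_num at h
  linarith

lemma altF0_v3 : altF0_b 3 = 3526667375165 / 152339935002624 := by
  have h := altF0_brec 2
  rw [altF0_v2] at h
  norm_num at h
  linarith

lemma altF0_v4 : altF0_b 4 = 762807658482737725 / 37907050706572935168 := by
  have h := altF0_brec 3
  rw [altF0_v3] at h
  norm_num at h
  linarith

lemma altF0_v5 : altF0_b 5 = 217977897804202155220315 / 12085374278066756898521088 := by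
  have h := altF0_brec 4
  rw [altF0_v4] at h
  norm_num at h
  linarith

lemma altF0_v6 : altF0_b 6 = 246353720258024411279981442709 / 14942163391413289161221096865792 := by
  have h := altF0_brec 5
  rw [altF0_v5] at h
  norm_num at h
  linarith

lemma altF0_v7 : altF0_b 7 = 52368348352080642563424567454206577 / 3427612744683077227270829852237758464 := by
  have h := altF0_brec 6
  rw [altF0_v6] at h
  norm_num at h
  linarith

lemma altF0_v8 : altF0_b 8 = 3049411394427577577604604299512683477405 / 213224933621244868154063783448006478528512 := by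
  have h := altF0_brec 7
  rw [altF0_v7] at h
  norm_num at h
  linarith

theorem altF0 {v : ℝ} (hv : Tendsto (Vr dF 0 1) (𝓝[<] 0) (𝓝 v)) : 0.0415 ≤ v ∧ v ≤ 0.0421 := by
  obtain ⟨h1, h2, h3⟩ := altF0_all
  have hV : ∀ x, Vr dF 0 1 x = ∑' k : ℕ, (-1) ^ k * altF0_b k * Real.exp ((dF 0 + k) * x) := by
    intro x
    rw [Vr]
    congr 1
    funext k
    rw [altF0_b]
    ring
  have hlo := (altF0_abel altF0_b (dF 0) (Vr dF 0 1) hV h1 h2 h3 hv 4).1
  have hhi := (altF0_abel altF0_b (dF 0) (Vr dF 0 1) hV h1 h2 h3 hv 3).2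
  norm_num only [Finset.sum_range_succ, Finset.sum_range_zero] at hlo hhi
  rw [altF0_v0, altF0_v1, altF0_v2, altF0_v3, altF0_v4, altF0_v5, altF0_v6, altF0_v7, altF0_v8] at hlo
  rw [altF0_v0, altF0_v1, altF0_v2, altF0_v3, altF0_v4, altF0_v5, altF0_v6, altF0_v7] at hhi
  norm_num at hlo hhi
  constructor <;> linarith

lemma altF1_rec (k : ℕ) : hc dF 1 (k + 1) = hc dF 1 k *
    (((108 * (k:ℝ) + 26) * (108 * k + 38) * (108 * k + 74)) /
    ((108 * (k:ℝ) + 120) * (108 * k + 108) * (108 * k + 72))) := by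
  rw [hc, Fin.prod_univ_three, Fin.prod_univ_three]
  have e0 : dF 0 = 7 / 108 := rfl
  have e1 : dF 1 = 19 / 108 := rfl
  have e2 : dF 2 = 55 / 108 := rfl
  rw [e0, e1, e2]
  have hN : (19 / 108 + (k:ℝ) + 7 / 108) * (19 / 108 + k + 19 / 108) * (19 / 108 + k + 55 / 108) =
    ((108 * (k:ℝ) + 26) * (108 * k + 38) * (108 * k + 74)) / 108 ^ 3 := by ring
  have hD : (19 / 108 + (k:ℝ) + 1 - 7 / 108) * (19 / 108 + k + 1 - 19 / 108) *
      (19 / 108 + k + 1 - 55 / 108) =
    ((108 * (k:ℝ) + 120) * (108 * k + 108) * (108 * k + 72)) / 108 ^ 3 := by ring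
  rw [hN, hD, mul_div_assoc, div_div_div_cancel_right₀ (by norm_num)]

noncomputable def altF1_b (k : ℕ) : ℝ := hc dF 1 k * (dF 1 + k) ^ 1

lemma altF1_bval (k : ℕ) : altF1_b k = hc dF 1 k * ((108 * (k:ℝ) + 19) / 108) := by
  have e : dF 1 = 19 / 108 := rfl
  rw [altF1_b, e]
  ring

lemma altF1_brec (k : ℕ) : altF1_b (k + 1) * ((108 * (k:ℝ) + 19) * (108 * k + 120) * (108 * k + 108) * (108 * k + 72)) = altF1_b k * ((108 * (k:ℝ) + 127) * (108 * k + 26) * (108 * k + 38) * (108 * k + 74)) := by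
  rw [altF1_bval, altF1_bval, altF1_rec]
  push_cast
  have hk : (0:ℝ) ≤ k := Nat.cast_nonneg k
  have h1 : (108 * (k:ℝ) + 120) ≠ 0 := by positivity
  have h2 : (108 * (k:ℝ) + 108) ≠ 0 := by positivity
  have h3 : (108 * (k:ℝ) + 72) ≠ 0 := by positivity
  field_simp
  ring

lemma altF1_all : (∀ k, 0 < altF1_b k) ∧ (∀ k, altF1_b (k + 1) ≤ altF1_b k) ∧
      (∀ k, altF1_b (k + 1) - altF1_b (k + 2) ≤ altF1_b k - altF1_b (k + 1)) := by
  apply altF0_core altF1_b (fun k => ((108 * (k:ℝ) + 127) * (108 * k + 26) * (108 * k + 38) * (108 * k + 74))) (fun k => ((108 * (k:ℝ) + 19) * (108 * k + 120) * (108 * k + 108) * (108 * k + 72)))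
  · intro k; positivity
  · intro k; positivity
  · rw [altF1_bval]
    simp only [hc]
    norm_num
  · intro k; exact altF1_brec k
  · intro k
    have e : ((108 * (k:ℝ) + 19) * (108 * k + 120) * (108 * k + 108) * (108 * k + 72)) - ((108 * (k:ℝ) + 127) * (108 * k + 26) * (108 * k + 38) * (108 * k + 74)) = 8444056 * (k:ℝ) ^ 0 + 74650032 * (k:ℝ) ^ 1 + 137938464 * (k:ℝ) ^ 2 + 68024448 * (k:ℝ) ^ 3 := by ring
    have h : 0 ≤ ((108 * (k:ℝ) + 19) * (108 * k + 120) * (108 * k + 108) * (108 * k + 72)) - ((108 * (k:ℝ) + 127) * (108 * k + 26) * (108 * k + 38) * (108 * k + 74)) := by rw [e]; positivity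
    linarith
  · intro k
    push_cast
    have e : ((108 * (k:ℝ) + 127) * (108 * k + 26) * (108 * k + 38) * (108 * k + 74)) * ((108 * ((k:ℝ) + 1) + 127) * (108 * ((k:ℝ) + 1) + 26) * (108 * ((k:ℝ) + 1) + 38) * (108 * ((k:ℝ) + 1) + 74)) -
      2 * (((108 * (k:ℝ) + 127) * (108 * k + 26) * (108 * k + 38) * (108 * k + 74)) * ((108 * ((k:ℝ) + 1) + 19) * (108 * ((k:ℝ) + 1) + 120) * (108 * ((k:ℝ) + 1) + 108) * (108 * ((k:ℝ) + 1) + 72))) +
      ((108 * (k:ℝ) + 19) * (108 * k + 120) * (108 * k + 108) * (108 * k + 72)) * ((108 * ((k:ℝ) + 1) + 19) * (108 * ((k:ℝ) + 1) + 120) * (108 * ((k:ℝ) + 1) + 108) * (108 * ((k:ℝ) + 1) + 72)) =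
      6822437611871680 * (k:ℝ) ^ 0 + 76959958863347712 * (k:ℝ) ^ 1 + 250057720478884608 * (k:ℝ) ^ 2 + 365404764144153600 * (k:ℝ) ^ 3 + 269644697077201920 * (k:ℝ) ^ 4 + 97945056960749568 * (k:ℝ) ^ 5 + 13881976577114112 * (k:ℝ) ^ 6 := by ring
    rw [e]
    positivity

lemma altF1_v0 : altF1_b 0 = 19 / 108 := by
  rw [altF1_bval]
  simp only [hc]
  norm_num

lemma altF1_v1 : altF1_b 1 = 1160653 / 12597120 := by
  have h := altF1_brec 0
  rw [altF1_v0] at h
  norm_num at h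
  linarith

lemma altF1_v2 : altF1_b 2 = 10061946167 / 146932807680 := by
  have h := altF1_brec 1
  rw [altF1_v1] at h
  norm_num at h
  linarith

lemma altF1_v3 : altF1_b 3 = 4674845912964227 / 82263564901416960 := by
  have h := altF1_brec 2
  rw [altF1_v2] at h
  norm_num at h
  linarith

lemma altF1_v4 : altF1_b 4 = 19039476758139542705 / 383808888404050968576 := by
  have h := altF1_brec 3
  rw [altF1_v3] at h
  norm_num at h
  linarith

lemma altF1_v5 : altF1_b 5 = 399133573471956261522155 / 8953493748689700994940928 := by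
  have h := altF1_brec 4
  rw [altF1_v4] at h
  norm_num at h
  linarith

lemma altF1_v6 : altF1_b 6 = 12789198536344391782855641121 / 313300653254150017214972952576 := by
  have h := altF1_brec 5
  rw [altF1_v5] at h
  norm_num at h
  linarith

lemma altF1_v7 : altF1_b 7 = 17716681443061914920852425814779145 / 467755368903219942501816898412347392 := by
  have h := altF1_brec 6
  rw [altF1_v6] at h
  norm_num at h
  linarith

lemma altF1_v8 : altF1_b 8 = 774472572649362001157689026642073775263 / 21823594491548629637364769212326479921152 := by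
  have h := altF1_brec 7
  rw [altF1_v7] at h
  norm_num at h
  linarith

lemma altF1_v9 : altF1_b 9 = 153497455134892615769584496734597614183251885 / 4581907310689617889624008025666369112405704704 := by
  have h := altF1_brec 8
  rw [altF1_v8] at h
  norm_num at h
  linarith

lemma altF1_v10 : altF1_b 10 = 1700236893085387223833136732611181477447242620395 / 53443366871883703064574429611372529327100139667456 := by
  have h := altF1_brec 9
  rw [altF1_v9] at h
  norm_num at h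
  linarith

theorem altF1 {v : ℝ} (hv : Tendsto (Vr dF 1 1) (𝓝[<] 0) (𝓝 v)) : 0.1212 ≤ v ∧ v ≤ 0.1222 := by
  obtain ⟨h1, h2, h3⟩ := altF1_all
  have hV : ∀ x, Vr dF 1 1 x = ∑' k : ℕ, (-1) ^ k * altF1_b k * Real.exp ((dF 1 + k) * x) := by
    intro x
    rw [Vr]
    congr 1
    funext k
    rw [altF1_b]
    ring
  have hlo := (altF0_abel altF1_b (dF 1) (Vr dF 1 1) hV h1 h2 h3 hv 5).1
  have hhi := (altF0_abel altF1_b (dF 1) (Vr dF 1 1) hV h1 h2 h3 hv 4).2
  norm_num only [Finset.sum_range_succ, Finset.sum_range_zero] at hlo hhi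
  rw [altF1_v0, altF1_v1, altF1_v2, altF1_v3, altF1_v4, altF1_v5, altF1_v6, altF1_v7, altF1_v8, altF1_v9, altF1_v10] at hlo
  rw [altF1_v0, altF1_v1, altF1_v2, altF1_v3, altF1_v4, altF1_v5, altF1_v6, altF1_v7, altF1_v8, altF1_v9] at hhi
  norm_num at hlo hhi
  constructor <;> linarith

lemma altF2_rec (k : ℕ) : hc dF 2 (k + 1) = hc dF 2 k *
    (((108 * (k:ℝ) + 62) * (108 * k + 74) * (108 * k + 110)) /
    ((108 * (k:ℝ) + 156) * (108 * k + 144) * (108 * k + 108))) := by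
  rw [hc, Fin.prod_univ_three, Fin.prod_univ_three]
  have e0 : dF 0 = 7 / 108 := rfl
  have e1 : dF 1 = 19 / 108 := rfl
  have e2 : dF 2 = 55 / 108 := rfl
  rw [e0, e1, e2]
  have hN : (55 / 108 + (k:ℝ) + 7 / 108) * (55 / 108 + k + 19 / 108) * (55 / 108 + k + 55 / 108) =
    ((108 * (k:ℝ) + 62) * (108 * k + 74) * (108 * k + 110)) / 108 ^ 3 := by ring
  have hD : (55 / 108 + (k:ℝ) + 1 - 7 / 108) * (55 / 108 + k + 1 - 19 / 108) *
      (55 / 108 + k + 1 - 55 / 108) =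
    ((108 * (k:ℝ) + 156) * (108 * k + 144) * (108 * k + 108)) / 108 ^ 3 := by ring
  rw [hN, hD, mul_div_assoc, div_div_div_cancel_right₀ (by norm_num)]

noncomputable def altF2_b (k : ℕ) : ℝ := hc dF 2 k * (dF 2 + k) ^ 1

lemma altF2_bval (k : ℕ) : altF2_b k = hc dF 2 k * ((108 * (k:ℝ) + 55) / 108) := by
  have e : dF 2 = 55 / 108 := rfl
  rw [altF2_b, e]
  ring

lemma altF2_brec (k : ℕ) : altF2_b (k + 1) * ((108 * (k:ℝ) + 55) * (108 * k + 156) * (108 * k + 144) * (108 * k + 108)) = altF2_b k * ((108 * (k:ℝ) + 163) * (108 * k + 62) * (108 * k + 74) * (108 * k + 110)) := by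
  rw [altF2_bval, altF2_bval, altF2_rec]
  push_cast
  have hk : (0:ℝ) ≤ k := Nat.cast_nonneg k
  have h1 : (108 * (k:ℝ) + 156) ≠ 0 := by positivity
  have h2 : (108 * (k:ℝ) + 144) ≠ 0 := by positivity
  have h3 : (108 * (k:ℝ) + 108) ≠ 0 := by positivity
  field_simp
  ring

lemma altF2_all : (∀ k, 0 < altF2_b k) ∧ (∀ k, altF2_b (k + 1) ≤ altF2_b k) ∧
      (∀ k, altF2_b (k + 1) - altF2_b (k + 2) ≤ altF2_b k - altF2_b (k + 1)) := by
  apply altF0_core altF2_b (fun k => ((108 * (k:ℝ) + 163) * (108 * k + 62) * (108 * k + 74) * (108 * k + 110))) (fun k => ((108 * (k:ℝ) + 55) * (108 * k + 156) * (108 * k + 144) * (108 * k + 108)))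
  · intro k; positivity
  · intro k; positivity
  · rw [altF2_bval]
    simp only [hc]
    norm_num
  · intro k; exact altF2_brec k
  · intro k
    have e : ((108 * (k:ℝ) + 55) * (108 * k + 156) * (108 * k + 144) * (108 * k + 108)) - ((108 * (k:ℝ) + 163) * (108 * k + 62) * (108 * k + 74) * (108 * k + 110)) = 51173320 * (k:ℝ) ^ 0 + 189283824 * (k:ℝ) ^ 1 + 205962912 * (k:ℝ) ^ 2 + 68024448 * (k:ℝ) ^ 3 := by ring
    have h : 0 ≤ ((108 * (k:ℝ) + 55) * (108 * k + 156) * (108 * k + 144) * (108 * k + 108)) - ((108 * (k:ℝ) + 163) * (108 * k + 62) * (108 * k + 74) * (108 * k + 110)) := by rw [e]; positivity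
    linarith
  · intro k
    push_cast
    have e : ((108 * (k:ℝ) + 163) * (108 * k + 62) * (108 * k + 74) * (108 * k + 110)) * ((108 * ((k:ℝ) + 1) + 163) * (108 * ((k:ℝ) + 1) + 62) * (108 * ((k:ℝ) + 1) + 74) * (108 * ((k:ℝ) + 1) + 110)) -
      2 * (((108 * (k:ℝ) + 163) * (108 * k + 62) * (108 * k + 74) * (108 * k + 110)) * ((108 * ((k:ℝ) + 1) + 55) * (108 * ((k:ℝ) + 1) + 156) * (108 * ((k:ℝ) + 1) + 144) * (108 * ((k:ℝ) + 1) + 108))) +
      ((108 * (k:ℝ) + 55) * (108 * k + 156) * (108 * k + 144) * (108 * k + 108)) * ((108 * ((k:ℝ) + 1) + 55) * (108 * ((k:ℝ) + 1) + 156) * (108 * ((k:ℝ) + 1) + 144) * (108 * ((k:ℝ) + 1) + 108)) =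
      77544513627824320 * (k:ℝ) ^ 0 + 411802812451450368 * (k:ℝ) ^ 1 + 834072299433508608 * (k:ℝ) ^ 2 + 844041813593932800 * (k:ℝ) ^ 3 + 456023086306974720 * (k:ℝ) ^ 4 + 125709010114977792 * (k:ℝ) ^ 5 + 13881976577114112 * (k:ℝ) ^ 6 := by ring
    rw [e]
    positivity

lemma altF2_v0 : altF2_b 0 = 55 / 108 := by
  rw [altF2_bval]
  simp only [hc]
  norm_num

lemma altF2_v1 : altF2_b 1 = 10282855 / 32752512 := by
  have h := altF2_brec 0
  rw [altF2_v0] at h
  norm_num at h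
  linarith

lemma altF2_v2 : altF2_b 2 = 14399524025 / 58773123072 := by
  have h := altF2_brec 1
  rw [altF2_v1] at h
  norm_num at h
  linarith

lemma altF2_v3 : altF2_b 3 = 426831796695175 / 2056589122535424 := by
  have h := altF2_brec 2
  rw [altF2_v2] at h
  norm_num at h
  linarith

lemma altF2_v4 : altF2_b 4 = 914211396259291588745 / 4989515549252662591488 := by
  have h := altF2_brec 3
  rw [altF2_v3] at h
  norm_num at h
  linarith

lemma altF2_v5 : altF2_b 5 = 5938981383290535749872945 / 35813974994758803979763712 := by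
  have h := altF2_brec 4
  rw [altF2_v4] at h
  norm_num at h
  linarith

lemma altF2_v6 : altF2_b 6 = 382460824024681869480618572825 / 2506405226033200137719783620608 := by
  have h := altF2_brec 5
  rw [altF2_v5] at h
  norm_num at h
  linarith

theorem altF2 {v : ℝ} (hv : Tendsto (Vr dF 2 1) (𝓝[<] 0) (𝓝 v)) : 0.325 ≤ v ∧ v ≤ 0.334 := by
  obtain ⟨h1, h2, h3⟩ := altF2_all
  have hV : ∀ x, Vr dF 2 1 x = ∑' k : ℕ, (-1) ^ k * altF2_b k * Real.exp ((dF 2 + k) * x) := by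
    intro x
    rw [Vr]
    congr 1
    funext k
    rw [altF2_b]
    ring
  have hlo := (altF0_abel altF2_b (dF 2) (Vr dF 2 1) hV h1 h2 h3 hv 3).1
  have hhi := (altF0_abel altF2_b (dF 2) (Vr dF 2 1) hV h1 h2 h3 hv 2).2
  norm_num only [Finset.sum_range_succ, Finset.sum_range_zero] at hlo hhi
  rw [altF2_v0, altF2_v1, altF2_v2, altF2_v3, altF2_v4, altF2_v5, altF2_v6] at hlo
  rw [altF2_v0, altF2_v1, altF2_v2, altF2_v3, altF2_v4, altF2_v5] at hhi
  norm_num at hlo hhi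
  constructor <;> linarith

end Pool.Agent.Helper326.HB
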