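import Mathlib
import Pool.Agent.Helper326.HB.Defs

set_option autoImplicit false
open Complex Metric Set Filter Topology Matrix

namespace Pool.Agent.Helper326.HB

theorem altU_gen (δ0 : ℝ) (hδ : |δ0| ≤ 1) (c N P : ℕ → ℝ)
    (hrec : ∀ k, c (k + 1) = c k * N k / P k) (hP : ∀ k, 0 < P k) (hNP : ∀ k, |N k| ≤ P k)
    (hN : ∀ k, 1 ≤ k → 0 ≤ N k) (hc0 : |c 0| ≤ 1) (hc1 : 0 ≤ c 1)
    (hQ2 : ∀ m : ℕ, 0 ≤ (δ0 + (m + 3)) * (P (m + 3) * P (m + 4))
      - 2 * (δ0 + (m + 4)) * (N (m + 3) * P (m + 4)) + (δ0 + (m + 5)) * (N (m + 3) * N (m + 4)))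
    (hQ3 : ∀ m : ℕ, 0 ≤ (δ0 + (m + 3)) * (P (m + 3) * P (m + 4) * P (m + 5))
      - 3 * (δ0 + (m + 4)) * (N (m + 3) * P (m + 4) * P (m + 5))
      + 3 * (δ0 + (m + 5)) * (N (m + 3) * N (m + 4) * P (m + 5))
      - (δ0 + (m + 6)) * (N (m + 3) * N (m + 4) * N (m + 5)))
    {v : ℝ} (hv : Tendsto (fun x : ℝ => ∑' k : ℕ, (-1) ^ k * c k * (δ0 + k) ^ 1 *
      Real.exp ((δ0 + k) * x)) (𝓝[<] 0) (𝓝 v)) (b : ℕ → ℝ) (hb : ∀ k, b k = (δ0 + k) * c k) :
    b 0 + (2 * b 0 - b 1) + (b 2 - 2 * b 1 + b 0) - (b 3 - 2 * b 2 + b 1)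
      + (b 4 - 2 * b 3 + b 2) - (b 5 - 2 * b 4 + b 3) ≤ 4 * v ∧
    4 * v ≤ b 0 + (2 * b 0 - b 1) + (b 2 - 2 * b 1 + b 0) - (b 3 - 2 * b 2 + b 1)
      + (b 4 - 2 * b 3 + b 2) := by
  have hcb : ∀ k, |c k| ≤ 1 := by
    intro k
    induction k with
    | zero => exact hc0
    | succ k ih =>
      rw [hrec, abs_div, abs_mul, abs_of_pos (hP k), div_le_one (hP k)]
      calc |c k| * |N k| ≤ 1 * P k := mul_le_mul ih (hNP k) (abs_nonneg _) zero_le_one
        _ = P k := one_mul _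
  have hcs : ∀ k, 0 ≤ c (k + 1) := by
    intro k
    induction k with
    | zero => exact hc1
    | succ k ih =>
      rw [hrec]
      exact div_nonneg (mul_nonneg ih (hN _ (by omega))) (hP _).le
  have hbd : ∀ k : ℕ, |b k| ≤ k + 1 := by
    intro k
    rw [hb, abs_mul]
    have h1 : |δ0 + (k:ℝ)| ≤ k + 1 := by
      refine (abs_add_le _ _).trans ?_
      rw [abs_of_nonneg (Nat.cast_nonneg k : (0:ℝ) ≤ k)]
      linarith
    calc |δ0 + (k:ℝ)| * |c k| ≤ (k + 1) * 1 :=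
          mul_le_mul h1 (hcb k) (abs_nonneg _) (by positivity)
      _ = _ := mul_one _
  have h2 : ∀ m, 0 ≤ b (m + 3) - 2 * b (m + 4) + b (m + 5) := by
    intro m
    have e1 : c (m + 4) = c (m + 3) * N (m + 3) / P (m + 3) := hrec (m + 3)
    have e2 : c (m + 5) = c (m + 3) * N (m + 3) / P (m + 3) * N (m + 4) / P (m + 4) := by
      rw [← e1]
      exact hrec (m + 4)
    have p3 := hP (m + 3)
    have p4 := hP (m + 4)
    have e : b (m + 3) - 2 * b (m + 4) + b (m + 5) = c (m + 3) / (P (m + 3) * P (m + 4)) *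
        ((δ0 + (m + 3)) * (P (m + 3) * P (m + 4))
      - 2 * (δ0 + (m + 4)) * (N (m + 3) * P (m + 4))
      + (δ0 + (m + 5)) * (N (m + 3) * N (m + 4))) := by
      rw [hb, hb, hb, e1, e2]
      push_cast
      field_simp
    rw [e]
    exact mul_nonneg (div_nonneg (hcs (m + 2)) (by positivity)) (hQ2 m)
  have h3 : ∀ m, 0 ≤ b (m + 3) - 3 * b (m + 4) + 3 * b (m + 5) - b (m + 6) := by
    intro m
    have e1 : c (m + 4) = c (m + 3) * N (m + 3) / P (m + 3) := hrec (m + 3)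
    have e2 : c (m + 5) = c (m + 3) * N (m + 3) / P (m + 3) * N (m + 4) / P (m + 4) := by
      rw [← e1]
      exact hrec (m + 4)
    have e3 : c (m + 6) = c (m + 3) * N (m + 3) / P (m + 3) * N (m + 4) / P (m + 4)
        * N (m + 5) / P (m + 5) := by
      rw [← e2]
      exact hrec (m + 5)
    have p3 := hP (m + 3)
    have p4 := hP (m + 4)
    have p5 := hP (m + 5)
    have e : b (m + 3) - 3 * b (m + 4) + 3 * b (m + 5) - b (m + 6)
        = c (m + 3) / (P (m + 3) * P (m + 4) * P (m + 5)) *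
        ((δ0 + (m + 3)) * (P (m + 3) * P (m + 4) * P (m + 5))
      - 3 * (δ0 + (m + 4)) * (N (m + 3) * P (m + 4) * P (m + 5))
      + 3 * (δ0 + (m + 5)) * (N (m + 3) * N (m + 4) * P (m + 5))
      - (δ0 + (m + 6)) * (N (m + 3) * N (m + 4) * N (m + 5))) := by
      rw [hb, hb, hb, hb, e1, e2, e3]
      push_cast
      field_simp
    rw [e]
    exact mul_nonneg (div_nonneg (hcs (m + 2)) (by positivity)) (hQ3 m)
  -- summability
  have hS : ∀ (g : ℕ → ℝ) (C : ℝ), (∀ k : ℕ, |g k| ≤ C * (k + 1)) → ∀ y : ℝ, |y| < 1 →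
      Summable (fun k => g k * y ^ k) := by
    intro g C hg y hy
    have h1 : Summable (fun k : ℕ => C * (((k:ℝ) ^ 1 * |y| ^ k + |y| ^ k))) :=
      (((summable_pow_mul_geometric_of_norm_lt_one 1 (by simpa using hy))).add
        (summable_geometric_of_lt_one (abs_nonneg y) hy)).mul_left C
    refine Summable.of_norm_bounded h1 (fun k => ?_)
    rw [Real.norm_eq_abs, abs_mul, abs_pow]
    have h4 := mul_le_mul_of_nonneg_right (hg k) (pow_nonneg (abs_nonneg y) k)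
    rw [pow_one]
    linarith
  have hshift : ∀ (g : ℕ → ℝ) (C : ℝ), (∀ k : ℕ, |g k| ≤ C * (k + 1)) → ∀ y : ℝ, |y| < 1 →
      ∑' k, g k * y ^ k = g 0 + y * ∑' k, g (k + 1) * y ^ k := by
    intro g C hg y hy
    rw [(hS g C hg y hy).tsum_eq_zero_add, pow_zero, mul_one, ← tsum_mul_left]
    congr 1
    apply tsum_congr
    intro k
    rw [pow_succ]
    ring
  obtain ⟨s, hs⟩ : ∃ s : ℕ → ℝ, ∀ k, s k = b (k + 2) - 2 * b (k + 1) + b k := ⟨_, fun _ => rfl⟩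
  have hsb : ∀ k : ℕ, |s k| ≤ 4 * k + 8 := by
    intro k
    have f0 := abs_le.mp (hbd k)
    have f1 := abs_le.mp (hbd (k + 1))
    have f2 := abs_le.mp (hbd (k + 2))
    push_cast at f1 f2
    rw [hs, abs_le]
    constructor <;> linarith [f0.1, f0.2, f1.1, f1.2, f2.1, f2.2]
  have hb1 : ∀ k : ℕ, |b (k + 1)| ≤ 2 * (k + 1) := by
    intro k
    have f := hbd (k + 1)
    push_cast at f
    have : (0:ℝ) ≤ k := Nat.cast_nonneg k
    linarith
  have hb2 : ∀ k : ℕ, |b (k + 2)| ≤ 3 * (k + 1) := by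
    intro k
    have f := hbd (k + 2)
    push_cast at f
    have : (0:ℝ) ≤ k := Nat.cast_nonneg k
    linarith
  have hb0 : ∀ k : ℕ, |b k| ≤ 1 * (k + 1) := by
    intro k
    rw [one_mul]
    exact hbd k
  have hs0 : ∀ k : ℕ, |s k| ≤ 20 * (k + 1) := by
    intro k
    have f := hsb k
    have : (0:ℝ) ≤ k := Nat.cast_nonneg k
    linarith
  have hs1 : ∀ k : ℕ, |s (k + 1)| ≤ 20 * (k + 1) := by
    intro k
    have f := hsb (k + 1)
    push_cast at f
    have : (0:ℝ) ≤ k := Nat.cast_nonneg k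
    linarith
  have hs2 : ∀ k : ℕ, |s (k + 2)| ≤ 20 * (k + 1) := by
    intro k
    have f := hsb (k + 2)
    push_cast at f
    have : (0:ℝ) ≤ k := Nat.cast_nonneg k
    linarith
  have hs3 : ∀ k : ℕ, |s (k + 3)| ≤ 20 * (k + 1) := by
    intro k
    have f := hsb (k + 3)
    push_cast at f
    have : (0:ℝ) ≤ k := Nat.cast_nonneg k
    linarith
  have hspos : ∀ k, 0 ≤ s (k + 3) := by
    intro k
    rw [hs]
    have := h2 k
    linarith
  have hsanti : ∀ k, s (k + 4) ≤ s (k + 3) := by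
    intro k
    rw [hs, hs]
    have := h3 k
    linarith
  have hT : ∀ E : ℝ, 0 < E → E < 1 → 0 ≤ (∑' k : ℕ, s (k + 3) * (-E) ^ k) ∧
      (∑' k : ℕ, s (k + 3) * (-E) ^ k) ≤ s 3 := by
    intro E hE0 hE1
    have hsm := hS (fun k => s (k + 3)) 20 hs3 (-E) (by rw [abs_neg, abs_of_pos hE0]; exact hE1)
    obtain ⟨f, hf⟩ : ∃ f : ℕ → ℝ, ∀ k, f k = s (k + 3) * E ^ k := ⟨_, fun _ => rfl⟩
    have hfa : Antitone f := by
      apply antitone_nat_of_succ_le
      intro k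
      rw [hf, hf]
      have e1 : E ^ (k + 1) ≤ E ^ k := pow_le_pow_of_le_one hE0.le hE1.le (Nat.le_succ k)
      exact mul_le_mul (hsanti k) e1 (by positivity) (hspos k)
    have hfl : Tendsto (fun n => ∑ i ∈ Finset.range n, (-1) ^ i * f i) atTop
        (𝓝 (∑' k : ℕ, s (k + 3) * (-E) ^ k)) := by
      have e1 := hsm.hasSum.tendsto_sum_nat
      refine e1.congr (fun n => ?_)
      apply Finset.sum_congr rfl
      intro i _
      rw [hf, neg_pow]
      ring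
    have g1 := hfa.alternating_series_le_tendsto hfl 0
    have g2 := hfa.tendsto_le_alternating_series hfl 0
    rw [mul_zero, Finset.sum_range_zero] at g1
    rw [mul_zero, zero_add, Finset.sum_range_one, pow_zero, one_mul, hf, pow_zero, mul_one] at g2
    exact ⟨g1, g2⟩
  have hmain : ∀ E : ℝ, 0 < E → E < 1 →
      b 0 + (b 1 - 2 * b 0) * (-E) + E ^ 2 * (s 0 + (-E) * (s 1 + (-E) * s 2)) - s 3
        ≤ (1 + E) ^ 2 * ∑' k, b k * (-E) ^ k ∧
      (1 + E) ^ 2 * ∑' k, b k * (-E) ^ k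
        ≤ b 0 + (b 1 - 2 * b 0) * (-E) + E ^ 2 * (s 0 + (-E) * (s 1 + (-E) * s 2)) := by
    intro E hE0 hE1
    have hy : |(-E)| < 1 := by
      rw [abs_neg, abs_of_pos hE0]
      exact hE1
    obtain ⟨T, hTd⟩ : ∃ T, T = ∑' k : ℕ, s (k + 3) * (-E) ^ k := ⟨_, rfl⟩
    have hT' := hT E hE0 hE1
    rw [← hTd] at hT'
    have G0 := hshift b 1 hb0 (-E) hy
    have G1 := hshift (fun k => b (k + 1)) 2 hb1 (-E) hy
    have S0 := hshift s 20 hs0 (-E) hy
    have S1 := hshift (fun k => s (k + 1)) 20 hs1 (-E) hy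
    have S2 := hshift (fun k => s (k + 2)) 20 hs2 (-E) hy
    have hcomb : ∑' k, s k * (-E) ^ k = (∑' k, b (k + 2) * (-E) ^ k)
        - 2 * (∑' k, b (k + 1) * (-E) ^ k) + ∑' k, b k * (-E) ^ k := by
      have k0 := (hS b 1 hb0 (-E) hy).hasSum
      have k1 := (hS (fun k => b (k + 1)) 2 hb1 (-E) hy).hasSum
      have k2 := (hS (fun k => b (k + 2)) 3 hb2 (-E) hy).hasSum
      rw [← ((k2.sub (k1.mul_left 2)).add k0).tsum_eq]
      apply tsum_congr
      intro k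
      rw [hs]
      ring
    norm_num only at G1 S1 S2
    have e1 : ∀ k : ℕ, k + 1 + 1 = k + 2 := fun k => rfl
    have e2 : ∀ k : ℕ, k + 2 + 1 = k + 3 := fun k => rfl
    simp only [e1] at G1 S1
    simp only [e2] at S2
    rw [← hTd] at S2
    obtain ⟨g0, hg0⟩ : ∃ g0, g0 = ∑' k, b k * (-E) ^ k := ⟨_, rfl⟩
    obtain ⟨g1, hg1⟩ : ∃ g1, g1 = ∑' k, b (k + 1) * (-E) ^ k := ⟨_, rfl⟩
    obtain ⟨g2, hg2⟩ : ∃ g2, g2 = ∑' k, b (k + 2) * (-E) ^ k := ⟨_, rfl⟩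
    rw [← hg0, ← hg1] at G0
    rw [← hg1, ← hg2] at G1
    rw [← hg0, ← hg1, ← hg2] at hcomb
    rw [S0, S1, S2] at hcomb
    rw [← hg0]
    have hid : (1 + E) ^ 2 * g0 = b 0 + (b 1 - 2 * b 0) * (-E)
        + E ^ 2 * (s 0 + (-E) * (s 1 + (-E) * s 2)) - E ^ 5 * T := by
      linear_combination (1 - (-E) * 2 ) * G0 - (-E) * G1 * (-1) - E ^ 2 * hcomb
    rw [hid]
    have hE5 : E ^ 5 ≤ 1 := pow_le_one₀ hE0.le hE1.le
    have hE50 : 0 ≤ E ^ 5 := by positivity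
    have m1 : 0 ≤ E ^ 5 * T := mul_nonneg hE50 hT'.1
    have m2 : E ^ 5 * T ≤ 1 * s 3 := mul_le_mul hE5 hT'.2 hT'.1 zero_le_one
    constructor <;> linarith
  -- the limit
  have hVx : ∀ x : ℝ, ∑' k : ℕ, (-1) ^ k * c k * (δ0 + k) ^ 1 * Real.exp ((δ0 + k) * x)
      = Real.exp (δ0 * x) * ∑' k, b k * (-Real.exp x) ^ k := by
    intro x
    rw [← tsum_mul_left]
    apply tsum_congr
    intro k
    have e1 : Real.exp ((δ0 + k) * x) = Real.exp (δ0 * x) * Real.exp x ^ k := by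
      rw [← Real.exp_nat_mul, ← Real.exp_add]
      congr 1
      ring
    rw [e1, hb, neg_pow]
    ring
  have hlim : Tendsto (fun x : ℝ => (1 + Real.exp x) ^ 2 * ∑' k, b k * (-Real.exp x) ^ k)
      (𝓝[<] 0) (𝓝 (4 * v)) := by
    have e1 : Tendsto (fun x : ℝ => (1 + Real.exp x) ^ 2 * Real.exp (-(δ0 * x))) (𝓝[<] 0)
        (𝓝 ((1 + Real.exp 0) ^ 2 * Real.exp (-(δ0 * 0)))) := by
      apply Tendsto.mono_left _ nhdsWithin_le_nhds
      apply Continuous.tendsto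
      fun_prop
    have e2 := e1.mul hv
    have e3 : (1 + Real.exp 0) ^ 2 * Real.exp (-(δ0 * 0)) * v = 4 * v := by
      rw [mul_zero, neg_zero, Real.exp_zero]
      ring
    rw [e3] at e2
    refine e2.congr (fun x => ?_)
    rw [hVx]
    have e4 : Real.exp (-(δ0 * x)) * Real.exp (δ0 * x) = 1 := by
      rw [← Real.exp_add, neg_add_cancel, Real.exp_zero]
    calc (1 + Real.exp x) ^ 2 * Real.exp (-(δ0 * x)) *
          (Real.exp (δ0 * x) * ∑' k, b k * (-Real.exp x) ^ k)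
        = (1 + Real.exp x) ^ 2 * (Real.exp (-(δ0 * x)) * Real.exp (δ0 * x)) *
          ∑' k, b k * (-Real.exp x) ^ k := by ring
      _ = _ := by rw [e4, mul_one]
  have hpoly : Tendsto (fun x : ℝ => b 0 + (b 1 - 2 * b 0) * (-Real.exp x)
      + Real.exp x ^ 2 * (s 0 + (-Real.exp x) * (s 1 + (-Real.exp x) * s 2))) (𝓝[<] 0)
      (𝓝 (b 0 + (b 1 - 2 * b 0) * (-Real.exp 0)
      + Real.exp 0 ^ 2 * (s 0 + (-Real.exp 0) * (s 1 + (-Real.exp 0) * s 2)))) := by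
    apply Tendsto.mono_left _ nhdsWithin_le_nhds
    exact Continuous.tendsto (by fun_prop) (0:ℝ)
  rw [Real.exp_zero] at hpoly
  have hev : ∀ᶠ x : ℝ in 𝓝[<] 0, 0 < Real.exp x ∧ Real.exp x < 1 := by
    filter_upwards [self_mem_nhdsWithin] with x hx
    exact ⟨Real.exp_pos x, by
      have hx' : x < 0 := hx
      calc Real.exp x < Real.exp 0 := Real.exp_lt_exp.mpr hx'
        _ = 1 := Real.exp_zero⟩
  have l1 := le_of_tendsto_of_tendsto (hpoly.sub_const (s 3)) hlim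
    (hev.mono (fun x hx => (hmain _ hx.1 hx.2).1))
  have l2 := le_of_tendsto_of_tendsto hlim hpoly
    (hev.mono (fun x hx => (hmain _ hx.1 hx.2).2))
  have q0 := hs 0
  have q1 := hs 1
  have q2 := hs 2
  have q3 := hs 3
  norm_num only at q0 q1 q2 q3
  rw [q0, q1, q2] at l1 l2
  rw [q3] at l1
  constructor <;> linarith

theorem dU_val : dU 0 = -1 / 108 ∧ dU 1 = 35 / 108 ∧ dU 2 = 47 / 108 := ⟨rfl, rfl, rfl⟩

theorem altU0 {v : ℝ} (hv : Tendsto (Vr dU 0 1) (𝓝[<] 0) (𝓝 v)) : -0.0060 ≤ v ∧ v ≤ -0.0045 := by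
  obtain ⟨d0, d1, d2⟩ := dU_val
  have hrec0 : ∀ k : ℕ, hc dU 0 (k + 1) = hc dU 0 k * (((-1 / 108) + (k:ℝ) + (-1 / 108)) * ((-1 / 108) + (k:ℝ) + (35 / 108)) * ((-1 / 108) + (k:ℝ) + (47 / 108))) / (((-1 / 108) + (k:ℝ) + 1 - (-1 / 108)) * ((-1 / 108) + (k:ℝ) + 1 - (35 / 108)) * ((-1 / 108) + (k:ℝ) + 1 - (47 / 108))) := by
    intro k
    rw [hc, Fin.prod_univ_three, Fin.prod_univ_three, d0, d1, d2]
  obtain ⟨c, hcd⟩ : ∃ c : ℕ → ℝ, c = (fun k => -hc dU 0 k) := ⟨_, rfl⟩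
  have hrec : ∀ k : ℕ, c (k + 1) = c k * (((-1 / 108) + (k:ℝ) + (-1 / 108)) * ((-1 / 108) + (k:ℝ) + (35 / 108)) * ((-1 / 108) + (k:ℝ) + (47 / 108))) / (((-1 / 108) + (k:ℝ) + 1 - (-1 / 108)) * ((-1 / 108) + (k:ℝ) + 1 - (35 / 108)) * ((-1 / 108) + (k:ℝ) + 1 - (47 / 108))) := by
    intro k
    rw [hcd]
    change -hc dU 0 (k + 1) = -hc dU 0 k * _ / _
    rw [hrec0]
    ring
  have c0 : c 0 = -1 := by
    rw [hcd]
    change -hc dU 0 0 = -1
    rw [hc]
  have c1 : c 1 = (391 / 58320 : ℝ) := by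
    rw [hrec 0, c0]
    norm_num
  have c2 : c 2 = (16184663 / 6802444800 : ℝ) := by
    rw [hrec 1, c1]
    norm_num
  have c3 : c 3 = (49317482885 / 38084983750656 : ℝ) := by
    rw [hrec 2, c2]
    norm_num
  have c4 : c 4 = (23903354523965525 / 28430288029929701376 : ℝ) := by
    rw [hrec 3, c3]
    norm_num
  have c5 : c 5 = (8176794635024418885575 / 13596046062825101510836224 : ℝ) := by
    rw [hrec 4, c4]
    norm_num
  have hv' : Tendsto (fun x : ℝ => ∑' k : ℕ, (-1) ^ k * c k * ((-1 / 108 : ℝ) + k) ^ 1 *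
      Real.exp (((-1 / 108 : ℝ) + k) * x)) (𝓝[<] 0) (𝓝 (-v)) := by
    refine hv.neg.congr (fun x => ?_)
    unfold Vr
    rw [← tsum_neg, hcd]
    apply tsum_congr
    intro k
    rw [d0]
    ring
  have hg := altU_gen ((-1 / 108)) (by rw [abs_le]; constructor <;> norm_num) c
    (fun k => ((-1 / 108) + (k:ℝ) + (-1 / 108)) * ((-1 / 108) + (k:ℝ) + (35 / 108)) * ((-1 / 108) + (k:ℝ) + (47 / 108))) (fun k => ((-1 / 108) + (k:ℝ) + 1 - (-1 / 108)) * ((-1 / 108) + (k:ℝ) + 1 - (35 / 108)) * ((-1 / 108) + (k:ℝ) + 1 - (47 / 108))) hrec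
    (fun k => by
      have hk : (0:ℝ) ≤ k := Nat.cast_nonneg k
      refine mul_pos (mul_pos ?_ ?_) ?_ <;> linarith)
    (fun k => by
      have hk : (0:ℝ) ≤ k := Nat.cast_nonneg k
      rw [abs_le]
      constructor
      · rw [← sub_nonneg]
        ring_nf
        positivity
      · rw [← sub_nonneg]
        ring_nf
        positivity)
    (fun k hk1 => by
      have hk : (1:ℝ) ≤ k := by exact_mod_cast hk1
      refine mul_nonneg (mul_nonneg ?_ ?_) ?_ <;> linarith)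
    (by rw [c0]; norm_num) (by rw [c1]; norm_num)
    (fun m => by
      push_cast
      ring_nf
      positivity)
    (fun m => by
      push_cast
      ring_nf
      positivity) hv' (fun k => ((-1 / 108) + (k:ℝ)) * c k) (fun _ => rfl)
  simp only [c0, c1, c2, c3, c4, c5] at hg
  obtain ⟨h1, h2⟩ := hg
  norm_num at h1 h2
  constructor <;> linarith

theorem altU1 {v : ℝ} (hv : Tendsto (Vr dU 1 1) (𝓝[<] 0) (𝓝 v)) : 0.2226 ≤ v ∧ v ≤ 0.2241 := by
  obtain ⟨d0, d1, d2⟩ := dU_val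
  have hrec0 : ∀ k : ℕ, hc dU 1 (k + 1) = hc dU 1 k * (((35 / 108) + (k:ℝ) + (-1 / 108)) * ((35 / 108) + (k:ℝ) + (35 / 108)) * ((35 / 108) + (k:ℝ) + (47 / 108))) / (((35 / 108) + (k:ℝ) + 1 - (-1 / 108)) * ((35 / 108) + (k:ℝ) + 1 - (35 / 108)) * ((35 / 108) + (k:ℝ) + 1 - (47 / 108))) := by
    intro k
    rw [hc, Fin.prod_univ_three, Fin.prod_univ_three, d0, d1, d2]
  obtain ⟨c, hcd⟩ : ∃ c : ℕ → ℝ, c = (hc dU 1) := ⟨_, rfl⟩
  have hrec : ∀ k : ℕ, c (k + 1) = c k * (((35 / 108) + (k:ℝ) + (-1 / 108)) * ((35 / 108) + (k:ℝ) + (35 / 108)) * ((35 / 108) + (k:ℝ) + (47 / 108))) / (((35 / 108) + (k:ℝ) + 1 - (-1 / 108)) * ((35 / 108) + (k:ℝ) + 1 - (35 / 108)) * ((35 / 108) + (k:ℝ) + 1 - (47 / 108))) := by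
    intro k
    rw [hcd]
    exact hrec0 k
  have c0 : c 0 = 1 := by
    rw [hcd]
    rw [hc]
  have c1 : c 1 = (24395 / 186624 : ℝ) := by
    rw [hrec 0, c0]
    norm_num
  have c2 : c 2 = (123062525 / 2176782336 : ℝ) := by
    rw [hrec 1, c1]
    norm_num
  have c3 : c 3 = (5042486961875 / 152339935002624 : ℝ) := by
    rw [hrec 2, c2]
    norm_num
  have c4 : c 4 = (1031316662872269125 / 46199218048635764736 : ℝ) := by
    rw [hrec 3, c3]
    norm_num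
  have c5 : c 5 = (281833173553691658472825 / 17243765738217201916182528 : ℝ) := by
    rw [hrec 4, c4]
    norm_num
  have hv' : Tendsto (fun x : ℝ => ∑' k : ℕ, (-1) ^ k * c k * ((35 / 108 : ℝ) + k) ^ 1 *
      Real.exp (((35 / 108 : ℝ) + k) * x)) (𝓝[<] 0) (𝓝 v) := by
    refine hv.congr (fun x => ?_)
    unfold Vr
    rw [hcd, d1]
  have hg := altU_gen ((35 / 108)) (by rw [abs_le]; constructor <;> norm_num) c
    (fun k => ((35 / 108) + (k:ℝ) + (-1 / 108)) * ((35 / 108) + (k:ℝ) + (35 / 108)) * ((35 / 108) + (k:ℝ) + (47 / 108))) (fun k => ((35 / 108) + (k:ℝ) + 1 - (-1 / 108)) * ((35 / 108) + (k:ℝ) + 1 - (35 / 108)) * ((35 / 108) + (k:ℝ) + 1 - (47 / 108))) hrec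
    (fun k => by
      have hk : (0:ℝ) ≤ k := Nat.cast_nonneg k
      refine mul_pos (mul_pos ?_ ?_) ?_ <;> linarith)
    (fun k => by
      have hk : (0:ℝ) ≤ k := Nat.cast_nonneg k
      rw [abs_le]
      constructor
      · rw [← sub_nonneg]
        ring_nf
        positivity
      · rw [← sub_nonneg]
        ring_nf
        positivity)
    (fun k hk1 => by
      have hk : (1:ℝ) ≤ k := by exact_mod_cast hk1
      refine mul_nonneg (mul_nonneg ?_ ?_) ?_ <;> linarith)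
    (by rw [c0]; norm_num) (by rw [c1]; norm_num)
    (fun m => by
      push_cast
      ring_nf
      positivity)
    (fun m => by
      push_cast
      ring_nf
      positivity) hv' (fun k => ((35 / 108) + (k:ℝ)) * c k) (fun _ => rfl)
  simp only [c0, c1, c2, c3, c4, c5] at hg
  obtain ⟨h1, h2⟩ := hg
  norm_num at h1 h2
  constructor <;> linarith

theorem altU2 {v : ℝ} (hv : Tendsto (Vr dU 2 1) (𝓝[<] 0) (𝓝 v)) : 0.2890 ≤ v ∧ v ≤ 0.2910 := by
  obtain ⟨d0, d1, d2⟩ := dU_val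
  have hrec0 : ∀ k : ℕ, hc dU 2 (k + 1) = hc dU 2 k * (((47 / 108) + (k:ℝ) + (-1 / 108)) * ((47 / 108) + (k:ℝ) + (35 / 108)) * ((47 / 108) + (k:ℝ) + (47 / 108))) / (((47 / 108) + (k:ℝ) + 1 - (-1 / 108)) * ((47 / 108) + (k:ℝ) + 1 - (35 / 108)) * ((47 / 108) + (k:ℝ) + 1 - (47 / 108))) := by
    intro k
    rw [hc, Fin.prod_univ_three, Fin.prod_univ_three, d0, d1, d2]
  obtain ⟨c, hcd⟩ : ∃ c : ℕ → ℝ, c = (hc dU 2) := ⟨_, rfl⟩
  have hrec : ∀ k : ℕ, c (k + 1) = c k * (((47 / 108) + (k:ℝ) + (-1 / 108)) * ((47 / 108) + (k:ℝ) + (35 / 108)) * ((47 / 108) + (k:ℝ) + (47 / 108))) / (((47 / 108) + (k:ℝ) + 1 - (-1 / 108)) * ((47 / 108) + (k:ℝ) + 1 - (35 / 108)) * ((47 / 108) + (k:ℝ) + 1 - (47 / 108))) := by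
    intro k
    rw [hcd]
    exact hrec0 k
  have c0 : c 0 = 1 := by
    rw [hcd]
    rw [hc]
  have c1 : c 1 = (44321 / 252720 : ℝ) := by
    rw [hrec 0, c0]
    norm_num
  have c2 : c 2 = (31334947 / 393030144 : ℝ) := by
    rw [hrec 1, c1]
    norm_num
  have c3 : c 3 = (436876307495 / 9168607199232 : ℝ) := by
    rw [hrec 2, c2]
    norm_num
  have c4 : c 4 = (18535351098090365 / 570360716649824256 : ℝ) := by
    rw [hrec 3, c3]
    norm_num
  have c5 : c 5 = (371956120423571653057 / 15522937264341616951296 : ℝ) := by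
    rw [hrec 4, c4]
    norm_num
  have hv' : Tendsto (fun x : ℝ => ∑' k : ℕ, (-1) ^ k * c k * ((47 / 108 : ℝ) + k) ^ 1 *
      Real.exp (((47 / 108 : ℝ) + k) * x)) (𝓝[<] 0) (𝓝 v) := by
    refine hv.congr (fun x => ?_)
    unfold Vr
    rw [hcd, d2]
  have hg := altU_gen ((47 / 108)) (by rw [abs_le]; constructor <;> norm_num) c
    (fun k => ((47 / 108) + (k:ℝ) + (-1 / 108)) * ((47 / 108) + (k:ℝ) + (35 / 108)) * ((47 / 108) + (k:ℝ) + (47 / 108))) (fun k => ((47 / 108) + (k:ℝ) + 1 - (-1 / 108)) * ((47 / 108) + (k:ℝ) + 1 - (35 / 108)) * ((47 / 108) + (k:ℝ) + 1 - (47 / 108))) hrec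
    (fun k => by
      have hk : (0:ℝ) ≤ k := Nat.cast_nonneg k
      refine mul_pos (mul_pos ?_ ?_) ?_ <;> linarith)
    (fun k => by
      have hk : (0:ℝ) ≤ k := Nat.cast_nonneg k
      rw [abs_le]
      constructor
      · rw [← sub_nonneg]
        ring_nf
        positivity
      · rw [← sub_nonneg]
        ring_nf
        positivity)
    (fun k hk1 => by
      have hk : (1:ℝ) ≤ k := by exact_mod_cast hk1
      refine mul_nonneg (mul_nonneg ?_ ?_) ?_ <;> linarith)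
    (by rw [c0]; norm_num) (by rw [c1]; norm_num)
    (fun m => by
      push_cast
      ring_nf
      positivity)
    (fun m => by
      push_cast
      ring_nf
      positivity) hv' (fun k => ((47 / 108) + (k:ℝ)) * c k) (fun _ => rfl)
  simp only [c0, c1, c2, c3, c4, c5] at hg
  obtain ⟨h1, h2⟩ := hg
  norm_num at h1 h2
  constructor <;> linarith

end Pool.Agent.Helper326.HB
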