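import Mathlib
import Pool.Agent.Helper326.HB.Defs
import Pool.Agent.Helper326.HB.N1
import Pool.Agent.Helper326.HB.N2
import Pool.Agent.Helper326.HB.Q1
import Pool.Agent.Helper326.HB.Q2

set_option autoImplicit false
open Complex Metric Set Filter Topology Matrix

namespace Pool.Agent.Helper326.HB

theorem dF_hne : ∀ (i j : Fin 3) (k : ℕ), dF j + k + 1 - dF i ≠ 0 := by
  intro i j k
  have hk : (0:ℝ) ≤ k := Nat.cast_nonneg k
  fin_cases i <;> fin_cases j <;> simp [dF] <;> intro h <;> linarith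

theorem dU_hne : ∀ (i j : Fin 3) (k : ℕ), dU j + k + 1 - dU i ≠ 0 := by
  intro i j k
  have hk : (0:ℝ) ≤ k := Nat.cast_nonneg k
  fin_cases i <;> fin_cases j <;> simp [dU] <;> intro h <;> linarith

theorem dF_bd (j : Fin 3) : ∃ C : ℝ, ∀ k, |hc dF j k| ≤ C := by
  refine ⟨∑' k, hc dF j k, fun k => ?_⟩
  rw [abs_of_pos (coefF_pos j k)]
  exact (coefF_summable j).le_tsum k (fun l _ => (coefF_pos j l).le)

theorem sinh_ne {u : ℂ} (hu : u.re < 0) : Complex.sinh (u / 2) ≠ 0 := by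
  intro h
  rw [Complex.sinh, div_eq_zero_iff] at h
  rcases h with h | h
  · have h1 : Complex.exp (u / 2) = Complex.exp (-(u / 2)) := sub_eq_zero.1 h
    have h2 := congrArg (fun z : ℂ => ‖z‖) h1
    simp only [Complex.norm_exp] at h2
    have h3 := Real.exp_injective h2
    have h4 : (u / 2).re = u.re / 2 := by
      have : u / 2 = u * ((1/2 : ℝ) : ℂ) := by push_cast; ring
      rw [this, Complex.mul_re, Complex.ofReal_re, Complex.ofReal_im]
      ring
    rw [Complex.neg_re, h4] at h3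
    linarith
  · exact two_ne_zero h

/-- `coth (u/2)` -/
noncomputable def ct (u : ℂ) : ℂ := Complex.cosh (u / 2) / Complex.sinh (u / 2)

theorem ct_deriv {u : ℂ} (hu : u.re < 0) : HasDerivAt ct ((1 - ct u ^ 2) / 2) u := by
  have hs := sinh_ne hu
  have h0 : HasDerivAt (fun u : ℂ => u / 2) (1 / 2) u := (hasDerivAt_id u).div_const 2
  have h1 : HasDerivAt (fun u : ℂ => Complex.cosh (u / 2)) (Complex.sinh (u / 2) * (1 / 2)) u :=
    h0.ccosh
  have h2 : HasDerivAt (fun u : ℂ => Complex.sinh (u / 2)) (Complex.cosh (u / 2) * (1 / 2)) u :=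
    h0.csinh
  have h3 := h1.div h2 hs
  refine HasDerivAt.congr_deriv h3 ?_
  unfold ct
  field_simp

theorem norm_exp_lt {u : ℂ} (hu : u.re < 0) : ‖Complex.exp u‖ < 1 := by
  rw [Complex.norm_exp]
  rw [← Real.exp_zero]; exact Real.exp_lt_exp.2 hu

theorem one_sub_slit {z : ℂ} (hz : ‖z‖ < 1) : 1 - z ∈ Complex.slitPlane := by
  rw [Complex.mem_slitPlane_iff]
  left
  have := Complex.re_le_norm z
  rw [Complex.sub_re, Complex.one_re]
  linarith

theorem one_sub_ne {z : ℂ} (hz : ‖z‖ < 1) : 1 - z ≠ 0 := Complex.slitPlane_ne_zero (one_sub_slit hz)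

theorem ct_eq {u : ℂ} (hu : u.re < 0) : ct u = - (1 + Complex.exp u) / (1 - Complex.exp u) := by
  have hs := sinh_ne hu
  have h1 := one_sub_ne (norm_exp_lt hu)
  unfold ct
  rw [div_eq_div_iff hs h1, Complex.cosh, Complex.sinh]
  have h2 : Complex.exp u = Complex.exp (u / 2) * Complex.exp (u / 2) := by
    rw [← Complex.exp_add]; congr 1; ring
  have h3 : Complex.exp (u / 2) * Complex.exp (-(u / 2)) = 1 := by
    rw [← Complex.exp_add, add_neg_cancel, Complex.exp_zero]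
  rw [h2]
  linear_combination (Complex.exp (u/2) * (-1)) * h3

/-- the factor -/
noncomputable def gg (u : ℂ) : ℂ := Complex.exp (-(u / 4)) * (1 - Complex.exp u) ^ ((1 / 2 : ℂ))

theorem gg_deriv {u : ℂ} (hu : u.re < 0) : HasDerivAt gg (ct u / 4 * gg u) u := by
  have hsl := one_sub_slit (norm_exp_lt hu)
  have hne := one_sub_ne (norm_exp_lt hu)
  have h0 : HasDerivAt (fun u : ℂ => -(u / 4)) (-(1 / 4)) u := ((hasDerivAt_id u).div_const 4).neg
  have h1 : HasDerivAt (fun u : ℂ => Complex.exp (-(u / 4)))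
    (Complex.exp (-(u / 4)) * (-(1 / 4))) u := h0.cexp
  have h2 : HasDerivAt (fun u : ℂ => 1 - Complex.exp u) (-(Complex.exp u)) u :=
    (Complex.hasDerivAt_exp u).const_sub 1
  have h3 := h2.cpow_const (c := (1 / 2 : ℂ)) hsl
  have h4 := h1.mul h3
  refine HasDerivAt.congr_deriv h4 ?_
  unfold gg
  rw [ct_eq hu]
  have h5 : (1 - Complex.exp u) ^ ((1 / 2 : ℂ) - 1) =
      (1 - Complex.exp u) ^ ((1 / 2 : ℂ)) / (1 - Complex.exp u) := by
    rw [Complex.cpow_sub _ _ hne, Complex.cpow_one]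
  rw [h5]
  field_simp
  ring

theorem Y_deriv (j : Fin 3) (m : ℕ) {u : ℂ} (hu : u.re < 0) :
    HasDerivAt (iteratedDeriv m (psi dF j)) (iteratedDeriv (m+1) (psi dF j) u) u := by
  obtain ⟨C, hC⟩ := dF_bd j
  have h1 := psi_diff hC
  have hop : IsOpen {u : ℂ | u.re < 0} := isOpen_lt Complex.continuous_re continuous_const
  have h2 : AnalyticAt ℂ (psi dF j) u := h1.analyticAt (hop.mem_nhds hu)
  have h3 : AnalyticAt ℂ (iteratedDeriv m (psi dF j)) u := by
    rw [iteratedDeriv_eq_iterate]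
    exact h2.iterated_deriv m
  rw [iteratedDeriv_succ]
  exact h3.differentiableAt.hasDerivAt

section wr

variable (i j : Fin 3)

noncomputable def w0 (u : ℂ) : ℂ := iteratedDeriv 0 (psi dF i) u * iteratedDeriv 1 (psi dF j) u -
  iteratedDeriv 0 (psi dF j) u * iteratedDeriv 1 (psi dF i) u

noncomputable def w1 (u : ℂ) : ℂ := iteratedDeriv 0 (psi dF i) u * iteratedDeriv 2 (psi dF j) u -
  iteratedDeriv 0 (psi dF j) u * iteratedDeriv 2 (psi dF i) u

noncomputable def wz (u : ℂ) : ℂ := iteratedDeriv 1 (psi dF i) u * iteratedDeriv 2 (psi dF j) u -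
  iteratedDeriv 1 (psi dF j) u * iteratedDeriv 2 (psi dF i) u

theorem y3 (j : Fin 3) {u : ℂ} (hu : u.re < 0) : iteratedDeriv 3 (psi dF j) u =
    -((3 / 4) * ct u * iteratedDeriv 2 (psi dF j) u + (521 / 3888) * iteratedDeriv 1 (psi dF j) u +
      (7315 / 1259712) * ct u * iteratedDeriv 0 (psi dF j) u) := by
  obtain ⟨C, hC⟩ := dF_bd j
  have h1 := ode3 (δ := dF) (by simp [dF]; norm_num) dF_hne hC hu
  have e2 : ((dF 0 * dF 1 + dF 0 * dF 2 + dF 1 * dF 2 : ℝ) : ℂ) = 521 / 3888 := by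
    simp [dF]; norm_num
  have e3 : ((dF 0 * dF 1 * dF 2 : ℝ) : ℂ) = 7315 / 1259712 := by
    simp [dF]; norm_num
  rw [e2, e3] at h1
  rw [iteratedDeriv_zero]
  unfold ct
  linear_combination h1

theorem w0_deriv {u : ℂ} (hu : u.re < 0) : HasDerivAt (w0 i j) (w1 i j u) u := by
  have h := ((Y_deriv i 0 hu).mul (Y_deriv j 1 hu)).sub ((Y_deriv j 0 hu).mul (Y_deriv i 1 hu))
  refine HasDerivAt.congr_deriv h ?_
  unfold w1
  ring

theorem w1_deriv {u : ℂ} (hu : u.re < 0) : HasDerivAt (w1 i j)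
    (wz i j u - 3 / 4 * ct u * w1 i j u - 521 / 3888 * w0 i j u) u := by
  have h := ((Y_deriv i 0 hu).mul (Y_deriv j 2 hu)).sub ((Y_deriv j 0 hu).mul (Y_deriv i 2 hu))
  refine HasDerivAt.congr_deriv h ?_
  have hi := y3 i hu
  have hj := y3 j hu
  unfold w1 w0 wz
  rw [show (2:ℕ) + 1 = 3 from rfl, show (0:ℕ) + 1 = 1 from rfl, hi, hj]
  ring

theorem wz_deriv {u : ℂ} (hu : u.re < 0) : HasDerivAt (wz i j)
    (-(3 / 4) * ct u * wz i j u + 7315 / 1259712 * ct u * w0 i j u) u := by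
  have h := ((Y_deriv i 1 hu).mul (Y_deriv j 2 hu)).sub ((Y_deriv j 1 hu).mul (Y_deriv i 2 hu))
  refine HasDerivAt.congr_deriv h ?_
  have hi := y3 i hu
  have hj := y3 j hu
  unfold w0 wz
  rw [show (2:ℕ) + 1 = 3 from rfl, show (1:ℕ) + 1 = 2 from rfl, hi, hj]
  ring

noncomputable def u0 (u : ℂ) : ℂ := gg u * w0 i j u

noncomputable def u1 (u : ℂ) : ℂ := gg u * (w1 i j u + ct u / 4 * w0 i j u)

noncomputable def u2 (u : ℂ) : ℂ := gg u * (wz i j u - ct u / 4 * w1 i j u +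
  (1 / 8 - 521 / 3888 - ct u ^ 2 / 16) * w0 i j u)

noncomputable def u3 (u : ℂ) : ℂ := gg u * (-(3 / 4) * ct u * wz i j u +
  (3 / 16 * ct u ^ 2 - 521 / 3888) * w1 i j u +
  (- ct u / 32 + 3 / 64 * ct u ^ 3 + 7315 / 1259712 * ct u) * w0 i j u)

theorem u0_deriv {u : ℂ} (hu : u.re < 0) : HasDerivAt (u0 i j) (u1 i j u) u := by
  have h := (gg_deriv hu).mul (w0_deriv i j hu)
  refine HasDerivAt.congr_deriv h ?_
  unfold u1
  ring

theorem u1_deriv {u : ℂ} (hu : u.re < 0) : HasDerivAt (u1 i j) (u2 i j u) u := by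
  have h := (gg_deriv hu).mul ((w1_deriv i j hu).add (((ct_deriv hu).div_const 4).mul
    (w0_deriv i j hu)))
  refine HasDerivAt.congr_deriv h ?_
  unfold u2
  simp only [Pi.add_apply, Pi.mul_apply]
  ring

theorem u2_deriv {u : ℂ} (hu : u.re < 0) : HasDerivAt (u2 i j) (u3 i j u) u := by
  have hc := ct_deriv hu
  have h := (gg_deriv hu).mul (((wz_deriv i j hu).sub ((hc.div_const 4).mul
    (w1_deriv i j hu))).add ((((hasDerivAt_const u (1 / 8 - 521 / 3888 : ℂ)).sub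
      ((hc.pow 2).div_const 16))).mul (w0_deriv i j hu)))
  refine HasDerivAt.congr_deriv h ?_
  unfold u3
  simp only [Pi.add_apply, Pi.mul_apply, Pi.sub_apply, Pi.pow_apply]
  push_cast
  ring

theorem u_ode (u : ℂ) : u3 i j u + 3 / 4 * ct u * u2 i j u + 521 / 3888 * u1 i j u +
    (-1645 / 1259712) * ct u * u0 i j u = 0 := by
  unfold u0 u1 u2 u3
  ring

/-- the holomorphic factor on the disc -/
noncomputable def QQ (z : ℂ) : ℂ := (1 - z) ^ ((1 / 2 : ℂ)) *
  (((dF j : ℂ) - dF i) * (P dF i z * P dF j z) +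
    z * (P dF i z * deriv (P dF j) z - P dF j z * deriv (P dF i) z))

theorem P_dF_diff (i : Fin 3) : DifferentiableOn ℂ (P dF i) (ball 0 1) := by
  obtain ⟨C, hC⟩ := dF_bd i
  exact P_diff hC

theorem QQ_diff : DifferentiableOn ℂ (QQ i j) (ball 0 1) := by
  have hi := P_dF_diff i
  have hj := P_dF_diff j
  have hi' := hi.deriv isOpen_ball
  have hj' := hj.deriv isOpen_ball
  have h1 : DifferentiableOn ℂ (fun z : ℂ => (1 - z) ^ ((1 / 2 : ℂ))) (ball 0 1) := by
    intro z hz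
    rw [mem_ball_zero_iff] at hz
    have h2 : HasDerivAt (fun z : ℂ => 1 - z) (-1) z := (hasDerivAt_id z).const_sub 1
    exact (h2.cpow_const (c := (1 / 2 : ℂ)) (one_sub_slit hz)).differentiableAt.differentiableWithinAt
  exact h1.mul (((hi.mul hj).const_mul _).add (differentiableOn_id.mul
    ((hi.mul hj').sub (hj.mul hi'))))

theorem P_zero (i : Fin 3) : P dF i 0 = 1 := by
  unfold P
  rw [tsum_eq_single 0]
  · simp [hc]
  · intro k hk
    simp [hk]

theorem QQ_zero : QQ i j 0 = (dF j : ℂ) - dF i := by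
  unfold QQ
  rw [P_zero, P_zero]
  simp

theorem psi_fun (i : Fin 3) : psi dF i = fun u => Complex.exp ((dF i : ℂ) * u) *
    P dF i (Complex.exp u) := by
  funext u; exact psi_eq u

theorem psi_deriv (i : Fin 3) {u : ℂ} (hu : u.re < 0) : deriv (psi dF i) u =
    Complex.exp ((dF i : ℂ) * u) * (dF i * P dF i (Complex.exp u) +
      Complex.exp u * deriv (P dF i) (Complex.exp u)) := by
  have hz : Complex.exp u ∈ ball (0:ℂ) 1 := by
    rw [mem_ball_zero_iff]; exact norm_exp_lt hu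
  have h1 : HasDerivAt (P dF i) (deriv (P dF i) (Complex.exp u)) (Complex.exp u) :=
    ((P_dF_diff i).differentiableAt (isOpen_ball.mem_nhds hz)).hasDerivAt
  have h2 : HasDerivAt (fun u : ℂ => P dF i (Complex.exp u))
      (deriv (P dF i) (Complex.exp u) * Complex.exp u) u := h1.comp u (Complex.hasDerivAt_exp u)
  have h3 : HasDerivAt (fun u : ℂ => Complex.exp ((dF i : ℂ) * u))
      (Complex.exp ((dF i : ℂ) * u) * (dF i : ℂ)) u := by
    have h4 : HasDerivAt (fun u : ℂ => (dF i : ℂ) * u) (dF i : ℂ) u := by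
      simpa using (hasDerivAt_id u).const_mul (dF i : ℂ)
    exact h4.cexp
  have h5 := h3.mul h2
  rw [psi_fun]
  have h6 := h5.deriv
  change deriv (fun u => Complex.exp ((dF i : ℂ) * u) * P dF i (Complex.exp u)) u = _ at h6
  rw [h6]
  ring

theorem u0_eq (m : Fin 3) (hm : dU m = dF i + dF j - 1 / 4) {u : ℂ} (hu : u.re < 0) :
    u0 i j u = Complex.exp ((dU m : ℂ) * u) * QQ i j (Complex.exp u) := by
  unfold u0 w0 gg QQ
  rw [iteratedDeriv_zero, iteratedDeriv_zero, iteratedDeriv_one, iteratedDeriv_one,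
    psi_deriv i hu, psi_deriv j hu, psi_eq, psi_eq, hm]
  have h1 : Complex.exp (((dF i + dF j - 1 / 4 : ℝ) : ℂ) * u) =
      Complex.exp ((dF i : ℂ) * u) * Complex.exp ((dF j : ℂ) * u) * Complex.exp (-(u / 4)) := by
    rw [← Complex.exp_add, ← Complex.exp_add]
    congr 1
    push_cast
    ring
  rw [h1]
  ring

theorem wr_gen_W2 (m : Fin 3) (hm : dU m = dF i + dF j - 1 / 4) {u : ℂ} (hu : u.re < 0) :
    psi dF i u * deriv (psi dF j) u - psi dF j u * deriv (psi dF i) u =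
      ((dF j : ℂ) - dF i) * Complex.exp (u / 4) * (1 - Complex.exp u) ^ (-(1 / 2) : ℂ) *
        psi dU m u := by
  have hop : IsOpen {u : ℂ | u.re < 0} := isOpen_lt Complex.continuous_re continuous_const
  have hev : ∀ u : ℂ, u.re < 0 → ∀ᶠ v in 𝓝 u, v.re < 0 := fun u hu => hop.mem_nhds hu
  have heq : ∀ u : ℂ, u.re < 0 →
      (fun u => Complex.exp ((dU m : ℂ) * u) * QQ i j (Complex.exp u)) =ᶠ[𝓝 u] u0 i j := by
    intro u hu
    filter_upwards [hev u hu] with v hv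
    exact (u0_eq i j m hm hv).symm
  have hd1 : ∀ u : ℂ, u.re < 0 → iteratedDeriv 1 (u0 i j) u = u1 i j u := by
    intro u hu
    rw [iteratedDeriv_one]
    exact (u0_deriv i j hu).deriv
  have hd2 : ∀ u : ℂ, u.re < 0 → iteratedDeriv 2 (u0 i j) u = u2 i j u := by
    intro u hu
    rw [iteratedDeriv_succ]
    have h1 : iteratedDeriv 1 (u0 i j) =ᶠ[𝓝 u] u1 i j := by
      filter_upwards [hev u hu] with v hv
      exact hd1 v hv
    rw [h1.deriv_eq]
    exact (u1_deriv i j hu).deriv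
  have hd3 : ∀ u : ℂ, u.re < 0 → iteratedDeriv 3 (u0 i j) u = u3 i j u := by
    intro u hu
    rw [iteratedDeriv_succ]
    have h1 : iteratedDeriv 2 (u0 i j) =ᶠ[𝓝 u] u2 i j := by
      filter_upwards [hev u hu] with v hv
      exact hd2 v hv
    rw [h1.deriv_eq]
    exact (u2_deriv i j hu).deriv
  have hfrob := frob3 (δ := dU) (j := m) (Q := QQ i j) (by simp [dU]; norm_num) dU_hne
    (QQ_diff i j) (by
      intro u hu
      have e2 : ((dU 0 * dU 1 + dU 0 * dU 2 + dU 1 * dU 2 : ℝ) : ℂ) = 521 / 3888 := by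
        simp [dU]; norm_num
      have e3 : ((dU 0 * dU 1 * dU 2 : ℝ) : ℂ) = -1645 / 1259712 := by
        simp [dU]; norm_num
      rw [e2, e3, (heq u hu).iteratedDeriv_eq 3, (heq u hu).iteratedDeriv_eq 2,
        (heq u hu).iteratedDeriv_eq 1, hd1 u hu, hd2 u hu, hd3 u hu, ← u0_eq i j m hm hu]
      exact u_ode i j u)
  have hz : Complex.exp u ∈ ball (0:ℂ) 1 := by
    rw [mem_ball_zero_iff]; exact norm_exp_lt hu
  have h1 := hfrob _ hz
  have h2 := u0_eq i j m hm hu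
  rw [h1, QQ_zero] at h2
  have h3 : u0 i j u = ((dF j : ℂ) - dF i) * psi dU m u := by
    rw [h2, psi_eq]; ring
  unfold u0 w0 gg at h3
  rw [iteratedDeriv_zero, iteratedDeriv_zero, iteratedDeriv_one, iteratedDeriv_one] at h3
  have hne := one_sub_ne (norm_exp_lt hu)
  have h4 : (1 - Complex.exp u) ^ (-(1 / 2) : ℂ) * (1 - Complex.exp u) ^ ((1 / 2 : ℂ)) = 1 := by
    rw [← Complex.cpow_add _ _ hne, neg_add_cancel, Complex.cpow_zero]
  have h5 : Complex.exp (u / 4) * Complex.exp (-(u / 4)) = 1 := by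
    rw [← Complex.exp_add, add_neg_cancel, Complex.exp_zero]
  calc psi dF i u * deriv (psi dF j) u - psi dF j u * deriv (psi dF i) u
      = (Complex.exp (u / 4) * Complex.exp (-(u / 4))) *
        ((1 - Complex.exp u) ^ (-(1 / 2) : ℂ) * (1 - Complex.exp u) ^ ((1 / 2 : ℂ))) *
        (psi dF i u * deriv (psi dF j) u - psi dF j u * deriv (psi dF i) u) := by
          rw [h4, h5]; ring
    _ = Complex.exp (u / 4) * (1 - Complex.exp u) ^ (-(1 / 2) : ℂ) *
        (Complex.exp (-(u / 4)) * (1 - Complex.exp u) ^ ((1 / 2 : ℂ)) *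
        (psi dF i u * deriv (psi dF j) u - psi dF j u * deriv (psi dF i) u)) := by ring
    _ = _ := by rw [h3]; ring

end wr

theorem wr_ext {u : ℂ} (hu : u.re < 0) :
    (psi dF 0 u * deriv (psi dF 1) u - psi dF 1 u * deriv (psi dF 0) u =
      (1 / 9) * Complex.exp (u / 4) * (1 - Complex.exp u) ^ (-(1 / 2) : ℂ) * psi dU 0 u) ∧
    (psi dF 0 u * deriv (psi dF 2) u - psi dF 2 u * deriv (psi dF 0) u =
      (4 / 9) * Complex.exp (u / 4) * (1 - Complex.exp u) ^ (-(1 / 2) : ℂ) * psi dU 1 u) ∧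
    (psi dF 1 u * deriv (psi dF 2) u - psi dF 2 u * deriv (psi dF 1) u =
      (3 / 9) * Complex.exp (u / 4) * (1 - Complex.exp u) ^ (-(1 / 2) : ℂ) * psi dU 2 u) := by
  have h1 := wr_gen_W2 0 1 0 (by simp [dU, dF]; norm_num) hu
  have h2 := wr_gen_W2 0 2 1 (by simp [dU, dF]; norm_num) hu
  have h3 := wr_gen_W2 1 2 2 (by simp [dU, dF]; norm_num) hu
  have e1 : ((dF 1 : ℝ) : ℂ) - ((dF 0 : ℝ) : ℂ) = 1 / 9 := by simp [dF]; norm_num
  have e2 : ((dF 2 : ℝ) : ℂ) - ((dF 0 : ℝ) : ℂ) = 4 / 9 := by simp [dF]; norm_num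
  have e3 : ((dF 2 : ℝ) : ℂ) - ((dF 1 : ℝ) : ℂ) = 3 / 9 := by simp [dF]; norm_num
  rw [e1] at h1
  rw [e2] at h2
  rw [e3] at h3
  exact ⟨h1, h2, h3⟩

end Pool.Agent.Helper326.HB
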