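import Mathlib
import Pool.Agent.Helper326.HB.Defs
import Pool.Agent.Helper326.HB.N1
import Pool.Agent.Helper326.HB.N2
import Pool.Agent.Helper326.HB.N4
import Pool.Agent.Helper326.HB.N5
import Pool.Agent.Helper326.HB.Q1
import Pool.Agent.Helper326.HB.W2

set_option autoImplicit false
open Complex Metric Set Filter Topology Matrix

namespace Pool.Agent.Helper326.HB

private theorem minors_slit {x : ℂ} (hx : x ∈ ball (0 : ℂ) (1 / 2)) :
    1 + Complex.exp x ∈ Complex.slitPlane := by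
  left
  rw [Complex.add_re, Complex.one_re, Complex.exp_re]
  have h1 : ‖x‖ < 1 / 2 := by simpa using hx
  have h2 : |x.im| < 1 / 2 := lt_of_le_of_lt (Complex.abs_im_le_norm x) h1
  have h3 := abs_lt.1 h2
  have h4 : 0 < Real.cos x.im := by
    apply Real.cos_pos_of_mem_Ioo
    have := Real.pi_gt_three
    constructor <;> linarith [h3.1, h3.2]
  have h5 : 0 < Real.exp x.re * Real.cos x.im := mul_pos (Real.exp_pos _) h4
  linarith

private theorem minors_aux {V : Fin 3 → ℂ → ℂ}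
    (hV : ∀ j, DifferentiableOn ℂ (V j) (ball 0 (1 / 2)))
    (hVp : ∀ j, ∀ x ∈ ball (0 : ℂ) (1 / 2), x.re < 0 →
        V j x = Complex.exp (-(Real.pi * dF j * I)) * psi dF j (Real.pi * I + x))
    {v : Matrix (Fin 3) (Fin 3) ℝ} (hv : ∀ j i : Fin 3, iteratedDeriv (i : ℕ) (V j) 0 = (v j i : ℂ))
    (i j l : Fin 3) (κ : ℝ) (hκ : κ ≠ 0) (hδ : dU l = dF i + dF j - 1 / 4)
    (hwr : ∀ u : ℂ, u.re < 0 → psi dF i u * deriv (psi dF j) u - psi dF j u * deriv (psi dF i) u =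
      (κ : ℂ) * Complex.exp (u / 4) * (1 - Complex.exp u) ^ (-(1 / 2) : ℂ) * psi dU l u) :
    Tendsto (Vr dU l 1) (𝓝[<] 0)
      (𝓝 (Real.sqrt 2 / κ * (v i 0 * v j 2 - v j 0 * v i 2))) := by
  have hopen : IsOpen (ball (0 : ℂ) (1 / 2)) := isOpen_ball
  have h0mem : (0 : ℂ) ∈ ball (0 : ℂ) (1 / 2) := mem_ball_self (by norm_num)
  have hκc : (κ : ℂ) ≠ 0 := by exact_mod_cast hκ
  have hV' : ∀ j, DifferentiableOn ℂ (deriv (V j)) (ball 0 (1 / 2)) := fun j => (hV j).deriv hopen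
  set W : ℂ → ℂ := fun x => V i x * deriv (V j) x - V j x * deriv (V i) x with hW
  set E : ℂ → ℂ := fun x => Complex.exp (-x / 4) * (1 + Complex.exp x) ^ (1 / 2 : ℂ) with hE
  set Φ : ℂ → ℂ := fun x => (κ : ℂ)⁻¹ * (E x * W x) with hΦ
  have hWd : DifferentiableOn ℂ W (ball 0 (1 / 2)) :=
    ((hV i).mul (hV' j)).sub ((hV j).mul (hV' i))
  have hEd : DifferentiableOn ℂ E (ball 0 (1 / 2)) := by
    intro x hx
    apply DifferentiableAt.differentiableWithinAt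
    refine DifferentiableAt.mul (by fun_prop) ?_
    exact (DifferentiableAt.cpow_const (by fun_prop) (minors_slit hx))
  have hΦd : DifferentiableOn ℂ Φ (ball 0 (1 / 2)) := (hEd.mul hWd).const_mul _
  -- the derivative of `V j` for `x.re < 0`
  have hnb : ∀ x ∈ ball (0 : ℂ) (1 / 2), x.re < 0 →
      ∀ᶠ y in 𝓝 x, y ∈ ball (0 : ℂ) (1 / 2) ∧ y.re < 0 := by
    intro x hx hxr
    have h1 : ∀ᶠ y in 𝓝 x, y ∈ ball (0 : ℂ) (1 / 2) := hopen.mem_nhds hx
    have h2 : ∀ᶠ y : ℂ in 𝓝 x, y.re < 0 :=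
      (isOpen_lt Complex.continuous_re continuous_const).mem_nhds hxr
    exact h1.and h2
  have hdV : ∀ j, ∀ x ∈ ball (0 : ℂ) (1 / 2), x.re < 0 →
      deriv (V j) x = Complex.exp (-(Real.pi * dF j * I)) * deriv (psi dF j) (Real.pi * I + x) := by
    intro j x hx hxr
    have h1 : V j =ᶠ[𝓝 x]
        fun y => Complex.exp (-(Real.pi * dF j * I)) * psi dF j (Real.pi * I + y) := by
      filter_upwards [hnb x hx hxr] with y hy
      exact hVp j y hy.1 hy.2
    rw [h1.deriv_eq, deriv_const_mul_field, deriv_comp_const_add]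
  -- `Φ` is the function `psi dU l`
  have hΦp : ∀ x ∈ ball (0 : ℂ) (1 / 2), x.re < 0 →
      Φ x = Complex.exp (-(Real.pi * dU l * I)) * psi dU l (Real.pi * I + x) := by
    intro x hx hxr
    have hur : ((Real.pi : ℂ) * I + x).re < 0 := by
      simpa using hxr
    have h1 := hwr _ hur
    have h2 : (1 : ℂ) - Complex.exp (Real.pi * I + x) = 1 + Complex.exp x := by
      rw [Complex.exp_add, Complex.exp_pi_mul_I]; ring
    rw [h2] at h1
    have hne : (1 + Complex.exp x) ^ (1 / 2 : ℂ) ≠ 0 := by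
      intro h
      rw [Complex.cpow_eq_zero_iff] at h
      exact Complex.slitPlane_ne_zero (minors_slit hx) h.1
    have h3 : W x = Complex.exp (-(Real.pi * dF i * I)) * Complex.exp (-(Real.pi * dF j * I)) *
        ((κ : ℂ) * Complex.exp ((Real.pi * I + x) / 4) * ((1 + Complex.exp x) ^ (1 / 2 : ℂ))⁻¹
          * psi dU l (Real.pi * I + x)) := by
      rw [← Complex.cpow_neg, ← h1]
      simp only [hW]
      rw [hVp i x hx hxr, hVp j x hx hxr, hdV i x hx hxr, hdV j x hx hxr]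
      ring
    simp only [hΦ, hE]
    rw [h3]
    have h4 : Complex.exp (-(Real.pi * dU l * I)) = Complex.exp (-x / 4) *
        (Complex.exp (-(Real.pi * dF i * I)) * Complex.exp (-(Real.pi * dF j * I)) *
          Complex.exp ((Real.pi * I + x) / 4)) := by
      rw [← Complex.exp_add, ← Complex.exp_add, ← Complex.exp_add, hδ]
      congr 1
      push_cast
      ring
    rw [h4]
    field_simp
  -- derivative of `Φ` for real `x < 0`
  obtain ⟨C, hC⟩ : ∃ C, ∀ k, |hc dU l k| ≤ C :=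
    ⟨_, fun k => (coefU_summable l).le_tsum k (fun j _ => abs_nonneg _)⟩
  have hder : ∀ x : ℝ, -(1 / 2) < x → x < 0 → deriv Φ (x : ℂ) = (Vr dU l 1 x : ℂ) := by
    intro x hx1 hx2
    have hxb : (x : ℂ) ∈ ball (0 : ℂ) (1 / 2) := by
      rw [mem_ball_zero_iff, Complex.norm_real, Real.norm_eq_abs, abs_lt]
      constructor <;> linarith
    have hxr : (x : ℂ).re < 0 := by simpa using hx2
    have h1 : Φ =ᶠ[𝓝 (x : ℂ)]
        fun y => Complex.exp (-(Real.pi * dU l * I)) * psi dU l (Real.pi * I + y) := by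
      filter_upwards [hnb x hxb hxr] with y hy
      exact hΦp y hy.1 hy.2
    rw [h1.deriv_eq, deriv_const_mul_field, deriv_comp_const_add]
    have h2 := psi_Vr hC 1 hx2
    rw [iteratedDeriv_one] at h2
    rw [h2, ← mul_assoc, ← Complex.exp_add, neg_add_cancel, Complex.exp_zero, one_mul]
  -- derivative of `Φ` at `0`
  have hs2 : (2 : ℂ) ^ (1 / 2 : ℂ) = ((Real.sqrt 2 : ℝ) : ℂ) := by
    rw [Real.sqrt_eq_rpow, Complex.ofReal_cpow (by norm_num)]
    norm_num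
  have hE0 : E 0 = ((Real.sqrt 2 : ℝ) : ℂ) := by
    simp only [hE]
    rw [neg_zero, zero_div, Complex.exp_zero, one_mul, ← hs2]
    norm_num
  have hEd0 : HasDerivAt E 0 0 := by
    have h1 : HasDerivAt (fun x : ℂ => Complex.exp (-x / 4))
        (Complex.exp (-0 / 4) * (-1 / 4)) 0 :=
      ((hasDerivAt_id (0 : ℂ)).neg.div_const 4).cexp
    have h2 : HasDerivAt (fun x : ℂ => (1 + Complex.exp x) ^ (1 / 2 : ℂ))
        ((1 / 2 : ℂ) * (1 + Complex.exp 0) ^ ((1 / 2 : ℂ) - 1) * Complex.exp 0) 0 :=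
      (((Complex.hasDerivAt_exp 0).const_add 1)).cpow_const (minors_slit h0mem)
    have h3 := h1.mul h2
    have h4 : Complex.exp (-0 / 4) * (-1 / 4) * (1 + Complex.exp 0) ^ (1 / 2 : ℂ) +
        Complex.exp (-0 / 4) *
          ((1 / 2 : ℂ) * (1 + Complex.exp 0) ^ ((1 / 2 : ℂ) - 1) * Complex.exp 0) = 0 := by
      rw [neg_zero, zero_div, Complex.exp_zero, one_add_one_eq_two,
        Complex.cpow_sub _ _ two_ne_zero, Complex.cpow_one]
      ring
    rw [h4] at h3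
    exact h3
  have hVd0 : ∀ j, HasDerivAt (V j) (v j 1 : ℂ) 0 := by
    intro j
    have h1 := ((hV j).differentiableAt (hopen.mem_nhds h0mem)).hasDerivAt
    have h2 := hv j 1
    rw [show ((1 : Fin 3) : ℕ) = 1 from rfl, iteratedDeriv_one] at h2
    rw [h2] at h1
    exact h1
  have hVd0' : ∀ j, HasDerivAt (deriv (V j)) (v j 2 : ℂ) 0 := by
    intro j
    have h1 := ((hV' j).differentiableAt (hopen.mem_nhds h0mem)).hasDerivAt
    have h2 := hv j 2
    rw [show ((2 : Fin 3) : ℕ) = 2 from rfl, iteratedDeriv_succ, iteratedDeriv_one] at h2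
    rw [h2] at h1
    exact h1
  have hV0 : ∀ j, V j 0 = (v j 0 : ℂ) := by
    intro j
    have h2 := hv j 0
    rw [show ((0 : Fin 3) : ℕ) = 0 from rfl, iteratedDeriv_zero] at h2
    exact h2
  have hWd0 : HasDerivAt W (((v i 0 * v j 2 - v j 0 * v i 2 : ℝ) : ℂ)) 0 := by
    have h1 := ((hVd0 i).mul (hVd0' j)).sub ((hVd0 j).mul (hVd0' i))
    have h2 : (v i 1 : ℂ) * deriv (V j) 0 + V i 0 * (v j 2 : ℂ) -
        ((v j 1 : ℂ) * deriv (V i) 0 + V j 0 * (v i 2 : ℂ)) =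
        ((v i 0 * v j 2 - v j 0 * v i 2 : ℝ) : ℂ) := by
      rw [(hVd0 i).deriv, (hVd0 j).deriv, hV0 i, hV0 j]
      push_cast
      ring
    rw [h2] at h1
    exact h1
  have hΦ0 : deriv Φ 0 = ((Real.sqrt 2 / κ * (v i 0 * v j 2 - v j 0 * v i 2) : ℝ) : ℂ) := by
    have h1 := ((hEd0.mul hWd0).const_mul ((κ : ℂ)⁻¹)).deriv
    have h2 : deriv Φ 0 = (κ : ℂ)⁻¹ * (0 * W 0 + E 0 *
        (((v i 0 * v j 2 - v j 0 * v i 2 : ℝ) : ℂ))) := h1
    rw [h2, hE0]
    push_cast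
    ring
  have hcont : ContinuousAt (deriv Φ) 0 :=
    (hΦd.deriv hopen).continuousOn.continuousAt (hopen.mem_nhds h0mem)
  have hlim : Tendsto (fun x : ℝ => (deriv Φ (x : ℂ)).re) (𝓝[<] 0)
      (𝓝 (Real.sqrt 2 / κ * (v i 0 * v j 2 - v j 0 * v i 2))) := by
    have h1 : Tendsto (fun x : ℝ => (x : ℂ)) (𝓝[<] 0) (𝓝 (0 : ℂ)) := by
      have := (Complex.continuous_ofReal.tendsto 0).mono_left
        (nhdsWithin_le_nhds (a := (0 : ℝ)) (s := Iio 0))
      simpa using this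
    have h2 : Tendsto (fun x : ℝ => deriv Φ (x : ℂ)) (𝓝[<] 0) (𝓝 (deriv Φ 0)) :=
      hcont.tendsto.comp h1
    have h3 := (Complex.continuous_re.tendsto _).comp h2
    rw [hΦ0, Complex.ofReal_re] at h3
    exact h3
  refine hlim.congr' ?_
  have hmem : Ioo (-(1 / 2) : ℝ) 0 ∈ 𝓝[<] (0 : ℝ) := Ioo_mem_nhdsLT (by norm_num)
  filter_upwards [hmem] with x hx
  rw [hder x hx.1 hx.2, Complex.ofReal_re]

theorem minors {V : Fin 3 → ℂ → ℂ}
    (hV : ∀ j, DifferentiableOn ℂ (V j) (ball 0 (1 / 2)))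
    (hVp : ∀ j, ∀ x ∈ ball (0 : ℂ) (1 / 2), x.re < 0 →
        V j x = Complex.exp (-(Real.pi * dF j * I)) * psi dF j (Real.pi * I + x))
    {v : Matrix (Fin 3) (Fin 3) ℝ} (hv : ∀ j i : Fin 3, iteratedDeriv (i : ℕ) (V j) 0 = (v j i : ℂ)) :
    ∃ S : Fin 3 → ℝ, (∀ l, Tendsto (Vr dU l 1) (𝓝[<] 0) (𝓝 (S l))) ∧
      9 * Real.sqrt 2 * (v 0 0 * v 1 2 - v 1 0 * v 0 2) = S 0 ∧
      9 * Real.sqrt 2 * (v 0 0 * v 2 2 - v 2 0 * v 0 2) = 4 * S 1 ∧
      9 * Real.sqrt 2 * (v 1 0 * v 2 2 - v 2 0 * v 1 2) = 3 * S 2 := by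
  have h0 := minors_aux hV hVp hv 0 1 0 (1 / 9) (by norm_num)
    (by simp [dU, dF]; norm_num) (by
      intro u hu
      have := (wr_ext hu).1
      rw [this]
      push_cast
      ring)
  have h1 := minors_aux hV hVp hv 0 2 1 (4 / 9) (by norm_num)
    (by simp [dU, dF]; norm_num) (by
      intro u hu
      have := (wr_ext hu).2.1
      rw [this]
      push_cast
      ring)
  have h2 := minors_aux hV hVp hv 1 2 2 (3 / 9) (by norm_num)
    (by simp [dU, dF]; norm_num) (by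
      intro u hu
      have := (wr_ext hu).2.2
      rw [this]
      push_cast
      ring)
  refine ⟨![Real.sqrt 2 / (1 / 9) * (v 0 0 * v 1 2 - v 1 0 * v 0 2),
    Real.sqrt 2 / (4 / 9) * (v 0 0 * v 2 2 - v 2 0 * v 0 2),
    Real.sqrt 2 / (3 / 9) * (v 1 0 * v 2 2 - v 2 0 * v 1 2)], ?_, ?_, ?_, ?_⟩
  · intro l
    fin_cases l
    · exact h0
    · exact h1
    · exact h2
  · show _ = Real.sqrt 2 / (1 / 9) * (v 0 0 * v 1 2 - v 1 0 * v 0 2)
    ring
  · show _ = 4 * (Real.sqrt 2 / (4 / 9) * (v 0 0 * v 2 2 - v 2 0 * v 0 2))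
    ring
  · show _ = 3 * (Real.sqrt 2 / (3 / 9) * (v 1 0 * v 2 2 - v 2 0 * v 1 2))
    ring

theorem h_exists {v : Matrix (Fin 3) (Fin 3) ℝ} (hv : ∀ j, Tendsto (Vr dF j 1) (𝓝[<] 0) (𝓝 (v j 1)))
    {S : Fin 3 → ℝ} (hS : ∀ l, Tendsto (Vr dU l 1) (𝓝[<] 0) (𝓝 (S l)))
    (m01 : 9 * Real.sqrt 2 * (v 0 0 * v 1 2 - v 1 0 * v 0 2) = S 0)
    (m02 : 9 * Real.sqrt 2 * (v 0 0 * v 2 2 - v 2 0 * v 0 2) = 4 * S 1)
    (m12 : 9 * Real.sqrt 2 * (v 1 0 * v 2 2 - v 2 0 * v 1 2) = 3 * S 2) :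
    v.det ≠ 0 ∧ ∃ h1 h2 : ℝ, 0.345 ≤ h1 ∧ h1 ≤ 0.36 ∧ 0.0006 ≤ h2 ∧ h2 ≤ 0.00095 ∧
      - v 0 0 * v 0 1 + h1 * (v 1 0 * v 1 1) + h2 * (v 2 0 * v 2 1) = 0 ∧
      - v 0 1 * v 0 2 + h1 * (v 1 1 * v 1 2) + h2 * (v 2 1 * v 2 2) = 0 := by
  obtain ⟨a1, a2⟩ := altF0 (hv 0)
  obtain ⟨b1, b2⟩ := altF1 (hv 1)
  obtain ⟨c1, c2⟩ := altF2 (hv 2)
  obtain ⟨s01, s02⟩ := altU0 (hS 0)
  obtain ⟨s11, s12⟩ := altU1 (hS 1)
  obtain ⟨s21, s22⟩ := altU2 (hS 2)
  have hr : 0 < Real.sqrt 2 := by positivity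
  set r := Real.sqrt 2
  set A := v 0 1
  set B := v 1 1
  set C := v 2 1
  set S0 := S 0
  set S1 := S 1
  set S2 := S 2
  have hA : 0 < A := by linarith
  have hB : 0 < B := by linarith
  have hC : 0 < C := by linarith
  have hS2 : 0 < S2 := by linarith
  have hS1 : 0 < S1 := by linarith
  have e12 : v 1 0 * v 2 2 - v 2 0 * v 1 2 = 3 * S2 / (9 * r) := by
    rw [eq_div_iff (by positivity)]; linarith
  have e02 : v 0 0 * v 2 2 - v 2 0 * v 0 2 = 4 * S1 / (9 * r) := by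
    rw [eq_div_iff (by positivity)]; linarith
  have e01 : v 0 0 * v 1 2 - v 1 0 * v 0 2 = S0 / (9 * r) := by
    rw [eq_div_iff (by positivity)]; linarith
  constructor
  · have hdet : v.det = (-(3 * (A * S2)) + 4 * (B * S1) - C * S0) / (9 * r) := by
      have h1 : v.det = -A * (v 1 0 * v 2 2 - v 2 0 * v 1 2) + B * (v 0 0 * v 2 2 - v 2 0 * v 0 2)
          - C * (v 0 0 * v 1 2 - v 1 0 * v 0 2) := by
        rw [Matrix.det_fin_three]
        ring
      rw [h1, e12, e02, e01]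
      ring
    rw [hdet]
    have h1 : A * S2 ≤ 0.0421 * 0.2910 := mul_le_mul a2 s22 hS2.le (by norm_num)
    have h2 : 0.1212 * 0.2226 ≤ B * S1 := mul_le_mul b1 s11 (by norm_num) hB.le
    have h3 : 0.325 * 0.0045 ≤ C * (-S0) := mul_le_mul c1 (by linarith) (by norm_num) hC.le
    have h4 : 0 < -(3 * (A * S2)) + 4 * (B * S1) - C * S0 := by
      norm_num at h1 h2 h3
      linarith
    exact (div_pos h4 (by positivity)).ne'
  · refine ⟨4 / 3 * (S1 / S2) * (A / B), -(1 / 3) * (S0 / S2) * (A / C), ?_, ?_, ?_, ?_, ?_, ?_⟩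
    · have h1 : 0.2226 / 0.2910 ≤ S1 / S2 := div_le_div₀ hS1.le s11 hS2 s22
      have h2 : 0.0415 / 0.1222 ≤ A / B := div_le_div₀ hA.le a1 hB b2
      have h3 : (0.2226 / 0.2910) * (0.0415 / 0.1222) ≤ (S1 / S2) * (A / B) :=
        mul_le_mul h1 h2 (by norm_num) (by positivity)
      norm_num at h3 ⊢
      linarith
    · have h1 : S1 / S2 ≤ 0.2241 / 0.2890 := div_le_div₀ (by norm_num) s12 (by norm_num) s21
      have h2 : A / B ≤ 0.0421 / 0.1212 := div_le_div₀ (by norm_num) a2 (by norm_num) b1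
      have h3 : (S1 / S2) * (A / B) ≤ (0.2241 / 0.2890) * (0.0421 / 0.1212) :=
        mul_le_mul h1 h2 (by positivity) (by norm_num)
      norm_num at h3 ⊢
      linarith
    · have h1 : 0.0045 / 0.2910 ≤ (-S0) / S2 := div_le_div₀ (by linarith) (by linarith) hS2 s22
      have h2 : 0.0415 / 0.334 ≤ A / C := div_le_div₀ hA.le a1 hC c2
      have h0 : 0 ≤ (-S0) / S2 := div_nonneg (by linarith) hS2.le
      have h3 : (0.0045 / 0.2910) * (0.0415 / 0.334) ≤ ((-S0) / S2) * (A / C) :=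
        mul_le_mul h1 h2 (by norm_num) h0
      have h4 : ((-S0) / S2) * (A / C) = -((S0 / S2) * (A / C)) := by ring
      rw [h4] at h3
      norm_num at h3 ⊢
      linarith
    · have h1 : (-S0) / S2 ≤ 0.0060 / 0.2890 :=
        div_le_div₀ (by norm_num) (by linarith) (by norm_num) s21
      have h2 : A / C ≤ 0.0421 / 0.325 := div_le_div₀ (by norm_num) a2 (by norm_num) c1
      have h3 : ((-S0) / S2) * (A / C) ≤ (0.0060 / 0.2890) * (0.0421 / 0.325) :=
        mul_le_mul h1 h2 (by positivity) (by norm_num)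
      have h4 : ((-S0) / S2) * (A / C) = -((S0 / S2) * (A / C)) := by ring
      rw [h4] at h3
      norm_num at h3 ⊢
      linarith
    · have h1 : v 0 0 * (3 * S2) - v 1 0 * (4 * S1) + v 2 0 * S0 = 0 := by
        rw [← m12, ← m02, ← m01]; ring
      field_simp
      linear_combination (-A) * h1
    · have h1 : v 0 2 * (3 * S2) - v 1 2 * (4 * S1) + v 2 2 * S0 = 0 := by
        rw [← m12, ← m02, ← m01]; ring
      field_simp
      linear_combination (-A) * h1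

end Pool.Agent.Helper326.HB
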