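import Mathlib
import Pool.Agent.Helper326.HB.Defs
import Pool.Agent.Helper326.HB.N1
import Pool.Agent.Helper326.HB.N2
import Pool.Agent.Helper326.HB.O1
import Pool.Agent.Helper326.HB.Q1
import Pool.Agent.Helper326.HB.Q2
import Pool.Agent.Helper326.HB.R1

set_option autoImplicit false
open Complex Metric Set Filter Topology Matrix

namespace Pool.Agent.Helper326.HB

theorem coth_shift15377 (x : ℂ) :
    Complex.cosh ((Real.pi * I + x) / 2) / Complex.sinh ((Real.pi * I + x) / 2) =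
      Complex.tanh (x / 2) := by
  have h0 : (Real.pi * I + x) / 2 = x / 2 + (Real.pi / 2 : ℂ) * I := by ring
  have h1 : Complex.cosh ((Real.pi / 2 : ℂ) * I) = 0 := by
    rw [Complex.cosh_mul_I, Complex.cos_pi_div_two]
  have h2 : Complex.sinh ((Real.pi / 2 : ℂ) * I) = I := by
    rw [Complex.sinh_mul_I, Complex.sin_pi_div_two, one_mul]
  rw [h0, Complex.cosh_add, Complex.sinh_add, h1, h2, mul_zero, mul_zero, zero_add, zero_add,
    mul_div_mul_right _ _ I_ne_zero, Complex.tanh_eq_sinh_div_cosh]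

theorem analytic_iter15377 {f : ℂ → ℂ} {s : Set ℂ} (h : AnalyticOnNhd ℂ f s) (m : ℕ) :
    AnalyticOnNhd ℂ (iteratedDeriv m f) s := by
  rw [iteratedDeriv_eq_iterate]
  exact h.iterated_deriv m

theorem iter_shift15377 {V p : ℂ → ℂ} {c s : ℂ}
    (hVp : ∀ x ∈ ball (0 : ℂ) (1 / 2), x.re < 0 → V x = c * p (s + x)) (m : ℕ)
    {x : ℂ} (hx : x ∈ ball (0 : ℂ) (1 / 2)) (hre : x.re < 0) :
    iteratedDeriv m V x = c * iteratedDeriv m p (s + x) := by
  have hev : V =ᶠ[𝓝 x] fun z => c * p (s + z) := by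
    have h1 : ∀ᶠ z in 𝓝 x, z ∈ ball (0 : ℂ) (1 / 2) := isOpen_ball.mem_nhds hx
    have h2 : ∀ᶠ z : ℂ in 𝓝 x, z.re < 0 :=
      Complex.continuous_re.continuousAt.eventually (gt_mem_nhds hre)
    filter_upwards [h1, h2] with z hz1 hz2
    exact hVp z hz1 hz2
  rw [hev.iteratedDeriv_eq m, iteratedDeriv_const_mul_field c (fun z => p (s + z)),
    iteratedDeriv_comp_const_add]

theorem parity_gen15377 {n : ℕ} (a : Fin n → ℂ → ℂ)
    (ha : ∀ i, DifferentiableOn ℂ (a i) (ball 0 (1 / 2)))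
    (hpar : ∀ (i : Fin n), ∀ x ∈ ball (0 : ℂ) (1 / 2),
      (-1) ^ n * (-1) ^ (i : ℕ) * a i (-x) = a i x)
    {V : Fin n → ℂ → ℂ} (hV : ∀ j, DifferentiableOn ℂ (V j) (ball 0 (1 / 2)))
    (heq : ∀ j, ∀ x ∈ ball (0 : ℂ) (1 / 2), x.re < 0 →
      iteratedDeriv n (V j) x = ∑ i : Fin n, a i x * iteratedDeriv i (V j) x)
    {v : Matrix (Fin n) (Fin n) ℝ}
    (hv : ∀ j i : Fin n, iteratedDeriv (i : ℕ) (V j) 0 = (v j i : ℂ)) (hdet : v.det ≠ 0)
    (d : Fin n → ℝ) (hd : ∀ i, d i = (-1) ^ (i : ℕ)) :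
    ∀ j, ∀ x ∈ ball (0 : ℂ) (1 / 2), V j (-x) =
      ∑ l, (((v * Matrix.diagonal d * v⁻¹ : Matrix (Fin n) (Fin n) ℝ) j l : ℝ) : ℂ) * V l x := by
  have hneg : ∀ x : ℂ, x ∈ ball (0 : ℂ) (1 / 2) → -x ∈ ball (0 : ℂ) (1 / 2) := by
    intro x hx
    rw [mem_ball_zero_iff] at hx ⊢
    rwa [norm_neg]
  have hVa : ∀ j, AnalyticOnNhd ℂ (V j) (ball 0 (1 / 2)) := fun j =>
    (hV j).analyticOnNhd isOpen_ball
  have haa : ∀ i, AnalyticOnNhd ℂ (a i) (ball 0 (1 / 2)) := fun i =>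
    (ha i).analyticOnNhd isOpen_ball
  -- the equation on the whole disc
  have heq' : ∀ j, ∀ x ∈ ball (0 : ℂ) (1 / 2),
      iteratedDeriv n (V j) x = ∑ i : Fin n, a i x * iteratedDeriv i (V j) x := by
    intro j
    have hg : AnalyticOnNhd ℂ (fun x => ∑ i : Fin n, a i x * iteratedDeriv i (V j) x)
        (ball 0 (1 / 2)) := by
      apply Finset.analyticOnNhd_fun_sum
      intro i _
      exact (haa i).mul (analytic_iter15377 (hVa j) i)
    have hz : (-(1 / 4) : ℂ) ∈ ball (0 : ℂ) (1 / 2) := by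
      rw [mem_ball_zero_iff, norm_neg]
      norm_num
    have hre : (-(1 / 4) : ℂ).re < 0 := by
      rw [Complex.neg_re]
      norm_num
    have hev : iteratedDeriv n (V j) =ᶠ[𝓝 (-(1 / 4) : ℂ)]
        fun x => ∑ i : Fin n, a i x * iteratedDeriv i (V j) x := by
      have h1 : ∀ᶠ z in 𝓝 (-(1 / 4) : ℂ), z ∈ ball (0 : ℂ) (1 / 2) := isOpen_ball.mem_nhds hz
      have h2 : ∀ᶠ z : ℂ in 𝓝 (-(1 / 4) : ℂ), z.re < 0 :=
        Complex.continuous_re.continuousAt.eventually (gt_mem_nhds hre)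
      filter_upwards [h1, h2] with z hz1 hz2
      exact heq j z hz1 hz2
    exact (analytic_iter15377 (hVa j) n).eqOn_of_preconnected_of_eventuallyEq hg
      (convex_ball _ _).isPreconnected hz hev
  intro j
  obtain ⟨c, hc⟩ : ∃ c : Fin n → ℂ, c = fun l =>
    (((v * Matrix.diagonal d * v⁻¹ : Matrix (Fin n) (Fin n) ℝ) j l : ℝ) : ℂ) := ⟨_, rfl⟩
  have hzi : ∀ (m : ℕ) (τ : ℂ), τ ∈ ball (0 : ℂ) (1 / 2) →
      iteratedDeriv m (fun x => ∑ l, c l * V l x) τ = ∑ l, c l * iteratedDeriv m (V l) τ := by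
    intro m τ hτ
    rw [iteratedDeriv_fun_sum]
    · exact Finset.sum_congr rfl fun l _ => iteratedDeriv_const_mul_field (c l) (V l)
    · intro l _
      exact contDiffAt_const.mul ((hVa l τ hτ).contDiffAt)
  have hyd : DifferentiableOn ℂ (fun x => V j (-x)) (ball 0 (1 / 2)) :=
    (hV j).comp differentiable_neg.differentiableOn (fun x hx => hneg x hx)
  have hzd : DifferentiableOn ℂ (fun x => ∑ l, c l * V l x) (ball 0 (1 / 2)) := by
    apply DifferentiableOn.fun_sum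
    intro l _
    exact (hV l).const_mul (c l)
  have key := ode_unique a isOpen_ball (convex_ball (0 : ℂ) (1 / 2)) ha hyd hzd ?_ ?_
    (τ₀ := 0) (mem_ball_self (by norm_num)) ?_
  · intro x hx
    have := key hx
    simp only [hc] at this
    exact this
  · intro τ hτ
    rw [iteratedDeriv_comp_neg, heq' j (-τ) (hneg τ hτ), smul_eq_mul, Finset.mul_sum]
    refine Finset.sum_congr rfl fun i _ => ?_
    rw [iteratedDeriv_comp_neg, smul_eq_mul, ← hpar i τ hτ]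
    have h1 : ((-1 : ℂ) ^ (i : ℕ)) * ((-1 : ℂ) ^ (i : ℕ)) = 1 := by
      rw [← mul_pow]; norm_num
    calc (-1 : ℂ) ^ n * (a i (-τ) * iteratedDeriv (i : ℕ) (V j) (-τ)) =
        (-1 : ℂ) ^ n * (a i (-τ) * iteratedDeriv (i : ℕ) (V j) (-τ)) *
          (((-1 : ℂ) ^ (i : ℕ)) * ((-1 : ℂ) ^ (i : ℕ))) := by rw [h1, mul_one]
      _ = _ := by ring
  · intro τ hτ
    rw [hzi n τ hτ]
    have h1 : ∀ l ∈ Finset.univ, c l * iteratedDeriv n (V l) τ =
        ∑ i : Fin n, a i τ * (c l * iteratedDeriv i (V l) τ) := by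
      intro l _
      rw [heq' l τ hτ, Finset.mul_sum]
      exact Finset.sum_congr rfl fun i _ => by ring
    rw [Finset.sum_congr rfl h1, Finset.sum_comm]
    refine Finset.sum_congr rfl fun i _ => ?_
    rw [hzi i τ hτ, Finset.mul_sum]
  · intro i
    rw [iteratedDeriv_comp_neg, neg_zero, hv, hzi i 0 (mem_ball_self (by norm_num)), smul_eq_mul]
    have h1 : ∀ l ∈ Finset.univ, c l * iteratedDeriv (i : ℕ) (V l) 0 =
        (((v * Matrix.diagonal d * v⁻¹ : Matrix (Fin n) (Fin n) ℝ) j l * v l i : ℝ) : ℂ) := by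
      intro l _
      rw [hv, hc, Complex.ofReal_mul]
    rw [Finset.sum_congr rfl h1, ← Complex.ofReal_sum, ← Matrix.mul_apply, Matrix.mul_assoc,
      Matrix.nonsing_inv_mul v (isUnit_iff_ne_zero.2 hdet), Matrix.mul_one, Matrix.mul_diagonal,
      hd i]
    push_cast
    ring

theorem parity3 {δ : Fin 3 → ℝ} (hsum : δ 0 + δ 1 + δ 2 = 3 / 4)
    (hne : ∀ (i j : Fin 3) (k : ℕ), δ j + k + 1 - δ i ≠ 0) {C : ℝ}
    (hC : ∀ j k, |hc δ j k| ≤ C) {V : Fin 3 → ℂ → ℂ}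
    (hV : ∀ j, DifferentiableOn ℂ (V j) (ball 0 (1 / 2)))
    (hVp : ∀ j, ∀ x ∈ ball (0 : ℂ) (1 / 2), x.re < 0 →
        V j x = Complex.exp (-(Real.pi * δ j * I)) * psi δ j (Real.pi * I + x))
    {v : Matrix (Fin 3) (Fin 3) ℝ} (hv : ∀ j i : Fin 3, iteratedDeriv (i : ℕ) (V j) 0 = (v j i : ℂ))
    (hdet : v.det ≠ 0) :
    ∀ j, ∀ x ∈ ball (0 : ℂ) (1 / 2),
      V j (-x) = ∑ l, (((v * Matrix.diagonal ![1, -1, 1] * v⁻¹ : Matrix (Fin 3) (Fin 3) ℝ) j l : ℝ) : ℂ) * V l x := by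
  have hsub : ball (0 : ℂ) (1 / 2) ⊆ ball (0 : ℂ) 2 := ball_subset_ball (by norm_num)
  have ht : DifferentiableOn ℂ (fun x : ℂ => Complex.tanh (x / 2)) (ball 0 (1 / 2)) :=
    tanh_hol.1.mono hsub
  refine parity_gen15377 (n := 3)
    ![fun x => -((δ 0 * δ 1 * δ 2 : ℝ) : ℂ) * Complex.tanh (x / 2),
      fun _ => -((δ 0 * δ 1 + δ 0 * δ 2 + δ 1 * δ 2 : ℝ) : ℂ),
      fun x => -(3 / 4) * Complex.tanh (x / 2)] ?_ ?_ hV ?_ hv hdet ![1, -1, 1] ?_
  · intro i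
    fin_cases i
    · exact ht.const_mul _
    · exact differentiableOn_const _
    · exact ht.const_mul _
  · intro i x _
    have htn := tanh_hol.2 x
    fin_cases i
    · show (-1 : ℂ) ^ 3 * (-1) ^ 0 * (-((δ 0 * δ 1 * δ 2 : ℝ) : ℂ) * Complex.tanh (-x / 2)) =
        -((δ 0 * δ 1 * δ 2 : ℝ) : ℂ) * Complex.tanh (x / 2)
      rw [htn]; ring
    · show (-1 : ℂ) ^ 3 * (-1) ^ 1 * (-((δ 0 * δ 1 + δ 0 * δ 2 + δ 1 * δ 2 : ℝ) : ℂ)) =
        -((δ 0 * δ 1 + δ 0 * δ 2 + δ 1 * δ 2 : ℝ) : ℂ)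
      ring
    · show (-1 : ℂ) ^ 3 * (-1) ^ 2 * (-(3 / 4) * Complex.tanh (-x / 2)) =
        -(3 / 4) * Complex.tanh (x / 2)
      rw [htn]; ring
  · intro j x hx hre
    have hu : (Real.pi * I + x).re < 0 := by
      rw [Complex.add_re]
      simpa using hre
    have h := ode3 hsum hne (hC j) hu
    rw [coth_shift15377] at h
    have e0 := iter_shift15377 (hVp j) 0 hx hre
    have e1 := iter_shift15377 (hVp j) 1 hx hre
    have e2 := iter_shift15377 (hVp j) 2 hx hre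
    have e3 := iter_shift15377 (hVp j) 3 hx hre
    rw [Fin.sum_univ_three]
    show iteratedDeriv 3 (V j) x = -((δ 0 * δ 1 * δ 2 : ℝ) : ℂ) * Complex.tanh (x / 2) *
      iteratedDeriv 0 (V j) x + -((δ 0 * δ 1 + δ 0 * δ 2 + δ 1 * δ 2 : ℝ) : ℂ) *
      iteratedDeriv 1 (V j) x + -(3 / 4) * Complex.tanh (x / 2) * iteratedDeriv 2 (V j) x
    rw [e0, e1, e2, e3, iteratedDeriv_zero]
    linear_combination (Complex.exp (-(Real.pi * δ j * I))) * h
  · intro i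
    fin_cases i
    · show (1 : ℝ) = (-1) ^ 0
      norm_num
    · show (-1 : ℝ) = (-1) ^ 1
      norm_num
    · show (1 : ℝ) = (-1) ^ 2
      norm_num

/-- second order: `V'' + (1/4) tanh(x/2) V' + s2 V = 0` -/
theorem parity2 {δ : Fin 2 → ℝ} (hsum : δ 0 + δ 1 = 1 / 4)
    (hne : ∀ (i j : Fin 2) (k : ℕ), δ j + k + 1 - δ i ≠ 0) {C : ℝ}
    (hC : ∀ j k, |hc δ j k| ≤ C) {V : Fin 2 → ℂ → ℂ}
    (hV : ∀ j, DifferentiableOn ℂ (V j) (ball 0 (1 / 2)))
    (hVp : ∀ j, ∀ x ∈ ball (0 : ℂ) (1 / 2), x.re < 0 →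
        V j x = Complex.exp (-(Real.pi * δ j * I)) * psi δ j (Real.pi * I + x))
    {v : Matrix (Fin 2) (Fin 2) ℝ} (hv : ∀ j i : Fin 2, iteratedDeriv (i : ℕ) (V j) 0 = (v j i : ℂ))
    (hdet : v.det ≠ 0) :
    ∀ j, ∀ x ∈ ball (0 : ℂ) (1 / 2),
      V j (-x) = ∑ l, (((v * Matrix.diagonal ![1, -1] * v⁻¹ : Matrix (Fin 2) (Fin 2) ℝ) j l : ℝ) : ℂ) * V l x := by
  have hsub : ball (0 : ℂ) (1 / 2) ⊆ ball (0 : ℂ) 2 := ball_subset_ball (by norm_num)
  have ht : DifferentiableOn ℂ (fun x : ℂ => Complex.tanh (x / 2)) (ball 0 (1 / 2)) :=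
    tanh_hol.1.mono hsub
  refine parity_gen15377 (n := 2)
    ![fun _ => -((δ 0 * δ 1 : ℝ) : ℂ), fun x => -(1 / 4) * Complex.tanh (x / 2)]
    ?_ ?_ hV ?_ hv hdet ![1, -1] ?_
  · intro i
    fin_cases i
    · exact differentiableOn_const _
    · exact ht.const_mul _
  · intro i x _
    have htn := tanh_hol.2 x
    fin_cases i
    · show (-1 : ℂ) ^ 2 * (-1) ^ 0 * (-((δ 0 * δ 1 : ℝ) : ℂ)) = -((δ 0 * δ 1 : ℝ) : ℂ)
      ring
    · show (-1 : ℂ) ^ 2 * (-1) ^ 1 * (-(1 / 4) * Complex.tanh (-x / 2)) =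
        -(1 / 4) * Complex.tanh (x / 2)
      rw [htn]; ring
  · intro j x hx hre
    have hu : (Real.pi * I + x).re < 0 := by
      rw [Complex.add_re]
      simpa using hre
    have h := ode2 hsum hne (hC j) hu
    rw [coth_shift15377] at h
    have e0 := iter_shift15377 (hVp j) 0 hx hre
    have e1 := iter_shift15377 (hVp j) 1 hx hre
    have e2 := iter_shift15377 (hVp j) 2 hx hre
    rw [Fin.sum_univ_two]
    show iteratedDeriv 2 (V j) x = -((δ 0 * δ 1 : ℝ) : ℂ) *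
      iteratedDeriv 0 (V j) x + -(1 / 4) * Complex.tanh (x / 2) * iteratedDeriv 1 (V j) x
    rw [e0, e1, e2, iteratedDeriv_zero]
    linear_combination (Complex.exp (-(Real.pi * δ j * I))) * h
  · intro i
    fin_cases i
    · show (1 : ℝ) = (-1) ^ 0
      norm_num
    · show (-1 : ℝ) = (-1) ^ 1
      norm_num

end Pool.Agent.Helper326.HB
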