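import Mathlib
import Pool.Agent.Helper326.HB.Defs
import Pool.Agent.Helper326.HB.N1
import Pool.Agent.Helper326.HB.N2
import Pool.Agent.Helper326.HB.Q1

set_option autoImplicit false
open Complex Metric Set Filter Topology Matrix

namespace Pool.Agent.Helper326.HB

theorem exists_V {n : ℕ} {δ : Fin n → ℝ} {j : Fin n} {C : ℝ} (hC : ∀ k, |hc δ j k| ≤ C) {A : ℂ → ℂ}
    (hA : DifferentiableOn ℂ A (ball 0 2))
    (hm : ∀ τ ∈ ball (0 : ℂ) 2, 0 < τ.re → |τ.im| < τ.re → A τ = psi δ j (-τ ^ 2)) :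
    ∃ V : ℂ → ℂ, DifferentiableOn ℂ V (ball 0 (1 / 2)) ∧
      (∀ x ∈ ball (0 : ℂ) (1 / 2), x.re < 0 →
        V x = Complex.exp (-(Real.pi * δ j * I)) * psi δ j (Real.pi * I + x)) ∧
      (∀ x ∈ ball (0 : ℂ) (1 / 2),
        V x = Complex.exp (-(Real.pi * δ j * I)) * A ((-(Real.pi * I) - x) ^ (1 / 2 : ℂ))) ∧
      (∀ x ∈ ball (0 : ℂ) (1 / 2), 0 < x.re →
        A (I * (-(Real.pi * I) - x) ^ (1 / 2 : ℂ)) = Complex.exp (-(Real.pi * δ j * I)) * V (-x)) ∧
      ∀ m : ℕ, ∃ v : ℝ, iteratedDeriv m V 0 = v ∧ Tendsto (Vr δ j m) (𝓝[<] 0) (𝓝 v) := by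
  have hsq : ∀ z : ℂ, ((z ^ (1 / 2 : ℂ)) ^ 2) = z := by
    intro z
    have h := Complex.cpow_nat_inv_pow z (n := 2) two_ne_zero
    have e : ((2:ℕ) : ℂ)⁻¹ = (1/2 : ℂ) := by push_cast; ring
    rwa [e] at h
  have hre : ∀ z : ℂ, z ∈ slitPlane → 0 < (z ^ (1/2 : ℂ)).re := by
    intro z hz
    rw [Complex.cpow_def_of_ne_zero (slitPlane_ne_zero hz), Complex.exp_re]
    have h1 : (Complex.log z * (1/2 : ℂ)).im = z.arg / 2 := by
      rw [show (1/2 : ℂ) = ((1/2 : ℝ) : ℂ) by push_cast; rfl, Complex.im_mul_ofReal, Complex.log_im]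
      ring
    rw [h1]
    apply mul_pos (Real.exp_pos _)
    apply Real.cos_pos_of_mem_Ioo
    have h2 := Complex.neg_pi_lt_arg z
    have h3 : z.arg < Real.pi :=
      lt_of_le_of_ne (Complex.arg_le_pi z) (Complex.mem_slitPlane_iff_arg.1 hz).1
    constructor <;> linarith
  have hball : ∀ x ∈ ball (0 : ℂ) (1 / 2), -(1/2) < x.im ∧ x.im < 1/2 ∧ ‖-(Real.pi * I) - x‖ < 4 := by
    intro x hx
    rw [mem_ball_zero_iff] at hx
    have h1 := Complex.abs_im_le_norm x
    have h2 := abs_le.1 (h1.trans hx.le)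
    have h3 := abs_lt.1 (h1.trans_lt hx)
    refine ⟨h3.1, h3.2, ?_⟩
    have h4 : ‖-(Real.pi * I) - x‖ ≤ ‖-(Real.pi * I)‖ + ‖x‖ := norm_sub_le _ _
    have h5 : ‖-((Real.pi : ℂ) * I)‖ = Real.pi := by
      rw [norm_neg, norm_mul, Complex.norm_I, mul_one, Complex.norm_real, Real.norm_eq_abs,
        abs_of_pos Real.pi_pos]
    rw [h5] at h4
    have h6 := Real.pi_lt_d2
    linarith
  have hzre : ∀ x : ℂ, (-(Real.pi * I) - x).re = - x.re := by
    intro x
    simp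
  have hzim : ∀ x : ℂ, (-(Real.pi * I) - x).im = - Real.pi - x.im := by
    intro x
    simp
  have hslit : ∀ x ∈ ball (0 : ℂ) (1 / 2), -(Real.pi * I) - x ∈ slitPlane := by
    intro x hx
    rw [Complex.mem_slitPlane_iff]
    right
    rw [hzim]
    have := (hball x hx).1
    have h6 := Real.pi_gt_three
    intro h
    linarith
  have hnorm : ∀ x ∈ ball (0 : ℂ) (1 / 2), ‖(-(Real.pi * I) - x) ^ (1 / 2 : ℂ)‖ < 2 := by
    intro x hx
    have h1 := (hball x hx).2.2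
    have h2 := congrArg norm (hsq (-(Real.pi * I) - x))
    rw [norm_pow] at h2
    rw [← h2] at h1
    by_contra hlt
    push Not at hlt
    nlinarith
  have hpart : ∀ x ∈ ball (0 : ℂ) (1 / 2),
      0 < ((-(Real.pi * I) - x) ^ (1 / 2 : ℂ)).re ∧ ((-(Real.pi * I) - x) ^ (1 / 2 : ℂ)).im < 0 ∧
      ((-(Real.pi * I) - x) ^ (1 / 2 : ℂ)).re ^ 2 - ((-(Real.pi * I) - x) ^ (1 / 2 : ℂ)).im ^ 2 = - x.re := by
    intro x hx
    have h1 := hre _ (hslit x hx)
    have h2 := hsq (-(Real.pi * I) - x)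
    generalize (-(Real.pi * I) - x) ^ (1 / 2 : ℂ) = s at h1 h2 ⊢
    have h3 := congrArg Complex.re h2
    have h4 := congrArg Complex.im h2
    rw [hzre] at h3
    rw [hzim] at h4
    rw [sq] at h3 h4
    rw [Complex.mul_re] at h3
    rw [Complex.mul_im] at h4
    have h5 := (hball x hx).1
    have h6 := Real.pi_gt_three
    refine ⟨h1, ?_, by rw [← h3]; ring⟩
    by_contra hlt
    push Not at hlt
    have : 0 ≤ s.re * s.im := mul_nonneg h1.le hlt
    nlinarith
  let V : ℂ → ℂ := fun x => Complex.exp (-(Real.pi * δ j * I)) * A ((-(Real.pi * I) - x) ^ (1 / 2 : ℂ))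
  have hVdef : ∀ x, V x = Complex.exp (-(Real.pi * δ j * I)) * A ((-(Real.pi * I) - x) ^ (1 / 2 : ℂ)) :=
    fun x => rfl
  have hVdiff : DifferentiableOn ℂ V (ball 0 (1 / 2)) := by
    apply DifferentiableOn.const_mul
    refine DifferentiableOn.comp (t := ball 0 2) hA ?_ ?_
    · intro x hx
      apply DifferentiableAt.differentiableWithinAt
      apply DifferentiableAt.cpow
      · fun_prop
      · fun_prop
      · exact hslit x hx
    · intro x hx
      rw [mem_ball_zero_iff]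
      exact hnorm x hx
  have hVneg : ∀ x ∈ ball (0 : ℂ) (1 / 2), x.re < 0 →
        V x = Complex.exp (-(Real.pi * δ j * I)) * psi δ j (Real.pi * I + x) := by
    intro x hx hxr
    obtain ⟨h1, h2, h3⟩ := hpart x hx
    have h4 : |((-(Real.pi * I) - x) ^ (1 / 2 : ℂ)).im| < ((-(Real.pi * I) - x) ^ (1 / 2 : ℂ)).re := by
      rw [abs_of_neg h2]
      nlinarith
    rw [hVdef, hm _ (by rw [mem_ball_zero_iff]; exact hnorm x hx) h1 h4, hsq]
    congr 2
    ring
  have hVpos : ∀ x ∈ ball (0 : ℂ) (1 / 2), 0 < x.re →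
        A (I * (-(Real.pi * I) - x) ^ (1 / 2 : ℂ)) = Complex.exp (-(Real.pi * δ j * I)) * V (-x) := by
    intro x hx hxr
    obtain ⟨h1, h2, h3⟩ := hpart x hx
    have hx' : -x ∈ ball (0 : ℂ) (1 / 2) := by
      rw [mem_ball_zero_iff] at hx ⊢
      rwa [norm_neg]
    rw [hVneg (-x) hx' (by rw [Complex.neg_re]; linarith)]
    have e1 : (I * (-(Real.pi * I) - x) ^ (1 / 2 : ℂ)).re = -((-(Real.pi * I) - x) ^ (1 / 2 : ℂ)).im := by
      rw [Complex.mul_re, Complex.I_re, Complex.I_im]; ring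
    have e2 : (I * (-(Real.pi * I) - x) ^ (1 / 2 : ℂ)).im = ((-(Real.pi * I) - x) ^ (1 / 2 : ℂ)).re := by
      rw [Complex.mul_im, Complex.I_re, Complex.I_im]; ring
    rw [hm _ (by
      rw [mem_ball_zero_iff, norm_mul, Complex.norm_I, one_mul]
      exact hnorm x hx) (by rw [e1]; linarith) (by
        rw [e1, e2, abs_of_pos h1]
        nlinarith)]
    have e3 : -(I * (-(Real.pi * I) - x) ^ (1 / 2 : ℂ)) ^ 2 = -(Real.pi * I) - x := by
      rw [mul_pow, Complex.I_sq, hsq]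
      ring
    rw [e3]
    have e4 := psi_period (δ := δ) (j := j) (-(Real.pi * I) - x)
    have e5 : (-(Real.pi * I) - x) + 2 * Real.pi * I = Real.pi * I + -x := by ring
    rw [e5] at e4
    rw [e4, ← mul_assoc, ← mul_assoc, ← Complex.exp_add, ← Complex.exp_add]
    have e6 : -(Real.pi * δ j * I) + -(Real.pi * δ j * I) + 2 * Real.pi * δ j * I = (0 : ℂ) := by ring
    rw [e6, Complex.exp_zero, one_mul]
  refine ⟨V, hVdiff, hVneg, fun x _ => rfl, hVpos, ?_⟩
  intro m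
  -- derivatives on the left
  have hopen : IsOpen (ball (0 : ℂ) (1 / 2) ∩ {x : ℂ | x.re < 0}) :=
    isOpen_ball.inter (isOpen_lt Complex.continuous_re continuous_const)
  have hder : ∀ x : ℝ, -(1/2) < x → x < 0 → iteratedDeriv m V (x : ℂ) = (Vr δ j m x : ℂ) := by
    intro x hx1 hx2
    have hxb : (x : ℂ) ∈ ball (0 : ℂ) (1 / 2) := by
      rw [mem_ball_zero_iff, Complex.norm_real, Real.norm_eq_abs, abs_lt]
      constructor <;> linarith
    have hxr : (x : ℂ).re < 0 := by rw [Complex.ofReal_re]; exact hx2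
    have hev : V =ᶠ[𝓝 (x : ℂ)] fun y => Complex.exp (-(Real.pi * δ j * I)) * psi δ j (Real.pi * I + y) := by
      filter_upwards [hopen.mem_nhds ⟨hxb, hxr⟩] with y hy
      exact hVneg y hy.1 hy.2
    have h1 := hev.iteratedDeriv_eq m
    rw [h1]
    rw [iteratedDeriv_const_mul_field, iteratedDeriv_comp_const_add]
    simp only []
    rw [psi_Vr hC m hx2, ← mul_assoc, ← Complex.exp_add, neg_add_cancel, Complex.exp_zero, one_mul]
  have hcont : ContinuousAt (iteratedDeriv m V) 0 := by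
    have h0 : (0 : ℂ) ∈ ball (0 : ℂ) (1 / 2) := mem_ball_self (by norm_num)
    have h1 : AnalyticAt ℂ V 0 := (hVdiff.analyticOnNhd isOpen_ball) 0 h0
    rw [iteratedDeriv_eq_iterate]
    exact (h1.iterated_deriv m).continuousAt
  have hlim : Tendsto (fun x : ℝ => iteratedDeriv m V (x : ℂ)) (𝓝[<] 0) (𝓝 (iteratedDeriv m V 0)) := by
    have h2 : Tendsto (fun x : ℝ => (x : ℂ)) (𝓝[<] 0) (𝓝 ((0 : ℝ) : ℂ)) :=
      (Complex.continuous_ofReal.tendsto 0).mono_left nhdsWithin_le_nhds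
    rw [Complex.ofReal_zero] at h2
    exact hcont.tendsto.comp h2
  have hlim2 : Tendsto (fun x : ℝ => (Vr δ j m x : ℂ)) (𝓝[<] 0) (𝓝 (iteratedDeriv m V 0)) := by
    refine hlim.congr' ?_
    have h3 : Ioo (-(1/2) : ℝ) 0 ∈ 𝓝[<] (0 : ℝ) := Ioo_mem_nhdsLT (by norm_num)
    filter_upwards [h3] with x hx
    exact hder x hx.1 hx.2
  have him : (iteratedDeriv m V 0).im = 0 := by
    have h4 := (Complex.continuous_im.tendsto _).comp hlim2
    have h5 : Tendsto (fun _ : ℝ => (0 : ℝ)) (𝓝[<] (0 : ℝ)) (𝓝 (iteratedDeriv m V 0).im) := by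
      refine h4.congr fun x => ?_
      simp
    exact tendsto_nhds_unique h5 tendsto_const_nhds
  refine ⟨(iteratedDeriv m V 0).re, ?_, ?_⟩
  · apply Complex.ext
    · simp
    · rw [him]; simp
  · have h4 := (Complex.continuous_re.tendsto _).comp hlim2
    refine h4.congr fun x => ?_
    simp

end Pool.Agent.Helper326.HB
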