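import Mathlib
import Pool.Agent.Helper326.HB.Defs
import Pool.Agent.Helper326.HB.C3
import Pool.Agent.Helper326.HB.CR
import Pool.Agent.Helper326.HB.K1
import Pool.Agent.Helper326.HB.MI
import Pool.Agent.Helper326.HB.N1
import Pool.Agent.Helper326.HB.N2
import Pool.Agent.Helper326.HB.PAR
import Pool.Agent.Helper326.HB.Q1
import Pool.Agent.Helper326.HB.V1

set_option autoImplicit false
open Complex Metric Set Filter Topology Matrix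

namespace Pool.Agent.Helper326.HB

theorem dF_sum : dF 0 + dF 1 + dF 2 = 3 / 4 := by
  simp [dF]
  norm_num

theorem dF_ne (i j : Fin 3) (k : ℕ) : dF j + k + 1 - dF i ≠ 0 := by
  have hk : (0 : ℝ) ≤ k := Nat.cast_nonneg k
  have h0 : ∀ j, 0 < dF j := by
    intro j
    fin_cases j <;> simp [dF]
  have h1 : ∀ j, dF j < 1 := by
    intro j
    fin_cases j
    · simp [dF]; norm_num
    · simp [dF]; norm_num
    · simp [dF]; norm_num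
  have := h0 j
  have := h1 i
  intro h
  linarith

theorem coefF_bdd : ∃ C : ℝ, ∀ j k, |hc dF j k| ≤ C := by
  refine ⟨∑ j, ∑' k : ℕ, hc dF j k, fun j k => ?_⟩
  rw [abs_of_pos (coefF_pos j k)]
  have h1 : hc dF j k ≤ ∑' k : ℕ, hc dF j k :=
    (coefF_summable j).le_tsum k (fun i _ => (coefF_pos j i).le)
  refine h1.trans ?_
  exact Finset.single_le_sum (f := fun j => ∑' k : ℕ, hc dF j k)
    (fun j _ => tsum_nonneg fun k => (coefF_pos j k).le) (Finset.mem_univ j)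

theorem corner_data : ∃ h1 h2 : ℝ, 0.345 ≤ h1 ∧ h1 ≤ 0.36 ∧ 0.0006 ≤ h2 ∧ h2 ≤ 0.00095 ∧
    ∃ (A : Fin 3 → ℂ → ℂ) (M : Matrix (Fin 3) (Fin 3) ℂ),
      (∀ j, DifferentiableOn ℂ (A j) (ball 0 2)) ∧
      (∀ j, ∀ τ ∈ ball (0 : ℂ) 2, 0 < τ.re → |τ.im| < τ.re → A j τ = psi dF j (-τ ^ 2)) ∧
      U3 M ∧ ∀ τ ∈ ball (0 : ℂ) 2,
      A 0 (I * τ) = M 0 0 * A 0 τ + M 0 1 * (Real.sqrt h1 * A 1 τ) + M 0 2 * (Real.sqrt h2 * A 2 τ) ∧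
      Real.sqrt h1 * A 1 (I * τ) = M 1 0 * A 0 τ + M 1 1 * (Real.sqrt h1 * A 1 τ) + M 1 2 * (Real.sqrt h2 * A 2 τ) ∧
      Real.sqrt h2 * A 2 (I * τ) = M 2 0 * A 0 τ + M 2 1 * (Real.sqrt h1 * A 1 τ) + M 2 2 * (Real.sqrt h2 * A 2 τ) := by
  obtain ⟨C, hC⟩ := coefF_bdd
  choose A hA hAp using fun j : Fin 3 => corner3 (δ := dF) dF_sum dF_ne (j := j) (C := C) (hC j)
  choose V hV hVp hV1 hV2 hVv using fun j : Fin 3 => exists_V (hC j) (hA j) (hAp j)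
  choose v hv hvt using hVv
  set v' : Matrix (Fin 3) (Fin 3) ℝ := fun j i => v j (i : ℕ) with hv'
  have hv1 : ∀ j i : Fin 3, iteratedDeriv (i : ℕ) (V j) 0 = (v' j i : ℂ) := fun j i => hv j i
  obtain ⟨S, hS, m01, m02, m12⟩ := minors hV hVp hv1
  obtain ⟨hdet, h1, h2, hb1, hb2, hb3, hb4, e01, e12⟩ :=
    h_exists (v := v') (fun j => hvt j 1) hS m01 m02 m12
  have hpar := parity3 dF_sum dF_ne hC hV hVp hv1 hdet
  have hrel := corner_rel hA hV1 hV2 hpar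
  obtain ⟨M, hM, hMr⟩ := unit3 (δ := dF) (by linarith : (0:ℝ) < h1) (by linarith : (0:ℝ) < h2) hdet
    e01 e12 (A := A) (U := ball 0 2) hrel
  exact ⟨h1, h2, hb1, hb2, hb3, hb4, A, M, hA, hAp, hM, hMr⟩

/-- the hermitian form -/
theorem form_eq (x : Fin 3 → ℂ) : star x ⬝ᵥ (J3 *ᵥ x) =
    ((-‖x 0‖ ^ 2 + ‖x 1‖ ^ 2 + ‖x 2‖ ^ 2 : ℝ) : ℂ) := by
  have h : ∀ z : ℂ, star z * z = (‖z‖ : ℂ) ^ 2 := fun z => Complex.conj_mul' z
  rw [dotProduct, Fin.sum_univ_three]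
  simp only [J3, Matrix.mulVec_diagonal, Pi.star_apply]
  simp only [Matrix.cons_val_zero, Matrix.cons_val_one, Matrix.cons_val]
  push_cast
  rw [← h, ← h, ← h]
  ring

theorem form_inv {M : Matrix (Fin 3) (Fin 3) ℂ} (hM : U3 M) (x : Fin 3 → ℂ) :
    -‖(M *ᵥ x) 0‖ ^ 2 + ‖(M *ᵥ x) 1‖ ^ 2 + ‖(M *ᵥ x) 2‖ ^ 2 =
      -‖x 0‖ ^ 2 + ‖x 1‖ ^ 2 + ‖x 2‖ ^ 2 := by
  have h1 := form_eq (M *ᵥ x)
  have h2 := form_eq x
  have h3 : star (M *ᵥ x) ⬝ᵥ (J3 *ᵥ (M *ᵥ x)) = star x ⬝ᵥ (J3 *ᵥ x) := by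
    rw [Matrix.star_mulVec, ← Matrix.dotProduct_mulVec, Matrix.mulVec_mulVec, Matrix.mulVec_mulVec,
      hM]
  rw [h3, h2] at h1
  exact_mod_cast h1.symm

/-- the vector of the three functions -/
noncomputable def av (h1 h2 : ℝ) (A : Fin 3 → ℂ → ℂ) (τ : ℂ) : Fin 3 → ℂ :=
  ![A 0 τ, Real.sqrt h1 * A 1 τ, Real.sqrt h2 * A 2 τ]

/-- minus the form -/
noncomputable def DD (h1 h2 : ℝ) (A : Fin 3 → ℂ → ℂ) (τ : ℂ) : ℝ :=
  ‖A 0 τ‖ ^ 2 - ‖(Real.sqrt h1 : ℂ) * A 1 τ‖ ^ 2 - ‖(Real.sqrt h2 : ℂ) * A 2 τ‖ ^ 2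

theorem DD_inv {h1 h2 : ℝ} {A : Fin 3 → ℂ → ℂ} {M : Matrix (Fin 3) (Fin 3) ℂ} (hM : U3 M) {τ : ℂ}
    (h : A 0 (I * τ) = M 0 0 * A 0 τ + M 0 1 * (Real.sqrt h1 * A 1 τ) + M 0 2 * (Real.sqrt h2 * A 2 τ) ∧
      Real.sqrt h1 * A 1 (I * τ) = M 1 0 * A 0 τ + M 1 1 * (Real.sqrt h1 * A 1 τ) + M 1 2 * (Real.sqrt h2 * A 2 τ) ∧
      Real.sqrt h2 * A 2 (I * τ) = M 2 0 * A 0 τ + M 2 1 * (Real.sqrt h1 * A 1 τ) + M 2 2 * (Real.sqrt h2 * A 2 τ)) :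
    DD h1 h2 A (I * τ) = DD h1 h2 A τ := by
  have h1' := form_inv hM ![A 0 τ, Real.sqrt h1 * A 1 τ, Real.sqrt h2 * A 2 τ]
  have e0 : (M *ᵥ ![A 0 τ, Real.sqrt h1 * A 1 τ, Real.sqrt h2 * A 2 τ]) 0 = A 0 (I * τ) := by
    rw [h.1, Matrix.mulVec, dotProduct, Fin.sum_univ_three]; rfl
  have e1 : (M *ᵥ ![A 0 τ, Real.sqrt h1 * A 1 τ, Real.sqrt h2 * A 2 τ]) 1 =
      Real.sqrt h1 * A 1 (I * τ) := by
    rw [h.2.1, Matrix.mulVec, dotProduct, Fin.sum_univ_three]; rfl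
  have e2 : (M *ᵥ ![A 0 τ, Real.sqrt h1 * A 1 τ, Real.sqrt h2 * A 2 τ]) 2 =
      Real.sqrt h2 * A 2 (I * τ) := by
    rw [h.2.2, Matrix.mulVec, dotProduct, Fin.sum_univ_three]; rfl
  rw [e0, e1, e2] at h1'
  have h2' : (![A 0 τ, Real.sqrt h1 * A 1 τ, Real.sqrt h2 * A 2 τ] : Fin 3 → ℂ) 0 = A 0 τ := rfl
  have h3' : (![A 0 τ, Real.sqrt h1 * A 1 τ, Real.sqrt h2 * A 2 τ] : Fin 3 → ℂ) 1 =
    Real.sqrt h1 * A 1 τ := rfl
  have h4' : (![A 0 τ, Real.sqrt h1 * A 1 τ, Real.sqrt h2 * A 2 τ] : Fin 3 → ℂ) 2 =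
    Real.sqrt h2 * A 2 τ := rfl
  rw [h2', h3', h4'] at h1'
  unfold DD
  linarith

theorem dF_vals : dF 0 = 7 / 108 ∧ dF 1 = 19 / 108 ∧ dF 2 = 55 / 108 := by
  refine ⟨?_, ?_, ?_⟩ <;> simp [dF]

/-- lower bound on the open sector -/
theorem DD_sec {h1 h2 : ℝ} (h1l : 0.345 ≤ h1) (h1u : h1 ≤ 0.36) (h2l : 0.0006 ≤ h2)
    (h2u : h2 ≤ 0.00095) {A : Fin 3 → ℂ → ℂ}
    (hAp : ∀ j, ∀ τ ∈ ball (0 : ℂ) 2, 0 < τ.re → |τ.im| < τ.re → A j τ = psi dF j (-τ ^ 2))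
    {τ : ℂ} (hτ : τ ∈ ball (0 : ℂ) 2) (hre : 0 < τ.re) (him : |τ.im| < τ.re) :
    0.2 * Real.exp (-1) ≤ DD h1 h2 A τ := by
  obtain ⟨d0, d1, d2⟩ := dF_vals
  set u : ℂ := -τ ^ 2 with hu
  have hure : u.re = -(τ.re ^ 2 - τ.im ^ 2) := by
    rw [hu, Complex.neg_re, sq τ, Complex.mul_re]
    ring
  have him2 : τ.im ^ 2 < τ.re ^ 2 := sq_lt_sq' (by linarith [neg_abs_le τ.im]) (by
    linarith [le_abs_self τ.im])
  have hnorm : τ.re ^ 2 + τ.im ^ 2 < 4 := by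
    rw [mem_ball_zero_iff] at hτ
    have h3 : ‖τ‖ ^ 2 = τ.re ^ 2 + τ.im ^ 2 := by
      rw [← Complex.normSq_eq_norm_sq, Complex.normSq_apply]; ring
    rw [← h3]
    nlinarith [norm_nonneg τ]
  have hu0 : u.re < 0 := by rw [hure]; linarith
  have hu4 : -4 < u.re := by rw [hure]; nlinarith [sq_nonneg τ.im]
  have hz : Complex.exp u ∈ closedBall (0 : ℂ) 1 := by
    rw [mem_closedBall_zero_iff, Complex.norm_exp]
    exact Real.exp_le_one_iff.mpr hu0.le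
  have hNF := NF_lower h1l h1u h2l h2u hz
  have hA : ∀ j, ‖A j τ‖ ^ 2 = Real.exp (2 * dF j * u.re) * ‖P dF j (Complex.exp u)‖ ^ 2 := by
    intro j
    rw [hAp j τ hτ hre him, psi_eq, norm_mul, mul_pow, Complex.norm_exp]
    congr 1
    rw [← Real.exp_nat_mul]
    congr 1
    rw [Complex.re_ofReal_mul]
    push_cast
    ring
  have hs1 : ‖(Real.sqrt h1 : ℂ) * A 1 τ‖ ^ 2 = h1 * ‖A 1 τ‖ ^ 2 := by
    rw [norm_mul, mul_pow, Complex.norm_real, Real.norm_eq_abs, sq_abs, Real.sq_sqrt (by linarith)]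
  have hs2 : ‖(Real.sqrt h2 : ℂ) * A 2 τ‖ ^ 2 = h2 * ‖A 2 τ‖ ^ 2 := by
    rw [norm_mul, mul_pow, Complex.norm_real, Real.norm_eq_abs, sq_abs, Real.sq_sqrt (by linarith)]
  have hD : DD h1 h2 A τ = Real.exp (2 * dF 0 * u.re) * NF h1 h2 (Complex.exp u) := by
    unfold DD NF
    rw [hs1, hs2, hA 0, hA 1, hA 2, Complex.norm_exp, ← Real.exp_mul, ← Real.exp_mul]
    have e1 : Real.exp (2 * dF 1 * u.re) = Real.exp (2 * dF 0 * u.re) * Real.exp (u.re * (2 / 9)) := by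
      rw [← Real.exp_add, d0, d1]
      congr 1
      ring
    have e2 : Real.exp (2 * dF 2 * u.re) = Real.exp (2 * dF 0 * u.re) * Real.exp (u.re * (8 / 9)) := by
      rw [← Real.exp_add, d0, d2]
      congr 1
      ring
    rw [e1, e2]
    ring
  rw [hD]
  have h5 : Real.exp (-1) ≤ Real.exp (2 * dF 0 * u.re) := by
    apply Real.exp_le_exp.mpr
    rw [d0]
    linarith
  calc 0.2 * Real.exp (-1) = Real.exp (-1) * 0.2 := mul_comm _ _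
    _ ≤ Real.exp (2 * dF 0 * u.re) * NF h1 h2 (Complex.exp u) :=
      mul_le_mul h5 hNF (by norm_num) (Real.exp_pos _).le

theorem DD_cont {h1 h2 : ℝ} {A : Fin 3 → ℂ → ℂ} (hA : ∀ j, DifferentiableOn ℂ (A j) (ball 0 2)) :
    ContinuousOn (DD h1 h2 A) (ball 0 2) := by
  unfold DD
  refine ((hA 0).continuousOn.norm.pow 2).sub ((continuousOn_const.mul (hA 1).continuousOn).norm.pow 2)
    |>.sub ((continuousOn_const.mul (hA 2).continuousOn).norm.pow 2)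

/-- lower bound on the closed sector -/
theorem DD_clsec {h1 h2 : ℝ} (h1l : 0.345 ≤ h1) (h1u : h1 ≤ 0.36) (h2l : 0.0006 ≤ h2)
    (h2u : h2 ≤ 0.00095) {A : Fin 3 → ℂ → ℂ} (hA : ∀ j, DifferentiableOn ℂ (A j) (ball 0 2))
    (hAp : ∀ j, ∀ τ ∈ ball (0 : ℂ) 2, 0 < τ.re → |τ.im| < τ.re → A j τ = psi dF j (-τ ^ 2))
    {τ : ℂ} (hτ : τ ∈ ball (0 : ℂ) 2) (him : |τ.im| ≤ τ.re) :
    0.2 * Real.exp (-1) ≤ DD h1 h2 A τ := by
  have hcont : ContinuousAt (DD h1 h2 A) τ := (DD_cont hA).continuousAt (isOpen_ball.mem_nhds hτ)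
  have hshift : Tendsto (fun ε : ℝ => τ + (ε : ℂ)) (𝓝[>] 0) (𝓝 τ) := by
    have h3 : Continuous (fun ε : ℝ => τ + (ε : ℂ)) := by fun_prop
    have h4 := h3.tendsto 0
    simp only [Complex.ofReal_zero, add_zero] at h4
    exact h4.mono_left nhdsWithin_le_nhds
  refine ge_of_tendsto (hcont.tendsto.comp hshift) ?_
  have h5 : ∀ᶠ ε : ℝ in 𝓝[>] 0, τ + (ε : ℂ) ∈ ball (0 : ℂ) 2 :=
    hshift.eventually (isOpen_ball.mem_nhds hτ)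
  filter_upwards [h5, self_mem_nhdsWithin] with ε hε1 hε2
  have hε2' : 0 < ε := hε2
  have hre : (τ + (ε : ℂ)).re = τ.re + ε := by simp
  have him' : (τ + (ε : ℂ)).im = τ.im := by simp
  have h6 : 0 ≤ τ.re := (abs_nonneg _).trans him
  exact DD_sec h1l h1u h2l h2u hAp hε1 (by rw [hre]; linarith) (by rw [hre, him']; linarith)

theorem mul_I_ball {τ : ℂ} (hτ : τ ∈ ball (0 : ℂ) 2) : I * τ ∈ ball (0 : ℂ) 2 := by
  rw [mem_ball_zero_iff] at hτ ⊢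
  rwa [norm_mul, Complex.norm_I, one_mul]

/-- positivity everywhere -/
theorem DD_pos {h1 h2 : ℝ} (h1l : 0.345 ≤ h1) (h1u : h1 ≤ 0.36) (h2l : 0.0006 ≤ h2)
    (h2u : h2 ≤ 0.00095) {A : Fin 3 → ℂ → ℂ} (hA : ∀ j, DifferentiableOn ℂ (A j) (ball 0 2))
    (hAp : ∀ j, ∀ τ ∈ ball (0 : ℂ) 2, 0 < τ.re → |τ.im| < τ.re → A j τ = psi dF j (-τ ^ 2))
    (hinv : ∀ τ ∈ ball (0 : ℂ) 2, DD h1 h2 A (I * τ) = DD h1 h2 A τ)
    {τ : ℂ} (hτ : τ ∈ ball (0 : ℂ) 2) : 0 < DD h1 h2 A τ := by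
  have hc : 0 < 0.2 * Real.exp (-1) := by positivity
  have hmain : ∀ σ ∈ ball (0 : ℂ) 2, |σ.im| ≤ σ.re → 0 < DD h1 h2 A σ := fun σ hσ h =>
    lt_of_lt_of_le hc (DD_clsec h1l h1u h2l h2u hA hAp hσ h)
  have t1 := mul_I_ball hτ
  have t2 := mul_I_ball t1
  have t3 := mul_I_ball t2
  have e1 := hinv τ hτ
  have e2 := hinv _ t1
  have e3 := hinv _ t2
  have r1 : (I * τ).re = -τ.im := by simp
  have i1 : (I * τ).im = τ.re := by simp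
  have r2 : (I * (I * τ)).re = -τ.re := by simp
  have i2 : (I * (I * τ)).im = -τ.im := by simp
  have r3 : (I * (I * (I * τ))).re = τ.im := by simp
  have i3 : (I * (I * (I * τ))).im = -τ.re := by simp
  rcases le_total |τ.im| |τ.re| with h | h
  · rcases le_total 0 τ.re with h0 | h0
    · exact hmain τ hτ (by rwa [abs_of_nonneg h0] at h)
    · rw [← e1, ← e2]
      apply hmain _ t2
      rw [r2, i2, abs_neg]
      rwa [abs_of_nonpos h0] at h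
  · rcases le_total 0 τ.im with h0 | h0
    · rw [← e1, ← e2, ← e3]
      apply hmain _ t3
      rw [r3, i3, abs_neg]
      rwa [abs_of_nonneg h0] at h
    · rw [← e1]
      apply hmain _ t1
      rw [r1, i1]
      rwa [abs_of_nonpos h0] at h

theorem corner_Phi : ∃ h1 h2 : ℝ, 0.345 ≤ h1 ∧ h1 ≤ 0.36 ∧ 0.0006 ≤ h2 ∧ h2 ≤ 0.00095 ∧
    ∃ (Φ : ℂ → ℂ × ℂ) (A : Matrix (Fin 3) (Fin 3) ℂ), DifferentiableOn ℂ Φ (ball 0 2) ∧
      MapsTo Φ (ball 0 2) B2 ∧ U3 A ∧ (∀ τ ∈ ball (0 : ℂ) 2, Φ (I * τ) = act A (Φ τ)) ∧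
      ∀ τ ∈ ball (0 : ℂ) 2, 0 < τ.re → |τ.im| < τ.re →
        Φ τ = ffun h1 h2 (Complex.exp (-τ ^ 2 / 9)) := by
  obtain ⟨h1, h2, h1l, h1u, h2l, h2u, A, M, hA, hAp, hM, hMr⟩ := corner_data
  have hinv : ∀ τ ∈ ball (0 : ℂ) 2, DD h1 h2 A (I * τ) = DD h1 h2 A τ := fun τ hτ =>
    DD_inv hM (hMr τ hτ)
  have hpos : ∀ τ ∈ ball (0 : ℂ) 2, 0 < DD h1 h2 A τ := fun τ hτ =>
    DD_pos h1l h1u h2l h2u hA hAp hinv hτ
  have hA0 : ∀ τ ∈ ball (0 : ℂ) 2, A 0 τ ≠ 0 := by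
    intro τ hτ h
    have h3 := hpos τ hτ
    unfold DD at h3
    rw [h, norm_zero] at h3
    nlinarith [sq_nonneg ‖(Real.sqrt h1 : ℂ) * A 1 τ‖, sq_nonneg ‖(Real.sqrt h2 : ℂ) * A 2 τ‖]
  refine ⟨h1, h2, h1l, h1u, h2l, h2u,
    fun τ => ((Real.sqrt h1 : ℂ) * A 1 τ / A 0 τ, (Real.sqrt h2 : ℂ) * A 2 τ / A 0 τ), M,
    ?_, ?_, hM, ?_, ?_⟩
  · exact (((hA 1).const_mul _).div (hA 0) hA0).prodMk (((hA 2).const_mul _).div (hA 0) hA0)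
  · intro τ hτ
    show ‖(Real.sqrt h1 : ℂ) * A 1 τ / A 0 τ‖ ^ 2 + ‖(Real.sqrt h2 : ℂ) * A 2 τ / A 0 τ‖ ^ 2 < 1
    have h3 := hpos τ hτ
    unfold DD at h3
    have h4 : 0 < ‖A 0 τ‖ ^ 2 := by
      have := norm_pos_iff.mpr (hA0 τ hτ)
      positivity
    rw [norm_div, norm_div, div_pow, div_pow, ← add_div, div_lt_one h4]
    linarith
  · intro τ hτ
    obtain ⟨r0, r1, r2⟩ := hMr τ hτ
    have hne := hA0 τ hτ
    have hden : A 0 (I * τ) = A 0 τ *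
        den M ((Real.sqrt h1 : ℂ) * A 1 τ / A 0 τ, (Real.sqrt h2 : ℂ) * A 2 τ / A 0 τ) := by
      rw [r0]
      unfold den
      field_simp
    have hn1 : (Real.sqrt h1 : ℂ) * A 1 (I * τ) = A 0 τ *
        (M 1 0 + M 1 1 * ((Real.sqrt h1 : ℂ) * A 1 τ / A 0 τ) +
          M 1 2 * ((Real.sqrt h2 : ℂ) * A 2 τ / A 0 τ)) := by
      rw [r1]
      field_simp
    have hn2 : (Real.sqrt h2 : ℂ) * A 2 (I * τ) = A 0 τ *
        (M 2 0 + M 2 1 * ((Real.sqrt h1 : ℂ) * A 1 τ / A 0 τ) +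
          M 2 2 * ((Real.sqrt h2 : ℂ) * A 2 τ / A 0 τ)) := by
      rw [r2]
      field_simp
    show ((Real.sqrt h1 : ℂ) * A 1 (I * τ) / A 0 (I * τ), (Real.sqrt h2 : ℂ) * A 2 (I * τ) / A 0 (I * τ)) = _
    rw [hn1, hn2, hden, mul_div_mul_left _ _ hne, mul_div_mul_left _ _ hne]
    rfl
  · intro τ hτ hre him
    obtain ⟨d0, d1, d2⟩ := dF_vals
    set w : ℂ := Complex.exp (-τ ^ 2 / 9) with hw
    have hw9 : w ^ 9 = Complex.exp (-τ ^ 2) := by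
      rw [hw, ← Complex.exp_nat_mul]
      congr 1
      push_cast
      ring
    have hE : Complex.exp ((dF 0 : ℂ) * (-τ ^ 2)) ≠ 0 := Complex.exp_ne_zero _
    have hA0' : A 0 τ = Complex.exp ((dF 0 : ℂ) * (-τ ^ 2)) * P dF 0 (w ^ 9) := by
      rw [hAp 0 τ hτ hre him, psi_eq, hw9]
    have hA1' : A 1 τ = Complex.exp ((dF 0 : ℂ) * (-τ ^ 2)) * (w * P dF 1 (w ^ 9)) := by
      rw [hAp 1 τ hτ hre him, psi_eq, hw9, ← mul_assoc, hw, ← Complex.exp_add]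
      congr 2
      rw [d0, d1]
      push_cast
      ring
    have hA2' : A 2 τ = Complex.exp ((dF 0 : ℂ) * (-τ ^ 2)) * (w ^ 4 * P dF 2 (w ^ 9)) := by
      have hw4 : w ^ 4 = Complex.exp (4 * (-τ ^ 2 / 9)) := by
        rw [hw, ← Complex.exp_nat_mul]
        congr 1
      rw [hAp 2 τ hτ hre him, psi_eq, hw9, ← mul_assoc, hw4, ← Complex.exp_add]
      congr 2
      rw [d0, d2]
      push_cast
      ring
    show ((Real.sqrt h1 : ℂ) * A 1 τ / A 0 τ, (Real.sqrt h2 : ℂ) * A 2 τ / A 0 τ) = _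
    unfold ffun
    rw [hA0', hA1', hA2']
    ext
    · show (Real.sqrt h1 : ℂ) * (Complex.exp ((dF 0 : ℂ) * (-τ ^ 2)) * (w * P dF 1 (w ^ 9))) /
        (Complex.exp ((dF 0 : ℂ) * (-τ ^ 2)) * P dF 0 (w ^ 9)) =
        (Real.sqrt h1 : ℂ) * w * P dF 1 (w ^ 9) / P dF 0 (w ^ 9)
      rw [mul_left_comm, mul_div_mul_left _ _ hE]
      congr 1
      ring
    · show (Real.sqrt h2 : ℂ) * (Complex.exp ((dF 0 : ℂ) * (-τ ^ 2)) * (w ^ 4 * P dF 2 (w ^ 9))) /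
        (Complex.exp ((dF 0 : ℂ) * (-τ ^ 2)) * P dF 0 (w ^ 9)) =
        (Real.sqrt h2 : ℂ) * w ^ 4 * P dF 2 (w ^ 9) / P dF 0 (w ^ 9)
      rw [mul_left_comm, mul_div_mul_left _ _ hE]
      congr 1
      ring

end Pool.Agent.Helper326.HB
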