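import Mathlib
import Pool.Agent.Helper326.HB.Defs

set_option autoImplicit false
open Complex Metric Set Filter Topology Matrix

namespace Pool.Agent.Helper326.HB

theorem abel_summable (δ : ℝ) (b : ℕ → ℝ) (C : ℝ) (hb0 : ∀ k, |b k| ≤ C) {x : ℝ} (hx : x < 0) :
    Summable (fun k : ℕ => (-1 : ℝ) ^ k * (b k * Real.exp ((δ + k) * x))) := by
  apply Summable.of_norm_bounded (g := fun k : ℕ => C * Real.exp (δ * x) * (Real.exp x) ^ k)
  · exact (summable_geometric_of_lt_one (Real.exp_pos x).le (by rw [← Real.exp_zero]; exact Real.exp_lt_exp.2 hx)).mul_left _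
  · intro k
    rw [norm_mul, norm_mul, norm_pow, norm_neg, norm_one, one_pow, one_mul, Real.norm_eq_abs,
      Real.norm_of_nonneg (Real.exp_pos _).le]
    have h1 : Real.exp ((δ + k) * x) = Real.exp (δ * x) * Real.exp x ^ k := by
      rw [← Real.exp_nat_mul, ← Real.exp_add]
      congr 1
      ring
    rw [h1]
    calc |b k| * (Real.exp (δ * x) * Real.exp x ^ k)
        ≤ C * (Real.exp (δ * x) * Real.exp x ^ k) :=
          mul_le_mul_of_nonneg_right (hb0 k) (by positivity)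
      _ = _ := by ring

theorem abel_alt (δ : ℝ) (b : ℕ → ℝ) (hb0 : ∀ k, 0 ≤ b k) (hb : Antitone b) {v : ℝ}
    (hv : Tendsto (fun x : ℝ => ∑' k : ℕ, (-1 : ℝ) ^ k * (b k * Real.exp ((δ + k) * x)))
      (𝓝[<] 0) (𝓝 v)) (n : ℕ) :
    ∑ k ∈ Finset.range (2 * n), (-1 : ℝ) ^ k * b k ≤ v ∧
      v ≤ ∑ k ∈ Finset.range (2 * n + 1), (-1 : ℝ) ^ k * b k := by
  have hlim : ∀ N, Tendsto (fun x : ℝ => ∑ k ∈ Finset.range N, (-1:ℝ) ^ k *
      (b k * Real.exp ((δ + k) * x))) (𝓝[<] 0) (𝓝 (∑ k ∈ Finset.range N, (-1 : ℝ) ^ k * b k)) := by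
    intro N
    have hc : Continuous (fun x : ℝ => ∑ k ∈ Finset.range N, (-1:ℝ) ^ k *
      (b k * Real.exp ((δ + k) * x))) := by fun_prop
    have h0 := hc.tendsto 0
    simp only [mul_zero, Real.exp_zero, mul_one] at h0
    exact h0.mono_left nhdsWithin_le_nhds
  have hbd : ∀ x : ℝ, x < 0 →
      (∑ k ∈ Finset.range (2 * n), (-1:ℝ) ^ k * (b k * Real.exp ((δ + k) * x)) ≤
        ∑' k : ℕ, (-1 : ℝ) ^ k * (b k * Real.exp ((δ + k) * x))) ∧
      (∑' k : ℕ, (-1 : ℝ) ^ k * (b k * Real.exp ((δ + k) * x)) ≤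
        ∑ k ∈ Finset.range (2 * n + 1), (-1:ℝ) ^ k * (b k * Real.exp ((δ + k) * x))) := by
    intro x hx
    have hs := (abel_summable δ b (b 0) (fun k => by
      rw [abs_of_nonneg (hb0 k)]; exact hb (Nat.zero_le k)) hx).hasSum.tendsto_sum_nat
    have ha : Antitone (fun k : ℕ => b k * Real.exp ((δ + k) * x)) := by
      apply antitone_nat_of_succ_le
      intro k
      refine mul_le_mul (hb (Nat.le_succ k)) ?_ (Real.exp_pos _).le (hb0 k)
      apply Real.exp_le_exp.2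
      push_cast
      nlinarith
    exact ⟨ha.alternating_series_le_tendsto hs n, ha.tendsto_le_alternating_series hs n⟩
  constructor
  · refine le_of_tendsto_of_tendsto (hlim _) hv ?_
    filter_upwards [self_mem_nhdsWithin] with x hx
    exact (hbd x hx).1
  · refine le_of_tendsto_of_tendsto hv (hlim _) ?_
    filter_upwards [self_mem_nhdsWithin] with x hx
    exact (hbd x hx).2

theorem abel_alt2 (δ : ℝ) (b : ℕ → ℝ) (hb0 : ∀ k, 0 ≤ b k) (hb : Antitone b)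
    (hd : Antitone (fun k => b k - b (k + 1))) {v : ℝ}
    (hv : Tendsto (fun x : ℝ => ∑' k : ℕ, (-1 : ℝ) ^ k * (b k * Real.exp ((δ + k) * x)))
      (𝓝[<] 0) (𝓝 v)) (n : ℕ) :
    b 0 + ∑ k ∈ Finset.range (2 * n), (-1 : ℝ) ^ k * (b k - b (k + 1)) ≤ 2 * v ∧
      2 * v ≤ b 0 + ∑ k ∈ Finset.range (2 * n + 1), (-1 : ℝ) ^ k * (b k - b (k + 1)) := by
  have h := abel_alt (δ + 1) (fun k => b k - b (k + 1))
    (fun k => sub_nonneg.2 (hb (Nat.le_succ k))) hd (v := 2 * v - b 0) ?_ n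
  · constructor <;> linarith [h.1, h.2]
  · have hE : Tendsto (fun x : ℝ => Real.exp x) (𝓝[<] 0) (𝓝 1) := by
      have h0 := (Real.continuous_exp.tendsto 0)
      rw [Real.exp_zero] at h0
      exact h0.mono_left nhdsWithin_le_nhds
    have hE2 : Tendsto (fun x : ℝ => b 0 * Real.exp (δ * x)) (𝓝[<] 0) (𝓝 (b 0)) := by
      have hc : Continuous (fun x : ℝ => b 0 * Real.exp (δ * x)) := by fun_prop
      have h0 := hc.tendsto 0
      simp only [mul_zero, Real.exp_zero, mul_one] at h0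
      exact h0.mono_left nhdsWithin_le_nhds
    have h1 := (hE.mul hv).add (hv.sub hE2)
    have e1 : 1 * v + (v - b 0) = 2 * v - b 0 := by ring
    rw [e1] at h1
    refine h1.congr' ?_
    filter_upwards [self_mem_nhdsWithin] with x hx
    have hs := (abel_summable δ b (b 0) (fun k => by
      rw [abs_of_nonneg (hb0 k)]; exact hb (Nat.zero_le k)) hx).hasSum
    have hs1 := hs.mul_left (Real.exp x)
    have hs2 := (hasSum_nat_add_iff' 1).2 hs
    have hs3 := hs1.add hs2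
    rw [Finset.sum_range_one] at hs3
    have e2 : (-1 : ℝ) ^ 0 * (b 0 * Real.exp ((δ + ((0 : ℕ) : ℝ)) * x)) = b 0 * Real.exp (δ * x) := by
      simp
    rw [e2] at hs3
    rw [← hs3.tsum_eq]
    apply tsum_congr
    intro k
    have e3 : Real.exp ((δ + 1 + k) * x) = Real.exp x * Real.exp ((δ + k) * x) := by
      rw [← Real.exp_add]
      congr 1
      ring
    have e4 : Real.exp ((δ + ((k + 1 : ℕ) : ℝ)) * x) = Real.exp x * Real.exp ((δ + k) * x) := by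
      rw [← Real.exp_add]
      congr 1
      push_cast
      ring
    rw [e3, e4, pow_succ]
    ring

theorem recG0 (k : ℕ) : hc dG 0 (k + 1) = hc dG 0 k *
    ((((k : ℝ) + 10 / 72) * (k + 18 / 72)) / ((k + 1) * (k + 64 / 72))) := by
  have h1 : hc dG 0 (k + 1) = hc dG 0 k * (∏ i, (dG 0 + k + dG i)) / (∏ i, (dG 0 + k + 1 - dG i)) :=
    rfl
  have hk : (0 : ℝ) ≤ k := Nat.cast_nonneg k
  rw [h1, Fin.prod_univ_two, Fin.prod_univ_two]
  have e0 : dG 0 = 5 / 72 := rfl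
  have e1 : dG 1 = 13 / 72 := rfl
  rw [e0, e1, mul_div_assoc]
  congr 2 <;> ring

theorem recG1 (k : ℕ) : hc dG 1 (k + 1) = hc dG 1 k *
    ((((k : ℝ) + 18 / 72) * (k + 26 / 72)) / ((k + 1) * (k + 80 / 72))) := by
  have h1 : hc dG 1 (k + 1) = hc dG 1 k * (∏ i, (dG 1 + k + dG i)) / (∏ i, (dG 1 + k + 1 - dG i)) :=
    rfl
  have hk : (0 : ℝ) ≤ k := Nat.cast_nonneg k
  rw [h1, Fin.prod_univ_two, Fin.prod_univ_two]
  have e0 : dG 0 = 5 / 72 := rfl
  have e1 : dG 1 = 13 / 72 := rfl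
  rw [e0, e1, mul_div_assoc]
  congr 2 <;> ring

/-- monotonicity facts for a sequence with hypergeometric recursion -/
theorem hyp_mono (δ α β γ : ℝ) (h1 : 0 < δ) (hα : 0 < α) (hβ : 0 < β) (hγ : 0 < γ) (c : ℕ → ℝ)
    (h0 : c 0 = 1)
    (hrec : ∀ k : ℕ, c (k + 1) = c k * ((((k : ℝ) + α) * (k + β)) / ((k + 1) * (k + γ))))
    (hA : ∀ k : ℝ, 0 ≤ k → (k + α) * (k + β) ≤ (k + 1) * (k + γ))
    (hB : ∀ k : ℝ, 0 ≤ k → (k + α) * (k + β) * (δ + k + 1) ≤ (k + 1) * (k + γ) * (δ + k))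
    (hD : ∀ k : ℝ, 0 ≤ k → 0 ≤ (δ + k) * ((k + 1) * (k + γ)) * ((k + 1 + 1) * (k + 1 + γ)) -
      2 * (δ + k + 1) * ((k + α) * (k + β)) * ((k + 1 + 1) * (k + 1 + γ)) +
      (δ + k + 2) * ((k + α) * (k + β)) * ((k + 1 + α) * (k + 1 + β))) :
    (∀ k, 0 < c k) ∧ Antitone c ∧ Antitone (fun k : ℕ => (δ + k) * c k) ∧
      Antitone (fun k : ℕ => (δ + k) * c k - (δ + (k + 1 : ℕ)) * c (k + 1)) := by
  have hpos : ∀ k, 0 < c k := by
    intro k
    induction k with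
    | zero => rw [h0]; norm_num
    | succ k ih =>
      rw [hrec]
      have : (0 : ℝ) ≤ k := Nat.cast_nonneg k
      positivity
  refine ⟨hpos, ?_, ?_, ?_⟩
  · apply antitone_nat_of_succ_le
    intro k
    have hk : (0 : ℝ) ≤ k := Nat.cast_nonneg k
    rw [hrec]
    have h2 : (((k : ℝ) + α) * (k + β)) / ((k + 1) * (k + γ)) ≤ 1 := by
      rw [div_le_one (by positivity)]
      exact hA k hk
    calc c k * _ ≤ c k * 1 := mul_le_mul_of_nonneg_left h2 (hpos k).le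
      _ = c k := mul_one _
  · apply antitone_nat_of_succ_le
    intro k
    have hk : (0 : ℝ) ≤ k := Nat.cast_nonneg k
    rw [hrec]
    push_cast
    have h2 := hB k hk
    have h3 : (δ + (k + 1)) * ((((k : ℝ) + α) * (k + β)) / ((k + 1) * (k + γ))) ≤ δ + k := by
      rw [mul_div_assoc', div_le_iff₀ (by positivity)]
      linarith
    calc (δ + ((k : ℝ) + 1)) * (c k * ((((k : ℝ) + α) * (k + β)) / ((k + 1) * (k + γ))))
        = c k * ((δ + (k + 1)) * ((((k : ℝ) + α) * (k + β)) / ((k + 1) * (k + γ)))) := by ring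
      _ ≤ c k * (δ + k) := mul_le_mul_of_nonneg_left h3 (hpos k).le
      _ = (δ + k) * c k := by ring
  · apply antitone_nat_of_succ_le
    intro k
    have hk : (0 : ℝ) ≤ k := Nat.cast_nonneg k
    have h2 := hD k hk
    rw [hrec (k + 1), hrec k]
    push_cast
    have hden : 0 < ((k : ℝ) + 1) * (k + γ) * (((k : ℝ) + 1 + 1) * (k + 1 + γ)) := by positivity
    have e : ((δ + k) * c k - (δ + (k + 1)) * (c k * ((((k : ℝ) + α) * (k + β)) /
        ((k + 1) * (k + γ))))) -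
        ((δ + (k + 1)) * (c k * ((((k : ℝ) + α) * (k + β)) / ((k + 1) * (k + γ)))) -
          (δ + (k + 1 + 1)) * (c k * ((((k : ℝ) + α) * (k + β)) / ((k + 1) * (k + γ))) *
            ((((k : ℝ) + 1 + α) * (k + 1 + β)) / ((k + 1 + 1) * (k + 1 + γ))))) =
        c k * (((δ + k) * ((k + 1) * (k + γ)) * ((k + 1 + 1) * (k + 1 + γ)) -
      2 * (δ + k + 1) * ((k + α) * (k + β)) * ((k + 1 + 1) * (k + 1 + γ)) +
      (δ + k + 2) * ((k + α) * (k + β)) * ((k + 1 + α) * (k + 1 + β))) /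
        (((k : ℝ) + 1) * (k + γ) * (((k : ℝ) + 1 + 1) * (k + 1 + γ)))) := by
      have n1 : (k : ℝ) + 1 ≠ 0 := by positivity
      have n2 : (k : ℝ) + γ ≠ 0 := by positivity
      have n3 : (k : ℝ) + 1 + 1 ≠ 0 := by positivity
      have n4 : (k : ℝ) + 1 + γ ≠ 0 := by positivity
      field_simp
      ring
    have h3 : 0 ≤ c k * (((δ + k) * ((k + 1) * (k + γ)) * ((k + 1 + 1) * (k + 1 + γ)) -
      2 * (δ + k + 1) * ((k + α) * (k + β)) * ((k + 1 + 1) * (k + 1 + γ)) +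
      (δ + k + 2) * ((k + α) * (k + β)) * ((k + 1 + α) * (k + 1 + β))) /
        (((k : ℝ) + 1) * (k + γ) * (((k : ℝ) + 1 + 1) * (k + 1 + γ)))) :=
      mul_nonneg (hpos k).le (div_nonneg h2 hden.le)
    linarith

theorem factsG0 : (∀ k, 0 < hc dG 0 k) ∧ Antitone (hc dG 0) ∧
    Antitone (fun k : ℕ => ((5 / 72 : ℝ) + k) * hc dG 0 k) ∧
    Antitone (fun k : ℕ => ((5 / 72 : ℝ) + k) * hc dG 0 k -
      ((5 / 72 : ℝ) + (k + 1 : ℕ)) * hc dG 0 (k + 1)) := by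
  refine hyp_mono (5 / 72) (10 / 72) (18 / 72) (64 / 72) (by norm_num) (by norm_num) (by norm_num)
    (by norm_num) (hc dG 0) rfl recG0 ?_ ?_ ?_
  · intro k hk
    nlinarith [pow_nonneg hk 2]
  · intro k hk
    nlinarith [pow_nonneg hk 2, pow_nonneg hk 3]
  · intro k hk
    nlinarith [pow_nonneg hk 2, pow_nonneg hk 3, pow_nonneg hk 4, pow_nonneg hk 5]

theorem factsG1 : (∀ k, 0 < hc dG 1 k) ∧ Antitone (hc dG 1) ∧
    Antitone (fun k : ℕ => ((13 / 72 : ℝ) + k) * hc dG 1 k) ∧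
    Antitone (fun k : ℕ => ((13 / 72 : ℝ) + k) * hc dG 1 k -
      ((13 / 72 : ℝ) + (k + 1 : ℕ)) * hc dG 1 (k + 1)) := by
  refine hyp_mono (13 / 72) (18 / 72) (26 / 72) (80 / 72) (by norm_num) (by norm_num) (by norm_num)
    (by norm_num) (hc dG 1) rfl recG1 ?_ ?_ ?_
  · intro k hk
    nlinarith [pow_nonneg hk 2]
  · intro k hk
    nlinarith [pow_nonneg hk 2, pow_nonneg hk 3]
  · intro k hk
    nlinarith [pow_nonneg hk 2, pow_nonneg hk 3, pow_nonneg hk 4, pow_nonneg hk 5]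

theorem Vr0_eq (j : Fin 2) : Vr dG j 0 = fun x : ℝ =>
    ∑' k : ℕ, (-1 : ℝ) ^ k * (hc dG j k * Real.exp ((dG j + k) * x)) := by
  funext x
  unfold Vr
  apply tsum_congr
  intro k
  ring

theorem Vr1_eq (j : Fin 2) : Vr dG j 1 = fun x : ℝ =>
    ∑' k : ℕ, (-1 : ℝ) ^ k * (((dG j + k) * hc dG j k) * Real.exp ((dG j + k) * x)) := by
  funext x
  unfold Vr
  apply tsum_congr
  intro k
  ring

theorem valG0 : hc dG 0 0 = 1 ∧ hc dG 0 1 = 5 / 128 ∧ hc dG 0 2 = 1025 / 69632 ∧ hc dG 0 3 = 236775 / 28966912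
    ∧ hc dG 0 4 = 764445 / 142606336 ∧ hc dG 0 5 = 2070951 / 536870912 ∧ hc dG 0 6 = 2681881545 / 910533066752
    ∧ hc dG 0 7 = 2116770790875 / 903248802217984 := by
  have c0 : hc dG 0 0 = 1 := rfl
  have c1 : hc dG 0 1 = 5 / 128 := by
    rw [recG0 0, c0]
    norm_num
  have c2 : hc dG 0 2 = 1025 / 69632 := by
    rw [recG0 1, c1]
    norm_num
  have c3 : hc dG 0 3 = 236775 / 28966912 := by
    rw [recG0 2, c2]
    norm_num
  have c4 : hc dG 0 4 = 764445 / 142606336 := by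
    rw [recG0 3, c3]
    norm_num
  have c5 : hc dG 0 5 = 2070951 / 536870912 := by
    rw [recG0 4, c4]
    norm_num
  have c6 : hc dG 0 6 = 2681881545 / 910533066752 := by
    rw [recG0 5, c5]
    norm_num
  have c7 : hc dG 0 7 = 2116770790875 / 903248802217984 := by
    rw [recG0 6, c6]
    norm_num
  exact ⟨c0, c1, c2, c3, c4, c5, c6, c7⟩

theorem valG1 : hc dG 1 0 = 1 ∧ hc dG 1 1 = 13 / 160 ∧ hc dG 1 2 = 637 / 19456 ∧ hc dG 1 3 = 23205 / 1245184
    ∧ hc dG 1 4 = 36501465 / 2948595712 ∧ hc dG 1 5 = 19484482017 / 2170166444032 ∧ hc dG 1 6 = 2393048654997 / 347226631045120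
    ∧ hc dG 1 7 = 391434387138795 / 71112014038040576 := by
  have c0 : hc dG 1 0 = 1 := rfl
  have c1 : hc dG 1 1 = 13 / 160 := by
    rw [recG1 0, c0]
    norm_num
  have c2 : hc dG 1 2 = 637 / 19456 := by
    rw [recG1 1, c1]
    norm_num
  have c3 : hc dG 1 3 = 23205 / 1245184 := by
    rw [recG1 2, c2]
    norm_num
  have c4 : hc dG 1 4 = 36501465 / 2948595712 := by
    rw [recG1 3, c3]
    norm_num
  have c5 : hc dG 1 5 = 19484482017 / 2170166444032 := by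
    rw [recG1 4, c4]
    norm_num
  have c6 : hc dG 1 6 = 2393048654997 / 347226631045120 := by
    rw [recG1 5, c5]
    norm_num
  have c7 : hc dG 1 7 = 391434387138795 / 71112014038040576 := by
    rw [recG1 6, c6]
    norm_num
  exact ⟨c0, c1, c2, c3, c4, c5, c6, c7⟩

theorem altG00 {v : ℝ} (hv : Tendsto (Vr dG 0 0) (𝓝[<] 0) (𝓝 v)) : 0.96 ≤ v ∧ v ≤ 0.98 := by
  rw [Vr0_eq] at hv
  have h := abel_alt (dG 0) (hc dG 0) (fun k => (factsG0.1 k).le) factsG0.2.1 hv 1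
  obtain ⟨c0, c1, c2, c3, c4, c5, c6, c7⟩ := valG0
  norm_num [Finset.sum_range_succ, c0, c1, c2] at h
  constructor <;> linarith [h.1, h.2]

theorem altG01 {v : ℝ} (hv : Tendsto (Vr dG 0 1) (𝓝[<] 0) (𝓝 v)) : 0.0435 ≤ v ∧ v ≤ 0.0455 := by
  rw [Vr1_eq] at hv
  have e0 : dG 0 = 5 / 72 := rfl
  rw [e0] at hv
  have h := abel_alt2 (5 / 72) (fun k : ℕ => ((5 / 72 : ℝ) + k) * hc dG 0 k)
    (fun k => mul_nonneg (by positivity) (factsG0.1 k).le) factsG0.2.2.1 factsG0.2.2.2 hv 2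
  obtain ⟨c0, c1, c2, c3, c4, c5, c6, c7⟩ := valG0
  norm_num [Finset.sum_range_succ, c0, c1, c2, c3, c4, c5] at h
  constructor <;> linarith [h.1, h.2]

theorem altG10 {v : ℝ} (hv : Tendsto (Vr dG 1 0) (𝓝[<] 0) (𝓝 v)) : 0.93 ≤ v ∧ v ≤ 0.95 := by
  rw [Vr0_eq] at hv
  have h := abel_alt (dG 1) (hc dG 1) (fun k => (factsG1.1 k).le) factsG1.2.1 hv 2
  obtain ⟨c0, c1, c2, c3, c4, c5, c6, c7⟩ := valG1
  norm_num [Finset.sum_range_succ, c0, c1, c2, c3, c4] at h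
  constructor <;> linarith [h.1, h.2]

theorem altG11 {v : ℝ} (hv : Tendsto (Vr dG 1 1) (𝓝[<] 0) (𝓝 v)) : 0.123 ≤ v ∧ v ≤ 0.126 := by
  rw [Vr1_eq] at hv
  have e0 : dG 1 = 13 / 72 := rfl
  rw [e0] at hv
  have h := abel_alt2 (13 / 72) (fun k : ℕ => ((13 / 72 : ℝ) + k) * hc dG 1 k)
    (fun k => mul_nonneg (by positivity) (factsG1.1 k).le) factsG1.2.2.1 factsG1.2.2.2 hv 3
  have h' := abel_alt2 (13 / 72) (fun k : ℕ => ((13 / 72 : ℝ) + k) * hc dG 1 k)
    (fun k => mul_nonneg (by positivity) (factsG1.1 k).le) factsG1.2.2.1 factsG1.2.2.2 hv 2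
  obtain ⟨c0, c1, c2, c3, c4, c5, c6, c7⟩ := valG1
  norm_num [Finset.sum_range_succ, c0, c1, c2, c3, c4, c5, c6, c7] at h h'
  constructor <;> linarith [h.1, h'.2]

end Pool.Agent.Helper326.HB
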