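import Mathlib
import Pool.Agent.Helper326.HB.Defs
import Pool.Agent.Helper326.HB.C2
import Pool.Agent.Helper326.HB.CR
import Pool.Agent.Helper326.HB.N1
import Pool.Agent.Helper326.HB.N2
import Pool.Agent.Helper326.HB.N3
import Pool.Agent.Helper326.HB.PAR
import Pool.Agent.Helper326.HB.Q1
import Pool.Agent.Helper326.HB.V1

set_option autoImplicit false
open Complex Metric Set Filter Topology Matrix

namespace Pool.Agent.Helper326.HB

theorem U2_form_h849 (M : Matrix (Fin 2) (Fin 2) ℂ) (h : U2 M) (a b : ℂ) :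
    ‖M 0 0 * a + M 0 1 * b‖ ^ 2 - ‖M 1 0 * a + M 1 1 * b‖ ^ 2 = ‖a‖ ^ 2 - ‖b‖ ^ 2 := by
  have h' : Mᴴ * J2 * M = J2 := h
  have e00 := congrFun (congrFun h' 0) 0
  have e01 := congrFun (congrFun h' 0) 1
  have e10 := congrFun (congrFun h' 1) 0
  have e11 := congrFun (congrFun h' 1) 1
  simp [J2, Matrix.mul_apply, Fin.sum_univ_two, Matrix.diagonal, Matrix.conjTranspose_apply]
    at e00 e01 e10 e11
  have key : (((‖M 0 0 * a + M 0 1 * b‖ ^ 2 - ‖M 1 0 * a + M 1 1 * b‖ ^ 2 : ℝ)) : ℂ) =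
      ((‖a‖ ^ 2 - ‖b‖ ^ 2 : ℝ) : ℂ) := by
    push_cast
    rw [← Complex.conj_mul', ← Complex.conj_mul', ← Complex.conj_mul', ← Complex.conj_mul']
    simp only [map_add, map_mul]
    linear_combination (-(starRingEnd ℂ) a * a) * e00 - ((starRingEnd ℂ) a * b) * e01 -
      ((starRingEnd ℂ) b * a) * e10 - ((starRingEnd ℂ) b * b) * e11
  exact_mod_cast key

theorem P_near_h849 (j : Fin 2) (z : ℂ) (hz : ‖z‖ ≤ 1) :
    ‖P dG j z - 1‖ ≤ ∑' k : ℕ, hc dG j (k + 1) := by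
  have hle : ∀ k : ℕ, ‖(hc dG j k : ℂ) * z ^ k‖ ≤ hc dG j k := by
    intro k
    rw [norm_mul, norm_pow, Complex.norm_real, Real.norm_eq_abs, abs_of_pos (coefG_pos j k)]
    exact mul_le_of_le_one_right (coefG_pos j k).le (pow_le_one₀ (norm_nonneg _) hz)
  have hs : Summable (fun k : ℕ => (hc dG j k : ℂ) * z ^ k) :=
    Summable.of_norm_bounded (coefG_summable j) hle
  have h1 : P dG j z = 1 + ∑' k : ℕ, (hc dG j (k + 1) : ℂ) * z ^ (k + 1) := by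
    rw [P, hs.tsum_eq_zero_add]
    simp [hc]
  rw [h1, add_sub_cancel_left]
  exact tsum_of_norm_bounded ((summable_nat_add_iff 1).mpr (coefG_summable j)).hasSum
    (fun k => hle (k + 1))

theorem D_low_h849 {g1 : ℝ} (hg0 : 0 < g1) (hg1 : g1 ≤ 0.4) {B : Fin 2 → ℂ → ℂ}
    (hB : ∀ j, ∀ τ ∈ ball (0 : ℂ) 2, 0 < τ.re → |τ.im| < τ.re → B j τ = psi dG j (-τ ^ 2))
    (τ : ℂ) (hτ : τ ∈ ball (0 : ℂ) 2) (h1 : 0 < τ.re) (h2 : |τ.im| < τ.re) :
    (0.05 : ℝ) ≤ ‖B 0 τ‖ ^ 2 - g1 * ‖B 1 τ‖ ^ 2 := by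
  have hnorm : τ.re ^ 2 + τ.im ^ 2 < 4 := by
    have h3 : ‖τ‖ < 2 := by simpa using hτ
    have h4 : ‖τ‖ ^ 2 = τ.re ^ 2 + τ.im ^ 2 := by
      rw [← Complex.normSq_eq_norm_sq, Complex.normSq_apply]; ring
    have h5 : ‖τ‖ ^ 2 < 2 ^ 2 := pow_lt_pow_left₀ h3 (norm_nonneg _) two_ne_zero
    linarith
  have him : τ.im ^ 2 < τ.re ^ 2 := by
    rw [← sq_abs τ.im]
    exact pow_lt_pow_left₀ h2 (abs_nonneg _) two_ne_zero
  have hre : (-τ ^ 2).re = τ.im ^ 2 - τ.re ^ 2 := by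
    rw [sq, Complex.neg_re, Complex.mul_re]; ring
  have hr0 : (-τ ^ 2).re < 0 := by rw [hre]; linarith
  have hr4 : -4 < (-τ ^ 2).re := by
    rw [hre]
    have := sq_nonneg τ.im
    linarith
  obtain ⟨u, hu⟩ : ∃ u : ℂ, u = -τ ^ 2 := ⟨_, rfl⟩
  rw [← hu] at hr0 hr4
  have hz : ‖Complex.exp u‖ ≤ 1 := by
    rw [Complex.norm_exp]
    exact Real.exp_le_one_iff.mpr hr0.le
  have hn : ∀ j, ‖B j τ‖ = Real.exp (dG j * u.re) * ‖P dG j (Complex.exp u)‖ := by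
    intro j
    rw [hB j τ hτ h1 h2, ← hu, psi_eq, norm_mul, Complex.norm_exp, Complex.re_ofReal_mul]
  have hP0 : 0.89 ≤ ‖P dG 0 (Complex.exp u)‖ := by
    have ha := (P_near_h849 0 _ hz).trans coefG_sum0
    have hb := norm_sub_norm_le (1 : ℂ) (P dG 0 (Complex.exp u))
    rw [norm_sub_rev, norm_one] at hb
    norm_num at ha hb ⊢
    linarith
  have hP1 : ‖P dG 1 (Complex.exp u)‖ ≤ 1.25 := by
    have ha := (P_near_h849 1 _ hz).trans coefG_sum1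
    have hb := norm_sub_norm_le (P dG 1 (Complex.exp u)) (1 : ℂ)
    rw [norm_one] at hb
    norm_num at ha hb ⊢
    linarith
  have hE : (13 / 18 : ℝ) ≤ Real.exp (dG 0 * u.re) := by
    have h3 := Real.add_one_le_exp (dG 0 * u.re)
    have h4 : dG 0 = 5 / 72 := by simp [dG]
    rw [h4] at h3 ⊢
    linarith
  have hEE : Real.exp (dG 1 * u.re) ≤ Real.exp (dG 0 * u.re) := by
    apply Real.exp_le_exp.mpr
    have h4 : dG 0 = 5 / 72 := by simp [dG]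
    have h5 : dG 1 = 13 / 72 := by simp [dG]
    rw [h4, h5]
    linarith
  have hB0 : Real.exp (dG 0 * u.re) * 0.89 ≤ ‖B 0 τ‖ := by
    rw [hn]
    exact mul_le_mul_of_nonneg_left hP0 (Real.exp_pos _).le
  have hB1 : ‖B 1 τ‖ ≤ Real.exp (dG 0 * u.re) * 1.25 := by
    rw [hn]
    exact mul_le_mul hEE hP1 (norm_nonneg _) (Real.exp_pos _).le
  obtain ⟨E, hEdef⟩ : ∃ E : ℝ, E = Real.exp (dG 0 * u.re) := ⟨_, rfl⟩
  rw [← hEdef] at hE hB0 hB1
  have q0 : (E * 0.89) ^ 2 ≤ ‖B 0 τ‖ ^ 2 := pow_le_pow_left₀ (by nlinarith) hB0 2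
  have q1 : ‖B 1 τ‖ ^ 2 ≤ (E * 1.25) ^ 2 := pow_le_pow_left₀ (norm_nonneg _) hB1 2
  have q2 : g1 * ‖B 1 τ‖ ^ 2 ≤ 0.4 * (E * 1.25) ^ 2 :=
    mul_le_mul hg1 q1 (by positivity) (by norm_num)
  have q3 : (13 / 18 : ℝ) ^ 2 ≤ E ^ 2 := pow_le_pow_left₀ (by norm_num) hE 2
  norm_num at q0 q2 q3 ⊢
  nlinarith

theorem corner_S : ∃ g1 : ℝ, 0 < g1 ∧ g1 ≤ 0.4 ∧
    ∃ (S : ℂ → ℂ) (g : Matrix (Fin 2) (Fin 2) ℂ), DifferentiableOn ℂ S (ball 0 2) ∧
      MapsTo S (ball 0 2) (ball 0 1) ∧ (∀ τ ∈ ball (0 : ℂ) 2, deriv S τ ≠ 0) ∧ U2 g ∧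
      (∀ τ ∈ ball (0 : ℂ) 2, S (I * τ) = mob g (S τ)) ∧
      ∀ τ ∈ ball (0 : ℂ) 2, 0 < τ.re → |τ.im| < τ.re →
        S τ = sfun g1 (Complex.exp (-τ ^ 2 / 9)) := by
  obtain ⟨B, hBd, hBpsi, hBW⟩ := corner2
  have d0 : dG 0 = 5 / 72 := by simp [dG]
  have d1 : dG 1 = 13 / 72 := by simp [dG]
  -- bound of the coefficients
  obtain ⟨C, hC⟩ : ∃ C : ℝ, ∀ (j : Fin 2) (k : ℕ), |hc dG j k| ≤ C := by
    refine ⟨(∑' k, hc dG 0 k) + ∑' k, hc dG 1 k, ?_⟩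
    have hnn : ∀ j, 0 ≤ ∑' k, hc dG j k := fun j => tsum_nonneg fun k => (coefG_pos j k).le
    have hle : ∀ j k, hc dG j k ≤ ∑' k, hc dG j k := fun j k =>
      (coefG_summable j).le_tsum k (fun i _ => (coefG_pos j i).le)
    intro j k
    rw [abs_of_pos (coefG_pos j k)]
    fin_cases j
    · have := hle 0 k
      have := hnn 1
      simp only [Fin.zero_eta, Fin.isValue]
      linarith
    · have := hle 1 k
      have := hnn 0
      simp only [Fin.mk_one, Fin.isValue]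
      linarith
  have hVex := fun j => exists_V (hC j) (hBd j) (hBpsi j)
  choose V hVd hVp hVc hVr hVv using hVex
  choose v hv1 hv2 using hVv
  obtain ⟨a1, a2⟩ := altG00 (hv2 0 0)
  obtain ⟨b1, b2⟩ := altG01 (hv2 0 1)
  obtain ⟨c1, c2⟩ := altG10 (hv2 1 0)
  obtain ⟨e1, e2⟩ := altG11 (hv2 1 1)
  norm_num at a1 a2 b1 b2 c1 c2 e1 e2
  obtain ⟨m, hm⟩ : ∃ m : Matrix (Fin 2) (Fin 2) ℝ, m = Matrix.of (fun (j : Fin 2) (i : Fin 2) => v j (i : ℕ)) :=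
    ⟨_, rfl⟩
  have m00 : m 0 0 = v 0 0 := by rw [hm]; rfl
  have m01 : m 0 1 = v 0 1 := by rw [hm]; rfl
  have m10 : m 1 0 = v 1 0 := by rw [hm]; rfl
  have m11 : m 1 1 = v 1 1 := by rw [hm]; rfl
  have hdet : m.det ≠ 0 := by
    rw [Matrix.det_fin_two, m00, m01, m10, m11]
    have h1 : (0.96 : ℝ) * 0.123 ≤ v 0 0 * v 1 1 := by
      norm_num
      nlinarith
    have h2 : v 0 1 * v 1 0 ≤ 0.0455 * 0.95 := by
      norm_num
      nlinarith
    norm_num at h1 h2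
    intro h
    linarith
  have hpar := parity2 (δ := dG) (by rw [d0, d1]; norm_num) (by
      intro i j k
      have hk : (0 : ℝ) ≤ k := Nat.cast_nonneg k
      have hj : 0 < dG j := by fin_cases j <;> simp [dG]
      have hi : dG i < 1 := by fin_cases i <;> norm_num [dG]
      have : 0 < dG j + k + 1 - dG i := by linarith
      exact this.ne') (C := C) hC hVd hVp (v := m) (by
      intro j i
      rw [hv1 j i, hm]
      rfl) hdet
  have hrel := corner_rel (n := 2) (δ := dG) (A := B) (V := V) hBd hVc hVr hpar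
  obtain ⟨g1, hg1⟩ : ∃ g1 : ℝ, g1 = m 0 0 * m 0 1 / (m 1 0 * m 1 1) := ⟨_, rfl⟩
  have hv10 : 0 < v 1 0 := by linarith
  have hv11 : 0 < v 1 1 := by linarith
  have hv00 : 0 < v 0 0 := by linarith
  have hv01 : 0 < v 0 1 := by linarith
  have hgpos : 0 < g1 := by
    rw [hg1, m00, m01, m10, m11]
    positivity
  have hgle : g1 ≤ 0.4 := by
    rw [hg1, m00, m01, m10, m11, div_le_iff₀ (by positivity)]
    have h1 : v 0 0 * v 0 1 ≤ 0.98 * 0.0455 := by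
      norm_num
      nlinarith
    have h2 : (0.93 : ℝ) * 0.123 ≤ v 1 0 * v 1 1 := by
      norm_num
      nlinarith
    norm_num at h1 h2 ⊢
    linarith
  obtain ⟨M, hM, hMr⟩ := unit2 (δ := dG) (g1 := g1) hgpos (v := m) hdet (by
    rw [hg1]
    have h1 : m 1 0 ≠ 0 := by rw [m10]; exact hv10.ne'
    have h2 : m 1 1 ≠ 0 := by rw [m11]; exact hv11.ne'
    field_simp
    ring) (A := B) (U := ball (0 : ℂ) 2) hrel
  have hIball : ∀ τ ∈ ball (0 : ℂ) 2, I * τ ∈ ball (0 : ℂ) 2 := by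
    intro τ hτ
    simpa using hτ
  -- the form
  have hsq : ∀ τ, g1 * ‖B 1 τ‖ ^ 2 = ‖(Real.sqrt g1 : ℂ) * B 1 τ‖ ^ 2 := by
    intro τ
    rw [norm_mul, mul_pow, Complex.norm_real, Real.norm_eq_abs, sq_abs, Real.sq_sqrt hgpos.le]
  have hDinv : ∀ τ ∈ ball (0 : ℂ) 2, ‖B 0 (I * τ)‖ ^ 2 - g1 * ‖B 1 (I * τ)‖ ^ 2 =
      ‖B 0 τ‖ ^ 2 - g1 * ‖B 1 τ‖ ^ 2 := by
    intro τ hτ
    rw [hsq, hsq, (hMr τ hτ).1, (hMr τ hτ).2]
    exact U2_form_h849 M hM _ _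
  have hcont : ∀ j, ContinuousOn (B j) (ball 0 2) := fun j => (hBd j).continuousOn
  have hDsec : ∀ τ ∈ ball (0 : ℂ) 2, |τ.im| ≤ τ.re →
      0 < ‖B 0 τ‖ ^ 2 - g1 * ‖B 1 τ‖ ^ 2 := by
    intro τ hτ hre
    have hct : ContinuousAt (fun s : ℂ => ‖B 0 s‖ ^ 2 - g1 * ‖B 1 s‖ ^ 2) τ := by
      have h0 := (hcont 0).continuousAt (isOpen_ball.mem_nhds hτ)
      have h1 := (hcont 1).continuousAt (isOpen_ball.mem_nhds hτ)
      exact (h0.norm.pow 2).sub (continuousAt_const.mul (h1.norm.pow 2))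
    have hpath : Tendsto (fun ε : ℝ => τ + (ε : ℂ)) (𝓝[>] 0) (𝓝 τ) := by
      have : Tendsto (fun ε : ℝ => τ + (ε : ℂ)) (𝓝 0) (𝓝 (τ + ((0 : ℝ) : ℂ))) := by
        refine Continuous.tendsto ?_ 0
        exact continuous_const.add Complex.continuous_ofReal
      simp only [Complex.ofReal_zero, add_zero] at this
      exact this.mono_left nhdsWithin_le_nhds
    have hlim : Tendsto (fun ε : ℝ => ‖B 0 (τ + (ε : ℂ))‖ ^ 2 - g1 * ‖B 1 (τ + (ε : ℂ))‖ ^ 2)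
        (𝓝[>] 0) (𝓝 (‖B 0 τ‖ ^ 2 - g1 * ‖B 1 τ‖ ^ 2)) := hct.tendsto.comp hpath
    have hev : ∀ᶠ ε : ℝ in 𝓝[>] 0,
        (0.05 : ℝ) ≤ ‖B 0 (τ + (ε : ℂ))‖ ^ 2 - g1 * ‖B 1 (τ + (ε : ℂ))‖ ^ 2 := by
      filter_upwards [hpath (isOpen_ball.mem_nhds hτ), self_mem_nhdsWithin] with ε hε hε0
      have hε0' : 0 < ε := hε0
      refine D_low_h849 hgpos hgle hBpsi _ hε ?_ ?_
      · have := abs_nonneg τ.im
        simp only [Complex.add_re, Complex.ofReal_re]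
        linarith
      · simp only [Complex.add_re, Complex.ofReal_re, Complex.add_im, Complex.ofReal_im, add_zero]
        linarith
    have := ge_of_tendsto hlim hev
    norm_num at this
    linarith
  have hD : ∀ τ ∈ ball (0 : ℂ) 2, 0 < ‖B 0 τ‖ ^ 2 - g1 * ‖B 1 τ‖ ^ 2 := by
    intro τ hτ
    have hτ1 := hIball τ hτ
    have hτ2 := hIball _ hτ1
    have hτ3 := hIball _ hτ2
    rcases le_or_gt |τ.im| |τ.re| with h | h
    · rcases le_or_gt 0 τ.re with h0 | h0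
      · rw [abs_of_nonneg h0] at h
        exact hDsec τ hτ h
      · rw [abs_of_neg h0] at h
        have hx := hDsec _ hτ2 (by
          have e : I * (I * τ) = -τ := by rw [← mul_assoc, Complex.I_mul_I]; ring
          rw [e]
          simpa using h)
        rw [hDinv _ hτ1, hDinv _ hτ] at hx
        exact hx
    · rcases le_or_gt 0 τ.im with h0 | h0
      · rw [abs_of_nonneg h0] at h
        have hx := hDsec _ hτ3 (by
          have e : I * (I * (I * τ)) = -(I * τ) := by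
            rw [← mul_assoc I I (I * τ), Complex.I_mul_I]; ring
          rw [e]
          simp
          exact h.le)
        rw [hDinv _ hτ2, hDinv _ hτ1, hDinv _ hτ] at hx
        exact hx
      · rw [abs_of_neg h0] at h
        have hx := hDsec _ hτ1 (by
          simp
          exact h.le)
        rw [hDinv _ hτ] at hx
        exact hx
  have hB0 : ∀ τ ∈ ball (0 : ℂ) 2, B 0 τ ≠ 0 := by
    intro τ hτ h0
    have h1 := hD τ hτ
    rw [h0, norm_zero] at h1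
    have h2 : 0 ≤ g1 * ‖B 1 τ‖ ^ 2 := by positivity
    norm_num at h1
    linarith
  refine ⟨g1, hgpos, hgle, fun τ => (Real.sqrt g1 : ℂ) * B 1 τ / B 0 τ, M, ?_, ?_, ?_, hM, ?_, ?_⟩
  · exact ((hBd 1).const_mul _).div (hBd 0) hB0
  · intro τ hτ
    rw [mem_ball_zero_iff, norm_div, div_lt_one (norm_pos_iff.mpr (hB0 τ hτ))]
    have h1 := hD τ hτ
    rw [hsq] at h1
    exact lt_of_pow_lt_pow_left₀ 2 (norm_nonneg _) (by linarith)
  · intro τ hτ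
    have hd0 := (hBd 0).differentiableAt (isOpen_ball.mem_nhds hτ)
    have hd1 := (hBd 1).differentiableAt (isOpen_ball.mem_nhds hτ)
    have hder : HasDerivAt (fun τ => (Real.sqrt g1 : ℂ) * B 1 τ / B 0 τ)
        (((Real.sqrt g1 : ℂ) * deriv (B 1) τ * B 0 τ - (Real.sqrt g1 : ℂ) * B 1 τ * deriv (B 0) τ)
          / (B 0 τ) ^ 2) τ :=
      (hd1.hasDerivAt.const_mul _).div hd0.hasDerivAt (hB0 τ hτ)
    rw [hder.deriv]
    refine div_ne_zero ?_ (pow_ne_zero _ (hB0 τ hτ))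
    have e : (Real.sqrt g1 : ℂ) * deriv (B 1) τ * B 0 τ -
        (Real.sqrt g1 : ℂ) * B 1 τ * deriv (B 0) τ =
        (Real.sqrt g1 : ℂ) * (B 0 τ * deriv (B 1) τ - B 1 τ * deriv (B 0) τ) := by ring
    rw [e]
    refine mul_ne_zero ?_ (hBW τ hτ)
    rw [Complex.ofReal_ne_zero]
    exact (Real.sqrt_pos.mpr hgpos).ne'
  · intro τ hτ
    have hb := hB0 τ hτ
    have hb' := hB0 _ (hIball τ hτ)
    have h1 := (hMr τ hτ).1
    have h2 := (hMr τ hτ).2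
    simp only [mob]
    rw [h2, h1]
    rw [h1] at hb'
    have e1 : M 1 0 + M 1 1 * ((Real.sqrt g1 : ℂ) * B 1 τ / B 0 τ) =
        (M 1 0 * B 0 τ + M 1 1 * ((Real.sqrt g1 : ℂ) * B 1 τ)) / B 0 τ := by
      field_simp
    have e2 : M 0 0 + M 0 1 * ((Real.sqrt g1 : ℂ) * B 1 τ / B 0 τ) =
        (M 0 0 * B 0 τ + M 0 1 * ((Real.sqrt g1 : ℂ) * B 1 τ)) / B 0 τ := by
      field_simp
    rw [e1, e2, div_div_div_cancel_right₀ hb]
  · intro τ hτ h1 h2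
    have hb := hB0 τ hτ
    simp only [sfun]
    have hw : Complex.exp (-τ ^ 2 / 9) ^ 9 = Complex.exp (-τ ^ 2) := by
      rw [← Complex.exp_nat_mul]
      congr 1
      push_cast
      ring
    rw [hw]
    have e0 : B 0 τ = Complex.exp ((dG 0 : ℂ) * (-τ ^ 2)) * P dG 0 (Complex.exp (-τ ^ 2)) := by
      rw [hBpsi 0 τ hτ h1 h2, psi_eq]
    have e1 : B 1 τ = Complex.exp ((dG 1 : ℂ) * (-τ ^ 2)) * P dG 1 (Complex.exp (-τ ^ 2)) := by
      rw [hBpsi 1 τ hτ h1 h2, psi_eq]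
    have e2 : Complex.exp ((dG 1 : ℂ) * (-τ ^ 2)) =
        Complex.exp ((dG 0 : ℂ) * (-τ ^ 2)) * Complex.exp (-τ ^ 2 / 9) := by
      rw [← Complex.exp_add]
      congr 1
      rw [d0, d1]
      push_cast
      ring
    rw [e0] at hb
    have hP0 : P dG 0 (Complex.exp (-τ ^ 2)) ≠ 0 := right_ne_zero_of_mul hb
    rw [e0, e1, e2]
    have hE := Complex.exp_ne_zero ((dG 0 : ℂ) * (-τ ^ 2))
    field_simp

end Pool.Agent.Helper326.HB
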