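import Mathlib
import Pool.Agent.Helper326.HB.Defs

set_option autoImplicit false
open Complex Metric Set Filter Topology Matrix

namespace Pool.Agent.Helper326.HB

theorem eg_id {f g : ℂ → ℂ × ℂ} {U : Set ℂ} (hU : IsOpen U) (hc : Convex ℝ U)
    (hf : DifferentiableOn ℂ f U) (hg : DifferentiableOn ℂ g U) {z : ℂ} (hz : z ∈ U)
    (h : f =ᶠ[𝓝 z] g) : EqOn f g U :=
  (hf.analyticOnNhd hU).eqOn_of_preconnected_of_eventuallyEq (hg.analyticOnNhd hU)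
    hc.isPreconnected hz h

theorem eg_pd {δ R ρ : ℝ} (hδ : 0 < δ) (hδ1 : δ < 1) (hR : R < 1) (hρ : ρ ≤ δ * (1 - R))
    {y x : ℂ} (hy : ‖y‖ ≤ R) (hx : x ∈ ball y ρ) : x ∈ ball (0 : ℂ) 1 ∧ pd y x < δ := by
  rw [mem_ball, dist_eq_norm] at hx
  have h1 : ‖x‖ ≤ ‖y‖ + ‖x - y‖ := by
    have := norm_add_le y (x - y)
    rwa [add_sub_cancel] at this
  have h2 : δ * (1 - R) ≤ 1 - R := by nlinarith
  have hx1 : ‖x‖ < 1 := by linarith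
  refine ⟨by rw [mem_ball, dist_zero_right]; exact hx1, ?_⟩
  have h3 : 1 - R ≤ ‖1 - (starRingEnd ℂ) y * x‖ := by
    have h4 : ‖(starRingEnd ℂ) y * x‖ ≤ R := by
      rw [norm_mul, RCLike.norm_conj]
      calc ‖y‖ * ‖x‖ ≤ R * 1 := mul_le_mul hy hx1.le (norm_nonneg _)
            (le_trans (norm_nonneg _) hy)
        _ = R := mul_one _
    have h5 := norm_sub_norm_le (1 : ℂ) ((starRingEnd ℂ) y * x)
    rw [norm_one] at h5
    linarith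
  have h6 : 0 < ‖1 - (starRingEnd ℂ) y * x‖ := by linarith
  unfold pd
  rw [norm_div, div_lt_iff₀ h6, norm_sub_rev]
  calc ‖x - y‖ < ρ := hx
    _ ≤ δ * (1 - R) := hρ
    _ ≤ δ * ‖1 - (starRingEnd ℂ) y * x‖ := mul_le_mul_of_nonneg_left h3 hδ.le

/-- extension to the ball of radius `r` -/
def EgP (Fam : ℂ → (ℂ → ℂ × ℂ) → Prop) (φ₀ : ℂ → ℂ × ℂ) (r : ℝ) : Prop :=
  ∃ f : ℂ → ℂ × ℂ, DifferentiableOn ℂ f (ball 0 r) ∧ f =ᶠ[𝓝 0] φ₀ ∧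
    ∀ y ∈ ball (0 : ℂ) r, ∃ φ, Fam y φ ∧ f =ᶠ[𝓝 y] φ

theorem EgP.mono {Fam : ℂ → (ℂ → ℂ × ℂ) → Prop} {φ₀ : ℂ → ℂ × ℂ} {r r' : ℝ}
    (h : EgP Fam φ₀ r) (hr : r' ≤ r) : EgP Fam φ₀ r' := by
  obtain ⟨f, h1, h2, h3⟩ := h
  exact ⟨f, h1.mono (ball_subset_ball hr), h2, fun y hy => h3 y (ball_subset_ball hr hy)⟩

theorem eg_step {δ : ℝ} (hδ : 0 < δ) (hδ1 : δ < 1) (Fam : ℂ → (ℂ → ℂ × ℂ) → Prop)
    (hhol : ∀ y ∈ ball (0 : ℂ) 1, ∀ φ, Fam y φ →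
      DifferentiableOn ℂ φ {x | x ∈ ball (0 : ℂ) 1 ∧ pd y x < δ})
    (hcont : ∀ y ∈ ball (0 : ℂ) 1, ∀ φ, Fam y φ → ∀ y' ∈ ball (0 : ℂ) 1, pd y y' < δ →
      ∃ φ', Fam y' φ' ∧ φ =ᶠ[𝓝 y'] φ')
    {φ₀ : ℂ → ℂ × ℂ} {R ρ r : ℝ} (hr0 : 0 < r) (hr : r ≤ R) (hR : R < 1) (hρ0 : 0 < ρ)
    (hρ : ρ ≤ δ * (1 - R)) (hP : EgP Fam φ₀ r) : EgP Fam φ₀ (r + ρ) := by
  classical
  obtain ⟨f, hf1, hf2, hf3⟩ := hP
  choose! g hg1 hg2 using hf3
  have hyR : ∀ y ∈ ball (0 : ℂ) r, ‖y‖ ≤ R := by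
    intro y hy
    rw [mem_ball, dist_zero_right] at hy
    linarith
  have hy1 : ∀ y ∈ ball (0 : ℂ) r, y ∈ ball (0 : ℂ) 1 := by
    intro y hy
    rw [mem_ball, dist_zero_right] at *
    linarith
  have hgd : ∀ y ∈ ball (0 : ℂ) r, DifferentiableOn ℂ (g y) (ball y ρ) := by
    intro y hy
    exact (hhol y (hy1 y hy) _ (hg1 y hy)).mono
      (fun x hx => eg_pd hδ hδ1 hR hρ (hyR y hy) hx)
  -- Claim A
  have hA : ∀ y ∈ ball (0 : ℂ) r, EqOn f (g y) (ball 0 r ∩ ball y ρ) := by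
    intro y hy
    refine eg_id (isOpen_ball.inter isOpen_ball)
      ((convex_ball _ _).inter (convex_ball _ _)) (hf1.mono inter_subset_left)
      ((hgd y hy).mono inter_subset_right) ⟨hy, mem_ball_self hρ0⟩ (hg2 y hy)
  -- Claim B
  have hB : ∀ y ∈ ball (0 : ℂ) r, ∀ y' ∈ ball (0 : ℂ) r,
      EqOn (g y) (g y') (ball y ρ ∩ ball y' ρ) := by
    intro y hy y' hy' x hx
    have hd : dist y y' < 2 * ρ := by
      have h1 := dist_triangle_left y y' x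
      have h2 := mem_ball.1 hx.1
      have h3 := mem_ball.1 hx.2
      linarith
    have hm0 : midpoint ℝ y y' ∈ ball (0 : ℂ) r := (convex_ball _ _).midpoint_mem hy hy'
    have hm1 : midpoint ℝ y y' ∈ ball y ρ := by
      rw [mem_ball, dist_midpoint_left]
      norm_num
      linarith
    have hm2 : midpoint ℝ y y' ∈ ball y' ρ := by
      rw [mem_ball, dist_midpoint_right]
      norm_num
      linarith
    have hev : g y =ᶠ[𝓝 (midpoint ℝ y y')] g y' := by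
      have hopen : IsOpen (ball (0 : ℂ) r ∩ ball y ρ ∩ ball y' ρ) :=
        (isOpen_ball.inter isOpen_ball).inter isOpen_ball
      filter_upwards [hopen.mem_nhds ⟨⟨hm0, hm1⟩, hm2⟩] with w hw
      rw [← hA y hy hw.1, hA y' hy' ⟨hw.1.1, hw.2⟩]
    exact eg_id (isOpen_ball.inter isOpen_ball)
      ((convex_ball _ _).inter (convex_ball _ _)) ((hgd y hy).mono inter_subset_left)
      ((hgd y' hy').mono inter_subset_right) ⟨hm1, hm2⟩ hev hx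
  obtain ⟨F, hF⟩ : ∃ F : ℂ → ℂ × ℂ, ∀ y ∈ ball (0 : ℂ) r, EqOn F (g y) (ball y ρ) := by
    refine ⟨fun x => if h : ∃ y ∈ ball (0 : ℂ) r, x ∈ ball y ρ then g h.choose x else 0, ?_⟩
    intro y hy x hx
    have h : ∃ y ∈ ball (0 : ℂ) r, x ∈ ball y ρ := ⟨y, hy, hx⟩
    simp only [dif_pos h]
    exact hB _ h.choose_spec.1 y hy ⟨h.choose_spec.2, hx⟩
  have hcov : ∀ x ∈ ball (0 : ℂ) (r + ρ), ∃ y ∈ ball (0 : ℂ) r, x ∈ ball y ρ := by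
    intro x hx
    rw [mem_ball, dist_zero_right] at hx
    refine ⟨((r / (r + ρ) : ℝ) : ℂ) * x, ?_, ?_⟩
    · rw [mem_ball, dist_zero_right, norm_mul, Complex.norm_real, Real.norm_eq_abs,
        abs_of_pos (by positivity), div_mul_eq_mul_div, div_lt_iff₀ (by positivity)]
      exact mul_lt_mul_of_pos_left hx hr0
    · rw [mem_ball, dist_eq_norm]
      have : x - ((r / (r + ρ) : ℝ) : ℂ) * x = ((ρ / (r + ρ) : ℝ) : ℂ) * x := by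
        have h1 : (1 : ℝ) - r / (r + ρ) = ρ / (r + ρ) := by field_simp; ring
        rw [← h1]; push_cast; ring
      rw [this, norm_mul, Complex.norm_real, Real.norm_eq_abs,
        abs_of_pos (by positivity), div_mul_eq_mul_div, div_lt_iff₀ (by positivity)]
      exact mul_lt_mul_of_pos_left hx hρ0
  refine ⟨F, ?_, ?_, ?_⟩
  · intro x hx
    obtain ⟨y, hy, hxy⟩ := hcov x hx
    have h1 : DifferentiableAt ℂ (g y) x :=
      (hgd y hy).differentiableAt (isOpen_ball.mem_nhds hxy)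
    have h2 : F =ᶠ[𝓝 x] g y :=
      (hF y hy).eventuallyEq_of_mem (isOpen_ball.mem_nhds hxy)
    exact (h1.congr_of_eventuallyEq h2).differentiableWithinAt
  · have h0 : (0 : ℂ) ∈ ball (0 : ℂ) r := mem_ball_self hr0
    have h2 : F =ᶠ[𝓝 0] g 0 :=
      (hF 0 h0).eventuallyEq_of_mem (isOpen_ball.mem_nhds (mem_ball_self hρ0))
    exact h2.trans ((hg2 0 h0).symm.trans hf2)
  · intro x hx
    obtain ⟨y, hy, hxy⟩ := hcov x hx
    have h2 : F =ᶠ[𝓝 x] g y :=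
      (hF y hy).eventuallyEq_of_mem (isOpen_ball.mem_nhds hxy)
    obtain ⟨hx1, hx2⟩ := eg_pd hδ hδ1 hR hρ (hyR y hy) hxy
    obtain ⟨φ', h3, h4⟩ := hcont y (hy1 y hy) _ (hg1 y hy) x hx1 hx2
    exact ⟨φ', h3, h2.trans h4⟩

theorem eg_all {δ : ℝ} (hδ : 0 < δ) (hδ1 : δ < 1) (Fam : ℂ → (ℂ → ℂ × ℂ) → Prop)
    (hhol : ∀ y ∈ ball (0 : ℂ) 1, ∀ φ, Fam y φ →
      DifferentiableOn ℂ φ {x | x ∈ ball (0 : ℂ) 1 ∧ pd y x < δ})
    (hcont : ∀ y ∈ ball (0 : ℂ) 1, ∀ φ, Fam y φ → ∀ y' ∈ ball (0 : ℂ) 1, pd y y' < δ →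
      ∃ φ', Fam y' φ' ∧ φ =ᶠ[𝓝 y'] φ')
    {φ₀ : ℂ → ℂ × ℂ} (h0 : Fam 0 φ₀) {R : ℝ} (hR0 : 0 < R) (hR : R < 1) : EgP Fam φ₀ R := by
  obtain ⟨ρ, hρ0, hρ⟩ : ∃ ρ : ℝ, 0 < ρ ∧ ρ ≤ δ * (1 - R) :=
    ⟨δ * (1 - R), mul_pos hδ (by linarith), le_rfl⟩
  have hbase : EgP Fam φ₀ ρ := by
    have h1 : ∀ x ∈ ball (0 : ℂ) ρ, x ∈ ball (0 : ℂ) 1 ∧ pd 0 x < δ := fun x hx =>
      eg_pd hδ hδ1 hR hρ (y := 0) (by rw [norm_zero]; exact hR0.le) hx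
    refine ⟨φ₀, ?_, EventuallyEq.rfl, ?_⟩
    · exact (hhol 0 (mem_ball_self one_pos) _ h0).mono h1
    · intro y hy
      obtain ⟨hy1, hy2⟩ := h1 y hy
      exact hcont 0 (mem_ball_self one_pos) _ h0 y hy1 hy2
  have hind : ∀ n : ℕ, EgP Fam φ₀ (min R ((n + 1) * ρ)) := by
    intro n
    induction n with
    | zero =>
      refine hbase.mono ?_
      rw [Nat.cast_zero, zero_add, one_mul]
      exact min_le_right _ _
    | succ n ih =>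
      have hpos : 0 < min R ((n + 1) * ρ) := lt_min hR0 (by positivity)
      have := eg_step hδ hδ1 Fam hhol hcont hpos (min_le_left _ _) hR hρ0 hρ ih
      refine this.mono ?_
      rcases le_total R ((n + 1) * ρ) with h | h
      · rw [min_eq_left h]
        exact (min_le_left _ _).trans (by linarith)
      · rw [min_eq_right h]
        refine (min_le_right _ _).trans ?_
        push_cast
        linarith
  obtain ⟨n, hn⟩ := exists_nat_ge (R / ρ)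
  refine (hind n).mono ?_
  rw [le_min_iff]
  refine ⟨le_rfl, ?_⟩
  rw [div_le_iff₀ hρ0] at hn
  linarith

theorem extend_germs {δ : ℝ} (hδ : 0 < δ) (hδ1 : δ < 1) (Fam : ℂ → (ℂ → ℂ × ℂ) → Prop)
    (hhol : ∀ y ∈ ball (0 : ℂ) 1, ∀ φ, Fam y φ →
      DifferentiableOn ℂ φ {x | x ∈ ball (0 : ℂ) 1 ∧ pd y x < δ})
    (hcont : ∀ y ∈ ball (0 : ℂ) 1, ∀ φ, Fam y φ → ∀ y' ∈ ball (0 : ℂ) 1, pd y y' < δ →
      ∃ φ', Fam y' φ' ∧ φ =ᶠ[𝓝 y'] φ')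
    {φ₀ : ℂ → ℂ × ℂ} (h0 : Fam 0 φ₀) :
    ∃ F : ℂ → ℂ × ℂ, DifferentiableOn ℂ F (ball 0 1) ∧ F =ᶠ[𝓝 0] φ₀ ∧
      ∀ y ∈ ball (0 : ℂ) 1, ∃ φ, Fam y φ ∧ F =ᶠ[𝓝 y] φ := by
  have hall : ∀ R : ℝ, 0 < R → R < 1 → EgP Fam φ₀ R := fun R hR0 hR =>
    eg_all hδ hδ1 Fam hhol hcont h0 hR0 hR
  unfold EgP at hall
  choose! f hf1 hf2 hf3 using hall
  have hcomp : ∀ R R' : ℝ, 0 < R → R < 1 → 0 < R' → R' < 1 → ∀ x ∈ ball (0 : ℂ) R,
      x ∈ ball (0 : ℂ) R' → f R x = f R' x := by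
    intro R R' hR0 hR hR'0 hR' x hx hx'
    exact eg_id (isOpen_ball.inter isOpen_ball) ((convex_ball _ _).inter (convex_ball _ _))
      ((hf1 R hR0 hR).mono inter_subset_left) ((hf1 R' hR'0 hR').mono inter_subset_right)
      ⟨mem_ball_self hR0, mem_ball_self hR'0⟩ ((hf2 R hR0 hR).trans (hf2 R' hR'0 hR').symm)
      ⟨hx, hx'⟩
  have hF : ∀ R : ℝ, 0 < R → R < 1 → EqOn (fun x => f ((1 + ‖x‖) / 2) x) (f R) (ball 0 R) := by
    intro R hR0 hR x hx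
    have hx' := hx
    rw [mem_ball, dist_zero_right] at hx'
    have hxn := norm_nonneg x
    refine hcomp _ R (by linarith) (by linarith) hR0 hR x ?_ hx
    rw [mem_ball, dist_zero_right]
    linarith
  have hloc : ∀ y ∈ ball (0 : ℂ) 1, ∃ R : ℝ, 0 < R ∧ R < 1 ∧ y ∈ ball (0 : ℂ) R ∧
      (fun x => f ((1 + ‖x‖) / 2) x) =ᶠ[𝓝 y] f R := by
    intro y hy
    rw [mem_ball, dist_zero_right] at hy
    have hyn := norm_nonneg y
    have hyR : y ∈ ball (0 : ℂ) ((1 + ‖y‖) / 2) := by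
      rw [mem_ball, dist_zero_right]; linarith
    exact ⟨(1 + ‖y‖) / 2, by linarith, by linarith, hyR,
      (hF _ (by linarith) (by linarith)).eventuallyEq_of_mem (isOpen_ball.mem_nhds hyR)⟩
  refine ⟨fun x => f ((1 + ‖x‖) / 2) x, ?_, ?_, ?_⟩
  · intro y hy
    obtain ⟨R, hR0, hR, hyR, hev⟩ := hloc y hy
    have h1 : DifferentiableAt ℂ (f R) y :=
      (hf1 R hR0 hR).differentiableAt (isOpen_ball.mem_nhds hyR)
    exact (h1.congr_of_eventuallyEq hev).differentiableWithinAt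
  · obtain ⟨R, hR0, hR, hyR, hev⟩ := hloc 0 (mem_ball_self one_pos)
    exact hev.trans (hf2 R hR0 hR)
  · intro y hy
    obtain ⟨R, hR0, hR, hyR, hev⟩ := hloc y hy
    obtain ⟨φ, h1, h2⟩ := hf3 R hR0 hR y hyR
    exact ⟨φ, h1, hev.trans h2⟩

end Pool.Agent.Helper326.HB
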