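import Mathlib
import Pool.Agent.Helper326.HB.Defs
import Pool.Agent.Helper326.HB.A1
import Pool.Agent.Helper326.HB.A2
import Pool.Agent.Helper326.HB.DE

set_option autoImplicit false
open Complex Metric Set Filter Topology Matrix

namespace Pool.Agent.Helper326.HB

theorem one_sub_ne' {x y : ℂ} (hx : x ∈ ball (0 : ℂ) 1) (hy : y ∈ ball (0 : ℂ) 1) :
    1 - (starRingEnd ℂ) x * y ≠ 0 := by
  rw [mem_ball_zero_iff] at hx hy
  intro h
  have h1 : (starRingEnd ℂ) x * y = 1 := (sub_eq_zero.mp h).symm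
  have h2 : ‖x‖ * ‖y‖ = 1 := by
    have := congrArg norm h1
    rwa [norm_mul, RCLike.norm_conj, norm_one] at this
  nlinarith [norm_nonneg x, norm_nonneg y]

theorem dist_le_pd' {x y : ℂ} (hx : x ∈ ball (0 : ℂ) 1) (hy : y ∈ ball (0 : ℂ) 1) :
    dist x y ≤ 2 * pd x y := by
  have hne := one_sub_ne' hx hy
  have hx' := mem_ball_zero_iff.mp hx
  have hy' := mem_ball_zero_iff.mp hy
  have h1 : ‖1 - (starRingEnd ℂ) x * y‖ ≤ 2 := by
    refine (norm_sub_le _ _).trans ?_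
    rw [norm_one, norm_mul, RCLike.norm_conj]
    nlinarith [norm_nonneg x, norm_nonneg y]
  have h2 : 0 < ‖1 - (starRingEnd ℂ) x * y‖ := norm_pos_iff.mpr hne
  unfold pd
  rw [norm_div, dist_eq_norm, mul_div_assoc', le_div_iff₀ h2]
  nlinarith [norm_nonneg (x - y)]

theorem pd_self' (x : ℂ) : pd x x = 0 := by
  unfold pd; simp

theorem isOpen_pd' {a : ℂ} (ha : a ∈ ball (0 : ℂ) 1) (δ : ℝ) :
    IsOpen {x : ℂ | x ∈ ball (0 : ℂ) 1 ∧ pd a x < δ} := by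
  have hc : ContinuousOn (pd a) (ball 0 1) := by
    unfold pd
    apply ContinuousOn.norm
    apply ContinuousOn.div
    · fun_prop
    · fun_prop
    · intro x hx
      exact one_sub_ne' ha hx
  exact hc.isOpen_inter_preimage isOpen_ball isOpen_Iio

theorem neBot' {k : ℂ} (hk : k ∈ closedBall (0 : ℂ) 1) : (𝓝[ball (0 : ℂ) 1] k).NeBot := by
  rw [← mem_closure_iff_nhdsWithin_neBot, closure_ball (0 : ℂ) one_ne_zero]
  exact hk

theorem lim_val' {s : ℂ → ℂ} {f : ℂ → ℂ × ℂ} (hsc : ContinuousOn s (closedBall 0 1))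
    (hsm : MapsTo s (closedBall 0 1) (ball 0 1)) (hfc : ContinuousOn f (closedBall 0 1))
    (hfm : MapsTo f (closedBall 0 1) B2) {k : ℂ} (hk : k ∈ closedBall (0 : ℂ) 1)
    {g : Matrix (Fin 2) (Fin 2) ℂ} {A : Matrix (Fin 3) (Fin 3) ℂ} (hg : U2 g) (hA : U3 A)
    {φ : ℂ → ℂ × ℂ} (hφ : ContinuousAt φ (mob g (s k)))
    (he : ∀ᶠ k' in 𝓝[ball (0 : ℂ) 1] k, φ (mob g (s k')) = act A (f k')) :
    φ (mob g (s k)) = act A (f k) := by
  haveI := neBot' hk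
  have hs : Tendsto s (𝓝[ball (0 : ℂ) 1] k) (𝓝 (s k)) := (hsc k hk).mono ball_subset_closedBall
  have hf : Tendsto f (𝓝[ball (0 : ℂ) 1] k) (𝓝 (f k)) := (hfc k hk).mono ball_subset_closedBall
  have hm : ContinuousAt (mob g) (s k) := (mob_hasDerivAt hg (hsm hk)).continuousAt
  have ha : ContinuousAt (act A) (f k) :=
    ((act_differentiableOn hA).differentiableAt (isOpen_B2.mem_nhds (hfm hk))).continuousAt
  have t1 : Tendsto (fun k' => φ (mob g (s k'))) (𝓝[ball (0 : ℂ) 1] k) (𝓝 (φ (mob g (s k)))) :=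
    hφ.tendsto.comp (hm.tendsto.comp hs)
  have t2 : Tendsto (fun k' => act A (f k')) (𝓝[ball (0 : ℂ) 1] k) (𝓝 (act A (f k))) :=
    ha.tendsto.comp hf
  exact tendsto_nhds_unique_of_eventuallyEq t1 t2 he

theorem LocP.mono' {s : ℂ → ℂ} {f : ℂ → ℂ × ℂ} {δ δ' : ℝ} {k : ℂ} {φ : ℂ → ℂ × ℂ} (h : δ' ≤ δ)
    (hL : LocP s f δ k φ) : LocP s f δ' k φ := by
  have hsub : {x | x ∈ ball (0 : ℂ) 1 ∧ pd (s k) x < δ'} ⊆ {x | x ∈ ball (0 : ℂ) 1 ∧ pd (s k) x < δ} :=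
    fun x hx => ⟨hx.1, hx.2.trans_le h⟩
  exact ⟨hL.1.mono hsub, hL.2.1.mono_left hsub, hL.2.2.1, fun y hy hpd => hL.2.2.2 y hy (hpd.trans_le h)⟩

/-- TARGET 1: uniform radius by compactness of the closed disc. (If `φ` works at `k₀` on the euclidean ball
`ball (s k₀) ε` then its restriction works for all `k` in the closed disc near `k₀`: note
`𝓝[ball] k₀`-eventually implies `𝓝[ball] k`-eventually for `k` near `k₀`. `MapsTo φ B2`: for
`y` in the ball, `φ y = lim act A (f k')` as `k' → k''`, `= act A (f k'')`.) -/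
theorem uniform_radius {s : ℂ → ℂ} {f : ℂ → ℂ × ℂ} (hsc : ContinuousOn s (closedBall 0 1))
    (hsm : MapsTo s (closedBall 0 1) (ball 0 1)) (hfc : ContinuousOn f (closedBall 0 1))
    (hfm : MapsTo f (closedBall 0 1) B2)
    (LH : ∀ k ∈ closedBall (0 : ℂ) 1, ∃ ε > 0, ∃ φ : ℂ → ℂ × ℂ,
      DifferentiableOn ℂ φ (ball (s k) ε) ∧ (∀ᶠ k' in 𝓝[ball (0 : ℂ) 1] k, φ (s k') = f k') ∧
      ∀ y ∈ ball (s k) ε, ∃ k'' ∈ closedBall (0 : ℂ) 1,
        ∃ (g : Matrix (Fin 2) (Fin 2) ℂ) (A : Matrix (Fin 3) (Fin 3) ℂ), U2 g ∧ U3 A ∧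
          mob g (s k'') = y ∧ ∀ᶠ k' in 𝓝[ball (0 : ℂ) 1] k'', φ (mob g (s k')) = act A (f k')) :
    ∃ δ : ℝ, 0 < δ ∧ δ < 1 ∧ ∀ k ∈ closedBall (0 : ℂ) 1, ∃ φ, LocP s f δ k φ := by
  have key : ∃ δ : ℝ, 0 < δ ∧ δ < 1 ∧ ∀ k ∈ closedBall (0 : ℂ) 1, k ∈ closedBall (0 : ℂ) 1 →
      ∃ φ, LocP s f δ k φ := by
    refine IsCompact.induction_on (isCompact_closedBall (0 : ℂ) 1)
      (p := fun S => ∃ δ : ℝ, 0 < δ ∧ δ < 1 ∧ ∀ k ∈ S, k ∈ closedBall (0 : ℂ) 1 →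
        ∃ φ, LocP s f δ k φ) ?_ ?_ ?_ ?_
    · exact ⟨1 / 2, by norm_num, by norm_num, fun k hk => absurd hk (notMem_empty _)⟩
    · rintro S T hST ⟨δ, h0, h1, h2⟩
      exact ⟨δ, h0, h1, fun k hk => h2 k (hST hk)⟩
    · rintro S T ⟨δ, h0, h1, h2⟩ ⟨δ', h0', h1', h2'⟩
      refine ⟨min δ δ', lt_min h0 h0', (min_le_left _ _).trans_lt h1, ?_⟩
      rintro k (hk | hk) hkb
      · obtain ⟨φ, hφ⟩ := h2 k hk hkb
        exact ⟨φ, hφ.mono' (min_le_left _ _)⟩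
      · obtain ⟨φ, hφ⟩ := h2' k hk hkb
        exact ⟨φ, hφ.mono' (min_le_right _ _)⟩
    · intro k0 hk0
      obtain ⟨ε, hε, φ, hφd, hφf, hφ4⟩ := LH k0 hk0
      obtain ⟨U, hUo, hkU, hU⟩ := mem_nhdsWithin.mp hφf
      refine ⟨U ∩ s ⁻¹' (ball (s k0) (ε / 2)), ?_, min (ε / 4) (1 / 2), ?_, ?_, ?_⟩
      · apply inter_mem (mem_nhdsWithin_of_mem_nhds (hUo.mem_nhds hkU))
        exact hsc k0 hk0 (ball_mem_nhds _ (by positivity))
      · exact lt_min (by positivity) (by norm_num)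
      · exact (min_le_right _ _).trans_lt (by norm_num)
      · rintro k ⟨hkU', hks⟩ hkb
        have hsub : ∀ x ∈ ball (0 : ℂ) 1, pd (s k) x < min (ε / 4) (1 / 2) → x ∈ ball (s k0) ε := by
          intro x hx hpd
          have h1 := dist_le_pd' (hsm hkb) hx
          have h2 : pd (s k) x < ε / 4 := hpd.trans_le (min_le_left _ _)
          have h3 : dist (s k) (s k0) < ε / 2 := hks
          rw [mem_ball]
          calc dist x (s k0) ≤ dist x (s k) + dist (s k) (s k0) := dist_triangle _ _ _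
            _ < ε := by rw [dist_comm x]; linarith
        refine ⟨φ, ?_, ?_, ?_, ?_⟩
        · exact hφd.mono fun x hx => hsub x hx.1 hx.2
        · intro y hy
          have hyb := hsub y hy.1 hy.2
          obtain ⟨k'', hk'', g, A, hg, hA, hgy, hev⟩ := hφ4 y hyb
          have hcont : ContinuousAt φ (mob g (s k'')) := by
            rw [hgy]
            exact (hφd.differentiableAt (isOpen_ball.mem_nhds hyb)).continuousAt
          have := lim_val' hsc hsm hfc hfm hk'' hg hA hcont hev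
          rw [hgy] at this
          rw [this]
          exact act_mem hA (hfm hk'')
        · apply mem_nhdsWithin.mpr
          exact ⟨U, hUo, hkU', hU⟩
        · intro y hy hpd
          exact hφ4 y (hsub y hy hpd)
  obtain ⟨δ, h0, h1, h2⟩ := key
  exact ⟨δ, h0, h1, fun k hk => h2 k hk hk⟩

/-- the local identity theorem through `s` -/
theorem agree' {s : ℂ → ℂ} (hsc : ContinuousOn s (closedBall 0 1))
    (hsd : DifferentiableOn ℂ s (ball 0 1))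
    (hs' : ∀ w ∈ ball (0 : ℂ) 1, deriv s w ≠ 0) {k : ℂ} (hk : k ∈ closedBall (0 : ℂ) 1)
    {V : Set ℂ} (hV : IsOpen V) (hVc : IsPreconnected V) (hkV : s k ∈ V)
    {u v : ℂ → ℂ × ℂ} (hu : DifferentiableOn ℂ u V) (hv : DifferentiableOn ℂ v V)
    (he : ∀ᶠ k' in 𝓝[ball (0 : ℂ) 1] k, u (s k') = v (s k')) : EqOn u v V := by
  haveI := neBot' hk
  have h1 : ∀ᶠ k' in 𝓝[ball (0 : ℂ) 1] k, s k' ∈ V := by
    have hs : Tendsto s (𝓝[ball (0 : ℂ) 1] k) (𝓝 (s k)) := (hsc k hk).mono ball_subset_closedBall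
    exact hs (hV.mem_nhds hkV)
  have h2 : ∀ᶠ k' in 𝓝[ball (0 : ℂ) 1] k, ∀ᶠ k1 in 𝓝[ball (0 : ℂ) 1] k', u (s k1) = v (s k1) :=
    eventually_eventually_nhdsWithin.mpr he
  have h3 : ∀ᶠ k' in 𝓝[ball (0 : ℂ) 1] k, k' ∈ ball (0 : ℂ) 1 := self_mem_nhdsWithin
  obtain ⟨k', ⟨hk1, hk2⟩, hk3⟩ := ((h1.and h2).and h3).exists
  rw [isOpen_ball.nhdsWithin_eq hk3] at hk2
  have hst : HasStrictDerivAt s (deriv s k') k' := by
    have han : AnalyticAt ℂ s k' := (hsd.analyticOnNhd isOpen_ball) k' hk3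
    exact han.hasStrictDerivAt
  have hmap := hst.map_nhds_eq (hs' k' hk3)
  have h4 : u =ᶠ[𝓝 (s k')] v := by
    rw [← hmap]
    exact hk2
  exact AnalyticOnNhd.eqOn_of_preconnected_of_eventuallyEq (hu.analyticOnNhd hV)
    (hv.analyticOnNhd hV) hVc hk1 h4

theorem mob_inv_maps' {g : Matrix (Fin 2) (Fin 2) ℂ} (hg : U2 g) {a y : ℂ}
    (ha : a ∈ ball (0 : ℂ) 1) (hay : mob g a = y) {δ : ℝ} {x : ℂ}
    (hx : x ∈ ball (0 : ℂ) 1 ∧ pd y x < δ) :
    mob g⁻¹ x ∈ ball (0 : ℂ) 1 ∧ pd a (mob g⁻¹ x) < δ := by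
  have hgi := (U2_inv hg).1
  refine ⟨mob_mem hgi hx.1, ?_⟩
  have h1 := mob_pd hg ha (mob_mem hgi hx.1)
  rw [(mob_inv_mob hg hx.1).2, hay] at h1
  rw [← h1]
  exact hx.2

theorem mob_diff' {g : Matrix (Fin 2) (Fin 2) ℂ} (hg : U2 g) :
    DifferentiableOn ℂ (mob g) (ball 0 1) :=
  fun x hx => (mob_hasDerivAt hg hx).differentiableAt.differentiableWithinAt

/-- TARGET 2: apply `extend_germs` with
`Fam y ψ := ∃ k ∈ closedBall 0 1, ∃ g A φ, U2 g ∧ U3 A ∧ mob g (s k) = y ∧ LocP s f δ k φ ∧ ψ = fun x => act A (φ (mob g⁻¹ x))`.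
Re-centring: two holomorphic maps near `s k''` which agree on `s (U ∩ ball 0 1)`, `U` a neighbourhood of `k''`,
agree near `s k''` since `s` is open on the open disc. Then `F ∘ s = f` on the disc by the identity theorem, and
`F ∘ mob g = act A ∘ F` on an open set, hence on the disc. -/
theorem structure_thm {s : ℂ → ℂ} {f : ℂ → ℂ × ℂ} (hsc : ContinuousOn s (closedBall 0 1))
    (hsm : MapsTo s (closedBall 0 1) (ball 0 1)) (hfc : ContinuousOn f (closedBall 0 1))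
    (hfm : MapsTo f (closedBall 0 1) B2) (hsd : DifferentiableOn ℂ s (ball 0 1))
    (hfd : DifferentiableOn ℂ f (ball 0 1)) (hs0 : s 0 = 0)
    (hs' : ∀ w ∈ ball (0 : ℂ) 1, deriv s w ≠ 0) {δ : ℝ} (hδ : 0 < δ) (hδ1 : δ < 1)
    (hloc : ∀ k ∈ closedBall (0 : ℂ) 1, ∃ φ, LocP s f δ k φ) :
    ∃ F : ℂ → ℂ × ℂ, DifferentiableOn ℂ F (ball 0 1) ∧ MapsTo F (ball 0 1) B2 ∧
      (∀ w ∈ ball (0 : ℂ) 1, F (s w) = f w) ∧ Cover F (s '' closedBall 0 1) := by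
  let Fam : ℂ → (ℂ → ℂ × ℂ) → Prop := fun y ψ => ∃ k ∈ closedBall (0 : ℂ) 1,
    ∃ (g : Matrix (Fin 2) (Fin 2) ℂ) (A : Matrix (Fin 3) (Fin 3) ℂ) (φ : ℂ → ℂ × ℂ), U2 g ∧ U3 A ∧
      mob g (s k) = y ∧ LocP s f δ k φ ∧ ψ = fun x => act A (φ (mob g⁻¹ x))
  -- holomorphy of the pieces
  have hpiece : ∀ (k : ℂ), k ∈ closedBall (0 : ℂ) 1 → ∀ (g : Matrix (Fin 2) (Fin 2) ℂ)
      (A : Matrix (Fin 3) (Fin 3) ℂ) (φ : ℂ → ℂ × ℂ), U2 g → U3 A → LocP s f δ k φ → ∀ y : ℂ,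
      mob g (s k) = y →
      DifferentiableOn ℂ (fun x => act A (φ (mob g⁻¹ x))) {x | x ∈ ball (0 : ℂ) 1 ∧ pd y x < δ} := by
    intro k hk g A φ hg hA hL y hy
    have hgi := (U2_inv hg).1
    have hm : MapsTo (mob g⁻¹) {x | x ∈ ball (0 : ℂ) 1 ∧ pd y x < δ}
        {x | x ∈ ball (0 : ℂ) 1 ∧ pd (s k) x < δ} := fun x hx => mob_inv_maps' hg (hsm hk) hy hx
    have h1 : DifferentiableOn ℂ (fun x => φ (mob g⁻¹ x)) {x | x ∈ ball (0 : ℂ) 1 ∧ pd y x < δ} :=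
      hL.1.comp ((mob_diff' hgi).mono fun x hx => hx.1) hm
    exact (act_differentiableOn hA).comp h1 fun x hx => hL.2.1 (hm hx)
  obtain ⟨φ0, hφ0⟩ := hloc 0 (mem_closedBall_self zero_le_one)
  have h0 : Fam 0 (fun x => act 1 (φ0 (mob (1 : Matrix (Fin 2) (Fin 2) ℂ)⁻¹ x))) :=
    ⟨0, mem_closedBall_self zero_le_one, 1, 1, φ0, U2_one, U3_one, by rw [hs0, mob_one], hφ0, rfl⟩
  have hcont : ∀ y ∈ ball (0 : ℂ) 1, ∀ φ, Fam y φ → ∀ y' ∈ ball (0 : ℂ) 1, pd y y' < δ →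
      ∃ φ', Fam y' φ' ∧ φ =ᶠ[𝓝 y'] φ' := by
    rintro y hy ψ ⟨k, hk, g, A, φ, hg, hA, hgy, hL, rfl⟩ y' hy' hpd
    have hgi := (U2_inv hg).1
    obtain ⟨hx1, hx2⟩ := mob_inv_maps' hg (hsm hk) hgy ⟨hy', hpd⟩
    obtain ⟨k2, hk2, g1, A1, hg1, hA1, hg1y, hev⟩ := hL.2.2.2 _ hx1 hx2
    have hg1i := (U2_inv hg1).1
    obtain ⟨φ2, hφ2⟩ := hloc k2 hk2
    have hkey : ∀ᶠ w in 𝓝 (s k2), φ (mob g1 w) = act A1 (φ2 w) := by
      -- a common neighbourhood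
      have ho1 : IsOpen {x | x ∈ ball (0 : ℂ) 1 ∧ pd (s k) x < δ} := isOpen_pd' (hsm hk) δ
      have ho2 : IsOpen {x | x ∈ ball (0 : ℂ) 1 ∧ pd (s k2) x < δ} := isOpen_pd' (hsm hk2) δ
      have hm1 : ∀ᶠ w in 𝓝 (s k2), mob g1 w ∈ {x | x ∈ ball (0 : ℂ) 1 ∧ pd (s k) x < δ} := by
        have hc : ContinuousAt (mob g1) (s k2) := (mob_hasDerivAt hg1 (hsm hk2)).continuousAt
        apply hc
        rw [hg1y]
        exact ho1.mem_nhds ⟨hx1, hx2⟩
      have hm2 : ∀ᶠ w in 𝓝 (s k2), w ∈ {x | x ∈ ball (0 : ℂ) 1 ∧ pd (s k2) x < δ} :=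
        ho2.mem_nhds ⟨hsm hk2, by rw [pd_self']; exact hδ⟩
      obtain ⟨ρ, hρ, hρs⟩ := Metric.eventually_nhds_iff_ball.mp (hm1.and hm2)
      have hu : DifferentiableOn ℂ (fun w => φ (mob g1 w)) (ball (s k2) ρ) :=
        hL.1.comp ((mob_diff' hg1).mono fun w hw => (hρs w hw).2.1) fun w hw => (hρs w hw).1
      have hv : DifferentiableOn ℂ (fun w => act A1 (φ2 w)) (ball (s k2) ρ) :=
        (act_differentiableOn hA1).comp (hφ2.1.mono fun w hw => (hρs w hw).2)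
          fun w hw => hφ2.2.1 (hρs w hw).2
      have he : ∀ᶠ k' in 𝓝[ball (0 : ℂ) 1] k2, (fun w => φ (mob g1 w)) (s k') =
          (fun w => act A1 (φ2 w)) (s k') := by
        filter_upwards [hev, hφ2.2.2.1] with k' e1 e2
        show φ (mob g1 (s k')) = act A1 (φ2 (s k'))
        rw [e1, e2]
      have := agree' hsc hsd hs' hk2 isOpen_ball (convex_ball _ _).isPreconnected
        (mem_ball_self hρ) hu hv he
      filter_upwards [ball_mem_nhds (s k2) hρ] with w hw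
      exact this hw
    refine ⟨fun x => act (A * A1) (φ2 (mob (g * g1)⁻¹ x)),
      ⟨k2, hk2, g * g1, A * A1, φ2, U2_mul hg hg1, U3_mul hA hA1, ?_, hφ2, rfl⟩, ?_⟩
    · rw [mob_mul hg hg1 (hsm hk2), hg1y, (mob_inv_mob hg hy').2]
    · have hgg := U2_mul hg hg1
      have hggi := (U2_inv hgg).1
      -- the map `x ↦ mob (g * g1)⁻¹ x`
      have hval : mob (g * g1)⁻¹ y' = s k2 := by
        have h1 : mob (g * g1) (s k2) = y' := by
          rw [mob_mul hg hg1 (hsm hk2), hg1y, (mob_inv_mob hg hy').2]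
        rw [← h1, (mob_inv_mob hgg (hsm hk2)).1]
      have hc : ContinuousAt (mob (g * g1)⁻¹) y' := (mob_hasDerivAt hggi hy').continuousAt
      have e1 : ∀ᶠ x in 𝓝 y', φ (mob g1 (mob (g * g1)⁻¹ x)) = act A1 (φ2 (mob (g * g1)⁻¹ x)) :=
        hc.tendsto.eventually (p := fun w => φ (mob g1 w) = act A1 (φ2 w)) (by rw [hval]; exact hkey)
      have e2 : ∀ᶠ x in 𝓝 y', mob (g * g1)⁻¹ x ∈ {x | x ∈ ball (0 : ℂ) 1 ∧ pd (s k2) x < δ} := by
        apply hc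
        rw [hval]
        exact (isOpen_pd' (hsm hk2) δ).mem_nhds ⟨hsm hk2, by rw [pd_self']; exact hδ⟩
      have e3 : ∀ᶠ x in 𝓝 y', x ∈ ball (0 : ℂ) 1 := isOpen_ball.mem_nhds hy'
      filter_upwards [e1, e2, e3] with x e1 e2 e3
      show act A (φ (mob g⁻¹ x)) = act (A * A1) (φ2 (mob (g * g1)⁻¹ x))
      rw [act_mul hA hA1 (hφ2.2.1 e2), ← e1]
      have h1 : mob g1 (mob (g * g1)⁻¹ x) = mob g⁻¹ x := by
        have h2 : mob g (mob g1 (mob (g * g1)⁻¹ x)) = x := by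
          rw [← mob_mul hg hg1 e2.1, (mob_inv_mob hgg e3).2]
        have h3 := (mob_inv_mob hg (mob_mem hg1 e2.1)).1
        rw [h2] at h3
        exact h3.symm
      rw [h1]
  obtain ⟨F, hF, hF0, hFy⟩ := extend_germs hδ hδ1 Fam (by
    rintro y hy ψ ⟨k, hk, g, A, φ, hg, hA, hgy, hL, rfl⟩
    exact hpiece k hk g A φ hg hA hL y hgy) hcont h0
  have hFm : MapsTo F (ball 0 1) B2 := by
    intro y hy
    obtain ⟨ψ, ⟨k, hk, g, A, φ, hg, hA, hgy, hL, rfl⟩, hFψ⟩ := hFy y hy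
    have h1 := hFψ.eq_of_nhds
    rw [h1]
    apply act_mem hA
    apply hL.2.1
    have h2 : mob g⁻¹ y = s k := by rw [← hgy, (mob_inv_mob hg (hsm hk)).1]
    rw [h2]
    exact ⟨hsm hk, by rw [pd_self']; exact hδ⟩
  have hFs : ∀ w ∈ ball (0 : ℂ) 1, F (s w) = f w := by
    have hz : (0 : ℂ) ∈ ball (0 : ℂ) 1 := mem_ball_self one_pos
    have hFsd : DifferentiableOn ℂ (fun w => F (s w)) (ball 0 1) :=
      hF.comp hsd fun w hw => hsm (ball_subset_closedBall hw)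
    have hev : (fun w => F (s w)) =ᶠ[𝓝 0] f := by
      have hsc0 : ContinuousAt s 0 := (hsd.differentiableAt (isOpen_ball.mem_nhds hz)).continuousAt
      have e1 : ∀ᶠ w in 𝓝 (0 : ℂ), F (s w) = act 1 (φ0 (mob (1 : Matrix (Fin 2) (Fin 2) ℂ)⁻¹ (s w))) :=
        hsc0.tendsto.eventually
          (p := fun z => F z = act 1 (φ0 (mob (1 : Matrix (Fin 2) (Fin 2) ℂ)⁻¹ z)))
          (by rw [hs0]; exact hF0)
      have e2 := hφ0.2.2.1
      rw [isOpen_ball.nhdsWithin_eq hz] at e2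
      filter_upwards [e1, e2] with w e1 e2
      rw [e1, act_one, inv_one, mob_one, e2]
    have := AnalyticOnNhd.eqOn_of_preconnected_of_eventuallyEq (hFsd.analyticOnNhd isOpen_ball)
      (hfd.analyticOnNhd isOpen_ball) (convex_ball _ _).isPreconnected hz hev
    exact fun w hw => this hw
  refine ⟨F, hF, hFm, hFs, (isCompact_closedBall (0 : ℂ) 1).image_of_continuousOn hsc, ?_, ?_⟩
  · rintro _ ⟨k, hk, rfl⟩
    exact hsm hk
  · intro y hy
    obtain ⟨ψ, ⟨k, hk, g, A, φ, hg, hA, hgy, hL, rfl⟩, hFψ⟩ := hFy y hy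
    refine ⟨s k, ⟨k, hk, rfl⟩, g, A, ⟨hg, hA, ?_⟩, hgy⟩
    have hu : DifferentiableOn ℂ (fun x => F (mob g x)) (ball 0 1) :=
      hF.comp (mob_diff' hg) fun x hx => mob_mem hg hx
    have hv : DifferentiableOn ℂ (fun x => act A (F x)) (ball 0 1) :=
      (act_differentiableOn hA).comp hF hFm
    have he : ∀ᶠ k' in 𝓝[ball (0 : ℂ) 1] k, (fun x => F (mob g x)) (s k') =
        (fun x => act A (F x)) (s k') := by
      have hs : Tendsto s (𝓝[ball (0 : ℂ) 1] k) (𝓝 (s k)) := (hsc k hk).mono ball_subset_closedBall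
      have hc : ContinuousAt (mob g) (s k) := (mob_hasDerivAt hg (hsm hk)).continuousAt
      have e1 : ∀ᶠ k' in 𝓝[ball (0 : ℂ) 1] k, F (mob g (s k')) = act A (φ (mob g⁻¹ (mob g (s k')))) :=
        (hc.tendsto.comp hs).eventually (p := fun z => F z = act A (φ (mob g⁻¹ z)))
          (by rw [hgy]; exact hFψ)
      have e3 : ∀ᶠ k' in 𝓝[ball (0 : ℂ) 1] k, k' ∈ ball (0 : ℂ) 1 := self_mem_nhdsWithin
      filter_upwards [e1, hL.2.2.1, e3] with k' e1 e2 e3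
      show F (mob g (s k')) = act A (F (s k'))
      rw [e1, (mob_inv_mob hg (hsm (ball_subset_closedBall e3))).1, e2, hFs k' e3]
    have := agree' hsc hsd hs' hk isOpen_ball (convex_ball _ _).isPreconnected (hsm hk) hu hv he
    exact fun x hx => this hx

end Pool.Agent.Helper326.HB
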