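import Mathlib
import Pool.Agent.Helper326.HB.Defs

set_option autoImplicit false
open Complex Metric Set Filter Topology Matrix

namespace Pool.Agent.Helper326.HB

private theorem sp_cayley {c w : ℂ} (hc : ‖c‖ < 1) (hw : ‖w‖ ≤ 1) :
    ‖(w - c) / (1 - (starRingEnd ℂ) c * w)‖ ≤ 1 := by
  have hne : 1 - (starRingEnd ℂ) c * w ≠ 0 := by
    intro h
    have h1 : ‖(starRingEnd ℂ) c * w‖ = 1 := by
      rw [← sub_eq_zero.1 h, norm_one]
    rw [norm_mul, RCLike.norm_conj] at h1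
    nlinarith [norm_nonneg c, norm_nonneg w]
  rw [norm_div, div_le_one (norm_pos_iff.2 hne)]
  have h2 : ‖w - c‖ ^ 2 ≤ ‖1 - (starRingEnd ℂ) c * w‖ ^ 2 := by
    have hc2 : ‖c‖ ^ 2 ≤ 1 := by nlinarith [norm_nonneg c]
    have hw2 : ‖w‖ ^ 2 ≤ 1 := by nlinarith [norm_nonneg w]
    rw [← Complex.normSq_eq_norm_sq, Complex.normSq_apply] at hc2 hw2
    rw [← Complex.normSq_eq_norm_sq, Complex.normSq_apply, ← Complex.normSq_eq_norm_sq,
      Complex.normSq_apply]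
    simp only [Complex.sub_re, Complex.sub_im, Complex.one_re, Complex.one_im, Complex.mul_re,
      Complex.mul_im, Complex.conj_re, Complex.conj_im]
    nlinarith [mul_nonneg (sub_nonneg.2 hc2) (sub_nonneg.2 hw2)]
  exact (pow_le_pow_iff_left₀ (norm_nonneg _) (norm_nonneg _) (by norm_num)).1 h2

private theorem sp_strict {f : ℂ → ℂ} (hf : DifferentiableOn ℂ f (ball 0 1)) {ρ : ℝ} (hρ : ρ < 1)
    (hb : ∀ z ∈ ball (0:ℂ) 1, ‖f z‖ ≤ ρ) : ‖deriv f 0‖ ≤ 1 - ‖f 0‖ ^ 2 := by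
  have h0 : (0:ℂ) ∈ ball (0:ℂ) 1 := by simp
  have hnb : ball (0:ℂ) 1 ∈ 𝓝 (0:ℂ) := isOpen_ball.mem_nhds h0
  set c := f 0 with hc
  have hc1 : ‖c‖ < 1 := (hb 0 h0).trans_lt hρ
  have hden : ∀ z ∈ ball (0:ℂ) 1, 1 - (starRingEnd ℂ) c * f z ≠ 0 := by
    intro z hz h
    have h1 : ‖(starRingEnd ℂ) c * f z‖ = 1 := by
      rw [← sub_eq_zero.1 h, norm_one]
    rw [norm_mul, RCLike.norm_conj] at h1
    have := hb z hz
    nlinarith [norm_nonneg c, norm_nonneg (f z)]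
  let φ : ℂ → ℂ := fun z => (f z - c) / (1 - (starRingEnd ℂ) c * f z)
  have hφd : DifferentiableOn ℂ φ (ball 0 1) :=
    (hf.sub_const c).div ((hf.const_mul _).const_sub 1) hden
  have hφ0 : φ 0 = 0 := by simp only [φ]; rw [← hc, sub_self, zero_div]
  have hφm : MapsTo φ (ball 0 1) (closedBall (φ 0) 1) := by
    intro z hz
    rw [hφ0, mem_closedBall_zero_iff]
    exact sp_cayley hc1 ((hb z hz).trans hρ.le)
  have h1 := Complex.norm_deriv_le_one_of_mapsTo_ball hφd hφm one_pos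
  have hfd : HasDerivAt f (deriv f 0) 0 := (hf.differentiableAt hnb).hasDerivAt
  have hφ' : HasDerivAt φ (deriv f 0 / (1 - (starRingEnd ℂ) c * c)) 0 := by
    have := (hfd.sub_const c).div ((hfd.const_mul ((starRingEnd ℂ) c)).const_sub 1) (hden 0 h0)
    refine this.congr_deriv ?_
    rw [← hc, sub_self, zero_mul, sub_zero]
    have hn := hden 0 h0
    rw [← hc] at hn
    field_simp
  rw [hφ'.deriv, norm_div] at h1
  have h2 : (1 : ℂ) - (starRingEnd ℂ) c * c = ((1 - ‖c‖ ^ 2 : ℝ) : ℂ) := by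
    rw [mul_comm, Complex.mul_conj, Complex.normSq_eq_norm_sq]; push_cast; ring
  have h3 : 0 < 1 - ‖c‖ ^ 2 := by nlinarith [norm_nonneg c]
  rw [h2, Complex.norm_real, Real.norm_of_nonneg h3.le, div_le_one h3] at h1
  exact h1

private theorem sp_closed {f : ℂ → ℂ} (hf : DifferentiableOn ℂ f (ball 0 1))
    (hb : ∀ z ∈ ball (0:ℂ) 1, ‖f z‖ ≤ 1) : ‖deriv f 0‖ ≤ 1 - ‖f 0‖ ^ 2 := by
  have h0 : (0:ℂ) ∈ ball (0:ℂ) 1 := by simp
  have hnb : ball (0:ℂ) 1 ∈ 𝓝 (0:ℂ) := isOpen_ball.mem_nhds h0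
  have hfd : HasDerivAt f (deriv f 0) 0 := (hf.differentiableAt hnb).hasDerivAt
  have key : ∀ ρ : ℝ, 0 < ρ → ρ < 1 → ρ * ‖deriv f 0‖ ≤ 1 - ρ ^ 2 * ‖f 0‖ ^ 2 := by
    intro ρ hρ0 hρ1
    have h1 := sp_strict (f := fun z => (ρ : ℂ) * f z) (hf.const_mul _) hρ1 (by
      intro z hz
      rw [norm_mul, Complex.norm_real, Real.norm_of_nonneg hρ0.le]
      have := hb z hz
      nlinarith)
    rw [(hfd.const_mul (ρ : ℂ)).deriv, norm_mul, norm_mul, Complex.norm_real,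
      Real.norm_of_nonneg hρ0.le, mul_pow] at h1
    exact h1
  have hl1 : Tendsto (fun ρ : ℝ => ρ * ‖deriv f 0‖) (𝓝[<] 1) (𝓝 (1 * ‖deriv f 0‖)) := by
    have : Continuous (fun ρ : ℝ => ρ * ‖deriv f 0‖) := by fun_prop
    exact (this.tendsto 1).mono_left nhdsWithin_le_nhds
  have hl2 : Tendsto (fun ρ : ℝ => 1 - ρ ^ 2 * ‖f 0‖ ^ 2) (𝓝[<] 1)
      (𝓝 (1 - 1 ^ 2 * ‖f 0‖ ^ 2)) := by
    have : Continuous (fun ρ : ℝ => 1 - ρ ^ 2 * ‖f 0‖ ^ 2) := by fun_prop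
    exact (this.tendsto 1).mono_left nhdsWithin_le_nhds
  have hev : ∀ᶠ ρ : ℝ in 𝓝[<] 1, ρ * ‖deriv f 0‖ ≤ 1 - ρ ^ 2 * ‖f 0‖ ^ 2 := by
    have h1 : ∀ᶠ ρ : ℝ in 𝓝[<] 1, ρ ∈ Ioo (0:ℝ) 1 := Ioo_mem_nhdsLT one_pos
    filter_upwards [h1] with ρ hρ
    exact key ρ hρ.1 hρ.2
  have := le_of_tendsto_of_tendsto hl1 hl2 hev
  simpa using this

private theorem lin_facts {F : ℂ → ℂ × ℂ} (hF : DifferentiableOn ℂ F (ball 0 1)) (c1 c2 : ℂ) :
    DifferentiableOn ℂ (fun z => c1 * (F z).1 + c2 * (F z).2) (ball 0 1) ∧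
    deriv (fun z => c1 * (F z).1 + c2 * (F z).2) 0 = c1 * (deriv F 0).1 + c2 * (deriv F 0).2 ∧
    deriv (deriv (fun z => c1 * (F z).1 + c2 * (F z).2)) 0 =
      c1 * (deriv (deriv F) 0).1 + c2 * (deriv (deriv F) 0).2 := by
  have h0 : (0:ℂ) ∈ ball (0:ℂ) 1 := by simp
  let L : ℂ × ℂ →L[ℂ] ℂ := c1 • ContinuousLinearMap.fst ℂ ℂ ℂ + c2 • ContinuousLinearMap.snd ℂ ℂ ℂ
  have hL : ∀ x : ℂ × ℂ, L x = c1 * x.1 + c2 * x.2 := fun x => by simp [L]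
  have hd : ∀ z ∈ ball (0:ℂ) 1, HasDerivAt (fun z => L (F z)) (L (deriv F z)) z := by
    intro z hz
    have h1 : HasDerivAt F (deriv F z) z :=
      (hF.differentiableAt (isOpen_ball.mem_nhds hz)).hasDerivAt
    exact L.hasFDerivAt.comp_hasDerivAt z h1
  have hF' : DifferentiableOn ℂ (deriv F) (ball 0 1) := hF.deriv isOpen_ball
  have e0 : (fun z => c1 * (F z).1 + c2 * (F z).2) = fun z => L (F z) := by
    funext z; rw [hL]
  rw [e0]
  refine ⟨fun z hz => (hd z hz).differentiableAt.differentiableWithinAt, ?_, ?_⟩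
  · rw [(hd 0 h0).deriv, hL]
  · have e1 : deriv (fun z => L (F z)) =ᶠ[𝓝 0] fun z => L (deriv F z) := by
      filter_upwards [isOpen_ball.mem_nhds h0] with z hz
      exact (hd z hz).deriv
    rw [e1.deriv_eq]
    have h1 : HasDerivAt (deriv F) (deriv (deriv F) 0) 0 :=
      (hF'.differentiableAt (isOpen_ball.mem_nhds h0)).hasDerivAt
    have h2 : HasDerivAt (fun z => L (deriv F z)) (L (deriv (deriv F) 0)) 0 :=
      L.hasFDerivAt.comp_hasDerivAt 0 h1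
    rw [h2.deriv, hL]

private theorem second_bound {g : ℂ → ℂ} (hg : DifferentiableOn ℂ g (ball 0 1)) (hg0 : g 0 = 0)
    (hb : ∀ z ∈ ball (0:ℂ) 1, ‖g z‖ ≤ 1) :
    ‖deriv (deriv g) 0‖ ≤ 2 * (1 - ‖deriv g 0‖ ^ 2) := by
  have h0 : (0:ℂ) ∈ ball (0:ℂ) 1 := by simp
  have hnb : ball (0:ℂ) 1 ∈ 𝓝 (0:ℂ) := isOpen_ball.mem_nhds h0
  set h := dslope g 0 with hh
  have hhd : DifferentiableOn ℂ h (ball 0 1) := (Complex.differentiableOn_dslope hnb).2 hg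
  have hhb : ∀ z ∈ ball (0:ℂ) 1, ‖h z‖ ≤ 1 := by
    intro z hz
    have := Complex.norm_dslope_le_div_of_mapsTo_ball (R₂ := 1) hg (by
      intro w hw
      rw [hg0, mem_closedBall_zero_iff]
      exact hb w hw) hz
    simpa using this
  have h1 := sp_closed hhd hhb
  have hh0 : h 0 = deriv g 0 := dslope_same _ _
  have hgh : g = fun z => z * h z := by
    funext z
    have := sub_smul_dslope g 0 z
    rw [sub_zero, hg0, sub_zero, smul_eq_mul] at this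
    exact this.symm
  have hd : ∀ z ∈ ball (0:ℂ) 1, HasDerivAt g (1 * h z + z * deriv h z) z := by
    intro z hz
    have h2 : HasDerivAt h (deriv h z) z :=
      (hhd.differentiableAt (isOpen_ball.mem_nhds hz)).hasDerivAt
    have h3 := (hasDerivAt_id z).mul h2
    rw [hgh]
    exact h3
  have hev : deriv g =ᶠ[𝓝 0] fun z => 1 * h z + z * deriv h z := by
    filter_upwards [hnb] with z hz
    exact (hd z hz).deriv
  have hh' : DifferentiableOn ℂ (deriv h) (ball 0 1) := hhd.deriv isOpen_ball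
  have h4 : HasDerivAt (fun z => 1 * h z + z * deriv h z)
      (1 * deriv h 0 + (1 * deriv h 0 + 0 * deriv (deriv h) 0)) 0 := by
    have h5 : HasDerivAt h (deriv h 0) 0 := (hhd.differentiableAt hnb).hasDerivAt
    have h6 : HasDerivAt (deriv h) (deriv (deriv h) 0) 0 := (hh'.differentiableAt hnb).hasDerivAt
    exact (h5.const_mul 1).add ((hasDerivAt_id (0:ℂ)).mul h6)
  have h7 : deriv (deriv g) 0 = 2 * deriv h 0 := by
    rw [hev.deriv_eq, h4.deriv]; ring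
  rw [h7, norm_mul, ← hh0]
  have : ‖(2:ℂ)‖ = 2 := by simp
  rw [this]
  linarith

private theorem cs2 (c1 c2 x1 x2 : ℂ) :
    ‖c1 * x1 + c2 * x2‖ ^ 2 + ‖(starRingEnd ℂ) c1 * x2 - (starRingEnd ℂ) c2 * x1‖ ^ 2 =
      (‖c1‖ ^ 2 + ‖c2‖ ^ 2) * (‖x1‖ ^ 2 + ‖x2‖ ^ 2) := by
  simp only [← Complex.normSq_eq_norm_sq, Complex.normSq_apply, Complex.sub_re, Complex.sub_im,
    Complex.add_re, Complex.add_im, Complex.mul_re, Complex.mul_im, Complex.conj_re,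
    Complex.conj_im]
  ring

theorem norm_bound {F : ℂ → ℂ × ℂ} (hF : DifferentiableOn ℂ F (ball 0 1))
    (hm : MapsTo F (ball 0 1) B2) (h0 : F 0 = 0) {k : ℝ} (hk0 : 0 ≤ k)
    (hk : ‖Wr F 0‖ ^ 2 * q (F 0) ^ 3 ≤ k * Dd F 0 ^ 3) (hv : 1 / (1 + k / 2) ≤ Vv F 0) :
    ‖(deriv (deriv F) 0).1‖ ^ 2 + ‖(deriv (deriv F) 0).2‖ ^ 2 ≤
      (k + k ^ 2) * (‖(deriv F 0).1‖ ^ 2 + ‖(deriv F 0).2‖ ^ 2) ^ 2 := by
  have hq : q (F 0) = 1 := by rw [h0]; simp [q]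
  set a := deriv F 0 with ha
  set b := deriv (deriv F) 0 with hb
  set V := ‖a.1‖ ^ 2 + ‖a.2‖ ^ 2 with hV
  have hDd : Dd F 0 = V := by
    unfold Dd
    rw [hq, h0, ← ha]
    simp [hV]
  have hVv : Vv F 0 = V := by
    unfold Vv
    rw [hDd, hq]; simp
  rw [hVv] at hv
  rw [hq, hDd] at hk
  have hkp : 0 < 1 + k / 2 := by linarith
  have hVpos : 0 < V := lt_of_lt_of_le (by positivity) hv
  have hV1 : 1 ≤ V * (1 + k / 2) := by
    rw [div_le_iff₀ hkp] at hv; exact hv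
  -- the function `g`
  let s : ℝ := Real.sqrt V
  have hs0 : 0 < s := Real.sqrt_pos.2 hVpos
  have hs2 : s ^ 2 = V := Real.sq_sqrt hVpos.le
  let c1 : ℂ := (starRingEnd ℂ) a.1 / (s : ℂ)
  let c2 : ℂ := (starRingEnd ℂ) a.2 / (s : ℂ)
  have hc : ‖c1‖ ^ 2 + ‖c2‖ ^ 2 = 1 := by
    simp only [c1, c2]
    rw [norm_div, norm_div, RCLike.norm_conj, RCLike.norm_conj, Complex.norm_real,
      Real.norm_of_nonneg hs0.le, div_pow, div_pow, hs2, ← add_div, ← hV, div_self hVpos.ne']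
  obtain ⟨hgd, hg1, hg2⟩ := lin_facts hF c1 c2
  have hgb : ∀ z ∈ ball (0:ℂ) 1, ‖c1 * (F z).1 + c2 * (F z).2‖ ≤ 1 := by
    intro z hz
    have h1 := cs2 c1 c2 (F z).1 (F z).2
    rw [hc, one_mul] at h1
    have h2 : ‖(F z).1‖ ^ 2 + ‖(F z).2‖ ^ 2 < 1 := hm hz
    have h3 : ‖c1 * (F z).1 + c2 * (F z).2‖ ^ 2 ≤ 1 := by
      nlinarith [sq_nonneg ‖(starRingEnd ℂ) c1 * (F z).2 - (starRingEnd ℂ) c2 * (F z).1‖]
    nlinarith [norm_nonneg (c1 * (F z).1 + c2 * (F z).2)]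
  have hsb := second_bound hgd (by rw [h0]; simp) hgb
  rw [hg1, hg2, ← ha, ← hb] at hsb
  have hg1' : ‖c1 * a.1 + c2 * a.2‖ ^ 2 = V := by
    have : c1 * a.1 + c2 * a.2 = ((s : ℝ) : ℂ) := by
      have hsC : (s : ℂ) ≠ 0 := by exact_mod_cast hs0.ne'
      have e1 : (starRingEnd ℂ) a.1 * a.1 = ((‖a.1‖ ^ 2 : ℝ) : ℂ) := by
        rw [mul_comm, Complex.mul_conj, Complex.normSq_eq_norm_sq]
      have e2 : (starRingEnd ℂ) a.2 * a.2 = ((‖a.2‖ ^ 2 : ℝ) : ℂ) := by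
        rw [mul_comm, Complex.mul_conj, Complex.normSq_eq_norm_sq]
      simp only [c1, c2]
      rw [div_mul_eq_mul_div, div_mul_eq_mul_div, ← add_div, e1, e2, div_eq_iff hsC,
        ← Complex.ofReal_add, ← hV, ← Complex.ofReal_mul, ← sq, hs2]
    rw [this, Complex.norm_real, Real.norm_of_nonneg hs0.le, hs2]
  rw [hg1'] at hsb
  -- Lagrange
  have hlag : V * (‖b.1‖ ^ 2 + ‖b.2‖ ^ 2) =
      V * ‖c1 * b.1 + c2 * b.2‖ ^ 2 + ‖Wr F 0‖ ^ 2 := by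
    have h1 := cs2 ((starRingEnd ℂ) a.1) ((starRingEnd ℂ) a.2) b.1 b.2
    rw [RCLike.norm_conj, RCLike.norm_conj, Complex.conj_conj, Complex.conj_conj, ← hV] at h1
    rw [← h1]
    have h2 : V * ‖c1 * b.1 + c2 * b.2‖ ^ 2 =
        ‖(starRingEnd ℂ) a.1 * b.1 + (starRingEnd ℂ) a.2 * b.2‖ ^ 2 := by
      have hsC : (s : ℂ) ≠ 0 := by exact_mod_cast hs0.ne'
      have e1 : (starRingEnd ℂ) a.1 * b.1 + (starRingEnd ℂ) a.2 * b.2 =
          (s : ℂ) * (c1 * b.1 + c2 * b.2) := by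
        simp only [c1, c2]
        field_simp
      rw [e1, norm_mul, mul_pow, Complex.norm_real, Real.norm_of_nonneg hs0.le, hs2]
    rw [h2]
    rfl
  have hWr : ‖Wr F 0‖ ^ 2 ≤ k * V ^ 3 := by simpa using hk
  have hn0 : 0 ≤ 1 - V := by
    have := norm_nonneg (c1 * b.1 + c2 * b.2)
    linarith
  have hn1 : 1 - V ≤ k / 2 * V := by nlinarith
  have hsq : ‖c1 * b.1 + c2 * b.2‖ ^ 2 ≤ k ^ 2 * V ^ 2 := by
    have h1 : ‖c1 * b.1 + c2 * b.2‖ ≤ k * V := by linarith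
    calc ‖c1 * b.1 + c2 * b.2‖ ^ 2 ≤ (k * V) ^ 2 := pow_le_pow_left₀ (norm_nonneg _) h1 2
      _ = k ^ 2 * V ^ 2 := by ring
  have hfin : V * (‖b.1‖ ^ 2 + ‖b.2‖ ^ 2) ≤ V * ((k + k ^ 2) * V ^ 2) := by
    rw [hlag]
    have := mul_le_mul_of_nonneg_left hsq hVpos.le
    nlinarith
  exact le_of_mul_le_mul_left hfin hVpos

/-- equality case of the Schwarz lemma (used for non-linearity): if `|F'(0)| = 1` then `F` is
linear, so `Wr F 0 = 0`. -/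
theorem schwarz_eq {F : ℂ → ℂ × ℂ} (hF : DifferentiableOn ℂ F (ball 0 1))
    (hm : MapsTo F (ball 0 1) B2) (h0 : F 0 = 0)
    (h1 : 1 ≤ ‖(deriv F 0).1‖ ^ 2 + ‖(deriv F 0).2‖ ^ 2) : Wr F 0 = 0 := by
  have hz0 : (0:ℂ) ∈ ball (0:ℂ) 1 := by simp
  have hnb : ball (0:ℂ) 1 ∈ 𝓝 (0:ℂ) := isOpen_ball.mem_nhds hz0
  let L : (ℂ × ℂ) ≃L[ℂ] WithLp 2 (ℂ × ℂ) := (WithLp.prodContinuousLinearEquiv 2 ℂ ℂ ℂ).symm
  have hLn : ∀ x : ℂ × ℂ, ‖L x‖ ^ 2 = ‖x.1‖ ^ 2 + ‖x.2‖ ^ 2 := by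
    intro x
    rw [WithLp.prod_norm_sq_eq_of_L2]
    rfl
  have hGd : DifferentiableOn ℂ (fun z => L (F z)) (ball 0 1) :=
    L.differentiable.comp_differentiableOn hF
  have hG0 : L (F 0) = 0 := by rw [h0, map_zero]
  have hGm : MapsTo (fun z => L (F z)) (ball 0 1) (closedBall (L (F 0)) 1) := by
    intro z hz
    rw [hG0, mem_closedBall_zero_iff]
    have h2 : ‖(F z).1‖ ^ 2 + ‖(F z).2‖ ^ 2 < 1 := hm hz
    rw [← hLn] at h2
    nlinarith [norm_nonneg (L (F z))]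
  have hderiv : HasDerivAt (fun z => L (F z)) (L (deriv F 0)) 0 := by
    have h3 : HasDerivAt F (deriv F 0) 0 := (hF.differentiableAt hnb).hasDerivAt
    exact (L : (ℂ × ℂ) →L[ℂ] WithLp 2 (ℂ × ℂ)).hasFDerivAt.comp_hasDerivAt 0 h3
  have hle := Complex.norm_deriv_le_one_of_mapsTo_ball hGd hGm one_pos
  rw [hderiv.deriv] at hle
  have hge : 1 ≤ ‖L (deriv F 0)‖ := by
    rw [← hLn] at h1
    nlinarith [norm_nonneg (L (deriv F 0))]
  have heq : ‖dslope (fun z => L (F z)) 0 0‖ = 1 / 1 := by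
    rw [dslope_same, hderiv.deriv, div_one]
    exact le_antisymm hle hge
  have haff := Complex.affine_of_mapsTo_ball_of_norm_dslope_eq_div hGd hGm hz0 heq
  have hFl : ∀ z ∈ ball (0:ℂ) 1, F z = z • deriv F 0 := by
    intro z hz
    have h4 := haff hz
    simp only [hG0, zero_add, sub_zero, dslope_same, hderiv.deriv] at h4
    rw [← map_smul] at h4
    exact L.injective h4
  have hdF : ∀ z ∈ ball (0:ℂ) 1, deriv F z = deriv F 0 := by
    intro z hz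
    have h5 : F =ᶠ[𝓝 z] fun w => w • deriv F 0 := by
      filter_upwards [isOpen_ball.mem_nhds hz] with w hw
      exact hFl w hw
    rw [h5.deriv_eq]
    have h6 := (hasDerivAt_id z).smul_const (deriv F 0)
    rw [one_smul] at h6
    exact h6.deriv
  have hdd : deriv (deriv F) 0 = 0 := by
    have h5 : deriv F =ᶠ[𝓝 0] fun _ => deriv F 0 := by
      filter_upwards [hnb] with w hw
      exact hdF w hw
    rw [h5.deriv_eq, deriv_const]
  unfold Wr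
  rw [hdd]
  simp

end Pool.Agent.Helper326.HB
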