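import Mathlib
import Pool.Agent.Helper326.HB.Defs

set_option autoImplicit false
open Complex Metric Set Filter Topology Matrix

namespace Pool.Agent.Helper326.HB

lemma min_principle_sq_add (u z : ℂ) :
    ‖u + z‖ ^ 2 = ‖u‖ ^ 2 + ‖z‖ ^ 2 + 2 * (z * (starRingEnd ℂ) u).re := by
  rw [← Complex.normSq_eq_norm_sq, ← Complex.normSq_eq_norm_sq, ← Complex.normSq_eq_norm_sq,
    Complex.normSq_apply, Complex.normSq_apply, Complex.normSq_apply]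
  simp only [Complex.add_re, Complex.add_im, Complex.mul_re, Complex.conj_re, Complex.conj_im]
  ring

lemma min_principle_lagrange (a1 a2 b1 b2 : ℂ) :
    ‖a1 * b2 - a2 * b1‖ ^ 2 + ‖b1 * (starRingEnd ℂ) a1 + b2 * (starRingEnd ℂ) a2‖ ^ 2 =
      (‖a1‖ ^ 2 + ‖a2‖ ^ 2) * (‖b1‖ ^ 2 + ‖b2‖ ^ 2) := by
  simp only [← Complex.normSq_eq_norm_sq, Complex.normSq_apply]
  simp only [Complex.add_re, Complex.add_im, Complex.mul_re, Complex.mul_im, Complex.sub_re,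
    Complex.sub_im, Complex.conj_re, Complex.conj_im]
  ring

/-- the remainder function -/
noncomputable def min_principle_Q (a1 a2 b1 b2 x H1 H2 K1 K2 : ℂ) : ℝ :=
  ‖b1 + x * K1‖ ^ 2 + ‖b2 + x * K2‖ ^ 2 +
  ‖(a1 + x * (b1 + x * K1)) * (starRingEnd ℂ) H1 + (a2 + x * (b2 + x * K2)) * (starRingEnd ℂ) H2‖ ^ 2
  - (‖H1‖ ^ 2 + ‖H2‖ ^ 2) *
    (‖a1 + x * (b1 + x * K1)‖ ^ 2 + ‖a2 + x * (b2 + x * K2)‖ ^ 2)
  + (-2 + ‖x‖ ^ 2) * ((1 - ‖x‖ ^ 2 * (‖H1‖ ^ 2 + ‖H2‖ ^ 2)) *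
      (‖a1 + x * (b1 + x * K1)‖ ^ 2 + ‖a2 + x * (b2 + x * K2)‖ ^ 2) + ‖x‖ ^ 2 *
      ‖(a1 + x * (b1 + x * K1)) * (starRingEnd ℂ) H1 +
        (a2 + x * (b2 + x * K2)) * (starRingEnd ℂ) H2‖ ^ 2)
  + (‖a1‖ ^ 2 + ‖a2‖ ^ 2) * (2 * (‖H1‖ ^ 2 + ‖H2‖ ^ 2) - ‖x‖ ^ 2 * (‖H1‖ ^ 2 + ‖H2‖ ^ 2) ^ 2)

lemma min_principle_Q_cont (a1 a2 b1 b2 : ℂ) (h1 h2 k1 k2 : ℂ → ℂ) (c1 : ContinuousAt h1 0)
    (c2 : ContinuousAt h2 0) (c3 : ContinuousAt k1 0) (c4 : ContinuousAt k2 0) :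
    ContinuousAt (fun x => min_principle_Q a1 a2 b1 b2 x (h1 x) (h2 x) (k1 x) (k2 x)) 0 := by
  unfold min_principle_Q
  have d1 : ContinuousAt (fun x => (starRingEnd ℂ) (h1 x)) 0 :=
    Complex.continuous_conj.continuousAt.comp c1
  have d2 : ContinuousAt (fun x => (starRingEnd ℂ) (h2 x)) 0 :=
    Complex.continuous_conj.continuousAt.comp c2
  fun_prop

lemma min_principle_ident (a1 a2 b1 b2 x H1 H2 K1 K2 : ℂ) :
    (1 - ‖x‖ ^ 2) ^ 2 * ((1 - ‖x * H1‖ ^ 2 - ‖x * H2‖ ^ 2) *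
      (‖a1 + x * (b1 + x * K1)‖ ^ 2 + ‖a2 + x * (b2 + x * K2)‖ ^ 2) +
      ‖(a1 + x * (b1 + x * K1)) * (starRingEnd ℂ) (x * H1) +
        (a2 + x * (b2 + x * K2)) * (starRingEnd ℂ) (x * H2)‖ ^ 2)
    - (‖a1‖ ^ 2 + ‖a2‖ ^ 2) * (1 - ‖x * H1‖ ^ 2 - ‖x * H2‖ ^ 2) ^ 2
    = 2 * (x * (b1 * (starRingEnd ℂ) a1 + b2 * (starRingEnd ℂ) a2)).re +
      2 * (x ^ 2 * (K1 * (starRingEnd ℂ) a1 + K2 * (starRingEnd ℂ) a2)).re +
      ‖x‖ ^ 2 * min_principle_Q a1 a2 b1 b2 x H1 H2 K1 K2 := by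
  have e1 : (a1 + x * (b1 + x * K1)) * (starRingEnd ℂ) (x * H1) +
        (a2 + x * (b2 + x * K2)) * (starRingEnd ℂ) (x * H2) =
      (starRingEnd ℂ) x * ((a1 + x * (b1 + x * K1)) * (starRingEnd ℂ) H1 +
        (a2 + x * (b2 + x * K2)) * (starRingEnd ℂ) H2) := by
    rw [map_mul, map_mul]; ring
  rw [e1, norm_mul, norm_mul, norm_mul, Complex.norm_conj]
  have e2 := min_principle_sq_add a1 (x * (b1 + x * K1))
  have e3 := min_principle_sq_add a2 (x * (b2 + x * K2))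
  rw [norm_mul x] at e2 e3
  have e4 : 2 * (x * (b1 * (starRingEnd ℂ) a1 + b2 * (starRingEnd ℂ) a2)).re +
      2 * (x ^ 2 * (K1 * (starRingEnd ℂ) a1 + K2 * (starRingEnd ℂ) a2)).re =
      2 * (x * (b1 + x * K1) * (starRingEnd ℂ) a1).re +
      2 * (x * (b2 + x * K2) * (starRingEnd ℂ) a2).re := by
    rw [← mul_add, ← mul_add, ← Complex.add_re, ← Complex.add_re]
    congr 2
    ring
  rw [e4, min_principle_Q]
  generalize (x * (b1 + x * K1) * (starRingEnd ℂ) a1).re = r1 at *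
  generalize (x * (b2 + x * K2) * (starRingEnd ℂ) a2).re = r2 at *
  generalize ‖(a1 + x * (b1 + x * K1)) * (starRingEnd ℂ) H1 +
        (a2 + x * (b2 + x * K2)) * (starRingEnd ℂ) H2‖ = m at *
  generalize ‖a1 + x * (b1 + x * K1)‖ = f1 at *
  generalize ‖a2 + x * (b2 + x * K2)‖ = f2 at *
  generalize ‖b1 + x * K1‖ = g1 at *
  generalize ‖b2 + x * K2‖ = g2 at *
  linear_combination e2 + e3

theorem min_principle {F : ℂ → ℂ × ℂ} (hF : DifferentiableOn ℂ F (ball 0 1))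
    (hm : MapsTo F (ball 0 1) B2) (h0 : F 0 = 0) {k : ℝ} (hk0 : 0 ≤ k)
    (hk : ‖Wr F 0‖ ^ 2 * q (F 0) ^ 3 ≤ k * Dd F 0 ^ 3) (hpos : 0 < Dd F 0)
    (hmin : ∀ x ∈ ball (0 : ℂ) 1, Vv F 0 ≤ Vv F x) : 1 / (1 + k / 2) ≤ Vv F 0 := by
  have hball : ball (0:ℂ) 1 ∈ 𝓝 (0:ℂ) := ball_mem_nhds _ one_pos
  set a1 : ℂ := (deriv F 0).1 with ha1
  set a2 : ℂ := (deriv F 0).2 with ha2
  set b1 : ℂ := (deriv (deriv F) 0).1 with hb1
  set b2 : ℂ := (deriv (deriv F) 0).2 with hb2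
  have hdF : DifferentiableOn ℂ (deriv F) (ball 0 1) := hF.deriv isOpen_ball
  obtain ⟨H, hH, hHc, hH0⟩ : ∃ H : ℂ → ℂ × ℂ, (∀ x, F x = x • H x) ∧ ContinuousAt H 0 ∧
      H 0 = deriv F 0 := by
    refine ⟨dslope F 0, ?_, continuousAt_dslope_same.2 (hF.differentiableAt hball),
      dslope_same _ _⟩
    intro x
    have := sub_smul_dslope F 0 x
    rw [sub_zero, h0, sub_zero] at this
    exact this.symm
  obtain ⟨K, hDK, hKc⟩ : ∃ K : ℂ → ℂ × ℂ, (∀ x, deriv F x = deriv F 0 +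
      x • (deriv (deriv F) 0 + x • K x)) ∧ ContinuousAt K 0 := by
    have hdD : DifferentiableOn ℂ (dslope (deriv F) 0) (ball 0 1) :=
      (Complex.differentiableOn_dslope hball).2 hdF
    refine ⟨dslope (dslope (deriv F) 0) 0, ?_,
      continuousAt_dslope_same.2 (hdD.differentiableAt hball)⟩
    intro x
    have h1 := sub_smul_dslope (deriv F) 0 x
    have h2 := sub_smul_dslope (dslope (deriv F) 0) 0 x
    rw [sub_zero] at h1 h2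
    rw [h2, dslope_same, add_sub_cancel, h1, add_sub_cancel]
  set p : ℂ := b1 * (starRingEnd ℂ) a1 + b2 * (starRingEnd ℂ) a2 with hp
  let κ : ℂ → ℂ := fun x => (K x).1 * (starRingEnd ℂ) a1 + (K x).2 * (starRingEnd ℂ) a2
  let Q : ℂ → ℝ := fun x => min_principle_Q a1 a2 b1 b2 x (H x).1 (H x).2 (K x).1 (K x).2
  have hκc : ContinuousAt κ 0 := by
    have h1 : ContinuousAt (fun x => (K x).1) 0 := hKc.fst
    have h2 : ContinuousAt (fun x => (K x).2) 0 := hKc.snd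
    exact (h1.mul continuousAt_const).add (h2.mul continuousAt_const)
  have hQc : ContinuousAt Q 0 := by
    exact min_principle_Q_cont a1 a2 b1 b2 (fun x => (H x).1) (fun x => (H x).2)
      (fun x => (K x).1) (fun x => (K x).2) hHc.fst hHc.snd hKc.fst hKc.snd
  have hq0 : q (F 0) = 1 := by rw [h0]; simp [q]
  have hDd0 : Dd F 0 = ‖a1‖ ^ 2 + ‖a2‖ ^ 2 := by
    rw [Dd, hq0, h0]; simp [ha1, ha2]
  have hV0 : Vv F 0 = ‖a1‖ ^ 2 + ‖a2‖ ^ 2 := by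
    rw [Vv, hDd0, hq0]; simp
  have hG : ∀ x ∈ ball (0:ℂ) 1, 0 ≤ 2 * (x * p).re + 2 * (x ^ 2 * κ x).re + ‖x‖ ^ 2 * Q x := by
    intro x hx
    have h1 := hmin x hx
    have h2 : 0 < q (F x) := by
      have : F x ∈ B2 := hm hx
      have h3 : ‖(F x).1‖ ^ 2 + ‖(F x).2‖ ^ 2 < 1 := this
      rw [q]; linarith
    rw [hV0, Vv, le_div_iff₀ (by positivity)] at h1
    have h3 := min_principle_ident a1 a2 b1 b2 x (H x).1 (H x).2 (K x).1 (K x).2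
    have e1 : (F x).1 = x * (H x).1 := by rw [hH x]; simp
    have e2 : (F x).2 = x * (H x).2 := by rw [hH x]; simp
    have e3 : (deriv F x).1 = a1 + x * (b1 + x * (K x).1) := by
      rw [hDK x]; simp [ha1, hb1, mul_add]
    have e4 : (deriv F x).2 = a2 + x * (b2 + x * (K x).2) := by
      rw [hDK x]; simp [ha2, hb2, mul_add]
    rw [Dd, q, e3, e4, e1, e2] at h1
    have h4 : 2 * (x * p).re + 2 * (x ^ 2 * κ x).re + ‖x‖ ^ 2 * Q x = _ := h3.symm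
    rw [h4]
    linarith
  have hray : ∀ w : ℂ, Tendsto (fun t : ℝ => (t : ℂ) * w) (𝓝[>] 0) (𝓝 0) := by
    intro w
    have h1 : Continuous fun t : ℝ => (t : ℂ) * w := by fun_prop
    have h2 := h1.tendsto 0
    simp only [Complex.ofReal_zero, zero_mul] at h2
    exact h2.mono_left nhdsWithin_le_nhds
  have hev : ∀ w : ℂ, ∀ᶠ t : ℝ in 𝓝[>] 0, (t : ℂ) * w ∈ ball (0:ℂ) 1 := fun w =>
    (hray w).eventually hball
  have hposev : ∀ᶠ t : ℝ in 𝓝[>] 0, 0 < t := eventually_mem_nhdsWithin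
  have ht0 : Tendsto (fun t : ℝ => t) (𝓝[>] 0) (𝓝 0) := tendsto_id.mono_left nhdsWithin_le_nhds
  have hRlim : ∀ w : ℂ, Tendsto (fun t : ℝ => 2 * (w ^ 2 * κ (t * w)).re + ‖w‖ ^ 2 * Q (t * w))
      (𝓝[>] 0) (𝓝 (2 * (w ^ 2 * κ 0).re + ‖w‖ ^ 2 * Q 0)) := by
    intro w
    have h1 : Tendsto (fun t : ℝ => κ (t * w)) (𝓝[>] 0) (𝓝 (κ 0)) := hκc.tendsto.comp (hray w)
    have h2 : Tendsto (fun t : ℝ => Q (t * w)) (𝓝[>] 0) (𝓝 (Q 0)) := hQc.tendsto.comp (hray w)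
    exact (((Complex.continuous_re.tendsto _).comp (h1.const_mul (w ^ 2))).const_mul 2).add
      (h2.const_mul _)
  have hGw : ∀ w : ℂ, ∀ᶠ t : ℝ in 𝓝[>] 0, 0 ≤ t * (2 * (w * p).re) +
      t ^ 2 * (2 * (w ^ 2 * κ (t * w)).re + ‖w‖ ^ 2 * Q (t * w)) := by
    intro w
    filter_upwards [hev w, hposev] with t ht htp
    have h1 := hG _ ht
    have e1 : ((t : ℂ) * w * p).re = t * (w * p).re := by
      rw [mul_assoc, Complex.re_ofReal_mul]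
    have e2 : (((t : ℂ) * w) ^ 2 * κ (t * w)).re = t ^ 2 * (w ^ 2 * κ (t * w)).re := by
      rw [mul_pow, mul_assoc, ← Complex.ofReal_pow, Complex.re_ofReal_mul]
    rw [e1, e2, norm_mul, Complex.norm_real, Real.norm_eq_abs, mul_pow, sq_abs] at h1
    linarith
  have hp0 : p = 0 := by
    have h1 : ∀ w : ℂ, 0 ≤ 2 * (w * p).re := by
      intro w
      have h2 : Tendsto (fun t : ℝ => 2 * (w * p).re +
          t * (2 * (w ^ 2 * κ (t * w)).re + ‖w‖ ^ 2 * Q (t * w))) (𝓝[>] 0)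
          (𝓝 (2 * (w * p).re + 0 * (2 * (w ^ 2 * κ 0).re + ‖w‖ ^ 2 * Q 0))) :=
        tendsto_const_nhds.add (ht0.mul (hRlim w))
      rw [zero_mul, add_zero] at h2
      apply ge_of_tendsto h2
      filter_upwards [hGw w, hposev] with t ht htp
      have h3 : 0 ≤ t * (2 * (w * p).re +
          t * (2 * (w ^ 2 * κ (t * w)).re + ‖w‖ ^ 2 * Q (t * w))) := by
        have : t * (2 * (w * p).re +
          t * (2 * (w ^ 2 * κ (t * w)).re + ‖w‖ ^ 2 * Q (t * w))) = t * (2 * (w * p).re) +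
      t ^ 2 * (2 * (w ^ 2 * κ (t * w)).re + ‖w‖ ^ 2 * Q (t * w)) := by ring
        rw [this]; exact ht
      exact nonneg_of_mul_nonneg_right h3 htp
    have h2 := h1 (-(starRingEnd ℂ) p)
    have h3 : (-(starRingEnd ℂ) p * p).re = -Complex.normSq p := by
      rw [neg_mul, ← Complex.normSq_eq_conj_mul_self, Complex.neg_re, Complex.ofReal_re]
    rw [h3] at h2
    have h4 := Complex.normSq_nonneg p
    exact Complex.normSq_eq_zero.1 (by linarith)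
  have hQ0 : 0 ≤ Q 0 := by
    have h2 : Tendsto (fun t : ℝ => (2 * ((1:ℂ) ^ 2 * κ (t * 1)).re + ‖(1:ℂ)‖ ^ 2 * Q (t * 1)) +
        (2 * (Complex.I ^ 2 * κ (t * Complex.I)).re + ‖Complex.I‖ ^ 2 * Q (t * Complex.I))) (𝓝[>] 0)
        (𝓝 ((2 * ((1:ℂ) ^ 2 * κ 0).re + ‖(1:ℂ)‖ ^ 2 * Q 0) +
          (2 * (Complex.I ^ 2 * κ 0).re + ‖Complex.I‖ ^ 2 * Q 0))) :=
      (hRlim 1).add (hRlim Complex.I)
    have h3 : (0:ℝ) ≤ ((2 * ((1:ℂ) ^ 2 * κ 0).re + ‖(1:ℂ)‖ ^ 2 * Q 0) +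
          (2 * (Complex.I ^ 2 * κ 0).re + ‖Complex.I‖ ^ 2 * Q 0)) := by
      apply ge_of_tendsto h2
      filter_upwards [hGw 1, hGw Complex.I, hposev] with t h4 h5 htp
      rw [hp0, mul_zero, Complex.zero_re, mul_zero, mul_zero, zero_add] at h4 h5
      have h6 := nonneg_of_mul_nonneg_right h4 (by positivity)
      have h7 := nonneg_of_mul_nonneg_right h5 (by positivity)
      exact add_nonneg h6 h7
    rw [Complex.I_sq, Complex.norm_I] at h3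
    simp only [one_pow, one_mul, norm_one, neg_mul, Complex.neg_re] at h3
    linarith
  have hQval : Q 0 = ‖b1‖ ^ 2 + ‖b2‖ ^ 2 - 2 * (‖a1‖ ^ 2 + ‖a2‖ ^ 2) +
      2 * (‖a1‖ ^ 2 + ‖a2‖ ^ 2) ^ 2 := by
    show min_principle_Q a1 a2 b1 b2 0 (H 0).1 (H 0).2 (K 0).1 (K 0).2 = _
    have e1 : (H 0).1 = a1 := by rw [hH0]
    have e2 : (H 0).2 = a2 := by rw [hH0]
    rw [e1, e2, min_principle_Q]
    have e3 : ‖a1 * (starRingEnd ℂ) a1 + a2 * (starRingEnd ℂ) a2‖ ^ 2 =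
        (‖a1‖ ^ 2 + ‖a2‖ ^ 2) ^ 2 := by
      rw [Complex.mul_conj, Complex.mul_conj, ← Complex.ofReal_add, Complex.norm_real,
        Real.norm_eq_abs, sq_abs, Complex.normSq_eq_norm_sq, Complex.normSq_eq_norm_sq]
    simp only [zero_mul, add_zero, norm_zero]
    rw [e3]
    ring
  set v : ℝ := ‖a1‖ ^ 2 + ‖a2‖ ^ 2 with hv
  set bb : ℝ := ‖b1‖ ^ 2 + ‖b2‖ ^ 2 with hbb
  rw [hDd0] at hpos hk
  rw [hq0, one_pow, mul_one] at hk
  have hL := min_principle_lagrange a1 a2 b1 b2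
  rw [← hp, hp0, norm_zero] at hL
  have hW : Wr F 0 = a1 * b2 - a2 * b1 := rfl
  rw [hW] at hk
  have h1 : bb ≤ k * v ^ 2 := by
    have h2 : v * bb ≤ v * (k * v ^ 2) := by
      rw [hv, hbb, ← hL, ← hv]
      nlinarith
    exact le_of_mul_le_mul_left h2 hpos
  rw [hQval] at hQ0
  have h2 : 0 ≤ v * (k * v + 2 * v - 2) := by nlinarith
  have h3 : 0 ≤ k * v + 2 * v - 2 := nonneg_of_mul_nonneg_right h2 hpos
  rw [hV0, div_le_iff₀ (by positivity)]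
  linarith

end Pool.Agent.Helper326.HB
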