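import Mathlib
import Pool.Agent.Helper326.HB.Defs

set_option autoImplicit false
open Complex Metric Set Filter Topology Matrix

namespace Pool.Agent.Helper326.HB

theorem sd_tanh (t : ℝ) : HasDerivAt Real.tanh (1 - Real.tanh t ^ 2) t := by
  have h1 : HasDerivAt (fun t => Real.sinh t / Real.cosh t)
      ((Real.cosh t * Real.cosh t - Real.sinh t * Real.sinh t) / Real.cosh t ^ 2) t :=
    (Real.hasDerivAt_sinh t).div (Real.hasDerivAt_cosh t) (Real.cosh_pos t).ne'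
  have h2 : Real.tanh = fun t => Real.sinh t / Real.cosh t :=
    funext fun t => Real.tanh_eq_sinh_div_cosh t
  rw [h2]
  convert h1 using 1
  have := (Real.cosh_pos t).ne'
  field_simp

/-- derivative of a composition with `tanh` -/
theorem sd_comp {φ : ℂ → ℂ × ℂ} (hφ : DifferentiableOn ℂ φ (ball 0 1)) (t : ℝ) :
    HasDerivAt (fun t : ℝ => φ (Real.tanh t : ℂ))
      (((1 - Real.tanh t ^ 2 : ℝ) : ℂ) • deriv φ (Real.tanh t : ℂ)) t := by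
  have h1 : (Real.tanh t : ℂ) ∈ ball (0 : ℂ) 1 := by
    rw [mem_ball_zero_iff, Complex.norm_real]
    exact Real.abs_tanh_lt_one t
  have h2 : HasDerivAt φ (deriv φ (Real.tanh t : ℂ)) (Real.tanh t : ℂ) :=
    (hφ.differentiableAt (isOpen_ball.mem_nhds h1)).hasDerivAt
  have h3 : HasDerivAt (fun t : ℝ => (Real.tanh t : ℂ)) ((1 - Real.tanh t ^ 2 : ℝ) : ℂ) t :=
    (sd_tanh t).ofReal_comp
  exact HasDerivAt.scomp t h2 h3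

/-- abstract computation of the second derivative of a quotient `N / (Q c)` -/
theorem sd_quot {N Q N' Q' : ℝ → ℝ} {c n2 q2 : ℝ} (hc : c ≠ 0) (hQ : ∀ t, Q t ≠ 0)
    (hN : ∀ t, HasDerivAt N (N' t) t) (hQd : ∀ t, HasDerivAt Q (Q' t) t)
    (hN2 : HasDerivAt N' n2 0) (hQ2 : HasDerivAt Q' q2 0) (hN0 : N 0 = 1) (hQ0 : Q 0 = 1)
    (hQ'0 : Q' 0 = 0) :
    deriv (deriv (fun t => N t / (Q t * c))) 0 = (n2 - q2) / c := by
  have h1 : ∀ t, HasDerivAt (fun t => N t / (Q t * c))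
      ((N' t * (Q t * c) - N t * (Q' t * c)) / (Q t * c) ^ 2) t := fun t =>
    (hN t).div ((hQd t).mul_const c) (mul_ne_zero (hQ t) hc)
  have h2 : deriv (fun t => N t / (Q t * c)) =
      fun t => (N' t * (Q t * c) - N t * (Q' t * c)) / (Q t * c) ^ 2 := funext fun t => (h1 t).deriv
  rw [h2]
  have h3 : HasDerivAt (fun t => N' t * (Q t * c) - N t * (Q' t * c))
      ((n2 * (Q 0 * c) + N' 0 * (Q' 0 * c)) - (N' 0 * (Q' 0 * c) + N 0 * (q2 * c))) 0 :=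
    (hN2.mul ((hQd 0).mul_const c)).sub ((hN 0).mul (hQ2.mul_const c))
  have h4 : HasDerivAt (fun t => (Q t * c) ^ 2)
      (((2 : ℕ) : ℝ) * (Q 0 * c) ^ (2 - 1) * (Q' 0 * c)) 0 := ((hQd 0).mul_const c).pow 2
  have h5 := h3.div h4 (pow_ne_zero 2 (mul_ne_zero (hQ 0) hc))
  have h6 : deriv (fun t => (N' t * (Q t * c) - N t * (Q' t * c)) / (Q t * c) ^ 2) 0 = _ := h5.deriv
  rw [h6, hQ'0, hQ0, hN0]
  field_simp
  ring

theorem second_deriv {φ : ℂ → ℂ × ℂ} (hφ : DifferentiableOn ℂ φ (ball 0 1))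
    (hm : MapsTo φ (ball 0 1) B2) (h0 : φ 0 = 0) {b : ℂ × ℂ} (hb : b ∈ B2) {k : ℝ} (hk0 : 0 ≤ k)
    (hk1 : k < 1)
    (hk : ‖(deriv (deriv φ) 0).1‖ ^ 2 + ‖(deriv (deriv φ) 0).2‖ ^ 2 ≤
      k ^ 2 * (‖(deriv φ 0).1‖ ^ 2 + ‖(deriv φ 0).2‖ ^ 2) ^ 2) :
    2 * (1 - k) * (‖(deriv φ 0).1‖ ^ 2 + ‖(deriv φ 0).2‖ ^ 2) ≤
      deriv (deriv (fun t : ℝ =>
        ‖1 - (φ (Real.tanh t : ℂ)).1 * (starRingEnd ℂ) b.1 -
          (φ (Real.tanh t : ℂ)).2 * (starRingEnd ℂ) b.2‖ ^ 2 /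
        (q (φ (Real.tanh t : ℂ)) * q b))) 0 := by
  set a : ℂ × ℂ := deriv φ 0 with ha
  set bb : ℂ × ℂ := deriv (deriv φ) 0 with hbb
  have hφ' : DifferentiableOn ℂ (deriv φ) (ball 0 1) := hφ.deriv isOpen_ball
  -- the curve and its derivatives
  let w : ℝ → ℂ × ℂ := fun t => φ (Real.tanh t : ℂ)
  let v : ℝ → ℂ × ℂ := fun t => ((1 - Real.tanh t ^ 2 : ℝ) : ℂ) • deriv φ (Real.tanh t : ℂ)
  have hw : ∀ t, HasDerivAt w (v t) t := fun t => sd_comp hφ t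
  have hT0 : ((Real.tanh 0 : ℝ) : ℂ) = 0 := by rw [Real.tanh_zero, Complex.ofReal_zero]
  have hv : HasDerivAt v bb 0 := by
    have h1 : HasDerivAt (fun t : ℝ => ((1 - Real.tanh t ^ 2 : ℝ) : ℂ)) ((0 : ℝ) : ℂ) 0 := by
      refine HasDerivAt.ofReal_comp ?_
      have h2 := ((sd_tanh 0).pow 2).const_sub 1
      simpa [Real.tanh_zero] using h2
    have h2 := h1.smul (sd_comp hφ' 0)
    have h3 : ((1 - Real.tanh 0 ^ 2 : ℝ) : ℂ) • (((1 - Real.tanh 0 ^ 2 : ℝ) : ℂ) •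
        deriv (deriv φ) ((Real.tanh 0 : ℝ) : ℂ)) +
        ((0 : ℝ) : ℂ) • deriv φ ((Real.tanh 0 : ℝ) : ℂ) = bb := by
      rw [hT0, Real.tanh_zero]
      simp [hbb]
    rw [← h3]
    exact h2
  have hw0 : w 0 = 0 := by
    show φ ((Real.tanh 0 : ℝ) : ℂ) = 0
    rw [hT0, h0]
  have hv0 : v 0 = a := by
    show ((1 - Real.tanh 0 ^ 2 : ℝ) : ℂ) • deriv φ ((Real.tanh 0 : ℝ) : ℂ) = a
    rw [hT0, Real.tanh_zero]
    simp [ha]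
  have hw1 : ∀ t, HasDerivAt (fun t => (w t).1) (v t).1 t := fun t =>
    (ContinuousLinearMap.fst ℝ ℂ ℂ).hasFDerivAt.comp_hasDerivAt t (hw t)
  have hw2 : ∀ t, HasDerivAt (fun t => (w t).2) (v t).2 t := fun t =>
    (ContinuousLinearMap.snd ℝ ℂ ℂ).hasFDerivAt.comp_hasDerivAt t (hw t)
  have hv1 : HasDerivAt (fun t => (v t).1) bb.1 0 :=
    (ContinuousLinearMap.fst ℝ ℂ ℂ).hasFDerivAt.comp_hasDerivAt 0 hv
  have hv2 : HasDerivAt (fun t => (v t).2) bb.2 0 :=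
    (ContinuousLinearMap.snd ℝ ℂ ℂ).hasFDerivAt.comp_hasDerivAt 0 hv
  set c1 : ℂ := (starRingEnd ℂ) b.1 with hc1
  set c2 : ℂ := (starRingEnd ℂ) b.2 with hc2
  let f : ℝ → ℂ := fun t => 1 - (w t).1 * c1 - (w t).2 * c2
  let f' : ℝ → ℂ := fun t => -((v t).1 * c1) - (v t).2 * c2
  have hf : ∀ t, HasDerivAt f (f' t) t := by
    intro t
    have h1 := (((hw1 t).mul_const c1).const_sub 1).sub ((hw2 t).mul_const c2)
    exact h1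
  have hf' : HasDerivAt f' (-(bb.1 * c1) - bb.2 * c2) 0 :=
    ((hv1.mul_const c1).neg).sub (hv2.mul_const c2)
  have hf0 : f 0 = 1 := by
    show 1 - (w 0).1 * c1 - (w 0).2 * c2 = 1
    rw [hw0]; simp
  have hf'0 : f' 0 = -(a.1 * c1) - a.2 * c2 := by
    show -((v 0).1 * c1) - (v 0).2 * c2 = _
    rw [hv0]
  have hN : ∀ t, HasDerivAt (fun t => ‖f t‖ ^ 2) (2 * inner ℝ (f t) (f' t)) t :=
    fun t => (hf t).norm_sq
  have hN2 : HasDerivAt (fun t => 2 * inner ℝ (f t) (f' t))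
      (2 * (inner ℝ (f 0) (-(bb.1 * c1) - bb.2 * c2) + inner ℝ (f' 0) (f' 0))) 0 :=
    ((hf 0).inner ℝ hf').const_mul 2
  let Q : ℝ → ℝ := fun t => 1 - ‖(w t).1‖ ^ 2 - ‖(w t).2‖ ^ 2
  let Q' : ℝ → ℝ := fun t => -(2 * inner ℝ (w t).1 (v t).1) - 2 * inner ℝ (w t).2 (v t).2
  have hQ : ∀ t, HasDerivAt Q (Q' t) t := by
    intro t
    have h1 := ((hw1 t).norm_sq.const_sub 1).sub (hw2 t).norm_sq
    exact h1
  have hQ2 : HasDerivAt Q' (-(2 * (inner ℝ (w 0).1 bb.1 + inner ℝ (v 0).1 (v 0).1)) -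
      2 * (inner ℝ (w 0).2 bb.2 + inner ℝ (v 0).2 (v 0).2)) 0 := by
    have h1 := ((((hw1 0).inner ℝ hv1).const_mul 2).neg).sub (((hw2 0).inner ℝ hv2).const_mul 2)
    exact h1
  have hQpos : ∀ t, 0 < Q t := by
    intro t
    have h1 : (Real.tanh t : ℂ) ∈ ball (0 : ℂ) 1 := by
      rw [mem_ball_zero_iff, Complex.norm_real]
      exact Real.abs_tanh_lt_one t
    have h2 : ‖(w t).1‖ ^ 2 + ‖(w t).2‖ ^ 2 < 1 := hm h1
    show 0 < 1 - ‖(w t).1‖ ^ 2 - ‖(w t).2‖ ^ 2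
    linarith
  have hb' : ‖b.1‖ ^ 2 + ‖b.2‖ ^ 2 < 1 := hb
  have hqb : q b = 1 - ‖b.1‖ ^ 2 - ‖b.2‖ ^ 2 := rfl
  have hqb0 : 0 < q b := by rw [hqb]; linarith
  have hqb1 : q b ≤ 1 := by rw [hqb]; nlinarith [sq_nonneg ‖b.1‖, sq_nonneg ‖b.2‖]
  have hmain := sd_quot (N := fun t => ‖f t‖ ^ 2) (Q := Q)
    (N' := fun t => 2 * inner ℝ (f t) (f' t)) (Q' := Q') hqb0.ne' (fun t => (hQpos t).ne') hN hQ
    hN2 hQ2 (by show ‖f 0‖ ^ 2 = 1; rw [hf0]; simp)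
    (by show 1 - ‖(w 0).1‖ ^ 2 - ‖(w 0).2‖ ^ 2 = 1; rw [hw0]; simp)
    (by
      show -(2 * inner ℝ (w 0).1 (v 0).1) - 2 * inner ℝ (w 0).2 (v 0).2 = 0
      rw [hw0]; simp)
  have hgoal : deriv (deriv (fun t : ℝ =>
        ‖1 - (φ (Real.tanh t : ℂ)).1 * c1 - (φ (Real.tanh t : ℂ)).2 * c2‖ ^ 2 /
        (q (φ (Real.tanh t : ℂ)) * q b))) 0 =
      deriv (deriv (fun t => ‖f t‖ ^ 2 / (Q t * q b))) 0 := rfl
  rw [hgoal, hmain]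
  rw [hw0, hv0, hf0, hf'0, real_inner_self_eq_norm_sq, real_inner_self_eq_norm_sq,
    real_inner_self_eq_norm_sq]
  simp only [Prod.fst_zero, Prod.snd_zero, inner_zero_left, zero_add]
  -- the estimate
  set A : ℝ := ‖a.1‖ ^ 2 + ‖a.2‖ ^ 2 with hA
  have hA0 : 0 ≤ A := by positivity
  have hCS : ‖bb.1 * c1 + bb.2 * c2‖ ≤ k * A := by
    have h1 : ‖bb.1 * c1 + bb.2 * c2‖ ≤ ‖bb.1‖ * ‖b.1‖ + ‖bb.2‖ * ‖b.2‖ := by
      refine (norm_add_le _ _).trans ?_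
      rw [norm_mul, norm_mul, hc1, hc2, RCLike.norm_conj, RCLike.norm_conj]
    have h2 : (‖bb.1‖ * ‖b.1‖ + ‖bb.2‖ * ‖b.2‖) ^ 2 ≤ (k * A) ^ 2 := by
      have h3 : (‖bb.1‖ * ‖b.1‖ + ‖bb.2‖ * ‖b.2‖) ^ 2 ≤
          (‖bb.1‖ ^ 2 + ‖bb.2‖ ^ 2) * (‖b.1‖ ^ 2 + ‖b.2‖ ^ 2) := by
        nlinarith [sq_nonneg (‖bb.1‖ * ‖b.2‖ - ‖bb.2‖ * ‖b.1‖)]
      have h4 : (‖bb.1‖ ^ 2 + ‖bb.2‖ ^ 2) * (‖b.1‖ ^ 2 + ‖b.2‖ ^ 2) ≤
          (‖bb.1‖ ^ 2 + ‖bb.2‖ ^ 2) * 1 :=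
        mul_le_mul_of_nonneg_left hb'.le (by positivity)
      calc _ ≤ _ := h3
        _ ≤ _ := h4
        _ = ‖bb.1‖ ^ 2 + ‖bb.2‖ ^ 2 := mul_one _
        _ ≤ k ^ 2 * A ^ 2 := hk
        _ = (k * A) ^ 2 := by ring
    exact h1.trans (le_of_pow_le_pow_left₀ two_ne_zero (mul_nonneg hk0 hA0) h2)
  have hre : inner ℝ (1 : ℂ) (-(bb.1 * c1) - bb.2 * c2) = -(bb.1 * c1 + bb.2 * c2).re := by
    rw [Complex.inner]
    simp
    ring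
  have hre2 : (bb.1 * c1 + bb.2 * c2).re ≤ k * A :=
    ((le_abs_self _).trans (Complex.abs_re_le_norm _)).trans hCS
  rw [hre]
  have hnum : 2 * (1 - k) * A ≤ 2 * (-(bb.1 * c1 + bb.2 * c2).re + ‖-(a.1 * c1) - a.2 * c2‖ ^ 2) -
      (-(2 * ‖a.1‖ ^ 2) - 2 * ‖a.2‖ ^ 2) := by
    have h1 := sq_nonneg ‖-(a.1 * c1) - a.2 * c2‖
    have h2 : 2 * ‖a.1‖ ^ 2 + 2 * ‖a.2‖ ^ 2 = 2 * A := by rw [hA]; ring
    linarith
  rw [le_div_iff₀ hqb0]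
  refine le_trans ?_ hnum
  have h1 : 0 ≤ 2 * (1 - k) * A := by
    have : 0 ≤ 1 - k := by linarith
    positivity
  exact mul_le_of_le_one_right h1 hqb1

end Pool.Agent.Helper326.HB
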