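import Mathlib
import Pool.Agent.Helper326.HB.Defs

set_option autoImplicit false
open Complex Metric Set Filter Topology Matrix

namespace Pool.Agent.Helper326.HB

theorem contDiff_tanh' : ContDiff ℝ 2 (fun t : ℝ => Real.tanh t) := by
  have h : (fun t : ℝ => Real.tanh t) = fun t => Real.sinh t / Real.cosh t := by
    funext t
    exact Real.tanh_eq_sinh_div_cosh t
  rw [h]
  exact Real.contDiff_sinh.div Real.contDiff_cosh fun t => (Real.cosh_pos t).ne'

/-- smoothness of `t ↦ 1 / q (φ (c tanh t))` -/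
theorem smooth_e {φ : ℂ → ℂ × ℂ} (hφ : DifferentiableOn ℂ φ (ball 0 1))
    (hm : MapsTo φ (ball 0 1) B2) {c : ℂ} (hc : ‖c‖ = 1) :
    ContDiff ℝ 2 (fun t : ℝ => 1 / q (φ (c * (Real.tanh t : ℂ)))) := by
  have h1 : ContDiffOn ℂ 2 φ (ball 0 1) := hφ.contDiffOn isOpen_ball
  have h2 : ContDiffOn ℝ 2 φ (ball 0 1) := h1.restrict_scalars ℝ
  have h3 : ContDiff ℝ 2 (fun t : ℝ => c * (Real.tanh t : ℂ)) :=
    contDiff_const.mul (Complex.ofRealCLM.contDiff.comp contDiff_tanh')
  have h4 : ∀ t : ℝ, c * (Real.tanh t : ℂ) ∈ ball (0 : ℂ) 1 := by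
    intro t
    rw [mem_ball_zero_iff, norm_mul, hc, one_mul, Complex.norm_real, Real.norm_eq_abs]
    exact Real.abs_tanh_lt_one t
  have h5 : ContDiff ℝ 2 (fun t : ℝ => φ (c * (Real.tanh t : ℂ))) := h2.comp_contDiff h3 h4
  have h6 : ContDiff ℝ 2 (fun t : ℝ => q (φ (c * (Real.tanh t : ℂ)))) := by
    unfold q
    exact (contDiff_const.sub (h5.fst.norm_sq ℝ)).sub (h5.snd.norm_sq ℝ)
  refine contDiff_const.div h6 fun t => ?_
  have h7 : ‖(φ (c * (Real.tanh t : ℂ))).1‖ ^ 2 + ‖(φ (c * (Real.tanh t : ℂ))).2‖ ^ 2 < 1 :=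
    hm (h4 t)
  unfold q
  linarith

theorem growth_calc {e : ℝ → ℝ} (he : ContDiff ℝ 2 e) (h0 : e 0 = 1) (h1 : ∀ t, 1 ≤ e t) {C : ℝ}
    (h2 : ∀ t, 0 ≤ t → 2 * C ≤ deriv (deriv e) t) : ∀ t, 0 ≤ t → 1 + C * t ^ 2 ≤ e t := by
  have hd0 : deriv e 0 = 0 := by
    apply IsLocalMin.deriv_eq_zero
    exact Filter.Eventually.of_forall fun t => by rw [h0]; exact h1 t
  have hde : Differentiable ℝ e := he.differentiable (by norm_num)
  have he1 : ContDiff ℝ 1 (deriv e) := by
    have : ContDiff ℝ (1 + 1) e := by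
      have h : (1 + 1 : WithTop ℕ∞) = 2 := by norm_num
      rw [h]; exact he
    exact (contDiff_succ_iff_deriv.1 this).2.2
  have hdd : Differentiable ℝ (deriv e) := he1.differentiable (by norm_num)
  have hg : ∀ t, HasDerivAt (fun t => deriv e t - 2 * C * t) (deriv (deriv e) t - 2 * C) t := by
    intro t
    have h3 := ((hasDerivAt_id t).const_mul (2 * C))
    rw [mul_one] at h3
    exact (hdd t).hasDerivAt.sub h3
  have hgm : MonotoneOn (fun t => deriv e t - 2 * C * t) (Ici 0) := by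
    apply monotoneOn_of_deriv_nonneg (convex_Ici 0)
    · exact fun t _ => (hg t).continuousAt.continuousWithinAt
    · exact fun t _ => (hg t).differentiableAt.differentiableWithinAt
    · intro t ht
      rw [(hg t).deriv]
      rw [interior_Ici] at ht
      have := h2 t (le_of_lt ht)
      linarith
  have hf : ∀ t, HasDerivAt (fun t => e t - C * t ^ 2) (deriv e t - 2 * C * t) t := by
    intro t
    have h3 : HasDerivAt (fun t : ℝ => C * t ^ 2) (2 * C * t) t := by
      have h5 := (hasDerivAt_pow 2 t).const_mul C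
      have e : C * (((2 : ℕ) : ℝ) * t ^ (2 - 1)) = 2 * C * t := by
        norm_num
        ring
      rwa [e] at h5
    exact (hde t).hasDerivAt.sub h3
  have hfm : MonotoneOn (fun t => e t - C * t ^ 2) (Ici 0) := by
    apply monotoneOn_of_deriv_nonneg (convex_Ici 0)
    · exact fun t _ => (hf t).continuousAt.continuousWithinAt
    · exact fun t _ => (hf t).differentiableAt.differentiableWithinAt
    · intro t ht
      rw [(hf t).deriv]
      rw [interior_Ici] at ht
      have h5 := hgm (mem_Ici.2 le_rfl) (mem_Ici.2 (le_of_lt ht)) (le_of_lt ht)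
      simp only [mul_zero, sub_zero, hd0] at h5
      exact h5
  intro t ht
  have h6 := hfm (mem_Ici.2 le_rfl) (mem_Ici.2 ht) ht
  simp only [h0] at h6
  norm_num at h6
  linarith

end Pool.Agent.Helper326.HB
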