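import Mathlib
import Pool.Agent.Helper326.HB.Defs
import Pool.Agent.Helper326.HB.A1
import Pool.Agent.Helper326.HB.A2
import Pool.Agent.Helper326.HB.A3
import Pool.Agent.Helper326.HB.P1
import Pool.Agent.Helper326.HB.P4
import Pool.Agent.Helper326.HB.P5a
import Pool.Agent.Helper326.HB.P5b

set_option autoImplicit false
open Complex Metric Set Filter Topology Matrix

namespace Pool.Agent.Helper326.HB

theorem not_retract_zero : (0 : ℂ × ℂ) ∈ B2 := by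
  simp [B2]

theorem not_retract_schwarz {R : ℂ × ℂ → ℂ} (hR : DifferentiableOn ℂ R B2)
    (hRm : MapsTo R B2 (ball 0 1)) (hR0 : R 0 = 0) (v : ℂ × ℂ) (hv : fderiv ℂ R 0 v = 1) :
    1 ≤ ‖v.1‖ ^ 2 + ‖v.2‖ ^ 2 := by
  set N := √(‖v.1‖ ^ 2 + ‖v.2‖ ^ 2) with hN
  have hs : N ^ 2 = ‖v.1‖ ^ 2 + ‖v.2‖ ^ 2 := Real.sq_sqrt (by positivity)
  have hN0 : 0 ≤ N := Real.sqrt_nonneg _
  have hNpos : 0 < N := by
    rcases hN0.lt_or_eq with h | h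
    · exact h
    · exfalso
      rw [← h] at hs
      have h1 : ‖v.1‖ = 0 := by nlinarith [norm_nonneg v.1, norm_nonneg v.2]
      have h2 : ‖v.2‖ = 0 := by nlinarith [norm_nonneg v.1, norm_nonneg v.2]
      have : v = 0 := Prod.ext (norm_eq_zero.1 h1) (norm_eq_zero.1 h2)
      rw [this, map_zero] at hv
      exact zero_ne_one hv
  let u : ℂ × ℂ := ((N : ℂ)⁻¹) • v
  have hmem : ∀ ζ ∈ ball (0 : ℂ) 1, ζ • u ∈ B2 := by
    intro ζ hζ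
    have h1 : ‖ζ‖ < 1 := by simpa using hζ
    show ‖(ζ • u).1‖ ^ 2 + ‖(ζ • u).2‖ ^ 2 < 1
    have e1 : ‖(ζ • u).1‖ = ‖ζ‖ * (N⁻¹ * ‖v.1‖) := by
      simp [u, abs_of_pos hNpos]
    have e2 : ‖(ζ • u).2‖ = ‖ζ‖ * (N⁻¹ * ‖v.2‖) := by
      simp [u, abs_of_pos hNpos]
    rw [e1, e2]
    have e3 : (‖ζ‖ * (N⁻¹ * ‖v.1‖)) ^ 2 + (‖ζ‖ * (N⁻¹ * ‖v.2‖)) ^ 2 = ‖ζ‖ ^ 2 := by
      have : (‖ζ‖ * (N⁻¹ * ‖v.1‖)) ^ 2 + (‖ζ‖ * (N⁻¹ * ‖v.2‖)) ^ 2 =
          ‖ζ‖ ^ 2 * (N⁻¹ ^ 2 * (‖v.1‖ ^ 2 + ‖v.2‖ ^ 2)) := by ring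
      rw [this, ← hs, ← mul_pow, inv_mul_cancel₀ hNpos.ne']
      ring
    rw [e3]
    nlinarith [norm_nonneg ζ]
  let h : ℂ → ℂ := fun ζ => R (ζ • u)
  have hlin : Differentiable ℂ (fun ζ : ℂ => ζ • u) := by fun_prop
  have hh : DifferentiableOn ℂ h (ball 0 1) := hR.comp hlin.differentiableOn hmem
  have hhm : MapsTo h (ball 0 1) (ball 0 1) := fun ζ hζ => hRm (hmem ζ hζ)
  have hh0 : h 0 = 0 := by simp [h, hR0]
  have hd : ‖deriv h 0‖ ≤ 1 := by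
    have hhm' : MapsTo h (ball 0 1) (closedBall (h 0) 1) := by
      intro z hz
      rw [hh0]
      exact ball_subset_closedBall (hhm hz)
    have := Complex.norm_deriv_le_div_of_mapsTo_ball hh hhm' one_pos
    simpa using this
  have hRat : HasFDerivAt R (fderiv ℂ R 0) ((0 : ℂ) • u) := by
    rw [zero_smul]
    exact ((hR 0 not_retract_zero).differentiableAt (isOpen_B2.mem_nhds not_retract_zero)).hasFDerivAt
  have hu : HasDerivAt (fun ζ : ℂ => ζ • u) u 0 := by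
    simpa using (hasDerivAt_id (0 : ℂ)).smul_const u
  have hch : HasDerivAt h (fderiv ℂ R 0 u) 0 := hRat.comp_hasDerivAt (0 : ℂ) hu
  rw [hch.deriv] at hd
  have e4 : fderiv ℂ R 0 u = (N : ℂ)⁻¹ := by
    simp only [u, map_smul, hv, smul_eq_mul, mul_one]
  rw [e4, norm_inv, Complex.norm_real, Real.norm_eq_abs, abs_of_pos hNpos] at hd
  have hN1 : 1 ≤ N := by
    rw [inv_le_one_iff₀] at hd
    rcases hd with h | h
    · linarith
    · exact h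
  rw [← hs]
  nlinarith

theorem not_retract {F : ℂ → ℂ × ℂ} (hF : DifferentiableOn ℂ F (ball 0 1))
    (hm : MapsTo F (ball 0 1) B2) {y₀ : ℂ} (hy₀ : y₀ ∈ ball (0 : ℂ) 1) (hWy₀ : Wr F y₀ ≠ 0) :
    ¬ ∃ r : ℂ × ℂ → ℂ, DifferentiableOn ℂ r B2 ∧ MapsTo r B2 (ball 0 1) ∧
      ∀ y ∈ ball (0 : ℂ) 1, r (F y) = y := by
  rintro ⟨r, hr, hrm, hrF⟩
  obtain ⟨g, hg, hg0⟩ := exists_mob_zero hy₀
  obtain ⟨A, hA, hA0⟩ := exists_act_zero (hm hy₀)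
  have hgi := (U2_inv hg).1
  have hAi := (U3_inv hA).1
  have hmob : ∀ {k : Matrix (Fin 2) (Fin 2) ℂ}, U2 k → DifferentiableOn ℂ (mob k) (ball 0 1) :=
    fun hk y hy => (mob_hasDerivAt hk hy).differentiableAt.differentiableWithinAt
  let Φ : ℂ → ℂ × ℂ := fun t => act A (F (mob g t))
  let R : ℂ × ℂ → ℂ := fun x => mob g⁻¹ (r (act A⁻¹ x))
  have hΦ : DifferentiableOn ℂ Φ (ball 0 1) :=
    (act_differentiableOn hA).comp (hF.comp (hmob hg) fun y hy => mob_mem hg hy)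
      fun y hy => hm (mob_mem hg hy)
  have hΦm : MapsTo Φ (ball 0 1) B2 := fun y hy => act_mem hA (hm (mob_mem hg hy))
  have hΦ0 : Φ 0 = 0 := by
    show act A (F (mob g 0)) = 0
    rw [hg0, hA0]
  have hR : DifferentiableOn ℂ R B2 :=
    (hmob hgi).comp (hr.comp (act_differentiableOn hAi) fun x hx => act_mem hAi hx)
      fun x hx => hrm (act_mem hAi hx)
  have hRm : MapsTo R B2 (ball 0 1) := fun x hx => mob_mem hgi (hrm (act_mem hAi hx))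
  have hRΦ : ∀ y ∈ ball (0 : ℂ) 1, R (Φ y) = y := by
    intro y hy
    show mob g⁻¹ (r (act A⁻¹ (act A (F (mob g y))))) = y
    rw [(act_inv_act hA (hm (mob_mem hg hy))).1, hrF _ (mob_mem hg hy), (mob_inv_mob hg hy).1]
  have h00 : (0 : ℂ) ∈ ball (0 : ℂ) 1 := by simp
  have hR0 : R 0 = 0 := by
    have := hRΦ 0 h00
    rwa [hΦ0] at this
  have hnhds : ball (0 : ℂ) 1 ∈ 𝓝 (0 : ℂ) := isOpen_ball.mem_nhds h00
  have hΦat : HasDerivAt Φ (deriv Φ 0) 0 := ((hΦ 0 h00).differentiableAt hnhds).hasDerivAt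
  have hRat : HasFDerivAt R (fderiv ℂ R 0) (Φ 0) := by
    rw [hΦ0]
    exact ((hR 0 not_retract_zero).differentiableAt (isOpen_B2.mem_nhds not_retract_zero)).hasFDerivAt
  have hch : HasDerivAt (R ∘ Φ) (fderiv ℂ R 0 (deriv Φ 0)) 0 := hRat.comp_hasDerivAt (0 : ℂ) hΦat
  have hid : HasDerivAt (R ∘ Φ) 1 0 := by
    refine (hasDerivAt_id (0 : ℂ)).congr_of_eventuallyEq ?_
    filter_upwards [hnhds] with y hy
    exact hRΦ y hy
  have hv : fderiv ℂ R 0 (deriv Φ 0) = 1 := hch.unique hid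
  have h1 := not_retract_schwarz hR hRm hR0 _ hv
  have h2 : Wr Φ 0 = 0 := schwarz_eq hΦ hΦm hΦ0 h1
  have h3 := (kap_inv hF hm hg hA h00 0).2.2
  rw [hg0] at h3
  exact hWy₀ (h3.1 h2)

end Pool.Agent.Helper326.HB
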