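import Mathlib
import Pool.Agent.Helper326.HB.Defs
import Pool.Agent.Helper326.HB.A1
import Pool.Agent.Helper326.HB.A2
import Pool.Agent.Helper326.HB.A3
import Pool.Agent.Helper326.HB.P1
import Pool.Agent.Helper326.HB.P4
import Pool.Agent.Helper326.HB.P5a
import Pool.Agent.Helper326.HB.P5b

set_option autoImplicit false
open Complex Metric Set Filter Topology Matrix

namespace Pool.Agent.Helper326.HB

theorem Wr_congr {f g : ℂ → ℂ × ℂ} {y : ℂ} (h : f =ᶠ[𝓝 y] g) : Wr f y = Wr g y := by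
  unfold Wr
  rw [h.deriv_eq, h.deriv.deriv_eq]

theorem Wr_pair {F : ℂ → ℂ × ℂ} (hF : DifferentiableOn ℂ F (ball 0 1))
    (hm : MapsTo F (ball 0 1) B2) {g : Matrix (Fin 2) (Fin 2) ℂ} {A : Matrix (Fin 3) (Fin 3) ℂ}
    (hP : Pair F g A) {x : ℂ} (hx : x ∈ ball (0 : ℂ) 1) (hW : Wr F x = 0) :
    Wr F (mob g x) = 0 := by
  obtain ⟨hg, hA, hfx⟩ := hP
  have h := ((kap_inv hF hm hg (U3_inv hA).1 hx 0).2.2).1
  apply h
  rw [← hW]
  apply Wr_congr
  filter_upwards [isOpen_ball.mem_nhds hx] with t ht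
  show act A⁻¹ (F (mob g t)) = F t
  rw [hfx t ht, (act_inv_act hA (hm ht)).1]

/-- TARGET 1. `Wr F` is invariant up to nonzero factors under pairs (kap_inv), `Wr F 0 = 0`; by the covering
property there is a pair `(g,A)` with `mob g 0 ≠ 0` (take `y` with `‖y‖` close to `1`: `pd (mob g 0) y = pd 0 x ≤ ρ < 1`
for `x ∈ C`). -/
theorem second_zero {F : ℂ → ℂ × ℂ} (hF : DifferentiableOn ℂ F (ball 0 1))
    (hm : MapsTo F (ball 0 1) B2) {C : Set ℂ} (hC : Cover F C) (hW0 : Wr F 0 = 0) :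
    ∃ z₁ ∈ ball (0 : ℂ) 1, z₁ ≠ 0 ∧ Wr F z₁ = 0 := by
  obtain ⟨hCc, hCb, hcov⟩ := hC
  obtain ⟨ρ, hρ0, hρ1, hρ⟩ : ∃ ρ : ℝ, 0 ≤ ρ ∧ ρ < 1 ∧ ∀ x ∈ C, ‖x‖ ≤ ρ := by
    rcases C.eq_empty_or_nonempty with h | hne
    · exact ⟨0, le_rfl, one_pos, fun x hx => by rw [h] at hx; exact hx.elim⟩
    · obtain ⟨x, hx, hmax⟩ := hCc.exists_isMaxOn hne continuous_norm.continuousOn
      refine ⟨‖x‖, norm_nonneg _, by simpa using hCb hx, fun y hy => hmax hy⟩
  set r : ℝ := (1 + ρ) / 2 with hr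
  have hr1 : r < 1 := by rw [hr]; linarith
  have hr2 : ρ < r := by rw [hr]; linarith
  have hry : ((r : ℂ)) ∈ ball (0 : ℂ) 1 := by
    rw [mem_ball_zero_iff, Complex.norm_real, Real.norm_of_nonneg (by linarith)]
    exact hr1
  obtain ⟨x, hxC, g, A, hP, hgx⟩ := hcov _ hry
  have h0 : (0 : ℂ) ∈ ball (0 : ℂ) 1 := by simp
  refine ⟨mob g 0, mob_mem hP.1 h0, ?_, Wr_pair hF hm hP h0 hW0⟩
  intro hz
  have h1 := mob_pd hP.1 (hCb hxC) h0
  rw [hgx, hz] at h1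
  have h2 : ∀ z : ℂ, pd z 0 = ‖z‖ := by intro z; simp [pd]
  rw [h2, h2, Complex.norm_real, Real.norm_of_nonneg (by linarith)] at h1
  have := hρ x hxC
  linarith

theorem analytic_Wr {F : ℂ → ℂ × ℂ} (hF : DifferentiableOn ℂ F (ball 0 1)) :
    AnalyticOnNhd ℂ (Wr F) (ball 0 1) := by
  have h1 := hF.deriv isOpen_ball
  have h2 := h1.deriv isOpen_ball
  apply DifferentiableOn.analyticOnNhd _ isOpen_ball
  exact (h1.fst.mul h2.snd).sub (h1.snd.mul h2.fst)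

theorem isolate {F : ℂ → ℂ × ℂ} (hF : DifferentiableOn ℂ F (ball 0 1))
    (hm : MapsTo F (ball 0 1) B2) (hinj : InjOn F (ball 0 1))
    (hprop : ∀ K : Set (ℂ × ℂ), IsCompact K → K ⊆ B2 →
        ∃ r : ℝ, 0 ≤ r ∧ r < 1 ∧ ∀ y ∈ ball (0 : ℂ) 1, F y ∈ K → ‖y‖ ≤ r)
    {y₀ : ℂ} (hy₀ : y₀ ∈ ball (0 : ℂ) 1) (hWy₀ : Wr F y₀ ≠ 0) {w : ℂ} (hw : w ∈ ball (0 : ℂ) 1) :
    ∃ ε : ℝ, 0 < ε ∧ ∀ z ∈ ball (0 : ℂ) 1, Wr F z = 0 → ‖F z - F w‖ < ε → z = w := by
  have hA := analytic_Wr hF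
  have hiso : ∀ᶠ z in 𝓝[≠] w, Wr F z ≠ 0 := by
    rcases (hA w hw).eventually_eq_zero_or_eventually_ne_zero with h | h
    · exact absurd (hA.eqOn_zero_of_preconnected_of_eventuallyEq_zero
        (convex_ball _ _).isPreconnected hw h hy₀) hWy₀
    · exact h
  rw [eventually_nhdsWithin_iff] at hiso
  obtain ⟨U, hUsub, hUo, hwU⟩ := _root_.mem_nhds_iff.1 hiso
  obtain ⟨K, hKn, hKB, hKc⟩ := local_compact_nhds (isOpen_B2.mem_nhds (hm hw))
  obtain ⟨r, hr0, hr1, hr⟩ := hprop K hKc hKB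
  set K' : Set ℂ := closedBall 0 r \ U with hK'
  have hK'c : IsCompact K' := (isCompact_closedBall _ _).diff hUo
  have hK'b : K' ⊆ ball 0 1 := fun z hz => by
    have := hz.1
    rw [mem_closedBall_zero_iff] at this
    rw [mem_ball_zero_iff]; linarith
  have hc : ContinuousOn F K' := hF.continuousOn.mono hK'b
  have hcomp : IsCompact (F '' K') := hK'c.image_of_continuousOn hc
  have hnot : F w ∉ F '' K' := by
    rintro ⟨z, hz, hzw⟩
    have := hinj (hK'b hz) hw hzw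
    rw [this] at hz
    exact hz.2 hwU
  have hopen : (F '' K')ᶜ ∈ 𝓝 (F w) := hcomp.isClosed.isOpen_compl.mem_nhds hnot
  obtain ⟨ε, hε, hεs⟩ := Metric.mem_nhds_iff.1 (inter_mem hopen hKn)
  refine ⟨ε, hε, fun z hz hWz hd => ?_⟩
  have hmem : F z ∈ ball (F w) ε := by rw [mem_ball, dist_eq_norm]; exact hd
  have h1 := hεs hmem
  have hzr := hr z hz h1.2
  by_contra hne
  have hzU : z ∈ U := by
    by_contra hzU
    exact h1.1 ⟨z, ⟨mem_closedBall_zero_iff.2 hzr, hzU⟩, rfl⟩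
  exact hUsub hzU hne hWz

/-- TARGET 2. If `act A` almost fixes the two points `F 0`, `F z₁` then `mob g` fixes `0` and `z₁` (zeros of
`Wr F` are isolated, and `F` is a closed embedding), so `mob g = id`, so `act A` fixes `F '' ball`,
which is not contained in a complex affine line since `Wr F ≠ 0` somewhere, so `act A = id` (U3_scalar). -/
theorem discrete_core {F : ℂ → ℂ × ℂ} (hF : DifferentiableOn ℂ F (ball 0 1))
    (hm : MapsTo F (ball 0 1) B2) (hinj : InjOn F (ball 0 1))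
    (hprop : ∀ K : Set (ℂ × ℂ), IsCompact K → K ⊆ B2 →
        ∃ r : ℝ, 0 ≤ r ∧ r < 1 ∧ ∀ y ∈ ball (0 : ℂ) 1, F y ∈ K → ‖y‖ ≤ r)
    (hW0 : Wr F 0 = 0) {z₁ : ℂ} (hz₁ : z₁ ∈ ball (0 : ℂ) 1) (hz₁0 : z₁ ≠ 0) (hWz₁ : Wr F z₁ = 0)
    {y₀ : ℂ} (hy₀ : y₀ ∈ ball (0 : ℂ) 1) (hWy₀ : Wr F y₀ ≠ 0) :
    ∃ ε : ℝ, 0 < ε ∧ ∀ g A, Pair F g A → ‖act A (F 0) - F 0‖ < ε → ‖act A (F z₁) - F z₁‖ < ε →
      (∀ x ∈ ball (0 : ℂ) 1, mob g x = x) ∧ ∀ x ∈ B2, act A x = x := by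
  have h0 : (0 : ℂ) ∈ ball (0 : ℂ) 1 := by simp
  obtain ⟨ε₁, hε₁, h₁⟩ := isolate hF hm hinj hprop hy₀ hWy₀ h0
  obtain ⟨ε₂, hε₂, h₂⟩ := isolate hF hm hinj hprop hy₀ hWy₀ hz₁
  refine ⟨min ε₁ ε₂, lt_min hε₁ hε₂, fun g A hP hd0 hd1 => ?_⟩
  obtain ⟨hg, hA, hfx⟩ := id hP
  have hg0 : mob g 0 = 0 := by
    apply h₁ _ (mob_mem hg h0) (Wr_pair hF hm hP h0 hW0)
    rw [hfx 0 h0]
    exact hd0.trans_le (min_le_left _ _)
  have hg1 : mob g z₁ = z₁ := by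
    apply h₂ _ (mob_mem hg hz₁) (Wr_pair hF hm hP hz₁ hWz₁)
    rw [hfx z₁ hz₁]
    exact hd1.trans_le (min_le_right _ _)
  have hden0 : g 0 0 ≠ 0 := by simpa using mob_den_ne hg h0
  have h10 : g 1 0 = 0 := by
    have : g 1 0 / g 0 0 = 0 := by simpa [mob] using hg0
    rcases div_eq_zero_iff.1 this with h | h
    · exact h
    · exact absurd h hden0
  have h01 : g 0 1 = 0 := by
    have h := congrFun (congrFun hg 0) 1
    simp [J2, Matrix.mul_apply, Fin.sum_univ_two, Matrix.diagonal, h10] at h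
    rcases h with h | h
    · exact absurd h hden0
    · exact h
  have hall : ∀ x : ℂ, mob g x = x := by
    intro x
    have h1 : g 1 1 * z₁ / g 0 0 = z₁ := by simpa [mob, h10, h01] using hg1
    have h2 : g 1 1 = g 0 0 := by
      rw [div_eq_iff hden0] at h1
      have : (g 1 1 - g 0 0) * z₁ = 0 := by linear_combination h1
      rcases mul_eq_zero.1 this with h | h
      · exact sub_eq_zero.1 h
      · exact absurd h hz₁0
    simp only [mob, h10, h01, h2, zero_add, zero_mul, add_zero]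
    field_simp
  refine ⟨fun x _ => hall x, ?_⟩
  apply U3_scalar hA (F '' ball 0 1)
  · rintro _ ⟨x, hx, rfl⟩; exact hm hx
  · exact (convex_ball _ _).isPreconnected.image _ hF.continuousOn
  · rintro _ ⟨x, hx, rfl⟩
    rw [← hfx x hx, hall]
  · intro a b c habc
    set ℓ : ℂ × ℂ →L[ℂ] ℂ := b • ContinuousLinearMap.fst ℂ ℂ ℂ + c • ContinuousLinearMap.snd ℂ ℂ ℂ
      with hℓ
    have hℓa : ∀ v : ℂ × ℂ, ℓ v = b * v.1 + c * v.2 := fun v => by simp [hℓ]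
    have e0 : ∀ x ∈ ball (0 : ℂ) 1, ℓ (F x) = -a := by
      intro x hx
      have := habc _ ⟨x, hx, rfl⟩
      rw [hℓa]; linear_combination this
    have hstep : ∀ (G : ℂ → ℂ × ℂ) (d : ℂ), DifferentiableOn ℂ G (ball 0 1) →
        (∀ x ∈ ball (0 : ℂ) 1, ℓ (G x) = d) → ∀ x ∈ ball (0 : ℂ) 1, ℓ (deriv G x) = 0 := by
      intro G d hG hGd x hx
      have hd1 : HasDerivAt G (deriv G x) x :=
        ((hG x hx).differentiableAt (isOpen_ball.mem_nhds hx)).hasDerivAt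
      have hd2 : HasDerivAt (fun t => ℓ (G t)) (ℓ (deriv G x)) x :=
        ℓ.hasFDerivAt.comp_hasDerivAt x hd1
      have hd3 : HasDerivAt (fun t => ℓ (G t)) 0 x := by
        refine (hasDerivAt_const x d).congr_of_eventuallyEq ?_
        filter_upwards [isOpen_ball.mem_nhds hx] with t ht using hGd t ht
      exact hd2.unique hd3
    have e1 := hstep F (-a) hF e0
    have e2 := hstep (deriv F) 0 (hF.deriv isOpen_ball) e1
    have f1 := e1 y₀ hy₀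
    have f2 := e2 y₀ hy₀
    rw [hℓa] at f1 f2
    unfold Wr at hWy₀
    have hb : b = 0 := by
      have : b * ((deriv F y₀).1 * (deriv (deriv F) y₀).2 - (deriv F y₀).2 * (deriv (deriv F) y₀).1) = 0 := by
        linear_combination (deriv (deriv F) y₀).2 * f1 - (deriv F y₀).2 * f2
      exact (mul_eq_zero.1 this).resolve_right hWy₀
    have hc : c = 0 := by
      have : c * ((deriv F y₀).1 * (deriv (deriv F) y₀).2 - (deriv F y₀).2 * (deriv (deriv F) y₀).1) = 0 := by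
        linear_combination (deriv F y₀).1 * f2 - (deriv (deriv F) y₀).1 * f1
      exact (mul_eq_zero.1 this).resolve_right hWy₀
    refine ⟨?_, hb, hc⟩
    have := habc _ ⟨0, h0, rfl⟩
    simpa [hb, hc] using this

end Pool.Agent.Helper326.HB
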