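import Mathlib

set_option autoImplicit false
open Complex Metric Set Filter Topology Matrix

namespace Pool.Agent.Helper326.ProperBall

/-- The open unit ball `𝔹ᵏ` of `ℂᵏ`. -/
abbrev Bk (k : ℕ) : Type := {z : EuclideanSpace ℂ (Fin k) // ‖z‖ < 1}

/-- A map between unit balls is holomorphic if it is the restriction of a map which is complex
differentiable on the open unit ball. -/
def IsHolo {n N : ℕ} (f : Bk n → Bk N) : Prop :=
  ∃ F : EuclideanSpace ℂ (Fin n) → EuclideanSpace ℂ (Fin N),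
    DifferentiableOn ℂ F (ball 0 1) ∧ ∀ z : Bk n, F z = f z

/-- Proper holomorphic embedding `𝔹ⁿ → 𝔹ᴺ`: holomorphic, injective, with injective differential at
every point, and preimages of compact sets are compact. -/
def IsProperHoloEmbedding {n N : ℕ} (f : Bk n → Bk N) : Prop :=
  (∃ F : EuclideanSpace ℂ (Fin n) → EuclideanSpace ℂ (Fin N),
    DifferentiableOn ℂ F (ball 0 1) ∧ (∀ z : Bk n, F z = f z) ∧
      ∀ z : Bk n, Function.Injective (fderiv ℂ F (z : EuclideanSpace ℂ (Fin n)))) ∧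
  Function.Injective f ∧
  ∀ K : Set (Bk N), IsCompact K → IsCompact (f ⁻¹' K)

/-- `Aut(𝔹ᵏ)`: the group of biholomorphic self-maps of the ball. -/
def AutB (k : ℕ) : Subgroup (Bk k ≃ₜ Bk k) where
  carrier := {γ | IsHolo (γ : Bk k → Bk k) ∧ IsHolo (γ.symm : Bk k → Bk k)}
  mul_mem' := by
    rintro a b ⟨⟨A, hA, hA'⟩, A₂, hA₂, hA₂'⟩ ⟨⟨B, hB, hB'⟩, B₂, hB₂, hB₂'⟩
    refine ⟨⟨A ∘ B, hA.comp hB ?_, fun z => ?_⟩, B₂ ∘ A₂, hB₂.comp hA₂ ?_, fun z => ?_⟩
    · intro z hz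
      have hz' : ‖z‖ < 1 := by simpa using hz
      have := (b ⟨z, hz'⟩).2
      rw [← hB' ⟨z, hz'⟩] at this
      simpa using this
    · show A (B z) = _
      rw [hB', hA']
      rfl
    · intro z hz
      have hz' : ‖z‖ < 1 := by simpa using hz
      have := (a.symm ⟨z, hz'⟩).2
      rw [← hA₂' ⟨z, hz'⟩] at this
      simpa using this
    · show B₂ (A₂ z) = _
      rw [hA₂', hB₂']
      rfl
  one_mem' := ⟨⟨id, differentiableOn_id, fun z => rfl⟩, id, differentiableOn_id, fun z => rfl⟩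
  inv_mem' := by
    rintro a ⟨h1, h2⟩
    exact ⟨h2, h1⟩

/-- A subgroup of `Aut(𝔹ᵏ)` is discrete if it is discrete in the compact-open topology. -/
def IsDiscreteSubgroup {k : ℕ} (Γ : Subgroup (Bk k ≃ₜ Bk k)) : Prop :=
  DiscreteTopology {c : C(Bk k, Bk k) | ∃ γ ∈ Γ, c = (γ : C(Bk k, Bk k))}

/-- The orbit equivalence relation of `Γ` on a subset `S` of the ball. -/
def orbitSetoid {k : ℕ} (Γ : Subgroup (Bk k ≃ₜ Bk k)) (S : Set (Bk k)) : Setoid S where
  r x y := ∃ γ ∈ Γ, γ (x : Bk k) = y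
  iseqv := {
    refl := fun x => ⟨1, Γ.one_mem, rfl⟩
    symm := by
      rintro x y ⟨γ, hγ, h⟩
      refine ⟨γ⁻¹, Γ.inv_mem hγ, ?_⟩
      rw [← h]
      exact γ.symm_apply_apply _
    trans := by
      rintro x y z ⟨γ, hγ, h⟩ ⟨γ', hγ', h'⟩
      refine ⟨γ' * γ, Γ.mul_mem hγ' hγ, ?_⟩
      rw [← h', ← h]
      rfl }

/-- The standard linear inclusion `z ↦ (z, 0)`. -/
def IsStdInclusion {n N : ℕ} (f : Bk n → Bk N) : Prop :=
  ∀ (z : Bk n) (i : Fin N), (f z : EuclideanSpace ℂ (Fin N)) i =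
    if h : (i : ℕ) < n then (z : EuclideanSpace ℂ (Fin n)) ⟨i, h⟩ else 0

/-- `f` is linear up to automorphisms of the source and of the target. -/
def IsLinearUpToAut {n N : ℕ} (f : Bk n → Bk N) : Prop :=
  ∃ φ ∈ AutB N, ∃ ψ ∈ AutB n, IsStdInclusion (fun z => φ (f (ψ z)))

end Pool.Agent.Helper326.ProperBall
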