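import Mathlib
import Pool.Agent.Helper326.HB.Defs
import Pool.Agent.Helper326.HB.PB
import Pool.Agent.Helper326.HB.A1
import Pool.Agent.Helper326.HB.A2
import Pool.Agent.Helper326.HB.A3
import Pool.Agent.Helper326.HB.FA1
import Pool.Agent.Helper326.HB.P1
import Pool.Agent.Helper326.HB.P4
import Pool.Agent.Helper326.HB.P5a
import Pool.Agent.Helper326.HB.P5b
import Pool.Agent.Helper326.HB.P7

set_option autoImplicit false
open Complex Metric Set Filter Topology Matrix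

namespace Pool.Agent.Helper326.HB

section FinalAssemblyAux

open Pool.Agent.Helper326.ProperBall

/-- coordinates -/
noncomputable def faP (v : EuclideanSpace ℂ (Fin 2)) : ℂ × ℂ := (v 0, v 1)

/-- from coordinates -/
noncomputable def faC (p : ℂ × ℂ) : EuclideanSpace ℂ (Fin 2) := WithLp.toLp 2 ![p.1, p.2]

theorem faP_faC (p : ℂ × ℂ) : faP (faC p) = p := by
  simp [faP, faC]

theorem faC_faP (v : EuclideanSpace ℂ (Fin 2)) : faC (faP v) = v := by
  ext i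
  fin_cases i <;> simp [faP, faC]

/-- `faP` as a continuous linear map -/
noncomputable def faPL : EuclideanSpace ℂ (Fin 2) →L[ℂ] ℂ × ℂ :=
  (EuclideanSpace.proj (0 : Fin 2)).prod (EuclideanSpace.proj (1 : Fin 2))

theorem faPL_apply (v : EuclideanSpace ℂ (Fin 2)) : faPL v = faP v := rfl

/-- `faC` as a linear map -/
noncomputable def faCl : ℂ × ℂ →ₗ[ℂ] EuclideanSpace ℂ (Fin 2) where
  toFun := faC
  map_add' := by
    intro x y
    ext i
    fin_cases i <;> simp [faC]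
  map_smul' := by
    intro c x
    ext i
    fin_cases i <;> simp [faC]

/-- `faC` as a continuous linear map -/
noncomputable def faCL : ℂ × ℂ →L[ℂ] EuclideanSpace ℂ (Fin 2) := LinearMap.toContinuousLinearMap faCl

theorem faCL_apply (p : ℂ × ℂ) : faCL p = faC p := rfl

theorem faP_cont : Continuous faP := faPL.continuous

theorem faC_cont : Continuous faC := faCL.continuous

theorem faP_diff : Differentiable ℂ faP := faPL.differentiable

theorem faC_diff : Differentiable ℂ faC := faCL.differentiable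

theorem fa_norm (v : EuclideanSpace ℂ (Fin 2)) : ‖v‖ < 1 ↔ faP v ∈ B2 := by
  have h : ‖v‖ ^ 2 = ‖v 0‖ ^ 2 + ‖v 1‖ ^ 2 := by
    rw [EuclideanSpace.norm_sq_eq, Fin.sum_univ_two]
  unfold faP B2
  rw [Set.mem_setOf_eq, ← h]
  exact (sq_lt_one_iff₀ (norm_nonneg v)).symm

theorem fa_norm' (p : ℂ × ℂ) : ‖faC p‖ < 1 ↔ p ∈ B2 := by
  rw [fa_norm, faP_faC]

theorem fa_memball (p : ℂ × ℂ) (hp : p ∈ B2) : faC p ∈ ball (0 : EuclideanSpace ℂ (Fin 2)) 1 := by
  rw [mem_ball_zero_iff]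
  exact (fa_norm' p).2 hp

/-- one dimensional vector -/
noncomputable def faE (c : ℂ) : EuclideanSpace ℂ (Fin 1) := WithLp.toLp 2 ![c]

theorem faE_zero (c : ℂ) : faE c 0 = c := by simp [faE]

theorem faE_eq (v : EuclideanSpace ℂ (Fin 1)) : faE (v 0) = v := by
  ext i
  fin_cases i
  simp [faE]

theorem fa_norm1 (v : EuclideanSpace ℂ (Fin 1)) : ‖v‖ = ‖v 0‖ := by
  rw [EuclideanSpace.norm_eq, Fin.sum_univ_one, Real.sqrt_sq (norm_nonneg _)]

/-- `faE` as a linear map -/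
noncomputable def faEl : ℂ →ₗ[ℂ] EuclideanSpace ℂ (Fin 1) where
  toFun := faE
  map_add' := by
    intro x y
    ext i
    fin_cases i
    simp [faE]
  map_smul' := by
    intro c x
    ext i
    fin_cases i
    simp [faE]

theorem faE_diff : Differentiable ℂ faE := (LinearMap.toContinuousLinearMap faEl).differentiable

theorem faE_cont : Continuous faE := (LinearMap.toContinuousLinearMap faEl).continuous

theorem faE_norm (c : ℂ) : ‖faE c‖ = ‖c‖ := by rw [fa_norm1, faE_zero]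

theorem fa_coord_mem (z : Bk 1) : (z : EuclideanSpace ℂ (Fin 1)) 0 ∈ ball (0 : ℂ) 1 := by
  rw [mem_ball_zero_iff, ← fa_norm1]
  exact z.2

/-- point of the one dimensional ball -/
noncomputable def faPt (c : ℂ) (hc : c ∈ ball (0 : ℂ) 1) : Bk 1 :=
  ⟨faE c, by rw [faE_norm]; exact mem_ball_zero_iff.1 hc⟩

theorem faPt_coord (c : ℂ) (hc : c ∈ ball (0 : ℂ) 1) :
    (faPt c hc : EuclideanSpace ℂ (Fin 1)) 0 = c := faE_zero c

theorem fa_ext1 {z w : Bk 1}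
    (h : (z : EuclideanSpace ℂ (Fin 1)) 0 = (w : EuclideanSpace ℂ (Fin 1)) 0) : z = w := by
  apply Subtype.ext
  rw [← faE_eq (z : EuclideanSpace ℂ (Fin 1)), h, faE_eq]

theorem fa_ext2 {x y : Bk 2} (h : faP x = faP y) : x = y := by
  apply Subtype.ext
  rw [← faC_faP (x : EuclideanSpace ℂ (Fin 2)), h, faC_faP]

theorem fa_mem2 (x : Bk 2) : faP x ∈ B2 := (fa_norm _).1 x.2

/-- the homeomorphism given by `A` -/
noncomputable def faH (A : Matrix (Fin 3) (Fin 3) ℂ) (hA : U3 A) : Bk 2 ≃ₜ Bk 2 where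
  toFun x := ⟨faC (act A (faP x)), (fa_norm' _).2 (act_mem hA (fa_mem2 x))⟩
  invFun x := ⟨faC (act A⁻¹ (faP x)), (fa_norm' _).2 (act_mem (U3_inv hA).1 (fa_mem2 x))⟩
  left_inv x := by
    apply fa_ext2
    show faP (faC (act A⁻¹ (faP (faC (act A (faP x)))))) = faP x
    rw [faP_faC, faP_faC]
    exact (act_inv_act hA (fa_mem2 x)).1
  right_inv x := by
    apply fa_ext2
    show faP (faC (act A (faP (faC (act A⁻¹ (faP x)))))) = faP x
    rw [faP_faC, faP_faC]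
    exact (act_inv_act hA (fa_mem2 x)).2
  continuous_toFun := by
    apply Continuous.subtype_mk
    apply faC_cont.comp
    exact (act_differentiableOn hA).continuousOn.comp_continuous
      (faP_cont.comp continuous_subtype_val) (fun x => fa_mem2 x)
  continuous_invFun := by
    apply Continuous.subtype_mk
    apply faC_cont.comp
    exact (act_differentiableOn (U3_inv hA).1).continuousOn.comp_continuous
      (faP_cont.comp continuous_subtype_val) (fun x => fa_mem2 x)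

theorem faH_apply (A : Matrix (Fin 3) (Fin 3) ℂ) (hA : U3 A) (x : Bk 2) :
    faP (faH A hA x) = act A (faP x) := by
  show faP (faC (act A (faP x))) = _
  rw [faP_faC]

theorem fa_pair_mul {F : ℂ → ℂ × ℂ} (hm : MapsTo F (ball 0 1) B2)
    {g h : Matrix (Fin 2) (Fin 2) ℂ} {A B : Matrix (Fin 3) (Fin 3) ℂ}
    (h1 : Pair F g A) (h2 : Pair F h B) : Pair F (g * h) (A * B) := by
  refine ⟨U2_mul h1.1 h2.1, U3_mul h1.2.1 h2.2.1, fun x hx => ?_⟩
  rw [mob_mul h1.1 h2.1 hx, h1.2.2 _ (mob_mem h2.1 hx), h2.2.2 x hx,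
    act_mul h1.2.1 h2.2.1 (hm hx)]

theorem fa_pair_one (F : ℂ → ℂ × ℂ) : Pair F 1 1 := by
  refine ⟨U2_one, U3_one, fun x _ => ?_⟩
  rw [mob_one, act_one]

theorem fa_pair_inv {F : ℂ → ℂ × ℂ} (hm : MapsTo F (ball 0 1) B2)
    {g : Matrix (Fin 2) (Fin 2) ℂ} {A : Matrix (Fin 3) (Fin 3) ℂ}
    (h1 : Pair F g A) : Pair F g⁻¹ A⁻¹ := by
  refine ⟨(U2_inv h1.1).1, (U3_inv h1.2.1).1, fun x hx => ?_⟩
  have hy : mob g⁻¹ x ∈ ball (0 : ℂ) 1 := mob_mem (U2_inv h1.1).1 hx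
  have h2 := h1.2.2 _ hy
  rw [(mob_inv_mob h1.1 hx).2] at h2
  rw [h2, (act_inv_act h1.2.1 (hm hy)).1]

/-- the group -/
noncomputable def faG {F : ℂ → ℂ × ℂ} (hm : MapsTo F (ball 0 1) B2) : Subgroup (Bk 2 ≃ₜ Bk 2) where
  carrier := {γ | ∃ g A, Pair F g A ∧ ∀ x : Bk 2, faP (γ x) = act A (faP x)}
  mul_mem' := by
    rintro a b ⟨g, A, h1, h2⟩ ⟨h, B, h3, h4⟩
    refine ⟨g * h, A * B, fa_pair_mul hm h1 h3, fun x => ?_⟩
    show faP (a (b x)) = _
    rw [h2, h4, act_mul h1.2.1 h3.2.1 (fa_mem2 x)]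
  one_mem' := by
    refine ⟨1, 1, fa_pair_one F, fun x => ?_⟩
    rw [act_one]
    rfl
  inv_mem' := by
    rintro a ⟨g, A, h1, h2⟩
    refine ⟨g⁻¹, A⁻¹, fa_pair_inv hm h1, fun x => ?_⟩
    have h3 := h2 (a⁻¹ x)
    have h4 : a (a⁻¹ x) = x := a.apply_symm_apply x
    rw [h4] at h3
    rw [h3, (act_inv_act h1.2.1 (fa_mem2 _)).1]

theorem faH_mem {F : ℂ → ℂ × ℂ} (hm : MapsTo F (ball 0 1) B2) {g : Matrix (Fin 2) (Fin 2) ℂ}
    {A : Matrix (Fin 3) (Fin 3) ℂ} (h : Pair F g A) : faH A h.2.1 ∈ faG hm :=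
  ⟨g, A, h, fun x => faH_apply A h.2.1 x⟩

theorem fa_holo {A : Matrix (Fin 3) (Fin 3) ℂ} (hA : U3 A) (γ : Bk 2 → Bk 2)
    (h : ∀ x : Bk 2, faP (γ x) = act A (faP x)) : IsHolo γ := by
  refine ⟨fun v => faC (act A (faP v)), ?_, fun z => ?_⟩
  · apply faC_diff.comp_differentiableOn
    apply (act_differentiableOn hA).comp faP_diff.differentiableOn
    intro v hv
    exact (fa_norm v).1 (mem_ball_zero_iff.1 hv)
  · show faC (act A (faP z)) = _
    rw [← h, faC_faP]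

theorem fa_aut {F : ℂ → ℂ × ℂ} (hm : MapsTo F (ball 0 1) B2) : faG hm ≤ AutB 2 := by
  intro γ hγ
  obtain ⟨g', A', h1', h2'⟩ := (faG hm).inv_mem hγ
  obtain ⟨g, A, h1, h2⟩ := hγ
  exact ⟨fa_holo h1.2.1 γ h2, fa_holo h1'.2.1 _ h2'⟩

/-- the map -/
noncomputable def faF {F : ℂ → ℂ × ℂ} (hm : MapsTo F (ball 0 1) B2) (z : Bk 1) : Bk 2 :=
  ⟨faC (F ((z : EuclideanSpace ℂ (Fin 1)) 0)), (fa_norm' _).2 (hm (fa_coord_mem z))⟩

theorem faF_P {F : ℂ → ℂ × ℂ} (hm : MapsTo F (ball 0 1) B2) (z : Bk 1) :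
    faP (faF hm z) = F ((z : EuclideanSpace ℂ (Fin 1)) 0) := by
  show faP (faC _) = _
  rw [faP_faC]

theorem fa_coord_cont : Continuous (fun z : Bk 1 => (z : EuclideanSpace ℂ (Fin 1)) 0) :=
  (EuclideanSpace.proj (0 : Fin 1) : EuclideanSpace ℂ (Fin 1) →L[ℂ] ℂ).continuous.comp
    continuous_subtype_val

theorem faF_cont {F : ℂ → ℂ × ℂ} (hF : DifferentiableOn ℂ F (ball 0 1))
    (hm : MapsTo F (ball 0 1) B2) : Continuous (faF hm) := by
  apply Continuous.subtype_mk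
  apply faC_cont.comp
  exact hF.continuousOn.comp_continuous fa_coord_cont (fun z => fa_coord_mem z)

theorem fa_compact_coord {K : Set ℂ} (hK : IsCompact K) (hK1 : K ⊆ ball (0 : ℂ) 1) :
    IsCompact {z : Bk 1 | (z : EuclideanSpace ℂ (Fin 1)) 0 ∈ K} := by
  have hind : Topology.IsInducing (Subtype.val : Bk 1 → EuclideanSpace ℂ (Fin 1)) := ⟨rfl⟩
  rw [hind.isCompact_iff]
  have : (Subtype.val '' {z : Bk 1 | (z : EuclideanSpace ℂ (Fin 1)) 0 ∈ K}) = faE '' K := by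
    ext v
    constructor
    · rintro ⟨z, hz, rfl⟩
      exact ⟨_, hz, faE_eq _⟩
    · rintro ⟨c, hc, rfl⟩
      refine ⟨faPt c (hK1 hc), ?_, rfl⟩
      show (faPt c (hK1 hc) : EuclideanSpace ℂ (Fin 1)) 0 ∈ K
      rw [faPt_coord]
      exact hc
  rw [this]
  exact hK.image faE_cont

theorem fa_emb {F : ℂ → ℂ × ℂ} (hF : DifferentiableOn ℂ F (ball 0 1))
    (hm : MapsTo F (ball 0 1) B2) (hinj : InjOn F (ball 0 1))
    (himm : ∀ y ∈ ball (0 : ℂ) 1, deriv F y ≠ 0)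
    (hprop : ∀ K : Set (ℂ × ℂ), IsCompact K → K ⊆ B2 →
        ∃ r : ℝ, 0 ≤ r ∧ r < 1 ∧ ∀ y ∈ ball (0 : ℂ) 1, F y ∈ K → ‖y‖ ≤ r) :
    IsProperHoloEmbedding (faF hm) := by
  let π0 : EuclideanSpace ℂ (Fin 1) →L[ℂ] ℂ :=
    EuclideanSpace.proj (0 : Fin 1)
  have hπ : ∀ v, π0 v = v 0 := fun v => rfl
  refine ⟨⟨fun v => faC (F (v 0)), ?_, fun z => rfl, fun z => ?_⟩, ?_, ?_⟩
  · apply faC_diff.comp_differentiableOn
    apply hF.comp (π0.differentiable.differentiableOn)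
    intro v hv
    show v 0 ∈ ball (0 : ℂ) 1
    rw [mem_ball_zero_iff, ← fa_norm1]
    exact mem_ball_zero_iff.1 hv
  · have hz := fa_coord_mem z
    have hFd : HasDerivAt F (deriv F ((z : EuclideanSpace ℂ (Fin 1)) 0))
        ((z : EuclideanSpace ℂ (Fin 1)) 0) :=
      (hF.differentiableAt (isOpen_ball.mem_nhds hz)).hasDerivAt
    have h1 : HasFDerivAt (fun v : EuclideanSpace ℂ (Fin 1) => F (π0 v))
        ((ContinuousLinearMap.toSpanSingleton ℂ
          (deriv F ((z : EuclideanSpace ℂ (Fin 1)) 0))).comp π0)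
        (z : EuclideanSpace ℂ (Fin 1)) :=
      HasFDerivAt.comp (g := F) (f := π0) (z : EuclideanSpace ℂ (Fin 1))
        hFd.hasFDerivAt π0.hasFDerivAt
    have h2 : HasFDerivAt (fun v : EuclideanSpace ℂ (Fin 1) => faC (F (v 0)))
        (faCL.comp ((ContinuousLinearMap.toSpanSingleton ℂ
          (deriv F ((z : EuclideanSpace ℂ (Fin 1)) 0))).comp π0))
        (z : EuclideanSpace ℂ (Fin 1)) :=
      HasFDerivAt.comp (g := faCL) (f := fun v : EuclideanSpace ℂ (Fin 1) => F (π0 v))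
        (z : EuclideanSpace ℂ (Fin 1)) faCL.hasFDerivAt h1
    rw [h2.fderiv]
    rw [injective_iff_map_eq_zero]
    intro v hv
    have h3 : faC (v 0 • deriv F ((z : EuclideanSpace ℂ (Fin 1)) 0)) = 0 := hv
    have h4 : v 0 • deriv F ((z : EuclideanSpace ℂ (Fin 1)) 0) = 0 := by
      have h5 := congrArg faP h3
      rw [faP_faC] at h5
      rw [h5]
      rfl
    have h5 : v 0 = 0 := by
      rcases smul_eq_zero.1 h4 with h | h
      · exact h
      · exact absurd h (himm _ hz)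
    rw [← faE_eq v, h5, ← norm_eq_zero, faE_norm, norm_zero]
  · intro z w h
    apply fa_ext1
    apply hinj (fa_coord_mem z) (fa_coord_mem w)
    rw [← faF_P hm z, ← faF_P hm w, h]
  · intro K hK
    have hK' : IsCompact ((fun x : Bk 2 => faP x) '' K) :=
      hK.image (faP_cont.comp continuous_subtype_val)
    obtain ⟨r, hr0, hr1, hr⟩ := hprop _ hK' (by rintro _ ⟨x, _, rfl⟩; exact fa_mem2 x)
    have hcl : IsClosed (faF hm ⁻¹' K) := hK.isClosed.preimage (faF_cont hF hm)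
    apply IsCompact.of_isClosed_subset (fa_compact_coord (isCompact_closedBall (0 : ℂ) r)
      (closedBall_subset_ball hr1)) hcl
    intro z hz
    show _ ∈ closedBall (0 : ℂ) r
    rw [mem_closedBall_zero_iff]
    apply hr _ (fa_coord_mem z)
    exact ⟨faF hm z, hz, faF_P hm z⟩

theorem fa_invariant {F : ℂ → ℂ × ℂ} (hm : MapsTo F (ball 0 1) B2) (γ : Bk 2 ≃ₜ Bk 2)
    (hγ : γ ∈ faG hm) (z : Bk 1) : ∃ z', γ (faF hm z) = faF hm z' := by
  obtain ⟨g, A, h1, h2⟩ := hγ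
  refine ⟨faPt (mob g ((z : EuclideanSpace ℂ (Fin 1)) 0)) (mob_mem h1.1 (fa_coord_mem z)), ?_⟩
  apply fa_ext2
  rw [h2, faF_P, faF_P, faPt_coord, h1.2.2 _ (fa_coord_mem z)]

theorem fa_compact_quot {F : ℂ → ℂ × ℂ} (hF : DifferentiableOn ℂ F (ball 0 1))
    (hm : MapsTo F (ball 0 1) B2) {C : Set ℂ} (hC : Cover F C) :
    CompactSpace (Quotient (orbitSetoid (faG hm) (Set.range (faF hm)))) := by
  let Q : Bk 1 → Quotient (orbitSetoid (faG hm) (Set.range (faF hm))) :=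
    fun z => Quotient.mk _ ⟨faF hm z, z, rfl⟩
  have hQ : Continuous Q := by
    apply continuous_quotient_mk'.comp
    exact (faF_cont hF hm).subtype_mk _
  have hcomp : IsCompact (Q '' {z : Bk 1 | (z : EuclideanSpace ℂ (Fin 1)) 0 ∈ C}) :=
    (fa_compact_coord hC.1 hC.2.1).image hQ
  refine ⟨?_⟩
  convert hcomp
  symm
  rw [Set.eq_univ_iff_forall]
  intro p
  induction p using Quotient.inductionOn with
  | h p =>
    obtain ⟨_, z, rfl⟩ := p
    obtain ⟨x, hx, g, A, hP, hgx⟩ := hC.2.2 _ (fa_coord_mem z)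
    have hx1 : x ∈ ball (0 : ℂ) 1 := hC.2.1 hx
    refine ⟨faPt x hx1, ?_, ?_⟩
    · show (faPt x hx1 : EuclideanSpace ℂ (Fin 1)) 0 ∈ C
      rw [faPt_coord]
      exact hx
    · apply Quotient.sound
      refine ⟨faH A hP.2.1, faH_mem hm hP, ?_⟩
      apply fa_ext2
      show faP (faH A hP.2.1 (faF hm (faPt x hx1))) = faP (faF hm z)
      rw [faH_apply, faF_P, faF_P, faPt_coord, ← hgx, hP.2.2 x hx1]

theorem fa_discrete {F : ℂ → ℂ × ℂ} (hm : MapsTo F (ball 0 1) B2) {z₁ : ℂ}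
    (hz₁ : z₁ ∈ ball (0 : ℂ) 1) {ε : ℝ} (hε : 0 < ε)
    (h : ∀ g A, Pair F g A → ‖act A (F 0) - F 0‖ < ε → ‖act A (F z₁) - F z₁‖ < ε →
      (∀ x ∈ ball (0 : ℂ) 1, mob g x = x) ∧ ∀ x ∈ B2, act A x = x) :
    IsDiscreteSubgroup (faG hm) := by
  unfold IsDiscreteSubgroup
  rw [discreteTopology_iff_isOpen_singleton]
  rintro ⟨c₀, γ₀, hγ₀, rfl⟩
  have h0 : (0 : ℂ) ∈ ball (0 : ℂ) 1 := by simp
  let P0 : Bk 2 := faF hm (faPt 0 h0)
  let P1 : Bk 2 := faF hm (faPt z₁ hz₁)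
  have hP0 : faP P0 = F 0 := by rw [faF_P, faPt_coord]
  have hP1 : faP P1 = F z₁ := by rw [faF_P, faPt_coord]
  let V : C(Bk 2, Bk 2) → Bk 2 → ℝ := fun c P => ‖faP (γ₀.symm (c P)) - faP P‖
  have hV : ∀ P, Continuous (fun c : C(Bk 2, Bk 2) => V c P) := by
    intro P
    apply Continuous.norm
    apply Continuous.sub _ continuous_const
    exact (faP_cont.comp continuous_subtype_val).comp
      (γ₀.symm.continuous.comp (continuous_eval_const P))
  have hU : IsOpen {c : C(Bk 2, Bk 2) | V c P0 < ε ∧ V c P1 < ε} :=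
    (isOpen_lt (hV P0) continuous_const).inter (isOpen_lt (hV P1) continuous_const)
  rw [isOpen_induced_iff]
  refine ⟨_, hU, ?_⟩
  ext ⟨c, hc⟩
  simp only [Set.mem_preimage, Set.mem_setOf_eq, Set.mem_singleton_iff, Subtype.mk.injEq]
  constructor
  · rintro ⟨hc0, hc1⟩
    obtain ⟨γ, hγ, rfl⟩ := hc
    have hmem : γ₀⁻¹ * γ ∈ faG hm := (faG hm).mul_mem ((faG hm).inv_mem hγ₀) hγ
    obtain ⟨g, A, hP, hA⟩ := hmem
    have hA' : ∀ x : Bk 2, faP (γ₀.symm (γ x)) = act A (faP x) := fun x => hA x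
    have e0 : ‖act A (F 0) - F 0‖ < ε := by
      rw [← hP0, ← hA']
      exact hc0
    have e1 : ‖act A (F z₁) - F z₁‖ < ε := by
      rw [← hP1, ← hA']
      exact hc1
    have hid := (h g A hP e0 e1).2
    ext1 x
    have h1 : γ₀.symm (γ x) = x := by
      apply fa_ext2
      rw [hA', hid _ (fa_mem2 x)]
    have h2 : γ x = γ₀ x := by
      rw [← h1, Homeomorph.apply_symm_apply, h1]
    exact h2
  · intro hc'
    rw [hc']
    have : ∀ P, V (γ₀ : C(Bk 2, Bk 2)) P = 0 := by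
      intro P
      show ‖faP (γ₀.symm (γ₀ P)) - faP P‖ = 0
      rw [Homeomorph.symm_apply_apply, sub_self, norm_zero]
    rw [this, this]
    exact ⟨hε, hε⟩

theorem fa_nonlin {F : ℂ → ℂ × ℂ} (hm : MapsTo F (ball 0 1) B2)
    (hr : ¬ ∃ r : ℂ × ℂ → ℂ, DifferentiableOn ℂ r B2 ∧ MapsTo r B2 (ball 0 1) ∧
      ∀ y ∈ ball (0 : ℂ) 1, r (F y) = y) : ¬ IsLinearUpToAut (faF hm) := by
  rintro ⟨φ, ⟨⟨Φ, hΦ, hΦ'⟩, _⟩, ψ, ⟨⟨Ψ, hΨ, hΨ'⟩, _⟩, hstd⟩
  apply hr
  have hcoord : ∀ p ∈ B2, ‖(Φ (faC p)) 0‖ < 1 := by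
    intro p hp
    have h1 := hΦ' ⟨faC p, (fa_norm' p).2 hp⟩
    have h2 : ‖Φ (faC p)‖ < 1 := by
      rw [show Φ (faC p) = _ from h1]
      exact (φ _).2
    have h3 : ‖(Φ (faC p)) 0‖ ≤ ‖Φ (faC p)‖ := PiLp.norm_apply_le _ _
    exact lt_of_le_of_lt h3 h2
  refine ⟨fun p => (Ψ (faE ((Φ (faC p)) 0))) 0, ?_, ?_, ?_⟩
  · have h1 : DifferentiableOn ℂ (fun p => Φ (faC p)) B2 :=
      hΦ.comp faC_diff.differentiableOn (fun p hp => fa_memball p hp)
    have h2 : DifferentiableOn ℂ (fun p => faE ((Φ (faC p)) 0)) B2 :=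
      faE_diff.comp_differentiableOn
        ((EuclideanSpace.proj (0 : Fin 2) :
          EuclideanSpace ℂ (Fin 2) →L[ℂ] ℂ).differentiable.comp_differentiableOn h1)
    have h3 : DifferentiableOn ℂ (fun p => Ψ (faE ((Φ (faC p)) 0))) B2 := by
      apply hΨ.comp h2
      intro p hp
      rw [mem_ball_zero_iff, faE_norm]
      exact hcoord p hp
    exact (EuclideanSpace.proj (0 : Fin 1) :
          EuclideanSpace ℂ (Fin 1) →L[ℂ] ℂ).differentiable.comp_differentiableOn h3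
  · intro p hp
    have h1 := hΨ' (faPt ((Φ (faC p)) 0) (mem_ball_zero_iff.2 (hcoord p hp)))
    show (Ψ (faE ((Φ (faC p)) 0))) 0 ∈ ball (0 : ℂ) 1
    rw [show Ψ (faE ((Φ (faC p)) 0)) = _ from h1]
    exact fa_coord_mem _
  · intro y hy
    show (Ψ (faE ((Φ (faC (F y))) 0))) 0 = y
    set z : Bk 1 := ψ.symm (faPt y hy) with hz
    have hψz : ψ z = faPt y hy := ψ.apply_symm_apply _
    have h1 : Φ (faC (F y)) = (φ (faF hm (ψ z)) : EuclideanSpace ℂ (Fin 2)) := by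
      rw [← hΦ' (faF hm (ψ z))]
      congr 1
      show faC (F y) = faC (F ((ψ z : EuclideanSpace ℂ (Fin 1)) 0))
      rw [hψz, faPt_coord]
    have h2 : (Φ (faC (F y))) 0 = (z : EuclideanSpace ℂ (Fin 1)) 0 := by
      rw [h1]
      have := hstd z 0
      simpa using this
    rw [h2, faE_eq, hΨ' z, hψz, faPt_coord]

theorem fa_notline {F : ℂ → ℂ × ℂ} (hF : DifferentiableOn ℂ F (ball 0 1))
    (hm : MapsTo F (ball 0 1) B2) {y₀ : ℂ} (hy₀ : y₀ ∈ ball (0 : ℂ) 1) (hWy₀ : Wr F y₀ ≠ 0) :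
    ¬ ∃ a b c : ℂ, (b ≠ 0 ∨ c ≠ 0) ∧ ∀ z, a + b * (faF hm z : EuclideanSpace ℂ (Fin 2)) 0 +
        c * (faF hm z : EuclideanSpace ℂ (Fin 2)) 1 = 0 := by
  rintro ⟨a, b, c, hbc, h⟩
  have h0 : ∀ y ∈ ball (0 : ℂ) 1, a + b * (F y).1 + c * (F y).2 = 0 := by
    intro y hy
    have h1 := h (faPt y hy)
    have h2 := faF_P hm (faPt y hy)
    rw [faPt_coord] at h2
    rw [← h2]
    exact h1
  have hd : ∀ y ∈ ball (0 : ℂ) 1, HasDerivAt F (deriv F y) y := fun y hy =>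
    (hF.differentiableAt (isOpen_ball.mem_nhds hy)).hasDerivAt
  have hd2 : ∀ y ∈ ball (0 : ℂ) 1, HasDerivAt (deriv F) (deriv (deriv F) y) y := fun y hy =>
    ((hF.deriv isOpen_ball).differentiableAt (isOpen_ball.mem_nhds hy)).hasDerivAt
  have h1 : ∀ y ∈ ball (0 : ℂ) 1, b * (deriv F y).1 + c * (deriv F y).2 = 0 := by
    intro y hy
    have e1 : HasDerivAt (fun t => (F t).1) (deriv F y).1 y := (hd y hy).fst
    have e2 : HasDerivAt (fun t => (F t).2) (deriv F y).2 y := (hd y hy).snd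
    have e3 : HasDerivAt (fun t => a + b * (F t).1 + c * (F t).2)
        (b * (deriv F y).1 + c * (deriv F y).2) y :=
      ((e1.const_mul b).const_add a).add (e2.const_mul c)
    have e4 : HasDerivAt (fun t => a + b * (F t).1 + c * (F t).2) 0 y := by
      refine (hasDerivAt_const y (0 : ℂ)).congr_of_eventuallyEq ?_
      filter_upwards [isOpen_ball.mem_nhds hy] with t ht
      exact h0 t ht
    exact e3.unique e4
  have h2 : b * (deriv (deriv F) y₀).1 + c * (deriv (deriv F) y₀).2 = 0 := by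
    have e1 : HasDerivAt (fun t => (deriv F t).1) (deriv (deriv F) y₀).1 y₀ := (hd2 y₀ hy₀).fst
    have e2 : HasDerivAt (fun t => (deriv F t).2) (deriv (deriv F) y₀).2 y₀ := (hd2 y₀ hy₀).snd
    have e3 : HasDerivAt (fun t => b * (deriv F t).1 + c * (deriv F t).2)
        (b * (deriv (deriv F) y₀).1 + c * (deriv (deriv F) y₀).2) y₀ :=
      (e1.const_mul b).add (e2.const_mul c)
    have e4 : HasDerivAt (fun t => b * (deriv F t).1 + c * (deriv F t).2) 0 y₀ := by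
      refine (hasDerivAt_const y₀ (0 : ℂ)).congr_of_eventuallyEq ?_
      filter_upwards [isOpen_ball.mem_nhds hy₀] with t ht
      exact h1 t ht
    exact e3.unique e4
  have h3 := h1 y₀ hy₀
  apply hWy₀
  unfold Wr
  rcases hbc with hb | hc
  · apply mul_left_cancel₀ hb
    linear_combination (deriv (deriv F) y₀).2 * h3 - (deriv F y₀).2 * h2
  · apply mul_left_cancel₀ hc
    linear_combination (deriv F y₀).1 * h2 - (deriv (deriv F) y₀).1 * h3

end FinalAssemblyAux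

open Pool.Agent.Helper326.ProperBall in
/-- TARGET. Hints: `f z = ` the vector with coordinates `(F (z 0)).1, (F (z 0)).2`; 
`Γ = {γ | ∃ g A, Pair F g A ∧ ∀ x, γ x = act A x (in coordinates)}` (homeomorphisms with inverse given by `A⁻¹`;
`Pair F g A → Pair F g⁻¹ A⁻¹`, products). Properness from `hprop`. Compactness of the quotient: it is the image of the
compact set `f(C)` by `Cover`. Discreteness: for `γ₀ ∈ Γ` the set of `γ` with `γ (F 0)`, `γ (F z₁)` in small balls around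
`γ₀ (F 0)`, `γ₀ (F z₁)` (so that `γ₀⁻¹ γ` satisfies the `ε` condition of `discrete_core` by continuity of `γ₀⁻¹`) is open in the compact-open
topology and contains only `γ₀`. Nonlinear: if `φ (f (ψ z)) = (z, 0)` then `r = (ψ ∘ pr₁ ∘ φ)` is a retraction, contradicting `not_retract`.
Not in an affine line: `a + b F₁ + c F₂ = 0` on the disc gives `b F' + ...`, so `Wr F = 0` unless `b = c = 0`. -/
theorem final_assembly {F : ℂ → ℂ × ℂ} (hF : DifferentiableOn ℂ F (ball 0 1))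
    (hm : MapsTo F (ball 0 1) B2) {C : Set ℂ} (hC : Cover F C) (hinj : InjOn F (ball 0 1))
    (himm : ∀ y ∈ ball (0 : ℂ) 1, deriv F y ≠ 0)
    (hprop : ∀ K : Set (ℂ × ℂ), IsCompact K → K ⊆ B2 →
        ∃ r : ℝ, 0 ≤ r ∧ r < 1 ∧ ∀ y ∈ ball (0 : ℂ) 1, F y ∈ K → ‖y‖ ≤ r)
    (hW0 : Wr F 0 = 0) {z₁ : ℂ} (hz₁ : z₁ ∈ ball (0 : ℂ) 1) (hz₁0 : z₁ ≠ 0) (hWz₁ : Wr F z₁ = 0)
    {y₀ : ℂ} (hy₀ : y₀ ∈ ball (0 : ℂ) 1) (hWy₀ : Wr F y₀ ≠ 0) :
    ∃ (Γ : Subgroup (Bk 2 ≃ₜ Bk 2)) (f : Bk 1 → Bk 2), Γ ≤ AutB 2 ∧ IsDiscreteSubgroup Γ ∧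
      IsProperHoloEmbedding f ∧ (∀ γ ∈ Γ, ∀ z, ∃ z', γ (f z) = f z') ∧
      CompactSpace (Quotient (orbitSetoid Γ (Set.range f))) ∧ ¬ IsLinearUpToAut f ∧
      ¬ ∃ a b c : ℂ, (b ≠ 0 ∨ c ≠ 0) ∧ ∀ z, a + b * (f z : EuclideanSpace ℂ (Fin 2)) 0 +
        c * (f z : EuclideanSpace ℂ (Fin 2)) 1 = 0 := by
  obtain ⟨ε, hε, hcore⟩ := discrete_core hF hm hinj hprop hW0 hz₁ hz₁0 hWz₁ hy₀ hWy₀
  exact ⟨faG hm, faF hm, fa_aut hm, fa_discrete hm hz₁ hε hcore,
    fa_emb hF hm hinj himm hprop, fa_invariant hm, fa_compact_quot hF hm hC,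
    fa_nonlin hm (not_retract hF hm hy₀ hWy₀), fa_notline hF hm hy₀ hWy₀⟩

end Pool.Agent.Helper326.HB
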