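import Mathlib
import Pool.Agent.Helper326.HB.Defs
import Pool.Agent.Helper326.HB.A1
import Pool.Agent.Helper326.HB.A2

set_option autoImplicit false
open Complex Metric Set Filter Topology Matrix

namespace Pool.Agent.Helper326.HB

theorem lh_LI {h : ℂ → ℂ} {U : Set ℂ} (hU : IsOpen U) (hd : DifferentiableOn ℂ h U)
    (hd' : ∀ z ∈ U, deriv h z ≠ 0) {x : ℂ} (hx : x ∈ U) :
    ∃ V : Set ℂ, IsOpen V ∧ x ∈ V ∧ V ⊆ U ∧ ∃ ε > 0, ∃ ψ : ℂ → ℂ,
      DifferentiableOn ℂ ψ (ball (h x) ε) ∧ (∀ y ∈ ball (h x) ε, ψ y ∈ V ∧ h (ψ y) = y) ∧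
      ∀ z ∈ V, ψ (h z) = z := by
  have hstr : HasStrictDerivAt h (deriv h x) x :=
    (hd.analyticAt (hU.mem_nhds hx)).hasStrictDerivAt
  have hF := hstr.hasStrictFDerivAt_equiv (hd' x hx)
  let e := (hF.toOpenPartialHomeomorph h).restrOpen U hU
  have he : ∀ z, e z = h z := fun z => rfl
  have hxe : x ∈ e.source := ⟨hF.mem_toOpenPartialHomeomorph_source, hx⟩
  have hsU : e.source ⊆ U := fun z hz => hz.2
  have hhx : h x ∈ e.target := e.map_source hxe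
  obtain ⟨ε, hε, hball⟩ := Metric.isOpen_iff.1 e.open_target (h x) hhx
  refine ⟨e.source, e.open_source, hxe, hsU, ε, hε, e.symm, ?_, ?_, ?_⟩
  · intro y hy
    have hy' := hball hy
    have h1 : e.symm y ∈ e.source := e.map_target hy'
    have h2 : HasDerivAt e (deriv h (e.symm y)) (e.symm y) :=
      (hd.differentiableAt (hU.mem_nhds (hsU h1))).hasDerivAt
    exact (e.hasDerivAt_symm hy' (hd' _ (hsU h1)) h2).differentiableAt.differentiableWithinAt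
  · intro y hy
    exact ⟨e.map_target (hball hy), e.right_inv (hball hy)⟩
  · intro z hz
    exact e.left_inv hz

/-- the root function -/
noncomputable def lh_rt (w : ℂ) : ℂ := (-9 * Complex.log w) ^ (2⁻¹ : ℂ)

theorem lh_rt_sq (w : ℂ) : lh_rt w ^ 2 = -9 * Complex.log w := by
  unfold lh_rt
  exact Complex.cpow_ofNat_inv_pow _ 2

theorem lh_rt_exp {w : ℂ} (hw : w ≠ 0) : Complex.exp (-(lh_rt w) ^ 2 / 9) = w := by
  rw [lh_rt_sq]
  have : -(-9 * Complex.log w) / 9 = Complex.log w := by ring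
  rw [this, Complex.exp_log hw]

theorem lh_rt_re_nonneg (w : ℂ) : 0 ≤ (lh_rt w).re := by
  unfold lh_rt
  rw [Complex.cpow_inv_two_re]
  exact Real.sqrt_nonneg _

theorem lh_sq_re (z : ℂ) : (z ^ 2).re = z.re ^ 2 - z.im ^ 2 := by
  rw [sq, Complex.mul_re]; ring

theorem lh_rt_re2 (w : ℂ) : (lh_rt w).re ^ 2 - (lh_rt w).im ^ 2 = -9 * Real.log ‖w‖ := by
  rw [← lh_sq_re, lh_rt_sq]
  simp [Complex.log_re]

theorem lh_rt_closed {w : ℂ} (hw1 : ‖w‖ ≤ 1) : |(lh_rt w).im| ≤ (lh_rt w).re := by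
  have h1 := lh_rt_re2 w
  have h2 : Real.log ‖w‖ ≤ 0 := Real.log_nonpos (norm_nonneg _) hw1
  exact abs_le_of_sq_le_sq (by nlinarith) (lh_rt_re_nonneg w)

theorem lh_rt_open {w : ℂ} (hw : w ≠ 0) (hw1 : ‖w‖ < 1) :
    0 < (lh_rt w).re ∧ |(lh_rt w).im| < (lh_rt w).re := by
  have h1 := lh_rt_re2 w
  have h2 : Real.log ‖w‖ < 0 := Real.log_neg (norm_pos_iff.2 hw) hw1
  have h3 : |(lh_rt w).im| < (lh_rt w).re := by
    apply abs_lt_of_sq_lt_sq _ (lh_rt_re_nonneg w)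
    nlinarith
  exact ⟨(abs_nonneg _).trans_lt h3, h3⟩

theorem lh_rt_cont {w : ℂ} (hw : 0 < w.re) (hw1 : ‖w‖ ≤ 1) : ContinuousAt lh_rt w := by
  have h1 : ContinuousAt (fun z : ℂ => -9 * Complex.log z) w :=
    continuousAt_const.mul (continuousAt_clog (Or.inl hw))
  have h2 : 0 ≤ (-9 * Complex.log w).re := by
    have : (-9 * Complex.log w).re = -9 * Real.log ‖w‖ := by simp [Complex.log_re]
    rw [this]
    have := Real.log_nonpos (norm_nonneg _) hw1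
    linarith
  have h3 : ContinuousAt (fun z : ℂ => z ^ (2⁻¹ : ℂ)) (-9 * Complex.log w) :=
    continuousAt_cpow_const_of_re_pos (Or.inl h2) (by norm_num)
  exact ContinuousAt.comp (f := fun z : ℂ => -9 * Complex.log z) h3 h1

theorem lh_small {τ : ℂ} (ht : ‖τ‖ < 2) : ‖-τ ^ 2 / 9‖ < 4 / 9 := by
  rw [norm_div, norm_neg, norm_pow]
  have : ‖(9 : ℂ)‖ = 9 := by norm_num
  rw [this]
  have := norm_nonneg τ
  nlinarith

theorem lh_rt_of_exp {τ : ℂ} (ht : ‖τ‖ < 2) (h0 : 0 ≤ τ.re) (h1 : |τ.im| ≤ τ.re) :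
    lh_rt (Complex.exp (-τ ^ 2 / 9)) = τ := by
  have hs := lh_small ht
  have him : |(-τ ^ 2 / 9).im| < 4 / 9 := (Complex.abs_im_le_norm _).trans_lt hs
  have hpi := Real.pi_gt_three
  have hlog : Complex.log (Complex.exp (-τ ^ 2 / 9)) = -τ ^ 2 / 9 :=
    Complex.log_exp (by linarith [(abs_lt.1 him).1]) (by linarith [(abs_lt.1 him).2])
  unfold lh_rt
  rw [hlog]
  have e1 : -9 * (-τ ^ 2 / 9) = τ ^ 2 := by ring
  rw [e1]
  rcases h0.lt_or_eq with h2 | h2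
  · exact Complex.sq_cpow_two_inv h2
  · rw [← h2] at h1
    have him : τ.im = 0 := abs_nonpos_iff.1 h1
    have : τ = 0 := Complex.ext h2.symm him
    subst this
    simp

theorem lh_exp_re {τ : ℂ} (ht : ‖τ‖ < 2) : 0 < (Complex.exp (-τ ^ 2 / 9)).re := by
  have hs := lh_small ht
  have him : |(-τ ^ 2 / 9).im| < 4 / 9 := (Complex.abs_im_le_norm _).trans_lt hs
  have hpi := Real.pi_gt_three
  rw [Complex.exp_re]
  apply mul_pos (Real.exp_pos _)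
  apply Real.cos_pos_of_mem_Ioo
  constructor <;> linarith [(abs_lt.1 him).1, (abs_lt.1 him).2]

theorem lh_exp_norm {τ : ℂ} (h1 : |τ.im| ≤ τ.re) : ‖Complex.exp (-τ ^ 2 / 9)‖ ≤ 1 := by
  rw [Complex.norm_exp]
  apply Real.exp_le_one_iff.2
  have e : (-τ ^ 2 / 9).re = -(τ.re ^ 2 - τ.im ^ 2) / 9 := by
    rw [← lh_sq_re]
    simp
  rw [e]
  have : τ.im ^ 2 ≤ τ.re ^ 2 := sq_le_sq' (by linarith [(abs_le.1 h1).1]) (abs_le.1 h1).2
  linarith

theorem lh_sector (τ : ℂ) : ∃ (m : ℕ) (τ' : ℂ), τ = I ^ m * τ' ∧ 0 ≤ τ'.re ∧ |τ'.im| ≤ τ'.re := by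
  rcases le_total |τ.im| |τ.re| with h | h
  · rcases le_total 0 τ.re with h1 | h1
    · exact ⟨0, τ, by simp, h1, by rwa [abs_of_nonneg h1] at h⟩
    · refine ⟨2, -τ, by simp, by simpa using h1, ?_⟩
      rw [abs_of_nonpos h1] at h
      simpa using h
  · rcases le_total 0 τ.im with h1 | h1
    · refine ⟨1, -I * τ, ?_, ?_, ?_⟩
      · rw [pow_one, ← mul_assoc]; simp
      · simpa using h1
      · rw [abs_of_nonneg h1] at h
        simpa using h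
    · refine ⟨3, I * τ, ?_, ?_, ?_⟩
      · rw [← mul_assoc, ← pow_succ]
        simp
      · simpa using h1
      · rw [abs_of_nonpos h1] at h
        simpa using h

/-- the statement at the point `k` -/
def lh_P (s : ℂ → ℂ) (f : ℂ → ℂ × ℂ) (k : ℂ) : Prop :=
  ∃ ε > 0, ∃ φ : ℂ → ℂ × ℂ,
      DifferentiableOn ℂ φ (ball (s k) ε) ∧ (∀ᶠ k' in 𝓝[ball (0 : ℂ) 1] k, φ (s k') = f k') ∧
      ∀ y ∈ ball (s k) ε, ∃ k'' ∈ closedBall (0 : ℂ) 1,
        ∃ (g : Matrix (Fin 2) (Fin 2) ℂ) (A : Matrix (Fin 3) (Fin 3) ℂ), U2 g ∧ U3 A ∧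
          mob g (s k'') = y ∧ ∀ᶠ k' in 𝓝[ball (0 : ℂ) 1] k'', φ (mob g (s k')) = act A (f k')

theorem lh_inner {s : ℂ → ℂ} {f : ℂ → ℂ × ℂ} (hsd : DifferentiableOn ℂ s (ball 0 1))
    (hfd : DifferentiableOn ℂ f (ball 0 1)) (hs' : ∀ w ∈ ball (0 : ℂ) 1, deriv s w ≠ 0)
    {k : ℂ} (hk : k ∈ ball (0 : ℂ) 1) : lh_P s f k := by
  obtain ⟨V, hVo, hkV, hVU, ε, hε, ψ, hψd, hψ1, hψ2⟩ := lh_LI isOpen_ball hsd hs' hk
  refine ⟨ε, hε, fun y => f (ψ y), ?_, ?_, ?_⟩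
  · exact hfd.comp hψd (fun y hy => hVU (hψ1 y hy).1)
  · have : ∀ᶠ k' in 𝓝 k, k' ∈ V := hVo.mem_nhds hkV
    filter_upwards [mem_nhdsWithin_of_mem_nhds this] with k' hk'
    show f (ψ (s k')) = f k'
    rw [hψ2 k' hk']
  · intro y hy
    obtain ⟨h1, h2⟩ := hψ1 y hy
    refine ⟨ψ y, ball_subset_closedBall (hVU h1), 1, 1, U2_one, U3_one, ?_, ?_⟩
    · rw [mob_one, h2]
    · have : ∀ᶠ k' in 𝓝 (ψ y), k' ∈ V := hVo.mem_nhds h1
      filter_upwards [mem_nhdsWithin_of_mem_nhds this] with k' hk'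
      show f (ψ (mob 1 (s k'))) = act 1 (f k')
      rw [mob_one, act_one, hψ2 k' hk']

theorem lh_closed_match {s : ℂ → ℂ} {f : ℂ → ℂ × ℂ} (hsc : ContinuousOn s (closedBall 0 1))
    (hfc : ContinuousOn f (closedBall 0 1))
    {S : ℂ → ℂ} {Φ : ℂ → ℂ × ℂ} (hS : DifferentiableOn ℂ S (ball 0 2))
    (hΦ : DifferentiableOn ℂ Φ (ball 0 2))
    (hmatch : ∀ τ ∈ ball (0 : ℂ) 2, 0 < τ.re → |τ.im| < τ.re →
      S τ = s (Complex.exp (-τ ^ 2 / 9)) ∧ Φ τ = f (Complex.exp (-τ ^ 2 / 9)))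
    {τ : ℂ} (ht : τ ∈ ball (0 : ℂ) 2) (h0 : 0 ≤ τ.re) (h1 : |τ.im| ≤ τ.re) :
    S τ = s (Complex.exp (-τ ^ 2 / 9)) ∧ Φ τ = f (Complex.exp (-τ ^ 2 / 9)) := by
  -- approach along `τ + t`, `t → 0+`
  have hp : Tendsto (fun t : ℝ => τ + (t : ℂ)) (𝓝[>] 0) (𝓝 τ) := by
    have : ContinuousAt (fun t : ℝ => τ + (t : ℂ)) 0 := by fun_prop
    have h2 := this.tendsto
    simp only [Complex.ofReal_zero, add_zero] at h2
    exact h2.mono_left nhdsWithin_le_nhds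
  have hball : ∀ᶠ t : ℝ in 𝓝[>] (0 : ℝ), τ + (t : ℂ) ∈ ball (0 : ℂ) 2 :=
    hp.eventually (isOpen_ball.mem_nhds ht)
  have hpos : ∀ᶠ t : ℝ in 𝓝[>] (0 : ℝ), 0 < t := self_mem_nhdsWithin
  have hev : ∀ᶠ t : ℝ in 𝓝[>] (0 : ℝ), S (τ + (t : ℂ)) = s (Complex.exp (-(τ + (t : ℂ)) ^ 2 / 9)) ∧
      Φ (τ + (t : ℂ)) = f (Complex.exp (-(τ + (t : ℂ)) ^ 2 / 9)) ∧
      Complex.exp (-(τ + (t : ℂ)) ^ 2 / 9) ∈ closedBall (0 : ℂ) 1 := by
    filter_upwards [hball, hpos] with t hb ht0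
    have hre : (τ + (t : ℂ)).re = τ.re + t := by simp
    have him : (τ + (t : ℂ)).im = τ.im := by simp
    have h2 := hmatch (τ + (t : ℂ)) hb (by rw [hre]; linarith) (by rw [hre, him]; linarith)
    refine ⟨h2.1, h2.2, ?_⟩
    rw [mem_closedBall_zero_iff]
    exact lh_exp_norm (by rw [hre, him]; linarith)
  have hexp : Tendsto (fun t : ℝ => Complex.exp (-(τ + (t : ℂ)) ^ 2 / 9)) (𝓝[>] 0)
      (𝓝[closedBall (0 : ℂ) 1] (Complex.exp (-τ ^ 2 / 9))) := by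
    apply tendsto_nhdsWithin_of_tendsto_nhds_of_eventually_within
    · have hc : ContinuousAt (fun z : ℂ => Complex.exp (-z ^ 2 / 9)) τ := by fun_prop
      exact hc.tendsto.comp hp
    · filter_upwards [hev] with t ht'
      exact ht'.2.2
  have hmem : Complex.exp (-τ ^ 2 / 9) ∈ closedBall (0 : ℂ) 1 := by
    rw [mem_closedBall_zero_iff]
    exact lh_exp_norm h1
  have hSc : Tendsto (fun t : ℝ => S (τ + (t : ℂ))) (𝓝[>] 0) (𝓝 (S τ)) :=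
    ((hS.differentiableAt (isOpen_ball.mem_nhds ht)).continuousAt.tendsto).comp hp
  have hΦc : Tendsto (fun t : ℝ => Φ (τ + (t : ℂ))) (𝓝[>] 0) (𝓝 (Φ τ)) :=
    ((hΦ.differentiableAt (isOpen_ball.mem_nhds ht)).continuousAt.tendsto).comp hp
  have hsc' : Tendsto (fun t : ℝ => s (Complex.exp (-(τ + (t : ℂ)) ^ 2 / 9))) (𝓝[>] 0)
      (𝓝 (s (Complex.exp (-τ ^ 2 / 9)))) := (hsc _ hmem).tendsto.comp hexp
  have hfc' : Tendsto (fun t : ℝ => f (Complex.exp (-(τ + (t : ℂ)) ^ 2 / 9))) (𝓝[>] 0)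
      (𝓝 (f (Complex.exp (-τ ^ 2 / 9)))) := (hfc _ hmem).tendsto.comp hexp
  refine ⟨tendsto_nhds_unique_of_eventuallyEq hSc hsc' (hev.mono fun t h => h.1),
    tendsto_nhds_unique_of_eventuallyEq hΦc hfc' (hev.mono fun t h => h.2.1)⟩

theorem lh_pow {S : ℂ → ℂ} {Φ : ℂ → ℂ × ℂ}
    (hSm : MapsTo S (ball 0 2) (ball 0 1))
    (hΦm : MapsTo Φ (ball 0 2) B2)
    {g : Matrix (Fin 2) (Fin 2) ℂ} {A : Matrix (Fin 3) (Fin 3) ℂ} (hg : U2 g) (hA : U3 A)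
    (hsym : ∀ τ ∈ ball (0 : ℂ) 2, S (I * τ) = mob g (S τ) ∧ Φ (I * τ) = act A (Φ τ)) (m : ℕ) :
    U2 (g ^ m) ∧ U3 (A ^ m) ∧ ∀ τ ∈ ball (0 : ℂ) 2, S (I ^ m * τ) = mob (g ^ m) (S τ) ∧
      Φ (I ^ m * τ) = act (A ^ m) (Φ τ) := by
  induction m with
  | zero =>
    refine ⟨by rw [pow_zero]; exact U2_one, by rw [pow_zero]; exact U3_one, ?_⟩
    intro τ _
    rw [pow_zero, pow_zero, pow_zero, one_mul, mob_one, act_one]
    exact ⟨rfl, rfl⟩
  | succ m ih =>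
    obtain ⟨h1, h2, h3⟩ := ih
    refine ⟨by rw [pow_succ']; exact U2_mul hg h1, by rw [pow_succ']; exact U3_mul hA h2, ?_⟩
    intro τ ht
    have hI : I ^ m * τ ∈ ball (0 : ℂ) 2 := by
      rw [mem_ball_zero_iff] at ht ⊢
      rw [norm_mul, norm_pow, Complex.norm_I, one_pow, one_mul]; exact ht
    have h4 := hsym _ hI
    have h5 := h3 τ ht
    rw [pow_succ' I, mul_assoc, h4.1, h4.2, h5.1, h5.2, pow_succ' g, pow_succ' A,
      mob_mul hg h1 (hSm ht), act_mul hA h2 (hΦm ht)]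
    exact ⟨rfl, rfl⟩

theorem lh_boundary {s : ℂ → ℂ} {f : ℂ → ℂ × ℂ} (hsc : ContinuousOn s (closedBall 0 1))
    (hfc : ContinuousOn f (closedBall 0 1))
    {S : ℂ → ℂ} {Φ : ℂ → ℂ × ℂ} (hS : DifferentiableOn ℂ S (ball 0 2))
    (hΦ : DifferentiableOn ℂ Φ (ball 0 2)) (hSm : MapsTo S (ball 0 2) (ball 0 1))
    (hΦm : MapsTo Φ (ball 0 2) B2) (hS' : ∀ τ ∈ ball (0 : ℂ) 2, deriv S τ ≠ 0)
    {g : Matrix (Fin 2) (Fin 2) ℂ} {A : Matrix (Fin 3) (Fin 3) ℂ} (hg : U2 g) (hA : U3 A)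
    (hsym : ∀ τ ∈ ball (0 : ℂ) 2, S (I * τ) = mob g (S τ) ∧ Φ (I * τ) = act A (Φ τ))
    (hmatch : ∀ τ ∈ ball (0 : ℂ) 2, 0 < τ.re → |τ.im| < τ.re →
      S τ = s (Complex.exp (-τ ^ 2 / 9)) ∧ Φ τ = f (Complex.exp (-τ ^ 2 / 9)))
    (θ : ℝ) (hθ : |θ| ≤ Real.pi / 9) : lh_P s f (Complex.exp (θ * I)) := by
  have hcm : ∀ τ ∈ ball (0 : ℂ) 2, 0 ≤ τ.re → |τ.im| ≤ τ.re →
      S τ = s (Complex.exp (-τ ^ 2 / 9)) ∧ Φ τ = f (Complex.exp (-τ ^ 2 / 9)) :=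
    fun τ ht h0 h1 => lh_closed_match hsc hfc hS hΦ hmatch ht h0 h1
  have hpi := Real.pi_gt_three
  have hpi4 := Real.pi_le_four
  have hθ' := abs_le.1 hθ
  set k : ℂ := Complex.exp (θ * I) with hk
  have hkn : ‖k‖ = 1 := by rw [hk, Complex.norm_exp_ofReal_mul_I]
  have hk0 : k ≠ 0 := Complex.exp_ne_zero _
  have hkre : 0 < k.re := by
    rw [hk, Complex.exp_ofReal_mul_I_re]
    exact Real.cos_pos_of_mem_Ioo ⟨by linarith, by linarith⟩
  have hlogk : Complex.log k = θ * I := by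
    rw [hk]
    apply Complex.log_exp
    · simp; linarith
    · simp; linarith
  -- the point `τ₀`
  have hτ0 : ‖lh_rt k‖ < 2 := by
    have h1 : ‖lh_rt k‖ ^ 2 = 9 * |θ| := by
      rw [← norm_pow, lh_rt_sq, hlogk, norm_mul, norm_mul]
      simp
    have h2 : 9 * |θ| ≤ Real.pi := by linarith
    have h3 : Real.pi < 4 := by
      have := Real.pi_lt_d2
      linarith
    nlinarith [norm_nonneg (lh_rt k)]
  have hτ0b : lh_rt k ∈ ball (0 : ℂ) 2 := by rw [mem_ball_zero_iff]; exact hτ0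
  have hrt : ∀ w : ℂ, w ≠ 0 → ‖w‖ ≤ 1 → ‖lh_rt w‖ < 2 → S (lh_rt w) = s w ∧ Φ (lh_rt w) = f w := by
    intro w hw hw1 hw2
    have := hcm (lh_rt w) (by rw [mem_ball_zero_iff]; exact hw2) (lh_rt_re_nonneg w)
      (lh_rt_closed hw1)
    rwa [lh_rt_exp hw] at this
  obtain ⟨V, hVo, hkV, hVU, ε, hε, ψ, hψd, hψ1, hψ2⟩ := lh_LI isOpen_ball hS hS' hτ0b
  have hSk : S (lh_rt k) = s k := (hrt k hk0 hkn.le hτ0).1
  rw [hSk] at hψd hψ1
  refine ⟨ε, hε, fun y => Φ (ψ y), ?_, ?_, ?_⟩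
  · exact hΦ.comp hψd (fun y hy => hVU (hψ1 y hy).1)
  · have h1 : ∀ᶠ k' in 𝓝 k, lh_rt k' ∈ V := (lh_rt_cont hkre hkn.le).eventually (hVo.mem_nhds hkV)
    have h2 : ∀ᶠ k' in 𝓝 k, k' ≠ 0 := isOpen_ne.mem_nhds hk0
    filter_upwards [mem_nhdsWithin_of_mem_nhds h1, mem_nhdsWithin_of_mem_nhds h2,
      self_mem_nhdsWithin] with k' hk' hk'0 hk'b
    have h3 := hrt k' hk'0 (mem_ball_zero_iff.1 hk'b).le (mem_ball_zero_iff.1 (hVU hk'))
    show Φ (ψ (s k')) = f k'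
    rw [← h3.1, hψ2 _ hk', h3.2]
  · intro y hy
    obtain ⟨hτV, hτy⟩ := hψ1 y hy
    obtain ⟨m, τ', hττ', hre, him⟩ := lh_sector (ψ y)
    obtain ⟨hgm, hAm, hmm⟩ := lh_pow hSm hΦm hg hA hsym m
    have hnorm : ∀ z : ℂ, ‖I ^ m * z‖ = ‖z‖ := by
      intro z
      rw [norm_mul, norm_pow, Complex.norm_I, one_pow, one_mul]
    have hτ'2 : ‖τ'‖ < 2 := by
      have := mem_ball_zero_iff.1 (hVU hτV)
      rwa [hττ', hnorm] at this
    have hτ'b : τ' ∈ ball (0 : ℂ) 2 := by rw [mem_ball_zero_iff]; exact hτ'2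
    have hw1 : ‖Complex.exp (-τ' ^ 2 / 9)‖ ≤ 1 := lh_exp_norm him
    refine ⟨Complex.exp (-τ' ^ 2 / 9), by rw [mem_closedBall_zero_iff]; exact hw1, g ^ m, A ^ m,
      hgm, hAm, ?_, ?_⟩
    · rw [← (hcm τ' hτ'b hre him).1, ← (hmm τ' hτ'b).1, ← hττ', hτy]
    · have hc : ContinuousAt (fun w => I ^ m * lh_rt w) (Complex.exp (-τ' ^ 2 / 9)) :=
        continuousAt_const.mul (lh_rt_cont (lh_exp_re hτ'2) hw1)
      have hmem : I ^ m * lh_rt (Complex.exp (-τ' ^ 2 / 9)) ∈ V := by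
        rw [lh_rt_of_exp hτ'2 hre him, ← hττ']; exact hτV
      have h1 : ∀ᶠ k' in 𝓝 (Complex.exp (-τ' ^ 2 / 9)), I ^ m * lh_rt k' ∈ V :=
        hc.eventually (hVo.mem_nhds hmem)
      have h2 : ∀ᶠ k' in 𝓝 (Complex.exp (-τ' ^ 2 / 9)), k' ≠ 0 :=
        isOpen_ne.mem_nhds (Complex.exp_ne_zero _)
      filter_upwards [mem_nhdsWithin_of_mem_nhds h1, mem_nhdsWithin_of_mem_nhds h2,
        self_mem_nhdsWithin] with k' hk' hk'0 hk'b
      have h4 : ‖lh_rt k'‖ < 2 := by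
        have := mem_ball_zero_iff.1 (hVU hk')
        rwa [hnorm] at this
      have h3 := hrt k' hk'0 (mem_ball_zero_iff.1 hk'b).le h4
      have h5 := hmm (lh_rt k') (by rw [mem_ball_zero_iff]; exact h4)
      show Φ (ψ (mob (g ^ m) (s k'))) = act (A ^ m) (f k')
      rw [← h3.1, ← h5.1, hψ2 _ hk', h5.2, h3.2]

theorem lh_D2 {ω : ℂ} (hω : ‖ω‖ = 1) : U2 (Matrix.diagonal ![1, ω]) ∧
    ∀ y, mob (Matrix.diagonal ![1, ω]) y = ω * y := by
  have hc : (starRingEnd ℂ) ω * ω = 1 := by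
    rw [mul_comm, Complex.mul_conj, Complex.normSq_eq_norm_sq, hω]; simp
  constructor
  · unfold U2 J2
    rw [Matrix.diagonal_conjTranspose, Matrix.diagonal_mul_diagonal, Matrix.diagonal_mul_diagonal]
    congr 1
    ext i
    fin_cases i
    · simp
    · simpa using hc
  · intro y
    simp [mob, Matrix.diagonal]

theorem lh_D3 {ω : ℂ} (hω : ‖ω‖ = 1) : U3 (Matrix.diagonal ![1, ω, ω ^ 4]) ∧
    ∀ x, act (Matrix.diagonal ![1, ω, ω ^ 4]) x = (ω * x.1, ω ^ 4 * x.2) := by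
  have hc : (starRingEnd ℂ) ω * ω = 1 := by
    rw [mul_comm, Complex.mul_conj, Complex.normSq_eq_norm_sq, hω]; simp
  have hc4 : ((starRingEnd ℂ) ω) ^ 4 * ω ^ 4 = 1 := by
    rw [← mul_pow, hc, one_pow]
  constructor
  · unfold U3 J3
    rw [Matrix.diagonal_conjTranspose, Matrix.diagonal_mul_diagonal, Matrix.diagonal_mul_diagonal]
    congr 1
    ext i
    fin_cases i
    · simp
    · simpa using hc
    · simpa using hc4
  · intro x
    simp [act, den, Matrix.diagonal]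

theorem lh_rotP {s : ℂ → ℂ} {f : ℂ → ℂ × ℂ}
    (hsm : MapsTo s (closedBall 0 1) (ball 0 1))
    (hfm : MapsTo f (closedBall 0 1) B2) {ω : ℂ} (hω : ‖ω‖ = 1)
    (hrot : ∀ w ∈ closedBall (0 : ℂ) 1,
      s (ω * w) = ω * s w ∧ f (ω * w) = (ω * (f w).1, ω ^ 4 * (f w).2))
    {k : ℂ} (hk : k ∈ closedBall (0 : ℂ) 1) (h : lh_P s f k) : lh_P s f (ω * k) := by
  obtain ⟨ε, hε, φ, hφd, hφ1, hφ2⟩ := h
  have hω0 : ω ≠ 0 := by
    rintro rfl
    simp at hω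
  obtain ⟨hD2, hD2'⟩ := lh_D2 hω
  obtain ⟨hD3, hD3'⟩ := lh_D3 hω
  have hsk := (hrot k hk).1
  have hmaps : ∀ y ∈ ball (ω * s k) ε, ω⁻¹ * y ∈ ball (s k) ε := by
    intro y hy
    rw [mem_ball, dist_eq_norm] at hy ⊢
    have : ω⁻¹ * y - s k = ω⁻¹ * (y - ω * s k) := by
      field_simp
    rw [this, norm_mul, norm_inv, hω, inv_one, one_mul]
    exact hy
  refine ⟨ε, hε, fun y => (ω * (φ (ω⁻¹ * y)).1, ω ^ 4 * (φ (ω⁻¹ * y)).2), ?_, ?_, ?_⟩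
  · rw [hsk]
    have h1 : DifferentiableOn ℂ (fun y => φ (ω⁻¹ * y)) (ball (ω * s k) ε) :=
      hφd.comp (by fun_prop) hmaps
    exact (h1.fst.const_mul ω).prodMk (h1.snd.const_mul (ω ^ 4))
  · have ht : Tendsto (fun z : ℂ => ω⁻¹ * z) (𝓝[ball (0 : ℂ) 1] (ω * k)) (𝓝[ball (0 : ℂ) 1] k) := by
      apply tendsto_nhdsWithin_of_tendsto_nhds_of_eventually_within
      · have hc : ContinuousAt (fun z : ℂ => ω⁻¹ * z) (ω * k) := by fun_prop
        have h2 := hc.tendsto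
        rw [inv_mul_cancel_left₀ hω0] at h2
        exact h2.mono_left nhdsWithin_le_nhds
      · filter_upwards [self_mem_nhdsWithin] with z hz
        rw [mem_ball_zero_iff] at hz ⊢
        rw [norm_mul, norm_inv, hω, inv_one, one_mul]; exact hz
    filter_upwards [ht.eventually hφ1, self_mem_nhdsWithin] with k' hk' hk'b
    have hu : ω⁻¹ * k' ∈ closedBall (0 : ℂ) 1 := by
      rw [mem_ball_zero_iff] at hk'b
      rw [mem_closedBall_zero_iff, norm_mul, norm_inv, hω, inv_one, one_mul]; exact hk'b.le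
    have h3 := hrot _ hu
    rw [mul_inv_cancel_left₀ hω0] at h3
    show (ω * (φ (ω⁻¹ * s k')).1, ω ^ 4 * (φ (ω⁻¹ * s k')).2) = f k'
    rw [h3.1, inv_mul_cancel_left₀ hω0, hk', ← h3.2]
  · intro y hy
    rw [hsk] at hy
    obtain ⟨k'', hk'', g', A', hg', hA', hm, hev⟩ := hφ2 _ (hmaps y hy)
    refine ⟨k'', hk'', Matrix.diagonal ![1, ω] * g', Matrix.diagonal ![1, ω, ω ^ 4] * A',
      U2_mul hD2 hg', U3_mul hD3 hA', ?_, ?_⟩
    · rw [mob_mul hD2 hg' (hsm hk''), hD2', hm, mul_inv_cancel_left₀ hω0]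
    · filter_upwards [hev, self_mem_nhdsWithin] with k' hk' hk'b
      have hk'c := ball_subset_closedBall hk'b
      show (ω * (φ (ω⁻¹ * mob (Matrix.diagonal ![1, ω] * g') (s k'))).1,
        ω ^ 4 * (φ (ω⁻¹ * mob (Matrix.diagonal ![1, ω] * g') (s k'))).2) = _
      rw [mob_mul hD2 hg' (hsm hk'c), hD2', inv_mul_cancel_left₀ hω0, hk',
        act_mul hD3 hA' (hfm hk'c), hD3']

theorem local_hyp {s : ℂ → ℂ} {f : ℂ → ℂ × ℂ} (hsc : ContinuousOn s (closedBall 0 1))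
    (hsm : MapsTo s (closedBall 0 1) (ball 0 1)) (hfc : ContinuousOn f (closedBall 0 1))
    (hfm : MapsTo f (closedBall 0 1) B2) (hsd : DifferentiableOn ℂ s (ball 0 1))
    (hfd : DifferentiableOn ℂ f (ball 0 1)) (hs' : ∀ w ∈ ball (0 : ℂ) 1, deriv s w ≠ 0)
    (hrot : ∀ w ∈ closedBall (0 : ℂ) 1,
      s (Complex.exp (2 * Real.pi * I / 9) * w) = Complex.exp (2 * Real.pi * I / 9) * s w ∧
      f (Complex.exp (2 * Real.pi * I / 9) * w) =
        (Complex.exp (2 * Real.pi * I / 9) * (f w).1, Complex.exp (2 * Real.pi * I / 9) ^ 4 * (f w).2))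
    {S : ℂ → ℂ} {Φ : ℂ → ℂ × ℂ} (hS : DifferentiableOn ℂ S (ball 0 2))
    (hΦ : DifferentiableOn ℂ Φ (ball 0 2)) (hSm : MapsTo S (ball 0 2) (ball 0 1))
    (hΦm : MapsTo Φ (ball 0 2) B2) (hS' : ∀ τ ∈ ball (0 : ℂ) 2, deriv S τ ≠ 0)
    {g : Matrix (Fin 2) (Fin 2) ℂ} {A : Matrix (Fin 3) (Fin 3) ℂ} (hg : U2 g) (hA : U3 A)
    (hsym : ∀ τ ∈ ball (0 : ℂ) 2, S (I * τ) = mob g (S τ) ∧ Φ (I * τ) = act A (Φ τ))
    (hmatch : ∀ τ ∈ ball (0 : ℂ) 2, 0 < τ.re → |τ.im| < τ.re →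
      S τ = s (Complex.exp (-τ ^ 2 / 9)) ∧ Φ τ = f (Complex.exp (-τ ^ 2 / 9))) :
    ∀ k ∈ closedBall (0 : ℂ) 1, ∃ ε > 0, ∃ φ : ℂ → ℂ × ℂ,
      DifferentiableOn ℂ φ (ball (s k) ε) ∧ (∀ᶠ k' in 𝓝[ball (0 : ℂ) 1] k, φ (s k') = f k') ∧
      ∀ y ∈ ball (s k) ε, ∃ k'' ∈ closedBall (0 : ℂ) 1,
        ∃ (g : Matrix (Fin 2) (Fin 2) ℂ) (A : Matrix (Fin 3) (Fin 3) ℂ), U2 g ∧ U3 A ∧
          mob g (s k'') = y ∧ ∀ᶠ k' in 𝓝[ball (0 : ℂ) 1] k'', φ (mob g (s k')) = act A (f k') := by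
  intro k hk
  have hω : ‖Complex.exp (2 * Real.pi * I / 9)‖ = 1 := by
    have e : 2 * (Real.pi : ℂ) * I / 9 = ((2 * Real.pi / 9 : ℝ) : ℂ) * I := by
      push_cast; ring
    rw [e, Complex.norm_exp_ofReal_mul_I]
  rcases (mem_closedBall_zero_iff.1 hk).lt_or_eq with h1 | h1
  · exact lh_inner hsd hfd hs' (mem_ball_zero_iff.2 h1)
  · -- rotate to the sector
    set m : ℤ := round (Complex.arg k * 9 / (2 * Real.pi)) with hm
    set θ : ℝ := Complex.arg k - m * (2 * Real.pi / 9) with hθ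
    have hpi := Real.pi_pos
    have hθb : |θ| ≤ Real.pi / 9 := by
      have h2 : |Complex.arg k * 9 / (2 * Real.pi) - m| ≤ 1 / 2 := abs_sub_round _
      have h3 : θ = (2 * Real.pi / 9) * (Complex.arg k * 9 / (2 * Real.pi) - m) := by
        rw [hθ]; field_simp
      rw [h3, abs_mul, abs_of_pos (by positivity)]
      nlinarith
    have hbd := lh_boundary hsc hfc hS hΦ hSm hΦm hS' hg hA hsym hmatch θ hθb
    have hiter : ∀ n : ℕ, Complex.exp (2 * Real.pi * I / 9) ^ n * Complex.exp (θ * I) ∈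
        closedBall (0 : ℂ) 1 ∧
        lh_P s f (Complex.exp (2 * Real.pi * I / 9) ^ n * Complex.exp (θ * I)) := by
      intro n
      induction n with
      | zero =>
        rw [pow_zero, one_mul]
        exact ⟨by rw [mem_closedBall_zero_iff, Complex.norm_exp_ofReal_mul_I], hbd⟩
      | succ n ih =>
        rw [pow_succ', mul_assoc]
        refine ⟨?_, lh_rotP hsm hfm hω hrot ih.1 ih.2⟩
        have := ih.1
        rw [mem_closedBall_zero_iff] at this ⊢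
        rw [norm_mul, hω, one_mul]; exact this
    have hn0 : 0 ≤ m + 9 * |m| := by
      have := neg_abs_le m
      have := abs_nonneg m
      linarith
    obtain ⟨n, hn⟩ := Int.eq_ofNat_of_zero_le hn0
    have hkey : Complex.exp (2 * Real.pi * I / 9) ^ n * Complex.exp (θ * I) = k := by
      have h4 : k = Complex.exp (Complex.arg k * I) := by
        have := Complex.norm_mul_exp_arg_mul_I k
        rw [h1, Complex.ofReal_one, one_mul] at this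
        exact this.symm
      rw [← Complex.exp_nat_mul, ← Complex.exp_add]
      conv_rhs => rw [h4]
      rw [Complex.exp_eq_exp_iff_exists_int]
      refine ⟨|m|, ?_⟩
      have h5 : (n : ℂ) = (m : ℂ) + 9 * ((|m| : ℤ) : ℂ) := by
        have : ((n : ℤ) : ℂ) = ((m + 9 * |m| : ℤ) : ℂ) := by rw [hn]
        push_cast at this ⊢
        exact this
      rw [h5, hθ]
      push_cast
      ring
    have := (hiter n).2
    rw [hkey] at this
    exact this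

end Pool.Agent.Helper326.HB
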