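import Mathlib
import Pool.Agent.Helper326.HB.Defs
import Pool.Agent.Helper326.HB.K1
import Pool.Agent.Helper326.HB.N1
import Pool.Agent.Helper326.HB.N2
import Pool.Agent.Helper326.HB.Q1
import Pool.Agent.Helper326.HB.W1
import Pool.Agent.Helper326.HB.W2

set_option autoImplicit false
open Complex Metric Set Filter Topology Matrix

namespace Pool.Agent.Helper326.HB

theorem hcF0 (j : Fin 3) : hc dF j 0 = 1 := rfl

theorem hcG0 (j : Fin 2) : hc dG j 0 = 1 := rfl

theorem absG_summable (j : Fin 2) : Summable (fun k => |hc dG j k|) := (coefG_summable j).abs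

theorem absF_summable (j : Fin 3) : Summable (fun k => |hc dF j k|) := (coefF_summable j).abs

theorem bd_of_summable {n : ℕ} {δ : Fin n → ℝ} {j : Fin n} (hs : Summable (fun k => |hc δ j k|)) :
    ∀ k, |hc δ j k| ≤ ∑' k, |hc δ j k| := fun k => hs.le_tsum k (fun i _ => abs_nonneg _)

theorem P_sub_one {j : Fin 2} {c : ℝ} (hc' : ∑' k : ℕ, hc dG j (k + 1) ≤ c) {z : ℂ}
    (hz : z ∈ closedBall (0 : ℂ) 1) : ‖P dG j z - 1‖ ≤ c := by
  have hz1 : ‖z‖ ≤ 1 := by simpa using hz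
  have hs : Summable (fun k : ℕ => ‖(hc dG j k : ℂ) * z ^ k‖) := by
    refine Summable.of_nonneg_of_le (fun k => norm_nonneg _) (fun k => ?_) (absG_summable j)
    rw [norm_mul, norm_pow, Complex.norm_real, Real.norm_eq_abs]
    exact mul_le_of_le_one_right (abs_nonneg _) (pow_le_one₀ (norm_nonneg _) hz1)
  have hs' : Summable (fun k : ℕ => (hc dG j k : ℂ) * z ^ k) := hs.of_norm
  have h1 : P dG j z - 1 = ∑' k : ℕ, (hc dG j (k + 1) : ℂ) * z ^ (k + 1) := by
    unfold P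
    rw [hs'.tsum_eq_zero_add]
    simp [hcG0]
  rw [h1]
  have hs2 : Summable (fun k : ℕ => hc dG j (k + 1)) :=
    (summable_nat_add_iff 1).2 (coefG_summable j)
  refine (tsum_of_norm_bounded hs2.hasSum (fun k => ?_)).trans hc'
  rw [norm_mul, norm_pow, Complex.norm_real, Real.norm_eq_abs, abs_of_pos (coefG_pos j _)]
  exact mul_le_of_le_one_right (coefG_pos j _).le (pow_le_one₀ (norm_nonneg _) hz1)

theorem PG0_lower {z : ℂ} (hz : z ∈ closedBall (0 : ℂ) 1) : 0.89 ≤ ‖P dG 0 z‖ := by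
  have h := P_sub_one coefG_sum0 hz
  have h2 : (1 : ℝ) ≤ ‖P dG 0 z‖ + ‖P dG 0 z - 1‖ := by
    calc (1 : ℝ) = ‖P dG 0 z - (P dG 0 z - 1)‖ := by simp
      _ ≤ _ := norm_sub_le _ _
  norm_num at h ⊢
  linarith

theorem PG1_upper {z : ℂ} (hz : z ∈ closedBall (0 : ℂ) 1) : ‖P dG 1 z‖ ≤ 1.25 := by
  have h := P_sub_one coefG_sum1 hz
  have h2 : ‖P dG 1 z‖ ≤ ‖P dG 1 z - 1‖ + 1 := by
    calc ‖P dG 1 z‖ = ‖(P dG 1 z - 1) + 1‖ := by simp
      _ ≤ ‖P dG 1 z - 1‖ + ‖(1 : ℂ)‖ := norm_add_le _ _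
      _ = _ := by simp
  norm_num at h ⊢
  linarith

theorem pow9_closed {w : ℂ} (hw : w ∈ closedBall (0 : ℂ) 1) : w ^ 9 ∈ closedBall (0 : ℂ) 1 := by
  have : ‖w‖ ≤ 1 := by simpa using hw
  simpa using pow_le_one₀ (norm_nonneg _) this

theorem pow9_ball {w : ℂ} (hw : w ∈ ball (0 : ℂ) 1) : w ^ 9 ∈ ball (0 : ℂ) 1 := by
  have : ‖w‖ < 1 := by simpa using hw
  simpa using pow_lt_one₀ (norm_nonneg _) this (by norm_num)

theorem om9 : Complex.exp (2 * Real.pi * I / 9) ^ 9 = 1 := by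
  rw [← Complex.exp_nat_mul]
  rw [show ((9 : ℕ) : ℂ) * (2 * Real.pi * I / 9) = 2 * Real.pi * I by push_cast; ring]
  exact Complex.exp_two_pi_mul_I

theorem P_comp_cont {n : ℕ} {δ : Fin n → ℝ} {j : Fin n} (hs : Summable (fun k => |hc δ j k|)) :
    ContinuousOn (fun w : ℂ => P δ j (w ^ 9)) (closedBall 0 1) :=
  (P_cont hs).comp (by fun_prop) (fun w hw => pow9_closed hw)

theorem P_comp_diff {n : ℕ} {δ : Fin n → ℝ} {j : Fin n} (hs : Summable (fun k => |hc δ j k|)) :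
    DifferentiableOn ℂ (fun w : ℂ => P δ j (w ^ 9)) (ball 0 1) :=
  (P_diff (bd_of_summable hs)).comp (by fun_prop) (fun w hw => pow9_ball hw)

theorem PG0_ne {w : ℂ} (hw : w ∈ closedBall (0 : ℂ) 1) : P dG 0 (w ^ 9) ≠ 0 := by
  have := PG0_lower (pow9_closed hw)
  intro h
  rw [h, norm_zero] at this
  norm_num at this

theorem PF0_ne {w : ℂ} (hw : w ∈ closedBall (0 : ℂ) 1) : P dF 0 (w ^ 9) ≠ 0 := by
  have := (P_bounds (pow9_closed hw)).1
  intro h
  rw [h, norm_zero] at this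
  norm_num at this

theorem sfun_exp (g1 : ℝ) (v : ℂ) :
    sfun g1 (Complex.exp (v / 9)) = (Real.sqrt g1 : ℂ) * psi dG 1 v / psi dG 0 v := by
  have h9 : Complex.exp (v / 9) ^ 9 = Complex.exp v := by
    rw [← Complex.exp_nat_mul]
    congr 1
    push_cast
    ring
  unfold sfun
  rw [h9, psi_eq, psi_eq]
  have h1 : Complex.exp ((dG 1 : ℂ) * v) = Complex.exp (v / 9) * Complex.exp ((dG 0 : ℂ) * v) := by
    rw [← Complex.exp_add]
    congr 1
    simp [dG]
    ring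
  rw [h1]
  have h0 : Complex.exp ((dG 0 : ℂ) * v) ≠ 0 := Complex.exp_ne_zero _
  by_cases hP : P dG 0 (Complex.exp v) = 0
  · simp [hP]
  · field_simp

theorem s_cont (g1 : ℝ) : ContinuousOn (sfun g1) (closedBall 0 1) := by
  unfold sfun
  refine ContinuousOn.div ?_ (P_comp_cont (absG_summable 0)) (fun w hw => PG0_ne hw)
  exact (by fun_prop : ContinuousOn (fun w : ℂ => (Real.sqrt g1 : ℂ) * w) (closedBall 0 1)).mul
    (P_comp_cont (absG_summable 1))

theorem s_diff (g1 : ℝ) : DifferentiableOn ℂ (sfun g1) (ball 0 1) := by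
  unfold sfun
  refine DifferentiableOn.div ?_ (P_comp_diff (absG_summable 0))
    (fun w hw => PG0_ne (ball_subset_closedBall hw))
  exact (by fun_prop : DifferentiableOn ℂ (fun w : ℂ => (Real.sqrt g1 : ℂ) * w) (ball 0 1)).mul
    (P_comp_diff (absG_summable 1))

theorem s_maps {g1 : ℝ} (hg0 : 0 < g1) (hg1 : g1 ≤ 0.4) :
    MapsTo (sfun g1) (closedBall 0 1) (ball 0 1) := by
  intro w hw
  have hw1 : ‖w‖ ≤ 1 := by simpa using hw
  have h0 := PG0_lower (pow9_closed hw)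
  have h1 := PG1_upper (pow9_closed hw)
  have hs : Real.sqrt g1 ≤ 0.64 := by
    rw [Real.sqrt_le_left (by norm_num)]
    norm_num at hg1 ⊢
    linarith
  have hs0 := Real.sqrt_nonneg g1
  rw [mem_ball_zero_iff]
  unfold sfun
  rw [norm_div, norm_mul, norm_mul, Complex.norm_real, Real.norm_eq_abs, abs_of_nonneg hs0]
  norm_num at h0 h1 hs
  rw [div_lt_one (by linarith)]
  have hP0 := norm_nonneg (P dG 1 (w ^ 9))
  calc Real.sqrt g1 * ‖w‖ * ‖P dG 1 (w ^ 9)‖ ≤ 16 / 25 * 1 * (5 / 4) := by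
        gcongr
    _ < 89 / 100 := by norm_num
    _ ≤ _ := h0

theorem s_deriv {g1 : ℝ} (hg0 : 0 < g1) {w : ℂ} (hw : w ∈ ball (0 : ℂ) 1) :
    deriv (sfun g1) w ≠ 0 := by
  have hsq : (Real.sqrt g1 : ℂ) ≠ 0 := by
    exact_mod_cast (Real.sqrt_pos.2 hg0).ne'
  by_cases hw0 : w = 0
  · subst hw0
    have hd : HasDerivAt (fun w : ℂ => w * ((Real.sqrt g1 : ℂ) * P dG 1 (w ^ 9) / P dG 0 (w ^ 9)))
        (1 * ((Real.sqrt g1 : ℂ) * P dG 1 ((0 : ℂ) ^ 9) / P dG 0 ((0 : ℂ) ^ 9)) + 0 * 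
          deriv (fun w : ℂ => (Real.sqrt g1 : ℂ) * P dG 1 (w ^ 9) / P dG 0 (w ^ 9)) 0) 0 := by
      apply HasDerivAt.mul (hasDerivAt_id' _)
      apply DifferentiableAt.hasDerivAt
      have hnhds : ball (0 : ℂ) 1 ∈ 𝓝 (0 : ℂ) := ball_mem_nhds _ one_pos
      refine DifferentiableAt.div ?_ ((P_comp_diff (absG_summable 0)).differentiableAt hnhds)
        (PG0_ne (ball_subset_closedBall hw))
      exact (differentiableAt_const _).mul ((P_comp_diff (absG_summable 1)).differentiableAt hnhds)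
    have heq : sfun g1 = (fun w : ℂ => w * ((Real.sqrt g1 : ℂ) * P dG 1 (w ^ 9) / P dG 0 (w ^ 9))) := by
      ext w
      unfold sfun
      ring
    rw [heq, hd.deriv]
    have hP : ∀ j, P dG j ((0 : ℂ) ^ 9) = 1 := by
      intro j
      unfold P
      rw [tsum_eq_single 0]
      · simp [hcG0]
      · intro k hk
        simp [hk]
    rw [hP, hP]
    simpa using hsq
  · set u : ℂ := 9 * Complex.log w with hu
    have hwexp : Complex.exp (u / 9) = w := by
      rw [hu, show 9 * Complex.log w / 9 = Complex.log w by ring, Complex.exp_log hw0]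
    have hwn : ‖w‖ < 1 := by simpa using hw
    have hure : u.re < 0 := by
      rw [hu]
      have : (9 * Complex.log w).re = 9 * Real.log ‖w‖ := by
        rw [show (9 : ℂ) = ((9 : ℝ) : ℂ) by norm_num, Complex.re_ofReal_mul, Complex.log_re]
      rw [this]
      have := Real.log_neg (norm_pos_iff.2 hw0) hwn
      linarith
    have hd1 : HasDerivAt (fun v : ℂ => sfun g1 (Complex.exp (v / 9)))
        (deriv (sfun g1) w * (w * (1 / 9))) u := by
      have h1 : HasDerivAt (fun v : ℂ => Complex.exp (v / 9)) (Complex.exp (u / 9) * (1 / 9)) u :=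
        ((hasDerivAt_id u).div_const 9).cexp
      rw [hwexp] at h1
      have h2 : HasDerivAt (sfun g1) (deriv (sfun g1) w) (Complex.exp (u / 9)) := by
        rw [hwexp]
        exact ((s_diff g1).differentiableAt (isOpen_ball.mem_nhds hw)).hasDerivAt
      exact h2.comp u h1
    have hopen : IsOpen {u : ℂ | u.re < 0} := isOpen_lt Complex.continuous_re continuous_const
    have hdp : ∀ j, HasDerivAt (psi dG j) (deriv (psi dG j) u) u := fun j =>
      ((psi_diff (bd_of_summable (absG_summable j))).differentiableAt (hopen.mem_nhds hure)).hasDerivAt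
    have hpsi0 : psi dG 0 u ≠ 0 := by
      rw [psi_eq]
      refine mul_ne_zero (Complex.exp_ne_zero _) ?_
      have : Complex.exp u = w ^ 9 := by
        rw [← hwexp, ← Complex.exp_nat_mul]
        congr 1
        push_cast
        ring
      rw [this]
      exact PG0_ne (ball_subset_closedBall hw)
    have hd2 : HasDerivAt (fun v : ℂ => (Real.sqrt g1 : ℂ) * psi dG 1 v / psi dG 0 v)
        (((Real.sqrt g1 : ℂ) * deriv (psi dG 1) u * psi dG 0 u -
          (Real.sqrt g1 : ℂ) * psi dG 1 u * deriv (psi dG 0) u) / psi dG 0 u ^ 2) u :=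
      ((hdp 1).const_mul _).div (hdp 0) hpsi0
    have hfe : (fun v : ℂ => sfun g1 (Complex.exp (v / 9))) =
        (fun v : ℂ => (Real.sqrt g1 : ℂ) * psi dG 1 v / psi dG 0 v) := funext (sfun_exp g1)
    rw [hfe] at hd1
    have heq := hd1.unique hd2
    intro h0
    rw [h0, zero_mul] at heq
    have hnum : (Real.sqrt g1 : ℂ) * deriv (psi dG 1) u * psi dG 0 u -
          (Real.sqrt g1 : ℂ) * psi dG 1 u * deriv (psi dG 0) u = 
          (Real.sqrt g1 : ℂ) * (psi dG 0 u * deriv (psi dG 1) u - psi dG 1 u * deriv (psi dG 0) u) := by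
      ring
    rw [hnum, wr2 hure] at heq
    have hne : (1 : ℂ) - Complex.exp u ≠ 0 := by
      intro h
      have h1 : Complex.exp u = 1 := (sub_eq_zero.1 h).symm
      have h2 : ‖Complex.exp u‖ = 1 := by rw [h1]; simp
      rw [Complex.norm_exp] at h2
      have h3 := Real.exp_lt_exp.2 hure
      rw [Real.exp_zero] at h3
      linarith
    have hcp : (1 - Complex.exp u) ^ (-(1 / 2) : ℂ) ≠ 0 := by
      intro h
      rw [Complex.cpow_eq_zero_iff] at h
      exact hne h.1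
    have : (Real.sqrt g1 : ℂ) * (1 / 9 * Complex.exp (u / 4) * (1 - Complex.exp u) ^ (-(1 / 2) : ℂ))
        / psi dG 0 u ^ 2 ≠ 0 := by
      refine div_ne_zero (mul_ne_zero hsq (mul_ne_zero (mul_ne_zero (by norm_num)
        (Complex.exp_ne_zero _)) hcp)) (pow_ne_zero _ hpsi0)
    exact this heq.symm

theorem s_basics {g1 : ℝ} (hg0 : 0 < g1) (hg1 : g1 ≤ 0.4) :
    ContinuousOn (sfun g1) (closedBall 0 1) ∧ MapsTo (sfun g1) (closedBall 0 1) (ball 0 1) ∧
    DifferentiableOn ℂ (sfun g1) (ball 0 1) ∧ (∀ w ∈ ball (0 : ℂ) 1, deriv (sfun g1) w ≠ 0) ∧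
    sfun g1 0 = 0 ∧ ∀ w, sfun g1 (Complex.exp (2 * Real.pi * I / 9) * w) =
      Complex.exp (2 * Real.pi * I / 9) * sfun g1 w := by
  refine ⟨s_cont g1, s_maps hg0 hg1, s_diff g1, fun w hw => s_deriv hg0 hw, by simp [sfun],
    fun w => ?_⟩
  unfold sfun
  rw [mul_pow, om9, one_mul]
  ring

theorem f_basics {h1 h2 : ℝ} (h1l : 0.345 ≤ h1) (h1u : h1 ≤ 0.36) (h2l : 0.0006 ≤ h2)
    (h2u : h2 ≤ 0.00095) :
    ContinuousOn (ffun h1 h2) (closedBall 0 1) ∧ MapsTo (ffun h1 h2) (closedBall 0 1) B2 ∧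
    DifferentiableOn ℂ (ffun h1 h2) (ball 0 1) ∧ ffun h1 h2 0 = 0 ∧
    ∀ w, ffun h1 h2 (Complex.exp (2 * Real.pi * I / 9) * w) =
      (Complex.exp (2 * Real.pi * I / 9) * (ffun h1 h2 w).1,
        Complex.exp (2 * Real.pi * I / 9) ^ 4 * (ffun h1 h2 w).2) := by
  have h1p : 0 < h1 := lt_of_lt_of_le (by norm_num) h1l
  have h2p : 0 < h2 := lt_of_lt_of_le (by norm_num) h2l
  refine ⟨?_, ?_, ?_, by simp [ffun], ?_⟩
  · unfold ffun
    refine ContinuousOn.prodMk ?_ ?_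
    · refine ContinuousOn.div ?_ (P_comp_cont (absF_summable 0)) (fun w hw => PF0_ne hw)
      exact (by fun_prop : ContinuousOn (fun w : ℂ => (Real.sqrt h1 : ℂ) * w) (closedBall 0 1)).mul
        (P_comp_cont (absF_summable 1))
    · refine ContinuousOn.div ?_ (P_comp_cont (absF_summable 0)) (fun w hw => PF0_ne hw)
      exact (by fun_prop : ContinuousOn (fun w : ℂ => (Real.sqrt h2 : ℂ) * w ^ 4)
        (closedBall 0 1)).mul (P_comp_cont (absF_summable 2))
  · intro w hw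
    have hN := NF_lower h1l h1u h2l h2u (pow9_closed hw)
    have hN0 : 0 < NF h1 h2 (w ^ 9) := lt_of_lt_of_le (by norm_num) hN
    unfold NF at hN0
    have e2 : ‖w ^ 9‖ ^ (2 / 9 : ℝ) = ‖w‖ ^ 2 := by
      rw [norm_pow, ← Real.rpow_natCast, ← Real.rpow_mul (norm_nonneg _)]
      rw [show ((9 : ℕ) : ℝ) * (2 / 9) = ((2 : ℕ) : ℝ) by norm_num, Real.rpow_natCast]
    have e8 : ‖w ^ 9‖ ^ (8 / 9 : ℝ) = ‖w‖ ^ 8 := by
      rw [norm_pow, ← Real.rpow_natCast, ← Real.rpow_mul (norm_nonneg _)]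
      rw [show ((9 : ℕ) : ℝ) * (8 / 9) = ((8 : ℕ) : ℝ) by norm_num, Real.rpow_natCast]
    rw [e2, e8] at hN0
    have hP : 0 < ‖P dF 0 (w ^ 9)‖ := norm_pos_iff.2 (PF0_ne hw)
    show ‖(ffun h1 h2 w).1‖ ^ 2 + ‖(ffun h1 h2 w).2‖ ^ 2 < 1
    unfold ffun
    simp only [norm_div, norm_mul, norm_pow, Complex.norm_real, Real.norm_eq_abs,
      abs_of_nonneg (Real.sqrt_nonneg _)]
    rw [div_pow, div_pow, ← add_div, div_lt_one (by positivity)]
    have s1 := Real.sq_sqrt h1p.le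
    have s2 := Real.sq_sqrt h2p.le
    have t1 : (Real.sqrt h1 * ‖w‖ * ‖P dF 1 (w ^ 9)‖) ^ 2 = h1 * ‖w‖ ^ 2 * ‖P dF 1 (w ^ 9)‖ ^ 2 := by
      rw [mul_pow, mul_pow, s1]
    have t2 : (Real.sqrt h2 * ‖w‖ ^ 4 * ‖P dF 2 (w ^ 9)‖) ^ 2
        = h2 * ‖w‖ ^ 8 * ‖P dF 2 (w ^ 9)‖ ^ 2 := by
      rw [mul_pow, mul_pow, s2]
      ring
    rw [t1, t2]
    linarith
  · unfold ffun
    refine DifferentiableOn.prodMk ?_ ?_
    · refine DifferentiableOn.div ?_ (P_comp_diff (absF_summable 0))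
        (fun w hw => PF0_ne (ball_subset_closedBall hw))
      exact (by fun_prop : DifferentiableOn ℂ (fun w : ℂ => (Real.sqrt h1 : ℂ) * w) (ball 0 1)).mul
        (P_comp_diff (absF_summable 1))
    · refine DifferentiableOn.div ?_ (P_comp_diff (absF_summable 0))
        (fun w hw => PF0_ne (ball_subset_closedBall hw))
      exact (by fun_prop : DifferentiableOn ℂ (fun w : ℂ => (Real.sqrt h2 : ℂ) * w ^ 4)
        (ball 0 1)).mul (P_comp_diff (absF_summable 2))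
  · intro w
    unfold ffun
    rw [mul_pow, om9, one_mul]
    refine Prod.ext ?_ ?_
    · simp only
      ring
    · simp only
      ring

end Pool.Agent.Helper326.HB
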