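import Mathlib
import Pool.Agent.Helper326.HB.Defs
import Pool.Agent.Helper326.HB.A3
import Pool.Agent.Helper326.HB.K1
import Pool.Agent.Helper326.HB.N1
import Pool.Agent.Helper326.HB.N2
import Pool.Agent.Helper326.HB.Q1
import Pool.Agent.Helper326.HB.SB
import Pool.Agent.Helper326.HB.W1
import Pool.Agent.Helper326.HB.W2

set_option autoImplicit false
open Complex Metric Set Filter Topology Matrix

namespace Pool.Agent.Helper326.HB

theorem j15505_quot {X0 X1 : ℂ → ℂ} {U : Set ℂ} (hU : IsOpen U)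
    (h0 : DifferentiableOn ℂ X0 U) (h1 : DifferentiableOn ℂ X1 U) (hne : ∀ x ∈ U, X0 x ≠ 0)
    {y : ℂ} (hy : y ∈ U) :
    HasDerivAt (fun x => X1 x / X0 x)
      ((X0 y * deriv X1 y - X1 y * deriv X0 y) / X0 y ^ 2) y := by
  have h := ((h1 y hy).differentiableAt (hU.mem_nhds hy)).hasDerivAt.div
    ((h0 y hy).differentiableAt (hU.mem_nhds hy)).hasDerivAt (hne y hy)
  refine HasDerivAt.congr_deriv h ?_
  ring

theorem j15505_quot2 {X0 X1 : ℂ → ℂ} {U : Set ℂ} (hU : IsOpen U)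
    (h0 : DifferentiableOn ℂ X0 U) (h1 : DifferentiableOn ℂ X1 U) (hne : ∀ x ∈ U, X0 x ≠ 0)
    {y : ℂ} (hy : y ∈ U) :
    HasDerivAt (fun x => (X0 x * deriv X1 x - X1 x * deriv X0 x) / X0 x ^ 2)
      (((X0 y * deriv (deriv X1) y - X1 y * deriv (deriv X0) y) * X0 y -
        2 * (X0 y * deriv X1 y - X1 y * deriv X0 y) * deriv X0 y) / X0 y ^ 3) y := by
  have d0 := ((h0 y hy).differentiableAt (hU.mem_nhds hy)).hasDerivAt
  have d1 := ((h1 y hy).differentiableAt (hU.mem_nhds hy)).hasDerivAt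
  have dd0 := (((h0.deriv hU) y hy).differentiableAt (hU.mem_nhds hy)).hasDerivAt
  have dd1 := (((h1.deriv hU) y hy).differentiableAt (hU.mem_nhds hy)).hasDerivAt
  have h := ((d0.mul dd1).sub (d1.mul dd0)).div (d0.pow 2) (pow_ne_zero 2 (hne y hy))
  refine HasDerivAt.congr_deriv h ?_
  have h3 := hne y hy
  simp only [Pi.mul_apply, Pi.sub_apply, Pi.pow_apply]
  field_simp
  push_cast
  ring

theorem j15505_lagrange (a b c a' b' c' : ℂ) :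
    (‖a‖ ^ 2 - ‖b‖ ^ 2 - ‖c‖ ^ 2) * (‖a * b' - b * a'‖ ^ 2 + ‖a * c' - c * a'‖ ^ 2) +
      ‖(a * b' - b * a') * (starRingEnd ℂ) b + (a * c' - c * a') * (starRingEnd ℂ) c‖ ^ 2 =
    ‖a‖ ^ 2 * (‖a * b' - b * a'‖ ^ 2 + ‖a * c' - c * a'‖ ^ 2 - ‖b * c' - c * b'‖ ^ 2) := by
  simp only [Complex.sq_norm, Complex.normSq_apply, Complex.mul_re, Complex.mul_im,
    Complex.sub_re, Complex.sub_im, Complex.add_re, Complex.add_im, Complex.conj_re,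
    Complex.conj_im]
  ring

theorem quot_Dd {X0 X1 X2 : ℂ → ℂ} {u : ℂ} {U : Set ℂ} (hU : IsOpen U) (hu : u ∈ U)
    (h0 : DifferentiableOn ℂ X0 U) (h1 : DifferentiableOn ℂ X1 U) (h2 : DifferentiableOn ℂ X2 U)
    (hne : ∀ x ∈ U, X0 x ≠ 0) :
    Dd (fun x => (X1 x / X0 x, X2 x / X0 x)) u =
      (‖X0 u * deriv X1 u - X1 u * deriv X0 u‖ ^ 2 + ‖X0 u * deriv X2 u - X2 u * deriv X0 u‖ ^ 2 -
        ‖X1 u * deriv X2 u - X2 u * deriv X1 u‖ ^ 2) / ‖X0 u‖ ^ 4 ∧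
    Wr (fun x => (X1 x / X0 x, X2 x / X0 x)) u =
      Matrix.det !![X0 u, deriv X0 u, deriv (deriv X0) u; X1 u, deriv X1 u, deriv (deriv X1) u;
        X2 u, deriv X2 u, deriv (deriv X2) u] / X0 u ^ 3 := by 
  set G1 : ℂ → ℂ := fun y => (X0 y * deriv X1 y - X1 y * deriv X0 y) / X0 y ^ 2 with hG1
  set G2 : ℂ → ℂ := fun y => (X0 y * deriv X2 y - X2 y * deriv X0 y) / X0 y ^ 2 with hG2
  have hd : ∀ y ∈ U, deriv (fun x => (X1 x / X0 x, X2 x / X0 x)) y = (G1 y, G2 y) := fun y hy =>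
    ((j15505_quot hU h0 h1 hne hy).prodMk (j15505_quot hU h0 h2 hne hy)).deriv
  have hdd : deriv (deriv (fun x => (X1 x / X0 x, X2 x / X0 x))) u =
      (((X0 u * deriv (deriv X1) u - X1 u * deriv (deriv X0) u) * X0 u -
        2 * (X0 u * deriv X1 u - X1 u * deriv X0 u) * deriv X0 u) / X0 u ^ 3,
       ((X0 u * deriv (deriv X2) u - X2 u * deriv (deriv X0) u) * X0 u -
        2 * (X0 u * deriv X2 u - X2 u * deriv X0 u) * deriv X0 u) / X0 u ^ 3) := by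
    have e : deriv (fun x => (X1 x / X0 x, X2 x / X0 x)) =ᶠ[𝓝 u] fun y => (G1 y, G2 y) :=
      Filter.eventually_of_mem (hU.mem_nhds hu) hd
    rw [e.deriv_eq]
    exact ((j15505_quot2 hU h0 h1 hne hu).prodMk (j15505_quot2 hU h0 h2 hne hu)).deriv
  have ha : X0 u ≠ 0 := hne u hu
  have hna : ‖X0 u‖ ≠ 0 := norm_ne_zero_iff.2 ha
  constructor
  · unfold Dd q
    rw [hd u hu]
    simp only [hG1, hG2]
    have e1 : (X0 u * deriv X1 u - X1 u * deriv X0 u) / X0 u ^ 2 *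
        (starRingEnd ℂ) (X1 u / X0 u) +
        (X0 u * deriv X2 u - X2 u * deriv X0 u) / X0 u ^ 2 * (starRingEnd ℂ) (X2 u / X0 u) =
        ((X0 u * deriv X1 u - X1 u * deriv X0 u) * (starRingEnd ℂ) (X1 u) +
          (X0 u * deriv X2 u - X2 u * deriv X0 u) * (starRingEnd ℂ) (X2 u)) /
          (X0 u ^ 2 * (starRingEnd ℂ) (X0 u)) := by
      have ha' : (starRingEnd ℂ) (X0 u) ≠ 0 := by simpa using ha
      rw [map_div₀, map_div₀]
      field_simp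
    have hL := j15505_lagrange (X0 u) (X1 u) (X2 u) (deriv X0 u) (deriv X1 u) (deriv X2 u)
    rw [e1]
    simp only [norm_div, norm_mul, norm_pow, Complex.norm_conj]
    generalize ‖X0 u * deriv X1 u - X1 u * deriv X0 u‖ = A at hL ⊢
    generalize ‖X0 u * deriv X2 u - X2 u * deriv X0 u‖ = B at hL ⊢
    generalize ‖X1 u * deriv X2 u - X2 u * deriv X1 u‖ = C at hL ⊢
    generalize ‖(X0 u * deriv X1 u - X1 u * deriv X0 u) * (starRingEnd ℂ) (X1 u) +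
          (X0 u * deriv X2 u - X2 u * deriv X0 u) * (starRingEnd ℂ) (X2 u)‖ = D at hL ⊢
    field_simp
    linear_combination hL
  · unfold Wr
    rw [hd u hu, hdd]
    simp only [hG1, hG2]
    rw [Matrix.det_fin_three]
    simp
    field_simp
    ring

theorem j15505_norm_psi {n : ℕ} {δ : Fin n → ℝ} {j : Fin n} {u z : ℂ} (hz : Complex.exp u = z) :
    ‖psi δ j u‖ = ‖z‖ ^ (δ j) * ‖P δ j z‖ := by
  rw [psi_eq, norm_mul, hz, Complex.norm_exp]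
  congr 1
  have h1 : ‖z‖ = Real.exp u.re := by rw [← hz, Complex.norm_exp]
  rw [h1, ← Real.exp_mul]
  congr 1
  simp [mul_comm]

theorem j15505_ratio {n : ℕ} {δ : Fin n → ℝ} {i j : Fin n} {k : ℕ} (h : δ j = δ i + k / 9)
    (c t : ℂ) :
    c * Complex.exp (t / 9) ^ k * P δ j (Complex.exp (t / 9) ^ 9) /
      P δ i (Complex.exp (t / 9) ^ 9) = c * psi δ j t / psi δ i t := by
  have e9 : Complex.exp (t / 9) ^ 9 = Complex.exp t := by
    rw [← Complex.exp_nat_mul]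
    congr 1
    push_cast
    ring
  have ek : Complex.exp ((δ j : ℂ) * t) =
      Complex.exp ((δ i : ℂ) * t) * Complex.exp (t / 9) ^ k := by
    rw [← Complex.exp_nat_mul, ← Complex.exp_add, h]
    congr 1
    push_cast
    ring
  rw [e9, psi_eq, psi_eq, ek]
  have h0 := Complex.exp_ne_zero ((δ i : ℂ) * t)
  rw [show c * (Complex.exp ((δ i : ℂ) * t) * Complex.exp (t / 9) ^ k * P δ j (Complex.exp t)) =
    Complex.exp ((δ i : ℂ) * t) * (c * Complex.exp (t / 9) ^ k * P δ j (Complex.exp t)) by ring,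
    mul_div_mul_left _ _ h0]

theorem j15505_le {n : ℕ} {δ : Fin n → ℝ} {j : Fin n} (hp : ∀ k, 0 < hc δ j k)
    (hs : Summable (fun k => hc δ j k)) : ∀ k, |hc δ j k| ≤ ∑' k, hc δ j k := by
  intro k
  rw [abs_of_pos (hp k)]
  exact hs.le_tsum k (fun i _ => (hp i).le)

theorem j15505_PG0 {z : ℂ} (hz : ‖z‖ ≤ 1) : P dG 0 z ≠ 0 := by
  have hs := coefG_summable 0
  have hn : ∀ k : ℕ, ‖(hc dG 0 k : ℂ) * z ^ k‖ ≤ hc dG 0 k := by
    intro k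
    rw [norm_mul, norm_pow, Complex.norm_real, Real.norm_eq_abs, abs_of_pos (coefG_pos 0 k)]
    exact mul_le_of_le_one_right (coefG_pos 0 k).le (pow_le_one₀ (norm_nonneg _) hz)
  have hsum : Summable (fun k : ℕ => (hc dG 0 k : ℂ) * z ^ k) :=
    Summable.of_norm_bounded hs hn
  have h1 : P dG 0 z = 1 + ∑' k, (hc dG 0 (k + 1) : ℂ) * z ^ (k + 1) := by
    unfold P
    rw [hsum.tsum_eq_zero_add]
    simp [hc]
  have h2 : ‖∑' k, (hc dG 0 (k + 1) : ℂ) * z ^ (k + 1)‖ ≤ 0.11 := by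
    refine le_trans ?_ coefG_sum0
    exact tsum_of_norm_bounded ((summable_nat_add_iff 1).2 hs).hasSum (fun k => hn (k + 1))
  intro h
  rw [h1] at h
  have h3 : ∑' k, (hc dG 0 (k + 1) : ℂ) * z ^ (k + 1) = -1 := by
    linear_combination h
  rw [h3, norm_neg, norm_one] at h2
  norm_num at h2

theorem j15505_Dd_congr {F G : ℂ → ℂ × ℂ} {u : ℂ} (h : F =ᶠ[𝓝 u] G) : Dd F u = Dd G u := by
  unfold Dd
  rw [h.eq_of_nhds, h.deriv_eq]

theorem j15505_Wr_congr {F G : ℂ → ℂ × ℂ} {u : ℂ} (h : F =ᶠ[𝓝 u] G) : Wr F u = Wr G u := by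
  unfold Wr
  rw [h.deriv_eq, h.deriv.deriv_eq]

theorem j15505_final {D e g1 h1 h2 ρ F0 G0 U0 U1 U2 : ℝ} (hρ : 0 < ρ) (he : 0 < e) (hg : 0 < g1)
    (hF : 0 < F0) (hG : 0 < G0)
    (h : (h1 / 81 * e ^ 2 * ((ρ ^ 2)⁻¹ * U0) ^ 2 + h2 * 16 / 81 * e ^ 2 * (ρ ^ 70 * U1) ^ 2 -
      h1 * h2 * 9 / 81 * e ^ 2 * (ρ ^ 94 * U2) ^ 2) / (ρ ^ 14 * F0) ^ 4 =
      D * (g1 / 81 * e ^ 2 / (ρ ^ 15 * G0) ^ 4)) :
    D = (h1 * U0 ^ 2 + 16 * h2 * ρ ^ 144 * U1 ^ 2 - 9 * h1 * h2 * ρ ^ 192 * U2 ^ 2) * G0 ^ 4 /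
      (g1 * F0 ^ 4) := by
  have h3 : D = (h1 / 81 * e ^ 2 * ((ρ ^ 2)⁻¹ * U0) ^ 2 +
      h2 * 16 / 81 * e ^ 2 * (ρ ^ 70 * U1) ^ 2 -
      h1 * h2 * 9 / 81 * e ^ 2 * (ρ ^ 94 * U2) ^ 2) / (ρ ^ 14 * F0) ^ 4 /
      (g1 / 81 * e ^ 2 / (ρ ^ 15 * G0) ^ 4) := by
    rw [h, mul_div_cancel_right₀]
    positivity
  rw [h3]
  field_simp

theorem j15505_final2 {D e g1 h1 h2 ρ F0 G0 : ℝ} (hρ : 0 < ρ) (he : 0 < e) (hg : 0 < g1)
    (hF : 0 < F0) (hG : 0 < G0)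
    (h : h1 * h2 * (12 / 729) ^ 2 * (e ^ 3) ^ 2 / ((ρ ^ 14 * F0) ^ 3) ^ 2 =
      D * (g1 / 81 * e ^ 2 / (ρ ^ 15 * G0) ^ 4) ^ 3) :
    D = 144 * h1 * h2 * ρ ^ 96 * G0 ^ 12 / (g1 ^ 3 * F0 ^ 6) := by
  have h3 : D = h1 * h2 * (12 / 729) ^ 2 * (e ^ 3) ^ 2 / ((ρ ^ 14 * F0) ^ 3) ^ 2 /
      (g1 / 81 * e ^ 2 / (ρ ^ 15 * G0) ^ 4) ^ 3 := by
    rw [h, mul_div_cancel_right₀]
    positivity
  rw [h3]
  field_simp
  ring

theorem K2 {F : ℂ → ℂ × ℂ} (hF : DifferentiableOn ℂ F (ball 0 1)) {g1 h1 h2 : ℝ} (hg0 : 0 < g1)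
    (hg1 : g1 ≤ 0.4) (h1l : 0.345 ≤ h1) (h1u : h1 ≤ 0.36) (h2l : 0.0006 ≤ h2)
    (h2u : h2 ≤ 0.00095) (hFs : ∀ w ∈ ball (0 : ℂ) 1, F (sfun g1 w) = ffun h1 h2 w) {w : ℂ}
    (hw : w ∈ ball (0 : ℂ) 1) (hw0 : w ≠ 0) :
    q (F (sfun g1 w)) = NF h1 h2 (w ^ 9) / ‖P dF 0 (w ^ 9)‖ ^ 2 ∧
    Dd F (sfun g1 w) =
      GF h1 h2 (w ^ 9) * ‖P dG 0 (w ^ 9)‖ ^ 4 / (g1 * ‖P dF 0 (w ^ 9)‖ ^ 4) ∧
    ‖Wr F (sfun g1 w)‖ ^ 2 = 144 * h1 * h2 * ‖w ^ 9‖ ^ (4 / 9 : ℝ) * ‖P dG 0 (w ^ 9)‖ ^ 12 /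
      (g1 ^ 3 * ‖P dF 0 (w ^ 9)‖ ^ 6) := by 
  have hw1 : ‖w‖ < 1 := by simpa using hw
  have hwpos : 0 < ‖w‖ := norm_pos_iff.2 hw0
  obtain ⟨u, hu⟩ : ∃ u : ℂ, u = 9 * Complex.log w := ⟨_, rfl⟩
  have hure : u.re < 0 := by
    rw [hu, Complex.mul_re, Complex.log_re]
    have h9 : (9 : ℂ).re = 9 := rfl
    have h9' : (9 : ℂ).im = 0 := rfl
    rw [h9, h9', zero_mul, sub_zero]
    have := Real.log_neg hwpos hw1
    linarith
  have hu9 : Complex.exp (u / 9) = w := by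
    rw [hu, mul_div_cancel_left₀ _ (by norm_num), Complex.exp_log hw0]
  have huz : Complex.exp u = w ^ 9 := by
    rw [← hu9, ← Complex.exp_nat_mul]
    congr 1
    push_cast
    ring
  obtain ⟨W, hWdef⟩ : ∃ W : Set ℂ, W = {t : ℂ | t.re < 0} := ⟨_, rfl⟩
  have hW : IsOpen W := by
    rw [hWdef]
    exact isOpen_lt Complex.continuous_re continuous_const
  have huW : u ∈ W := by rw [hWdef]; exact hure
  have hWre : ∀ t ∈ W, t.re < 0 := by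
    intro t ht
    rw [hWdef] at ht
    exact ht
  have hnexp : ∀ t ∈ W, ‖Complex.exp t‖ < 1 := by
    intro t ht
    rw [Complex.norm_exp, ← Real.exp_zero]
    exact Real.exp_lt_exp.2 (hWre t ht)
  have hexp : MapsTo (fun t : ℂ => Complex.exp (t / 9)) W (ball (0 : ℂ) 1) := by
    intro t ht
    have h1 : (t / 9).re = t.re / 9 := by
      rw [show (9 : ℂ) = ((9 : ℝ) : ℂ) by norm_num, Complex.div_ofReal_re]
    rw [mem_ball_zero_iff, Complex.norm_exp, h1, ← Real.exp_zero]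
    refine Real.exp_lt_exp.2 ?_
    have := hWre t ht
    linarith
  obtain ⟨-, hs2, hs3, -, -, -⟩ := s_basics hg0 hg1
  obtain ⟨σ, hσ⟩ : ∃ σ : ℂ → ℂ, σ = fun t => sfun g1 (Complex.exp (t / 9)) := ⟨_, rfl⟩
  have hσd : DifferentiableOn ℂ σ W := by
    rw [hσ]
    exact hs3.comp (by fun_prop) hexp
  have hσm : MapsTo σ W (ball 0 1) := by
    rw [hσ]
    exact fun t ht => hs2 (ball_subset_closedBall (hexp ht))
  obtain ⟨hD, hWr⟩ := pre_comp isOpen_ball hF hW hσd hσm huW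
  have hσu : σ u = sfun g1 w := by rw [hσ]; simp only; rw [hu9]
  have hσeq : σ = fun t => (Real.sqrt g1 : ℂ) * psi dG 1 t / psi dG 0 t := by
    rw [hσ]
    funext t
    have h := j15505_ratio (δ := dG) (i := 0) (j := 1) (k := 1) (by simp [dG]; norm_num)
      (Real.sqrt g1 : ℂ) t
    rw [pow_one] at h
    exact h
  have hFeq : ∀ t ∈ W, F (σ t) = ((Real.sqrt h1 : ℂ) * psi dF 1 t / psi dF 0 t,
      (Real.sqrt h2 : ℂ) * psi dF 2 t / psi dF 0 t) := by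
    intro t ht
    rw [hσ]
    simp only
    rw [hFs _ (hexp ht)]
    unfold ffun
    have e1 := j15505_ratio (δ := dF) (i := 0) (j := 1) (k := 1) (by simp [dF]; norm_num)
      (Real.sqrt h1 : ℂ) t
    have e2 := j15505_ratio (δ := dF) (i := 0) (j := 2) (k := 4) (by simp [dF]; norm_num)
      (Real.sqrt h2 : ℂ) t
    rw [pow_one] at e1
    rw [← e1, ← e2]
  have dF' : ∀ j : Fin 3, DifferentiableOn ℂ (psi dF j) W := by
    intro j
    rw [hWdef]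
    exact psi_diff (j15505_le (coefF_pos j) (coefF_summable j))
  have dG' : ∀ j : Fin 2, DifferentiableOn ℂ (psi dG j) W := by
    intro j
    rw [hWdef]
    exact psi_diff (j15505_le (coefG_pos j) (coefG_summable j))
  have nF : ∀ t ∈ W, psi dF 0 t ≠ 0 := by
    intro t ht h
    rw [psi_eq, mul_eq_zero] at h
    rcases h with h | h
    · exact Complex.exp_ne_zero _ h
    · have h1 := (P_bounds (z := Complex.exp t) (by
        rw [mem_closedBall_zero_iff]; exact (hnexp t ht).le)).1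
      rw [h, norm_zero] at h1
      norm_num at h1
  have nG : ∀ t ∈ W, psi dG 0 t ≠ 0 := by
    intro t ht h
    rw [psi_eq, mul_eq_zero] at h
    rcases h with h | h
    · exact Complex.exp_ne_zero _ h
    · exact j15505_PG0 (hnexp t ht).le h
  -- the quantities
  have hg1' : 0 ≤ g1 := hg0.le
  have hh1 : 0 ≤ h1 := by linarith
  have hh2 : 0 ≤ h2 := by linarith
  have sg : ‖(Real.sqrt g1 : ℂ)‖ ^ 2 = g1 := by
    rw [Complex.norm_real, Real.norm_eq_abs, sq_abs, Real.sq_sqrt hg1']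
  have sh1 : ‖(Real.sqrt h1 : ℂ)‖ ^ 2 = h1 := by
    rw [Complex.norm_real, Real.norm_eq_abs, sq_abs, Real.sq_sqrt hh1]
  have sh2 : ‖(Real.sqrt h2 : ℂ)‖ ^ 2 = h2 := by
    rw [Complex.norm_real, Real.norm_eq_abs, sq_abs, Real.sq_sqrt hh2]
  obtain ⟨E, hE⟩ : ∃ E : ℂ, E = Complex.exp (u / 4) * (1 - Complex.exp u) ^ (-(1 / 2) : ℂ) :=
    ⟨_, rfl⟩
  have h1e : 1 - Complex.exp u ≠ 0 := by
    intro h
    have h2 : Complex.exp u = 1 := by linear_combination -h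
    have h3 := hnexp u huW
    rw [h2, norm_one] at h3
    exact lt_irrefl _ h3
  have hE0 : E ≠ 0 := by
    rw [hE, Complex.cpow_def_of_ne_zero h1e]
    exact mul_ne_zero (Complex.exp_ne_zero _) (Complex.exp_ne_zero _)
  have hepos : 0 < ‖E‖ := norm_pos_iff.2 hE0
  have hE3 : E ^ 3 = Complex.exp (3 * u / 4) * (1 - Complex.exp u) ^ (-(3 / 2) : ℂ) := by
    rw [hE, mul_pow, ← Complex.exp_nat_mul, ← Complex.cpow_nat_mul]
    congr 1
    · congr 1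
      push_cast
      ring
    · congr 1
      push_cast
      ring
  -- derivative of σ
  have hσ' : deriv σ u = (Real.sqrt g1 : ℂ) * (1 / 9 * E) / psi dG 0 u ^ 2 := by
    rw [hσeq, (j15505_quot hW (dG' 0) ((dG' 1).const_mul (Real.sqrt g1 : ℂ)) nG huW).deriv,
      deriv_const_mul_field, hE]
    have h := wr2 hure
    congr 1
    linear_combination (Real.sqrt g1 : ℂ) * h
  have hσn : ‖deriv σ u‖ ^ 2 = g1 / 81 * ‖E‖ ^ 2 / ‖psi dG 0 u‖ ^ 4 := by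
    rw [hσ', norm_div, norm_mul, norm_mul, norm_pow, div_pow, mul_pow, mul_pow, sg]
    norm_num
    ring
  have hev : (fun t => F (σ t)) =ᶠ[𝓝 u] fun t => ((Real.sqrt h1 : ℂ) * psi dF 1 t / psi dF 0 t,
      (Real.sqrt h2 : ℂ) * psi dF 2 t / psi dF 0 t) :=
    Filter.eventually_of_mem (hW.mem_nhds huW) hFeq
  obtain ⟨q1, q2⟩ := quot_Dd hW huW (dF' 0) ((dF' 1).const_mul (Real.sqrt h1 : ℂ))
    ((dF' 2).const_mul (Real.sqrt h2 : ℂ)) nF
  obtain ⟨w1, w2, w3⟩ := wr_ext hure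
  have hA : ‖psi dF 0 u * deriv (fun t => (Real.sqrt h1 : ℂ) * psi dF 1 t) u -
      (Real.sqrt h1 : ℂ) * psi dF 1 u * deriv (psi dF 0) u‖ ^ 2 =
      h1 / 81 * ‖E‖ ^ 2 * ‖psi dU 0 u‖ ^ 2 := by
    have e : psi dF 0 u * deriv (fun t => (Real.sqrt h1 : ℂ) * psi dF 1 t) u -
      (Real.sqrt h1 : ℂ) * psi dF 1 u * deriv (psi dF 0) u =
      (Real.sqrt h1 : ℂ) * ((1 / 9) * E * psi dU 0 u) := by
      rw [deriv_const_mul_field, hE]
      linear_combination (Real.sqrt h1 : ℂ) * w1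
    rw [e, norm_mul, norm_mul, norm_mul, mul_pow, mul_pow, mul_pow, sh1]
    norm_num
    ring
  have hB : ‖psi dF 0 u * deriv (fun t => (Real.sqrt h2 : ℂ) * psi dF 2 t) u -
      (Real.sqrt h2 : ℂ) * psi dF 2 u * deriv (psi dF 0) u‖ ^ 2 =
      h2 * 16 / 81 * ‖E‖ ^ 2 * ‖psi dU 1 u‖ ^ 2 := by
    have e : psi dF 0 u * deriv (fun t => (Real.sqrt h2 : ℂ) * psi dF 2 t) u -
      (Real.sqrt h2 : ℂ) * psi dF 2 u * deriv (psi dF 0) u =
      (Real.sqrt h2 : ℂ) * ((4 / 9) * E * psi dU 1 u) := by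
      rw [deriv_const_mul_field, hE]
      linear_combination (Real.sqrt h2 : ℂ) * w2
    rw [e, norm_mul, norm_mul, norm_mul, mul_pow, mul_pow, mul_pow, sh2]
    norm_num
    ring
  have hC : ‖(Real.sqrt h1 : ℂ) * psi dF 1 u * deriv (fun t => (Real.sqrt h2 : ℂ) * psi dF 2 t) u -
      (Real.sqrt h2 : ℂ) * psi dF 2 u * deriv (fun t => (Real.sqrt h1 : ℂ) * psi dF 1 t) u‖ ^ 2 =
      h1 * h2 * 9 / 81 * ‖E‖ ^ 2 * ‖psi dU 2 u‖ ^ 2 := by
    have e : (Real.sqrt h1 : ℂ) * psi dF 1 u * deriv (fun t => (Real.sqrt h2 : ℂ) * psi dF 2 t) u -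
      (Real.sqrt h2 : ℂ) * psi dF 2 u * deriv (fun t => (Real.sqrt h1 : ℂ) * psi dF 1 t) u =
      (Real.sqrt h1 : ℂ) * ((Real.sqrt h2 : ℂ) * ((3 / 9) * E * psi dU 2 u)) := by
      rw [deriv_const_mul_field, deriv_const_mul_field, hE]
      linear_combination (Real.sqrt h1 : ℂ) * (Real.sqrt h2 : ℂ) * w3
    rw [e, norm_mul, norm_mul, norm_mul, norm_mul, mul_pow, mul_pow, mul_pow, mul_pow, sh1, sh2]
    norm_num
    ring
  have hDet : Matrix.det !![psi dF 0 u, deriv (psi dF 0) u, deriv (deriv (psi dF 0)) u;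
      (Real.sqrt h1 : ℂ) * psi dF 1 u, deriv (fun t => (Real.sqrt h1 : ℂ) * psi dF 1 t) u,
        deriv (deriv (fun t => (Real.sqrt h1 : ℂ) * psi dF 1 t)) u;
      (Real.sqrt h2 : ℂ) * psi dF 2 u, deriv (fun t => (Real.sqrt h2 : ℂ) * psi dF 2 t) u,
        deriv (deriv (fun t => (Real.sqrt h2 : ℂ) * psi dF 2 t)) u] =
      (Real.sqrt h1 : ℂ) * ((Real.sqrt h2 : ℂ) * (12 / 729 * E ^ 3)) := by
    have h3 := wr3 hure
    have e1 : Matrix.det (Matrix.of fun (j i : Fin 3) => iteratedDeriv (i : ℕ) (psi dF j) u) =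
        Matrix.det !![psi dF 0 u, deriv (psi dF 0) u, deriv (deriv (psi dF 0)) u;
          psi dF 1 u, deriv (psi dF 1) u, deriv (deriv (psi dF 1)) u;
          psi dF 2 u, deriv (psi dF 2) u, deriv (deriv (psi dF 2)) u] := by
      congr 1
      ext i j
      fin_cases i <;> fin_cases j <;> simp [iteratedDeriv_succ, iteratedDeriv_zero]
    rw [e1, Matrix.det_fin_three] at h3
    have hd : ∀ (c : ℂ) (f : ℂ → ℂ), deriv (fun t => c * f t) = fun t => c * deriv f t := by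
      intro c f
      funext t
      exact deriv_const_mul_field c
    rw [Matrix.det_fin_three]
    simp only [hd, hE3]
    simp at h3 ⊢
    linear_combination (Real.sqrt h1 : ℂ) * (Real.sqrt h2 : ℂ) * h3
  rw [hσu, j15505_Dd_congr hev, q1, hA, hB, hC, hσn] at hD
  rw [hσu, j15505_Wr_congr hev, q2, hDet] at hWr
  have hR : 0 < ‖w ^ 9‖ := norm_pos_iff.2 (pow_ne_zero 9 hw0)
  obtain ⟨ρ, hρ⟩ : ∃ ρ : ℝ, ρ = ‖w ^ 9‖ ^ (1 / 216 : ℝ) := ⟨_, rfl⟩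
  have hρpos : 0 < ρ := by rw [hρ]; exact Real.rpow_pos_of_pos hR _
  have hpow : ∀ (k : ℕ) (x : ℝ), x = k / 216 → ‖w ^ 9‖ ^ x = ρ ^ k := by
    intro k x hx
    rw [hρ, ← Real.rpow_natCast, ← Real.rpow_mul hR.le, hx]
    congr 1
    ring
  have r1 : ‖psi dF 0 u‖ = ρ ^ 14 * ‖P dF 0 (w ^ 9)‖ := by
    rw [j15505_norm_psi huz, hpow 14 (dF 0) (by simp [dF]; norm_num)]
  have r2 : ‖psi dG 0 u‖ = ρ ^ 15 * ‖P dG 0 (w ^ 9)‖ := by
    rw [j15505_norm_psi huz, hpow 15 (dG 0) (by simp [dG]; norm_num)]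
  have r3 : ‖psi dU 1 u‖ = ρ ^ 70 * ‖P dU 1 (w ^ 9)‖ := by
    rw [j15505_norm_psi huz, hpow 70 (dU 1) (by simp [dU]; norm_num)]
  have r4 : ‖psi dU 2 u‖ = ρ ^ 94 * ‖P dU 2 (w ^ 9)‖ := by
    rw [j15505_norm_psi huz, hpow 94 (dU 2) (by simp [dU]; norm_num)]
  have r5 : ‖psi dU 0 u‖ = (ρ ^ 2)⁻¹ * ‖P dU 0 (w ^ 9)‖ := by
    rw [j15505_norm_psi huz, ← hpow 2 (1 / 108) (by norm_num), ← Real.rpow_neg hR.le]
    congr 2
    simp [dU]
    norm_num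
  have hF0 : 0 < ‖P dF 0 (w ^ 9)‖ := by
    rw [norm_pos_iff]
    intro h
    apply nF u huW
    rw [psi_eq, huz, h, mul_zero]
  have hG0 : 0 < ‖P dG 0 (w ^ 9)‖ := by
    rw [norm_pos_iff]
    intro h
    apply nG u huW
    rw [psi_eq, huz, h, mul_zero]
  refine ⟨?_, ?_, ?_⟩
  · rw [hFs w hw]
    unfold q ffun NF
    have p1 : ‖w ^ 9‖ ^ (2 / 9 : ℝ) = ‖w‖ ^ 2 := by
      rw [norm_pow, ← Real.rpow_natCast, ← Real.rpow_mul hwpos.le, ← Real.rpow_natCast]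
      congr 1
      norm_num
    have p2 : ‖w ^ 9‖ ^ (8 / 9 : ℝ) = ‖w‖ ^ 8 := by
      rw [norm_pow, ← Real.rpow_natCast, ← Real.rpow_mul hwpos.le, ← Real.rpow_natCast]
      congr 1
      norm_num
    rw [p1, p2]
    simp only [norm_div, norm_mul, norm_pow, div_pow, mul_pow, sh1, sh2]
    field_simp
  · rw [r1, r2, r3, r4, r5] at hD
    rw [j15505_final hρpos hepos hg0 hF0 hG0 hD]
    unfold GF
    rw [hpow 144 (6 / 9) (by norm_num), hpow 192 (8 / 9) (by norm_num)]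
  · have h4 : ‖Wr F (sfun g1 w)‖ ^ 2 * (‖deriv σ u‖ ^ 2) ^ 3 =
        ‖(Real.sqrt h1 : ℂ) * ((Real.sqrt h2 : ℂ) * (12 / 729 * E ^ 3)) / psi dF 0 u ^ 3‖ ^ 2 := by
      rw [hWr, norm_mul, norm_pow]
      ring
    have h5 : ‖(Real.sqrt h1 : ℂ) * ((Real.sqrt h2 : ℂ) * (12 / 729 * E ^ 3)) / psi dF 0 u ^ 3‖ ^ 2 =
        h1 * h2 * (12 / 729) ^ 2 * (‖E‖ ^ 3) ^ 2 / (‖psi dF 0 u‖ ^ 3) ^ 2 := by
      have h6 : ‖(12 / 729 : ℂ)‖ = 12 / 729 := by norm_num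
      rw [norm_div, norm_mul, norm_mul, norm_mul, norm_pow, norm_pow, div_pow, mul_pow, mul_pow,
        mul_pow, sh1, sh2, h6]
      ring
    rw [h5, hσn, r1, r2] at h4
    rw [j15505_final2 (h1 := h1) (h2 := h2) hρpos hepos hg0 hF0 hG0 h4.symm]
    rw [hpow 96 (4 / 9) (by norm_num)]

end Pool.Agent.Helper326.HB
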