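import Mathlib
import Pool.Agent.Helper326.HB.Defs
import Pool.Agent.Helper326.HB.A1
import Pool.Agent.Helper326.HB.A2
import Pool.Agent.Helper326.HB.A3
import Pool.Agent.Helper326.HB.K1
import Pool.Agent.Helper326.HB.N1
import Pool.Agent.Helper326.HB.N2
import Pool.Agent.Helper326.HB.Q1
import Pool.Agent.Helper326.HB.SB
import Pool.Agent.Helper326.HB.TR
import Pool.Agent.Helper326.HB.W1
import Pool.Agent.Helper326.HB.W2

set_option autoImplicit false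
open Complex Metric Set Filter Topology Matrix

namespace Pool.Agent.Helper326.HB

theorem geom_ext {Φ : ℂ → ℝ} (hΦ : ContinuousOn Φ (closedBall 0 1))
    (h : ∀ w ∈ ball (0:ℂ) 1, w ≠ 0 → 0 ≤ Φ w) : ∀ w ∈ closedBall (0:ℂ) 1, 0 ≤ Φ w := by
  intro w hw
  have h1 : ball (0:ℂ) 1 ⊆ closure (ball (0:ℂ) 1 ∩ {0}ᶜ) :=
    (dense_compl_singleton (0:ℂ)).open_subset_closure_inter isOpen_ball
  have h2 : closedBall (0:ℂ) 1 ⊆ closure (ball (0:ℂ) 1 ∩ {0}ᶜ) := by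
    rw [← closure_ball (0:ℂ) one_ne_zero]
    exact closure_minimal h1 isClosed_closure
  have h3 := mem_closure_iff_nhdsWithin_neBot.1 (h2 hw)
  have h4 : Tendsto Φ (𝓝[ball (0:ℂ) 1 ∩ {0}ᶜ] w) (𝓝 (Φ w)) :=
    (hΦ w hw).mono_left (nhdsWithin_mono w (inter_subset_left.trans ball_subset_closedBall))
  refine ge_of_tendsto h4 ?_
  filter_upwards [self_mem_nhdsWithin] with x hx
  exact h x hx.1 hx.2

theorem geom_PG {z : ℂ} (hz : z ∈ closedBall (0:ℂ) 1) :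
    0.89 ≤ ‖P dG 0 z‖ ∧ ‖P dG 0 z‖ ≤ 1.11 := by
  have hz1 : ‖z‖ ≤ 1 := by simpa using hz
  have hs := coefG_summable 0
  have hb : ∀ k : ℕ, ‖(hc dG 0 k : ℂ) * z ^ k‖ ≤ hc dG 0 k := by
    intro k
    rw [norm_mul, norm_pow, Complex.norm_real, Real.norm_of_nonneg (coefG_pos 0 k).le]
    have h1 : ‖z‖ ^ k ≤ 1 := pow_le_one₀ (norm_nonneg z) hz1
    have h2 := mul_le_mul_of_nonneg_left h1 (coefG_pos 0 k).le
    rw [mul_one] at h2
    exact h2
  have hsum : Summable (fun k : ℕ => (hc dG 0 k : ℂ) * z ^ k) := Summable.of_norm_bounded hs hb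
  have h1 : P dG 0 z = 1 + ∑' k : ℕ, (hc dG 0 (k + 1) : ℂ) * z ^ (k + 1) := by
    unfold P
    rw [hsum.tsum_eq_zero_add]
    simp [hc]
  have h2 : ‖∑' k : ℕ, (hc dG 0 (k + 1) : ℂ) * z ^ (k + 1)‖ ≤ 0.11 := by
    refine le_trans ?_ coefG_sum0
    exact tsum_of_norm_bounded ((summable_nat_add_iff 1).2 hs).hasSum (fun k => hb (k + 1))
  rw [h1]
  set t := ∑' k : ℕ, (hc dG 0 (k + 1) : ℂ) * z ^ (k + 1) with ht
  have h3 : ‖(1:ℂ)‖ = 1 := norm_one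
  have h4 := norm_add_le (1:ℂ) t
  have h5 : ‖(1:ℂ)‖ - ‖t‖ ≤ ‖1 + t‖ := by
    have := norm_sub_norm_le (1:ℂ) (-t)
    rw [norm_neg, sub_neg_eq_add] at this
    exact this
  rw [h3] at h4 h5
  constructor <;> linarith

theorem geom_pow_mem {w : ℂ} (hw : w ∈ ball (0:ℂ) 1) : w ^ 9 ∈ closedBall (0:ℂ) 1 := by
  rw [mem_closedBall_zero_iff, norm_pow]
  rw [mem_ball_zero_iff] at hw
  exact pow_le_one₀ (norm_nonneg _) hw.le

theorem geom_congr {f g : ℂ → ℂ × ℂ} {x : ℂ} (h : f =ᶠ[𝓝 x] g) :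
    Wr f x = Wr g x ∧ Dd f x = Dd g x := by
  have h1 : deriv f x = deriv g x := h.deriv_eq
  have h2 : deriv (deriv f) x = deriv (deriv g) x := h.deriv.deriv_eq
  have h0 : f x = g x := h.eq_of_nhds
  unfold Wr Dd
  rw [h1, h2, h0]
  exact ⟨rfl, rfl⟩

theorem geom {F : ℂ → ℂ × ℂ} (hF : DifferentiableOn ℂ F (ball 0 1))
    (hm : MapsTo F (ball 0 1) B2) {g1 h1 h2 : ℝ} (hg0 : 0 < g1)
    (hg1 : g1 ≤ 0.4) (h1l : 0.345 ≤ h1) (h1u : h1 ≤ 0.36) (h2l : 0.0006 ≤ h2)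
    (h2u : h2 ≤ 0.00095) (hFs : ∀ w ∈ ball (0 : ℂ) 1, F (sfun g1 w) = ffun h1 h2 w)
    (hcov : Cover F (sfun g1 '' closedBall 0 1)) :
    (∀ y ∈ ball (0 : ℂ) 1, ‖Wr F y‖ ^ 2 * q (F y) ^ 3 ≤ 0.6 * Dd F y ^ 3) ∧
    (∀ y ∈ sfun g1 '' closedBall 0 1, 0 < Dd F y) ∧ Wr F 0 = 0 ∧
    ∃ y₀ ∈ ball (0 : ℂ) 1, Wr F y₀ ≠ 0 := by
  obtain ⟨sc, sm, -, -, s0, -⟩ := s_basics hg0 hg1
  have cF : ContinuousOn F (ball 0 1) := hF.continuousOn
  have dF1 : DifferentiableOn ℂ (deriv F) (ball 0 1) := hF.deriv isOpen_ball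
  have dF2 : DifferentiableOn ℂ (deriv (deriv F)) (ball 0 1) := dF1.deriv isOpen_ball
  have cF1 := dF1.continuousOn
  have cF2 := dF2.continuousOn
  have cW : ContinuousOn (fun y => Wr F y) (ball 0 1) := by
    unfold Wr
    exact ((continuous_fst.comp_continuousOn cF1).mul (continuous_snd.comp_continuousOn cF2)).sub
      ((continuous_snd.comp_continuousOn cF1).mul (continuous_fst.comp_continuousOn cF2))
  have cq : ContinuousOn (fun y => q (F y)) (ball 0 1) := by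
    unfold q
    exact (continuousOn_const.sub ((continuous_fst.comp_continuousOn cF).norm.pow 2)).sub
      ((continuous_snd.comp_continuousOn cF).norm.pow 2)
  have cD : ContinuousOn (fun y => Dd F y) (ball 0 1) := by
    unfold Dd
    refine (cq.mul (((continuous_fst.comp_continuousOn cF1).norm.pow 2).add
      ((continuous_snd.comp_continuousOn cF1).norm.pow 2))).add ?_
    refine ContinuousOn.pow (ContinuousOn.norm ?_) 2
    exact ((continuous_fst.comp_continuousOn cF1).mul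
      (Complex.continuous_conj.comp_continuousOn (continuous_fst.comp_continuousOn cF))).add
      ((continuous_snd.comp_continuousOn cF1).mul
      (Complex.continuous_conj.comp_continuousOn (continuous_snd.comp_continuousOn cF)))
  have cWs : ContinuousOn (fun w => Wr F (sfun g1 w)) (closedBall 0 1) := cW.comp sc sm
  have cqs : ContinuousOn (fun w => q (F (sfun g1 w))) (closedBall 0 1) := cq.comp sc sm
  have cDs : ContinuousOn (fun w => Dd F (sfun g1 w)) (closedBall 0 1) := cD.comp sc sm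
  have hh1 : 0 < h1 := by linarith
  have hh2 : 0 < h2 := by linarith
  -- inequality on the image of the closed disc
  have A1 : ∀ w ∈ closedBall (0:ℂ) 1, 0 ≤ 0.6 * Dd F (sfun g1 w) ^ 3 -
      ‖Wr F (sfun g1 w)‖ ^ 2 * q (F (sfun g1 w)) ^ 3 := by
    apply geom_ext
    · exact (continuousOn_const.mul (cDs.pow 3)).sub ((cWs.norm.pow 2).mul (cqs.pow 3))
    · intro w hw hw0
      obtain ⟨e1, e2, e3⟩ := K2 hF hg0 hg1 h1l h1u h2l h2u hFs hw hw0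
      have hz := geom_pow_mem hw
      obtain ⟨b1, b2, _, _, _, _⟩ := P_bounds hz
      have hk := kap_z h1l h1u h2l h2u hz
      rw [e1, e2, e3]
      have hP : 0 < ‖P dF 0 (w ^ 9)‖ := by linarith
      set p := ‖P dF 0 (w ^ 9)‖ with hp
      set pg := ‖P dG 0 (w ^ 9)‖ with hpg
      set NN := NF h1 h2 (w ^ 9) with hNN
      set GG := GF h1 h2 (w ^ 9) with hGG
      set R := ‖w ^ 9‖ ^ (4 / 9 : ℝ) with hR
      have e : 0.6 * (GG * pg ^ 4 / (g1 * p ^ 4)) ^ 3 -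
          144 * h1 * h2 * R * pg ^ 12 / (g1 ^ 3 * p ^ 6) * (NN / p ^ 2) ^ 3 =
          (pg ^ 12 / (g1 ^ 3 * p ^ 12)) * (0.6 * GG ^ 3 - 144 * h1 * h2 * R * NN ^ 3) := by
        field_simp
      rw [e]
      apply mul_nonneg
      · positivity
      · linarith
  have c0pos : 0 < 0.9 * h1 * 0.89 ^ 4 / (g1 * 1.105 ^ 4) := by positivity
  have A2 : ∀ w ∈ closedBall (0:ℂ) 1, 0 ≤ Dd F (sfun g1 w) -
      0.9 * h1 * 0.89 ^ 4 / (g1 * 1.105 ^ 4) := by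
    apply geom_ext
    · exact cDs.sub continuousOn_const
    · intro w hw hw0
      obtain ⟨e1, e2, e3⟩ := K2 hF hg0 hg1 h1l h1u h2l h2u hFs hw hw0
      have hz := geom_pow_mem hw
      obtain ⟨b1, b2, _, _, _, _⟩ := P_bounds hz
      obtain ⟨g2, g3⟩ := geom_PG hz
      have hG := GF_lower h1l h1u h2l h2u hz
      rw [e2, sub_nonneg]
      have hP : 0 < ‖P dF 0 (w ^ 9)‖ := by linarith
      have i1 : (0.89:ℝ) ^ 4 ≤ ‖P dG 0 (w ^ 9)‖ ^ 4 := pow_le_pow_left₀ (by norm_num) g2 4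
      have i2 : ‖P dF 0 (w ^ 9)‖ ^ 4 ≤ 1.105 ^ 4 := pow_le_pow_left₀ hP.le b2 4
      apply div_le_div₀
      · exact mul_nonneg (le_trans (by positivity) hG) (by positivity)
      · exact mul_le_mul hG i1 (by positivity) (le_trans (by positivity) hG)
      · positivity
      · exact mul_le_mul_of_nonneg_left i2 hg0.le
  have A3 : ∀ w ∈ closedBall (0:ℂ) 1, 0 ≤ (144 * h1 * h2 * 1.11 ^ 12 / (g1 ^ 3 * 0.895 ^ 6)) *
      ‖w ^ 9‖ ^ (4 / 9 : ℝ) - ‖Wr F (sfun g1 w)‖ ^ 2 := by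
    apply geom_ext
    · refine (continuousOn_const.mul ?_).sub (cWs.norm.pow 2)
      apply Continuous.continuousOn
      exact (continuous_id.pow 9).norm.rpow_const (fun x => Or.inr (by norm_num))
    · intro w hw hw0
      obtain ⟨e1, e2, e3⟩ := K2 hF hg0 hg1 h1l h1u h2l h2u hFs hw hw0
      have hz := geom_pow_mem hw
      obtain ⟨b1, b2, _, _, _, _⟩ := P_bounds hz
      obtain ⟨g2, g3⟩ := geom_PG hz
      rw [e3, sub_nonneg]
      have hP : 0 < ‖P dF 0 (w ^ 9)‖ := by linarith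
      have i1 : ‖P dG 0 (w ^ 9)‖ ^ 12 ≤ 1.11 ^ 12 := pow_le_pow_left₀ (norm_nonneg _) g3 12
      have i2 : (0.895:ℝ) ^ 6 ≤ ‖P dF 0 (w ^ 9)‖ ^ 6 := pow_le_pow_left₀ (by norm_num) b1 6
      have hR : 0 ≤ ‖w ^ 9‖ ^ (4 / 9 : ℝ) := by positivity
      have e : (144 * h1 * h2 * 1.11 ^ 12 / (g1 ^ 3 * 0.895 ^ 6)) * ‖w ^ 9‖ ^ (4 / 9 : ℝ) =
          (144 * h1 * h2 * ‖w ^ 9‖ ^ (4 / 9 : ℝ) * 1.11 ^ 12) / (g1 ^ 3 * 0.895 ^ 6) := by ring
      rw [e]
      apply div_le_div₀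
      · positivity
      · exact mul_le_mul_of_nonneg_left i1 (by positivity)
      · positivity
      · exact mul_le_mul_of_nonneg_left i2 (by positivity)
  refine ⟨?_, ?_, ?_, ?_⟩
  · intro y hy
    obtain ⟨hCc, hCb, hCx⟩ := hcov
    obtain ⟨x, hxC, g, A, ⟨hg, hA, hp⟩, rfl⟩ := hCx y hy
    have hx : x ∈ ball (0:ℂ) 1 := hCb hxC
    have hA' := (U3_inv hA).1
    have hinv := (kap_inv hF hm hg hA' hx 0.6).1
    rw [← hinv]
    have hev : (fun t => act A⁻¹ (F (mob g t))) =ᶠ[𝓝 x] F := by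
      filter_upwards [isOpen_ball.mem_nhds hx] with t ht
      show act A⁻¹ (F (mob g t)) = F t
      rw [hp t ht]
      exact (act_inv_act hA (hm ht)).1
    obtain ⟨w1, w2⟩ := geom_congr hev
    have w3 : act A⁻¹ (F (mob g x)) = F x := hev.eq_of_nhds
    rw [w1, w2, w3]
    obtain ⟨w, hw, rfl⟩ := hxC
    have := A1 w hw
    linarith
  · rintro _ ⟨w, hw, rfl⟩
    have := A2 w hw
    linarith
  · have h := A3 0 (mem_closedBall_self zero_le_one)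
    rw [s0] at h
    have h0 : ‖(0:ℂ) ^ 9‖ ^ (4 / 9 : ℝ) = 0 := by
      rw [zero_pow (by norm_num), norm_zero, Real.zero_rpow (by norm_num)]
    rw [h0, mul_zero, zero_sub] at h
    have h2 : ‖Wr F 0‖ ^ 2 = 0 := le_antisymm (by linarith) (sq_nonneg _)
    exact norm_eq_zero.1 (pow_eq_zero_iff (two_ne_zero) |>.1 h2)
  · have hw : (1/2 : ℂ) ∈ ball (0:ℂ) 1 := by
      rw [mem_ball_zero_iff]
      norm_num
    have hw0 : (1/2 : ℂ) ≠ 0 := by norm_num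
    refine ⟨sfun g1 (1/2), sm (ball_subset_closedBall hw), ?_⟩
    obtain ⟨e1, e2, e3⟩ := K2 hF hg0 hg1 h1l h1u h2l h2u hFs hw hw0
    have hz := geom_pow_mem hw
    obtain ⟨b1, b2, _, _, _, _⟩ := P_bounds hz
    obtain ⟨g2, g3⟩ := geom_PG hz
    intro h0
    rw [h0, norm_zero] at e3
    have hP : 0 < ‖P dF 0 ((1/2:ℂ) ^ 9)‖ := by linarith
    have hPG : 0 < ‖P dG 0 ((1/2:ℂ) ^ 9)‖ := by linarith
    have hn : 0 < ‖(1/2:ℂ) ^ 9‖ := norm_pos_iff.2 (pow_ne_zero 9 hw0)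
    have hR : 0 < ‖(1/2:ℂ) ^ 9‖ ^ (4 / 9 : ℝ) := Real.rpow_pos_of_pos hn _
    have hpos : 0 < 144 * h1 * h2 * ‖(1/2:ℂ) ^ 9‖ ^ (4 / 9 : ℝ) *
        ‖P dG 0 ((1/2:ℂ) ^ 9)‖ ^ 12 / (g1 ^ 3 * ‖P dF 0 ((1/2:ℂ) ^ 9)‖ ^ 6) := by positivity
    rw [← e3] at hpos
    norm_num at hpos

end Pool.Agent.Helper326.HB
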