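import Mathlib
import Pool.Agent.Helper326.HB.Defs
import Pool.Agent.Helper326.HB.A1
import Pool.Agent.Helper326.HB.A2
import Pool.Agent.Helper326.HB.A3
import Pool.Agent.Helper326.HB.P1
import Pool.Agent.Helper326.HB.P4
import Pool.Agent.Helper326.HB.P5a
import Pool.Agent.Helper326.HB.P5b

set_option autoImplicit false
open Complex Metric Set Filter Topology Matrix

namespace Pool.Agent.Helper326.HB

theorem P3_Vv_congr {F G : ℂ → ℂ × ℂ} {x : ℂ} (h : F =ᶠ[𝓝 x] G) : Vv F x = Vv G x := by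
  unfold Vv Dd
  rw [h.eq_of_nhds, h.deriv_eq]

theorem P3_pair {F : ℂ → ℂ × ℂ} (hF : DifferentiableOn ℂ F (ball 0 1))
    (hm : MapsTo F (ball 0 1) B2) {g : Matrix (Fin 2) (Fin 2) ℂ} {A : Matrix (Fin 3) (Fin 3) ℂ}
    (h : Pair F g A) {x : ℂ} (hx : x ∈ ball (0 : ℂ) 1) : Vv F (mob g x) = Vv F x := by
  obtain ⟨hg, hA, hFA⟩ := h
  have h1 := Vv_inv hF hm hg (U3_inv hA).1 hx
  rw [← h1]
  apply P3_Vv_congr
  filter_upwards [isOpen_ball.mem_nhds hx] with t ht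
  rw [hFA t ht]
  exact (act_inv_act hA (hm ht)).1

theorem P3_diff {F : ℂ → ℂ × ℂ} (hF : DifferentiableOn ℂ F (ball 0 1))
    (hm : MapsTo F (ball 0 1) B2) {g : Matrix (Fin 2) (Fin 2) ℂ} (hg : U2 g)
    {A : Matrix (Fin 3) (Fin 3) ℂ} (hA : U3 A) :
    DifferentiableOn ℂ (fun t => act A (F (mob g t))) (ball 0 1) ∧
      MapsTo (fun t => act A (F (mob g t))) (ball 0 1) B2 := by
  constructor
  · have h1 : DifferentiableOn ℂ (mob g) (ball 0 1) := fun y hy =>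
      (mob_hasDerivAt hg hy).differentiableAt.differentiableWithinAt
    exact (act_differentiableOn hA).comp (hF.comp h1 fun y hy => mob_mem hg hy)
      fun y hy => hm (mob_mem hg hy)
  · intro y hy
    exact act_mem hA (hm (mob_mem hg hy))

theorem P3_cont {F : ℂ → ℂ × ℂ} (hF : DifferentiableOn ℂ F (ball 0 1))
    (hm : MapsTo F (ball 0 1) B2) : ContinuousOn (Vv F) (ball 0 1) := by
  have h1 : ContinuousOn F (ball 0 1) := hF.continuousOn
  have h2 : ContinuousOn (deriv F) (ball 0 1) := (hF.deriv isOpen_ball).continuousOn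
  have hq : ContinuousOn (fun y => q (F y)) (ball 0 1) := by
    unfold q
    fun_prop
  have hD : ContinuousOn (fun y => Dd F y) (ball 0 1) := by
    unfold Dd
    have h3 : ContinuousOn (fun y => (starRingEnd ℂ) (F y).1) (ball 0 1) :=
      Complex.continuous_conj.comp_continuousOn h1.fst
    have h4 : ContinuousOn (fun y => (starRingEnd ℂ) (F y).2) (ball 0 1) :=
      Complex.continuous_conj.comp_continuousOn h1.snd
    have h5 : ContinuousOn (fun y => (deriv F y).1) (ball 0 1) := h2.fst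
    have h6 : ContinuousOn (fun y => (deriv F y).2) (ball 0 1) := h2.snd
    exact (hq.mul ((h5.norm.pow 2).add (h6.norm.pow 2))).add
      (((h5.mul h3).add (h6.mul h4)).norm.pow 2)
  unfold Vv
  refine ContinuousOn.div (ContinuousOn.mul ?_ hD) (hq.pow 2) ?_
  · fun_prop
  · intro y hy
    have : 0 < q (F y) := (q_pos_iff _).2 (hm hy)
    positivity

/-- TARGET 1 (min over the compact `C` is a global min by invariance of `Vv`; renormalise) -/
theorem V_lower {F : ℂ → ℂ × ℂ} (hF : DifferentiableOn ℂ F (ball 0 1))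
    (hm : MapsTo F (ball 0 1) B2) {C : Set ℂ} (hC : Cover F C) {k : ℝ} (hk0 : 0 ≤ k)
    (hk : ∀ y ∈ ball (0 : ℂ) 1, ‖Wr F y‖ ^ 2 * q (F y) ^ 3 ≤ k * Dd F y ^ 3)
    (hpos : ∀ y ∈ C, 0 < Dd F y) : ∀ y ∈ ball (0 : ℂ) 1, 1 / (1 + k / 2) ≤ Vv F y := by
  have h0b : (0 : ℂ) ∈ ball (0 : ℂ) 1 := by simp
  obtain ⟨hCc, hCs, hCov⟩ := hC
  obtain ⟨x1, hx1, _, _, _, _⟩ := hCov 0 h0b
  obtain ⟨x0, hx0, hmin⟩ := hCc.exists_isMinOn ⟨x1, hx1⟩ ((P3_cont hF hm).mono hCs)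
  have hx0b := hCs hx0
  have hglob : ∀ y ∈ ball (0 : ℂ) 1, Vv F x0 ≤ Vv F y := by
    intro y hy
    obtain ⟨x, hx, g, A, hp, rfl⟩ := hCov y hy
    rw [P3_pair hF hm hp (hCs hx)]
    exact hmin hx
  obtain ⟨g, hg, hg0⟩ := exists_mob_zero hx0b
  obtain ⟨A, hA, hA0⟩ := exists_act_zero (hm hx0b)
  obtain ⟨hΦ, hΦm⟩ := P3_diff hF hm hg hA
  have hΦ0 : (fun t => act A (F (mob g t))) 0 = 0 := by
    change act A (F (mob g 0)) = 0
    rw [hg0]; exact hA0
  have hkap := kap_inv hF hm hg hA h0b k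
  rw [hg0] at hkap
  have hV0 := Vv_inv hF hm hg hA h0b
  rw [hg0] at hV0
  have key := min_principle hΦ hΦm hΦ0 hk0 (by
      have := hkap.1.2 (hk x0 hx0b)
      change _ * q (act A (F (mob g 0))) ^ 3 ≤ _
      rw [hg0]
      exact this) (hkap.2.1.2 (hpos x0 hx0)) (by
      intro x hx
      rw [hV0, Vv_inv hF hm hg hA hx]
      exact hglob _ (mob_mem hg hx))
  rw [hV0] at key
  intro y hy
  exact key.trans (hglob y hy)

/-- TARGET 2 (from `norm_bound`, `kap_inv`, `Vv_inv`; for `Φ 0 = 0`, `Vv Φ 0 = ‖Φ'(0)‖²`) -/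
theorem crit_of {F : ℂ → ℂ × ℂ} (hF : DifferentiableOn ℂ F (ball 0 1))
    (hm : MapsTo F (ball 0 1) B2) {k k' : ℝ} (hk0 : 0 ≤ k)
    (hk : ∀ y ∈ ball (0 : ℂ) 1, ‖Wr F y‖ ^ 2 * q (F y) ^ 3 ≤ k * Dd F y ^ 3)
    (hV : ∀ y ∈ ball (0 : ℂ) 1, 1 / (1 + k / 2) ≤ Vv F y) (hk' : k + k ^ 2 ≤ k' ^ 2) :
    Crit F k' (1 / (1 + k / 2)) := by
  intro g A hg hA hz
  have h0b : (0 : ℂ) ∈ ball (0 : ℂ) 1 := by simp
  obtain ⟨hΦ, hΦm⟩ := P3_diff hF hm hg hA
  have hkap := kap_inv hF hm hg hA h0b k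
  have hV0 := Vv_inv hF hm hg hA h0b
  have hVle : 1 / (1 + k / 2) ≤ Vv (fun t => act A (F (mob g t))) 0 := by
    rw [hV0]
    exact hV _ (mob_mem hg h0b)
  have hb := norm_bound hΦ hΦm hz hk0 (hkap.1.2 (hk _ (mob_mem hg h0b))) hVle
  refine ⟨hb.trans (mul_le_mul_of_nonneg_right hk' (by positivity)), ?_⟩
  have hD : Vv (fun t => act A (F (mob g t))) 0 =
      ‖(deriv (fun t => act A (F (mob g t))) 0).1‖ ^ 2 +
        ‖(deriv (fun t => act A (F (mob g t))) 0).2‖ ^ 2 := by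
    unfold Vv Dd q
    simp only [hz]
    simp
  rw [← hD]
  exact hVle

end Pool.Agent.Helper326.HB
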