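import Mathlib
import Pool.Agent.Helper326.HB.Defs
import Pool.Agent.Helper326.HB.A1
import Pool.Agent.Helper326.HB.A2
import Pool.Agent.Helper326.HB.A3
import Pool.Agent.Helper326.HB.P1
import Pool.Agent.Helper326.HB.P4
import Pool.Agent.Helper326.HB.P5a
import Pool.Agent.Helper326.HB.P5b

set_option autoImplicit false
open Complex Metric Set Filter Topology Matrix

namespace Pool.Agent.Helper326.HB

theorem growth_tanh_add (a b : ℝ) : Real.tanh (a + b) =
    (Real.tanh b + Real.tanh a) / (1 + Real.tanh a * Real.tanh b) := by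
  simp only [Real.tanh_eq_sinh_div_cosh, Real.sinh_add, Real.cosh_add]
  have ha := (Real.cosh_pos a).ne'
  have hb := (Real.cosh_pos b).ne'
  have hab : Real.cosh a * Real.cosh b + Real.sinh a * Real.sinh b ≠ 0 := by
    rw [← Real.cosh_add]; exact (Real.cosh_pos _).ne'
  have h1 : 1 + Real.sinh a / Real.cosh a * (Real.sinh b / Real.cosh b) ≠ 0 := by
    intro h
    apply hab
    have h2 : Real.cosh a * Real.cosh b + Real.sinh a * Real.sinh b =
        (Real.cosh a * Real.cosh b) * (1 + Real.sinh a / Real.cosh a * (Real.sinh b / Real.cosh b)) := by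
      field_simp
    rw [h2, h, mul_zero]
  rw [div_eq_div_iff hab h1]
  field_simp
  ring

theorem growth_zero_mem : (0 : ℂ × ℂ) ∈ B2 := by
  unfold B2
  simp

theorem growth_q_zero : q 0 = 1 := by
  unfold q
  simp

theorem growth_q_le (x : ℂ × ℂ) : q x ≤ 1 := by
  unfold q
  nlinarith [sq_nonneg ‖x.1‖, sq_nonneg ‖x.2‖]

theorem growth_tanh_mem (t : ℝ) : (Real.tanh t : ℂ) ∈ ball (0 : ℂ) 1 := by
  rw [mem_ball_zero_iff, Complex.norm_real, Real.norm_eq_abs]
  exact Real.abs_tanh_lt_one t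

theorem growth_diff {F : ℂ → ℂ × ℂ} (hF : DifferentiableOn ℂ F (ball 0 1))
    (hm : MapsTo F (ball 0 1) B2) {g : Matrix (Fin 2) (Fin 2) ℂ} (hg : U2 g)
    {A : Matrix (Fin 3) (Fin 3) ℂ} (hA : U3 A) :
    DifferentiableOn ℂ (fun x => act A (F (mob g x))) (ball 0 1) :=
  (act_differentiableOn hA).comp (hF.comp
    (fun _ hx => (mob_hasDerivAt hg hx).differentiableAt.differentiableWithinAt)
    (fun _ hx => mob_mem hg hx)) (fun _ hx => hm (mob_mem hg hx))

theorem growth_maps {F : ℂ → ℂ × ℂ}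
    (hm : MapsTo F (ball 0 1) B2) {g : Matrix (Fin 2) (Fin 2) ℂ} (hg : U2 g)
    {A : Matrix (Fin 3) (Fin 3) ℂ} (hA : U3 A) :
    MapsTo (fun x => act A (F (mob g x))) (ball 0 1) B2 :=
  fun _ hx => act_mem hA (hm (mob_mem hg hx))

theorem growth_ratio {B : Matrix (Fin 3) (Fin 3) ℂ} (hB : U3 B) {y : ℂ × ℂ} (hy : y ∈ B2) :
    ‖1 - (act B y).1 * (starRingEnd ℂ) (act B 0).1 -
      (act B y).2 * (starRingEnd ℂ) (act B 0).2‖ ^ 2 / (q (act B y) * q (act B 0)) = 1 / q y := by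
  have h1 := act_pair hB hy growth_zero_mem
  have h2 := q_act hB hy
  have h3 := q_act hB growth_zero_mem
  have hd := den_ne hB hy
  have hd0 := den_ne hB growth_zero_mem
  have hqy : 0 < q y := (q_pos_iff y).2 hy
  rw [growth_q_zero] at h3
  rw [h2, h3]
  have h4 : ‖1 - (act B y).1 * (starRingEnd ℂ) (act B 0).1 -
      (act B y).2 * (starRingEnd ℂ) (act B 0).2‖ * (‖den B y‖ * ‖den B 0‖) = 1 := by
    have h5 := congrArg norm h1
    rw [norm_mul, norm_mul] at h5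
    rw [RCLike.norm_conj] at h5
    rw [h5]
    simp
  obtain ⟨u, hu⟩ : ∃ u : ℝ, u = ‖1 - (act B y).1 * (starRingEnd ℂ) (act B 0).1 -
      (act B y).2 * (starRingEnd ℂ) (act B 0).2‖ := ⟨_, rfl⟩
  rw [← hu] at h4 ⊢
  have hdn : ‖den B y‖ ≠ 0 := norm_ne_zero_iff.2 hd
  have hdn0 : ‖den B 0‖ ≠ 0 := norm_ne_zero_iff.2 hd0
  have hq0 := hqy.ne'
  have h6 : u ^ 2 * (‖den B y‖ ^ 2 * ‖den B 0‖ ^ 2) = 1 := by
    have h7 : u ^ 2 * (‖den B y‖ ^ 2 * ‖den B 0‖ ^ 2) = (u * (‖den B y‖ * ‖den B 0‖)) ^ 2 := by ring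
    rw [h7, h4, one_pow]
  have h8 : q y / ‖den B y‖ ^ 2 * (1 / ‖den B 0‖ ^ 2) = q y * u ^ 2 := by
    have h9 : q y * u ^ 2 = q y * u ^ 2 * (‖den B y‖ ^ 2 * ‖den B 0‖ ^ 2) /
        (‖den B y‖ ^ 2 * ‖den B 0‖ ^ 2) := by
      field_simp
    rw [h9]
    have h10 : q y * u ^ 2 * (‖den B y‖ ^ 2 * ‖den B 0‖ ^ 2) = q y := by
      rw [mul_assoc, h6, mul_one]
    rw [h10]
    field_simp
  rw [h8]
  have hu0 : u ≠ 0 := by
    intro h0
    rw [h0] at h4
    simp at h4
  field_simp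

theorem growth {F : ℂ → ℂ × ℂ} (hF : DifferentiableOn ℂ F (ball 0 1))
    (hm : MapsTo F (ball 0 1) B2) {k c₀ : ℝ} (hk0 : 0 ≤ k) (hk1 : k < 1) (hc0 : 0 < c₀)
    (hcrit : Crit F k c₀) {g : Matrix (Fin 2) (Fin 2) ℂ} (hg : U2 g)
    {A : Matrix (Fin 3) (Fin 3) ℂ} (hA : U3 A) (h0 : act A (F (mob g 0)) = 0) {c : ℂ}
    (hc : ‖c‖ = 1) {t : ℝ} (ht : 0 ≤ t) :
    1 + (1 - k) * c₀ * t ^ 2 ≤ 1 / q (act A (F (mob g (c * (Real.tanh t : ℂ))))) := by
  have hcb : ∀ t : ℝ, c * (Real.tanh t : ℂ) ∈ ball (0 : ℂ) 1 := by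
    intro t
    rw [mem_ball_zero_iff, norm_mul, hc, one_mul, Complex.norm_real, Real.norm_eq_abs]
    exact Real.abs_tanh_lt_one t
  have hF2 : ∀ x ∈ ball (0 : ℂ) 1, F (mob g x) ∈ B2 := fun x hx => hm (mob_mem hg hx)
  have hΦ : ∀ x ∈ ball (0 : ℂ) 1, act A (F (mob g x)) ∈ B2 := fun x hx => act_mem hA (hF2 x hx)
  have he := smooth_e (φ := fun x => act A (F (mob g x))) (growth_diff hF hm hg hA)
    (growth_maps hm hg hA) hc
  obtain ⟨e, hedef⟩ : ∃ e : ℝ → ℝ, e = fun t : ℝ =>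
      1 / q (act A (F (mob g (c * (Real.tanh t : ℂ))))) := ⟨_, rfl⟩
  rw [← hedef] at he
  have het : ∀ t, e t = 1 / q (act A (F (mob g (c * (Real.tanh t : ℂ))))) := fun t => by
    rw [hedef]
  have he0 : e 0 = 1 := by
    rw [het, Real.tanh_zero, Complex.ofReal_zero, mul_zero, h0, growth_q_zero, div_one]
  have he1 : ∀ t, 1 ≤ e t := by
    intro t
    rw [het]
    exact one_le_one_div ((q_pos_iff _).2 (hΦ _ (hcb t))) (growth_q_le _)
  have he2 : ∀ t, 0 ≤ t → 2 * ((1 - k) * c₀) ≤ deriv (deriv e) t := by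
    intro t₁ _
    obtain ⟨h, hh, hmob⟩ := exists_mob c hc (Real.tanh t₁) (Real.abs_tanh_lt_one t₁)
    obtain ⟨B, hB, hB0⟩ := exists_act_zero (hΦ _ (hcb t₁))
    have hmt : ∀ t : ℝ, mob h (Real.tanh t : ℂ) = c * (Real.tanh (t₁ + t) : ℂ) := by
      intro t
      rw [hmob, growth_tanh_add]
      push_cast
      rfl
    have key : ∀ x ∈ ball (0 : ℂ) 1, act (B * A) (F (mob (g * h) x)) =
        act B (act A (F (mob g (mob h x)))) := by
      intro x hx
      rw [mob_mul hg hh hx, act_mul hB hA (hF2 _ (mob_mem hh hx))]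
    have h0b : (0 : ℂ) ∈ ball (0 : ℂ) 1 := mem_ball_self one_pos
    have hφ0 : act (B * A) (F (mob (g * h) 0)) = 0 := by
      rw [key 0 h0b, hmob 0]
      simpa using hB0
    have hcr := hcrit (g * h) (B * A) (U2_mul hg hh) (U3_mul hB hA) hφ0
    have sd := second_deriv (φ := fun x => act (B * A) (F (mob (g * h) x)))
      (growth_diff hF hm (U2_mul hg hh) (U3_mul hB hA))
      (growth_maps hm (U2_mul hg hh) (U3_mul hB hA)) hφ0 (b := act B 0)
      (act_mem hB growth_zero_mem) hk0 hk1 hcr.1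
    have hfun : (fun t : ℝ =>
        ‖1 - ((fun x => act (B * A) (F (mob (g * h) x))) (Real.tanh t : ℂ)).1 *
          (starRingEnd ℂ) (act B 0).1 -
          ((fun x => act (B * A) (F (mob (g * h) x))) (Real.tanh t : ℂ)).2 *
          (starRingEnd ℂ) (act B 0).2‖ ^ 2 /
        (q ((fun x => act (B * A) (F (mob (g * h) x))) (Real.tanh t : ℂ)) * q (act B 0))) =
        fun t => e (t₁ + t) := by
      funext t
      beta_reduce
      rw [key _ (growth_tanh_mem t), hmt t, het, growth_ratio hB (hΦ _ (hcb (t₁ + t)))]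
    rw [hfun] at sd
    have hd1 : deriv (fun t => e (t₁ + t)) = fun t => deriv e (t₁ + t) := by
      funext t
      exact deriv_comp_const_add e t₁ t
    rw [hd1, deriv_comp_const_add, add_zero] at sd
    have h1k : 0 ≤ 2 * (1 - k) := by linarith
    have h2 := mul_le_mul_of_nonneg_left hcr.2 h1k
    calc 2 * ((1 - k) * c₀) = 2 * (1 - k) * c₀ := by ring
      _ ≤ _ := h2
      _ ≤ _ := sd
  have hfin := growth_calc he he0 he1 he2 t ht
  rw [het] at hfin
  exact hfin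

theorem growth_polar (z : ℂ) (hz : z ∈ ball (0 : ℂ) 1) :
    ∃ (c : ℂ) (t : ℝ), ‖c‖ = 1 ∧ 0 ≤ t ∧ z = c * (Real.tanh t : ℂ) ∧ ‖z‖ = Real.tanh t := by
  rw [mem_ball_zero_iff] at hz
  have h1 : ‖z‖ ∈ Ioo (-1 : ℝ) 1 := ⟨by linarith [norm_nonneg z], hz⟩
  have h2 := Real.tanh_artanh h1
  by_cases h0 : z = 0
  · refine ⟨1, 0, by simp, le_rfl, ?_, ?_⟩
    · rw [h0, Real.tanh_zero]; simp
    · rw [h0, Real.tanh_zero]; simp
  · have hn : (‖z‖ : ℂ) ≠ 0 := by
      exact_mod_cast norm_ne_zero_iff.2 h0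
    refine ⟨z / ‖z‖, Real.artanh ‖z‖, ?_, Real.artanh_nonneg (norm_nonneg z), ?_, h2.symm⟩
    · rw [norm_div, Complex.norm_real, norm_norm, div_self (norm_ne_zero_iff.2 h0)]
    · rw [h2, div_mul_cancel₀ _ hn]

/-- TARGET 2: `F` is injective, proper and an immersion. (Immersion from `Crit` with `mob g 0 = y`:
the derivative of `act A ∘ F ∘ mob g` at `0` is nonzero.) -/
theorem inj_proper {F : ℂ → ℂ × ℂ} (hF : DifferentiableOn ℂ F (ball 0 1))
    (hm : MapsTo F (ball 0 1) B2) {k c₀ : ℝ} (hk0 : 0 ≤ k) (hk1 : k < 1) (hc0 : 0 < c₀)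
    (hcrit : Crit F k c₀) :
    InjOn F (ball 0 1) ∧ (∀ y ∈ ball (0 : ℂ) 1, deriv F y ≠ 0) ∧
      ∀ K : Set (ℂ × ℂ), IsCompact K → K ⊆ B2 →
        ∃ r : ℝ, 0 ≤ r ∧ r < 1 ∧ ∀ y ∈ ball (0 : ℂ) 1, F y ∈ K → ‖y‖ ≤ r := by
  have hkc : 0 < (1 - k) * c₀ := mul_pos (by linarith) hc0
  refine ⟨?_, ?_, ?_⟩
  · intro x hx y hy hxy
    obtain ⟨g, hg, hgx⟩ := exists_mob_zero hx
    obtain ⟨A, hA, hA0⟩ := exists_act_zero (hm hx)
    obtain ⟨hgi, _, _⟩ := U2_inv hg
    have hz : mob g⁻¹ y ∈ ball (0 : ℂ) 1 := mob_mem hgi hy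
    obtain ⟨c, t, hc, ht, hct, _⟩ := growth_polar _ hz
    have h1 := growth hF hm hk0 hk1 hc0 hcrit hg hA (by rw [hgx]; exact hA0) hc ht
    rw [← hct, (mob_inv_mob hg hy).2, ← hxy, hA0, growth_q_zero, div_one] at h1
    have h2 : t = 0 := by
      by_contra hne
      have h3 : 0 < t ^ 2 := by positivity
      have h4 := mul_pos hkc h3
      linarith
    rw [h2, Real.tanh_zero, Complex.ofReal_zero, mul_zero] at hct
    have h5 := (mob_inv_mob hg hy).2
    rw [hct, hgx] at h5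
    exact h5
  · intro y hy hd
    obtain ⟨g, hg, hgy⟩ := exists_mob_zero hy
    obtain ⟨A, hA, hA0⟩ := exists_act_zero (hm hy)
    have h0b : (0 : ℂ) ∈ ball (0 : ℂ) 1 := mem_ball_self one_pos
    have hcr := (hcrit g A hg hA (by rw [hgy]; exact hA0)).2
    have hFd : DifferentiableAt ℂ F y := hF.differentiableAt (isOpen_ball.mem_nhds hy)
    have e1 : HasDerivAt F 0 y := by
      rw [← hd]; exact hFd.hasDerivAt
    have e2 := mob_hasDerivAt hg h0b
    have e3 : HasDerivAt (fun t => F (mob g t)) 0 0 := by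
      rw [← hgy] at e1
      have h7 := HasDerivAt.scomp (0 : ℂ) e1 e2
      rw [smul_zero] at h7
      exact h7
    have e4 : DifferentiableAt ℂ (act A) (F (mob g 0)) := by
      rw [hgy]
      exact (act_differentiableOn hA).differentiableAt (isOpen_B2.mem_nhds (hm hy))
    have e5 := e4.hasFDerivAt.comp_hasDerivAt (0 : ℂ) e3
    rw [map_zero] at e5
    have e6 : deriv (fun t => act A (F (mob g t))) 0 = 0 := e5.deriv
    rw [e6] at hcr
    simp at hcr
    linarith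
  · intro K hK hKB
    obtain ⟨A, hA, hA0⟩ := exists_act_zero (hm (mem_ball_self one_pos : (0 : ℂ) ∈ ball (0 : ℂ) 1))
    rcases K.eq_empty_or_nonempty with hKe | hKne
    · refine ⟨0, le_rfl, one_pos, ?_⟩
      intro y _ hy
      rw [hKe] at hy
      exact absurd hy (notMem_empty _)
    · have hcont : ContinuousOn (fun x => q (act A x)) K := by
        have h1 : ContinuousOn (act A) K := (act_differentiableOn hA).continuousOn.mono hKB
        have h2 : Continuous q := by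
          unfold q
          fun_prop
        exact h2.comp_continuousOn h1
      obtain ⟨x₀, hx₀, hmin⟩ := hK.exists_isMinOn hKne hcont
      have hq0 : 0 < q (act A x₀) := (q_pos_iff _).2 (act_mem hA (hKB hx₀))
      obtain ⟨T, hT⟩ : ∃ T : ℝ, T = Real.sqrt ((1 / q (act A x₀)) / ((1 - k) * c₀)) := ⟨_, rfl⟩
      have hT0 : 0 ≤ T := by rw [hT]; exact Real.sqrt_nonneg _
      refine ⟨Real.tanh T, ?_, Real.tanh_lt_one T, ?_⟩
      · rw [Real.tanh_eq_sinh_div_cosh]
        exact div_nonneg (Real.sinh_nonneg_iff.2 hT0) (Real.cosh_pos T).le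
      · intro y hy hyK
        obtain ⟨c, t, hc, ht, hct, hyn⟩ := growth_polar _ hy
        have h1 := growth hF hm hk0 hk1 hc0 hcrit U2_one hA (by rw [mob_one]; exact hA0) hc ht
        rw [← hct, mob_one] at h1
        have h2 : q (act A x₀) ≤ q (act A (F y)) := hmin hyK
        have h3 : 1 / q (act A (F y)) ≤ 1 / q (act A x₀) := one_div_le_one_div_of_le hq0 h2
        have h4 : t ^ 2 ≤ (1 / q (act A x₀)) / ((1 - k) * c₀) := by
          rw [le_div_iff₀ hkc]
          linarith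
        have h5 : t ≤ T := by
          rw [hT]
          exact Real.le_sqrt_of_sq_le h4
        rw [hyn]
        by_contra hlt
        push Not at hlt
        have h6 : Real.artanh (Real.tanh T) < Real.artanh (Real.tanh t) :=
          Real.artanh_lt_artanh (Real.neg_one_lt_tanh _) (Real.tanh_lt_one _) hlt
        rw [Real.artanh_tanh, Real.artanh_tanh] at h6
        linarith

end Pool.Agent.Helper326.HB
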