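import Pool.Agent.Helper326.HB.Defs
import Pool.Agent.Helper326.HB.PB
import Pool.Agent.Helper326.HB.LH
import Pool.Agent.Helper326.HB.D1
import Pool.Agent.Helper326.HB.P3
import Pool.Agent.Helper326.HB.P5c
import Pool.Agent.Helper326.HB.P7
import Pool.Agent.Helper326.HB.FA2
import Pool.Agent.Helper326.HB.SB
import Pool.Agent.Helper326.HB.CS
import Pool.Agent.Helper326.HB.CP
import Pool.Agent.Helper326.HB.M1

set_option autoImplicit false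
open Complex Metric Set Filter Topology Matrix

namespace Pool.Agent.Helper326.HB

open Pool.Agent.Helper326.ProperBall in
theorem main_exists :
    ∃ (Γ : Subgroup (Bk 2 ≃ₜ Bk 2)) (f : Bk 1 → Bk 2), Γ ≤ AutB 2 ∧ IsDiscreteSubgroup Γ ∧
      IsProperHoloEmbedding f ∧ (∀ γ ∈ Γ, ∀ z, ∃ z', γ (f z) = f z') ∧
      CompactSpace (Quotient (orbitSetoid Γ (Set.range f))) ∧ ¬ IsLinearUpToAut f ∧
      ¬ ∃ a b c : ℂ, (b ≠ 0 ∨ c ≠ 0) ∧ ∀ z, a + b * (f z : EuclideanSpace ℂ (Fin 2)) 0 +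
        c * (f z : EuclideanSpace ℂ (Fin 2)) 1 = 0 := by
  obtain ⟨g1, hg0, hg1, S, g, hS, hSm, hS', hg, hSsym, hSmatch⟩ := corner_S
  obtain ⟨h1, h2, h1l, h1u, h2l, h2u, Φ, A, hΦ, hΦm, hA, hΦsym, hΦmatch⟩ := corner_Phi
  obtain ⟨sc, sm, sd, s', s0, srot⟩ := s_basics hg0 hg1
  obtain ⟨fc, fm, fd, f0, frot⟩ := f_basics h1l h1u h2l h2u
  have LH := local_hyp sc sm fc fm sd fd s' (fun w _ => ⟨srot w, frot w⟩) hS hΦ hSm hΦm hS' hg hA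
    (fun τ hτ => ⟨hSsym τ hτ, hΦsym τ hτ⟩)
    (fun τ hτ h1 h2 => ⟨hSmatch τ hτ h1 h2, hΦmatch τ hτ h1 h2⟩)
  obtain ⟨δ, hδ, hδ1, hloc⟩ := uniform_radius sc sm fc fm LH
  obtain ⟨F, hF, hm, hFs, hcov⟩ := structure_thm sc sm fc fm sd fd s0 s' hδ hδ1 hloc
  obtain ⟨hk, hpos, hW0, y₀, hy₀, hWy₀⟩ := geom hF hm hg0 hg1 h1l h1u h2l h2u hFs hcov
  have hV := V_lower hF hm hcov (by norm_num) hk hpos
  have hcrit := crit_of hF hm (k' := 0.98) (by norm_num) hk hV (by norm_num)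
  obtain ⟨hinj, himm, hprop⟩ := inj_proper hF hm (by norm_num) (by norm_num) (by norm_num) hcrit
  obtain ⟨z₁, hz₁, hz₁0, hWz₁⟩ := second_zero hF hm hcov hW0
  exact final_assembly hF hm hcov hinj himm hprop hW0 hz₁ hz₁0 hWz₁ hy₀ hWy₀

end Pool.Agent.Helper326.HB
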