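import Mathlib

set_option autoImplicit false
open Complex Metric Set Filter Topology

namespace Pool.Agent.Helper326.ProperDisc

/-- The open unit ball `𝔹ᵏ` of `ℂᵏ` (euclidean norm). -/
def Bk (k : ℕ) : Type := {z : EuclideanSpace ℂ (Fin k) // ‖z‖ < 1}

/-- The subspace topology of `𝔹ᵏ ⊆ ℂᵏ`. -/
instance instTopBk (k : ℕ) : TopologicalSpace (Bk k) :=
  inferInstanceAs (TopologicalSpace {z : EuclideanSpace ℂ (Fin k) // ‖z‖ < 1})

/-- The inclusion `𝔹ᵏ ⊆ ℂᵏ`. -/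
def pt {k : ℕ} (z : Bk k) : EuclideanSpace ℂ (Fin k) := z.1

/-- A map between unit balls is holomorphic if it is the restriction of a map which is complex
differentiable on the open unit ball. -/
def IsHolo {n N : ℕ} (f : Bk n → Bk N) : Prop :=
  ∃ F : EuclideanSpace ℂ (Fin n) → EuclideanSpace ℂ (Fin N),
    DifferentiableOn ℂ F (ball 0 1) ∧ ∀ z : Bk n, F (pt z) = pt (f z)

/-- The complex differential of `F` at `z` is injective. -/
def InjDiff {n N : ℕ} (F : EuclideanSpace ℂ (Fin n) → EuclideanSpace ℂ (Fin N))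
    (z : EuclideanSpace ℂ (Fin n)) : Prop :=
  Function.Injective (fderiv ℂ F z)

/-- Holomorphic immersion `𝔹ⁿ → 𝔹ᴺ`: holomorphic, with injective complex differential at every point
of `𝔹ⁿ`. -/
def IsHoloImmersion {n N : ℕ} (f : Bk n → Bk N) : Prop :=
  ∃ F : EuclideanSpace ℂ (Fin n) → EuclideanSpace ℂ (Fin N),
    DifferentiableOn ℂ F (ball 0 1) ∧ (∀ z : Bk n, F (pt z) = pt (f z)) ∧
      ∀ z : Bk n, InjDiff F (pt z)

/-- Proper: preimages of compact sets are compact. -/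
def IsProperMapB {n N : ℕ} (f : Bk n → Bk N) : Prop :=
  ∀ K : Set (Bk N), IsCompact K → IsCompact (f ⁻¹' K)

/-- Proper holomorphic embedding `𝔹ⁿ → 𝔹ᴺ`: a proper, injective, holomorphic immersion. -/
def IsProperHoloEmbedding {n N : ℕ} (f : Bk n → Bk N) : Prop :=
  IsHoloImmersion f ∧ Function.Injective f ∧ IsProperMapB f

/-- `γ ∈ Aut(𝔹ᵏ)`: the homeomorphism `γ` of the ball is biholomorphic. -/
def IsAut {k : ℕ} (γ : Bk k ≃ₜ Bk k) : Prop :=
  IsHolo (fun z => γ z) ∧ IsHolo (fun z => γ.symm z)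

/-- A group `Γ` of homeomorphisms of the ball is discrete if it is discrete in the compact-open
topology. -/
def IsDiscreteGroup {k : ℕ} (Γ : Subgroup (Bk k ≃ₜ Bk k)) : Prop :=
  DiscreteTopology {c : C(Bk k, Bk k) | ∃ γ ∈ Γ, ∀ z, c z = γ z}

/-- Two points of `S` are equivalent if they are in the same `Γ`-orbit. -/
def SameOrbit {k : ℕ} (Γ : Subgroup (Bk k ≃ₜ Bk k)) (S : Set (Bk k)) (x y : S) : Prop :=
  ∃ γ ∈ Γ, γ x.1 = y.1

/-- The orbit space `S/Γ` (with the quotient topology) is compact. -/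
def CompactOrbitSpace {k : ℕ} (Γ : Subgroup (Bk k ≃ₜ Bk k)) (S : Set (Bk k)) : Prop :=
  CompactSpace (Quot (SameOrbit Γ S))

/-- `f` is linear up to automorphisms of source and target: `φ (f (ψ z)) = (z, 0)` for some
`φ ∈ Aut(𝔹ᴺ)`, `ψ ∈ Aut(𝔹ⁿ)`. -/
def IsLinear {n N : ℕ} (f : Bk n → Bk N) : Prop :=
  ∃ (φ : Bk N ≃ₜ Bk N) (ψ : Bk n ≃ₜ Bk n), IsAut φ ∧ IsAut ψ ∧ ∀ (z : Bk n) (i : Fin N),
    pt (φ (f (ψ z))) i = if h : (i : ℕ) < n then pt z ⟨i, h⟩ else 0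

/-- `f(𝔹¹)` is contained in a complex affine line of `ℂ²`. -/
def InLine (f : Bk 1 → Bk 2) : Prop :=
  ∃ a b c : ℂ, (b ≠ 0 ∨ c ≠ 0) ∧ ∀ z, a + b * pt (f z) 0 + c * pt (f z) 1 = 0

end Pool.Agent.Helper326.ProperDisc
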